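import Mathlib

/-!
Q02. Bloch's theorem with a bad constant. For z0 in the ball and r' < r (with dist z0 x < r')
maximise μ(z) = |h'(z)| (r' - dist z x) over the closed ball of radius r'; at the maximum z1 put
t = (r' - dist z1 x)/2: on ball z1 t one has |h'| <= 2 |h'(z1)|, hence (Schwarz)
|h'(z) - h'(z1)| <= 3 |h'(z1)| |z - z1| / t and on |z - z1| = t/6
|h(z) - h(z1)| >= |h'(z1)| t/12; DiffContOnCl.ball_subset_image_closedBall gives a disc of radius
|h'(z1)| t / 24 = μ(z1)/48.
-/

open MeasureTheory Filter Topology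

namespace Pool.Agent.Lib.MP_e4ee3e_an

theorem bloch_lite {h : ℂ → ℂ} {x : ℂ} {r R : ℝ} (hr : 0 < r) (hR : 0 < R)
    (hd : DifferentiableOn ℂ h (Metric.ball x r))
    (hno : ∀ c : ℂ, ¬ Metric.ball c R ⊆ h '' Metric.ball x r) :
    ∀ z ∈ Metric.ball x r, ‖deriv h z‖ * (r - dist z x) ≤ 48 * R := by
  intro z₀ hz₀
  by_contra hlt
  push Not at hlt
  have hz₀' : dist z₀ x < r := hz₀
  -- a smaller radius
  obtain ⟨r', hr'1, hr'2, hr'3⟩ : ∃ r' : ℝ, dist z₀ x < r' ∧ r' < r ∧
      48 * R < ‖deriv h z₀‖ * (r' - dist z₀ x) := by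
    have hc : Continuous fun s : ℝ => ‖deriv h z₀‖ * (s - dist z₀ x) := by fun_prop
    have h1 : ∀ᶠ s in 𝓝 r, 48 * R < ‖deriv h z₀‖ * (s - dist z₀ x) :=
      (hc.tendsto r).eventually (lt_mem_nhds hlt)
    have h2 : ∀ᶠ s in 𝓝 r, dist z₀ x < s := lt_mem_nhds hz₀'
    have h3 : ∀ᶠ s in 𝓝[<] r, s < r := self_mem_nhdsWithin
    obtain ⟨s, hs1, hs2, hs3⟩ := ((h1.filter_mono nhdsWithin_le_nhds).and
      ((h2.filter_mono nhdsWithin_le_nhds).and h3)).exists
    exact ⟨s, hs2, hs3, hs1⟩
  have hr'0 : 0 < r' := dist_nonneg.trans_lt hr'1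
  have hsub : Metric.closedBall x r' ⊆ Metric.ball x r := Metric.closedBall_subset_ball hr'2
  have han : AnalyticOnNhd ℂ h (Metric.ball x r) := hd.analyticOnNhd Metric.isOpen_ball
  have hdan : AnalyticOnNhd ℂ (deriv h) (Metric.ball x r) := han.deriv
  have hcont : ContinuousOn (fun z => ‖deriv h z‖ * (r' - dist z x)) (Metric.closedBall x r') := by
    apply ContinuousOn.mul
    · exact (hdan.continuousOn.mono hsub).norm
    · fun_prop
  obtain ⟨z₁, hz₁, hmax⟩ := (isCompact_closedBall x r').exists_isMaxOn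
    ⟨x, Metric.mem_closedBall_self hr'0.le⟩ hcont
  have hμ : 48 * R < ‖deriv h z₁‖ * (r' - dist z₁ x) :=
    hr'3.trans_le (hmax (Metric.mem_closedBall.2 hr'1.le))
  set M : ℝ := ‖deriv h z₁‖ with hM
  have hz₁' : dist z₁ x ≤ r' := hz₁
  have hMpos : 0 < M := by
    have h0 : 0 ≤ M := norm_nonneg _
    rcases h0.eq_or_lt with h1 | h1
    · rw [← h1] at hμ
      linarith
    · exact h1
  have hpos : 0 < r' - dist z₁ x := by
    by_contra hc
    push Not at hc
    have : M * (r' - dist z₁ x) ≤ 0 := mul_nonpos_of_nonneg_of_nonpos hMpos.le hc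
    linarith
  set t : ℝ := (r' - dist z₁ x) / 2 with ht
  have htpos : 0 < t := by positivity
  have hballt : Metric.closedBall z₁ t ⊆ Metric.closedBall x r' := by
    apply Metric.closedBall_subset_closedBall'
    rw [ht]
    linarith
  have hder : ∀ z ∈ Metric.closedBall z₁ t, ‖deriv h z‖ ≤ 2 * M := by
    intro z hz
    have h1 := hmax (hballt hz)
    have h2 : t ≤ r' - dist z x := by
      have h3 := dist_triangle z z₁ x
      have h4 : dist z z₁ ≤ t := hz
      linarith
    have h5 : ‖deriv h z‖ * t ≤ ‖deriv h z‖ * (r' - dist z x) :=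
      mul_le_mul_of_nonneg_left h2 (norm_nonneg _)
    have h6 : ‖deriv h z‖ * t ≤ (2 * M) * t := by
      calc ‖deriv h z‖ * t ≤ M * (r' - dist z₁ x) := h5.trans h1
        _ = (2 * M) * t := by rw [ht]; ring
    exact le_of_mul_le_mul_right h6 htpos
  -- Schwarz for the derivative
  have hsch : ∀ z ∈ Metric.ball z₁ t, ‖deriv h z - deriv h z₁‖ ≤ 3 * M / t * dist z z₁ := by
    intro z hz
    have hdd : DifferentiableOn ℂ (deriv h) (Metric.ball z₁ t) :=
      (hdan.differentiableOn).mono
        ((Metric.ball_subset_closedBall.trans hballt).trans hsub)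
    have hmaps : Set.MapsTo (deriv h) (Metric.ball z₁ t) (Metric.closedBall (deriv h z₁) (3 * M)) := by
      intro w hw
      rw [Metric.mem_closedBall, dist_eq_norm]
      have h1 := hder w (Metric.ball_subset_closedBall hw)
      have h2 := norm_sub_le (deriv h w) (deriv h z₁)
      have h3 : ‖deriv h z₁‖ = M := rfl
      rw [h3] at h2
      linarith
    have := Complex.dist_le_div_mul_dist_of_mapsTo_ball hdd hmaps hz
    rw [dist_eq_norm] at this
    exact this
  set s : ℝ := t / 6 with hs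
  have hspos : 0 < s := by positivity
  have hst : s < t := by rw [hs]; linarith
  have hclosed : Metric.closedBall z₁ s ⊆ Metric.ball z₁ t := Metric.closedBall_subset_ball hst
  -- mean value inequality
  have hmv : ∀ z ∈ Metric.closedBall z₁ s,
      ‖h z - h z₁ - deriv h z₁ * (z - z₁)‖ ≤ (3 * M / t * s) * ‖z - z₁‖ := by
    intro z hz
    have hdiff : ∀ w ∈ Metric.closedBall z₁ s, HasDerivWithinAt
        (fun w => h w - deriv h z₁ * w) (deriv h w - deriv h z₁) (Metric.closedBall z₁ s) w := by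
      intro w hw
      have h1 : DifferentiableAt ℂ h w :=
        (han w (hsub (hballt (Metric.ball_subset_closedBall (hclosed hw))))).differentiableAt
      have h2 : HasDerivAt (fun w => h w - deriv h z₁ * w) (deriv h w - deriv h z₁ * 1) w :=
        h1.hasDerivAt.sub ((hasDerivAt_id w).const_mul _)
      rw [mul_one] at h2
      exact h2.hasDerivWithinAt
    have hbound : ∀ w ∈ Metric.closedBall z₁ s, ‖deriv h w - deriv h z₁‖ ≤ 3 * M / t * s := by
      intro w hw
      refine (hsch w (hclosed hw)).trans ?_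
      have : dist w z₁ ≤ s := hw
      gcongr
    have := (convex_closedBall z₁ s).norm_image_sub_le_of_norm_hasDerivWithin_le hdiff hbound
      (Metric.mem_closedBall_self hspos.le) hz
    have e : h z - deriv h z₁ * z - (h z₁ - deriv h z₁ * z₁) =
        h z - h z₁ - deriv h z₁ * (z - z₁) := by ring
    rw [← e]
    exact this
  have hsphere : ∀ z ∈ Metric.sphere z₁ s, M * t / 12 ≤ ‖h z - h z₁‖ := by
    intro z hz
    have h1 := hmv z (Metric.sphere_subset_closedBall hz)
    have h2 : ‖z - z₁‖ = s := by rw [← dist_eq_norm]; exact hz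
    rw [h2] at h1
    have h3 : ‖deriv h z₁ * (z - z₁)‖ = M * s := by rw [norm_mul, h2]
    have h4 : ‖deriv h z₁ * (z - z₁)‖ ≤ ‖h z - h z₁‖ +
        ‖h z - h z₁ - deriv h z₁ * (z - z₁)‖ := by
      have := norm_sub_le (h z - h z₁) (h z - h z₁ - deriv h z₁ * (z - z₁))
      have e : h z - h z₁ - (h z - h z₁ - deriv h z₁ * (z - z₁)) = deriv h z₁ * (z - z₁) := by ring
      rw [e] at this
      exact this
    have h5 : 3 * M / t * s * s = M * t / 12 := by
      rw [hs]
      field_simp
      ring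
    have h6 : M * s = M * t / 6 := by rw [hs]; ring
    rw [h5] at h1
    rw [h3, h6] at h4
    linarith
  have hdc : DiffContOnCl ℂ h (Metric.ball z₁ s) := by
    apply DifferentiableOn.diffContOnCl
    rw [closure_ball z₁ hspos.ne']
    exact hd.mono ((hclosed.trans (Metric.ball_subset_closedBall.trans hballt)).trans hsub)
  have hfreq : ∃ᶠ z in 𝓝 z₁, h z ≠ h z₁ := by
    intro hev
    have h1 : ∀ᶠ z in 𝓝 z₁, h z = h z₁ := by
      filter_upwards [hev] with z hz
      exact not_not.1 hz
    have h2 : deriv h z₁ = 0 := by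
      have h3 : h =ᶠ[𝓝 z₁] fun _ => h z₁ := h1
      rw [h3.deriv_eq]
      simp
    rw [hM, h2, norm_zero] at hMpos
    exact lt_irrefl _ hMpos
  have himg := hdc.ball_subset_image_closedBall hspos hsphere hfreq
  apply hno (h z₁)
  intro w hw
  have hw' : w ∈ Metric.ball (h z₁) (M * t / 12 / 2) := by
    refine Metric.ball_subset_ball ?_ hw
    have h1 : M * (r' - dist z₁ x) = 2 * (M * t) := by rw [ht]; ring
    rw [h1] at hμ
    nlinarith
  obtain ⟨z, hz, hzw⟩ := himg hw'
  exact ⟨z, hsub (hballt (Metric.ball_subset_closedBall (hclosed hz))), hzw⟩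

end Pool.Agent.Lib.MP_e4ee3e_an
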