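import Mathlib

/-!
Q03. Logarithms of nonvanishing holomorphic functions on discs: primitive of g'/g (DifferentiableOn.isExactOn_ball in Mathlib.Analysis.Complex.HasPrimitives); square roots are exp(F/2).
-/

open MeasureTheory Filter Topology

namespace Pool.Agent.Lib.MP_e4ee3e_an

theorem exists_log_ball {g : ℂ → ℂ} {x : ℂ} {r : ℝ} (hr : 0 < r)
    (hd : DifferentiableOn ℂ g (Metric.ball x r)) (h0 : ∀ z ∈ Metric.ball x r, g z ≠ 0) :
    ∃ F : ℂ → ℂ, DifferentiableOn ℂ F (Metric.ball x r) ∧
      ∀ z ∈ Metric.ball x r, Complex.exp (F z) = g z := by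
  have hx : x ∈ Metric.ball x r := Metric.mem_ball_self hr
  have hg' : DifferentiableOn ℂ (fun z => deriv g z / g z) (Metric.ball x r) :=
    (hd.deriv Metric.isOpen_ball).div hd h0
  obtain ⟨F, hF1, hF2⟩ := hg'.isExactOn_ball.with_val_at x (Complex.log (g x))
  have hG : ∀ z ∈ Metric.ball x r, HasDerivAt (fun z => Complex.exp (-F z) * g z) 0 z := by
    intro z hz
    have hgz : HasDerivAt g (deriv g z) z :=
      (hd.differentiableAt (Metric.isOpen_ball.mem_nhds hz)).hasDerivAt
    have h1 := ((hF2 z hz).neg.cexp).mul hgz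
    have h2 : Complex.exp (-F z) * -(deriv g z / g z) * g z + Complex.exp (-F z) * deriv g z = 0 := by
      have := h0 z hz
      field_simp
      ring
    rw [← h2]
    exact h1
  refine ⟨F, fun z hz => (hF2 z hz).differentiableAt.differentiableWithinAt, ?_⟩
  intro z hz
  have hconst : Complex.exp (-F z) * g z = Complex.exp (-F x) * g x :=
    Metric.isOpen_ball.is_const_of_deriv_eq_zero (convex_ball x r).isPreconnected
      (fun w hw => (hG w hw).differentiableAt.differentiableWithinAt)
      (fun w hw => (hG w hw).deriv) hz hx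
  have h2 : Complex.exp (-F x) * g x = 1 := by
    rw [hF1, Complex.exp_neg, Complex.exp_log (h0 x hx)]
    exact inv_mul_cancel₀ (h0 x hx)
  rw [h2, Complex.exp_neg] at hconst
  field_simp at hconst
  exact hconst.symm

end Pool.Agent.Lib.MP_e4ee3e_an
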