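import Pool.Agent.Lib.MP_e4ee3e_an.Q01
import Pool.Agent.Lib.MP_e4ee3e_an.Q02
import Pool.Agent.Lib.MP_e4ee3e_an.Q03

/-!
Q04. Schottky's theorem, omitted values 0 and 1. F = log g/(2πi) with |Re F(x)| <= 1 (subtract an integer), so |F(x)| <= 1 + (log(M+1) + log 2)/(2π); F omits the integers. A = sqrt F, B = sqrt(F-1), H = A - B nonvanishing ((A-B)(A+B) = 1), h = log H with |Im h(x)| <= π; then A = cosh h, F = cosh(h)^2, and |h(x)| is bounded in terms of M. h omits all b with cosh(b)^2 an integer (cosh_sq_net), so its image contains no ball of radius 3; bloch_lite: |h'(z)| <= 48*3*2/r on ball x (r/2), hence |h(z) - h(x)| <= 144 there; g = exp(2πi cosh(h)^2).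
-/

open MeasureTheory Filter Topology

namespace Pool.Agent.Lib.MP_e4ee3e_an

theorem q04_log {g : ℂ → ℂ} {x : ℂ} {r : ℝ} (hr : 0 < r)
    (hd : DifferentiableOn ℂ g (Metric.ball x r)) (h0 : ∀ z ∈ Metric.ball x r, g z ≠ 0) :
    ∃ F : ℂ → ℂ, DifferentiableOn ℂ F (Metric.ball x r) ∧
      (∀ z ∈ Metric.ball x r, Complex.exp (F z) = g z) ∧ F x = Complex.log (g x) := by
  have hx : x ∈ Metric.ball x r := Metric.mem_ball_self hr
  obtain ⟨F, hF1, hF2⟩ := exists_log_ball hr hd h0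
  refine ⟨fun z => F z + (Complex.log (g x) - F x), hF1.add_const _, ?_, by ring⟩
  intro z hz
  simp only []
  rw [Complex.exp_add, Complex.exp_sub, Complex.exp_log (h0 x hx), hF2 z hz, hF2 x hx,
    div_self (h0 x hx), mul_one]

theorem q04_sqrt {g : ℂ → ℂ} {x : ℂ} {r : ℝ} (hr : 0 < r)
    (hd : DifferentiableOn ℂ g (Metric.ball x r)) (h0 : ∀ z ∈ Metric.ball x r, g z ≠ 0) :
    ∃ A : ℂ → ℂ, DifferentiableOn ℂ A (Metric.ball x r) ∧
      (∀ z ∈ Metric.ball x r, A z ^ 2 = g z) := by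
  obtain ⟨F, hF1, hF2⟩ := exists_log_ball hr hd h0
  refine ⟨fun z => Complex.exp (F z / 2), (hF1.div_const 2).cexp, ?_⟩
  intro z hz
  simp only []
  rw [← Complex.exp_nat_mul]
  rw [← hF2 z hz]
  congr 1
  push_cast
  ring

theorem q04_norm_log (w : ℂ) : ‖Complex.log w‖ ≤ |Real.log ‖w‖| + Real.pi := by
  have h1 := Complex.norm_le_abs_re_add_abs_im (Complex.log w)
  have h2 : |(Complex.log w).im| ≤ Real.pi := by
    rw [Complex.log_im]; exact Complex.abs_arg_le_pi w
  rw [Complex.log_re] at h1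
  linarith

theorem q04_cosh (w : ℂ) : ‖Complex.cosh w‖ ≤ Real.exp ‖w‖ := by
  have h1 : ‖Complex.exp w‖ ≤ Real.exp ‖w‖ := Complex.norm_exp_le_exp_norm w
  have h2 : ‖Complex.exp (-w)‖ ≤ Real.exp ‖w‖ := by
    have := Complex.norm_exp_le_exp_norm (-w)
    rwa [norm_neg] at this
  rw [Complex.cosh, norm_div]
  have h3 := norm_add_le (Complex.exp w) (Complex.exp (-w))
  have h4 : ‖(2 : ℂ)‖ = 2 := by simp
  rw [h4]
  linarith

theorem q04_sq {a t : ℝ} (h : a ^ 2 ≤ t) : a ≤ t + 1 := by nlinarith [sq_nonneg (a - 1)]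

theorem q04_abs_log {a S : ℝ} (ha : 0 < a) (h1 : a ≤ S) (h2 : 1 / a ≤ S) : |Real.log a| ≤ S := by
  have hS : 0 < S := lt_of_lt_of_le ha h1
  have hlogS : Real.log S ≤ S := by
    have := Real.log_le_sub_one_of_pos hS
    linarith
  rw [abs_le]
  constructor
  · have h3 : Real.log (1 / a) ≤ Real.log S := Real.log_le_log (by positivity) h2
    rw [one_div, Real.log_inv] at h3
    linarith
  · have h3 : Real.log a ≤ Real.log S := Real.log_le_log ha h1
    linarith

theorem schottky01 (M : ℝ) : ∃ M' : ℝ, ∀ (x : ℂ) (r : ℝ) (g : ℂ → ℂ), 0 < r →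
    DifferentiableOn ℂ g (Metric.ball x r) → (∀ z ∈ Metric.ball x r, g z ≠ 0 ∧ g z ≠ 1) →
    1 / 2 ≤ ‖g x‖ → ‖g x‖ ≤ M → ∀ z ∈ Metric.ball x (r / 2), ‖g z‖ ≤ M' := by
  obtain ⟨T, hT⟩ : ∃ T : ℝ, T = (Real.log 2 + |Real.log M|) + Real.pi := ⟨_, rfl⟩
  obtain ⟨S, hS⟩ : ∃ S : ℝ, S = (T + 1) + ((T + 1) + 1) := ⟨_, rfl⟩
  refine ⟨Real.exp (2 * Real.pi * Real.exp (S + Real.pi + 144) ^ 2), ?_⟩
  intro x r g hr hd h01 hlow hup
  have hx : x ∈ Metric.ball x r := Metric.mem_ball_self hr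
  have hpi : (2 * Real.pi * Complex.I : ℂ) ≠ 0 := Complex.two_pi_I_ne_zero
  -- step 1
  obtain ⟨F0, hF0d, hF0, hF0x⟩ := q04_log hr hd (fun z hz => (h01 z hz).1)
  obtain ⟨F, hF⟩ : ∃ F : ℂ → ℂ, ∀ z, F z = F0 z / (2 * Real.pi * Complex.I) := ⟨_, fun z => rfl⟩
  have hFd : DifferentiableOn ℂ F (Metric.ball x r) := by
    have : F = fun z => F0 z / (2 * Real.pi * Complex.I) := funext hF
    rw [this]
    exact hF0d.div_const _
  have hFg : ∀ z ∈ Metric.ball x r, Complex.exp (2 * Real.pi * Complex.I * F z) = g z := by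
    intro z hz
    rw [hF, mul_div_cancel₀ _ hpi]
    exact hF0 z hz
  have hFint : ∀ z ∈ Metric.ball x r, ∀ m : ℤ, F z ≠ (m : ℂ) := by
    intro z hz m hm
    apply (h01 z hz).2
    rw [← hFg z hz, hm, Complex.exp_eq_one_iff]
    exact ⟨m, by ring⟩
  have hFx : ‖F x‖ ≤ T := by
    rw [hF, hF0x, norm_div]
    have h1 : (1 : ℝ) ≤ ‖(2 * Real.pi * Complex.I : ℂ)‖ := by
      have h2 : ‖(2 * Real.pi * Complex.I : ℂ)‖ = 2 * Real.pi := by
        simp [abs_of_pos Real.pi_pos]
      rw [h2]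
      have := Real.pi_gt_three
      linarith
    have h3 : ‖Complex.log (g x)‖ / ‖(2 * Real.pi * Complex.I : ℂ)‖ ≤ ‖Complex.log (g x)‖ :=
      div_le_self (norm_nonneg _) h1
    have h4 := q04_norm_log (g x)
    have h5 : |Real.log ‖g x‖| ≤ Real.log 2 + |Real.log M| := by
      have hpos : 0 < ‖g x‖ := by linarith
      rw [abs_le]
      constructor
      · have h6 : Real.log (1 / 2) ≤ Real.log ‖g x‖ := Real.log_le_log (by norm_num) hlow
        rw [one_div, Real.log_inv] at h6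
        have := abs_nonneg (Real.log M)
        linarith
      · have h6 : Real.log ‖g x‖ ≤ Real.log M := Real.log_le_log hpos hup
        have h7 := le_abs_self (Real.log M)
        have h8 : 0 ≤ Real.log 2 := Real.log_nonneg (by norm_num)
        linarith
    rw [hT]
    linarith
  -- step 2
  obtain ⟨A, hAd, hA⟩ := q04_sqrt hr hFd (fun z hz => by
    have := hFint z hz 0
    simpa using this)
  obtain ⟨B, hBd, hB⟩ := q04_sqrt (g := fun z => F z - 1) hr (hFd.sub_const 1) (fun z hz => by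
    have := hFint z hz 1
    simp only [Int.cast_one] at this
    exact sub_ne_zero.mpr this)
  have hAB : ∀ z ∈ Metric.ball x r, (A z - B z) * (A z + B z) = 1 := by
    intro z hz
    have h1 := hA z hz
    have h2 := hB z hz
    linear_combination h1 - h2
  have hAB0 : ∀ z ∈ Metric.ball x r, A z - B z ≠ 0 := by
    intro z hz h0
    have := hAB z hz
    rw [h0, zero_mul] at this
    exact zero_ne_one this
  -- step 3
  obtain ⟨h, hhd, hh, hhx⟩ := q04_log (g := fun z => A z - B z) hr (hAd.sub hBd) hAB0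
  have hcosh : ∀ z ∈ Metric.ball x r, Complex.cosh (h z) = A z := by
    intro z hz
    have h1 := hh z hz
    have h2 : Complex.exp (-h z) = A z + B z := by
      rw [Complex.exp_neg, h1]
      exact inv_eq_of_mul_eq_one_right (hAB z hz)
    rw [Complex.cosh, h1, h2]
    ring
  have hcosh2 : ∀ z ∈ Metric.ball x r, Complex.cosh (h z) ^ 2 = F z := by
    intro z hz
    rw [hcosh z hz, hA z hz]
  have hAx : ‖A x‖ ≤ T + 1 := by
    apply q04_sq
    rw [← norm_pow, hA x hx]
    exact hFx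
  have hBx : ‖B x‖ ≤ (T + 1) + 1 := by
    apply q04_sq
    rw [← norm_pow, hB x hx]
    have := norm_sub_le (F x) 1
    rw [norm_one] at this
    linarith
  have hhxn : ‖h x‖ ≤ S + Real.pi := by
    rw [hhx]
    refine (q04_norm_log (A x - B x)).trans ?_
    have hp : 0 < ‖A x - B x‖ := norm_pos_iff.mpr (hAB0 x hx)
    have h1 : ‖A x - B x‖ ≤ S := by
      have := norm_sub_le (A x) (B x)
      rw [hS]
      linarith
    have h2 : 1 / ‖A x - B x‖ ≤ S := by
      have h3 : 1 / ‖A x - B x‖ = ‖A x + B x‖ := by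
        have h4 : ‖A x - B x‖ * ‖A x + B x‖ = 1 := by
          rw [← norm_mul, hAB x hx, norm_one]
        field_simp
        linarith
      rw [h3]
      have := norm_add_le (A x) (B x)
      rw [hS]
      linarith
    have h5 := q04_abs_log hp h1 h2
    linarith
  -- step 4
  have hno : ∀ c : ℂ, ¬ Metric.ball c 3 ⊆ h '' Metric.ball x r := by
    intro c hc
    obtain ⟨b, hb, m, hm⟩ := cosh_sq_net c
    have hb' : b ∈ Metric.ball c 3 := by
      rw [Metric.mem_ball, dist_comm, dist_eq_norm]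
      exact hb
    obtain ⟨z, hz, rfl⟩ := hc hb'
    rw [hcosh2 z hz] at hm
    exact hFint z hz m hm
  -- step 5
  have hbl := bloch_lite hr (by norm_num : (0 : ℝ) < 3) hhd hno
  intro z hz
  have hsub : Metric.ball x (r / 2) ⊆ Metric.ball x r := Metric.ball_subset_ball (by linarith)
  have hzr : z ∈ Metric.ball x r := hsub hz
  have hder : ∀ w ∈ Metric.ball x (r / 2), ‖deriv h w‖ ≤ 288 / r := by
    intro w hw
    have h1 := hbl w (hsub hw)
    have h2 : r / 2 ≤ r - dist w x := by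
      rw [Metric.mem_ball] at hw
      linarith
    have h3 : ‖deriv h w‖ * (r / 2) ≤ 48 * 3 :=
      (mul_le_mul_of_nonneg_left h2 (norm_nonneg _)).trans h1
    rw [le_div_iff₀ hr]
    linarith
  have hmv : ‖h z - h x‖ ≤ 288 / r * ‖z - x‖ :=
    (convex_ball x (r / 2)).norm_image_sub_le_of_norm_deriv_le
      (fun w hw => hhd.differentiableAt (Metric.isOpen_ball.mem_nhds (hsub hw))) hder
      (Metric.mem_ball_self (by linarith)) hz
  have hzx : ‖z - x‖ ≤ r / 2 := by
    rw [Metric.mem_ball, dist_eq_norm] at hz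
    linarith
  have hmv2 : ‖h z - h x‖ ≤ 144 := by
    refine hmv.trans ?_
    have : 288 / r * ‖z - x‖ ≤ 288 / r * (r / 2) := mul_le_mul_of_nonneg_left hzx (by positivity)
    refine this.trans (le_of_eq ?_)
    field_simp
    norm_num
  have hhz : ‖h z‖ ≤ S + Real.pi + 144 := by
    have h1 : ‖h z‖ ≤ ‖h z - h x‖ + ‖h x‖ := by
      have := norm_add_le (h z - h x) (h x)
      rwa [sub_add_cancel] at this
    linarith
  rw [← hFg z hzr, ← hcosh2 z hzr]
  refine (Complex.norm_exp_le_exp_norm _).trans (Real.exp_le_exp.mpr ?_)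
  have h2 : ‖(2 * Real.pi * Complex.I : ℂ)‖ = 2 * Real.pi := by
    simp [abs_of_pos Real.pi_pos]
  rw [norm_mul, h2, norm_pow]
  have h3 : ‖Complex.cosh (h z)‖ ≤ Real.exp (S + Real.pi + 144) :=
    (q04_cosh _).trans (Real.exp_le_exp.mpr hhz)
  have h4 : ‖Complex.cosh (h z)‖ ^ 2 ≤ Real.exp (S + Real.pi + 144) ^ 2 :=
    pow_le_pow_left₀ (norm_nonneg _) h3 2
  exact mul_le_mul_of_nonneg_left h4 (by positivity)

end Pool.Agent.Lib.MP_e4ee3e_an
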