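import Pool.Agent.Lib.MP_e4ee3e_an.Setup

/-!
X02. Conditional measures on the sigma-algebra of invariant sets: null sets, constancy of invariant
functions, invariance. (a) the integral over ν of the kernel is ν (condExpKernel_comp_trim or
condExpKernel_ae_eq_condExp). (b) for invariant h and rational q the set {h < q} is in
invariants S, so the kernel gives it mass 1 or 0 according to h ω < q, a.e. (c) for F in a
countable pi-system generating the sigma-algebra: kernel(S^-1 F) = condExp of the indicator of F o S
= condExp of the indicator of F = kernel F a.e., since for invariant A the integrals over A agree.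
Then ext of finite measures on a pi-system.
-/

open MeasureTheory Filter Topology

namespace Pool.Agent.Lib.MP_e4ee3e_an

attribute [local instance] chMetric

/-- A countable pi-system generating the sigma-algebra. -/
theorem x02_gen (Y : Type*) [mY : MeasurableSpace Y] [StandardBorelSpace Y] :
    ∃ F : ℚ → Set Y, (∀ q, MeasurableSet (F q)) ∧ IsPiSystem (Set.range F) ∧
      mY = MeasurableSpace.generateFrom (Set.range F) := by
  have hemb := measurableEmbedding_embeddingReal Y
  refine ⟨fun q => embeddingReal Y ⁻¹' Set.Iio (q : ℝ), fun q => hemb.measurable measurableSet_Iio,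
    ?_, ?_⟩
  · rintro _ ⟨q, rfl⟩ _ ⟨q', rfl⟩ _
    refine ⟨min q q', ?_⟩
    ext y
    simp [Rat.cast_min]
  · have h1 : MeasurableSpace.comap (embeddingReal Y) (borel ℝ) = mY := by
      have := hemb.comap_eq
      rwa [BorelSpace.measurable_eq (α := ℝ)] at this
    rw [Real.borel_eq_generateFrom_Iio_rat, MeasurableSpace.comap_generateFrom] at h1
    refine h1.symm.trans ?_
    congr 1
    ext s
    constructor
    · rintro ⟨t, ht, rfl⟩
      obtain ⟨q, hq⟩ := Set.mem_iUnion.1 ht
      rw [Set.mem_singleton_iff] at hq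
      exact ⟨q, by rw [hq]⟩
    · rintro ⟨q, rfl⟩
      exact ⟨Set.Iio (q : ℝ), Set.mem_iUnion.2 ⟨q, rfl⟩, rfl⟩

open ProbabilityTheory in
theorem condKernel_null {Y : Type*} [MeasurableSpace Y] [StandardBorelSpace Y] (S : Y → Y)
    {ν : Measure Y} [IsProbabilityMeasure ν] {A : Set Y} (hA : ν A = 0) :
    ∀ᵐ ω ∂ν, condExpKernel ν (MeasurableSpace.invariants S) ω A = 0 := by
  have hm := MeasurableSpace.invariants_le S
  have h1 : ∀ᵐ y ∂(Measure.bind (ν.trim hm)
      (condExpKernel ν (MeasurableSpace.invariants S))), y ∉ A := by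
    have h2 := condExpKernel_comp_trim (μ := ν) hm
    rw [h2]
    exact measure_eq_zero_iff_ae_notMem.1 hA
  have h3 := Measure.ae_ae_of_ae_comp h1
  have h4 := ae_of_ae_trim hm h3
  filter_upwards [h4] with ω hω
  exact measure_eq_zero_iff_ae_notMem.2 hω

open ProbabilityTheory in
theorem x02_invset {Y : Type*} [MeasurableSpace Y] [StandardBorelSpace Y] {S : Y → Y}
    {ν : Measure Y} [IsProbabilityMeasure ν] {s : Set Y} (hs : MeasurableSet s)
    (hinv : S ⁻¹' s = s) :
    ∀ᵐ ω ∂ν, (ω ∈ s → condExpKernel ν (MeasurableSpace.invariants S) ω sᶜ = 0) ∧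
      (ω ∉ s → condExpKernel ν (MeasurableSpace.invariants S) ω s = 0) := by
  have hm := MeasurableSpace.invariants_le S
  have h1 := condExpKernel_ae_eq_condExp (μ := ν) hm hs
  have h2 : condExp (MeasurableSpace.invariants S) ν (s.indicator fun _ => (1 : ℝ)) =
      s.indicator fun _ => (1 : ℝ) := by
    apply condExp_of_stronglyMeasurable hm
    · exact stronglyMeasurable_const.indicator ⟨hs, hinv⟩
    · exact (integrable_const 1).indicator hs
  rw [h2] at h1
  filter_upwards [h1] with ω hω
  constructor
  · intro hωs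
    rw [Set.indicator_of_mem hωs] at hω
    rw [prob_compl_eq_zero_iff hs]
    rw [measureReal_def] at hω
    rwa [ENNReal.toReal_eq_one_iff] at hω
  · intro hωs
    rw [Set.indicator_of_notMem hωs] at hω
    rw [measureReal_def, ENNReal.toReal_eq_zero_iff] at hω
    rcases hω with h | h
    · exact h
    · exact absurd h (measure_ne_top _ _)

open ProbabilityTheory in
theorem condKernel_const {Y : Type*} [MeasurableSpace Y] [StandardBorelSpace Y] {S : Y → Y}
    {ν : Measure Y} [IsProbabilityMeasure ν] (h : Y → ℝ)
    (hm : Measurable h) (hinv : ∀ y, h (S y) = h y) :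
    ∀ᵐ ω ∂ν, ∀ᵐ y ∂(condExpKernel ν (MeasurableSpace.invariants S) ω), h y = h ω := by
  have h1 : ∀ q : ℚ, ∀ᵐ ω ∂ν,
      (ω ∈ {y | h y < q} →
        condExpKernel ν (MeasurableSpace.invariants S) ω {y | h y < q}ᶜ = 0) ∧
      (ω ∉ {y | h y < q} →
        condExpKernel ν (MeasurableSpace.invariants S) ω {y | h y < q} = 0) := by
    intro q
    apply x02_invset
    · exact measurableSet_lt hm measurable_const
    · ext y
      simp [hinv]
  have h2 := ae_all_iff.2 h1
  filter_upwards [h2] with ω hω
  have h3 : ∀ q : ℚ, ∀ᵐ y ∂(condExpKernel ν (MeasurableSpace.invariants S) ω),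
      (h ω < q → h y < q) ∧ (¬ h ω < q → ¬ h y < q) := by
    intro q
    by_cases hq : h ω < q
    · have h4 := measure_eq_zero_iff_ae_notMem.1 ((hω q).1 hq)
      filter_upwards [h4] with y hy
      refine ⟨fun _ => ?_, fun h5 => absurd hq h5⟩
      by_contra hc
      exact hy hc
    · have h4 := measure_eq_zero_iff_ae_notMem.1 ((hω q).2 hq)
      filter_upwards [h4] with y hy
      exact ⟨fun h5 => absurd h5 hq, fun _ => hy⟩
  filter_upwards [ae_all_iff.2 h3] with y hy
  apply le_antisymm
  · by_contra hc
    obtain ⟨q, hq1, hq2⟩ := exists_rat_btwn (not_le.1 hc)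
    exact absurd ((hy q).1 hq1) (not_lt.2 hq2.le)
  · by_contra hc
    obtain ⟨q, hq1, hq2⟩ := exists_rat_btwn (not_le.1 hc)
    exact (hy q).2 (not_lt.2 hq2.le) hq1

open ProbabilityTheory in
theorem x02_pres {Y : Type*} [MeasurableSpace Y] [StandardBorelSpace Y] {S : Y → Y}
    {ν : Measure Y} [IsProbabilityMeasure ν] (hν : MeasurePreserving S ν ν) {F : Set Y}
    (hF : MeasurableSet F) :
    ∀ᵐ ω ∂ν, condExpKernel ν (MeasurableSpace.invariants S) ω (S ⁻¹' F) =
      condExpKernel ν (MeasurableSpace.invariants S) ω F := by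
  have hm := MeasurableSpace.invariants_le S
  have hSF : MeasurableSet (S ⁻¹' F) := hν.measurable hF
  have h1 := condExpKernel_ae_eq_condExp (μ := ν) hm hF
  have h2 := condExpKernel_ae_eq_condExp (μ := ν) hm hSF
  have h3 : condExp (MeasurableSpace.invariants S) ν (F.indicator fun _ => (1 : ℝ)) =ᵐ[ν]
      condExp (MeasurableSpace.invariants S) ν ((S ⁻¹' F).indicator fun _ => (1 : ℝ)) := by
    refine ae_eq_condExp_of_forall_setIntegral_eq hm ((integrable_const 1).indicator hSF) ?_ ?_ ?_
    · intro s _ _
      exact integrable_condExp.integrableOn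
    · intro s hs _
      rw [setIntegral_condExp hm ((integrable_const 1).indicator hF) hs,
        setIntegral_indicator hF, setIntegral_indicator hSF]
      simp only [integral_const, MeasurableSet.univ, measureReal_restrict_apply, Set.univ_inter,
        smul_eq_mul, mul_one]
      rw [measureReal_def, measureReal_def]
      congr 1
      have h4 : s ∩ S ⁻¹' F = S ⁻¹' (s ∩ F) := by
        rw [Set.preimage_inter, hs.2]
      rw [h4, hν.measure_preimage (hs.1.inter hF).nullMeasurableSet]
    · exact stronglyMeasurable_condExp.aestronglyMeasurable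
  filter_upwards [h1, h2, h3] with ω hω1 hω2 hω3
  rw [← hω1, ← hω2] at hω3
  rw [measureReal_def, measureReal_def] at hω3
  exact ((ENNReal.toReal_eq_toReal_iff' (measure_ne_top _ _) (measure_ne_top _ _)).1 hω3).symm

open ProbabilityTheory in
theorem condKernel_preserving {Y : Type*} [MeasurableSpace Y] [StandardBorelSpace Y] {S : Y → Y}
    {ν : Measure Y} [IsProbabilityMeasure ν] (hν : MeasurePreserving S ν ν) :
    ∀ᵐ ω ∂ν, MeasurePreserving S (condExpKernel ν (MeasurableSpace.invariants S) ω)
      (condExpKernel ν (MeasurableSpace.invariants S) ω) := by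
  obtain ⟨F, hF, hpi, hgen⟩ := x02_gen Y
  have h1 := ae_all_iff.2 fun q => x02_pres hν (hF q)
  filter_upwards [h1] with ω hω
  refine ⟨hν.measurable, ?_⟩
  have : IsProbabilityMeasure
      ((condExpKernel ν (MeasurableSpace.invariants S) ω).map S) :=
    Measure.isProbabilityMeasure_map hν.measurable.aemeasurable
  refine ext_of_generate_finite (Set.range F) hgen hpi ?_ ?_
  · rintro _ ⟨q, rfl⟩
    rw [Measure.map_apply hν.measurable (hF q)]
    exact hω q
  · rw [measure_univ, measure_univ]

end Pool.Agent.Lib.MP_e4ee3e_an
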