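import Pool.Agent.Lib.MP_e4ee3e_an.X01
import Pool.Agent.Lib.MP_e4ee3e_an.X02

/-!
X03. Almost every conditional measure κ_ω is ergodic. Let F_i be a countable pi-system generating the
sigma-algebra, φ_i the indicators, h_i from X01. The integral over ν of the integral over κ_ω of
|A_n φ_i - h_i| tends to 0, so for a.e. ω the inner integral takes arbitrarily small values;
and h_i = h_i(ω) κ_ω-a.e. (X02), κ_ω S-invariant (X02). Let A be measurable with
S^-1 A = A. Then κ_ω(A ∩ F_i) = integral over A of φ_i = integral over A of A_n φ_i (invariance of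
κ_ω and A) -> h_i(ω) κ_ω(A), and for A = univ κ_ω(F_i) = h_i(ω). So κ_ω(A ∩ F_i) = κ_ω(A) κ_ω(F_i) for
all i, hence for all measurable sets (pi-lambda), so κ_ω(A) = κ_ω(A)^2 is 0 or 1.
-/

open MeasureTheory Filter Topology

namespace Pool.Agent.Lib.MP_e4ee3e_an

attribute [local instance] chMetric

theorem x03_small {Y : Type*} [MeasurableSpace Y] {ν : Measure Y} [IsProbabilityMeasure ν]
    (G : ℕ → Y → ℝ) (hG : ∀ n y, 0 ≤ G n y) (hint : ∀ n, Integrable (G n) ν)
    (hlim : Tendsto (fun n => ∫ y, G n y ∂ν) atTop (𝓝 0)) :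
    ∀ᵐ ω ∂ν, ∀ ε : ℝ, 0 < ε → ∃ n, 1 ≤ n ∧ G n ω < ε := by
  have h1 : ∀ k : ℕ, ∀ᵐ ω ∂ν, ∃ n, 1 ≤ n ∧ G n ω < 1 / ((k : ℝ) + 1) := by
    intro k
    have hk : (0 : ℝ) < 1 / ((k : ℝ) + 1) := by positivity
    rw [ae_iff]
    have h2 : ∀ᶠ n : ℕ in atTop, 1 / ((k : ℝ) + 1) *
        ν.real {ω | ¬ ∃ n, 1 ≤ n ∧ G n ω < 1 / ((k : ℝ) + 1)} ≤ ∫ y, G n y ∂ν := by
      filter_upwards [eventually_ge_atTop 1] with n hn
      refine le_trans ?_ (mul_meas_ge_le_integral_of_nonneg
        (Eventually.of_forall fun y => hG n y) (hint n) (1 / ((k : ℝ) + 1)))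
      refine mul_le_mul_of_nonneg_left ?_ hk.le
      refine measureReal_mono (fun ω hω => ?_) (measure_ne_top _ _)
      rw [Set.mem_ofPred_eq] at hω ⊢
      by_contra hc
      exact hω ⟨n, hn, not_le.1 hc⟩
    have h3 := ge_of_tendsto hlim h2
    have h4 : ν.real {ω | ¬ ∃ n, 1 ≤ n ∧ G n ω < 1 / ((k : ℝ) + 1)} ≤ 0 := by
      by_contra hc
      exact absurd h3 (not_le.2 (mul_pos hk (not_le.1 hc)))
    have h5 := le_antisymm h4 measureReal_nonneg
    rw [measureReal_def, ENNReal.toReal_eq_zero_iff] at h5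
    rcases h5 with h | h
    · exact h
    · exact absurd h (measure_ne_top _ _)
  filter_upwards [ae_all_iff.2 h1] with ω hω ε hε
  obtain ⟨k, hk⟩ := exists_nat_one_div_lt hε
  obtain ⟨n, hn, hn2⟩ := hω k
  exact ⟨n, hn, hn2.trans hk⟩

theorem x03_key {Y : Type*} [MeasurableSpace Y] {S : Y → Y} {κ : Measure Y}
    [IsProbabilityMeasure κ] (hκ : MeasurePreserving S κ κ) {A F : Set Y} (hA : MeasurableSet A)
    (hSA : S ⁻¹' A = A) (hF : MeasurableSet F) (c : ℝ) {n : ℕ} (hn : 1 ≤ n) :
    |κ.real (A ∩ F) - c * κ.real A| ≤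
      ∫ y, |(∑ j ∈ Finset.range n, F.indicator (fun _ => (1 : ℝ)) (S^[j] y)) / n - c| ∂κ := by
  have hn' : (n : ℝ) ≠ 0 := by
    have : 0 < n := hn
    positivity
  have hSj : ∀ j, S^[j] ⁻¹' A = A := by
    intro j
    induction j with
    | zero => rfl
    | succ j ih =>
      rw [Function.iterate_succ, Set.preimage_comp, ih, hSA]
  have hfun : ∀ j, (fun y => F.indicator (fun _ => (1 : ℝ)) (S^[j] y)) =
      (S^[j] ⁻¹' F).indicator (fun _ => (1 : ℝ)) := by
    intro j
    funext y
    rfl
  have hmj : ∀ j, MeasurableSet (S^[j] ⁻¹' F) := fun j => (hκ.iterate j).measurable hF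
  have hintj : ∀ j, Integrable (fun y => F.indicator (fun _ => (1 : ℝ)) (S^[j] y)) κ := by
    intro j
    rw [hfun]
    exact (integrable_const 1).indicator (hmj j)
  have hints : Integrable (fun y => (∑ j ∈ Finset.range n,
      F.indicator (fun _ => (1 : ℝ)) (S^[j] y)) / n) κ :=
    (integrable_finsetSum _ fun j _ => hintj j).div_const _
  have hintc : Integrable (fun y => (∑ j ∈ Finset.range n,
      F.indicator (fun _ => (1 : ℝ)) (S^[j] y)) / n - c) κ := hints.sub (integrable_const c)
  have hj : ∀ j, ∫ y in A, F.indicator (fun _ => (1 : ℝ)) (S^[j] y) ∂κ = κ.real (A ∩ F) := by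
    intro j
    rw [hfun, setIntegral_indicator (hmj j)]
    simp only [integral_const, MeasurableSet.univ, measureReal_restrict_apply, Set.univ_inter,
      smul_eq_mul, mul_one]
    have h1 : A ∩ S^[j] ⁻¹' F = S^[j] ⁻¹' (A ∩ F) := by
      rw [Set.preimage_inter, hSj]
    rw [h1, measureReal_def, measureReal_def,
      (hκ.iterate j).measure_preimage (hA.inter hF).nullMeasurableSet]
  have h2 : ∫ y in A, ((∑ j ∈ Finset.range n,
      F.indicator (fun _ => (1 : ℝ)) (S^[j] y)) / n - c) ∂κ = κ.real (A ∩ F) - c * κ.real A := by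
    rw [integral_sub hints.integrableOn (integrable_const c).integrableOn, integral_div,
      integral_finsetSum _ fun j _ => (hintj j).integrableOn, Finset.sum_congr rfl fun j _ => hj j,
      Finset.sum_const, Finset.card_range, nsmul_eq_mul, mul_div_cancel_left₀ _ hn']
    simp only [integral_const, MeasurableSet.univ, measureReal_restrict_apply, Set.univ_inter,
      smul_eq_mul]
    ring
  rw [← h2]
  refine (abs_integral_le_integral_abs).trans ?_
  exact setIntegral_le_integral hintc.abs (Eventually.of_forall fun y => abs_nonneg _)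

open ProbabilityTheory in
theorem condKernel_ergodic {Y : Type*} [MeasurableSpace Y] [StandardBorelSpace Y] {S : Y → Y}
    {ν : Measure Y} [IsProbabilityMeasure ν] (hν : MeasurePreserving S ν ν) :
    ∀ᵐ ω ∂ν, Ergodic S (condExpKernel ν (MeasurableSpace.invariants S) ω) := by
  obtain ⟨F, hF, hpi, hgen⟩ := x02_gen Y
  have hm := MeasurableSpace.invariants_le S
  have hmean : ∀ q : ℚ, ∃ h : Y → ℝ, Measurable h ∧ (∀ y, h (S y) = h y) ∧ (∀ y, |h y| ≤ 1) ∧
      Tendsto (fun n : ℕ => ∫ y, |(∑ j ∈ Finset.range n,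
        (F q).indicator (fun _ => (1 : ℝ)) (S^[j] y)) / n - h y| ∂ν) atTop (𝓝 0) := by
    intro q
    refine mean_ergodic_L1 hν _ (measurable_const.indicator (hF q)) ?_
    intro y
    by_cases hy : y ∈ F q
    · rw [Set.indicator_of_mem hy]; simp
    · rw [Set.indicator_of_notMem hy]; simp
  choose h hmeas hinv hb hlim using hmean
  -- small values of the inner integrals
  have hgm : ∀ (q : ℚ) (n : ℕ), Measurable fun y => |(∑ j ∈ Finset.range n,
      (F q).indicator (fun _ => (1 : ℝ)) (S^[j] y)) / n - h q y| := by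
    intro q n
    have h1 : Measurable fun y => ∑ j ∈ Finset.range n,
        (F q).indicator (fun _ => (1 : ℝ)) (S^[j] y) :=
      Finset.measurable_fun_sum _ fun j _ =>
        (measurable_const.indicator (hF q)).comp (hν.iterate j).measurable
    exact ((h1.div_const _).sub (hmeas q)).abs
  have hgb : ∀ (q : ℚ) (n : ℕ) (y : Y), |(∑ j ∈ Finset.range n,
      (F q).indicator (fun _ => (1 : ℝ)) (S^[j] y)) / n - h q y| ≤ 2 := by
    intro q n y
    have h1 : |(∑ j ∈ Finset.range n, (F q).indicator (fun _ => (1 : ℝ)) (S^[j] y)) / (n : ℝ)|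
        ≤ 1 := by
      rw [abs_div, Nat.abs_cast]
      refine div_le_one_of_le₀ ?_ (Nat.cast_nonneg n)
      refine (Finset.abs_sum_le_sum_abs _ _).trans ?_
      refine (Finset.sum_le_card_nsmul _ _ (1 : ℝ) fun j _ => ?_).trans ?_
      · by_cases hy : S^[j] y ∈ F q
        · rw [Set.indicator_of_mem hy]; simp
        · rw [Set.indicator_of_notMem hy]; simp
      · rw [Finset.card_range, nsmul_eq_mul, mul_one]
    have h2 := hb q y
    have h3 := abs_sub ((∑ j ∈ Finset.range n,
      (F q).indicator (fun _ => (1 : ℝ)) (S^[j] y)) / (n : ℝ)) (h q y)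
    linarith
  have hgi : ∀ (q : ℚ) (n : ℕ), Integrable (fun y => |(∑ j ∈ Finset.range n,
      (F q).indicator (fun _ => (1 : ℝ)) (S^[j] y)) / n - h q y|) ν := by
    intro q n
    refine Integrable.of_bound (hgm q n).aestronglyMeasurable 2 (Eventually.of_forall fun y => ?_)
    rw [Real.norm_eq_abs, abs_abs]
    exact hgb q n y
  have hsmall : ∀ q : ℚ, ∀ᵐ ω ∂ν, ∀ ε : ℝ, 0 < ε → ∃ n : ℕ, 1 ≤ n ∧
      ∫ y, |(∑ j ∈ Finset.range n, (F q).indicator (fun _ => (1 : ℝ)) (S^[j] y)) / (n : ℝ) - h q y|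
        ∂(condExpKernel ν (MeasurableSpace.invariants S) ω) < ε := by
    intro q
    refine x03_small (fun n ω => ∫ y, |(∑ j ∈ Finset.range n,
      (F q).indicator (fun _ => (1 : ℝ)) (S^[j] y)) / (n : ℝ) - h q y|
        ∂(condExpKernel ν (MeasurableSpace.invariants S) ω)) ?_ ?_ ?_
    · intro n ω
      exact integral_nonneg fun y => abs_nonneg _
    · intro n
      exact (hgi q n).integral_condExpKernel
    · have h1 : ∀ n : ℕ, ∫ ω, (∫ y, |(∑ j ∈ Finset.range n,
          (F q).indicator (fun _ => (1 : ℝ)) (S^[j] y)) / (n : ℝ) - h q y|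
            ∂(condExpKernel ν (MeasurableSpace.invariants S) ω)) ∂ν =
          ∫ y, |(∑ j ∈ Finset.range n,
            (F q).indicator (fun _ => (1 : ℝ)) (S^[j] y)) / (n : ℝ) - h q y| ∂ν := by
        intro n
        rw [← integral_congr_ae (condExp_ae_eq_integral_condExpKernel hm (hgi q n)),
          integral_condExp hm]
      simp only [h1]
      exact hlim q
  have hconst := ae_all_iff.2 fun q => condKernel_const (ν := ν) (h q) (hmeas q) (hinv q)
  filter_upwards [condKernel_preserving hν, ae_all_iff.2 hsmall, hconst] with ω hpres hsm hco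
  set κ := condExpKernel ν (MeasurableSpace.invariants S) ω with hκdef
  have hval : ∀ (q : ℚ) (A : Set Y), MeasurableSet A → S ⁻¹' A = A →
      κ.real (A ∩ F q) = h q ω * κ.real A := by
    intro q A hA hSA
    have h1 : ∀ ε : ℝ, 0 < ε → |κ.real (A ∩ F q) - h q ω * κ.real A| < ε := by
      intro ε hε
      obtain ⟨n, hn, hn2⟩ := hsm q ε hε
      refine (x03_key hpres hA hSA (hF q) (h q ω) hn).trans_lt ?_
      refine lt_of_eq_of_lt ?_ hn2
      refine integral_congr_ae ?_
      filter_upwards [hco q] with y hy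
      rw [hy]
    have h2 : |κ.real (A ∩ F q) - h q ω * κ.real A| ≤ 0 :=
      le_of_forall_pos_lt_add fun ε hε => by
        rw [zero_add]
        exact h1 ε hε
    have h3 := abs_nonpos_iff.1 h2
    linarith
  refine ⟨hpres, ⟨?_⟩⟩
  intro A hA hSA
  have hAF : ∀ q : ℚ, κ.real (A ∩ F q) = κ.real A * κ.real (F q) := by
    intro q
    have h1 := hval q A hA hSA
    have h2 := hval q Set.univ MeasurableSet.univ rfl
    rw [Set.univ_inter, probReal_univ, mul_one] at h2
    rw [h1, h2, mul_comm]
  have heq : κ.restrict A = κ A • κ := by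
    have hfin : IsFiniteMeasure (κ.restrict A) := inferInstance
    refine ext_of_generate_finite (Set.range F) hgen hpi ?_ ?_
    · rintro _ ⟨q, rfl⟩
      rw [Measure.restrict_apply (hF q), Measure.smul_apply, smul_eq_mul, Set.inter_comm]
      have h1 := hAF q
      rw [measureReal_def, measureReal_def, measureReal_def, ← ENNReal.toReal_mul] at h1
      exact (ENNReal.toReal_eq_toReal_iff' (measure_ne_top _ _)
        (ENNReal.mul_ne_top (measure_ne_top _ _) (measure_ne_top _ _))).1 h1
    · rw [Measure.restrict_apply MeasurableSet.univ, Measure.smul_apply, Set.univ_inter,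
        measure_univ, smul_eq_mul, mul_one]
  have h1 : κ A = κ A * κ A := by
    have h2 := congrArg (fun μ : Measure Y => μ A) heq
    simp only [Measure.restrict_apply hA, Set.inter_self, Measure.smul_apply, smul_eq_mul] at h2
    exact h2
  have h2 : κ.real A = κ.real A * κ.real A := by
    have h3 := congrArg ENNReal.toReal h1
    rw [ENNReal.toReal_mul] at h3
    exact h3
  have h3 : κ.real A = 0 ∨ κ.real A = 1 := by
    have h4 : κ.real A * (κ.real A - 1) = 0 := by linarith
    rcases mul_eq_zero.1 h4 with h5 | h5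
    · exact Or.inl h5
    · exact Or.inr (by linarith)
  rw [Filter.eventuallyConst_set']
  rcases h3 with h4 | h4
  · left
    rw [ae_eq_empty]
    rw [measureReal_def, ENNReal.toReal_eq_zero_iff] at h4
    rcases h4 with h5 | h5
    · exact h5
    · exact absurd h5 (measure_ne_top _ _)
  · right
    rw [ae_eq_univ, prob_compl_eq_zero_iff hA]
    rw [measureReal_def] at h4
    rwa [ENNReal.toReal_eq_one_iff] at h4

end Pool.Agent.Lib.MP_e4ee3e_an
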