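import Pool.Agent.Lib.MP_e4ee3e_an.Setup

/-!
A01. Mean value inequality for the square of a holomorphic function over a disc: for every
0 < s < ρ the mean of ψ^2 on the circle of radius s is ψ(w)^2 (Cauchy), so
2 pi |ψ(w)|^2 <= integral of |ψ(w + s e^(iθ))|^2 dθ; multiply by s and integrate (polar
coordinates, Complex.lintegral_comp_polarCoord_symm after translation).
-/

open MeasureTheory Filter Topology

namespace Pool.Agent.Lib.MP_e4ee3e_an

attribute [local instance] chMetric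

lemma a01_circle {ψ : ℂ → ℂ} {w : ℂ} {ρ s : ℝ} (hs : 0 < s) (hsρ : s < ρ)
    (hψ : DifferentiableOn ℂ ψ (Metric.ball w ρ)) :
    2 * Real.pi * ‖ψ w‖ ^ 2 ≤
      ∫ θ in (-Real.pi)..Real.pi, ‖ψ (circleMap w s θ)‖ ^ 2 := by
  have habs : |s| = s := abs_of_pos hs
  have hsub : Metric.closedBall w s ⊆ Metric.ball w ρ := Metric.closedBall_subset_ball hsρ
  have hd : DiffContOnCl ℂ (fun z => ψ z ^ 2) (Metric.ball w |s|) := by
    rw [habs]
    refine DifferentiableOn.diffContOnCl ?_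
    rw [closure_ball _ hs.ne']
    exact (hψ.mono hsub).pow 2
  have h1 := hd.circleAverage
  rw [Real.circleAverage_def] at h1
  have h2 : ‖∫ θ in (0 : ℝ)..2 * Real.pi, ψ (circleMap w s θ) ^ 2‖ ≤
      ∫ θ in (0 : ℝ)..2 * Real.pi, ‖ψ (circleMap w s θ) ^ 2‖ :=
    intervalIntegral.norm_integral_le_integral_norm (by positivity)
  have h3 : ‖ψ w‖ ^ 2 = (2 * Real.pi)⁻¹ * ‖∫ θ in (0 : ℝ)..2 * Real.pi, ψ (circleMap w s θ) ^ 2‖ := by
    rw [← norm_pow, ← h1, norm_smul, Real.norm_of_nonneg (by positivity)]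
  have h4 : (∫ θ in (0 : ℝ)..2 * Real.pi, ‖ψ (circleMap w s θ) ^ 2‖) =
      ∫ θ in (-Real.pi)..Real.pi, ‖ψ (circleMap w s θ)‖ ^ 2 := by
    have hper : Function.Periodic (fun θ : ℝ => ‖ψ (circleMap w s θ)‖ ^ 2) (2 * Real.pi) := by
      intro θ
      simp only [periodic_circleMap w s θ]
    have h5 := hper.intervalIntegral_add_eq 0 (-Real.pi)
    have e1 : (0 : ℝ) + 2 * Real.pi = 2 * Real.pi := by ring
    have e2 : -Real.pi + 2 * Real.pi = Real.pi := by ring
    rw [e1, e2] at h5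
    rw [← h5]
    congr 1
    ext θ
    rw [norm_pow]
  rw [← h4]
  have hpi : 0 < 2 * Real.pi := by positivity
  rw [h3]
  have : 2 * Real.pi * ((2 * Real.pi)⁻¹ *
      ‖∫ θ in (0 : ℝ)..2 * Real.pi, ψ (circleMap w s θ) ^ 2‖) =
      ‖∫ θ in (0 : ℝ)..2 * Real.pi, ψ (circleMap w s θ) ^ 2‖ := by
    field_simp
  rw [this]
  exact h2

theorem area_mean_value {ψ : ℂ → ℂ} {w : ℂ} {ρ : ℝ} (hρ : 0 < ρ)
    (hψ : DifferentiableOn ℂ ψ (Metric.ball w ρ)) :
    ENNReal.ofReal (Real.pi * ρ ^ 2 * ‖ψ w‖ ^ 2) ≤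
      ∫⁻ z in Metric.ball w ρ, ENNReal.ofReal (‖ψ z‖ ^ 2) := by
  set F : ℂ → ENNReal := fun z => ENNReal.ofReal (‖ψ z‖ ^ 2) with hF
  have hsymm : ∀ p : ℝ × ℝ, w + Complex.polarCoord.symm p = circleMap w p.1 p.2 := by
    intro p
    rw [Complex.polarCoord_symm_apply, circleMap, Complex.exp_mul_I]
    simp
  rw [← lintegral_indicator measurableSet_ball,
    ← lintegral_add_left_eq_self (fun z => (Metric.ball w ρ).indicator F z) w,
    ← Complex.lintegral_comp_polarCoord_symm]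
  have hS : Set.Ioo (0 : ℝ) ρ ×ˢ Set.Ioo (-Real.pi) Real.pi ⊆ polarCoord.target := by
    rw [polarCoord_target]
    exact Set.prod_mono Set.Ioo_subset_Ioi_self le_rfl
  refine le_trans ?_ (lintegral_mono_set hS)
  have hmem : ∀ p ∈ Set.Ioo (0 : ℝ) ρ ×ˢ Set.Ioo (-Real.pi) Real.pi,
      circleMap w p.1 p.2 ∈ Metric.ball w ρ := by
    rintro p ⟨⟨h1, h2⟩, -⟩
    rw [Metric.mem_ball, dist_eq_norm, circleMap_sub_center, norm_circleMap_zero, abs_of_pos h1]
    exact h2
  have hcm : Continuous fun p : ℝ × ℝ => circleMap w p.1 p.2 := by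
    unfold circleMap
    fun_prop
  have hmS : MeasurableSet (Set.Ioo (0 : ℝ) ρ ×ˢ Set.Ioo (-Real.pi) Real.pi) :=
    measurableSet_Ioo.prod measurableSet_Ioo
  have h1 : (∫⁻ p in Set.Ioo (0 : ℝ) ρ ×ˢ Set.Ioo (-Real.pi) Real.pi, ENNReal.ofReal p.1 •
      (Metric.ball w ρ).indicator F (w + Complex.polarCoord.symm p)) =
      ∫⁻ p in Set.Ioo (0 : ℝ) ρ ×ˢ Set.Ioo (-Real.pi) Real.pi,
        ENNReal.ofReal (p.1 * ‖ψ (circleMap w p.1 p.2)‖ ^ 2) := by
    apply setLIntegral_congr_fun hmS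
    intro p hp
    simp only [hsymm, smul_eq_mul]
    rw [Set.indicator_of_mem (hmem p hp), hF, ENNReal.ofReal_mul hp.1.1.le]
  rw [h1]
  have hcont : ContinuousOn (fun p : ℝ × ℝ => p.1 * ‖ψ (circleMap w p.1 p.2)‖ ^ 2)
      (Set.Ioo (0 : ℝ) ρ ×ˢ Set.Ioo (-Real.pi) Real.pi) := by
    have h2 : ContinuousOn (fun p : ℝ × ℝ => ψ (circleMap w p.1 p.2))
        (Set.Ioo (0 : ℝ) ρ ×ˢ Set.Ioo (-Real.pi) Real.pi) :=
      hψ.continuousOn.comp hcm.continuousOn hmem
    exact continuous_fst.continuousOn.mul (h2.norm.pow 2)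
  have hmeas : AEMeasurable (fun p : ℝ × ℝ => ENNReal.ofReal (p.1 * ‖ψ (circleMap w p.1 p.2)‖ ^ 2))
      ((volume.restrict (Set.Ioo (0 : ℝ) ρ)).prod
        (volume.restrict (Set.Ioo (-Real.pi) Real.pi))) := by
    rw [Measure.prod_restrict]
    exact (hcont.aemeasurable hmS).ennreal_ofReal
  rw [Measure.volume_eq_prod, ← Measure.prod_restrict, lintegral_prod _ hmeas]
  have h5 : ∀ r ∈ Set.Ioo (0 : ℝ) ρ, ENNReal.ofReal (r * (2 * Real.pi * ‖ψ w‖ ^ 2)) ≤
      ∫⁻ θ in Set.Ioo (-Real.pi) Real.pi,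
        ENNReal.ofReal (r * ‖ψ (circleMap w r θ)‖ ^ 2) := by
    intro r hr
    have hc : Continuous (fun θ : ℝ => r * ‖ψ (circleMap w r θ)‖ ^ 2) := by
      have h6 : Continuous fun θ : ℝ => ψ (circleMap w r θ) := by
        rw [← continuousOn_univ]
        refine hψ.continuousOn.comp (continuous_circleMap w r).continuousOn ?_
        intro θ _
        rw [Metric.mem_ball, dist_eq_norm, circleMap_sub_center, norm_circleMap_zero,
          abs_of_pos hr.1]
        exact hr.2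
      exact continuous_const.mul (h6.norm.pow 2)
    have hint : IntegrableOn (fun θ : ℝ => r * ‖ψ (circleMap w r θ)‖ ^ 2)
        (Set.Ioo (-Real.pi) Real.pi) :=
      (hc.integrableOn_Icc (a := -Real.pi) (b := Real.pi)).mono_set Set.Ioo_subset_Icc_self
    rw [← ofReal_integral_eq_lintegral_ofReal hint
      (Eventually.of_forall fun θ => mul_nonneg hr.1.le (by positivity))]
    apply ENNReal.ofReal_le_ofReal
    rw [integral_const_mul]
    apply mul_le_mul_of_nonneg_left _ hr.1.le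
    have h7 := a01_circle hr.1 hr.2 hψ
    rwa [intervalIntegral.integral_of_le (by linarith [Real.pi_pos]),
      integral_Ioc_eq_integral_Ioo] at h7
  refine le_trans ?_ (setLIntegral_mono' measurableSet_Ioo h5)
  have hint2 : IntegrableOn (fun r : ℝ => r * (2 * Real.pi * ‖ψ w‖ ^ 2)) (Set.Ioo 0 ρ) := by
    have hc : Continuous (fun r : ℝ => r * (2 * Real.pi * ‖ψ w‖ ^ 2)) := by fun_prop
    exact (hc.integrableOn_Icc (a := 0) (b := ρ)).mono_set Set.Ioo_subset_Icc_self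
  rw [← ofReal_integral_eq_lintegral_ofReal hint2]
  · apply ENNReal.ofReal_le_ofReal
    rw [← integral_Ioc_eq_integral_Ioo, ← intervalIntegral.integral_of_le hρ.le,
      intervalIntegral.integral_mul_const, integral_id]
    apply le_of_eq
    ring
  · filter_upwards [ae_restrict_mem measurableSet_Ioo] with r hr
    exact mul_nonneg hr.1.le (by positivity)

end Pool.Agent.Lib.MP_e4ee3e_an
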