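import Pool.Agent.Lib.MP_e4ee3e_an.Setup

/-!
A02. Spherical area: a finite measure (integrable (1+|z|^2)^-2; compare
integrable_rpow_neg_one_add_norm_sq), and its value on the image of an injective holomorphic map
(lintegral_image_eq_lintegral_abs_det_fderiv_mul, determinant of a complex multiplication is the
square of the modulus).
-/

open MeasureTheory Filter Topology

namespace Pool.Agent.Lib.MP_e4ee3e_an

attribute [local instance] chMetric

/-- Spherical area measure on the plane. -/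
noncomputable def sphArea : Measure ℂ :=
  volume.withDensity (fun z => ENNReal.ofReal (1 / (1 + ‖z‖ ^ 2) ^ 2))

theorem sphArea_lt_top : sphArea Set.univ < ⊤ := by
  unfold sphArea
  rw [withDensity_apply _ MeasurableSet.univ, Measure.restrict_univ]
  have h := integrable_rpow_neg_one_add_norm_sq (E := ℂ) (μ := volume) (r := 4)
    (by rw [Complex.finrank_real_complex]; norm_num)
  refine (Integrable.congr h ?_).lintegral_lt_top
  filter_upwards with z
  have h1 : (0 : ℝ) ≤ 1 + ‖z‖ ^ 2 := by positivity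
  rw [show (-4 / 2 : ℝ) = -((2 : ℕ) : ℝ) by norm_num, Real.rpow_neg h1, Real.rpow_natCast, one_div]

theorem a02_det (c : ℂ) :
    (((ContinuousLinearMap.toSpanSingleton ℂ c : ℂ →L[ℂ] ℂ).restrictScalars ℝ).det : ℝ) = ‖c‖ ^ 2 := by
  rw [ContinuousLinearMap.det]
  have h1 : (((ContinuousLinearMap.toSpanSingleton ℂ c : ℂ →L[ℂ] ℂ).restrictScalars ℝ : ℂ →L[ℝ] ℂ) :
      ℂ →ₗ[ℝ] ℂ) = Algebra.lmul ℝ ℂ c := by
    ext <;> simp [mul_comm]
  rw [h1, ← Algebra.norm_apply, Algebra.norm_complex_apply, Complex.normSq_eq_norm_sq]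

theorem a02_measurable {φ : ℂ → ℂ} {b : ℂ} {r : ℝ} (hφ : DifferentiableOn ℂ φ (Metric.ball b r))
    (hinj : Set.InjOn φ (Metric.ball b r)) : MeasurableSet (φ '' Metric.ball b r) :=
  measurableSet_ball.image_of_continuousOn_injOn hφ.continuousOn hinj

theorem sphArea_image {φ : ℂ → ℂ} {b : ℂ} {r : ℝ} (hφ : DifferentiableOn ℂ φ (Metric.ball b r))
    (hinj : Set.InjOn φ (Metric.ball b r)) :
    sphArea (φ '' Metric.ball b r) =
      ∫⁻ z in Metric.ball b r, ENNReal.ofReal (‖deriv φ z‖ ^ 2 / (1 + ‖φ z‖ ^ 2) ^ 2) := by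
  unfold sphArea
  rw [withDensity_apply _ (a02_measurable hφ hinj)]
  have h1 : ∀ x ∈ Metric.ball b r, HasFDerivWithinAt φ
      (((ContinuousLinearMap.toSpanSingleton ℂ (deriv φ x) : ℂ →L[ℂ] ℂ).restrictScalars ℝ))
      (Metric.ball b r) x := by
    intro x hx
    have h2 : HasDerivAt φ (deriv φ x) x :=
      (hφ.differentiableAt (Metric.isOpen_ball.mem_nhds hx)).hasDerivAt
    exact (h2.hasFDerivAt.restrictScalars ℝ).hasFDerivWithinAt
  rw [lintegral_image_eq_lintegral_abs_det_fderiv_mul volume measurableSet_ball h1 hinj]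
  refine setLIntegral_congr_fun measurableSet_ball fun x _ => ?_
  rw [a02_det, abs_of_nonneg (by positivity), ← ENNReal.ofReal_mul (by positivity)]
  congr 1
  ring

end Pool.Agent.Lib.MP_e4ee3e_an
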