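import Pool.Agent.Lib.MP_e4ee3e_an.N01
import Pool.Agent.Lib.MP_e4ee3e_an.A01
import Pool.Agent.Lib.MP_e4ee3e_an.A02

/-!
A03. If an injective holomorphic map has small chordal oscillation on a disc of radius ρ around w,
then its spherical derivative at w is controlled by the spherical area of the image. Case
|φ w| <= 1: then |φ| <= 2 on the disc and one uses area_mean_value for φ' and
|φ'|^2 <= 25 |φ'|^2/(1+|φ|^2)^2. Case |φ w| > 1: then |φ| >= 1/2 on the disc and one uses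
ψ = φ'/φ^2, |ψ|^2 <= 25 |φ'|^2/(1+|φ|^2)^2 (as (1+|φ|^2)^2 <= 25 |φ|^4 for |φ| >= 1/2). (Chordal
distance at most 1/10 gives these ranges.)
-/

open MeasureTheory Filter Topology

namespace Pool.Agent.Lib.MP_e4ee3e_an

attribute [local instance] chMetric

theorem a03_dist {x y : ℂ} (h : dist (x : OnePoint ℂ) (y : OnePoint ℂ) ≤ 1 / 10) :
    100 * ‖x - y‖ ^ 2 ≤ (1 + ‖x‖ ^ 2) * (1 + ‖y‖ ^ 2) := by
  rw [dist_coe] at h
  have h1 : 0 < Real.sqrt (1 + ‖x‖ ^ 2) := Real.sqrt_pos.2 (by positivity)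
  have h2 : 0 < Real.sqrt (1 + ‖y‖ ^ 2) := Real.sqrt_pos.2 (by positivity)
  rw [div_le_iff₀ (by positivity)] at h
  have h3 : Real.sqrt (1 + ‖x‖ ^ 2) ^ 2 = 1 + ‖x‖ ^ 2 := Real.sq_sqrt (by positivity)
  have h4 : Real.sqrt (1 + ‖y‖ ^ 2) ^ 2 = 1 + ‖y‖ ^ 2 := Real.sq_sqrt (by positivity)
  have h5 : ‖x - y‖ ^ 2 ≤ (1 / 10 * (Real.sqrt (1 + ‖x‖ ^ 2) * Real.sqrt (1 + ‖y‖ ^ 2))) ^ 2 :=
    pow_le_pow_left₀ (norm_nonneg _) h 2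
  rw [mul_pow, mul_pow, h3, h4] at h5
  linarith

theorem a03_small {x y : ℂ} (h : dist (x : OnePoint ℂ) (y : OnePoint ℂ) ≤ 1 / 10)
    (hy : ‖y‖ ≤ 1) : ‖x‖ ≤ 2 := by
  have h1 := a03_dist h
  by_contra hcon
  have hx : 2 < ‖x‖ := not_le.1 hcon
  have h2 : ‖x‖ - 1 ≤ ‖x - y‖ := by
    have := norm_sub_norm_le x y
    linarith
  have h3 : (‖x‖ - 1) ^ 2 ≤ ‖x - y‖ ^ 2 := pow_le_pow_left₀ (by linarith) h2 2
  have h4 : ‖y‖ ^ 2 ≤ 1 := by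
    have := norm_nonneg y
    nlinarith
  have h5 : (1 + ‖x‖ ^ 2) * (1 + ‖y‖ ^ 2) ≤ (1 + ‖x‖ ^ 2) * 2 :=
    mul_le_mul_of_nonneg_left (by linarith) (by positivity)
  nlinarith

theorem a03_large {x y : ℂ} (h : dist (x : OnePoint ℂ) (y : OnePoint ℂ) ≤ 1 / 10)
    (hy : 1 < ‖y‖) : 1 / 2 ≤ ‖x‖ := by
  have h1 := a03_dist h
  by_contra hcon
  have hx : ‖x‖ < 1 / 2 := not_le.1 hcon
  have hx0 := norm_nonneg x
  have h2 : ‖y‖ - 1 / 2 ≤ ‖x - y‖ := by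
    have := norm_sub_norm_le y x
    rw [norm_sub_rev] at this
    linarith
  have h3 : (‖y‖ - 1 / 2) ^ 2 ≤ ‖x - y‖ ^ 2 := pow_le_pow_left₀ (by linarith) h2 2
  have h4 : ‖x‖ ^ 2 ≤ 1 / 4 := by nlinarith
  have h5 : (1 + ‖x‖ ^ 2) * (1 + ‖y‖ ^ 2) ≤ (5 / 4) * (1 + ‖y‖ ^ 2) :=
    mul_le_mul_of_nonneg_right (by linarith) (by positivity)
  nlinarith

theorem a03_aux {φ ψ : ℂ → ℂ} {w : ℂ} {ρ : ℝ} (hρ : 0 < ρ)
    (hφ : DifferentiableOn ℂ φ (Metric.ball w ρ)) (hinj : Set.InjOn φ (Metric.ball w ρ))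
    (hψ : DifferentiableOn ℂ ψ (Metric.ball w ρ))
    (h1 : ∀ z ∈ Metric.ball w ρ, ‖ψ z‖ ^ 2 ≤ 25 * (‖deriv φ z‖ ^ 2 / (1 + ‖φ z‖ ^ 2) ^ 2))
    (h2 : ‖deriv φ w‖ / (1 + ‖φ w‖ ^ 2) ≤ ‖ψ w‖) :
    ENNReal.ofReal ((ρ * (‖deriv φ w‖ / (1 + ‖φ w‖ ^ 2))) ^ 2) ≤
      100 * sphArea (φ '' Metric.ball w ρ) := by
  have h3 := area_mean_value hρ hψ
  rw [sphArea_image hφ hinj]
  have h4 : ∫⁻ z in Metric.ball w ρ, ENNReal.ofReal (‖ψ z‖ ^ 2) ≤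
      25 * ∫⁻ z in Metric.ball w ρ, ENNReal.ofReal (‖deriv φ z‖ ^ 2 / (1 + ‖φ z‖ ^ 2) ^ 2) := by
    rw [← lintegral_const_mul' _ _ (by norm_num)]
    refine setLIntegral_mono' measurableSet_ball fun z hz => ?_
    have h5 : (25 : ENNReal) = ENNReal.ofReal 25 := by norm_num
    rw [h5, ← ENNReal.ofReal_mul (by norm_num)]
    exact ENNReal.ofReal_le_ofReal (h1 z hz)
  have h5 : ENNReal.ofReal ((ρ * (‖deriv φ w‖ / (1 + ‖φ w‖ ^ 2))) ^ 2) ≤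
      ENNReal.ofReal (Real.pi * ρ ^ 2 * ‖ψ w‖ ^ 2) := by
    refine ENNReal.ofReal_le_ofReal ?_
    have h6 : 0 ≤ ‖deriv φ w‖ / (1 + ‖φ w‖ ^ 2) := by positivity
    have h7 : (‖deriv φ w‖ / (1 + ‖φ w‖ ^ 2)) ^ 2 ≤ ‖ψ w‖ ^ 2 := pow_le_pow_left₀ h6 h2 2
    have h8 : (1 : ℝ) ≤ Real.pi := by linarith [Real.pi_gt_three]
    rw [mul_pow]
    have h9 : ρ ^ 2 * (‖deriv φ w‖ / (1 + ‖φ w‖ ^ 2)) ^ 2 ≤ ρ ^ 2 * ‖ψ w‖ ^ 2 :=
      mul_le_mul_of_nonneg_left h7 (by positivity)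
    have h10 : 0 ≤ ρ ^ 2 * ‖ψ w‖ ^ 2 := by positivity
    nlinarith
  refine (h5.trans (h3.trans h4)).trans ?_
  gcongr
  norm_num

theorem sph_deriv_le {φ : ℂ → ℂ} {w : ℂ} {ρ : ℝ} (hρ : 0 < ρ)
    (hφ : DifferentiableOn ℂ φ (Metric.ball w ρ)) (hinj : Set.InjOn φ (Metric.ball w ρ))
    (hosc : ∀ z ∈ Metric.ball w ρ,
      dist ((φ z : ℂ) : OnePoint ℂ) ((φ w : ℂ) : OnePoint ℂ) ≤ 1 / 10) :
    ENNReal.ofReal ((ρ * (‖deriv φ w‖ / (1 + ‖φ w‖ ^ 2))) ^ 2) ≤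
      100 * sphArea (φ '' Metric.ball w ρ) := by
  have hd : DifferentiableOn ℂ (deriv φ) (Metric.ball w ρ) := hφ.deriv Metric.isOpen_ball
  rcases le_or_gt ‖φ w‖ 1 with hw | hw
  · refine a03_aux hρ hφ hinj hd ?_ ?_
    · intro z hz
      have h1 := a03_small (hosc z hz) hw
      have h2 : 1 + ‖φ z‖ ^ 2 ≤ 5 := by
        have := norm_nonneg (φ z)
        nlinarith
      have h3 : (1 + ‖φ z‖ ^ 2) ^ 2 ≤ 25 := by
        have := pow_le_pow_left₀ (show (0 : ℝ) ≤ 1 + ‖φ z‖ ^ 2 by positivity) h2 2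
        linarith
      rw [← mul_div_assoc, le_div_iff₀ (by positivity)]
      have h4 : 0 ≤ ‖deriv φ z‖ ^ 2 := by positivity
      nlinarith
    · refine div_le_self (norm_nonneg _) ?_
      have : 0 ≤ ‖φ w‖ ^ 2 := by positivity
      linarith
  · have hne : ∀ z ∈ Metric.ball w ρ, φ z ≠ 0 := by
      intro z hz h0
      have h1 := a03_large (hosc z hz) hw
      rw [h0, norm_zero] at h1
      norm_num at h1
    refine a03_aux (ψ := fun z => deriv φ z / φ z ^ 2) hρ hφ hinj ?_ ?_ ?_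
    · exact hd.div (hφ.pow 2) fun z hz => pow_ne_zero 2 (hne z hz)
    · intro z hz
      have h1 := a03_large (hosc z hz) hw
      have h2 : 0 < ‖φ z‖ := norm_pos_iff.2 (hne z hz)
      have h3 : 1 + ‖φ z‖ ^ 2 ≤ 5 * ‖φ z‖ ^ 2 := by nlinarith
      have h4 : (1 + ‖φ z‖ ^ 2) ^ 2 ≤ 25 * (‖φ z‖ ^ 2) ^ 2 := by
        have := pow_le_pow_left₀ (show (0 : ℝ) ≤ 1 + ‖φ z‖ ^ 2 by positivity) h3 2
        linarith
      show ‖deriv φ z / φ z ^ 2‖ ^ 2 ≤ _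
      rw [norm_div, norm_pow, div_pow, ← mul_div_assoc, div_le_div_iff₀ (by positivity) (by positivity)]
      have h5 : 0 ≤ ‖deriv φ z‖ ^ 2 := by positivity
      nlinarith [mul_le_mul_of_nonneg_left h4 h5]
    · show _ ≤ ‖deriv φ w / φ w ^ 2‖
      rw [norm_div, norm_pow]
      have h2 : 0 < ‖φ w‖ := by linarith
      exact div_le_div_of_nonneg_left (norm_nonneg _) (by positivity) (by linarith)

/-- Local Lipschitz constant of a holomorphic map for the chordal metric. -/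
theorem chordal_local_lip {φ : ℂ → ℂ} {w : ℂ} (hφ : DifferentiableAt ℂ φ w) (M' : ℝ)
    (hM : ‖deriv φ w‖ / (1 + ‖φ w‖ ^ 2) < M') :
    ∀ᶠ w' in 𝓝 w, dist ((φ w : ℂ) : OnePoint ℂ) ((φ w' : ℂ) : OnePoint ℂ) ≤ M' * ‖w - w'‖ := by
  have hpos : 0 < 1 + ‖φ w‖ ^ 2 := by positivity
  obtain ⟨c, hc1, hc2⟩ : ∃ c, ‖deriv φ w‖ < c ∧ c < M' * (1 + ‖φ w‖ ^ 2) :=
    exists_between ((div_lt_iff₀ hpos).1 hM)
  have hc0 : 0 < c := lt_of_le_of_lt (norm_nonneg _) hc1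
  have hd := hφ.hasDerivAt
  have h1 : ∀ᶠ w' in 𝓝 w, ‖φ w' - φ w - (w' - w) • deriv φ w‖ ≤ (c - ‖deriv φ w‖) * ‖w' - w‖ :=
    (hasDerivAt_iff_isLittleO.1 hd).def (sub_pos.2 hc1)
  have h2 : ContinuousAt (fun w' => Real.sqrt (1 + ‖φ w‖ ^ 2) * Real.sqrt (1 + ‖φ w'‖ ^ 2)) w := by
    have h3 : ContinuousAt φ w := hφ.continuousAt
    exact continuousAt_const.mul ((continuousAt_const.add (h3.norm.pow 2)).sqrt)
  have h3 : ∀ᶠ w' in 𝓝 w, c / M' < Real.sqrt (1 + ‖φ w‖ ^ 2) * Real.sqrt (1 + ‖φ w'‖ ^ 2) := by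
    refine h2.eventually (lt_mem_nhds ?_)
    show c / M' < Real.sqrt (1 + ‖φ w‖ ^ 2) * Real.sqrt (1 + ‖φ w‖ ^ 2)
    rw [Real.mul_self_sqrt hpos.le]
    have hM0 : 0 < M' := lt_of_le_of_lt (by positivity) hM
    rw [div_lt_iff₀ hM0]
    linarith
  have hM0 : 0 < M' := lt_of_le_of_lt (by positivity) hM
  filter_upwards [h1, h3] with w' h4 h5
  rw [dist_coe]
  have h6 : 0 < Real.sqrt (1 + ‖φ w‖ ^ 2) * Real.sqrt (1 + ‖φ w'‖ ^ 2) :=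
    mul_pos (Real.sqrt_pos.2 (by positivity)) (Real.sqrt_pos.2 (by positivity))
  rw [div_le_iff₀ h6]
  have h7 : ‖φ w - φ w'‖ ≤ c * ‖w - w'‖ := by
    have h8 : φ w' - φ w = (φ w' - φ w - (w' - w) • deriv φ w) + (w' - w) • deriv φ w := by ring
    rw [norm_sub_rev (φ w), norm_sub_rev w, h8]
    refine (norm_add_le _ _).trans ?_
    rw [norm_smul]
    linarith
  have h8 : c ≤ M' * (Real.sqrt (1 + ‖φ w‖ ^ 2) * Real.sqrt (1 + ‖φ w'‖ ^ 2)) := by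
    rw [div_lt_iff₀ hM0] at h5
    linarith
  have h9 := mul_le_mul_of_nonneg_right h8 (norm_nonneg (w - w'))
  linarith

end Pool.Agent.Lib.MP_e4ee3e_an
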