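import Pool.Agent.Lib.MP_e4ee3e_an.N06
import Pool.Agent.Lib.MP_e4ee3e_an.A03

/-!
A04. Images with small spherical area have small diameter. Normality (R = 1, p = pi/2) gives
dist (φ w) (φ w') <= C₀ |w-w'|/r on ball b (r/2). Put ρ = r * min (1/4) (1/(10 C₀)); for w in
ball b (r/4) the disc of radius ρ is in ball b (r/2) and φ oscillates at most 1/10 there; A03
gives the spherical derivative bound <= 10 sqrt(area)/ρ; then chordal_local_lip and N01 on
ball b (r/4) (|w-w'| <= r/2).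
-/

open MeasureTheory Filter Topology

namespace Pool.Agent.Lib.MP_e4ee3e_an

attribute [local instance] chMetric

theorem small_area_small_diam :
    ∃ C : ℝ, 0 < C ∧ ∀ (φ : ℂ → ℂ) (b : ℂ) (r : ℝ), 0 < r →
      DifferentiableOn ℂ φ (Metric.ball b r) → Set.InjOn φ (Metric.ball b r) →
      ENNReal.ofReal (Real.pi / 2) ≤ volume (Metric.closedBall (0 : ℂ) 1 \ (φ '' Metric.ball b r)) →
      ∀ w ∈ Metric.ball b (r / 4), ∀ w' ∈ Metric.ball b (r / 4),
        ENNReal.ofReal (dist ((φ w : ℂ) : OnePoint ℂ) ((φ w' : ℂ) : OnePoint ℂ) ^ 2) ≤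
          ENNReal.ofReal C * sphArea (φ '' Metric.ball b r) := by
  obtain ⟨C₀, hC₀, hN⟩ := normality 1 (Real.pi / 2) (by positivity)
  set k : ℝ := max 4 (10 * C₀) with hk
  have hk4 : 4 ≤ k := le_max_left _ _
  have hkC : 10 * C₀ ≤ k := le_max_right _ _
  have hk0 : 0 < k := by linarith
  refine ⟨25 * k ^ 2, by positivity, ?_⟩
  intro φ b r hr hφ hinj hvol w hw w' hw'
  have hnorm := hN b r (fun z => ((φ z : ℂ) : OnePoint ℂ)) φ ∅
    (Metric.closedBall (0 : ℂ) 1 \ (φ '' Metric.ball b r)) hr Set.finite_empty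
    (OnePoint.continuous_coe.comp_continuousOn hφ.continuousOn)
    (fun z hz _ => ⟨rfl, hφ.differentiableAt (Metric.isOpen_ball.mem_nhds hz)⟩)
    (measurableSet_closedBall.diff (a02_measurable hφ hinj)) Set.sdiff_subset hvol
    (fun z hz y hy h => hy.2 ⟨z, hz, OnePoint.coe_injective h⟩)
  have hfin : sphArea (φ '' Metric.ball b r) ≠ ⊤ :=
    (lt_of_le_of_lt (measure_mono (Set.subset_univ _)) sphArea_lt_top).ne
  set S : ℝ := (sphArea (φ '' Metric.ball b r)).toReal with hS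
  have hS0 : 0 ≤ S := ENNReal.toReal_nonneg
  have hSeq : sphArea (φ '' Metric.ball b r) = ENNReal.ofReal S := (ENNReal.ofReal_toReal hfin).symm
  set ρ : ℝ := r / k with hρdef
  have hρ : 0 < ρ := div_pos hr hk0
  have hρ4 : ρ ≤ r / 4 := div_le_div_of_nonneg_left hr.le (by norm_num) hk4
  have hsd : ∀ z ∈ Metric.ball b (r / 4), ‖deriv φ z‖ / (1 + ‖φ z‖ ^ 2) ≤ 10 * Real.sqrt S / ρ := by
    intro z hz
    have hsub : Metric.ball z ρ ⊆ Metric.ball b (r / 2) := by
      refine Metric.ball_subset_ball' ?_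
      have := Metric.mem_ball.1 hz
      linarith
    have hsub' : Metric.ball z ρ ⊆ Metric.ball b r :=
      hsub.trans (Metric.ball_subset_ball (by linarith))
    have hzb : z ∈ Metric.ball b (r / 2) := Metric.ball_subset_ball (by linarith) hz
    have h1 := sph_deriv_le hρ (hφ.mono hsub') (hinj.mono hsub') (by
      intro y hy
      have h2 := hnorm y (hsub hy) z hzb
      refine h2.trans ?_
      have h3 : ‖y - z‖ ≤ ρ := by
        rw [← dist_eq_norm]
        exact (Metric.mem_ball.1 hy).le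
      rw [div_le_iff₀ hr]
      have h4 : C₀ * ‖y - z‖ ≤ C₀ * ρ := mul_le_mul_of_nonneg_left h3 hC₀.le
      have h5 : C₀ * ρ ≤ 1 / 10 * r := by
        rw [hρdef, ← mul_div_assoc, div_le_iff₀ hk0]
        nlinarith
      linarith)
    have h2 : sphArea (φ '' Metric.ball z ρ) ≤ ENNReal.ofReal S := by
      rw [← hSeq]
      exact measure_mono (Set.image_mono hsub')
    have h3 : ENNReal.ofReal ((ρ * (‖deriv φ z‖ / (1 + ‖φ z‖ ^ 2))) ^ 2) ≤
        ENNReal.ofReal (100 * S) := by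
      rw [ENNReal.ofReal_mul (by norm_num)]
      refine h1.trans ?_
      have h4 : ENNReal.ofReal (100 : ℝ) = 100 := by norm_num
      rw [h4]
      gcongr
    rw [ENNReal.ofReal_le_ofReal_iff (by positivity)] at h3
    rw [le_div_iff₀ hρ]
    have h4 : 0 ≤ ‖deriv φ z‖ / (1 + ‖φ z‖ ^ 2) * ρ := by positivity
    refine abs_le_of_sq_le_sq' ?_ (by positivity) |>.2
    rw [mul_pow (10 : ℝ), Real.sq_sqrt hS0]
    linarith
  have hM := lip_of_local (fun z => ((φ z : ℂ) : OnePoint ℂ)) b (r / 4) (10 * Real.sqrt S / ρ) (by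
    intro z hz M' hM'
    have hzb : z ∈ Metric.ball b r := Metric.ball_subset_ball (by linarith) hz
    exact chordal_local_lip (hφ.differentiableAt (Metric.isOpen_ball.mem_nhds hzb)) M'
      (lt_of_le_of_lt (hsd z hz) hM')) w hw w' hw'
  rw [hSeq, ← ENNReal.ofReal_mul (by positivity)]
  refine ENNReal.ofReal_le_ofReal ?_
  have h1 : ‖w - w'‖ ≤ r / 2 := by
    rw [← dist_eq_norm]
    have h2 := Metric.mem_ball.1 hw
    have h3 := Metric.mem_ball'.1 hw'
    have h4 := dist_triangle w b w'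
    linarith
  have h2 : dist ((φ w : ℂ) : OnePoint ℂ) ((φ w' : ℂ) : OnePoint ℂ) ≤ 10 * Real.sqrt S / ρ * (r / 2) :=
    hM.trans (mul_le_mul_of_nonneg_left h1 (by positivity))
  have h3 := pow_le_pow_left₀ dist_nonneg h2 2
  refine h3.trans (le_of_eq ?_)
  have h4 : (10 * Real.sqrt S / ρ * (r / 2)) ^ 2 = 25 * k ^ 2 * Real.sqrt S ^ 2 := by
    rw [hρdef]
    field_simp
    ring
  rw [h4, Real.sq_sqrt hS0]

end Pool.Agent.Lib.MP_e4ee3e_an
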