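import Pool.Agent.Lib.MP_e4ee3e_an.B02
import Pool.Agent.Lib.MP_e4ee3e_an.A04

/-!
A05. Number of large branches on an admissible disc. The images φ_v(ball b r) for different v are
disjoint (B02) and open (or measurable: image of a ball under a continuous injective map). At most
one of them covers more than half of the unit disc; for the others small_area_small_diam gives
t^2 <= C sphArea(image), and the sum of the areas is at most sphArea univ < infinity.
-/

open MeasureTheory Filter Topology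

namespace Pool.Agent.Lib.MP_e4ee3e_an

attribute [local instance] chMetric

theorem a05_two {I J : Set ℂ} (hIJ : Disjoint I J)
    (hI : volume (Metric.closedBall (0 : ℂ) 1 \ I) < ENNReal.ofReal (Real.pi / 2))
    (hJ : volume (Metric.closedBall (0 : ℂ) 1 \ J) < ENNReal.ofReal (Real.pi / 2)) : False := by
  have h1 : Metric.closedBall (0 : ℂ) 1 ⊆
      (Metric.closedBall (0 : ℂ) 1 \ I) ∪ (Metric.closedBall (0 : ℂ) 1 \ J) := by
    intro x hx
    by_cases hxI : x ∈ I
    · exact Or.inr ⟨hx, fun hxJ => Set.disjoint_left.1 hIJ hxI hxJ⟩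
    · exact Or.inl ⟨hx, hxI⟩
  have h2 : volume (Metric.closedBall (0 : ℂ) 1) = ENNReal.ofReal Real.pi := by
    rw [Complex.volume_closedBall, ENNReal.ofReal_one, one_pow, one_mul]
    exact (ENNReal.ofReal_coe_nnreal (p := NNReal.pi)).symm
  have h3 := (measure_mono (μ := (volume : Measure ℂ)) h1).trans (measure_union_le _ _)
  have h4 : volume (Metric.closedBall (0 : ℂ) 1 \ I) + volume (Metric.closedBall (0 : ℂ) 1 \ J) <
      ENNReal.ofReal (Real.pi / 2) + ENNReal.ofReal (Real.pi / 2) := ENNReal.add_lt_add hI hJ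
  rw [← ENNReal.ofReal_add (by positivity) (by positivity), add_halves, ← h2] at h4
  exact absurd (lt_of_le_of_lt h3 h4) (lt_irrefl _)

theorem branch_count {P Q : Polynomial ℂ} {d : ℕ} (h : RatData P Q d) :
    ∃ C : ℝ, 0 < C ∧ ∀ (n : ℕ) (b : ℂ) (r t : ℝ), 0 < r → 0 < t → DiscOK P Q n b r →
      ∀ T : Finset (OnePoint ℂ),
        (∀ v ∈ T, ∃ φ : ℂ → ℂ, IsBranch P Q n b r φ ∧ ((φ b : ℂ) : OnePoint ℂ) = v ∧
          ∃ w ∈ Metric.ball b (r / 4), ∃ w' ∈ Metric.ball b (r / 4),
            t ≤ dist ((φ w : ℂ) : OnePoint ℂ) ((φ w' : ℂ) : OnePoint ℂ)) →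
        (T.card : ℝ) ≤ 1 + C / t ^ 2 := by
  classical
  obtain ⟨C, hC, hD⟩ := small_area_small_diam
  set S : ℝ := (sphArea Set.univ).toReal with hS
  have hS0 : 0 ≤ S := ENNReal.toReal_nonneg
  have hSeq : sphArea Set.univ = ENNReal.ofReal S := (ENNReal.ofReal_toReal sphArea_lt_top.ne).symm
  refine ⟨C * S + 1, by positivity, ?_⟩
  intro n b r t hr ht hok T hT
  choose! φ hφ using hT
  set I : OnePoint ℂ → Set ℂ := fun v => φ v '' Metric.ball b r with hI
  have hmeas : ∀ v ∈ T, MeasurableSet (I v) := fun v hv =>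
    a02_measurable (hφ v hv).1.1 (branch_injOn (hφ v hv).1)
  have hdis : ∀ v ∈ T, ∀ v' ∈ T, v ≠ v' → Disjoint (I v) (I v') := by
    intro v hv v' hv' hne
    refine branch_disjoint h hr hok (hφ v hv).1 (hφ v' hv').1 fun heq => hne ?_
    rw [← (hφ v hv).2.1, ← (hφ v' hv').2.1, heq]
  set B := T.filter (fun v => volume (Metric.closedBall (0 : ℂ) 1 \ I v) <
    ENNReal.ofReal (Real.pi / 2)) with hB
  have hBcard : B.card ≤ 1 := by
    rw [Finset.card_le_one]
    intro v hv v' hv'
    rw [hB, Finset.mem_filter] at hv hv'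
    by_contra hne
    exact a05_two (hdis v hv.1 v' hv'.1 hne) hv.2 hv'.2
  set G := T.filter (fun v => ¬ volume (Metric.closedBall (0 : ℂ) 1 \ I v) <
    ENNReal.ofReal (Real.pi / 2)) with hG
  have hsum : ∑ v ∈ G, sphArea (I v) ≤ sphArea Set.univ := by
    have h1 := measure_biUnion_finset (μ := sphArea) (s := G) (f := I)
      (fun v hv v' hv' hne => hdis v (Finset.mem_filter.1 hv).1 v' (Finset.mem_filter.1 hv').1 hne)
      (fun v hv => hmeas v (Finset.mem_filter.1 hv).1)
    rw [← h1]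
    exact measure_mono (Set.subset_univ _)
  have hone : ∀ v ∈ G, ENNReal.ofReal (t ^ 2) ≤ ENNReal.ofReal C * sphArea (I v) := by
    intro v hv
    rw [hG, Finset.mem_filter] at hv
    obtain ⟨h1, h2, w, hw, w', hw', hww⟩ := hφ v hv.1
    refine le_trans ?_ (hD (φ v) b r hr h1.1 (branch_injOn h1) (not_lt.1 hv.2) w hw w' hw')
    exact ENNReal.ofReal_le_ofReal (pow_le_pow_left₀ ht.le hww 2)
  have hGcard : (G.card : ℝ) * t ^ 2 ≤ C * S := by
    have h1 : ∑ _v ∈ G, ENNReal.ofReal (t ^ 2) ≤ ENNReal.ofReal (C * S) := by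
      refine (Finset.sum_le_sum hone).trans ?_
      rw [← Finset.mul_sum, ENNReal.ofReal_mul hC.le, ← hSeq]
      gcongr
    rw [Finset.sum_const, nsmul_eq_mul, ← ENNReal.ofReal_natCast,
      ← ENNReal.ofReal_mul (Nat.cast_nonneg _),
      ENNReal.ofReal_le_ofReal_iff (mul_nonneg hC.le hS0)] at h1
    exact h1
  have hcard : T.card = B.card + G.card := by
    rw [hB, hG, Finset.card_filter_add_card_filter_not]
  have h1 : (B.card : ℝ) ≤ 1 := by exact_mod_cast hBcard
  have h2 : (G.card : ℝ) ≤ C * S / t ^ 2 := by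
    rw [le_div_iff₀ (by positivity)]
    exact hGcard
  have h3 : C * S / t ^ 2 ≤ (C * S + 1) / t ^ 2 :=
    div_le_div_of_nonneg_right (by linarith) (by positivity)
  rw [hcard]
  push_cast
  linarith

end Pool.Agent.Lib.MP_e4ee3e_an
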