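import Pool.Agent.Lib.MP_e4ee3e_an.S09

/-!
B01. Existence of holomorphic inverse branches on admissible discs. Induction on n with disc_lift
(S08) for existence of a continuous φ with values in OnePoint ℂ; the values are finite (n >= 1: a
value infinity would give f^[n] infinity in the disc). Then φ is complex valued, continuous, and
holomorphic: by induction φ = φ_(n), f (φ_(n)) = φ_(n-1) holomorphic; P/Q has nonzero derivative
at φ_n(w) (non-marked, Q nonzero as the value is finite); local inverse.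
Suggestion: prove the one-step lemma: ψ holomorphic on the ball with values (as points of the
sphere) in good1, φ continuous lift, then φ is complex valued and holomorphic.
-/

open MeasureTheory Filter Topology

namespace Pool.Agent.Lib.MP_e4ee3e_an

attribute [local instance] chMetric

theorem b01_finite {P Q : Polynomial ℂ} {x y : ℂ}
    (h : ratMap P Q (x : OnePoint ℂ) = (y : OnePoint ℂ)) :
    Q.eval x ≠ 0 ∧ P.eval x / Q.eval x = y := by
  have h1 : ratio (P.eval x) (Q.eval x) = (y : OnePoint ℂ) := h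
  unfold ratio at h1
  by_cases hQ : Q.eval x = 0
  · rw [if_pos hQ] at h1
    exact absurd h1 (OnePoint.infty_ne_coe y)
  · rw [if_neg hQ] at h1
    exact ⟨hQ, OnePoint.coe_injective h1⟩

theorem branch_step {P Q : Polynomial ℂ} {d : ℕ} (h : RatData P Q d) (b : ℂ) (r : ℝ)
    (hr : 0 < r) (ψ : ℂ → ℂ) (hψ : DifferentiableOn ℂ ψ (Metric.ball b r))
    (hg : ∀ w ∈ Metric.ball b r, ((ψ w : ℂ) : OnePoint ℂ) ∈ good1 P Q) (e : OnePoint ℂ)
    (he : ratMap P Q e = ((ψ b : ℂ) : OnePoint ℂ)) :
    ∃ φ : ℂ → ℂ, DifferentiableOn ℂ φ (Metric.ball b r) ∧ ((φ b : ℂ) : OnePoint ℂ) = e ∧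
      ∀ w ∈ Metric.ball b r, ratMap P Q ((φ w : ℂ) : OnePoint ℂ) = ((ψ w : ℂ) : OnePoint ℂ) := by
  obtain ⟨Φ, hΦc, hΦb, hΦ⟩ := disc_lift h b r hr (fun w => ((ψ w : ℂ) : OnePoint ℂ))
    (OnePoint.continuous_coe.comp_continuousOn hψ.continuousOn) hg e he
  have hbb : b ∈ Metric.ball b r := Metric.mem_ball_self hr
  have hfin : ∀ w ∈ Metric.ball b r, ∃ z : ℂ, ((z : ℂ) : OnePoint ℂ) = Φ w := by
    intro w hw
    by_contra hcon
    have hinf : Φ w = OnePoint.infty := by
      by_contra hne
      exact hcon (OnePoint.ne_infty_iff_exists.1 hne)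
    have h1 := hΦ w hw
    rw [hinf] at h1
    exact (hg w hw).2 OnePoint.infty (Or.inl rfl) h1
  choose! φ hφ using hfin
  refine ⟨φ, ?_, ?_, ?_⟩
  · intro w hw
    have hwn : Metric.ball b r ∈ 𝓝 w := Metric.isOpen_ball.mem_nhds hw
    have hcont : ContinuousAt φ w := by
      have h1 : ContinuousAt Φ w := hΦc.continuousAt hwn
      have h2 : ContinuousAt (fun z => ((φ z : ℂ) : OnePoint ℂ)) w := by
        refine h1.congr ?_
        filter_upwards [hwn] with z hz
        exact (hφ z hz).symm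
      exact (OnePoint.isOpenEmbedding_coe.toIsInducing.continuousAt_iff).2 h2
    have heq : ∀ z ∈ Metric.ball b r, Q.eval (φ z) ≠ 0 ∧ P.eval (φ z) / Q.eval (φ z) = ψ z := by
      intro z hz
      have h1 := hΦ z hz
      rw [← hφ z hz] at h1
      exact b01_finite h1
    have hW : (Polynomial.derivative P * Q - P * Polynomial.derivative Q).eval (φ w) ≠ 0 := by
      intro h0
      have h1 := hΦ w hw
      rw [← hφ w hw] at h1
      exact (hg w hw).2 _ (Or.inr ⟨φ w, rfl, h0⟩) h1
    have hQw := (heq w hw).1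
    have hF : HasStrictDerivAt (fun x => P.eval x / Q.eval x)
        (((Polynomial.derivative P).eval (φ w) * Q.eval (φ w) -
          P.eval (φ w) * (Polynomial.derivative Q).eval (φ w)) / (Q.eval (φ w)) ^ 2) (φ w) :=
      (P.hasStrictDerivAt (φ w)).div (Q.hasStrictDerivAt (φ w)) hQw
    have hF0 : ((Polynomial.derivative P).eval (φ w) * Q.eval (φ w) -
          P.eval (φ w) * (Polynomial.derivative Q).eval (φ w)) / (Q.eval (φ w)) ^ 2 ≠ 0 := by
      refine div_ne_zero ?_ (pow_ne_zero 2 hQw)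
      rw [Polynomial.eval_sub, Polynomial.eval_mul, Polynomial.eval_mul] at hW
      exact hW
    have hL := hF.to_localInverse hF0
    have hE := hF.eventually_left_inverse hF0
    have h1 : ∀ᶠ z in 𝓝 w, φ z = hF.localInverse _ _ _ hF0 (ψ z) := by
      filter_upwards [hcont.eventually hE, hwn] with z hz hzb
      rw [← (heq z hzb).2]
      exact hz.symm
    have h2 : HasDerivAt (hF.localInverse _ _ _ hF0)
        (((Polynomial.derivative P).eval (φ w) * Q.eval (φ w) -
          P.eval (φ w) * (Polynomial.derivative Q).eval (φ w)) / (Q.eval (φ w)) ^ 2)⁻¹ (ψ w) := by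
      have h3 := hL.hasDerivAt
      rwa [(heq w hw).2] at h3
    have h3 : DifferentiableAt ℂ (fun z => hF.localInverse _ _ _ hF0 (ψ z)) w :=
      (h2.differentiableAt).comp w (hψ.differentiableAt hwn)
    exact (h3.congr_of_eventuallyEq h1).differentiableWithinAt
  · rw [hφ b hbb, hΦb]
  · intro w hw
    rw [hφ w hw]
    exact hΦ w hw

theorem branch_exists {P Q : Polynomial ℂ} {d : ℕ} (h : RatData P Q d) (n : ℕ) (b : ℂ) (r : ℝ)
    (hr : 0 < r) (hok : DiscOK P Q n b r) (v : OnePoint ℂ)
    (hv : (ratMap P Q)^[n] v = (b : OnePoint ℂ)) :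
    ∃ φ : ℂ → ℂ, IsBranch P Q n b r φ ∧ ((φ b : ℂ) : OnePoint ℂ) = v := by
  induction n generalizing v with
  | zero =>
    refine ⟨fun w => w, ⟨differentiableOn_id, fun w _ => rfl⟩, ?_⟩
    exact hv.symm
  | succ n ih =>
    rw [Function.iterate_succ_apply] at hv
    obtain ⟨ψ, hψ, hψb⟩ := ih (fun w hw k hk1 hk2 => hok w hw k hk1 (by omega)) (ratMap P Q v) hv
    obtain ⟨φ, hφd, hφb, hφ⟩ := branch_step h b r hr ψ hψ.1 (by
      intro w hw
      refine ⟨OnePoint.coe_ne_infty _, fun c hc hcw => ?_⟩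
      refine hok w hw (n + 1) (by omega) le_rfl c hc ?_
      rw [Function.iterate_succ_apply, hcw]
      exact hψ.2 w hw) v hψb.symm
    refine ⟨φ, ⟨hφd, fun w hw => ?_⟩, hφb⟩
    rw [Function.iterate_succ_apply, hφ w hw]
    exact hψ.2 w hw

end Pool.Agent.Lib.MP_e4ee3e_an
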