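import Pool.Agent.Lib.MP_e4ee3e_an.B01

/-!
B02. Branches are injective on the disc and branches with different centre values have disjoint
images.
-/

open MeasureTheory Filter Topology

namespace Pool.Agent.Lib.MP_e4ee3e_an

attribute [local instance] chMetric

theorem branch_injOn {P Q : Polynomial ℂ} {n : ℕ} {b : ℂ} {r : ℝ} {φ : ℂ → ℂ}
    (hφ : IsBranch P Q n b r φ) : Set.InjOn φ (Metric.ball b r) := by
  intro w hw w' hw' hww
  have h1 := hφ.2 w hw
  have h2 := hφ.2 w' hw'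
  rw [hww] at h1
  exact OnePoint.coe_injective (h1.symm.trans h2)

theorem branch_disjoint {P Q : Polynomial ℂ} {d : ℕ} (h : RatData P Q d) {n : ℕ} {b : ℂ} {r : ℝ}
    (hr : 0 < r) (hok : DiscOK P Q n b r) {φ₁ φ₂ : ℂ → ℂ} (h₁ : IsBranch P Q n b r φ₁)
    (h₂ : IsBranch P Q n b r φ₂) (hne : φ₁ b ≠ φ₂ b) :
    Disjoint (φ₁ '' Metric.ball b r) (φ₂ '' Metric.ball b r) := by
  rw [Set.disjoint_left]
  rintro _ ⟨w, hw, rfl⟩ ⟨w', hw', hww⟩
  have h3 := h₁.2 w hw
  have h4 := h₂.2 w' hw'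
  rw [hww] at h4
  have h5 : w' = w := OnePoint.coe_injective (h4.symm.trans h3)
  subst h5
  have h6 := iter_disc_unique h n b r hok (fun z => ((φ₁ z : ℂ) : OnePoint ℂ))
    (fun z => ((φ₂ z : ℂ) : OnePoint ℂ))
    (OnePoint.continuous_coe.comp_continuousOn h₁.1.continuousOn)
    (OnePoint.continuous_coe.comp_continuousOn h₂.1.continuousOn) w' hw (by rw [hww])
    h₁.2 h₂.2 b (Metric.mem_ball_self hr)
  exact hne (OnePoint.coe_injective h6)

end Pool.Agent.Lib.MP_e4ee3e_an
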