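import Pool.Agent.Lib.MP_e4ee3e_an.Setup

/-!
D01. Good codes: convergence with explicit rate, compactness. tail sum of A exp(-δ k), k > n, is
A exp(-δ(n+1))/(1-exp(-δ)). The set codes δ A is closed: it is an intersection over k of the sets
where D k α <= A exp(-δ k), which are clopen since D k depends on finitely many letters; the space
of sequences in Fin d is compact.
-/

open MeasureTheory Filter Topology

namespace Pool.Agent.Lib.MP_e4ee3e_an

attribute [local instance] chMetric

variable {X : Type*} [MetricSpace X] [CompactSpace X] {f : X → X} {L : ℝ} {d : ℕ}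

omit [CompactSpace X] in
lemma d01_step (T : AbsTree X f L d) {δ A : ℝ} {α : ℕ → Fin d}
    (hα : α ∈ T.codes δ A) (n : ℕ) :
    dist (T.z n α) (T.z (n + 1) α) ≤ (A * Real.exp (-δ)) * Real.exp (-δ) ^ n := by
  refine (T.dist_z n α).trans ((hα (n + 1)).trans (le_of_eq ?_))
  rw [← Real.exp_nat_mul, mul_assoc, ← Real.exp_add]
  congr 2
  push_cast
  ring

theorem AbsTree.codes_tendsto (T : AbsTree X f L d) {δ A : ℝ} (hδ : 0 < δ) {α : ℕ → Fin d}
    (hα : α ∈ T.codes δ A) : ∃ x, Tendsto (fun n => T.z n α) atTop (𝓝 x) := by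
  have h1 : CauchySeq (fun n => T.z n α) :=
    cauchySeq_of_le_geometric (Real.exp (-δ)) (A * Real.exp (-δ))
      (Real.exp_lt_one_iff.2 (by linarith)) (d01_step T hα)
  exact cauchySeq_tendsto_of_complete h1

theorem AbsTree.codes_dist_le (T : AbsTree X f L d) {δ A : ℝ} (hδ : 0 < δ) {α : ℕ → Fin d}
    (hα : α ∈ T.codes δ A) {x : X} (hx : Tendsto (fun n => T.z n α) atTop (𝓝 x)) (n : ℕ) :
    dist (T.z n α) x ≤ A * Real.exp (-(δ * (n + 1))) / (1 - Real.exp (-δ)) := by
  have h1 := dist_le_of_le_geometric_of_tendsto (Real.exp (-δ)) (A * Real.exp (-δ))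
      (Real.exp_lt_one_iff.2 (by linarith)) (d01_step T hα) hx n
  refine h1.trans (le_of_eq ?_)
  rw [← Real.exp_nat_mul, mul_assoc, ← Real.exp_add]
  congr 3
  ring

theorem AbsTree.isCompact_codes (T : AbsTree X f L d) (δ A : ℝ) : IsCompact (T.codes δ A) := by
  apply IsClosed.isCompact
  have h1 : T.codes δ A = ⋂ k : ℕ, {α | T.D k α ≤ A * Real.exp (-(δ * k))} := by
    ext α
    simp [AbsTree.codes]
  rw [h1]
  refine isClosed_iInter fun k => ?_
  have hc : Continuous (fun α : ℕ → Fin d => T.D k α) := by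
    let g : (Fin (k + 1) → Fin d) → ℝ := fun w => T.D k (fun i => w ⟨min i k, by omega⟩)
    have h2 : (fun α : ℕ → Fin d => T.D k α) = g ∘ (fun α => fun i : Fin (k + 1) => α i) := by
      funext α
      apply T.D_congr
      intro i hi
      simp [min_eq_left hi]
    rw [h2]
    apply Continuous.comp
    · exact continuous_of_discreteTopology
    · exact continuous_pi fun i => continuous_apply _
  exact isClosed_le hc continuous_const

end Pool.Agent.Lib.MP_e4ee3e_an
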