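import Pool.Agent.Lib.MP_e4ee3e_an.D01

/-!
D02. The set of points coded by good codes in a closed set W of sequences is compact: it is the
image of the compact set codes ∩ W under the continuous map lim z_n, uniform limit of
locally constant maps.
-/

open MeasureTheory Filter Topology

namespace Pool.Agent.Lib.MP_e4ee3e_an

attribute [local instance] chMetric

variable {X : Type*} [MetricSpace X] [CompactSpace X] {f : X → X} {L : ℝ} {d : ℕ}

theorem d02_continuous_z (T : AbsTree X f L d) (n : ℕ) : Continuous (fun α => T.z n α) := by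
  refine continuous_iff_continuousAt.2 fun α => ?_
  have h : ∀ᶠ β in 𝓝 α, ∀ i ∈ Set.Iic n, β i = α i := by
    refine (eventually_all_finite (Set.finite_Iic n)).2 fun i _ => ?_
    exact (continuous_apply i).continuousAt.eventually
      ((isOpen_discrete {α i}).mem_nhds (Set.mem_singleton _))
  refine tendsto_const_nhds.congr' ?_
  filter_upwards [h] with β hβ
  exact T.z_congr n α β fun i hi => (hβ i hi).symm

theorem AbsTree.isCompact_ptsIn (T : AbsTree X f L d) {δ : ℝ} (hδ : 0 < δ) (A : ℝ)
    (W : Set (ℕ → Fin d)) (hW : IsClosed W) :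
    IsCompact {x | ∃ α ∈ T.codes δ A ∩ W, Tendsto (fun n => T.z n α) atTop (𝓝 x)} := by
  classical
  rcases isEmpty_or_nonempty X with hX | hX
  · have : {x | ∃ α ∈ T.codes δ A ∩ W, Tendsto (fun n => T.z n α) atTop (𝓝 x)} = ∅ :=
      Set.eq_empty_of_isEmpty _
    rw [this]
    exact isCompact_empty
  have hK : IsCompact (T.codes δ A ∩ W) := (T.isCompact_codes δ A).inter_right hW
  have hex : ∀ α : ℕ → Fin d, ∃ x : X, α ∈ T.codes δ A →
      Tendsto (fun n => T.z n α) atTop (𝓝 x) := by
    intro α
    by_cases hα : α ∈ T.codes δ A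
    · obtain ⟨x, hx⟩ := T.codes_tendsto hδ hα
      exact ⟨x, fun _ => hx⟩
    · exact ⟨Classical.arbitrary X, fun h => absurd h hα⟩
  choose F hF using hex
  have hlim : Tendsto (fun n : ℕ => A * Real.exp (-(δ * (n + 1))) / (1 - Real.exp (-δ))) atTop
      (𝓝 0) := by
    have h1 : Tendsto (fun n : ℕ => -(δ * ((n : ℝ) + 1))) atTop atBot := by
      have : Tendsto (fun n : ℕ => δ * ((n : ℝ) + 1)) atTop atTop :=
        (tendsto_natCast_atTop_atTop.atTop_add tendsto_const_nhds).const_mul_atTop hδ
      exact tendsto_neg_atTop_atBot.comp this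
    have h2 := (Real.tendsto_exp_atBot.comp h1).const_mul A
    have h3 := h2.div_const (1 - Real.exp (-δ))
    simpa using h3
  have hunif : TendstoUniformlyOn (fun (n : ℕ) α => T.z n α) F atTop (T.codes δ A ∩ W) := by
    refine Metric.tendstoUniformlyOn_iff.2 fun ε hε => ?_
    filter_upwards [hlim.eventually (gt_mem_nhds hε)] with n hn α hα
    rw [dist_comm]
    exact lt_of_le_of_lt (T.codes_dist_le hδ hα.1 (hF α hα.1) n) hn
  have hcont : ContinuousOn F (T.codes δ A ∩ W) :=
    hunif.continuousOn (Frequently.of_forall fun n => (d02_continuous_z T n).continuousOn)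
  have himg : {x | ∃ α ∈ T.codes δ A ∩ W, Tendsto (fun n => T.z n α) atTop (𝓝 x)} =
      F '' (T.codes δ A ∩ W) := by
    ext x
    constructor
    · rintro ⟨α, hα, hx⟩
      exact ⟨α, hα, tendsto_nhds_unique (hF α hα.1) hx⟩
    · rintro ⟨α, hα, rfl⟩
      exact ⟨α, hα, hF α hα.1⟩
  rw [himg]
  exact hK.image_of_continuousOn hcont

theorem AbsTree.isCompact_pts (T : AbsTree X f L d) {δ : ℝ} (hδ : 0 < δ) (A : ℝ) :
    IsCompact (T.pts δ A) := by
  have h := T.isCompact_ptsIn hδ A Set.univ isClosed_univ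
  rw [Set.inter_univ] at h
  exact h

theorem AbsTree.measurableSet_ptsAll [MeasurableSpace X] [BorelSpace X] (T : AbsTree X f L d)
    {δ : ℝ} (hδ : 0 < δ) : MeasurableSet (T.ptsAll δ) :=
  MeasurableSet.iUnion fun _ => (T.isCompact_pts hδ _).isClosed.measurableSet

end Pool.Agent.Lib.MP_e4ee3e_an
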