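import Pool.Agent.Lib.MP_e4ee3e_an.D02

/-!
D03. ptsAll is forward invariant (shift a good code: D k (shift α) <= L D (k+1) α; z n (shift α) =
f (z (n+1) α), f continuous), so by ergodicity its measure is 0 or its complement is null
(Ergodic, f^-1(ptsAll) contains ptsAll and has the same measure).
-/

open MeasureTheory Filter Topology

namespace Pool.Agent.Lib.MP_e4ee3e_an

attribute [local instance] chMetric

variable {X : Type*} [MetricSpace X] [CompactSpace X] {f : X → X} {L : ℝ} {d : ℕ}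

theorem AbsTree.ptsAll_forward (T : AbsTree X f L d) (hL : 0 ≤ L) (hf : Continuous f) {δ : ℝ}
    (hδ : 0 < δ) {x : X} (hx : x ∈ T.ptsAll δ) : f x ∈ T.ptsAll δ := by
  obtain ⟨A, hA⟩ := Set.mem_iUnion.1 hx
  obtain ⟨α, hα, ht⟩ := hA
  refine Set.mem_iUnion.2 ⟨⌈L * A⌉₊, shift α, ?_, ?_⟩
  · intro k
    have h1 : T.D k (shift α) ≤ L * T.D (k + 1) α := T.D_shift k α
    have h2 : T.D (k + 1) α ≤ A * Real.exp (-(δ * ((k + 1 : ℕ) : ℝ))) := hα (k + 1)
    have h3 : Real.exp (-(δ * ((k + 1 : ℕ) : ℝ))) ≤ Real.exp (-(δ * k)) := by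
      apply Real.exp_le_exp.2
      push_cast
      nlinarith
    have hA0 : (0 : ℝ) ≤ A := Nat.cast_nonneg A
    calc T.D k (shift α) ≤ L * T.D (k + 1) α := h1
      _ ≤ L * (A * Real.exp (-(δ * ((k + 1 : ℕ) : ℝ)))) := mul_le_mul_of_nonneg_left h2 hL
      _ ≤ L * (A * Real.exp (-(δ * k))) :=
        mul_le_mul_of_nonneg_left (mul_le_mul_of_nonneg_left h3 hA0) hL
      _ = (L * A) * Real.exp (-(δ * k)) := by ring
      _ ≤ (⌈L * A⌉₊ : ℝ) * Real.exp (-(δ * k)) :=
        mul_le_mul_of_nonneg_right (Nat.le_ceil _) (Real.exp_pos _).le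
  · have h1 : Tendsto (fun n => f (T.z (n + 1) α)) atTop (𝓝 (f x)) :=
      (hf.tendsto x).comp (ht.comp (tendsto_add_atTop_nat 1))
    refine h1.congr fun n => ?_
    exact T.map_z_succ n α

theorem AbsTree.ptsAll_zero_one [MeasurableSpace X] [BorelSpace X] (T : AbsTree X f L d)
    (hL : 0 ≤ L) (hf : Continuous f) {δ : ℝ} (hδ : 0 < δ) (m : Measure X) [IsProbabilityMeasure m]
    (hm : Ergodic f m) : m (T.ptsAll δ) = 0 ∨ m (T.ptsAll δ)ᶜ = 0 := by
  have hmeas := T.measurableSet_ptsAll hδ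
  have hsub : T.ptsAll δ ≤ᵐ[m] f ⁻¹' (T.ptsAll δ) :=
    Filter.Eventually.of_forall fun x hx => T.ptsAll_forward hL hf hδ hx
  rcases hm.ae_empty_or_univ_of_ae_le_preimage hmeas.nullMeasurableSet hsub with h | h
  · left
    rw [measure_congr h, measure_empty]
  · right
    exact (ae_eq_univ).1 h

end Pool.Agent.Lib.MP_e4ee3e_an
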