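import Pool.Agent.Lib.MP_e4ee3e_an.D02

/-!
D04. Measurable choice of a code on the compact set pts δ A: s x = lexicographically smallest code.
s 0 x = least letter i such that x is in the compact set of points with a code in codes δ A with
α 0 = i; then s 1 x, etc. For each n there is a code in codes δ A agreeing with s x up to n and
coding x; by closedness s x is in codes δ A and by the uniform rate it codes x. Measurability:
{s agrees with w up to n} is a difference of compact sets (finite unions). Points with no code: use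
a constant. Then glue over A (first A with x in pts δ A). If d = 0 or ptsAll is empty argue
separately (then the measure hypothesis fails as m is a probability).
-/

open MeasureTheory Filter Topology

namespace Pool.Agent.Lib.MP_e4ee3e_an

attribute [local instance] chMetric

variable {X : Type*} [MetricSpace X] [CompactSpace X] {f : X → X} {L : ℝ} {d : ℕ}

/-- Measurable choice among finitely many measurable sets. -/
theorem d04_choice [MeasurableSpace X] (hd : 0 < d) (S : Fin d → Set X)
    (hS : ∀ i, MeasurableSet (S i)) :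
    ∃ g : X → Fin d, Measurable g ∧ ∀ x, (∃ i, x ∈ S i) → x ∈ S (g x) := by
  classical
  let p : ℕ → X → Prop := fun k x => (∃ h : k < d, x ∈ S ⟨k, h⟩) ∨ d ≤ k
  let F : ℕ → X → Fin d := fun k _ => if h : k < d then ⟨k, h⟩ else ⟨0, hd⟩
  have hp : ∀ x, ∃ k, p k x := fun x => ⟨d, Or.inr le_rfl⟩
  have hpm : ∀ k, MeasurableSet {x | p k x} := by
    intro k
    by_cases hk : k < d
    · have : {x | p k x} = S ⟨k, hk⟩ := by
        ext x
        constructor
        · rintro (⟨h, hx⟩ | h)
          · exact hx
          · omega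
        · intro hx
          exact Or.inl ⟨hk, hx⟩
      rw [this]
      exact hS _
    · have : {x | p k x} = Set.univ := by
        ext x
        simp only [Set.mem_setOf_eq, Set.mem_univ, iff_true]
        exact Or.inr (by omega)
      rw [this]
      exact MeasurableSet.univ
  have hF : ∀ k, Measurable (F k) := fun k => measurable_const
  refine ⟨fun x => F (Nat.find (hp x)) x, Measurable.find hF hpm hp, ?_⟩
  rintro x ⟨i, hi⟩
  have hfind : Nat.find (hp x) ≤ i := Nat.find_le (Or.inl ⟨i.2, hi⟩)
  have hlt : Nat.find (hp x) < d := lt_of_le_of_lt hfind i.2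
  have hspec := Nat.find_spec (hp x)
  rcases hspec with ⟨h, hx⟩ | h
  · simp only [F, dif_pos hlt]
    exact hx
  · omega

/-- Points with a good code with a given initial word. -/
def d04_Q (T : AbsTree X f L d) (δ A : ℝ) (n : ℕ) (w : Fin n → Fin d) : Set X :=
  {x | ∃ α ∈ T.codes δ A ∩ {α | ∀ j : Fin n, α j = w j},
    Tendsto (fun n => T.z n α) atTop (𝓝 x)}

theorem d04_Q_meas [MeasurableSpace X] [BorelSpace X] (T : AbsTree X f L d) {δ : ℝ} (hδ : 0 < δ)
    (A : ℝ) (n : ℕ) (w : Fin n → Fin d) : MeasurableSet (d04_Q T δ A n w) := by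
  have hW : IsClosed {α : ℕ → Fin d | ∀ j : Fin n, α j = w j} := by
    have : {α : ℕ → Fin d | ∀ j : Fin n, α j = w j} = ⋂ j : Fin n, {α | α j = w j} := by
      ext α
      simp
    rw [this]
    exact isClosed_iInter fun j => isClosed_eq (continuous_apply _) continuous_const
  exact (T.isCompact_ptsIn hδ A _ hW).isClosed.measurableSet

/-- The chosen initial words. -/
noncomputable def d04_psi (g : ∀ n : ℕ, (Fin n → Fin d) → X → Fin d) (x : X) :
    ∀ n : ℕ, Fin n → Fin d
  | 0 => Fin.elim0
  | n + 1 => Fin.snoc (α := fun _ => Fin d) (d04_psi g x n) (g n (d04_psi g x n) x)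

theorem d04_psi_agree (g : ∀ n : ℕ, (Fin n → Fin d) → X → Fin d) (x : X) (n : ℕ) :
    ∀ m, n ≤ m → ∀ j : ℕ, ∀ hj : j < n, ∀ hj' : j < m,
      d04_psi g x m ⟨j, hj'⟩ = d04_psi g x n ⟨j, hj⟩ := by
  intro m hm
  induction m, hm using Nat.le_induction with
  | base => intro j hj hj'; rfl
  | succ m hm ih =>
    intro j hj hj'
    rw [← ih j hj (lt_of_lt_of_le hj hm)]
    have : (⟨j, hj'⟩ : Fin (m + 1)) = Fin.castSucc ⟨j, lt_of_lt_of_le hj hm⟩ := rfl
    rw [this]
    simp only [d04_psi, Fin.snoc_castSucc]

theorem d04_psi_meas [MeasurableSpace X] (g : ∀ n : ℕ, (Fin n → Fin d) → X → Fin d)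
    (hg : ∀ n w, Measurable (g n w)) (n : ℕ) : Measurable (fun x => d04_psi g x n) := by
  induction n with
  | zero => exact measurable_const
  | succ n ih =>
    refine measurable_to_countable' fun w => ?_
    have hset : (fun x => d04_psi g x (n + 1)) ⁻¹' {w} =
        (fun x => d04_psi g x n) ⁻¹' {fun j => w j.castSucc} ∩
          (g n (fun j => w j.castSucc)) ⁻¹' {w (Fin.last n)} := by
      ext x
      simp only [Set.mem_preimage, Set.mem_singleton_iff, Set.mem_inter_iff]
      constructor
      · intro h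
        have h1 : d04_psi g x n = fun j => w j.castSucc := by
          funext j
          have := congrFun h j.castSucc
          simpa only [d04_psi, Fin.snoc_castSucc] using this
        refine ⟨h1, ?_⟩
        have := congrFun h (Fin.last n)
        simp only [d04_psi, Fin.snoc_last] at this
        rw [← h1]
        exact this
      · rintro ⟨h1, h2⟩
        funext j
        refine Fin.lastCases ?_ (fun j => ?_) j
        · simp only [d04_psi, Fin.snoc_last]
          rw [h1]
          exact h2
        · simp only [d04_psi, Fin.snoc_castSucc]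
          rw [h1]
    rw [hset]
    exact (ih (measurableSet_singleton _)).inter (hg _ _ (measurableSet_singleton _))

theorem AbsTree.exists_code_on_pts [MeasurableSpace X] [BorelSpace X] (T : AbsTree X f L d)
    (hd : 0 < d) {δ : ℝ} (hδ : 0 < δ) (A : ℝ) :
    ∃ s : X → ℕ → Fin d, Measurable s ∧
      ∀ x ∈ T.pts δ A, Tendsto (fun n => T.z n (s x)) atTop (𝓝 x) := by
  classical
  have hch : ∀ (n : ℕ) (w : Fin n → Fin d), ∃ g : X → Fin d, Measurable g ∧
      ∀ x, (∃ i, x ∈ d04_Q T δ A (n + 1) (Fin.snoc (α := fun _ => Fin d) w i)) →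
        x ∈ d04_Q T δ A (n + 1) (Fin.snoc (α := fun _ => Fin d) w (g x)) := fun n w =>
    d04_choice hd _ (fun i => d04_Q_meas T hδ A _ _)
  choose g hgm hg using hch
  let s : X → ℕ → Fin d := fun x n => d04_psi g x (n + 1) (Fin.last n)
  refine ⟨s, ?_, ?_⟩
  · refine measurable_pi_iff.2 fun n => ?_
    exact (measurable_pi_apply (Fin.last n)).comp (d04_psi_meas g hgm (n + 1))
  · intro x hx
    have hmem : ∀ n, x ∈ d04_Q T δ A n (d04_psi g x n) := by
      intro n
      induction n with
      | zero =>
        obtain ⟨α, hα, ht⟩ := hx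
        exact ⟨α, ⟨hα, fun j => j.elim0⟩, ht⟩
      | succ n ih =>
        obtain ⟨α, ⟨hα, hw⟩, ht⟩ := ih
        have : x ∈ d04_Q T δ A (n + 1)
            (Fin.snoc (α := fun _ => Fin d) (d04_psi g x n) (g n (d04_psi g x n) x)) := by
          apply hg n (d04_psi g x n) x
          refine ⟨α n, α, ⟨hα, ?_⟩, ht⟩
          intro j
          refine Fin.lastCases ?_ (fun j => ?_) j
          · simp only [Fin.snoc_last, Fin.val_last]
          · simp only [Fin.snoc_castSucc, Fin.val_castSucc]
            exact hw j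
        exact this
    have hs : ∀ n (j : ℕ) (hj : j < n), d04_psi g x n ⟨j, hj⟩ = s x j := by
      intro n j hj
      exact d04_psi_agree g x (j + 1) n hj j (Nat.lt_succ_self j) hj
    have happ : ∀ n : ℕ, ∃ α ∈ T.codes δ A, (∀ i ≤ n, α i = s x i) ∧
        Tendsto (fun k => T.z k α) atTop (𝓝 x) := by
      intro n
      obtain ⟨α, ⟨hα, hw⟩, ht⟩ := hmem (n + 1)
      refine ⟨α, hα, ?_, ht⟩
      intro i hi
      have h1 := hw ⟨i, Nat.lt_succ_of_le hi⟩
      rw [hs] at h1
      exact h1
    choose a ha hag hat using happ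
    have hbound : ∀ n : ℕ, dist (T.z n (s x)) x ≤
        A * Real.exp (-(δ * (n + 1))) / (1 - Real.exp (-δ)) := by
      intro n
      rw [T.z_congr n (s x) (a n) (fun i hi => (hag n i hi).symm)]
      exact T.codes_dist_le hδ (ha n) (hat n) n
    refine tendsto_iff_dist_tendsto_zero.2 ?_
    refine squeeze_zero (fun n => dist_nonneg) hbound ?_
    have h1 : Tendsto (fun n : ℕ => -(δ * ((n : ℝ) + 1))) atTop atBot := by
      have : Tendsto (fun n : ℕ => δ * ((n : ℝ) + 1)) atTop atTop :=
        (tendsto_natCast_atTop_atTop.atTop_add tendsto_const_nhds).const_mul_atTop hδ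
      exact tendsto_neg_atTop_atBot.comp this
    have h2 := (Real.tendsto_exp_atBot.comp h1).const_mul A
    have h3 := h2.div_const (1 - Real.exp (-δ))
    simpa using h3

theorem AbsTree.exists_code_ae [MeasurableSpace X] [BorelSpace X] (T : AbsTree X f L d)
    (hd : 0 < d) {δ : ℝ} (hδ : 0 < δ) (m : Measure X) (hm : m (T.ptsAll δ)ᶜ = 0) :
    ∃ s : X → ℕ → Fin d, Measurable s ∧
      ∀ᵐ x ∂m, Tendsto (fun n => T.z n (s x)) atTop (𝓝 x) := by
  classical
  have hch := fun A : ℕ => T.exists_code_on_pts hd hδ (A : ℝ)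
  choose s hsm hs using hch
  let p : ℕ → X → Prop := fun A x => x ∈ T.pts δ (A : ℝ) ∨ x ∉ T.ptsAll δ
  have hp : ∀ x, ∃ A, p A x := by
    intro x
    by_cases hx : x ∈ T.ptsAll δ
    · obtain ⟨A, hA⟩ := Set.mem_iUnion.1 hx
      exact ⟨A, Or.inl hA⟩
    · exact ⟨0, Or.inr hx⟩
  have hpm : ∀ A, MeasurableSet {x | p A x} := by
    intro A
    have : {x | p A x} = T.pts δ (A : ℝ) ∪ (T.ptsAll δ)ᶜ := by
      ext x
      rfl
    rw [this]
    exact (T.isCompact_pts hδ _).isClosed.measurableSet.union (T.measurableSet_ptsAll hδ).compl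
  refine ⟨fun x => s (Nat.find (hp x)) x, Measurable.find hsm hpm hp, ?_⟩
  have hae : ∀ᵐ x ∂m, x ∈ T.ptsAll δ := hm
  filter_upwards [hae] with x hx
  have hspec := Nat.find_spec (hp x)
  rcases hspec with h | h
  · exact hs _ x h
  · exact absurd hx h

end Pool.Agent.Lib.MP_e4ee3e_an
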