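import Pool.Agent.Lib.MP_e4ee3e_an.Setup

/-!
Definitions for the second stage: codes without bad levels from k₀ on, the coding map of an
abstract tree.
-/

open MeasureTheory Filter Topology

namespace Pool.Agent.Lib.MP_e4ee3e_an

attribute [local instance] chMetric

namespace AbsTree

variable {X : Type*} [MetricSpace X] {f : X → X} {L : ℝ} {d : ℕ}

/-- Sequences without bad level >= k₀. -/
def good (T : AbsTree X f L d) (δ : ℝ) (k₀ : ℕ) : Set (ℕ → Fin d) :=
  {β | ∀ k : ℕ, k₀ ≤ k → T.D k β ≤ Real.exp (-(δ * k))}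

/-- All sequences with finitely many bad levels. -/
def goodAll (T : AbsTree X f L d) (δ : ℝ) : Set (ℕ → Fin d) := ⋃ k₀ : ℕ, T.good δ k₀

/-- Coding map. -/
noncomputable def cod (T : AbsTree X f L d) (β : ℕ → Fin d) : X :=
  @limUnder _ _ _ ⟨T.root⟩ atTop (fun n => T.z n β)

/-- Auxiliary root: every N-th preimage v of y₀ is matched with an N-th preimage of the root, and
few of them are far from the match. -/
def AuxRoot (T : AbsTree X f L d) (y₀ : X) : Prop :=
  ∃ lift : ℕ → X → X, (∀ N v, f^[N] v = y₀ → f^[N] (lift N v) = T.root) ∧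
    ∀ δ' : ℝ, 0 < δ' → ∃ C : ℝ, ∀ (N : ℕ) (t : ℝ), 0 < t → t ≤ 1 → ∀ S : Finset X,
      (∀ v ∈ S, f^[N] v = y₀ ∧ t < dist v (lift N v)) →
      (S.card : ℝ) ≤ C * Real.exp (δ' * N) / t ^ 2

end AbsTree

end Pool.Agent.Lib.MP_e4ee3e_an
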