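import Pool.Agent.Lib.MP_e4ee3e_an.D04
import Pool.Agent.Lib.MP_e4ee3e_an.Setup2

/-!
D04b. Measurable choice of good codes: the code constructed in D04 is moreover in codes δ A (same
proof; helper lemmas of D04 can be reused).
-/

open MeasureTheory Filter Topology

namespace Pool.Agent.Lib.MP_e4ee3e_an

attribute [local instance] chMetric

/-- The lexicographically smallest good code. -/
theorem AbsTree.d04b_on_pts {X : Type*} [MetricSpace X] [CompactSpace X] {f : X → X} {L : ℝ}
    {d : ℕ} [MeasurableSpace X] [BorelSpace X] (T : AbsTree X f L d)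
    (hd : 0 < d) {δ : ℝ} (hδ : 0 < δ) (A : ℝ) :
    ∃ s : X → ℕ → Fin d, Measurable s ∧
      ∀ x ∈ T.pts δ A, s x ∈ T.codes δ A ∧ Tendsto (fun n => T.z n (s x)) atTop (𝓝 x) := by
  classical
  have hch : ∀ (n : ℕ) (w : Fin n → Fin d), ∃ g : X → Fin d, Measurable g ∧
      ∀ x, (∃ i, x ∈ d04_Q T δ A (n + 1) (Fin.snoc (α := fun _ => Fin d) w i)) →
        x ∈ d04_Q T δ A (n + 1) (Fin.snoc (α := fun _ => Fin d) w (g x)) := fun n w =>
    d04_choice hd _ (fun i => d04_Q_meas T hδ A _ _)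
  choose g hgm hg using hch
  let s : X → ℕ → Fin d := fun x n => d04_psi g x (n + 1) (Fin.last n)
  refine ⟨s, ?_, ?_⟩
  · refine measurable_pi_iff.2 fun n => ?_
    exact (measurable_pi_apply (Fin.last n)).comp (d04_psi_meas g hgm (n + 1))
  · intro x hx
    have hmem : ∀ n, x ∈ d04_Q T δ A n (d04_psi g x n) := by
      intro n
      induction n with
      | zero =>
        obtain ⟨α, hα, ht⟩ := hx
        exact ⟨α, ⟨hα, fun j => j.elim0⟩, ht⟩
      | succ n ih =>
        obtain ⟨α, ⟨hα, hw⟩, ht⟩ := ih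
        have : x ∈ d04_Q T δ A (n + 1)
            (Fin.snoc (α := fun _ => Fin d) (d04_psi g x n) (g n (d04_psi g x n) x)) := by
          apply hg n (d04_psi g x n) x
          refine ⟨α n, α, ⟨hα, ?_⟩, ht⟩
          intro j
          refine Fin.lastCases ?_ (fun j => ?_) j
          · simp only [Fin.snoc_last, Fin.val_last]
          · simp only [Fin.snoc_castSucc, Fin.val_castSucc]
            exact hw j
        exact this
    have hs : ∀ n (j : ℕ) (hj : j < n), d04_psi g x n ⟨j, hj⟩ = s x j := by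
      intro n j hj
      exact d04_psi_agree g x (j + 1) n hj j (Nat.lt_succ_self j) hj
    have happ : ∀ n : ℕ, ∃ α ∈ T.codes δ A, (∀ i ≤ n, α i = s x i) ∧
        Tendsto (fun k => T.z k α) atTop (𝓝 x) := by
      intro n
      obtain ⟨α, ⟨hα, hw⟩, ht⟩ := hmem (n + 1)
      refine ⟨α, hα, ?_, ht⟩
      intro i hi
      have h1 := hw ⟨i, Nat.lt_succ_of_le hi⟩
      rw [hs] at h1
      exact h1
    choose a ha hag hat using happ
    refine ⟨fun k => ?_, ?_⟩
    · rw [← T.D_congr k (a k) (s x) (hag k)]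
      exact ha k k
    have hbound : ∀ n : ℕ, dist (T.z n (s x)) x ≤
        A * Real.exp (-(δ * (n + 1))) / (1 - Real.exp (-δ)) := by
      intro n
      rw [T.z_congr n (s x) (a n) (fun i hi => (hag n i hi).symm)]
      exact T.codes_dist_le hδ (ha n) (hat n) n
    refine tendsto_iff_dist_tendsto_zero.2 ?_
    refine squeeze_zero (fun n => dist_nonneg) hbound ?_
    have h1 : Tendsto (fun n : ℕ => -(δ * ((n : ℝ) + 1))) atTop atBot := by
      have : Tendsto (fun n : ℕ => δ * ((n : ℝ) + 1)) atTop atTop :=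
        (tendsto_natCast_atTop_atTop.atTop_add tendsto_const_nhds).const_mul_atTop hδ
      exact tendsto_neg_atTop_atBot.comp this
    have h2 := (Real.tendsto_exp_atBot.comp h1).const_mul A
    have h3 := h2.div_const (1 - Real.exp (-δ))
    simpa using h3

/-- Measurable choice of good codes (stronger form of D04). -/
theorem AbsTree.exists_good_code_ae {X : Type*} [MetricSpace X] [CompactSpace X]
    [MeasurableSpace X] [BorelSpace X] {f : X → X} {L : ℝ} {d : ℕ} (T : AbsTree X f L d)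
    (hd : 0 < d) {δ : ℝ} (hδ : 0 < δ) (m : Measure X) (hm : m (T.ptsAll δ)ᶜ = 0) :
    ∃ s : X → ℕ → Fin d, Measurable s ∧
      ∀ᵐ x ∂m, (s x ∈ ⋃ A : ℕ, T.codes δ (A : ℝ)) ∧
        Tendsto (fun n => T.z n (s x)) atTop (𝓝 x) := by
  classical
  have hch := fun A : ℕ => T.d04b_on_pts hd hδ (A : ℝ)
  choose s hsm hs using hch
  let p : ℕ → X → Prop := fun A x => x ∈ T.pts δ (A : ℝ) ∨ x ∉ T.ptsAll δ
  have hp : ∀ x, ∃ A, p A x := by
    intro x
    by_cases hx : x ∈ T.ptsAll δ
    · obtain ⟨A, hA⟩ := Set.mem_iUnion.1 hx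
      exact ⟨A, Or.inl hA⟩
    · exact ⟨0, Or.inr hx⟩
  have hpm : ∀ A, MeasurableSet {x | p A x} := by
    intro A
    have : {x | p A x} = T.pts δ (A : ℝ) ∪ (T.ptsAll δ)ᶜ := by
      ext x
      rfl
    rw [this]
    exact (T.isCompact_pts hδ _).isClosed.measurableSet.union (T.measurableSet_ptsAll hδ).compl
  refine ⟨fun x => s (Nat.find (hp x)) x, Measurable.find hsm hpm hp, ?_⟩
  have hae : ∀ᵐ x ∂m, x ∈ T.ptsAll δ := hm
  filter_upwards [hae] with x hx
  have hspec := Nat.find_spec (hp x)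
  rcases hspec with h | h
  · exact ⟨Set.mem_iUnion.2 ⟨Nat.find (hp x), (hs _ x h).1⟩, (hs _ x h).2⟩
  · exact absurd hx h

end Pool.Agent.Lib.MP_e4ee3e_an
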