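import Pool.Agent.Lib.MP_e4ee3e_an.D01

/-!
D05. A point outside ptsAll is in nobad δ k₀ (1/(N+1)) N for some N. Otherwise for every N there
are n >= N and α_N with dist x (z n α_N) < 1/(N+1) and D l α_N <= exp(-δ l) for k₀ <= l <= n.
Compactness of sequences: subsequence α_N -> α (eventually equal up to any level), so
D l α <= exp(-δ l) for all l >= k₀, hence α in codes δ A with A natural >= 1, B exp(δ k₀); and
dist (z k α_N) (z n α_N) <= sum over l > k of exp(-δ l) for k >= k₀, so z k α -> x.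
-/

open MeasureTheory Filter Topology

namespace Pool.Agent.Lib.MP_e4ee3e_an

attribute [local instance] chMetric

variable {X : Type*} [MetricSpace X] [CompactSpace X] {f : X → X} {L : ℝ} {d : ℕ}

/-- tail of the geometric series -/
noncomputable def d05_tail (δ : ℝ) (k : ℕ) : ℝ :=
  Real.exp (-(δ * ((k : ℝ) + 1))) / (1 - Real.exp (-δ))

lemma d05_tail_pos {δ : ℝ} (hδ : 0 < δ) (k : ℕ) : 0 < d05_tail δ k := by
  have h1 : Real.exp (-δ) < 1 := by
    rw [Real.exp_lt_one_iff]; linarith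
  unfold d05_tail
  have : 0 < 1 - Real.exp (-δ) := by linarith
  positivity

lemma d05_tail_succ {δ : ℝ} (hδ : 0 < δ) (k : ℕ) :
    d05_tail δ k - d05_tail δ (k + 1) = Real.exp (-(δ * ((k : ℝ) + 1))) := by
  have h1 : Real.exp (-δ) < 1 := by
    rw [Real.exp_lt_one_iff]; linarith
  have h2 : 1 - Real.exp (-δ) ≠ 0 := by linarith
  have h3 : Real.exp (-(δ * (((k + 1 : ℕ) : ℝ) + 1))) =
      Real.exp (-(δ * ((k : ℝ) + 1))) * Real.exp (-δ) := by
    rw [← Real.exp_add]
    congr 1
    push_cast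
    ring
  unfold d05_tail
  rw [h3, ← sub_div, div_eq_iff h2]
  ring

lemma d05_tail_tendsto {δ : ℝ} (hδ : 0 < δ) : Tendsto (d05_tail δ) atTop (𝓝 0) := by
  have h1 : Tendsto (fun k : ℕ => Real.exp (-(δ * ((k : ℝ) + 1)))) atTop (𝓝 0) := by
    rw [Real.tendsto_exp_comp_nhds_zero]
    apply tendsto_neg_atTop_atBot.comp
    apply Tendsto.const_mul_atTop hδ
    exact tendsto_atTop_add_const_right _ _ tendsto_natCast_atTop_atTop
  have h2 := h1.div_const (1 - Real.exp (-δ))
  rw [zero_div] at h2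
  exact h2

lemma AbsTree.d05_dist (T : AbsTree X f L d) {δ : ℝ} (hδ : 0 < δ) {α : ℕ → Fin d} {k m : ℕ}
    (hkm : k ≤ m) (h : ∀ l, k < l → l ≤ m → T.D l α ≤ Real.exp (-(δ * l))) :
    dist (T.z k α) (T.z m α) ≤ d05_tail δ k - d05_tail δ m := by
  induction m, hkm using Nat.le_induction with
  | base => simp
  | succ m hkm ih =>
    have h1 := ih fun l hl hl' => h l hl (by omega)
    have h2 := T.dist_z m α
    have h3 := h (m + 1) (by omega) le_rfl
    have h4 := d05_tail_succ hδ m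
    have h5 := dist_triangle (T.z k α) (T.z m α) (T.z (m + 1) α)
    push_cast at h3
    linarith

theorem AbsTree.exists_nobad (T : AbsTree X f L d) {δ : ℝ} (hδ : 0 < δ) (k₀ : ℕ) {x : X}
    (hx : x ∉ T.ptsAll δ) : ∃ N : ℕ, x ∈ T.nobad δ k₀ (1 / ((N : ℝ) + 1)) N := by
  by_contra hcon
  apply hx
  have hcon' : ∀ N : ℕ, ∃ n, N ≤ n ∧ ∃ α : ℕ → Fin d, dist x (T.z n α) < 1 / ((N : ℝ) + 1) ∧
      ∀ l, k₀ ≤ l → l ≤ n → T.D l α ≤ Real.exp (-(δ * l)) := by
    intro N
    by_contra h
    apply hcon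
    refine ⟨N, ?_⟩
    intro n hn α hα
    by_contra h'
    apply h
    refine ⟨n, hn, α, hα, fun l hl hl' => ?_⟩
    by_contra h''
    exact h' ⟨l, hl, hl', not_le.1 h''⟩
  choose n hn α hα hbad using hcon'
  obtain ⟨β, φ, hφ, hlim⟩ := CompactSpace.tendsto_subseq α
  have hcoord : ∀ i, ∀ᶠ j in atTop, α (φ j) i = β i := by
    intro i
    have h1 := tendsto_pi_nhds.1 hlim i
    rw [nhds_discrete, tendsto_pure] at h1
    exact h1
  have hagree : ∀ k, ∀ᶠ j in atTop, ∀ i ≤ k, α (φ j) i = β i := by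
    intro k
    have := (Set.finite_Iic k).eventually_all (l := atTop) (p := fun i j => α (φ j) i = β i)
    exact this.2 fun i _ => hcoord i
  have hlarge : ∀ k, ∀ᶠ j in atTop, k ≤ n (φ j) := by
    intro k
    filter_upwards [eventually_ge_atTop k] with j hj
    exact hj.trans ((hφ.id_le j).trans (hn _))
  have hD : ∀ l, k₀ ≤ l → T.D l β ≤ Real.exp (-(δ * l)) := by
    intro l hl
    obtain ⟨j, h1, h2⟩ := ((hagree l).and (hlarge l)).exists
    rw [← T.D_congr l _ _ h1]
    exact hbad _ l hl h2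
  obtain ⟨B, hB⟩ := T.D_le
  have hB0 : 0 ≤ B := (T.D_nonneg 0 β).trans (hB 0 β)
  -- the constant
  let A : ℕ := ⌈max 1 (B * Real.exp (δ * k₀))⌉₊
  have hA : max 1 (B * Real.exp (δ * k₀)) ≤ (A : ℝ) := Nat.le_ceil _
  have hA1 : (1 : ℝ) ≤ A := (le_max_left _ _).trans hA
  have hA2 : B * Real.exp (δ * k₀) ≤ A := (le_max_right _ _).trans hA
  have hcodes : β ∈ T.codes δ (A : ℝ) := by
    intro k
    by_cases hk : k₀ ≤ k
    · refine (hD k hk).trans ?_
      exact le_mul_of_one_le_left (Real.exp_pos _).le hA1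
    · push Not at hk
      refine (hB k β).trans ?_
      have h1 : B * Real.exp (δ * k₀) * Real.exp (-(δ * k)) ≤ A * Real.exp (-(δ * k)) :=
        mul_le_mul_of_nonneg_right hA2 (Real.exp_pos _).le
      refine le_trans ?_ h1
      rw [mul_assoc, ← Real.exp_add]
      apply le_mul_of_one_le_right hB0
      apply Real.one_le_exp
      have : (k : ℝ) ≤ k₀ := by exact_mod_cast hk.le
      nlinarith
  have hdist : ∀ k, k₀ ≤ k → dist (T.z k β) x ≤ d05_tail δ k := by
    intro k hk
    have h1 : ∀ᶠ j : ℕ in atTop, dist (T.z k β) x ≤ d05_tail δ k + 1 / ((φ j : ℝ) + 1) := by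
      filter_upwards [hagree k, hlarge k] with j h1 h2
      rw [← T.z_congr k _ _ h1]
      have h3 := T.d05_dist hδ h2 fun l hl hl' => hbad (φ j) l (by omega) hl'
      have h4 := hα (φ j)
      have h5 := dist_triangle (T.z k (α (φ j))) (T.z (n (φ j)) (α (φ j))) x
      have h6 := d05_tail_pos hδ (n (φ j))
      rw [dist_comm x] at h4
      linarith
    have h2 : Tendsto (fun j : ℕ => d05_tail δ k + 1 / ((φ j : ℝ) + 1)) atTop
        (𝓝 (d05_tail δ k + 0)) := by
      apply Tendsto.const_add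
      exact tendsto_one_div_add_atTop_nhds_zero_nat.comp hφ.tendsto_atTop
    rw [add_zero] at h2
    exact ge_of_tendsto h2 h1
  have htend : Tendsto (fun k => T.z k β) atTop (𝓝 x) := by
    rw [tendsto_iff_dist_tendsto_zero]
    refine tendsto_of_tendsto_of_tendsto_of_le_of_le' tendsto_const_nhds (d05_tail_tendsto hδ)
      (Eventually.of_forall fun k => dist_nonneg) ?_
    filter_upwards [eventually_ge_atTop k₀] with k hk using hdist k hk
  exact Set.mem_iUnion.2 ⟨A, β, hcodes, htend⟩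

end Pool.Agent.Lib.MP_e4ee3e_an
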