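import Pool.Agent.Lib.MP_e4ee3e_an.D05

/-!
D06. nobad sets are closed, monotone in N, so if ptsAll is null their complements have measure
tending to 0.
-/

open MeasureTheory Filter Topology

namespace Pool.Agent.Lib.MP_e4ee3e_an

attribute [local instance] chMetric

variable {X : Type*} [MetricSpace X] [CompactSpace X] {f : X → X} {L : ℝ} {d : ℕ}

theorem AbsTree.isClosed_nobad (T : AbsTree X f L d) (δ : ℝ) (k₀ : ℕ) (ε₀ : ℝ) (N₀ : ℕ) :
    IsClosed (T.nobad δ k₀ ε₀ N₀) := by
  have h : T.nobad δ k₀ ε₀ N₀ = ⋂ (n : ℕ) (_ : N₀ ≤ n) (α : ℕ → Fin d)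
      (_ : ¬ ∃ l, k₀ ≤ l ∧ l ≤ n ∧ Real.exp (-(δ * l)) < T.D l α),
      {x | ε₀ ≤ dist x (T.z n α)} := by
    ext x
    simp only [AbsTree.nobad, Set.mem_iInter, Set.mem_ofPred_eq]
    constructor
    · intro h n hn α hα
      by_contra hcon
      exact hα (h n hn α (not_le.1 hcon))
    · intro h n hn α hx
      by_contra hcon
      exact absurd hx (not_lt.2 (h n hn α hcon))
  rw [h]
  exact isClosed_iInter fun n => isClosed_iInter fun _ => isClosed_iInter fun α =>
    isClosed_iInter fun _ => isClosed_le continuous_const (continuous_id.dist continuous_const)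

theorem AbsTree.nobad_measure [MeasurableSpace X] [BorelSpace X] (T : AbsTree X f L d) {δ : ℝ}
    (hδ : 0 < δ) (k₀ : ℕ) (m : Measure X) [IsProbabilityMeasure m] (hm : m (T.ptsAll δ) = 0)
    (p : ℝ) (hp : 0 < p) :
    ∀ᶠ N : ℕ in atTop, m (T.nobad δ k₀ (1 / ((N : ℝ) + 1)) N)ᶜ ≤ ENNReal.ofReal p := by
  let S : ℕ → Set X := fun N => (T.nobad δ k₀ (1 / ((N : ℝ) + 1)) N)ᶜ
  have hanti : Antitone S := by
    intro M N hMN x hx hx'
    apply hx
    intro n hn α hα
    apply hx' n (hMN.trans hn) α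
    refine hα.trans_le ?_
    apply one_div_le_one_div_of_le (by positivity)
    have : (M : ℝ) ≤ N := by exact_mod_cast hMN
    linarith
  have hmeas : ∀ N, MeasurableSet (S N) := fun N => (T.isClosed_nobad _ _ _ _).measurableSet.compl
  have hlim : Tendsto (m ∘ S) atTop (𝓝 (m (⋂ N, S N))) :=
    tendsto_measure_iInter_atTop (fun N => (hmeas N).nullMeasurableSet) hanti
      ⟨0, measure_ne_top m _⟩
  have hzero : m (⋂ N, S N) = 0 := by
    refine measure_mono_null ?_ hm
    intro x hx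
    by_contra hcon
    obtain ⟨N, hN⟩ := T.exists_nobad hδ k₀ hcon
    exact Set.mem_iInter.1 hx N hN
  rw [hzero] at hlim
  have hpos : (0 : ENNReal) < ENNReal.ofReal p := ENNReal.ofReal_pos.2 hp
  filter_upwards [(tendsto_order.1 hlim).2 _ hpos] with N hN using hN.le

end Pool.Agent.Lib.MP_e4ee3e_an
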