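import Pool.Agent.Lib.MP_e4ee3e_an.Setup

/-!
E03. Counting itineraries of points with few bad times. Names are lists. For x write
name L x = (List.range L).map (fun t => ξ (f^[t] x)). Recursion on L: bad times of x: t < L with
f^[t] x not in G or not in E (badCount of G ∩ E). If L < n₁ + n₂ + 1 trivial bound K^L. Otherwise, if x not in G: name
L x = ξ x :: name (L-1) (f x), and f x has one bad time less. If x in G, with block length ℓ
(n₁ or n₂) and centre c: name L x = name ℓ x ++ name (L-ℓ) (f^[ℓ] x), and name ℓ x is determined by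
c, the set of bad times in the block and the letters there (if f^[t] x in E then ξ (f^[t] x) is the
ξ-value of any point of E within ε of f^[t] c). With b₁ bad times in the block there are at most
card F_ℓ * choose ℓ b₁ * K^b₁ names. Induction hypothesis: number(L', b') <= M exp(β L' + s b'),
M = K^(n₁+n₂+1); the sum over b₁ is (1 + K exp(-s))^ℓ. Condition: β, s with
K exp(-β-s) + sum over the two ℓ of exp((θ-β)ℓ) (1+K exp(-s))^ℓ <= 1. It holds for
β = 3θ/2, K exp(-s) <= min(θ/4, 1/2), n₁, n₂ >= n₀(θ) with 2 exp(-θ n₀/4) <= 1/2.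
-/

open MeasureTheory Filter Topology

namespace Pool.Agent.Lib.MP_e4ee3e_an

attribute [local instance] chMetric

section E03

open Classical in
theorem e03_bad_eq {X : Type*} (f : X → X) (S : Set X) (n : ℕ) (x : X) :
    badCount f S n x = ∑ t ∈ Finset.range n, (if f^[t] x ∈ S then 0 else 1) := by
  unfold badCount
  have h : {t : ℕ | t < n ∧ f^[t] x ∉ S} =
      ((Finset.range n).filter (fun t => ¬ f^[t] x ∈ S) : Finset ℕ) := by
    ext t
    simp
  rw [h, Set.ncard_coe_finset, Finset.card_filter]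
  apply Finset.sum_congr rfl
  intro t _
  by_cases h : f^[t] x ∈ S <;> simp [h]

theorem e03_bad_add {X : Type*} (f : X → X) (S : Set X) (n m : ℕ) (x : X) :
    badCount f S (n + m) x = badCount f S n x + badCount f S m (f^[n] x) := by
  rw [e03_bad_eq, e03_bad_eq, e03_bad_eq, Finset.sum_range_add]
  congr 1
  apply Finset.sum_congr rfl
  intro t _
  rw [add_comm n t, Function.iterate_add_apply]

/-- itinerary as a list -/
def e03Name {X : Type*} {K : ℕ} (f : X → X) (ξ : X → Fin K) (L : ℕ) (x : X) : List (Fin K) :=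
  (List.range L).map (fun t => ξ (f^[t] x))

theorem e03Name_length {X : Type*} {K : ℕ} (f : X → X) (ξ : X → Fin K) (L : ℕ) (x : X) :
    (e03Name f ξ L x).length = L := by simp [e03Name]

theorem e03Name_add {X : Type*} {K : ℕ} (f : X → X) (ξ : X → Fin K) (n m : ℕ) (x : X) :
    e03Name f ξ (n + m) x = e03Name f ξ n x ++ e03Name f ξ m (f^[n] x) := by
  unfold e03Name
  rw [List.range_add, List.map_append, List.map_map]
  congr 1
  apply List.map_congr_left
  intro t _
  simp only [Function.comp]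
  rw [add_comm n t, Function.iterate_add_apply]

/-- the set of itineraries -/
def e03Set {X : Type*} {K : ℕ} (f : X → X) (ξ : X → Fin K) (S : Set X) (L b : ℕ) :
    Set (List (Fin K)) :=
  {l | ∃ x : X, badCount f S L x ≤ b ∧ l = e03Name f ξ L x}

theorem e03Set_finite {X : Type*} {K : ℕ} (f : X → X) (ξ : X → Fin K) (S : Set X) (L b : ℕ) :
    (e03Set f ξ S L b).Finite := by
  apply (List.finite_length_eq (Fin K) L).subset
  rintro l ⟨x, -, rfl⟩
  exact e03Name_length f ξ L x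

/-- the finset of itineraries -/
noncomputable def e03Fin {X : Type*} {K : ℕ} (f : X → X) (ξ : X → Fin K) (S : Set X) (L b : ℕ) :
    Finset (List (Fin K)) := (e03Set_finite f ξ S L b).toFinset

theorem e03_mem {X : Type*} {K : ℕ} (f : X → X) (ξ : X → Fin K) (S : Set X) (L b : ℕ)
    (l : List (Fin K)) :
    l ∈ e03Fin f ξ S L b ↔ ∃ x : X, badCount f S L x ≤ b ∧ l = e03Name f ξ L x := by
  simp [e03Fin, e03Set]

theorem e03_card_trivial {X : Type*} {K : ℕ} (f : X → X) (ξ : X → Fin K) (S : Set X)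
    (L b : ℕ) : (e03Fin f ξ S L b).card ≤ K ^ L := by
  have h : e03Fin f ξ S L b ⊆
      (Finset.univ : Finset (Fin L → Fin K)).image List.ofFn := by
    intro l hl
    rw [e03_mem] at hl
    obtain ⟨x, -, rfl⟩ := hl
    rw [Finset.mem_image]
    refine ⟨fun i => ξ (f^[i] x), Finset.mem_univ _, ?_⟩
    apply List.ext_getElem
    · simp [e03Name]
    · intro i h1 h2
      simp [e03Name]
  refine (Finset.card_le_card h).trans (Finset.card_image_le.trans ?_)
  simp

theorem e03_ncard_le {X : Type*} {K : ℕ} (f : X → X) (ξ : X → Fin K) (S : Set X) (L b : ℕ) :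
    {w : Fin L → Fin K | ∃ x : X, badCount f S L x ≤ b ∧
          ∀ i : Fin L, ξ (f^[i] x) = w i}.ncard ≤ (e03Fin f ξ S L b).card := by
  have h : (e03Fin f ξ S L b).card = (e03Set f ξ S L b).ncard := by
    unfold e03Fin
    rw [Set.ncard_eq_toFinset_card _ (e03Set_finite f ξ S L b)]
  rw [h]
  apply Set.ncard_le_ncard_of_injOn (fun w => List.ofFn w) _ _ (e03Set_finite f ξ S L b)
  · rintro w ⟨x, hx, hw⟩
    refine ⟨x, hx, ?_⟩
    apply List.ext_getElem
    · simp [e03Name]
    · intro i h1 h2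
      simp only [List.length_ofFn] at h1
      simp [e03Name, ← hw ⟨i, h1⟩]
  · intro w _ w' _ h
    exact List.ofFn_injective h

/-- cost of a pattern -/
def e03Cost {K n : ℕ} (u : Fin n → Option (Fin K)) : ℕ := ∑ i, (if (u i).isSome then 1 else 0)

theorem e03_sum {K n : ℕ} (s : ℝ) :
    ∑ u : Fin n → Option (Fin K), Real.exp (-(s * e03Cost u)) =
      (1 + K * Real.exp (-s)) ^ n := by
  have h1 : (1 + K * Real.exp (-s)) =
      ∑ a : Option (Fin K), (if a.isSome then Real.exp (-s) else 1) := by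
    rw [Fintype.sum_option]
    simp
  rw [h1, Fintype.sum_pow]
  apply Finset.sum_congr rfl
  intro u _
  unfold e03Cost
  push_cast
  rw [Finset.mul_sum, ← Finset.sum_neg_distrib, Real.exp_sum]
  apply Finset.prod_congr rfl
  intro i _
  by_cases h : (u i).isSome <;> simp [h]

open Classical in
/-- decoding of a block -/
noncomputable def e03Dec {X : Type*} [MetricSpace X] {K : ℕ} (hK : 1 ≤ K) (f : X → X)
    (ξ : X → Fin K) (E : Set X) (ε : ℝ) (n : ℕ) (c : X) (u : Fin n → Option (Fin K)) :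
    List (Fin K) :=
  List.ofFn (fun t : Fin n => (u t).getD
    (if h : ∃ y ∈ E, dist y (f^[t] c) ≤ ε then ξ h.choose else ⟨0, hK⟩))

open Classical in
/-- pattern of a block -/
noncomputable def e03Pat {X : Type*} {K : ℕ} (f : X → X) (ξ : X → Fin K) (S : Set X) (n : ℕ)
    (x : X) : Fin n → Option (Fin K) :=
  fun t => if f^[t] x ∈ S then none else some (ξ (f^[t] x))

theorem e03_cost_pat {X : Type*} {K : ℕ} (f : X → X) (ξ : X → Fin K) (S : Set X) (n : ℕ)
    (x : X) : e03Cost (e03Pat f ξ S n x) = badCount f S n x := by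
  rw [e03_bad_eq, e03Cost, Finset.sum_range]
  apply Finset.sum_congr rfl
  intro t _
  unfold e03Pat
  by_cases h : f^[(t : ℕ)] x ∈ S <;> simp [h]

theorem e03_dec_pat {X : Type*} [MetricSpace X] {K : ℕ} (hK : 1 ≤ K) (f : X → X)
    (ξ : X → Fin K) (E G : Set X) (ε : ℝ)
    (hE : ∀ x ∈ E, ∀ y ∈ E, dist x y ≤ 2 * ε → ξ x = ξ y) (n : ℕ) (c x : X)
    (hc : ∀ k < n, dist (f^[k] x) (f^[k] c) ≤ ε) :
    e03Dec hK f ξ E ε n c (e03Pat f ξ (G ∩ E) n x) = e03Name f ξ n x := by
  unfold e03Dec e03Name e03Pat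
  apply List.ext_getElem
  · simp
  · intro t h1 h2
    have ht : t < n := by simpa using h1
    simp only [List.getElem_ofFn, List.getElem_map, List.getElem_range]
    by_cases h : f^[t] x ∈ G ∩ E
    · rw [if_pos h]
      have hex : ∃ y ∈ E, dist y (f^[t] c) ≤ ε := ⟨f^[t] x, h.2, hc t ht⟩
      rw [dif_pos hex, Option.getD_none]
      apply hE _ hex.choose_spec.1 _ h.2
      calc dist hex.choose (f^[t] x) ≤ dist hex.choose (f^[t] c) + dist (f^[t] c) (f^[t] x) :=
            dist_triangle _ _ _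
        _ ≤ ε + ε := add_le_add hex.choose_spec.2 (by rw [dist_comm]; exact hc t ht)
        _ = 2 * ε := by ring
    · rw [if_neg h]
      rfl

/-- the words of type block -/
noncomputable def e03Blk {X : Type*} [MetricSpace X] {K : ℕ} (hK : 1 ≤ K) (f : X → X)
    (ξ : X → Fin K) (E S : Set X) (ε : ℝ) (n L' b : ℕ) (F : Finset X) :
    Finset (List (Fin K)) :=
  F.biUnion fun c => (Finset.univ.filter (fun u : Fin n → Option (Fin K) => e03Cost u ≤ b)).biUnion
    fun u => (e03Fin f ξ S L' (b - e03Cost u)).image (fun l => e03Dec hK f ξ E ε n c u ++ l)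

theorem e03_blk_mem {X : Type*} [MetricSpace X] {K : ℕ} (hK : 1 ≤ K) (f : X → X)
    (ξ : X → Fin K) (E G : Set X) (ε : ℝ)
    (hE : ∀ x ∈ E, ∀ y ∈ E, dist x y ≤ 2 * ε → ξ x = ξ y) (n L' b : ℕ) (F : Finset X)
    (c x : X) (hcF : c ∈ F) (hc : ∀ k < n, dist (f^[k] x) (f^[k] c) ≤ ε)
    (hb : badCount f (G ∩ E) (n + L') x ≤ b) :
    e03Name f ξ (n + L') x ∈ e03Blk hK f ξ E (G ∩ E) ε n L' b F := by
  unfold e03Blk
  rw [Finset.mem_biUnion]
  refine ⟨c, hcF, ?_⟩
  rw [Finset.mem_biUnion]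
  rw [e03_bad_add] at hb
  refine ⟨e03Pat f ξ (G ∩ E) n x, ?_, ?_⟩
  · rw [Finset.mem_filter]
    refine ⟨Finset.mem_univ _, ?_⟩
    rw [e03_cost_pat]
    omega
  · rw [Finset.mem_image]
    refine ⟨e03Name f ξ L' (f^[n] x), ?_, ?_⟩
    · rw [e03_mem]
      refine ⟨f^[n] x, ?_, rfl⟩
      rw [e03_cost_pat]
      omega
    · rw [e03_dec_pat hK f ξ E G ε hE n c x hc, ← e03Name_add]

theorem e03_blk_card {X : Type*} [MetricSpace X] {K : ℕ} (hK : 1 ≤ K) (f : X → X)
    (ξ : X → Fin K) (E S : Set X) (ε : ℝ) (n L' b : ℕ) (F : Finset X) (M β s θ : ℝ)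
    (hM : 0 ≤ M) (hF : (F.card : ℝ) ≤ Real.exp (θ * n))
    (ih : ∀ b', ((e03Fin f ξ S L' b').card : ℝ) ≤ M * Real.exp (β * L' + s * b')) :
    ((e03Blk hK f ξ E S ε n L' b F).card : ℝ) ≤
      M * Real.exp (β * (n + L' : ℕ) + s * b) *
        (Real.exp ((θ - β) * n) * (1 + K * Real.exp (-s)) ^ n) := by
  have h1 : (e03Blk hK f ξ E S ε n L' b F).card ≤ ∑ c ∈ F,
      ∑ u ∈ Finset.univ.filter (fun u : Fin n → Option (Fin K) => e03Cost u ≤ b),
        (e03Fin f ξ S L' (b - e03Cost u)).card := by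
    unfold e03Blk
    refine Finset.card_biUnion_le.trans (Finset.sum_le_sum fun c _ => ?_)
    exact Finset.card_biUnion_le.trans (Finset.sum_le_sum fun u _ => Finset.card_image_le)
  have h2 : ((e03Blk hK f ξ E S ε n L' b F).card : ℝ) ≤ ∑ c ∈ F,
      ∑ u ∈ Finset.univ.filter (fun u : Fin n → Option (Fin K) => e03Cost u ≤ b),
        ((e03Fin f ξ S L' (b - e03Cost u)).card : ℝ) := by exact_mod_cast h1
  have h3 : ∑ u ∈ Finset.univ.filter (fun u : Fin n → Option (Fin K) => e03Cost u ≤ b),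
        ((e03Fin f ξ S L' (b - e03Cost u)).card : ℝ) ≤
      M * Real.exp (β * L' + s * b) * (1 + K * Real.exp (-s)) ^ n := by
    calc ∑ u ∈ Finset.univ.filter (fun u : Fin n → Option (Fin K) => e03Cost u ≤ b),
        ((e03Fin f ξ S L' (b - e03Cost u)).card : ℝ)
        ≤ ∑ u ∈ Finset.univ.filter (fun u : Fin n → Option (Fin K) => e03Cost u ≤ b),
          M * Real.exp (β * L' + s * b) * Real.exp (-(s * e03Cost u)) := by
          apply Finset.sum_le_sum
          intro u hu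
          rw [Finset.mem_filter] at hu
          refine (ih _).trans (le_of_eq ?_)
          rw [Nat.cast_sub hu.2, mul_assoc, ← Real.exp_add]
          congr 2
          ring
      _ ≤ ∑ u : Fin n → Option (Fin K),
          M * Real.exp (β * L' + s * b) * Real.exp (-(s * e03Cost u)) := by
          apply Finset.sum_le_sum_of_subset_of_nonneg (Finset.subset_univ _)
          intro u _ _
          positivity
      _ = M * Real.exp (β * L' + s * b) * (1 + K * Real.exp (-s)) ^ n := by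
          rw [← Finset.mul_sum, e03_sum]
  have h4 : ∑ c ∈ F,
      ∑ u ∈ Finset.univ.filter (fun u : Fin n → Option (Fin K) => e03Cost u ≤ b),
        ((e03Fin f ξ S L' (b - e03Cost u)).card : ℝ) ≤
      (F.card : ℝ) * (M * Real.exp (β * L' + s * b) * (1 + K * Real.exp (-s)) ^ n) := by
    refine (Finset.sum_le_card_nsmul _ _ _ fun c _ => h3).trans (le_of_eq ?_)
    rw [nsmul_eq_mul]
  have h5 : 0 ≤ M * Real.exp (β * L' + s * b) * (1 + K * Real.exp (-s)) ^ n := by positivity
  refine h2.trans (h4.trans ((mul_le_mul_of_nonneg_right hF h5).trans (le_of_eq ?_)))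
  push_cast
  have e1 : Real.exp (β * (n + L') + s * b) = Real.exp (β * L' + s * b) * Real.exp (β * n) := by
    rw [← Real.exp_add]; congr 1; ring
  have e2 : Real.exp (θ * n) = Real.exp (β * n) * Real.exp ((θ - β) * n) := by
    rw [← Real.exp_add]; congr 1; ring
  rw [e1, e2]
  ring

theorem e03_factor {κ θ : ℝ} (hκ0 : 0 ≤ κ) (hκ : κ ≤ θ / 4) (n n₀ : ℕ) (hn : n₀ ≤ n)
    (hθ : 0 < θ) (h0 : Real.exp (-(θ / 4 * n₀)) ≤ 1 / 4) :
    Real.exp ((θ - 3 / 2 * θ) * n) * (1 + κ) ^ n ≤ 1 / 4 := by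
  have h1 : (1 + κ) ^ n ≤ Real.exp (θ / 4 * n) := by
    have h2 : 1 + κ ≤ Real.exp (θ / 4) := by
      have := Real.add_one_le_exp (θ / 4)
      linarith
    calc (1 + κ) ^ n ≤ (Real.exp (θ / 4)) ^ n := pow_le_pow_left₀ (by linarith) h2 n
      _ = Real.exp (θ / 4 * n) := by rw [← Real.exp_nat_mul]; congr 1; ring
  calc Real.exp ((θ - 3 / 2 * θ) * n) * (1 + κ) ^ n
      ≤ Real.exp ((θ - 3 / 2 * θ) * n) * Real.exp (θ / 4 * n) :=
        mul_le_mul_of_nonneg_left h1 (Real.exp_nonneg _)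
    _ = Real.exp (-(θ / 4 * n)) := by rw [← Real.exp_add]; congr 1; ring
    _ ≤ Real.exp (-(θ / 4 * n₀)) := by
        apply Real.exp_le_exp.mpr
        have : (n₀ : ℝ) ≤ n := by exact_mod_cast hn
        nlinarith
    _ ≤ 1 / 4 := h0

end E03

theorem name_count (K : ℕ) (hK : 1 ≤ K) (θ : ℝ) (hθ : 0 < θ) :
    ∃ (n₀ : ℕ) (s : ℝ), 0 < s ∧ ∀ {X : Type} [MetricSpace X] (f : X → X) (ξ : X → Fin K)
      (E G : Set X) (ε : ℝ) (n₁ n₂ : ℕ) (F₁ F₂ : Finset X),
      (∀ x ∈ E, ∀ y ∈ E, dist x y ≤ 2 * ε → ξ x = ξ y) → n₀ ≤ n₁ → n₀ ≤ n₂ →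
      (F₁.card : ℝ) ≤ Real.exp (θ * n₁) → (F₂.card : ℝ) ≤ Real.exp (θ * n₂) →
      (∀ x ∈ G, (∃ c ∈ F₁, ∀ k < n₁, dist (f^[k] x) (f^[k] c) ≤ ε) ∨
        (∃ c ∈ F₂, ∀ k < n₂, dist (f^[k] x) (f^[k] c) ≤ ε)) →
      ∃ M : ℕ, ∀ L b : ℕ,
        ({w : Fin L → Fin K | ∃ x : X, badCount f (G ∩ E) L x ≤ b ∧
          ∀ i : Fin L, ξ (f^[i] x) = w i}.ncard : ℝ) ≤
          M * Real.exp (3 / 2 * θ * L + s * b) := by
  -- the constants
  obtain ⟨n₁', hn₁'⟩ := exists_nat_gt (4 / θ * Real.log 4)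
  have hKpos : (0 : ℝ) < K := by exact_mod_cast hK
  set κ : ℝ := min (θ / 4) (1 / 2) with hκdef
  have hκ0 : 0 < κ := lt_min (by linarith) (by norm_num)
  set s : ℝ := Real.log (K / κ) with hs
  have hKκ : 1 < K / κ := by
    rw [lt_div_iff₀ hκ0]
    have h1 : κ ≤ 1 / 2 := min_le_right _ _
    have h2 : (1 : ℝ) ≤ K := by exact_mod_cast hK
    linarith
  have hs0 : 0 < s := Real.log_pos hKκ
  have hKs : (K : ℝ) * Real.exp (-s) = κ := by
    rw [hs, Real.exp_neg, Real.exp_log (by positivity)]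
    field_simp
  refine ⟨n₁' + 1, s, hs0, ?_⟩
  intro X _ f ξ E G ε n₁ n₂ F₁ F₂ hE hn₁ hn₂ hF₁ hF₂ hcov
  have h0 : Real.exp (-(θ / 4 * (n₁' + 1 : ℕ))) ≤ 1 / 4 := by
    have h1 : Real.log 4 ≤ θ / 4 * (n₁' + 1 : ℕ) := by
      have h2 : 4 / θ * Real.log 4 < (n₁' + 1 : ℕ) := by push_cast; linarith
      have h3 : θ / 4 * (4 / θ * Real.log 4) = Real.log 4 := by field_simp
      have h4 : θ / 4 * (4 / θ * Real.log 4) < θ / 4 * (n₁' + 1 : ℕ) :=
        mul_lt_mul_of_pos_left h2 (by linarith)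
      linarith
    calc Real.exp (-(θ / 4 * (n₁' + 1 : ℕ))) ≤ Real.exp (-Real.log 4) :=
          Real.exp_le_exp.mpr (by linarith)
      _ = 1 / 4 := by rw [Real.exp_neg, Real.exp_log (by norm_num)]; norm_num
  refine ⟨K ^ (n₁ + n₂ + 1), ?_⟩
  have main : ∀ L b : ℕ, ((e03Fin f ξ (G ∩ E) L b).card : ℝ) ≤
      (K ^ (n₁ + n₂ + 1) : ℕ) * Real.exp (3 / 2 * θ * L + s * b) := by
    intro L
    induction L using Nat.strong_induction_on with
    | _ L ih =>
    intro b
    have hM0 : (0 : ℝ) ≤ ((K ^ (n₁ + n₂ + 1) : ℕ) : ℝ) := Nat.cast_nonneg _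
    by_cases hL : L ≤ n₁ + n₂ + 1
    · have h1 : ((e03Fin f ξ (G ∩ E) L b).card : ℝ) ≤ ((K ^ (n₁ + n₂ + 1) : ℕ) : ℝ) := by
        exact_mod_cast (e03_card_trivial f ξ (G ∩ E) L b).trans (Nat.pow_le_pow_right hK hL)
      have h2 : 1 ≤ Real.exp (3 / 2 * θ * L + s * b) := by
        apply Real.one_le_exp
        positivity
      nlinarith
    · push Not at hL
      obtain ⟨L₁, hL₁⟩ : ∃ L₁, L = n₁ + L₁ := ⟨L - n₁, by omega⟩
      obtain ⟨L₂, hL₂⟩ : ∃ L₂, L = n₂ + L₂ := ⟨L - n₂, by omega⟩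
      obtain ⟨L₀, hL₀⟩ : ∃ L₀, L = 1 + L₀ := ⟨L - 1, by omega⟩
      -- the words starting outside of G
      set A₀ : Finset (List (Fin K)) := if b = 0 then ∅ else
        ((Finset.univ : Finset (Fin K)) ×ˢ e03Fin f ξ (G ∩ E) L₀ (b - 1)).image
          (fun p => p.1 :: p.2) with hA₀
      have hsub : e03Fin f ξ (G ∩ E) L b ⊆ A₀ ∪
          (e03Blk hK f ξ E (G ∩ E) ε n₁ L₁ b F₁ ∪ e03Blk hK f ξ E (G ∩ E) ε n₂ L₂ b F₂) := by
        intro l hl
        rw [e03_mem] at hl
        obtain ⟨x, hx, rfl⟩ := hl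
        rw [Finset.mem_union, Finset.mem_union]
        by_cases hxG : x ∈ G
        · right
          rcases hcov x hxG with ⟨c, hcF, hc⟩ | ⟨c, hcF, hc⟩
          · left
            rw [hL₁] at hx ⊢
            exact e03_blk_mem hK f ξ E G ε hE n₁ L₁ b F₁ c x hcF hc hx
          · right
            rw [hL₂] at hx ⊢
            exact e03_blk_mem hK f ξ E G ε hE n₂ L₂ b F₂ c x hcF hc hx
        · left
          rw [hL₀, e03_bad_add] at hx
          have h1 : badCount f (G ∩ E) 1 x = 1 := by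
            rw [e03_bad_eq]
            simp [hxG]
          rw [h1] at hx
          have hb : b ≠ 0 := by omega
          rw [hA₀, if_neg hb, Finset.mem_image]
          refine ⟨(ξ x, e03Name f ξ L₀ (f^[1] x)), ?_, ?_⟩
          · rw [Finset.mem_product]
            refine ⟨Finset.mem_univ _, ?_⟩
            rw [e03_mem]
            exact ⟨f^[1] x, by omega, rfl⟩
          · rw [hL₀, e03Name_add]
            simp [e03Name]
      have hc0 : (A₀.card : ℝ) ≤ (K ^ (n₁ + n₂ + 1) : ℕ) *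
          Real.exp (3 / 2 * θ * L + s * b) * (1 / 2) := by
        by_cases hb : b = 0
        · rw [hA₀, if_pos hb]
          simp only [Finset.card_empty, Nat.cast_zero]
          positivity
        · rw [hA₀, if_neg hb]
          have h1 : (((Finset.univ : Finset (Fin K)) ×ˢ e03Fin f ξ (G ∩ E) L₀ (b - 1)).image
              (fun p => p.1 :: p.2)).card ≤ K * (e03Fin f ξ (G ∩ E) L₀ (b - 1)).card := by
            refine Finset.card_image_le.trans ?_
            rw [Finset.card_product]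
            simp
          have h2 := ih L₀ (by omega) (b - 1)
          have h3 : ((((Finset.univ : Finset (Fin K)) ×ˢ e03Fin f ξ (G ∩ E) L₀ (b - 1)).image
              (fun p => p.1 :: p.2)).card : ℝ) ≤
              K * ((e03Fin f ξ (G ∩ E) L₀ (b - 1)).card : ℝ) := by exact_mod_cast h1
          have h4 : (K : ℝ) * ((e03Fin f ξ (G ∩ E) L₀ (b - 1)).card : ℝ) ≤
              K * ((K ^ (n₁ + n₂ + 1) : ℕ) * Real.exp (3 / 2 * θ * L₀ + s * (b - 1 : ℕ))) :=
            mul_le_mul_of_nonneg_left h2 hKpos.le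
          refine h3.trans (h4.trans ?_)
          have hb1 : ((b - 1 : ℕ) : ℝ) = b - 1 := by
            rw [Nat.cast_sub (by omega)]; simp
          have hL0' : (L : ℝ) = 1 + L₀ := by rw [hL₀]; push_cast; ring
          have e1 : Real.exp (3 / 2 * θ * L₀ + s * (b - 1 : ℕ)) =
              Real.exp (3 / 2 * θ * L + s * b) * (Real.exp (-(3 / 2 * θ)) * Real.exp (-s)) := by
            rw [← Real.exp_add, ← Real.exp_add, hb1, hL0']
            congr 1
            ring
          rw [e1]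
          have e2 : (K : ℝ) * (Real.exp (-(3 / 2 * θ)) * Real.exp (-s)) ≤ 1 / 2 := by
            have h5 : Real.exp (-(3 / 2 * θ)) ≤ 1 := by
              rw [Real.exp_le_one_iff]; linarith
            have h6 : (K : ℝ) * (Real.exp (-(3 / 2 * θ)) * Real.exp (-s)) =
                Real.exp (-(3 / 2 * θ)) * κ := by rw [← hKs]; ring
            rw [h6]
            have h7 : κ ≤ 1 / 2 := min_le_right _ _
            nlinarith
          have e3 : (K : ℝ) * ((K ^ (n₁ + n₂ + 1) : ℕ) *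
              (Real.exp (3 / 2 * θ * L + s * b) * (Real.exp (-(3 / 2 * θ)) * Real.exp (-s)))) =
              (K ^ (n₁ + n₂ + 1) : ℕ) * Real.exp (3 / 2 * θ * L + s * b) *
                (K * (Real.exp (-(3 / 2 * θ)) * Real.exp (-s))) := by ring
          rw [e3]
          exact mul_le_mul_of_nonneg_left e2 (by positivity)
      have hblk : ∀ (n L' : ℕ) (F : Finset X), L = n + L' → n₁' + 1 ≤ n →
          (F.card : ℝ) ≤ Real.exp (θ * n) →
          ((e03Blk hK f ξ E (G ∩ E) ε n L' b F).card : ℝ) ≤ (K ^ (n₁ + n₂ + 1) : ℕ) *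
            Real.exp (3 / 2 * θ * L + s * b) * (1 / 4) := by
        intro n L' F hLL hn hF
        have h1 := e03_blk_card hK f ξ E (G ∩ E) ε n L' b F (K ^ (n₁ + n₂ + 1) : ℕ) (3 / 2 * θ) s θ
          hM0 hF (fun b' => ih L' (by omega) b')
        rw [← hLL, hKs] at h1
        refine h1.trans ?_
        apply mul_le_mul_of_nonneg_left _ (by positivity)
        exact e03_factor hκ0.le (min_le_left _ _) n (n₁' + 1) hn hθ h0
      have hc1 := hblk n₁ L₁ F₁ hL₁ hn₁ hF₁
      have hc2 := hblk n₂ L₂ F₂ hL₂ hn₂ hF₂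
      have hcard : ((e03Fin f ξ (G ∩ E) L b).card : ℝ) ≤ A₀.card +
          ((e03Blk hK f ξ E (G ∩ E) ε n₁ L₁ b F₁).card +
            (e03Blk hK f ξ E (G ∩ E) ε n₂ L₂ b F₂).card) := by
        have h1 := (Finset.card_le_card hsub).trans ((Finset.card_union_le _ _).trans
          (Nat.add_le_add_left (Finset.card_union_le _ _) _))
        exact_mod_cast h1
      linarith
  intro L b
  refine le_trans ?_ (main L b)
  exact_mod_cast e03_ncard_le f ξ (G ∩ E) L b

end Pool.Agent.Lib.MP_e4ee3e_an
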