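import Pool.Agent.Lib.MP_e4ee3e_an.Setup

/-!
E04. Markov inequality for the number of bad times: the integral of badCount f S L is
sum over t < L of m (f^-t Sᶜ) = L m(Sᶜ). Measurability of badCount: finite sum of indicators.
-/

open MeasureTheory Filter Topology

namespace Pool.Agent.Lib.MP_e4ee3e_an

attribute [local instance] chMetric

open Classical in
theorem e04_eq_sum {X : Type*} (f : X → X) (S : Set X) (n : ℕ) (x : X) :
    badCount f S n x = ∑ t ∈ Finset.range n, if f^[t] x ∉ S then 1 else 0 := by
  unfold badCount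
  rw [← Finset.card_filter, ← Set.ncard_coe_finset]
  congr 1
  ext t
  simp

theorem badCount_measurable {X : Type*} [MeasurableSpace X] {f : X → X} (hf : Measurable f)
    {S : Set X} (hS : MeasurableSet S) (n : ℕ) : Measurable (fun x => badCount f S n x) := by
  classical
  simp only [e04_eq_sum]
  refine Finset.measurable_sum _ fun t _ => ?_
  refine Measurable.ite ?_ measurable_const measurable_const
  exact (hf.iterate t) hS.compl

theorem badCount_mono {X : Type*} {f : X → X} {S S' : Set X} (h : S ⊆ S') (n : ℕ) (x : X) :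
    badCount f S' n x ≤ badCount f S n x := by
  unfold badCount
  refine Set.ncard_le_ncard ?_ ?_
  · rintro t ⟨h1, h2⟩
    exact ⟨h1, fun h3 => h2 (h h3)⟩
  · exact (Set.finite_lt_nat n).subset fun t ht => ht.1

theorem badCount_markov {X : Type*} [MeasurableSpace X] {f : X → X} {m : Measure X}
    [IsProbabilityMeasure m] (hf : MeasurePreserving f m m) {S : Set X} (hS : MeasurableSet S)
    (n : ℕ) (q : ℝ) (hq : 0 < q) (p : ℝ) (hp : 0 ≤ p) (hm : m Sᶜ ≤ ENNReal.ofReal p) :
    m {x | q * n < (badCount f S n x : ℝ)} ≤ ENNReal.ofReal (p / q) := by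
  classical
  rcases Nat.eq_zero_or_pos n with rfl | hn
  · have : {x | q * ((0 : ℕ) : ℝ) < (badCount f S 0 x : ℝ)} = ∅ := by
      rw [Set.eq_empty_iff_forall_notMem]
      intro x hx
      have h0 : badCount f S 0 x = 0 := by rw [e04_eq_sum]; simp
      rw [Set.mem_ofPred_eq, h0] at hx
      simp at hx
    rw [this, measure_empty]
    exact zero_le
  have hn' : (0 : ℝ) < n := by exact_mod_cast hn
  have hint : ∫⁻ x, (badCount f S n x : ENNReal) ∂m = n * m Sᶜ := by
    have e1 : ∀ x, (badCount f S n x : ENNReal) =
        ∑ t ∈ Finset.range n, (f^[t] ⁻¹' Sᶜ).indicator (fun _ => (1 : ENNReal)) x := by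
      intro x
      rw [e04_eq_sum]
      push_cast
      refine Finset.sum_congr rfl fun t _ => ?_
      by_cases h : f^[t] x ∈ S
      · simp [h]
      · simp [h]
    simp only [e1]
    rw [lintegral_finsetSum _ fun t _ =>
      measurable_const.indicator ((hf.measurable.iterate t) hS.compl)]
    have e2 : ∀ t ∈ Finset.range n, ∫⁻ x, (f^[t] ⁻¹' Sᶜ).indicator (fun _ => (1 : ENNReal)) x ∂m =
        m Sᶜ := by
      intro t _
      rw [lintegral_indicator ((hf.measurable.iterate t) hS.compl), setLIntegral_const, one_mul]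
      exact (hf.iterate t).measure_preimage hS.compl.nullMeasurableSet
    rw [Finset.sum_congr rfl e2, Finset.sum_const, Finset.card_range, nsmul_eq_mul]
  have hmark := meas_ge_le_lintegral_div (μ := m) (f := fun x => (badCount f S n x : ENNReal))
    (by
      refine Measurable.aemeasurable ?_
      exact measurable_from_nat.comp (badCount_measurable hf.measurable hS n))
    (ε := ENNReal.ofReal (q * n)) (by simp only [ne_eq, ENNReal.ofReal_eq_zero, not_le]; positivity)
    ENNReal.ofReal_ne_top
  refine le_trans (measure_mono ?_) (hmark.trans ?_)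
  · intro x hx
    rw [Set.mem_ofPred_eq] at hx ⊢
    rw [← ENNReal.ofReal_natCast]
    exact ENNReal.ofReal_le_ofReal hx.le
  · rw [hint, ENNReal.ofReal_mul hq.le, ENNReal.ofReal_div_of_pos hq]
    calc (n : ENNReal) * m Sᶜ / (ENNReal.ofReal q * ENNReal.ofReal n)
        ≤ (n : ENNReal) * ENNReal.ofReal p / (ENNReal.ofReal q * ENNReal.ofReal n) := by
          gcongr
      _ = ENNReal.ofReal p / ENNReal.ofReal q := by
          rw [ENNReal.ofReal_natCast, mul_comm (ENNReal.ofReal q)]
          exact ENNReal.mul_div_mul_left _ _ (by exact_mod_cast hn.ne') (ENNReal.natCast_ne_top n)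
      _ ≤ _ := le_rfl

end Pool.Agent.Lib.MP_e4ee3e_an
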