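import Pool.Agent.Lib.MP_e4ee3e_an.E02
import Pool.Agent.Lib.MP_e4ee3e_an.E03
import Pool.Agent.Lib.MP_e4ee3e_an.E04

/-!
E05. Entropy covering lemma. Put s, n₀ from E03, q = θ/(2 s), p with 2 p/q log K <= θ/2. Replace the
complement of G ∩ E by a measurable hull B (toMeasurable), S = Bᶜ inside G ∩ E, m(B) <= 2p.
A = {badCount f S L <= q L}; E02 with N = floor of (M+1) exp(2 θ L);
total <= log(M+1) + (3/2) θ L + (θ/2) L + (θ/2) L + 2 <= 3 θ L for L large.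
-/

open MeasureTheory Filter Topology

namespace Pool.Agent.Lib.MP_e4ee3e_an

attribute [local instance] chMetric

theorem entropy_cover (K : ℕ) (hK : 1 ≤ K) (θ : ℝ) (hθ : 0 < θ) :
    ∃ (p : ℝ) (n₀ : ℕ), 0 < p ∧ ∀ {X : Type} [MetricSpace X] [MeasurableSpace X] [BorelSpace X]
      (f : X → X) (m : Measure X) [IsProbabilityMeasure m] (ξ : X → Fin K)
      (E G : Set X) (ε : ℝ) (n₁ n₂ : ℕ) (F₁ F₂ : Finset X), MeasurePreserving f m m →
      Measurable ξ →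
      (∀ x ∈ E, ∀ y ∈ E, dist x y ≤ 2 * ε → ξ x = ξ y) → n₀ ≤ n₁ → n₀ ≤ n₂ →
      (F₁.card : ℝ) ≤ Real.exp (θ * n₁) → (F₂.card : ℝ) ≤ Real.exp (θ * n₂) →
      (∀ x ∈ G, (∃ c ∈ F₁, ∀ k < n₁, dist (f^[k] x) (f^[k] c) ≤ ε) ∨
        (∃ c ∈ F₂, ∀ k < n₂, dist (f^[k] x) (f^[k] c) ≤ ε)) →
      m Gᶜ ≤ ENNReal.ofReal p → m Eᶜ ≤ ENNReal.ofReal p →
      ∀ᶠ L : ℕ in atTop, blockEntropy f m ξ L ≤ 3 * θ * L := by
  obtain ⟨n₀, s, hs, hname⟩ := name_count K hK θ hθ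
  have hlogK : 0 ≤ Real.log K := Real.log_nonneg (by exact_mod_cast hK)
  obtain ⟨q, hqdef⟩ : ∃ q : ℝ, q = θ / (2 * s) := ⟨_, rfl⟩
  have hq : 0 < q := by rw [hqdef]; positivity
  have hsq : s * q = θ / 2 := by rw [hqdef]; field_simp
  obtain ⟨p, hpdef⟩ : ∃ p : ℝ, p = θ * q / (4 * (Real.log K + 1)) := ⟨_, rfl⟩
  have hp : 0 < p := by rw [hpdef]; positivity
  have hpq : (2 * p) / q * Real.log K ≤ θ / 2 := by
    have e : (2 * p) / q = θ / (2 * (Real.log K + 1)) := by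
      rw [hpdef]; field_simp; ring
    rw [e, div_mul_eq_mul_div, div_le_div_iff₀ (by positivity) (by norm_num)]
    nlinarith
  refine ⟨p, n₀, hp, ?_⟩
  intro X _ _ _ f m _ ξ E G ε n₁ n₂ F₁ F₂ hf hξ hE hn1 hn2 hF1 hF2 hG hmG hmE
  obtain ⟨M, hM⟩ := hname f ξ E G ε n₁ n₂ F₁ F₂ hE hn1 hn2 hF1 hF2 hG
  obtain ⟨S, hSdef⟩ : ∃ S : Set X, S = (toMeasurable m (G ∩ E)ᶜ)ᶜ := ⟨_, rfl⟩
  have hSm : MeasurableSet S := by rw [hSdef]; exact (measurableSet_toMeasurable _ _).compl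
  have hSsub : S ⊆ G ∩ E := by
    rw [hSdef, Set.compl_subset_comm]
    exact subset_toMeasurable _ _
  have hSc : m Sᶜ ≤ ENNReal.ofReal (2 * p) := by
    rw [hSdef, compl_compl, measure_toMeasurable, Set.compl_inter]
    refine (measure_union_le _ _).trans ?_
    rw [two_mul, ENNReal.ofReal_add hp.le hp.le]
    exact add_le_add hmG hmE
  have hev : ∀ᶠ L : ℕ in atTop, Real.log (M + 1) + 2 ≤ θ / 2 * L := by
    have h1 : Tendsto (fun L : ℕ => θ / 2 * (L : ℝ)) atTop atTop :=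
      tendsto_natCast_atTop_atTop.const_mul_atTop (by positivity)
    exact h1.eventually_ge_atTop _
  filter_upwards [hev] with L hL
  obtain ⟨A, hAdef⟩ : ∃ A : Set X, A = {x | q * L < (badCount f S L x : ℝ)}ᶜ := ⟨_, rfl⟩
  have hbm : Measurable fun x => (badCount f S L x : ℝ) :=
    measurable_from_nat.comp (badCount_measurable hf.measurable hSm L)
  have hAm : MeasurableSet A := by
    rw [hAdef]
    exact (measurableSet_lt measurable_const hbm).compl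
  have hAc : m.real Aᶜ ≤ 2 * p / q := by
    rw [hAdef, compl_compl]
    have h1 := badCount_markov hf hSm L q hq (2 * p) (by positivity) hSc
    unfold Measure.real
    refine ENNReal.toReal_le_of_le_ofReal (by positivity) h1
  obtain ⟨R, hR⟩ : ∃ R : ℝ, R = (M + 1) * Real.exp (2 * θ * L) := ⟨_, rfl⟩
  have hR1 : 1 ≤ R := by
    rw [hR]
    have h1 : (1 : ℝ) ≤ M + 1 := by
      have : (0 : ℝ) ≤ M := Nat.cast_nonneg M
      linarith
    have h2 : (1 : ℝ) ≤ Real.exp (2 * θ * L) := Real.one_le_exp (by positivity)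
    nlinarith
  have hN1 : 1 ≤ ⌊R⌋₊ := Nat.le_floor (by exact_mod_cast hR1)
  have hcard : {w : Fin L → Fin K | ∃ x ∈ A, ∀ i : Fin L, ξ (f^[i] x) = w i}.ncard ≤ ⌊R⌋₊ := by
    apply Nat.le_floor
    have h1 := hM L ⌊q * L⌋₊
    have hsub : {w : Fin L → Fin K | ∃ x ∈ A, ∀ i : Fin L, ξ (f^[i] x) = w i} ⊆
        {w : Fin L → Fin K | ∃ x : X, badCount f (G ∩ E) L x ≤ ⌊q * L⌋₊ ∧
          ∀ i : Fin L, ξ (f^[i] x) = w i} := by
      rintro w ⟨x, hx, hw⟩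
      refine ⟨x, ?_, hw⟩
      refine (badCount_mono hSsub L x).trans ?_
      apply Nat.le_floor
      rw [hAdef, Set.mem_compl_iff, Set.mem_ofPred_eq, not_lt] at hx
      exact hx
    have h2 : (({w : Fin L → Fin K | ∃ x ∈ A, ∀ i : Fin L, ξ (f^[i] x) = w i}.ncard : ℕ) : ℝ) ≤
        (({w : Fin L → Fin K | ∃ x : X, badCount f (G ∩ E) L x ≤ ⌊q * L⌋₊ ∧
          ∀ i : Fin L, ξ (f^[i] x) = w i}.ncard : ℕ) : ℝ) := by
      exact_mod_cast Set.ncard_le_ncard hsub (Set.toFinite _)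
    refine h2.trans (h1.trans ?_)
    rw [hR]
    have h3 : (⌊q * (L : ℝ)⌋₊ : ℝ) ≤ q * L := Nat.floor_le (by positivity)
    have h4 : 3 / 2 * θ * L + s * (⌊q * (L : ℝ)⌋₊ : ℝ) ≤ 2 * θ * L := by
      have : s * (⌊q * (L : ℝ)⌋₊ : ℝ) ≤ s * (q * L) := mul_le_mul_of_nonneg_left h3 hs.le
      have e : s * (q * L) = θ / 2 * L := by rw [← mul_assoc, hsq]
      rw [e] at this
      linarith
    have h5 := Real.exp_le_exp.mpr h4
    have h6 : (0 : ℝ) ≤ M := Nat.cast_nonneg M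
    have h7 := Real.exp_pos (2 * θ * L)
    calc (M : ℝ) * Real.exp (3 / 2 * θ * L + s * (⌊q * (L : ℝ)⌋₊ : ℝ))
        ≤ M * Real.exp (2 * θ * L) := mul_le_mul_of_nonneg_left h5 h6
      _ ≤ (M + 1) * Real.exp (2 * θ * L) := by linarith
  have hmain := blockEntropy_le f hf.measurable m ξ hξ L A hAm ⌊R⌋₊ hN1 hcard
  have hlogN : Real.log (⌊R⌋₊ : ℝ) ≤ Real.log (M + 1) + 2 * θ * L := by
    have h1 : (⌊R⌋₊ : ℝ) ≤ R := Nat.floor_le (by linarith)
    have h2 : (0 : ℝ) < ⌊R⌋₊ := by exact_mod_cast hN1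
    refine (Real.log_le_log h2 h1).trans ?_
    rw [hR, Real.log_mul (by positivity) (Real.exp_pos _).ne', Real.log_exp]
  have hLK : m.real Aᶜ * (L * Real.log K) ≤ θ / 2 * L := by
    have h0 : (0 : ℝ) ≤ L * Real.log K := by positivity
    calc m.real Aᶜ * (L * Real.log K) ≤ 2 * p / q * (L * Real.log K) :=
          mul_le_mul_of_nonneg_right hAc h0
      _ = (2 * p / q * Real.log K) * L := by ring
      _ ≤ θ / 2 * L := mul_le_mul_of_nonneg_right hpq (Nat.cast_nonneg L)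
  linarith

end Pool.Agent.Lib.MP_e4ee3e_an
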