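import Pool.Agent.Lib.MP_e4ee3e_an.Setup

/-!
E06. Positive entropy gives a partition with frequently large block entropy; and a compact set
of almost full measure on which the partition is separated (inner regularity of each ξ^-1(i):
compact K_i, pairwise disjoint, positive distance; E = union).
-/

open MeasureTheory Filter Topology

namespace Pool.Agent.Lib.MP_e4ee3e_an

attribute [local instance] chMetric

theorem exists_partition {X : Type*} [MeasurableSpace X] {f : X → X} {m : Measure X}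
    (hent : 0 < ksEntropy f m) : ∃ (K : ℕ) (ξ : X → Fin K) (θ : ℝ), Measurable ξ ∧ 0 < θ ∧
      ∃ᶠ L : ℕ in atTop, 3 * θ * L < blockEntropy f m ξ L := by
  unfold ksEntropy at hent
  obtain ⟨K, hK⟩ := lt_iSup_iff.1 hent
  obtain ⟨ξ, hξ⟩ := lt_iSup_iff.1 hK
  obtain ⟨hm, hlim⟩ := lt_iSup_iff.1 hξ
  obtain ⟨θ', h0, h1⟩ := EReal.lt_iff_exists_real_btwn.1 hlim
  have h0' : (0 : ℝ) < θ' := by exact_mod_cast h0
  refine ⟨K, ξ, θ' / 3, hm, by positivity, ?_⟩
  have hfr := Filter.frequently_lt_of_lt_limsup (by isBoundedDefault) h1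
  refine hfr.mono ?_
  intro L hL
  have hL' : θ' < blockEntropy f m ξ L / L := by exact_mod_cast hL
  rcases Nat.eq_zero_or_pos L with rfl | hpos
  · simp at hL'
    linarith
  · have hLr : (0 : ℝ) < L := by exact_mod_cast hpos
    have := (lt_div_iff₀ hLr).1 hL'
    have h3 : 3 * (θ' / 3) * (L : ℝ) = θ' * L := by ring
    rw [h3]
    exact this

theorem exists_separated {X : Type*} [MetricSpace X] [CompactSpace X] [MeasurableSpace X]
    [BorelSpace X] (m : Measure X) [IsProbabilityMeasure m] {K : ℕ} (ξ : X → Fin K)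
    (hξ : Measurable ξ) (p : ℝ) (hp : 0 < p) :
    ∃ (E : Set X) (ε : ℝ), 0 < ε ∧ (∀ x ∈ E, ∀ y ∈ E, dist x y ≤ 2 * ε → ξ x = ξ y) ∧
      m Eᶜ ≤ ENNReal.ofReal p := by
  have hq : 0 < p / (K + 1) := by positivity
  have hA : ∀ i : Fin K, MeasurableSet (ξ ⁻¹' {i}) := fun i => hξ (measurableSet_singleton i)
  have hF : ∀ i : Fin K, ∃ F ⊆ ξ ⁻¹' {i}, IsClosed F ∧
      m ((ξ ⁻¹' {i}) \ F) < ENNReal.ofReal (p / (K + 1)) := fun i =>
    (hA i).exists_isClosed_sdiff_lt (measure_ne_top m _)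
      (by simpa using hq)
  choose F hFs hFc hFm using hF
  have hdis : ∀ i j : Fin K, i ≠ j → Disjoint (F i) (F j) := by
    intro i j hij
    rw [Set.disjoint_left]
    intro x hx hy
    exact hij ((hFs i hx : ξ x = i).symm.trans (hFs j hy : ξ x = j))
  have key : ∀ q : Fin K × Fin K, ∀ᶠ δ in 𝓝[>] (0 : ℝ), q.1 ≠ q.2 →
      ∀ x ∈ F q.1, ∀ y ∈ F q.2, 2 * δ < dist x y := by
    rintro ⟨i, j⟩
    by_cases hij : i = j
    · exact Filter.Eventually.of_forall fun δ h => absurd hij h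
    · obtain ⟨δ₀, hδ₀, hd⟩ := (hdis i j hij).exists_thickenings (hFc i).isCompact (hFc j)
      filter_upwards [Ioo_mem_nhdsGT (half_pos hδ₀)] with δ hδ _ x hx y hy
      by_contra hcon
      push Not at hcon
      have h1 : y ∈ Metric.thickening δ₀ (F i) := by
        rw [Metric.mem_thickening_iff]
        refine ⟨x, hx, ?_⟩
        rw [dist_comm]
        have := hδ.2
        linarith
      have h2 : y ∈ Metric.thickening δ₀ (F j) := Metric.self_subset_thickening hδ₀ _ hy
      exact Set.disjoint_left.1 hd h1 h2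
  have hall := Filter.eventually_all.2 key
  obtain ⟨ε, hε, hε0⟩ := (hall.and self_mem_nhdsWithin).exists
  refine ⟨⋃ i, F i, ε, hε0, ?_, ?_⟩
  · intro x hx y hy hxy
    obtain ⟨i, hi⟩ := Set.mem_iUnion.1 hx
    obtain ⟨j, hj⟩ := Set.mem_iUnion.1 hy
    have hxi : ξ x = i := hFs i hi
    have hyj : ξ y = j := hFs j hj
    rw [hxi, hyj]
    by_contra hij
    exact absurd hxy (not_le.2 (hε (i, j) hij x hi y hj))
  · have hsub : (⋃ i, F i)ᶜ ⊆ ⋃ i, (ξ ⁻¹' {i}) \ F i := by
      intro x hx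
      refine Set.mem_iUnion.2 ⟨ξ x, ?_, ?_⟩
      · simp
      · intro h
        exact hx (Set.mem_iUnion.2 ⟨ξ x, h⟩)
    calc m (⋃ i, F i)ᶜ ≤ m (⋃ i, (ξ ⁻¹' {i}) \ F i) := measure_mono hsub
      _ ≤ ∑ i, m ((ξ ⁻¹' {i}) \ F i) := measure_iUnion_fintype_le m _
      _ ≤ ∑ _i : Fin K, ENNReal.ofReal (p / (K + 1)) :=
          Finset.sum_le_sum fun i _ => (hFm i).le
      _ = ENNReal.ofReal (K * (p / (K + 1))) := by
          rw [Finset.sum_const, Finset.card_univ, Fintype.card_fin, nsmul_eq_mul,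
            ENNReal.ofReal_mul (by positivity), ENNReal.ofReal_natCast]
      _ ≤ ENNReal.ofReal p := by
          apply ENNReal.ofReal_le_ofReal
          have hK1 : (0 : ℝ) < (K : ℝ) + 1 := by positivity
          rw [← mul_div_assoc, div_le_iff₀ hK1]
          nlinarith [hp]

end Pool.Agent.Lib.MP_e4ee3e_an
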