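import Pool.Agent.Lib.MP_e4ee3e_an.W03

/-!
W04. Few vertices shadow: the key covering step. Let B be the set of lists w of length l+1 for which
some α extending w has exp(-δ l) < D l α (T.count gives the bound; convert Fin (l+1) -> Fin d to
lists by List.ofFn). Let x satisfy the hypotheses: y = z (N-1) α by T.surj, with
dist (f^k x) (f^k y) <= L^k L^(-2n) <= L^(-n) < ε₀/2 for k <= n, n large. Let j in [n+N₀, N-1] be
minimal such that all z i α, j <= i <= N-1, satisfy dist (f^k x) (f^k (z i α)) < ε₀ for all k < n.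
Case 1: j = n + N₀: u = z (n+N₀) α, word of length n+N₀+1, k = n, tail of length N₀+1 arbitrary
(at most d^(N₀+1) tails). Case 2: z (j-1) α fails for some k < n; the displacement from
f^k(z (j-1) α) to f^k(z (N-1) α) is at least ε₀/2 and at most the sum of D (i-k) (shift^k α),
i in [j,N-1]; if all these were <= exp(-δ(i-k)), the sum would be < ε₀/2 by hN₀ as i - k > N₀. So
some i in [j,N-1] has exp(-δ(i-k)) < D (i-k) (shift^k α): u = z i α, tail w.drop k bad. In both
cases for t < k (resp. t < n) with f^t x in nobad, f^t u = z (i-t) (shift^t α) is within ε₀ of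
f^t x and i - t >= N₀, so there is a bad block starting at t. Count with W03, i <= C' n,
sum over i, k: number <= exp(θ n) for n large, since 7 δ C' <= θ/4, s q <= θ/4.
-/

open MeasureTheory Filter Topology

namespace Pool.Agent.Lib.MP_e4ee3e_an

attribute [local instance] chMetric

/-- the word of the first `n` letters of a code -/
def w04_wd {d : ℕ} (α : ℕ → Fin d) (n : ℕ) : List (Fin d) := (List.range n).map α

theorem w04_length {d : ℕ} (α : ℕ → Fin d) (n : ℕ) : (w04_wd α n).length = n := by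
  unfold w04_wd
  rw [List.length_map, List.length_range]

theorem w04_get {d : ℕ} (α : ℕ → Fin d) (n i : ℕ) (h : i < (w04_wd α n).length) :
    (w04_wd α n)[i] = α i := by
  simp [w04_wd]

theorem w04_shift {d : ℕ} (α : ℕ → Fin d) (k t : ℕ) : (shift^[k] α) t = α (k + t) := by
  induction k generalizing α with
  | zero => rw [Function.iterate_zero, id, Nat.zero_add]
  | succ k ih =>
    rw [Function.iterate_succ_apply, ih]
    unfold shift
    congr 1
    omega

theorem w04_drop {d : ℕ} (α : ℕ → Fin d) (n k : ℕ) :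
    (w04_wd α n).drop k = w04_wd (shift^[k] α) (n - k) := by
  apply List.ext_getElem
  · rw [List.length_drop, w04_length, w04_length]
  · intro i h1 h2
    rw [List.getElem_drop, w04_get, w04_get, w04_shift]

theorem w04_take {d : ℕ} (α : ℕ → Fin d) {n k : ℕ} (h : k ≤ n) :
    (w04_wd α n).take k = w04_wd α k := by
  apply List.ext_getElem
  · rw [List.length_take, w04_length, w04_length]
    omega
  · intro i h1 h2
    rw [List.getElem_take, w04_get, w04_get]

theorem w04_ofFn {d : ℕ} (α : ℕ → Fin d) (n : ℕ) :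
    w04_wd α n = List.ofFn (fun i : Fin n => α i) := by
  apply List.ext_getElem
  · rw [w04_length, List.length_ofFn]
  · intro i h1 h2
    rw [w04_get, List.getElem_ofFn]

theorem w04_ext {d : ℕ} {α β : ℕ → Fin d} {n : ℕ} (h : w04_wd α n = w04_wd β n) :
    ∀ i < n, α i = β i := by
  intro i hi
  have h1 : i < (w04_wd α n).length := by rwa [w04_length]
  have h2 : i < (w04_wd β n).length := by rwa [w04_length]
  rw [← w04_get α n i h1, ← w04_get β n i h2]
  simp only [h]

theorem w04_exp_lt {δ : ℝ} (hδ : 0 < δ) : Real.exp (-δ) < 1 := by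
  rw [← Real.exp_zero]
  exact Real.exp_lt_exp.2 (by linarith)

theorem w04_geom {δ : ℝ} (hδ : 0 < δ) (a b : ℕ) :
    ∑ r ∈ Finset.Ico a b, Real.exp (-(δ * ((r : ℝ) + 1))) ≤
      Real.exp (-(δ * ((a : ℝ) + 1))) / (1 - Real.exp (-δ)) := by
  have h1 : Real.exp (-δ) < 1 := w04_exp_lt hδ
  have h0 : 0 ≤ Real.exp (-δ) := (Real.exp_pos _).le
  have h2 := geom_sum_Ico_le_of_lt_one (m := a) (n := b) h0 h1
  have e : ∀ r : ℕ, Real.exp (-(δ * ((r : ℝ) + 1))) = Real.exp (-δ) * Real.exp (-δ) ^ r := by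
    intro r
    rw [← Real.exp_nat_mul, ← Real.exp_add]
    congr 1
    ring
  rw [Finset.sum_congr rfl fun r _ => e r, ← Finset.mul_sum, e a, mul_div_assoc]
  exact mul_le_mul_of_nonneg_left h2 h0

theorem w04_large {K θ : ℝ} (hθ : 0 < θ) :
    ∃ n₁ : ℕ, ∀ n : ℕ, n₁ ≤ n → K * (n : ℝ) ^ 3 ≤ Real.exp (θ / 2 * n) := by
  obtain ⟨n₁, hn₁⟩ := exists_nat_ge (K * 24 / (θ / 2) ^ 4)
  refine ⟨n₁, fun n hn => ?_⟩
  have h1 := Real.pow_div_factorial_le_exp (x := θ / 2 * n) (by positivity) 4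
  have h2 : K * 24 ≤ (θ / 2) ^ 4 * n := by
    have h3 : K * 24 / (θ / 2) ^ 4 ≤ n := hn₁.trans (by exact_mod_cast hn)
    rw [div_le_iff₀ (by positivity)] at h3
    linarith
  have h4 : K * (n : ℝ) ^ 3 ≤ (θ / 2 * n) ^ 4 / 24 := by
    rw [le_div_iff₀ (by norm_num)]
    have h5 : (K * 24) * (n : ℝ) ^ 3 ≤ ((θ / 2) ^ 4 * n) * (n : ℝ) ^ 3 :=
      mul_le_mul_of_nonneg_right h2 (by positivity)
    calc K * (n : ℝ) ^ 3 * 24 = (K * 24) * (n : ℝ) ^ 3 := by ring
      _ ≤ ((θ / 2) ^ 4 * n) * (n : ℝ) ^ 3 := h5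
      _ = (θ / 2 * n) ^ 4 := by ring
  have h6 : ((Nat.factorial 4 : ℕ) : ℝ) = 24 := by norm_num [Nat.factorial]
  rw [h6] at h1
  linarith

section

variable {X : Type*} [MetricSpace X] {f : X → X} {L : ℝ} {d : ℕ}

theorem w04_lip (hf : ∀ x y, dist (f x) (f y) ≤ L * dist x y) (hL : 0 ≤ L) (k : ℕ) (x y : X) :
    dist (f^[k] x) (f^[k] y) ≤ L ^ k * dist x y := by
  induction k with
  | zero => rw [Function.iterate_zero, id, id, pow_zero, one_mul]
  | succ k ih =>
    rw [Function.iterate_succ_apply', Function.iterate_succ_apply', pow_succ]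
    calc dist (f (f^[k] x)) (f (f^[k] y)) ≤ L * dist (f^[k] x) (f^[k] y) := hf _ _
      _ ≤ L * (L ^ k * dist x y) := mul_le_mul_of_nonneg_left ih hL
      _ = L ^ k * L * dist x y := by ring

theorem w04_iter (T : AbsTree X f L d) (k : ℕ) : ∀ (i : ℕ) (α : ℕ → Fin d), k ≤ i →
    f^[k] (T.z i α) = T.z (i - k) (shift^[k] α) := by
  induction k with
  | zero =>
    intro i α _
    rw [Function.iterate_zero, id, Function.iterate_zero, id, Nat.sub_zero]
  | succ k ih =>
    intro i α hi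
    obtain ⟨j, rfl⟩ : ∃ j, i = j + 1 := ⟨i - 1, by omega⟩
    rw [Function.iterate_succ_apply, T.map_z_succ, ih j (shift α) (by omega),
      Function.iterate_succ_apply]
    congr 1
    omega

/-- the bad lists -/
def w04_B (T : AbsTree X f L d) (δ : ℝ) : Set (List (Fin d)) :=
  {w | ∃ (l : ℕ) (α : ℕ → Fin d), w = w04_wd α (l + 1) ∧ Real.exp (-(δ * l)) < T.D l α}

theorem w04_B_card (T : AbsTree X f L d) (δ C : ℝ)
    (hC : ∀ n : ℕ, ({w : Fin (n + 1) → Fin d | ∃ α : ℕ → Fin d, (∀ i : Fin (n + 1), α i = w i) ∧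
      Real.exp (-(δ * n)) < T.D n α}.ncard : ℝ) ≤ C * Real.exp (3 * δ * n)) (l : ℕ) :
    ({w : List (Fin d) | w ∈ w04_B T δ ∧ w.length = l + 1}.ncard : ℝ) ≤
      C * Real.exp (3 * δ * l) := by
  refine le_trans ?_ (hC l)
  have hsub : {w : List (Fin d) | w ∈ w04_B T δ ∧ w.length = l + 1} ⊆
      (fun w : Fin (l + 1) → Fin d => List.ofFn w) ''
        {w : Fin (l + 1) → Fin d | ∃ α : ℕ → Fin d, (∀ i : Fin (l + 1), α i = w i) ∧
          Real.exp (-(δ * l)) < T.D l α} := by
    rintro w ⟨⟨l', α, rfl, h⟩, hl⟩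
    rw [w04_length] at hl
    obtain rfl : l' = l := by omega
    exact ⟨fun i => α i, ⟨α, fun i => rfl, h⟩, (w04_ofFn α (l' + 1)).symm⟩
  have h1 := Set.ncard_le_ncard hsub ((Set.toFinite _).image _)
  have h2 := Set.ncard_image_le (f := fun w : Fin (l + 1) → Fin d => List.ofFn w)
    (Set.toFinite {w : Fin (l + 1) → Fin d | ∃ α : ℕ → Fin d, (∀ i : Fin (l + 1), α i = w i) ∧
          Real.exp (-(δ * l)) < T.D l α})
  exact_mod_cast h1.trans h2

theorem w04_find (T : AbsTree X f L d) (hL : 2 ≤ L)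
    (hf : ∀ x y, dist (f x) (f y) ≤ L * dist x y) {δ ε₀ : ℝ} (hδ : 0 < δ) (hε₀ : 0 < ε₀)
    {N₀ n : ℕ} (hN₀ : Real.exp (-(δ * N₀)) / (1 - Real.exp (-δ)) < ε₀ / 2) (hn : N₀ ≤ n)
    (hn2 : (1 / 2 : ℝ) ^ n < ε₀ / 2) {x y : X} {N : ℕ} (hN : 2 * n < N)
    (hxy : dist x y < (L ^ (2 * n))⁻¹) (hy : f^[N] y = T.root) :
    ∃ (i k : ℕ) (α : ℕ → Fin d), n + N₀ ≤ i ∧ i < N ∧ k ≤ n ∧
      (∀ t < n, dist (f^[t] x) (f^[t] (T.z i α)) < ε₀) ∧
      ((k = n ∧ i = n + N₀) ∨
        (k < n ∧ Real.exp (-(δ * ((i - k : ℕ) : ℝ))) < T.D (i - k) (shift^[k] α))) := by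
  obtain ⟨M, rfl⟩ : ∃ M, N = M + 1 := ⟨N - 1, by omega⟩
  obtain ⟨α, rfl⟩ := T.surj M y hy
  have hLp : (0 : ℝ) < L := by linarith
  have hxy' : ∀ t ≤ n, dist (f^[t] x) (f^[t] (T.z M α)) < ε₀ / 2 := by
    intro t ht
    have h1 := w04_lip hf hLp.le t x (T.z M α)
    have h3 : L ^ t * dist x (T.z M α) ≤ L ^ n * (L ^ (2 * n))⁻¹ :=
      mul_le_mul (pow_le_pow_right₀ (by linarith) ht) hxy.le dist_nonneg (by positivity)
    have h4 : L ^ n * (L ^ (2 * n))⁻¹ = (L ^ n)⁻¹ := by
      rw [two_mul, pow_add]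
      field_simp
    have h5 : (L ^ n)⁻¹ ≤ (1 / 2 : ℝ) ^ n := by
      rw [one_div, inv_pow]
      exact inv_anti₀ (by positivity) (pow_le_pow_left₀ (by norm_num) hL n)
    linarith
  classical
  have hex : ∃ j, n + N₀ ≤ j ∧ j ≤ M ∧ ∀ i, j ≤ i → i ≤ M → ∀ t < n,
      dist (f^[t] x) (f^[t] (T.z i α)) < ε₀ :=
    ⟨M, by omega, le_rfl, fun i h1 h2 t ht => by
      obtain rfl : i = M := le_antisymm h2 h1
      exact (hxy' t ht.le).trans (by linarith)⟩
  obtain ⟨h1, h2, h3⟩ := Nat.find_spec hex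
  by_cases hjn : Nat.find hex = n + N₀
  · exact ⟨Nat.find hex, n, α, by omega, by omega, le_rfl,
      fun t ht => h3 _ le_rfl h2 t ht, Or.inl ⟨rfl, hjn⟩⟩
  · have hmin := Nat.find_min hex (show Nat.find hex - 1 < Nat.find hex by omega)
    generalize Nat.find hex = j at h1 h2 h3 hjn hmin
    have hmin' : ∃ i, j - 1 ≤ i ∧ i ≤ M ∧ ∃ t < n, ε₀ ≤ dist (f^[t] x) (f^[t] (T.z i α)) := by
      by_contra hcon
      apply hmin
      refine ⟨by omega, by omega, fun i hi hiM t ht => ?_⟩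
      by_contra hlt
      exact hcon ⟨i, hi, hiM, t, ht, not_lt.1 hlt⟩
    obtain ⟨i0, hi0, hi0M, k, hk, hd⟩ := hmin'
    have hi0' : i0 = j - 1 := by
      by_contra hne
      exact absurd (h3 i0 (by omega) hi0M k hk) (not_lt.2 hd)
    rw [hi0'] at hd
    have hd2 : ε₀ / 2 < dist (f^[k] (T.z (j - 1) α)) (f^[k] (T.z M α)) := by
      have h4 := dist_triangle_right (f^[k] x) (f^[k] (T.z (j - 1) α)) (f^[k] (T.z M α))
      have h5 := hxy' k hk.le
      linarith
    rw [w04_iter T k _ _ (by omega), w04_iter T k _ _ (by omega)] at hd2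
    have key : ∃ i, j ≤ i ∧ i ≤ M ∧
        Real.exp (-(δ * ((i - k : ℕ) : ℝ))) < T.D (i - k) (shift^[k] α) := by
      by_contra hcon
      have h5 := dist_le_Ico_sum_dist (fun r => T.z r (shift^[k] α))
        (show j - 1 - k ≤ M - k by omega)
      have h6 : ∑ r ∈ Finset.Ico (j - 1 - k) (M - k),
          dist (T.z r (shift^[k] α)) (T.z (r + 1) (shift^[k] α)) ≤
          ∑ r ∈ Finset.Ico (j - 1 - k) (M - k), Real.exp (-(δ * ((r : ℝ) + 1))) := by
        refine Finset.sum_le_sum fun r hr => ?_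
        rw [Finset.mem_Ico] at hr
        have h7 : T.D (r + 1) (shift^[k] α) ≤ Real.exp (-(δ * ((r + 1 : ℕ) : ℝ))) := by
          by_contra hlt
          apply hcon
          refine ⟨r + 1 + k, by omega, by omega, ?_⟩
          rw [show r + 1 + k - k = r + 1 by omega]
          exact not_le.1 hlt
        push_cast at h7
        exact (T.dist_z r _).trans h7
      have h8 := w04_geom hδ (j - 1 - k) (M - k)
      have h9 : Real.exp (-(δ * (((j - 1 - k : ℕ) : ℝ) + 1))) / (1 - Real.exp (-δ)) ≤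
          Real.exp (-(δ * N₀)) / (1 - Real.exp (-δ)) := by
        have h10 : 0 < 1 - Real.exp (-δ) := by
          have := w04_exp_lt hδ
          linarith
        refine div_le_div_of_nonneg_right ?_ h10.le
        apply Real.exp_le_exp.2
        have h11 : (N₀ : ℝ) ≤ ((j - 1 - k : ℕ) : ℝ) + 1 := by
          have h12 : N₀ ≤ j - 1 - k + 1 := by omega
          exact_mod_cast h12
        have h13 := mul_le_mul_of_nonneg_left h11 hδ.le
        linarith
      have h14 := lt_of_lt_of_le hd2 (h5.trans (h6.trans (h8.trans h9)))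
      linarith
    obtain ⟨i, hji, hiM, hi⟩ := key
    exact ⟨i, k, α, by omega, by omega, hk.le, fun t ht => h3 i hji hiM t ht, Or.inr ⟨hk, hi⟩⟩

end

variable {X : Type*} [MetricSpace X] [CompactSpace X] {f : X → X} {L : ℝ} {d : ℕ}

theorem AbsTree.vertex_cover (T : AbsTree X f L d) (hL : 2 ≤ L)
    (hf : ∀ x y, dist (f x) (f y) ≤ L * dist x y) {δ θ C' : ℝ} (hδ : 0 < δ) (hθ : 0 < θ)
    (hC' : 1 ≤ C') (hδθ : 28 * δ * C' ≤ θ) :
    ∃ (k₀ : ℕ) (q : ℝ), 0 < q ∧ ∀ (ε₀ : ℝ) (N₀ : ℕ), 0 < ε₀ →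
      Real.exp (-(δ * N₀)) / (1 - Real.exp (-δ)) < ε₀ / 2 →
      ∃ n₀ : ℕ, ∀ n : ℕ, n₀ ≤ n → ∃ F : Finset X, (F.card : ℝ) ≤ Real.exp (θ * n) ∧
        ∀ x : X, (badCount f (T.nobad δ k₀ ε₀ N₀) n x : ℝ) ≤ q * n →
          (∃ N : ℕ, 2 * n < N ∧ (N : ℝ) ≤ C' * n ∧ ∃ y, dist x y < (L ^ (2 * n))⁻¹ ∧
            f^[N] y = T.root) →
          ∃ u ∈ F, ∀ k < n, dist (f^[k] x) (f^[k] u) < ε₀ := by
  classical
  obtain ⟨C, hC⟩ := T.count δ hδ
  obtain ⟨k₀, s, hs, hW⟩ := word_count d δ C hδ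
  have hq : 0 < θ / (4 * s) := by positivity
  refine ⟨k₀, θ / (4 * s), hq, fun ε₀ N₀ hε₀ hN₀ => ?_⟩
  specialize hW (w04_B T δ) (w04_B_card T δ C hC)
  set D₁ : ℝ := ({w : List (Fin d) | w.length = N₀ + 1}.ncard : ℝ) with hD₁
  have hD0 : 0 ≤ D₁ := Nat.cast_nonneg _
  set K₁ : ℝ := |C| + D₁ with hK₁
  have hK0 : 0 ≤ K₁ := add_nonneg (abs_nonneg _) hD0
  obtain ⟨n₁, hn₁⟩ := w04_large (K := 4 * C' ^ 2 * K₁) hθ
  obtain ⟨n₂, hn₂⟩ := exists_pow_lt_of_lt_one (half_pos hε₀) (by norm_num : (1 / 2 : ℝ) < 1)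
  refine ⟨max (max n₁ n₂) (max N₀ 1), fun n hn => ?_⟩
  have hnn₁ : n₁ ≤ n := le_trans (le_trans (le_max_left _ _) (le_max_left _ _)) hn
  have hnn₂ : n₂ ≤ n := le_trans (le_trans (le_max_right _ _) (le_max_left _ _)) hn
  have hnN₀ : N₀ ≤ n := le_trans (le_trans (le_max_left _ _) (le_max_right _ _)) hn
  have hn1 : 1 ≤ n := le_trans (le_trans (le_max_right _ _) (le_max_right _ _)) hn
  have hnR : (1 : ℝ) ≤ n := by exact_mod_cast hn1
  have h2n : (1 / 2 : ℝ) ^ n < ε₀ / 2 :=
    lt_of_le_of_lt (pow_le_pow_of_le_one (by norm_num) (by norm_num) hnn₂) hn₂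
  set b : ℕ := ⌊θ / (4 * s) * n⌋₊ with hb
  set I : ℕ := ⌊C' * n⌋₊ with hI
  have hIle : (I : ℝ) ≤ C' * n := Nat.floor_le (by positivity)
  have hble : (b : ℝ) ≤ θ / (4 * s) * n := Nat.floor_le (by positivity)
  -- tails
  set R : ℕ → ℕ → Set (List (Fin d)) := fun i k =>
    if k < n then {w | w ∈ w04_B T δ ∧ w.length = i - k + 1} else {w | w.length = N₀ + 1} with hR
  have hRfin : ∀ i k, (R i k).Finite := by
    intro i k
    simp only [hR]
    split_ifs
    · exact (List.finite_length_eq (Fin d) (i - k + 1)).subset fun w hw => hw.2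
    · exact List.finite_length_eq (Fin d) (N₀ + 1)
  have hRcard : ∀ i k, i < I → ((R i k).ncard : ℝ) ≤ K₁ * Real.exp (3 * δ * (C' * n)) := by
    intro i k hi
    have hexp1 : 1 ≤ Real.exp (3 * δ * (C' * n)) := Real.one_le_exp (by positivity)
    simp only [hR]
    split_ifs with hk
    · have h1 := w04_B_card T δ C hC (i - k)
      have h2 : Real.exp (3 * δ * ((i - k : ℕ) : ℝ)) ≤ Real.exp (3 * δ * (C' * n)) := by
        apply Real.exp_le_exp.2
        have h3 : ((i - k : ℕ) : ℝ) ≤ C' * n := by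
          have h4 : ((i - k : ℕ) : ℝ) ≤ (I : ℝ) := by
            have : i - k ≤ I := by omega
            exact_mod_cast this
          linarith
        exact mul_le_mul_of_nonneg_left h3 (by positivity)
      calc _ ≤ C * Real.exp (3 * δ * ((i - k : ℕ) : ℝ)) := h1
        _ ≤ |C| * Real.exp (3 * δ * ((i - k : ℕ) : ℝ)) :=
          mul_le_mul_of_nonneg_right (le_abs_self C) (Real.exp_pos _).le
        _ ≤ K₁ * Real.exp (3 * δ * (C' * n)) :=
          mul_le_mul (by linarith) h2 (Real.exp_pos _).le hK0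
    · calc D₁ ≤ K₁ * 1 := by
            rw [mul_one]
            linarith [abs_nonneg C]
        _ ≤ K₁ * Real.exp (3 * δ * (C' * n)) := mul_le_mul_of_nonneg_left hexp1 hK0
  -- words
  set W : ℕ → ℕ → Set (List (Fin d)) := fun i k =>
    {w : List (Fin d) | w.length = i + 1 ∧ w.drop k ∈ R i k ∧
          ∃ E : Finset ℕ, E.card ≤ b ∧ ∀ t < k, t ∈ E ∨
            ∃ l, k₀ ≤ l ∧ t + l + 1 ≤ i + 1 ∧ (w.drop t).take (l + 1) ∈ w04_B T δ} with hWdef
  have hWfin : ∀ i k, (W i k).Finite := fun i k =>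
    (List.finite_length_eq (Fin d) (i + 1)).subset fun w hw => hw.1
  have hWcard : ∀ i k, i < I → k ≤ i → ((W i k).ncard : ℝ) ≤
      (2 * C' * n) * Real.exp (4 * δ * (C' * n) + θ / 4 * n) *
        (K₁ * Real.exp (3 * δ * (C' * n))) := by
    intro i k hi hk
    have h1 := hW i b k hk (R i k) (hRfin i k)
    have hi' : (i : ℝ) + 1 ≤ C' * n := by
      have : i + 1 ≤ I := hi
      have h2 : ((i + 1 : ℕ) : ℝ) ≤ I := by exact_mod_cast this
      push_cast at h2
      linarith
    have hCn : 1 ≤ C' * (n : ℝ) := by nlinarith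
    have h2 : Real.exp (4 * δ * ((i : ℝ) + 1) + s * b) ≤
        Real.exp (4 * δ * (C' * n) + θ / 4 * n) := by
      apply Real.exp_le_exp.2
      have h3 : s * (b : ℝ) ≤ θ / 4 * n := by
        calc s * (b : ℝ) ≤ s * (θ / (4 * s) * n) := mul_le_mul_of_nonneg_left hble hs.le
          _ = θ / 4 * n := by
            field_simp
      have h4 : 4 * δ * ((i : ℝ) + 1) ≤ 4 * δ * (C' * n) :=
        mul_le_mul_of_nonneg_left hi' (by positivity)
      linarith
    refine h1.trans ?_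
    refine mul_le_mul ?_ (hRcard i k hi) (Nat.cast_nonneg _) (by positivity)
    exact mul_le_mul (by linarith) h2 (Real.exp_pos _).le (by positivity)
  -- vertices
  set g : ℕ → List (Fin d) → X := fun i w =>
    if h : ∃ α : ℕ → Fin d, w04_wd α (i + 1) = w then T.z i h.choose else T.root with hg
  have hgz : ∀ i α, g i (w04_wd α (i + 1)) = T.z i α := by
    intro i α
    have h : ∃ β : ℕ → Fin d, w04_wd β (i + 1) = w04_wd α (i + 1) := ⟨α, rfl⟩
    simp only [hg]
    rw [dif_pos h]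
    apply T.z_congr
    intro t ht
    exact w04_ext h.choose_spec t (by omega)
  set P : Finset (ℕ × ℕ) := (Finset.range I ×ˢ Finset.range (n + 1)).filter
    (fun p => p.2 ≤ p.1) with hP
  refine ⟨P.biUnion fun p => (hWfin p.1 p.2).toFinset.image (g p.1), ?_, ?_⟩
  · have h1 : (((P.biUnion fun p => (hWfin p.1 p.2).toFinset.image (g p.1)).card : ℕ) : ℝ) ≤
        ∑ p ∈ P, ((W p.1 p.2).ncard : ℝ) := by
      have h2 : (P.biUnion fun p => (hWfin p.1 p.2).toFinset.image (g p.1)).card ≤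
          ∑ p ∈ P, (W p.1 p.2).ncard := by
        refine Finset.card_biUnion_le.trans (Finset.sum_le_sum fun p _ => ?_)
        refine Finset.card_image_le.trans ?_
        rw [Set.ncard_eq_toFinset_card _ (hWfin p.1 p.2)]
      exact_mod_cast h2
    have h3 : ∑ p ∈ P, ((W p.1 p.2).ncard : ℝ) ≤ P.card • ((2 * C' * n) *
        Real.exp (4 * δ * (C' * n) + θ / 4 * n) * (K₁ * Real.exp (3 * δ * (C' * n)))) := by
      refine Finset.sum_le_card_nsmul _ _ _ fun p hp => ?_
      rw [hP, Finset.mem_filter, Finset.mem_product, Finset.mem_range] at hp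
      exact hWcard p.1 p.2 hp.1.1 hp.2
    have h4 : (P.card : ℝ) ≤ (C' * n) * (2 * n) := by
      have h5 : P.card ≤ I * (n + 1) := by
        refine (Finset.card_filter_le _ _).trans ?_
        rw [Finset.card_product, Finset.card_range, Finset.card_range]
      have h6 : (P.card : ℝ) ≤ (I : ℝ) * ((n : ℝ) + 1) := by exact_mod_cast h5
      refine h6.trans (mul_le_mul hIle (by linarith) (by positivity) (by positivity))
    rw [nsmul_eq_mul] at h3
    have h7 : 7 * δ * C' * n ≤ θ / 4 * n := by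
      have : 7 * δ * C' ≤ θ / 4 := by linarith
      exact mul_le_mul_of_nonneg_right this (by positivity)
    have h8 : Real.exp (4 * δ * (C' * n) + θ / 4 * n) * Real.exp (3 * δ * (C' * n)) ≤
        Real.exp (θ / 2 * n) := by
      rw [← Real.exp_add]
      apply Real.exp_le_exp.2
      linarith
    have h9 := hn₁ n hnn₁
    calc (((P.biUnion fun p => (hWfin p.1 p.2).toFinset.image (g p.1)).card : ℕ) : ℝ)
        ≤ (P.card : ℝ) * ((2 * C' * n) * Real.exp (4 * δ * (C' * n) + θ / 4 * n) *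
            (K₁ * Real.exp (3 * δ * (C' * n)))) := h1.trans h3
      _ ≤ ((C' * n) * (2 * n)) * ((2 * C' * n) * Real.exp (4 * δ * (C' * n) + θ / 4 * n) *
            (K₁ * Real.exp (3 * δ * (C' * n)))) :=
          mul_le_mul_of_nonneg_right h4 (by positivity)
      _ = (4 * C' ^ 2 * K₁ * (n : ℝ) ^ 3) * (Real.exp (4 * δ * (C' * n) + θ / 4 * n) *
            Real.exp (3 * δ * (C' * n))) := by ring
      _ ≤ Real.exp (θ / 2 * n) * Real.exp (θ / 2 * n) :=
          mul_le_mul h9 h8 (by positivity) (Real.exp_pos _).le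
      _ = Real.exp (θ * n) := by
          rw [← Real.exp_add]
          congr 1
          ring
  · rintro x hbad ⟨N, hN, hNC, y, hxy, hy⟩
    obtain ⟨i, k, α, hi1, hi2, hk, hsh, hcase⟩ :=
      w04_find T hL hf hδ hε₀ hN₀ hnN₀ h2n hN hxy hy
    have hiI : i < I := by
      have h1 : ((i + 1 : ℕ) : ℝ) ≤ C' * n := by
        have h2 : ((i + 1 : ℕ) : ℝ) ≤ N := by
          have : i + 1 ≤ N := hi2
          exact_mod_cast this
        linarith
      have h3 := Nat.le_floor h1
      omega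
    refine ⟨T.z i α, ?_, hsh⟩
    rw [Finset.mem_biUnion]
    refine ⟨(i, k), ?_, ?_⟩
    · rw [hP, Finset.mem_filter, Finset.mem_product, Finset.mem_range, Finset.mem_range]
      refine ⟨⟨hiI, by omega⟩, ?_⟩
      show k ≤ i
      omega
    · rw [Finset.mem_image]
      refine ⟨w04_wd α (i + 1), ?_, hgz i α⟩
      rw [Set.Finite.mem_toFinset]
      refine ⟨w04_length α (i + 1), ?_, ?_⟩
      · show (w04_wd α (i + 1)).drop k ∈ R i k
        rw [w04_drop]
        simp only [hR]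
        rcases hcase with ⟨h1, h2⟩ | ⟨h1, h2⟩
        · rw [if_neg (by omega)]
          show (w04_wd _ _).length = N₀ + 1
          rw [w04_length]
          omega
        · rw [if_pos h1]
          refine ⟨⟨i - k, shift^[k] α, ?_, h2⟩, ?_⟩
          · congr 1
            omega
          · rw [w04_length]
            omega
      · refine ⟨(Finset.range n).filter fun t => f^[t] x ∉ T.nobad δ k₀ ε₀ N₀, ?_, ?_⟩
        · have h1 : badCount f (T.nobad δ k₀ ε₀ N₀) n x =
              ((Finset.range n).filter fun t => f^[t] x ∉ T.nobad δ k₀ ε₀ N₀).card := by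
            unfold badCount
            rw [← Set.ncard_coe_finset]
            congr 1
            ext t
            simp
          rw [← h1]
          exact Nat.le_floor hbad
        · intro t ht
          by_cases hm : f^[t] x ∈ T.nobad δ k₀ ε₀ N₀
          · right
            have h1 := hsh t (by omega)
            rw [w04_iter T t _ _ (by omega)] at h1
            obtain ⟨l, hl1, hl2, hl3⟩ := hm (i - t) (by omega) _ h1
            refine ⟨l, hl1, by omega, l, shift^[t] α, ?_, hl3⟩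
            rw [w04_drop, w04_take _ (by omega)]
          · left
            rw [Finset.mem_filter, Finset.mem_range]
            exact ⟨by omega, hm⟩

end Pool.Agent.Lib.MP_e4ee3e_an
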