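import Pool.Agent.Lib.MP_e4ee3e_an.D03
import Pool.Agent.Lib.MP_e4ee3e_an.D06
import Pool.Agent.Lib.MP_e4ee3e_an.W04
import Pool.Agent.Lib.MP_e4ee3e_an.E05
import Pool.Agent.Lib.MP_e4ee3e_an.E06

/-!
D07. Abstract main theorem. p₀, n₀ from E05 for (K, θ); E, ε from E06 (with p₀); p = p₀/2.
Given C', T: δ = θ/(28 C'); k₀, q from W04. By D03 either done or m(ptsAll δ) = 0. D06 with
q p₀/2: pick N large with also tail < ε₀/2 and ε₀ = 1/(N+1) <= ε. Take n from the frequently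
hypothesis, larger than n₀, the n₀ of W04 and such that floor(C' n) >= n₀. F₂ from W04.
G = {x: shadowed by F1 or by F₂}; its complement is in {not I and not II} union
{badCount of nobad > q n}, of measure <= p₀/2 + p₀/2 by badCount_markov (nobad closed).
E05 contradicts the frequently large entropy.
-/

open MeasureTheory Filter Topology

namespace Pool.Agent.Lib.MP_e4ee3e_an

attribute [local instance] chMetric

lemma d07_tail (δ : ℝ) (hδ : 0 < δ) :
    ∀ᶠ N : ℕ in atTop,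
      Real.exp (-(δ * N)) / (1 - Real.exp (-δ)) < (1 / ((N : ℝ) + 1)) / 2 := by
  have h1 : 0 < 1 - Real.exp (-δ) := by
    have : Real.exp (-δ) < 1 := by rw [Real.exp_lt_one_iff]; linarith
    linarith
  have h2 : Tendsto (fun N : ℕ => ((N : ℝ) + 1) * Real.exp (-(δ * N))) atTop (𝓝 0) := by
    have h3 : Tendsto (fun x : ℝ => x ^ 1 * Real.exp (-(δ * x))) atTop (𝓝 0) := by
      have := Real.tendsto_pow_mul_exp_neg_atTop_nhds_zero 1
      have h4 : Tendsto (fun x : ℝ => δ * x) atTop atTop :=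
        Tendsto.const_mul_atTop hδ tendsto_id
      have h5 := (this.comp h4).const_mul (1 / δ)
      rw [mul_zero] at h5
      refine h5.congr fun x => ?_
      simp only [Function.comp, pow_one]
      field_simp
    have h4 : Tendsto (fun x : ℝ => Real.exp (-(δ * x))) atTop (𝓝 0) := by
      have h5 : Tendsto (fun x : ℝ => δ * x) atTop atTop :=
        Tendsto.const_mul_atTop hδ tendsto_id
      exact Real.tendsto_exp_neg_atTop_nhds_zero.comp h5
    have h6 := (h3.add h4).comp tendsto_natCast_atTop_atTop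
    rw [add_zero] at h6
    refine h6.congr fun N => ?_
    simp only [Function.comp, pow_one]
    ring
  have h7 : ∀ᶠ N : ℕ in atTop,
      ((N : ℝ) + 1) * Real.exp (-(δ * N)) < (1 - Real.exp (-δ)) / 2 :=
    h2.eventually (gt_mem_nhds (by linarith))
  filter_upwards [h7] with N hN
  have h8 : (0 : ℝ) < (N : ℝ) + 1 := by positivity
  rw [div_div, div_lt_div_iff₀ h1 (by positivity)]
  nlinarith

theorem abstract_main {X : Type} [MetricSpace X] [CompactSpace X] [MeasurableSpace X]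
    [BorelSpace X] (f : X → X) (L : ℝ) (hL : 2 ≤ L)
    (hf : ∀ x y, dist (f x) (f y) ≤ L * dist x y) (m : Measure X) [IsProbabilityMeasure m]
    (hm : Ergodic f m) (K : ℕ) (ξ : X → Fin K) (hξ : Measurable ξ) (θ : ℝ) (hθ : 0 < θ)
    (hent : ∃ᶠ n : ℕ in atTop, 3 * θ * n < blockEntropy f m ξ n) :
    ∃ ε p : ℝ, 0 < ε ∧ 0 < p ∧ ∀ (C' : ℝ) (d : ℕ) (T : AbsTree X f L d), 1 ≤ C' →
      (∃ᶠ n : ℕ in atTop, ∃ F : Finset X, (F.card : ℝ) ≤ Real.exp (θ * ⌊C' * n⌋₊) ∧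
        m {x | ¬ (∃ c ∈ F, ∀ k < ⌊C' * n⌋₊, dist (f^[k] x) (f^[k] c) ≤ ε) ∧
          ¬ (∃ N : ℕ, 2 * n < N ∧ (N : ℝ) ≤ C' * n ∧ ∃ y, dist x y < (L ^ (2 * n))⁻¹ ∧
            f^[N] y = T.root)} ≤ ENNReal.ofReal p) →
      ∃ δ : ℝ, 0 < δ ∧ m (T.ptsAll δ)ᶜ = 0 := by
  classical
  have hne : Nonempty X := nonempty_of_isProbabilityMeasure m
  have hK : 1 ≤ K := by
    obtain ⟨x⟩ := hne
    exact Nat.one_le_iff_ne_zero.2 (by rintro rfl; exact (ξ x).elim0)
  obtain ⟨p₀, n₀, hp₀, hcover⟩ := entropy_cover K hK θ hθ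
  obtain ⟨E, ε, hε, hsep, hE⟩ := exists_separated m ξ hξ p₀ hp₀
  refine ⟨ε, p₀ / 2, hε, by positivity, ?_⟩
  intro C' d T hC' hfreq
  have hδ : 0 < θ / (28 * C') := by positivity
  generalize hδdef : θ / (28 * C') = δ at hδ
  obtain ⟨k₀, q, hq, hW⟩ := T.vertex_cover hL hf hδ hθ hC' (by
    rw [← hδdef]
    have : 28 * (θ / (28 * C')) * C' = θ := by field_simp
    linarith)
  refine ⟨δ, hδ, ?_⟩
  have hcont : Continuous f := by
    have : LipschitzWith (Real.toNNReal L) f := by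
      refine LipschitzWith.of_dist_le_mul fun x y => ?_
      rw [Real.coe_toNNReal _ (by linarith)]
      exact hf x y
    exact this.continuous
  rcases T.ptsAll_zero_one (by linarith) hcont hδ m hm with h0 | h1
  swap
  · exact h1
  exfalso
  have e1 := T.nobad_measure hδ k₀ m h0 (q * (p₀ / 2)) (by positivity)
  have e2 := d07_tail δ hδ
  have e3 : ∀ᶠ N : ℕ in atTop, 1 / ((N : ℝ) + 1) ≤ ε := by
    have := tendsto_one_div_add_atTop_nhds_zero_nat (𝕜 := ℝ)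
    filter_upwards [this.eventually (gt_mem_nhds hε)] with N hN
    exact hN.le
  obtain ⟨N, hN1, hN2, hN3⟩ := (e1.and (e2.and e3)).exists
  obtain ⟨n₁, hn₁⟩ := hW (1 / ((N : ℝ) + 1)) N (by positivity) hN2
  have e4 : ∀ᶠ n : ℕ in atTop, n₁ ≤ n ∧ n₀ ≤ n ∧ n₀ ≤ ⌊C' * n⌋₊ ∧ 0 < n := by
    filter_upwards [eventually_ge_atTop n₁, eventually_ge_atTop n₀, eventually_ge_atTop 1]
      with n h1 h2 h3
    refine ⟨h1, h2, ?_, h3⟩
    apply Nat.le_floor
    have : (n₀ : ℝ) ≤ n := by exact_mod_cast h2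
    have hn : (0 : ℝ) ≤ n := by positivity
    nlinarith
  obtain ⟨n, ⟨F₁, hF₁, hmeas⟩, hn⟩ := (hfreq.and_eventually e4).exists
  obtain ⟨F₂, hF₂, hF₂'⟩ := hn₁ n hn.1
  have hfin := hcover f m ξ E {x | (∃ c ∈ F₂, ∀ k < n, dist (f^[k] x) (f^[k] c) ≤ ε) ∨
      (∃ c ∈ F₁, ∀ k < ⌊C' * n⌋₊, dist (f^[k] x) (f^[k] c) ≤ ε)} ε n ⌊C' * n⌋₊ F₂ F₁
      hm.toMeasurePreserving hξ hsep hn.2.1 hn.2.2.1 hF₂ hF₁ (fun x hx => hx) ?_ hE
  · obtain ⟨l, hl1, hl2⟩ := (hent.and_eventually hfin).exists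
    linarith
  · have hsub : {x | (∃ c ∈ F₂, ∀ k < n, dist (f^[k] x) (f^[k] c) ≤ ε) ∨
        (∃ c ∈ F₁, ∀ k < ⌊C' * n⌋₊, dist (f^[k] x) (f^[k] c) ≤ ε)}ᶜ ⊆
        {x | ¬ (∃ c ∈ F₁, ∀ k < ⌊C' * n⌋₊, dist (f^[k] x) (f^[k] c) ≤ ε) ∧
          ¬ (∃ N : ℕ, 2 * n < N ∧ (N : ℝ) ≤ C' * n ∧ ∃ y, dist x y < (L ^ (2 * n))⁻¹ ∧
            f^[N] y = T.root)} ∪
        {x | q * n < (badCount f (T.nobad δ k₀ (1 / ((N : ℝ) + 1)) N) n x : ℝ)} := by
      intro x hx
      rw [Set.mem_compl_iff, Set.mem_setOf_eq, not_or] at hx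
      by_cases hb : (badCount f (T.nobad δ k₀ (1 / ((N : ℝ) + 1)) N) n x : ℝ) ≤ q * n
      · left
        refine ⟨hx.2, fun hII => hx.1 ?_⟩
        obtain ⟨u, hu, hu'⟩ := hF₂' x hb hII
        exact ⟨u, hu, fun k hk => (hu' k hk).le.trans hN3⟩
      · right
        exact not_le.1 hb
    refine (measure_mono hsub).trans ((measure_union_le _ _).trans ?_)
    have hmk := badCount_markov hm.toMeasurePreserving
      (T.isClosed_nobad δ k₀ (1 / ((N : ℝ) + 1)) N).measurableSet n q hq (q * (p₀ / 2))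
      (by positivity) hN1
    calc _ ≤ ENNReal.ofReal (p₀ / 2) + ENNReal.ofReal (q * (p₀ / 2) / q) := add_le_add hmeas hmk
      _ = ENNReal.ofReal p₀ := by
        rw [← ENNReal.ofReal_add (by positivity) (by positivity)]
        congr 1
        field_simp
        ring

end Pool.Agent.Lib.MP_e4ee3e_an
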