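import Pool.Agent.Lib.MP_e4ee3e_an.Setup

/-!
D08. From a measurable choice of codes to the measure on sequences: μ = m.map s. The vertex maps
are continuous (depend on finitely many letters); domain is measurable
(measurableSet_exists_tendsto); on domain codingMap is the limit, measurable
(measurable_limit_of_tendsto_metrizable or aemeasurable_of_tendsto_metrizable_ae); then
μ.map codingMap = m.map (codingMap o s) = m.map id.
-/

open MeasureTheory Filter Topology

namespace Pool.Agent.Lib.MP_e4ee3e_an

attribute [local instance] chMetric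

theorem d08_measurable_of_congr {Y : Type*} [MeasurableSpace Y] [Nonempty Y] {d : ℕ} (n : ℕ)
    (g : (ℕ → Fin d) → Y) (hcongr : ∀ α β : ℕ → Fin d, (∀ i ≤ n, α i = β i) → g α = g β) :
    Measurable g := by
  have hr : Measurable (fun (α : ℕ → Fin d) (i : Fin (n + 1)) => α i) :=
    measurable_pi_lambda _ fun i => measurable_pi_apply _
  have hf : Function.FactorsThrough g (fun (α : ℕ → Fin d) (i : Fin (n + 1)) => α i) := by
    intro α β h
    apply hcongr
    intro i hi
    exact congrFun h (⟨i, by omega⟩ : Fin (n + 1))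
  have h1 : g = Function.extend (fun (α : ℕ → Fin d) (i : Fin (n + 1)) => α i) g
      (fun _ => Classical.arbitrary Y) ∘ (fun (α : ℕ → Fin d) (i : Fin (n + 1)) => α i) := by
    funext α
    simp only [Function.comp]
    rw [hf.extend_apply]
  rw [h1]
  exact (measurable_of_countable _).comp hr

theorem coding_measure [MeasurableSpace (OnePoint ℂ)] [BorelSpace (OnePoint ℂ)]
    {f : OnePoint ℂ → OnePoint ℂ} {d : ℕ} (T : CodingTree f d)
    (hcongr : ∀ n α β, (∀ i ≤ n, α i = β i) → T.vertex n α = T.vertex n β)
    (m : Measure (OnePoint ℂ)) [IsProbabilityMeasure m] (s : OnePoint ℂ → ℕ → Fin d)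
    (hs : Measurable s)
    (hae : ∀ᵐ x ∂m, Tendsto (fun n => T.vertex n (s x)) atTop (𝓝 x)) :
    ∃ μ : Measure (ℕ → Fin d), IsProbabilityMeasure μ ∧ μ T.domainᶜ = 0 ∧
      μ.map T.codingMap = m := by
  have hv : ∀ n, Measurable (T.vertex n) := fun n =>
    d08_measurable_of_congr n (T.vertex n) (hcongr n)
  have hdom : MeasurableSet T.domain :=
    MeasureTheory.measurableSet_exists_tendsto (l := atTop) (f := T.vertex) hv
  have hzero : (m.map s) T.domainᶜ = 0 := by
    rw [Measure.map_apply hs hdom.compl]
    have h1 : ∀ᵐ x ∂m, s x ∈ T.domain := by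
      filter_upwards [hae] with x hx
      exact ⟨x, hx⟩
    exact h1
  have hcm : AEMeasurable T.codingMap (m.map s) := by
    apply aemeasurable_of_tendsto_metrizable_ae atTop (fun n => (hv n).aemeasurable)
    have h2 : ∀ᵐ α ∂(m.map s), α ∈ T.domain := hzero
    filter_upwards [h2] with α hα
    exact tendsto_nhds_limUnder hα
  refine ⟨m.map s, Measure.isProbabilityMeasure_map hs.aemeasurable, hzero, ?_⟩
  rw [AEMeasurable.map_map_of_aemeasurable hcm hs.aemeasurable]
  have h3 : T.codingMap ∘ s =ᵐ[m] id := by
    filter_upwards [hae] with x hx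
    exact hx.limUnder_eq
  rw [Measure.map_congr h3, Measure.map_id]

end Pool.Agent.Lib.MP_e4ee3e_an
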