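import Mathlib

/-!
MP_e4ee3e_an (geometric coding trees): definitions used in the statement.
The Riemann sphere is `OnePoint ℂ`.
-/

open MeasureTheory Filter Topology

namespace Pool.Agent.Lib.MP_e4ee3e_an

/-- The point `a / b` of the Riemann sphere (infinity if `b = 0`). -/
noncomputable def ratio (a b : ℂ) : OnePoint ℂ :=
  if b = 0 then OnePoint.infty else ((a / b : ℂ) : OnePoint ℂ)

/-- The rational map `P / Q` of the Riemann sphere, for coprime polynomials `P`, `Q`; its value
at infinity is the ratio of the coefficients in degree `max (deg P) (deg Q)`. -/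
noncomputable def ratMap (P Q : Polynomial ℂ) (x : OnePoint ℂ) : OnePoint ℂ :=
  match x with
  | OnePoint.infty => ratio (P.coeff (max P.natDegree Q.natDegree))
      (Q.coeff (max P.natDegree Q.natDegree))
  | OnePoint.some x => ratio (P.eval x) (Q.eval x)

/-- `c` is a critical point of `f`: `f` is injective on no neighbourhood of `c`. -/
def IsCritPt (f : OnePoint ℂ → OnePoint ℂ) (c : OnePoint ℂ) : Prop :=
  ∀ U ∈ 𝓝 c, ¬ Set.InjOn f U

/-- The left shift on sequences. -/
def shift {A : Type*} (α : ℕ → A) : ℕ → A := fun k => α (k + 1)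

/-- A geometric coding tree of `f`: a root, `d` distinct preimages of the root, curves `curve i`
joining the root to the preimages, and the edges `edge n α` (written `γ_n(α)`): `edge 0 α` is
`curve (α 0)` and `edge (n + 1) α` is an `f`-lift of `edge n (shift α)` starting at the end of
`edge n α`. -/
structure CodingTree (f : OnePoint ℂ → OnePoint ℂ) (d : ℕ) where
  root : OnePoint ℂ
  child : Fin d → OnePoint ℂ
  child_injective : Function.Injective child
  map_child : ∀ i, f (child i) = root
  curve : Fin d → C(unitInterval, OnePoint ℂ)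
  curve_zero : ∀ i, curve i 0 = root
  curve_one : ∀ i, curve i 1 = child i
  edge : ℕ → (ℕ → Fin d) → C(unitInterval, OnePoint ℂ)
  edge_zero : ∀ α, edge 0 α = curve (α 0)
  edge_succ_map : ∀ n α t, f (edge (n + 1) α t) = edge n (shift α) t
  edge_succ_start : ∀ n α, edge (n + 1) α 0 = edge n α 1

namespace CodingTree

variable {f : OnePoint ℂ → OnePoint ℂ} {d : ℕ}

/-- The vertices `z_n(α)` of the tree. -/
noncomputable def vertex (T : CodingTree f d) (n : ℕ) (α : ℕ → Fin d) : OnePoint ℂ := T.edge n α 1

/-- The curves of the tree meet no critical value of an iterate of `f`. -/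
def AvoidsCriticalValues (T : CodingTree f d) : Prop :=
  ∀ c, IsCritPt f c → ∀ n : ℕ, 1 ≤ n → ∀ i t, T.curve i t ≠ f^[n] c

/-- All lifts used in the tree are unique. -/
def UniqueLifts (T : CodingTree f d) : Prop :=
  ∀ n α (γ : C(unitInterval, OnePoint ℂ)), (∀ t, f (γ t) = T.edge n (shift α) t) →
    γ 0 = T.edge n α 1 → γ = T.edge (n + 1) α

/-- The set of sequences whose vertices converge. -/
def domain (T : CodingTree f d) : Set (ℕ → Fin d) :=
  {α | ∃ x, Tendsto (fun n => T.vertex n α) atTop (𝓝 x)}

/-- The coding map, `α ↦ lim z_n(α)`. -/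
noncomputable def codingMap (T : CodingTree f d) (α : ℕ → Fin d) : OnePoint ℂ :=
  limUnder atTop (fun n => T.vertex n α)

end CodingTree

/-- Entropy of the partition into itineraries of length `L` with respect to the finite partition
given by `ξ : X → Fin k`. -/
noncomputable def blockEntropy {X : Type*} [MeasurableSpace X] (f : X → X) (m : Measure X)
    {k : ℕ} (ξ : X → Fin k) (L : ℕ) : ℝ :=
  ∑ w : Fin L → Fin k, Real.negMulLog (m.real {x | ∀ i : Fin L, ξ (f^[i] x) = w i})

/-- Kolmogorov-Sinai entropy of `f` with respect to the measure `m`: supremum over all finite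
measurable partitions of the growth rate of the entropy of the iterated partition. -/
noncomputable def ksEntropy {X : Type*} [MeasurableSpace X] (f : X → X) (m : Measure X) : EReal :=
  ⨆ (k : ℕ) (ξ : X → Fin k) (_ : Measurable ξ),
    limsup (fun L : ℕ => ((blockEntropy f m ξ L / L : ℝ) : EReal)) atTop

end Pool.Agent.Lib.MP_e4ee3e_an
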