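import Pool.Agent.Lib.MP_e4ee3e_an.Setup

/-!
E01. Elementary entropy inequality. For the atoms a w + b w (a: part inside A, b: part in the
complement): negMulLog is subadditive on [0,1]: negMulLog (a+b) <= negMulLog a + negMulLog b; and
for a finite family of nonnegative reals with sum α <= 1 and at most N nonzero members the sum of
negMulLog is <= α log N + 1 (tangent line of the concave function negMulLog at 1/N).
-/

open MeasureTheory Filter Topology

namespace Pool.Agent.Lib.MP_e4ee3e_an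

attribute [local instance] chMetric

/-- tangent line -/
theorem e01_tangent {a : ℝ} (ha : 0 ≤ a) {N : ℝ} (hN : 0 < N) :
    Real.negMulLog a ≤ a * Real.log N + N⁻¹ - a := by
  rcases ha.eq_or_lt with rfl | ha
  · simp [hN.le]
  · have h := Real.log_le_sub_one_of_pos (show 0 < N⁻¹ / a by positivity)
    rw [Real.log_div (by positivity) ha.ne', Real.log_inv] at h
    have h2 : a * (-Real.log N - Real.log a) ≤ a * (N⁻¹ / a - 1) :=
      mul_le_mul_of_nonneg_left h ha.le
    have h3 : a * (N⁻¹ / a - 1) = N⁻¹ - a := by field_simp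
    rw [h3] at h2
    unfold Real.negMulLog
    nlinarith

theorem sum_negMulLog_le {ι : Type*} [Fintype ι] (a : ι → ℝ) (ha : ∀ i, 0 ≤ a i)
    (hsum : ∑ i, a i ≤ 1) (N : ℕ) (S : Finset ι) (hS : ∀ i, i ∉ S → a i = 0) (hN : S.card ≤ N)
    (hN1 : 1 ≤ N) : ∑ i, Real.negMulLog (a i) ≤ (∑ i, a i) * Real.log N + 1 := by
  have hNpos : (0 : ℝ) < N := by exact_mod_cast hN1
  have e1 : ∑ i, Real.negMulLog (a i) = ∑ i ∈ S, Real.negMulLog (a i) := by
    symm
    refine Finset.sum_subset (Finset.subset_univ _) fun i _ hi => ?_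
    rw [hS i hi, Real.negMulLog_zero]
  have e2 : ∑ i, a i = ∑ i ∈ S, a i := by
    symm
    refine Finset.sum_subset (Finset.subset_univ _) fun i _ hi => hS i hi
  rw [e1, e2]
  have h1 : ∑ i ∈ S, Real.negMulLog (a i) ≤
      ∑ i ∈ S, (a i * Real.log N + (N : ℝ)⁻¹ - a i) :=
    Finset.sum_le_sum fun i _ => e01_tangent (ha i) hNpos
  rw [Finset.sum_sub_distrib, Finset.sum_add_distrib, ← Finset.sum_mul, Finset.sum_const,
    nsmul_eq_mul] at h1
  have h2 : (S.card : ℝ) * (N : ℝ)⁻¹ ≤ 1 := by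
    rw [← div_eq_mul_inv, div_le_one hNpos]
    exact_mod_cast hN
  have h3 : 0 ≤ ∑ i ∈ S, a i := Finset.sum_nonneg fun i _ => ha i
  linarith

theorem negMulLog_add_le {a b : ℝ} (ha : 0 ≤ a) (hb : 0 ≤ b) :
    Real.negMulLog (a + b) ≤ Real.negMulLog a + Real.negMulLog b := by
  rcases ha.eq_or_lt with rfl | ha
  · simp
  rcases hb.eq_or_lt with rfl | hb
  · simp
  have h1 : Real.log a ≤ Real.log (a + b) := Real.log_le_log ha (by linarith)
  have h2 : Real.log b ≤ Real.log (a + b) := Real.log_le_log hb (by linarith)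
  unfold Real.negMulLog
  nlinarith

end Pool.Agent.Lib.MP_e4ee3e_an
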