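import Pool.Agent.Lib.MP_e4ee3e_an.E01

/-!
E02. Bound for the block entropy when the good set A carries at most N itineraries. Itineraries:
functions Fin L → Fin k. a w = m (A ∩ {itinerary = w}), b w = m (Aᶜ ∩ {itinerary = w}).
-/

open MeasureTheory Filter Topology

namespace Pool.Agent.Lib.MP_e4ee3e_an

attribute [local instance] chMetric

theorem blockEntropy_le {X : Type*} [MeasurableSpace X] (f : X → X) (hf : Measurable f)
    (m : Measure X) [IsProbabilityMeasure m] {k : ℕ} (ξ : X → Fin k) (hξ : Measurable ξ) (L : ℕ)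
    (A : Set X) (hA : MeasurableSet A) (N : ℕ) (hN : 1 ≤ N)
    (hcard : {w : Fin L → Fin k | ∃ x ∈ A, ∀ i : Fin L, ξ (f^[i] x) = w i}.ncard ≤ N) :
    blockEntropy f m ξ L ≤ Real.log N + m.real Aᶜ * (L * Real.log k) + 2 := by
  classical
  have hXne : Nonempty X := by
    by_contra h
    rw [not_nonempty_iff] at h
    have h1 := measure_univ (μ := m)
    rw [Set.univ_eq_empty_iff.mpr h, measure_empty] at h1
    exact zero_ne_one h1
  obtain ⟨x₀⟩ := hXne
  have hk : 1 ≤ k := by have := (ξ x₀).2; omega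
  let itin : X → (Fin L → Fin k) := fun x i => ξ (f^[i] x)
  have hit : Measurable itin := by
    refine measurable_pi_lambda _ fun i => ?_
    exact hξ.comp (hf.iterate i)
  have hI : ∀ w : Fin L → Fin k, {x | ∀ i : Fin L, ξ (f^[i] x) = w i} = itin ⁻¹' {w} := by
    intro w
    ext x
    simp only [Set.mem_preimage, Set.mem_singleton_iff, funext_iff, Set.mem_ofPred_eq, itin]
  have hImeas : ∀ w : Fin L → Fin k, MeasurableSet (itin ⁻¹' {w}) :=
    fun w => hit (measurableSet_singleton w)
  set a : (Fin L → Fin k) → ℝ := fun w => (m.restrict A).real (itin ⁻¹' {w}) with ha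
  set b : (Fin L → Fin k) → ℝ := fun w => (m.restrict Aᶜ).real (itin ⁻¹' {w}) with hb
  have ha0 : ∀ w, 0 ≤ a w := fun w => measureReal_nonneg
  have hb0 : ∀ w, 0 ≤ b w := fun w => measureReal_nonneg
  have hab : ∀ w, m.real (itin ⁻¹' {w}) = a w + b w := by
    intro w
    rw [ha, hb]
    simp only [measureReal_restrict_apply (hImeas w)]
    rw [← Set.sdiff_eq]
    exact (measureReal_inter_add_sdiff hA).symm
  have hsa : ∑ w, a w = m.real A := by
    have h1 := sum_measureReal_preimage_singleton (μ := m.restrict A) (f := itin) Finset.univ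
      (fun y _ => hImeas y)
    rw [ha]
    rw [h1]
    simp
  have hsb : ∑ w, b w = m.real Aᶜ := by
    have h1 := sum_measureReal_preimage_singleton (μ := m.restrict Aᶜ) (f := itin) Finset.univ
      (fun y _ => hImeas y)
    rw [hb]
    rw [h1]
    simp
  have hA1 : m.real A ≤ 1 := measureReal_le_one
  have hAc1 : m.real Aᶜ ≤ 1 := measureReal_le_one
  have hmain : blockEntropy f m ξ L ≤ ∑ w, Real.negMulLog (a w) + ∑ w, Real.negMulLog (b w) := by
    unfold blockEntropy
    rw [← Finset.sum_add_distrib]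
    refine Finset.sum_le_sum fun w _ => ?_
    rw [hI w, hab w]
    exact negMulLog_add_le (ha0 w) (hb0 w)
  -- the part inside `A`
  have hfin : {w : Fin L → Fin k | ∃ x ∈ A, ∀ i : Fin L, ξ (f^[i] x) = w i}.Finite :=
    Set.toFinite _
  have h1 : ∑ w, Real.negMulLog (a w) ≤ (∑ w, a w) * Real.log N + 1 := by
    refine sum_negMulLog_le a ha0 (by rw [hsa]; exact hA1) N hfin.toFinset ?_ ?_ hN
    · intro w hw
      rw [ha]
      simp only [measureReal_restrict_apply (hImeas w)]
      have : itin ⁻¹' {w} ∩ A = ∅ := by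
        rw [Set.eq_empty_iff_forall_notMem]
        rintro x ⟨hx1, hx2⟩
        apply hw
        rw [Set.Finite.mem_toFinset]
        refine ⟨x, hx2, fun i => ?_⟩
        exact congrFun hx1 i
      rw [this, measureReal_empty]
    · rwa [← Set.ncard_eq_toFinset_card _ hfin]
  have h2 : ∑ w, Real.negMulLog (b w) ≤ (∑ w, b w) * Real.log ((k ^ L : ℕ) : ℝ) + 1 := by
    refine sum_negMulLog_le b hb0 (by rw [hsb]; exact hAc1) (k ^ L) Finset.univ ?_ ?_ ?_
    · intro w hw
      exact absurd (Finset.mem_univ w) hw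
    · rw [Finset.card_univ]; simp
    · exact Nat.one_le_pow _ _ hk
  rw [hsa] at h1
  rw [hsb, Nat.cast_pow, Real.log_pow] at h2
  have h3 : 0 ≤ Real.log N := Real.log_nonneg (by exact_mod_cast hN)
  have h4 : m.real A * Real.log N ≤ Real.log N := by
    nlinarith
  linarith

end Pool.Agent.Lib.MP_e4ee3e_an
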