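import Pool.Agent.Lib.MP_e4ee3e_an.Setup

/-!
E07. An ergodic measure with positive entropy has no atom. If m{a} > 0: by invariance and
finiteness some f^[p] a = a, p >= 1 (Poincare recurrence, MeasurePreserving.exists_mem_iterate_mem
for the set {a}); O = {f^[i] a : i < p} is finite and f^-1 O contains O, so by ergodicity m O = 1.
Then at most p itineraries have positive measure, so blockEntropy <= p, and the limsup of
blockEntropy / L is <= 0 for every partition.
-/

open MeasureTheory Filter Topology

namespace Pool.Agent.Lib.MP_e4ee3e_an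

attribute [local instance] chMetric

theorem e07_blockEntropy {X : Type*} [MeasurableSpace X] {f : X → X}
    {m : Measure X} [IsProbabilityMeasure m] (O : Finset X) (hO : m (O : Set X)ᶜ = 0)
    {k : ℕ} (ξ : X → Fin k) (L : ℕ) : blockEntropy f m ξ L ≤ O.card := by
  classical
  unfold blockEntropy
  set it : X → (Fin L → Fin k) := fun x i => ξ (f^[i] x) with hit
  set S : Finset (Fin L → Fin k) := O.image it with hS
  have h1 : ∀ w ∉ S, Real.negMulLog (m.real {x | ∀ i : Fin L, ξ (f^[i] x) = w i}) = 0 := by
    intro w hw
    have h2 : {x | ∀ i : Fin L, ξ (f^[i] x) = w i} ⊆ (O : Set X)ᶜ := by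
      intro x hx hxO
      apply hw
      rw [hS, Finset.mem_image]
      exact ⟨x, hxO, funext hx⟩
    have h3 : m.real {x | ∀ i : Fin L, ξ (f^[i] x) = w i} = 0 := by
      rw [measureReal_def, measure_mono_null h2 hO]
      rfl
    rw [h3, Real.negMulLog_zero]
  rw [← Finset.sum_subset (Finset.subset_univ S) (fun w _ hw => h1 w hw)]
  calc ∑ w ∈ S, Real.negMulLog (m.real {x | ∀ i : Fin L, ξ (f^[i] x) = w i})
      ≤ ∑ w ∈ S, (1 : ℝ) := by
        apply Finset.sum_le_sum
        intro w _
        have h4 := Real.negMulLog_le_one_sub_self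
          (measureReal_nonneg (μ := m) (s := {x | ∀ i : Fin L, ξ (f^[i] x) = w i}))
        have h5 := measureReal_nonneg (μ := m) (s := {x | ∀ i : Fin L, ξ (f^[i] x) = w i})
        linarith
    _ = S.card := by simp
    _ ≤ O.card := by exact_mod_cast Finset.card_image_le

theorem no_atom {X : Type*} [MeasurableSpace X] [MeasurableSingletonClass X] {f : X → X}
    {m : Measure X} [IsProbabilityMeasure m] (hm : Ergodic f m) (hent : 0 < ksEntropy f m)
    (a : X) : m {a} = 0 := by
  classical
  by_contra ha
  obtain ⟨x, hx, p, hp, hpx⟩ := hm.toMeasurePreserving.exists_mem_iterate_mem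
    (measurableSet_singleton a).nullMeasurableSet ha
  rw [Set.mem_singleton_iff] at hx hpx
  rw [hx] at hpx
  set O : Finset X := (Finset.range p).image (fun i => f^[i] a) with hO
  have hsub : (O : Set X) ⊆ f ⁻¹' (O : Set X) := by
    intro y hy
    rw [hO, Finset.coe_image, Set.mem_image] at hy
    obtain ⟨i, hi, rfl⟩ := hy
    rw [Finset.coe_range, Set.mem_Iio] at hi
    rw [Set.mem_preimage, hO, Finset.coe_image, Set.mem_image]
    by_cases hip : i + 1 = p
    · refine ⟨0, by simp; omega, ?_⟩
      show a = f (f^[i] a)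
      rw [← Function.iterate_succ_apply' f i a, Nat.succ_eq_add_one, hip, hpx]
    · refine ⟨i + 1, by simp; omega, ?_⟩
      exact Function.iterate_succ_apply' f i a
  have hmeas : MeasurableSet (O : Set X) := O.measurableSet
  have haO : a ∈ (O : Set X) := by
    rw [hO, Finset.coe_image, Set.mem_image]
    exact ⟨0, by simp; omega, rfl⟩
  have hOc : m (O : Set X)ᶜ = 0 := by
    rcases hm.ae_empty_or_univ_of_ae_le_preimage' hmeas.nullMeasurableSet
      (Filter.Eventually.of_forall hsub) (measure_ne_top m _) with h1 | h1
    · exfalso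
      have h2 : m (O : Set X) = 0 := by rw [measure_congr h1, measure_empty]
      exact ha (measure_mono_null (Set.singleton_subset_iff.2 haO) h2)
    · rw [← ae_eq_univ]
      exact h1
  have hle : ksEntropy f m ≤ 0 := by
    unfold ksEntropy
    refine iSup_le fun k => iSup_le fun ξ => iSup_le fun _ => ?_
    have h1 : Tendsto (fun L : ℕ => (((O.card : ℝ) / L : ℝ) : EReal)) atTop (𝓝 0) := by
      have h2 : Tendsto (fun L : ℕ => ((O.card : ℝ) / L : ℝ)) atTop (𝓝 0) :=
        tendsto_const_div_atTop_nhds_zero_nat _
      have h3 := (continuous_coe_real_ereal.tendsto 0).comp h2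
      rw [EReal.coe_zero] at h3
      exact h3
    rw [← h1.limsup_eq]
    apply Filter.limsup_le_limsup
    · refine Filter.Eventually.of_forall fun L => ?_
      apply EReal.coe_le_coe_iff.2
      exact div_le_div_of_nonneg_right (e07_blockEntropy O hOc ξ L) (Nat.cast_nonneg L)
    · isBoundedDefault
    · isBoundedDefault
  exact absurd hent (not_lt.2 hle)

end Pool.Agent.Lib.MP_e4ee3e_an
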