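import Pool.Agent.Lib.MP_e4ee3e_an.KDefs

/-!
K01. Lifts under iterates: existence (t06_iter_lift), uniqueness (iter_path_unique of S09), and functional equations: f^m of a lift under f^(m+n) is a lift under f^n; lifting backwards from the end (t06_iter_lift with t₀ = 1).
-/

open MeasureTheory Filter Topology

namespace Pool.Agent.Lib.MP_e4ee3e_an

variable {P Q : Polynomial ℂ} {d : ℕ}

theorem k01_good {γ : C(unitInterval, OnePoint ℂ)} (hγ : GoodPath P Q γ) (n : ℕ) :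
    ∀ t, γ t ≠ OnePoint.infty ∧ AvoidN P Q n (γ t) := fun t => ⟨(hγ t).1, (hγ t).2 n⟩

theorem liftN_spec (h : RatData P Q d) {γ : C(unitInterval, OnePoint ℂ)} (hγ : GoodPath P Q γ)
    (n : ℕ) {y : OnePoint ℂ} (hy : (ratMap P Q)^[n] y = γ 0) :
    liftN P Q n γ y 0 = y ∧ ∀ t, (ratMap P Q)^[n] (liftN P Q n γ y t) = γ t := by
  have hex : ∃ γ' : C(unitInterval, OnePoint ℂ), γ' 0 = y ∧ ∀ t, (ratMap P Q)^[n] (γ' t) = γ t :=
    t06_iter_lift h n γ (k01_good hγ n) 0 y hy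
  unfold liftN
  rw [dif_pos hex]
  exact hex.choose_spec

theorem liftN_unique (h : RatData P Q d) {γ : C(unitInterval, OnePoint ℂ)} (hγ : GoodPath P Q γ)
    (n : ℕ) {y : OnePoint ℂ} (γ' : C(unitInterval, OnePoint ℂ)) (h0 : γ' 0 = y)
    (hf : ∀ t, (ratMap P Q)^[n] (γ' t) = γ t) : γ' = liftN P Q n γ y := by
  have hy : (ratMap P Q)^[n] y = γ 0 := by rw [← h0, hf]
  obtain ⟨h1, h2⟩ := liftN_spec h hγ n hy
  refine iter_path_unique h n γ' _ 0 (by rw [h0, h1]) (fun t => by rw [hf, h2]) (fun t => ?_)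
  rw [hf]
  exact k01_good hγ n t

theorem liftEnd_fiber (h : RatData P Q d) {γ : C(unitInterval, OnePoint ℂ)} (hγ : GoodPath P Q γ)
    (n : ℕ) {y : OnePoint ℂ} (hy : (ratMap P Q)^[n] y = γ 0) :
    (ratMap P Q)^[n] (liftEnd P Q n γ y) = γ 1 :=
  (liftN_spec h hγ n hy).2 1

theorem liftEnd_iter (h : RatData P Q d) {γ : C(unitInterval, OnePoint ℂ)} (hγ : GoodPath P Q γ)
    (m n : ℕ) {y : OnePoint ℂ} (hy : (ratMap P Q)^[m + n] y = γ 0) :
    (ratMap P Q)^[m] (liftEnd P Q (m + n) γ y) = liftEnd P Q n γ ((ratMap P Q)^[m] y) := by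
  obtain ⟨h1, h2⟩ := liftN_spec h hγ (m + n) hy
  have hc : Continuous ((ratMap P Q)^[m]) := (ratMap_continuous h).iterate m
  let γ' : C(unitInterval, OnePoint ℂ) :=
    ⟨fun t => (ratMap P Q)^[m] (liftN P Q (m + n) γ y t), hc.comp (liftN P Q (m + n) γ y).continuous⟩
  have h3 : γ' = liftN P Q n γ ((ratMap P Q)^[m] y) := by
    apply liftN_unique h hγ n γ'
    · show (ratMap P Q)^[m] (liftN P Q (m + n) γ y 0) = _
      rw [h1]
    · intro t
      show (ratMap P Q)^[n] ((ratMap P Q)^[m] (liftN P Q (m + n) γ y t)) = γ t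
      rw [← Function.iterate_add_apply, add_comm, h2]
  unfold liftEnd
  rw [← h3]
  rfl

theorem liftEnd_surj (h : RatData P Q d) {γ : C(unitInterval, OnePoint ℂ)} (hγ : GoodPath P Q γ)
    (m n : ℕ) {v y₁ : OnePoint ℂ} (hy₁ : (ratMap P Q)^[n] y₁ = γ 0)
    (hv : (ratMap P Q)^[m] v = liftEnd P Q n γ y₁) :
    ∃ y, (ratMap P Q)^[m] y = y₁ ∧ liftEnd P Q (m + n) γ y = v := by
  have hv1 : (ratMap P Q)^[m + n] v = γ 1 := by
    rw [add_comm, Function.iterate_add_apply, hv]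
    exact liftEnd_fiber h hγ n hy₁
  obtain ⟨γ', h1, h2⟩ := t06_iter_lift h (m + n) γ (k01_good hγ (m + n)) 1 v hv1
  have hc : Continuous ((ratMap P Q)^[m]) := (ratMap_continuous h).iterate m
  let γ'' : C(unitInterval, OnePoint ℂ) :=
    ⟨fun t => (ratMap P Q)^[m] (γ' t), hc.comp γ'.continuous⟩
  obtain ⟨h3, h4⟩ := liftN_spec h hγ n hy₁
  have h5 : γ'' = liftN P Q n γ y₁ := by
    refine iter_path_unique h n γ'' _ 1 ?_ (fun t => ?_) (fun t => ?_)
    · show (ratMap P Q)^[m] (γ' 1) = liftN P Q n γ y₁ 1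
      rw [h1, hv]
      rfl
    · show (ratMap P Q)^[n] ((ratMap P Q)^[m] (γ' t)) = _
      rw [← Function.iterate_add_apply, add_comm, h2, h4]
    · show (ratMap P Q)^[n] ((ratMap P Q)^[m] (γ' t)) ≠ _ ∧ AvoidN P Q n ((ratMap P Q)^[n] ((ratMap P Q)^[m] (γ' t)))
      rw [← Function.iterate_add_apply, add_comm, h2]
      exact k01_good hγ n t
  refine ⟨γ' 0, ?_, ?_⟩
  · have h6 : γ'' 0 = liftN P Q n γ y₁ 0 := by rw [h5]
    rw [h3] at h6
    exact h6
  · have h7 := liftN_unique h hγ (m + n) γ' rfl h2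
    unfold liftEnd
    rw [← h7, h1]

end Pool.Agent.Lib.MP_e4ee3e_an
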