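import Pool.Agent.Lib.MP_e4ee3e_an.K01

/-!
K02. Changing a path near time 0 inside a disc without images of marked points (up to level n) does not change the ends of the lifts of level n: take the inverse branch φ on the disc with φ(a) = y (branch_exists); then liftN γ t = φ(γ t) for t <= τ by uniqueness, and the same for γ'; on [τ, 1] both lifts agree by uniqueness.
-/

open MeasureTheory Filter Topology

namespace Pool.Agent.Lib.MP_e4ee3e_an

theorem k02_branch {P Q : Polynomial ℂ} {d : ℕ} (h : RatData P Q d)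
    {γ : C(unitInterval, OnePoint ℂ)} (hγ : GoodPath P Q γ) (n : ℕ)
    (a : ℂ) (η : ℝ) (h0 : γ 0 = (a : OnePoint ℂ)) (τ : unitInterval)
    (hb : ∀ t, t ≤ τ → ∃ z ∈ Metric.ball a η, γ t = ((z : ℂ) : OnePoint ℂ))
    {y : OnePoint ℂ} (hy : (ratMap P Q)^[n] y = (a : OnePoint ℂ)) (φ : ℂ → ℂ)
    (hφ : IsBranch P Q n a η φ) (hφa : ((φ a : ℂ) : OnePoint ℂ) = y) :
    ∀ t, t ≤ τ → ∀ z : ℂ, γ t = (z : OnePoint ℂ) → liftN P Q n γ y t = ((φ z : ℂ) : OnePoint ℂ) := by
  have hsp := liftN_spec h hγ n (y := y) (hy.trans h0.symm)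
  let u : unitInterval → unitInterval := fun x => min x τ
  have hu : Continuous u := continuous_id.min continuous_const
  have hule : ∀ x, u x ≤ τ := fun x => min_le_right _ _
  choose g hgb hg using fun x => hb (u x) (hule x)
  have hgc : Continuous g := by
    rw [(OnePoint.isOpenEmbedding_coe (X := ℂ)).isInducing.continuous_iff]
    have : ((fun z : ℂ => (z : OnePoint ℂ)) ∘ g) = γ ∘ u := by
      funext x
      exact (hg x).symm
    rw [show ((OnePoint.some : ℂ → OnePoint ℂ) ∘ g) = γ ∘ u from this]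
    exact γ.continuous.comp hu
  have hc2 : Continuous fun x => ((φ (g x) : ℂ) : OnePoint ℂ) :=
    OnePoint.continuous_coe.comp (hφ.1.continuousOn.comp_continuous hgc hgb)
  let γ₁ : C(unitInterval, OnePoint ℂ) :=
    ⟨fun x => liftN P Q n γ y (u x), (liftN P Q n γ y).continuous.comp hu⟩
  let γ₂ : C(unitInterval, OnePoint ℂ) := ⟨fun x => ((φ (g x) : ℂ) : OnePoint ℂ), hc2⟩
  have hu0 : u 0 = 0 := min_eq_left unitInterval.nonneg'
  have h12 : γ₁ = γ₂ := by
    refine iter_path_unique h n γ₁ γ₂ 0 ?_ ?_ ?_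
    · change liftN P Q n γ y (u 0) = ((φ (g 0) : ℂ) : OnePoint ℂ)
      have hg0 : g 0 = a := by
        have h1 := hg 0
        rw [hu0, h0] at h1
        exact (OnePoint.coe_injective h1).symm
      rw [hu0, hg0, hsp.1, hφa]
    · intro x
      change (ratMap P Q)^[n] (liftN P Q n γ y (u x)) = (ratMap P Q)^[n] ((φ (g x) : ℂ) : OnePoint ℂ)
      rw [hsp.2, hφ.2 _ (hgb x), hg x]
    · intro x
      change (ratMap P Q)^[n] (liftN P Q n γ y (u x)) ≠ OnePoint.infty ∧
        AvoidN P Q n ((ratMap P Q)^[n] (liftN P Q n γ y (u x)))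
      rw [hsp.2]
      exact ⟨(hγ (u x)).1, (hγ (u x)).2 n⟩
  intro t ht z hz
  have hut : u t = t := min_eq_left ht
  have h3 := DFunLike.congr_fun h12 t
  change liftN P Q n γ y (u t) = ((φ (g t) : ℂ) : OnePoint ℂ) at h3
  have hgt : g t = z := by
    have h1 := hg t
    rw [hut, hz] at h1
    exact (OnePoint.coe_injective h1).symm
  rwa [hut, hgt] at h3

theorem liftEnd_congr {P Q : Polynomial ℂ} {d : ℕ} (h : RatData P Q d)
    {γ γ' : C(unitInterval, OnePoint ℂ)} (hγ : GoodPath P Q γ) (hγ' : GoodPath P Q γ') (n : ℕ)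
    (a : ℂ) (η : ℝ) (hη : 0 < η) (hok : DiscOK P Q n a η) (h0 : γ 0 = (a : OnePoint ℂ))
    (h0' : γ' 0 = (a : OnePoint ℂ)) (τ : unitInterval) (hτ : ∀ t, τ ≤ t → γ t = γ' t)
    (hb : ∀ t, t ≤ τ → ∃ z ∈ Metric.ball a η, γ t = ((z : ℂ) : OnePoint ℂ))
    (hb' : ∀ t, t ≤ τ → ∃ z ∈ Metric.ball a η, γ' t = ((z : ℂ) : OnePoint ℂ))
    {y : OnePoint ℂ} (hy : (ratMap P Q)^[n] y = (a : OnePoint ℂ)) :
    liftEnd P Q n γ y = liftEnd P Q n γ' y := by
  obtain ⟨φ, hφ, hφa⟩ := branch_exists h n a η hη hok y hy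
  have h1 := k02_branch h hγ n a η h0 τ hb hy φ hφ hφa
  have h2 := k02_branch h hγ' n a η h0' τ hb' hy φ hφ hφa
  have hsp := liftN_spec h hγ n (y := y) (hy.trans h0.symm)
  have hsp' := liftN_spec h hγ' n (y := y) (hy.trans h0'.symm)
  let u : unitInterval → unitInterval := fun x => max x τ
  have hu : Continuous u := continuous_id.max continuous_const
  have hule : ∀ x, τ ≤ u x := fun x => le_max_right _ _
  let γ₁ : C(unitInterval, OnePoint ℂ) :=
    ⟨fun x => liftN P Q n γ y (u x), (liftN P Q n γ y).continuous.comp hu⟩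
  let γ₂ : C(unitInterval, OnePoint ℂ) :=
    ⟨fun x => liftN P Q n γ' y (u x), (liftN P Q n γ' y).continuous.comp hu⟩
  have huτ : u τ = τ := max_self τ
  have hu1 : u 1 = 1 := max_eq_left unitInterval.le_one'
  have h12 : γ₁ = γ₂ := by
    refine iter_path_unique h n γ₁ γ₂ τ ?_ ?_ ?_
    · change liftN P Q n γ y (u τ) = liftN P Q n γ' y (u τ)
      obtain ⟨z, -, hz⟩ := hb τ le_rfl
      have hz' : γ' τ = (z : OnePoint ℂ) := by
        rw [← hτ τ le_rfl, hz]
      rw [huτ, h1 τ le_rfl z hz, h2 τ le_rfl z hz']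
    · intro x
      change (ratMap P Q)^[n] (liftN P Q n γ y (u x)) = (ratMap P Q)^[n] (liftN P Q n γ' y (u x))
      rw [hsp.2, hsp'.2, hτ _ (hule x)]
    · intro x
      change (ratMap P Q)^[n] (liftN P Q n γ y (u x)) ≠ OnePoint.infty ∧
        AvoidN P Q n ((ratMap P Q)^[n] (liftN P Q n γ y (u x)))
      rw [hsp.2]
      exact ⟨(hγ (u x)).1, (hγ (u x)).2 n⟩
  have h3 := DFunLike.congr_fun h12 1
  change liftN P Q n γ y (u 1) = liftN P Q n γ' y (u 1) at h3
  rw [hu1] at h3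
  exact h3

end Pool.Agent.Lib.MP_e4ee3e_an
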