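import Pool.Agent.Lib.MP_e4ee3e_an.KDefs

/-!
K03. A disc without images of marked points up to level n (marked_finite).
-/

open MeasureTheory Filter Topology

namespace Pool.Agent.Lib.MP_e4ee3e_an

theorem exists_discOK {P Q : Polynomial ℂ} {d : ℕ} (h : RatData P Q d) (a : ℂ) (n : ℕ)
    (ha : AvoidN P Q n (a : OnePoint ℂ)) : ∃ η : ℝ, 0 < η ∧ DiscOK P Q n a η := by
  have hfin : (⋃ k ∈ Finset.Icc 1 n, (ratMap P Q)^[k] '' marked P Q).Finite :=
    Set.Finite.biUnion (Finset.finite_toSet _) fun k _ => (marked_finite h).image _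
  have hfin2 : ((fun z : ℂ => (z : OnePoint ℂ)) ⁻¹'
      (⋃ k ∈ Finset.Icc 1 n, (ratMap P Q)^[k] '' marked P Q)).Finite :=
    hfin.preimage (OnePoint.coe_injective.injOn)
  have hopen := hfin2.isClosed.isOpen_compl
  have hmem : a ∈ ((fun z : ℂ => (z : OnePoint ℂ)) ⁻¹'
      (⋃ k ∈ Finset.Icc 1 n, (ratMap P Q)^[k] '' marked P Q))ᶜ := by
    intro hc
    simp only [Set.mem_preimage, Set.mem_iUnion, Set.mem_image, Finset.mem_Icc] at hc
    obtain ⟨k, ⟨hk1, hk2⟩, c, hc, hck⟩ := hc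
    exact ha k hk1 hk2 c hc hck
  obtain ⟨η, hη, hsub⟩ := Metric.isOpen_iff.1 hopen a hmem
  refine ⟨η, hη, fun w hw k hk1 hk2 c hc hck => ?_⟩
  refine hsub hw ?_
  simp only [Set.mem_preimage, Set.mem_iUnion, Set.mem_image, Finset.mem_Icc]
  exact ⟨k, ⟨hk1, hk2⟩, c, hc, hck⟩

end Pool.Agent.Lib.MP_e4ee3e_an
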