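import Pool.Agent.Lib.MP_e4ee3e_an.K01

/-!
K04. Insert the loop f^n∘π at the beginning of ξ: choose τ < ε with ξ [0,τ] in the disc; ξ' t = f^n (π (2t/τ)) on [0,τ/2], ξ (2t - τ) on [τ/2, τ], ξ t on [τ,1]. Its lift from y is π, then liftN n ξ s.
-/

open MeasureTheory Filter Topology

namespace Pool.Agent.Lib.MP_e4ee3e_an

theorem k04_tau (ξ : C(unitInterval, OnePoint ℂ)) (a : ℂ) (h0 : ξ 0 = (a : OnePoint ℂ))
    (ε : ℝ) (hε : 0 < ε) :
    ∃ τ : unitInterval, 0 < (τ : ℝ) ∧ (τ : ℝ) < ε ∧ (τ : ℝ) < 1 ∧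
      ∀ t, t ≤ τ → ∃ z ∈ Metric.ball a ε, ξ t = ((z : ℂ) : OnePoint ℂ) := by
  have hop : IsOpen (ξ ⁻¹' ((fun z : ℂ => (z : OnePoint ℂ)) '' Metric.ball a ε)) :=
    ((OnePoint.isOpenEmbedding_coe (X := ℂ)).isOpenMap _ Metric.isOpen_ball).preimage ξ.continuous
  have hmem : (0 : unitInterval) ∈ ξ ⁻¹' ((fun z : ℂ => (z : OnePoint ℂ)) '' Metric.ball a ε) :=
    ⟨a, Metric.mem_ball_self hε, h0.symm⟩
  obtain ⟨δ, hδ, hball⟩ := Metric.isOpen_iff.mp hop 0 hmem
  have hp : 0 < min (δ / 2) (min (ε / 2) (1 / 2)) := by positivity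
  have h1 : min (δ / 2) (min (ε / 2) (1 / 2)) ≤ δ / 2 := min_le_left _ _
  have h2 : min (δ / 2) (min (ε / 2) (1 / 2)) ≤ ε / 2 := (min_le_right _ _).trans (min_le_left _ _)
  have h3 : min (δ / 2) (min (ε / 2) (1 / 2)) ≤ 1 / 2 := (min_le_right _ _).trans (min_le_right _ _)
  refine ⟨⟨min (δ / 2) (min (ε / 2) (1 / 2)), hp.le, by linarith⟩, hp, ?_, ?_, ?_⟩
  · change min (δ / 2) (min (ε / 2) (1 / 2)) < ε
    linarith
  · change min (δ / 2) (min (ε / 2) (1 / 2)) < 1
    linarith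
  · intro t ht
    have htr : (t : ℝ) ≤ min (δ / 2) (min (ε / 2) (1 / 2)) := ht
    have : t ∈ Metric.ball (0 : unitInterval) δ := by
      rw [Metric.mem_ball, Subtype.dist_eq, Real.dist_eq]
      have h4 : |(t : ℝ) - ((0 : unitInterval) : ℝ)| = t := by
        rw [Set.Icc.coe_zero, sub_zero, abs_of_nonneg t.2.1]
      rw [h4]
      linarith
    obtain ⟨z, hz, hzt⟩ := hball this
    exact ⟨z, hz, hzt.symm⟩

theorem exists_modify {P Q : Polynomial ℂ} {d : ℕ} (h : RatData P Q d)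
    {ξ : C(unitInterval, OnePoint ℂ)} (hξ : GoodPath P Q ξ) (a : ℂ) (h0 : ξ 0 = (a : OnePoint ℂ))
    (n : ℕ) {y s : OnePoint ℂ} (hy : (ratMap P Q)^[n] y = (a : OnePoint ℂ))
    (hs : (ratMap P Q)^[n] s = (a : OnePoint ℂ)) (ε : ℝ) (hε : 0 < ε)
    (π : C(unitInterval, OnePoint ℂ)) (hπ0 : π 0 = y) (hπ1 : π 1 = s)
    (hπ : ∀ t, ∃ z ∈ Metric.ball a ε, (ratMap P Q)^[n] (π t) = ((z : ℂ) : OnePoint ℂ) ∧
      ∀ k, AvoidN P Q k ((z : ℂ) : OnePoint ℂ)) :
    ∃ ξ' : C(unitInterval, OnePoint ℂ), GoodPath P Q ξ' ∧ ξ' 0 = (a : OnePoint ℂ) ∧ ξ' 1 = ξ 1 ∧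
      Modifies a ε ξ ξ' ∧ liftEnd P Q n ξ' y = liftEnd P Q n ξ s := by
  obtain ⟨τ, hτ0, hτε, hτ1, hτb⟩ := k04_tau ξ a h0 ε hε
  have hsp := liftN_spec h hξ n (y := s) (hs.trans h0.symm)
  have hfc : Continuous (ratMap P Q)^[n] := (ratMap_continuous h).iterate n
  -- the two reparametrisations
  let v : unitInterval → unitInterval := fun t =>
    ⟨min 1 (2 * (t : ℝ) / τ), by
      have ht := t.2.1
      exact ⟨le_min zero_le_one (by positivity), min_le_left _ _⟩⟩
  let w : unitInterval → unitInterval := fun t =>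
    ⟨max 0 (min (2 * (t : ℝ) - τ) t), le_max_left _ _,
      max_le zero_le_one ((min_le_right _ _).trans t.2.2)⟩
  have hvc : Continuous v := by
    refine Continuous.subtype_mk ?_ _
    exact continuous_const.min ((continuous_const.mul continuous_subtype_val).div_const _)
  have hwc : Continuous w := by
    refine Continuous.subtype_mk ?_ _
    exact continuous_const.max (((continuous_const.mul continuous_subtype_val).sub
      continuous_const).min continuous_subtype_val)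
  let L := liftN P Q n ξ s
  let Γ : unitInterval → OnePoint ℂ := fun t => if (t : ℝ) ≤ (τ : ℝ) / 2 then π (v t) else L (w t)
  have hΓc : Continuous Γ := by
    refine Continuous.if_le (π.continuous.comp hvc) (L.continuous.comp hwc)
      continuous_subtype_val continuous_const ?_
    intro t ht
    have hv1 : v t = 1 := by
      apply Subtype.ext
      change min 1 (2 * (t : ℝ) / τ) = 1
      have : 2 * (t : ℝ) / τ = 1 := by
        rw [ht]
        field_simp
      rw [this, min_self]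
    have hw0 : w t = 0 := by
      apply Subtype.ext
      change max 0 (min (2 * (t : ℝ) - τ) t) = 0
      apply max_eq_left
      refine (min_le_left _ _).trans ?_
      rw [ht]
      linarith
    change π (v t) = L (w t)
    rw [hv1, hw0, hπ1]
    exact hsp.1.symm
  have hw1 : w 1 = 1 := by
    apply Subtype.ext
    change max 0 (min (2 * ((1 : unitInterval) : ℝ) - τ) ((1 : unitInterval) : ℝ)) = 1
    rw [Set.Icc.coe_one, min_eq_right (by linarith)]
    exact max_eq_right zero_le_one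
  have hv0 : v 0 = 0 := by
    apply Subtype.ext
    change min 1 (2 * ((0 : unitInterval) : ℝ) / τ) = 0
    rw [Set.Icc.coe_zero, mul_zero, zero_div]
    exact min_eq_right zero_le_one
  have hΓ0 : Γ 0 = y := by
    change (if ((0 : unitInterval) : ℝ) ≤ (τ : ℝ) / 2 then π (v 0) else L (w 0)) = y
    rw [if_pos (by rw [Set.Icc.coe_zero]; positivity), hv0, hπ0]
  have hΓ1 : Γ 1 = L 1 := by
    change (if ((1 : unitInterval) : ℝ) ≤ (τ : ℝ) / 2 then π (v 1) else L (w 1)) = L 1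
    rw [if_neg (by rw [Set.Icc.coe_one]; linarith), hw1]
  -- values
  have hcase : ∀ t, (∃ z ∈ Metric.ball a ε, (ratMap P Q)^[n] (Γ t) = ((z : ℂ) : OnePoint ℂ) ∧
      ∀ k, AvoidN P Q k ((z : ℂ) : OnePoint ℂ)) ∨
      ((τ : ℝ) / 2 < t ∧ (ratMap P Q)^[n] (Γ t) = ξ (w t)) := by
    intro t
    by_cases ht : (t : ℝ) ≤ (τ : ℝ) / 2
    · left
      have h1 : Γ t = π (v t) := if_pos ht
      rw [h1]
      exact hπ (v t)
    · right
      have h1 : Γ t = L (w t) := if_neg ht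
      rw [h1]
      exact ⟨not_le.mp ht, hsp.2 _⟩
  let ξ' : C(unitInterval, OnePoint ℂ) := ⟨fun t => (ratMap P Q)^[n] (Γ t), hfc.comp hΓc⟩
  have hξ'v : ∀ t, ξ' t = (ratMap P Q)^[n] (Γ t) := fun t => rfl
  have hgood : GoodPath P Q ξ' := by
    intro t
    rw [hξ'v]
    rcases hcase t with ⟨z, -, hz, hav⟩ | ⟨-, hz⟩
    · rw [hz]
      exact ⟨OnePoint.coe_ne_infty _, hav⟩
    · rw [hz]
      exact hξ _
  refine ⟨ξ', hgood, ?_, ?_, ?_, ?_⟩
  · rw [hξ'v, hΓ0, hy]
  · rw [hξ'v, hΓ1]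
    exact hsp.2 1
  · refine ⟨τ, hτ0, hτε, ?_, ?_⟩
    · intro t ht
      have htr : (τ : ℝ) ≤ t := ht
      have hwt : w t = t := by
        apply Subtype.ext
        change max 0 (min (2 * (t : ℝ) - τ) t) = t
        rw [min_eq_right (by linarith)]
        exact max_eq_right t.2.1
      have h1 : Γ t = L (w t) := if_neg (by linarith)
      rw [hξ'v, h1, hwt]
      exact (hsp.2 t).symm
    · intro t ht
      refine ⟨hτb t ht, ?_⟩
      rw [hξ'v]
      rcases hcase t with ⟨z, hz1, hz, -⟩ | ⟨-, hz⟩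
      · exact ⟨z, hz1, hz⟩
      · rw [hz]
        apply hτb
        have htr : (t : ℝ) ≤ τ := ht
        change max 0 (min (2 * (t : ℝ) - τ) t) ≤ (τ : ℝ)
        exact max_le hτ0.le ((min_le_right _ _).trans htr)
  · have hun := liftN_unique h hgood n (y := y) ⟨Γ, hΓc⟩ hΓ0 (fun t => rfl)
    change liftN P Q n ξ' y 1 = liftN P Q n ξ s 1
    rw [← hun]
    exact hΓ1

end Pool.Agent.Lib.MP_e4ee3e_an
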