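import Mathlib

/-!
K05. Open connected plane sets minus countable sets are path connected. For a disc: it is
homeomorphic to the plane (`univBall`). Then the chain argument: the set of points of W near which
every point off S is joined to x, and the set of points near which none is, are open.
-/

open MeasureTheory Filter Topology

namespace Pool.Agent.Lib.MP_e4ee3e_an

theorem k05_ball {c : ℂ} {r : ℝ} (hr : 0 < r) {S : Set ℂ} (hS : S.Countable) :
    IsPathConnected (Metric.ball c r \ S) := by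
  set φ := OpenPartialHomeomorph.univBall c r with hφ
  have hsrc : φ.source = Set.univ := OpenPartialHomeomorph.univBall_source c r
  have htgt : φ.target = Metric.ball c r := OpenPartialHomeomorph.univBall_target c hr
  have hcont : Continuous φ := by
    have := φ.continuousOn
    rwa [hsrc, ← continuousOn_univ] at *
  have hinj : Function.Injective φ := by
    have := φ.injOn
    rwa [hsrc, Set.injOn_univ] at this
  have h1 : (φ ⁻¹' S).Countable := hS.preimage hinj
  have h2 : 1 < Module.rank ℝ ℂ := by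
    rw [Complex.rank_real_complex]
    exact Cardinal.one_lt_two
  have h3 := (h1.isPathConnected_compl_of_one_lt_rank h2).image hcont
  have h4 : φ '' (φ ⁻¹' S)ᶜ = Metric.ball c r \ S := by
    have h5 : Set.range φ = Metric.ball c r := by
      rw [← htgt, ← φ.image_source_eq_target, hsrc, Set.image_univ]
    rw [← Set.preimage_compl, Set.image_preimage_eq_inter_range, h5, Set.inter_comm, Set.sdiff_eq]
  rwa [h4] at h3

theorem exists_path_avoid {W : Set ℂ} (hW : IsOpen W) (hc : IsPreconnected W) (S : Set ℂ)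
    (hS : S.Countable) {x y : ℂ} (hx : x ∈ W \ S) (hy : y ∈ W \ S) :
    ∃ π : C(unitInterval, ℂ), π 0 = x ∧ π 1 = y ∧ ∀ t, π t ∈ W \ S := by
  have hball : ∀ z ∈ W, ∃ r > 0, Metric.ball z r ⊆ W := fun z hz => Metric.isOpen_iff.1 hW z hz
  have hjoin : ∀ (z : ℂ) (r : ℝ), Metric.ball z r ⊆ W → ∀ u ∈ Metric.ball z r \ S,
      ∀ v ∈ Metric.ball z r \ S, JoinedIn (W \ S) u v := by
    intro z r hr u hu v hv
    have hr0 : 0 < r := Metric.pos_of_mem_ball hu.1
    have h1 := (k05_ball (c := z) hr0 hS).joinedIn u hu v hv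
    exact h1.mono (Set.sdiff_subset_sdiff_left hr)
  set U1 : Set ℂ := {z | ∃ r > 0, Metric.ball z r ⊆ W ∧
    ∀ u ∈ Metric.ball z r \ S, JoinedIn (W \ S) x u} with hU1
  set U2 : Set ℂ := {z | ∃ r > 0, Metric.ball z r ⊆ W ∧
    ∀ u ∈ Metric.ball z r \ S, ¬ JoinedIn (W \ S) x u} with hU2
  have hshrink : ∀ (z z' : ℂ) (r : ℝ), z' ∈ Metric.ball z r →
      0 < r - dist z' z ∧ Metric.ball z' (r - dist z' z) ⊆ Metric.ball z r := by
    intro z z' r hz'
    rw [Metric.mem_ball] at hz'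
    exact ⟨by linarith, Metric.ball_subset_ball' (by linarith)⟩
  have ho1 : IsOpen U1 := by
    rw [Metric.isOpen_iff]
    rintro z ⟨r, hr, hrW, hj⟩
    refine ⟨r, hr, fun z' hz' => ?_⟩
    obtain ⟨h1, h2⟩ := hshrink z z' r hz'
    exact ⟨_, h1, h2.trans hrW, fun u hu => hj u ⟨h2 hu.1, hu.2⟩⟩
  have ho2 : IsOpen U2 := by
    rw [Metric.isOpen_iff]
    rintro z ⟨r, hr, hrW, hj⟩
    refine ⟨r, hr, fun z' hz' => ?_⟩
    obtain ⟨h1, h2⟩ := hshrink z z' r hz'
    exact ⟨_, h1, h2.trans hrW, fun u hu => hj u ⟨h2 hu.1, hu.2⟩⟩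
  have hdisj : Disjoint U1 U2 := by
    rw [Set.disjoint_left]
    rintro z ⟨r, hr, -, hj⟩ ⟨r', hr', -, hj'⟩
    have hm : 0 < min r r' := lt_min hr hr'
    obtain ⟨u, hu⟩ := (k05_ball (c := z) hm hS).nonempty
    exact hj' u ⟨Metric.ball_subset_ball (min_le_right _ _) hu.1, hu.2⟩
      (hj u ⟨Metric.ball_subset_ball (min_le_left _ _) hu.1, hu.2⟩)
  have hcov : W ⊆ U1 ∪ U2 := by
    intro z hz
    obtain ⟨r, hr, hrW⟩ := hball z hz
    by_cases hex : ∃ u ∈ Metric.ball z r \ S, JoinedIn (W \ S) x u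
    · obtain ⟨u, hu, hxu⟩ := hex
      exact Or.inl ⟨r, hr, hrW, fun v hv => hxu.trans (hjoin z r hrW u hu v hv)⟩
    · push Not at hex
      exact Or.inr ⟨r, hr, hrW, hex⟩
  have hx1 : (W ∩ U1).Nonempty := by
    obtain ⟨r, hr, hrW⟩ := hball x hx.1
    exact ⟨x, hx.1, r, hr, hrW, fun v hv => hjoin x r hrW x ⟨Metric.mem_ball_self hr, hx.2⟩ v hv⟩
  have hsub := hc.subset_left_of_subset_union ho1 ho2 hdisj hcov hx1
  obtain ⟨r, hr, -, hj⟩ := hsub hy.1
  have hxy : JoinedIn (W \ S) x y := hj y ⟨Metric.mem_ball_self hr, hy.2⟩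
  obtain ⟨γ, hγ⟩ := hxy
  exact ⟨γ.toContinuousMap, γ.source, γ.target, hγ⟩

end Pool.Agent.Lib.MP_e4ee3e_an
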