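import Pool.Agent.Lib.MP_e4ee3e_an.Setup

/-!
S06. Non-marked points are not critical: at a finite x with non-zero Wronskian, either Q x nonzero
and P/Q has nonzero derivative W/Q^2 at x, so it is injective near x (HasStrictDerivAt), or
Q x = 0, P x nonzero, and Q/P has nonzero derivative -W/P^2; use that near x
ratMap = ratio (P x) (Q x) and ratio a b = ratio a' b' iff a b' = a' b for nonzero pairs.
-/

open MeasureTheory Filter Topology

namespace Pool.Agent.Lib.MP_e4ee3e_an

attribute [local instance] chMetric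

lemma s06_inj {g : ℂ → ℂ} {g' y : ℂ} (hg : HasStrictDerivAt g g' y) (h0 : g' ≠ 0) :
    ∃ V ∈ 𝓝 y, Set.InjOn g V := by
  refine ⟨{x | hg.localInverse g g' y h0 (g x) = x}, hg.eventually_left_inverse h0, ?_⟩
  intro x hx x' hx' h
  have h1 : hg.localInverse g g' y h0 (g x) = x := hx
  have h2 : hg.localInverse g g' y h0 (g x') = x' := hx'
  rw [← h1, ← h2, h]

lemma s06_strict (P : Polynomial ℂ) (y : ℂ) :
    HasStrictDerivAt (fun x => P.eval x) ((Polynomial.derivative P).eval y) y :=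
  P.hasStrictDerivAt y

lemma s06_ratMap_coe (P Q : Polynomial ℂ) (x : ℂ) :
    ratMap P Q (x : OnePoint ℂ) = ratio (P.eval x) (Q.eval x) := rfl

lemma s06_ratio_eq {a b a' b' : ℂ} (h : ratio a b = ratio a' b') :
    b / a = b' / a' := by
  unfold ratio at h
  split_ifs at h with hb hb' hb'
  · rw [hb, hb']
    simp
  · exact absurd h.symm (OnePoint.coe_ne_infty _)
  · exact absurd h (OnePoint.coe_ne_infty _)
  · have h1 : a / b = a' / b' := OnePoint.coe_injective h
    rw [← inv_div a b, ← inv_div a' b', h1]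

lemma s06_ratio_eq' {a b a' b' : ℂ} (hb : b ≠ 0) (hb' : b' ≠ 0) (h : ratio a b = ratio a' b') :
    a / b = a' / b' := by
  unfold ratio at h
  rw [if_neg hb, if_neg hb'] at h
  exact OnePoint.coe_injective h

lemma s06_nhds {y : ℂ} {V : Set ℂ} (hV : V ∈ 𝓝 y) :
    (fun x : ℂ => (x : OnePoint ℂ)) '' V ∈ 𝓝 (y : OnePoint ℂ) := by
  rw [OnePoint.nhds_coe_eq]
  exact Filter.image_mem_map hV

theorem marked_of_isCritPt {P Q : Polynomial ℂ} {d : ℕ} (h : RatData P Q d) {c : OnePoint ℂ}
    (hc : IsCritPt (ratMap P Q) c) : c ∈ marked P Q := by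
  by_contra hm
  have hm' : ¬ (c = OnePoint.infty ∨ ∃ y : ℂ, c = (y : OnePoint ℂ) ∧
    (Polynomial.derivative P * Q - P * Polynomial.derivative Q).eval y = 0) := hm
  push Not at hm'
  obtain ⟨hinf, hW⟩ := hm'
  obtain ⟨y, rfl⟩ : ∃ y : ℂ, (y : OnePoint ℂ) = c := OnePoint.ne_infty_iff_exists.1 hinf
  have hW' := hW y rfl
  simp only [Polynomial.eval_sub, Polynomial.eval_mul] at hW'
  by_cases hQ : Q.eval y = 0
  · have hP : P.eval y ≠ 0 := by
      intro hP
      apply hW'
      rw [hP, hQ]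
      ring
    have hg := (s06_strict Q y).div (s06_strict P y) hP
    have hne : ((Polynomial.derivative Q).eval y * P.eval y -
        Q.eval y * (Polynomial.derivative P).eval y) / (P.eval y) ^ 2 ≠ 0 := by
      apply div_ne_zero _ (pow_ne_zero _ hP)
      intro h0
      apply hW'
      linear_combination -h0
    obtain ⟨V, hV, hinj⟩ := s06_inj hg hne
    have hP1 : {x : ℂ | P.eval x ≠ 0} ∈ 𝓝 y :=
      (P.continuous.continuousAt).eventually_ne hP
    apply hc _ (s06_nhds (Filter.inter_mem hV hP1))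
    rintro _ ⟨x, hx, rfl⟩ _ ⟨x', hx', rfl⟩ hxx
    have h1 : ratio (P.eval x) (Q.eval x) = ratio (P.eval x') (Q.eval x') := hxx
    have h2 := s06_ratio_eq h1
    have h3 : x = x' := hinj hx.1 hx'.1 h2
    rw [h3]
  · have hg := (s06_strict P y).div (s06_strict Q y) hQ
    have hne : ((Polynomial.derivative P).eval y * Q.eval y -
        P.eval y * (Polynomial.derivative Q).eval y) / (Q.eval y) ^ 2 ≠ 0 :=
      div_ne_zero hW' (pow_ne_zero _ hQ)
    obtain ⟨V, hV, hinj⟩ := s06_inj hg hne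
    have hQ1 : {x : ℂ | Q.eval x ≠ 0} ∈ 𝓝 y :=
      (Q.continuous.continuousAt).eventually_ne hQ
    apply hc _ (s06_nhds (Filter.inter_mem hV hQ1))
    rintro _ ⟨x, hx, rfl⟩ _ ⟨x', hx', rfl⟩ hxx
    have h1 : ratio (P.eval x) (Q.eval x) = ratio (P.eval x') (Q.eval x') := hxx
    have h2 := s06_ratio_eq' hx.2 hx'.2 h1
    have h3 : x = x' := hinj hx.1 hx'.1 h2
    rw [h3]

end Pool.Agent.Lib.MP_e4ee3e_an
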