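import Pool.Agent.Lib.MP_e4ee3e_an.K01
import Pool.Agent.Lib.MP_e4ee3e_an.S06

/-!
K07. The tree with root a, curves constant and γ. edge n α = constant at vtx n α if α n = 0, liftN n γ (vtx n α) otherwise; vtx (n+1) α maps to vtx n (shift α) (induction); unique lifts by path_unique (the edges lie over the plane minus images of marked points); critical points are marked (marked_of_isCritPt).
-/

open MeasureTheory Filter Topology

namespace Pool.Agent.Lib.MP_e4ee3e_an

variable {P Q : Polynomial ℂ} {d : ℕ}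

theorem k07_vtx_congr (γ : C(unitInterval, OnePoint ℂ)) (n : ℕ) (α β : ℕ → Fin 2)
    (h : ∀ i < n, α i = β i) : vtx P Q γ n α = vtx P Q γ n β := by
  induction n with
  | zero => rfl
  | succ n ih =>
    simp only [vtx]
    rw [ih (fun i hi => h i (by omega)), h n (by omega)]

theorem k07_fiber (h : RatData P Q d) {γ : C(unitInterval, OnePoint ℂ)} (hγ : GoodPath P Q γ)
    {a a' : OnePoint ℂ} (h0 : γ 0 = a) (h1 : γ 1 = a') (hfa : ratMap P Q a = a)
    (hfa' : ratMap P Q a' = a) (n : ℕ) (α : ℕ → Fin 2) :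
    (ratMap P Q)^[n] (vtx P Q γ n α) = a := by
  induction n with
  | zero => exact h0
  | succ n ih =>
    rw [Function.iterate_succ_apply']
    simp only [vtx]
    split_ifs with h2
    · rw [ih, hfa]
    · rw [liftEnd_fiber h hγ n (by rw [ih, h0]), h1, hfa']

theorem k07_lift0 (h : RatData P Q d) {γ : C(unitInterval, OnePoint ℂ)} (hγ : GoodPath P Q γ) :
    liftN P Q 0 γ (γ 0) = γ := (liftN_unique h hγ 0 γ rfl (fun _ => rfl)).symm

theorem k07_shift (h : RatData P Q d) {γ : C(unitInterval, OnePoint ℂ)} (hγ : GoodPath P Q γ)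
    {a a' : OnePoint ℂ} (h0 : γ 0 = a) (h1 : γ 1 = a') (hfa : ratMap P Q a = a)
    (hfa' : ratMap P Q a' = a) (n : ℕ) (α : ℕ → Fin 2) :
    ratMap P Q (vtx P Q γ (n + 1) α) = vtx P Q γ n (shift α) := by
  induction n with
  | zero =>
    simp only [vtx]
    split_ifs with h2
    · rw [h0, hfa]
    · unfold liftEnd
      rw [k07_lift0 h hγ, h1, hfa', h0]
  | succ n ih =>
    have h3 : vtx P Q γ (n + 1 + 1) α = if α (n + 1) = 0 then vtx P Q γ (n + 1) α else
      liftEnd P Q (n + 1) γ (vtx P Q γ (n + 1) α) := rfl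
    have h4 : vtx P Q γ (n + 1) (shift α) = if α (n + 1) = 0 then vtx P Q γ n (shift α) else
      liftEnd P Q n γ (vtx P Q γ n (shift α)) := rfl
    rw [h3, h4]
    split_ifs with h2
    · exact ih
    · have h5 := liftEnd_iter h hγ 1 n (y := vtx P Q γ (n + 1) α) (by
        rw [add_comm 1 n, k07_fiber h hγ h0 h1 hfa hfa', h0])
      rw [add_comm 1 n] at h5
      simp only [Function.iterate_one] at h5
      rw [h5, ih]

/-- the edges -/
noncomputable def k07_edge (P Q : Polynomial ℂ) (γ : C(unitInterval, OnePoint ℂ)) (n : ℕ)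
    (α : ℕ → Fin 2) : C(unitInterval, OnePoint ℂ) :=
  if α n = 0 then ContinuousMap.const _ (vtx P Q γ n α) else liftN P Q n γ (vtx P Q γ n α)

theorem k07_edge_zero (h : RatData P Q d) {γ : C(unitInterval, OnePoint ℂ)} (hγ : GoodPath P Q γ)
    {a a' : OnePoint ℂ} (h0 : γ 0 = a) (h1 : γ 1 = a') (hfa : ratMap P Q a = a)
    (hfa' : ratMap P Q a' = a) (n : ℕ) (α : ℕ → Fin 2) :
    k07_edge P Q γ n α 0 = vtx P Q γ n α := by
  unfold k07_edge
  split_ifs with h2
  · rfl
  · exact (liftN_spec h hγ n (by rw [k07_fiber h hγ h0 h1 hfa hfa', h0])).1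

theorem k07_edge_one (γ : C(unitInterval, OnePoint ℂ)) (n : ℕ) (α : ℕ → Fin 2) :
    k07_edge P Q γ n α 1 = vtx P Q γ (n + 1) α := by
  unfold k07_edge
  simp only [vtx]
  split_ifs with h2
  · rfl
  · rfl

theorem k07_edge_iter (h : RatData P Q d) {γ : C(unitInterval, OnePoint ℂ)} (hγ : GoodPath P Q γ)
    {a a' : OnePoint ℂ} (h0 : γ 0 = a) (h1 : γ 1 = a') (hfa : ratMap P Q a = a)
    (hfa' : ratMap P Q a' = a) (n : ℕ) (α : ℕ → Fin 2) (t : unitInterval) :
    ∃ s, (ratMap P Q)^[n] (k07_edge P Q γ n α t) = γ s := by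
  unfold k07_edge
  split_ifs with h2
  · refine ⟨0, ?_⟩
    show (ratMap P Q)^[n] (vtx P Q γ n α) = γ 0
    rw [k07_fiber h hγ h0 h1 hfa hfa', h0]
  · exact ⟨t, (liftN_spec h hγ n (by rw [k07_fiber h hγ h0 h1 hfa hfa', h0])).2 t⟩

theorem k07_edge_good (h : RatData P Q d) {γ : C(unitInterval, OnePoint ℂ)} (hγ : GoodPath P Q γ)
    {a a' : OnePoint ℂ} (h0 : γ 0 = a) (h1 : γ 1 = a') (hfa : ratMap P Q a = a)
    (hfa' : ratMap P Q a' = a) (n : ℕ) (α : ℕ → Fin 2) (t : unitInterval) :
    k07_edge P Q γ n α t ∈ good1 P Q := by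
  obtain ⟨s, hs⟩ := k07_edge_iter h hγ h0 h1 hfa hfa' n α t
  refine ⟨fun h2 => ?_, fun c hc h2 => ?_⟩
  · rw [h2] at hs
    rcases Nat.eq_zero_or_pos n with rfl | hn
    · exact (hγ s).1 hs.symm
    · exact (hγ s).2 n n hn le_rfl _ (Or.inl rfl) hs
  · rw [← h2, ← Function.iterate_succ_apply] at hs
    exact (hγ s).2 (n + 1) (n + 1) (by omega) le_rfl c hc hs

theorem k07_edge_map (h : RatData P Q d) {γ : C(unitInterval, OnePoint ℂ)} (hγ : GoodPath P Q γ)
    {a a' : OnePoint ℂ} (h0 : γ 0 = a) (h1 : γ 1 = a') (hfa : ratMap P Q a = a)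
    (hfa' : ratMap P Q a' = a) (n : ℕ) (α : ℕ → Fin 2) (t : unitInterval) :
    ratMap P Q (k07_edge P Q γ (n + 1) α t) = k07_edge P Q γ n (shift α) t := by
  unfold k07_edge
  have h2 : shift α n = α (n + 1) := rfl
  rw [h2]
  split_ifs with h3
  · exact k07_shift h hγ h0 h1 hfa hfa' n α
  · obtain ⟨h4, h5⟩ := liftN_spec h hγ (n + 1) (y := vtx P Q γ (n + 1) α)
      (by rw [k07_fiber h hγ h0 h1 hfa hfa', h0])
    let γ' : C(unitInterval, OnePoint ℂ) :=
      ⟨fun t => ratMap P Q (liftN P Q (n + 1) γ (vtx P Q γ (n + 1) α) t),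
        (ratMap_continuous h).comp (liftN P Q (n + 1) γ (vtx P Q γ (n + 1) α)).continuous⟩
    have h6 : γ' = liftN P Q n γ (vtx P Q γ n (shift α)) := by
      apply liftN_unique h hγ n γ'
      · show ratMap P Q (liftN P Q (n + 1) γ (vtx P Q γ (n + 1) α) 0) = _
        rw [h4, k07_shift h hγ h0 h1 hfa hfa']
      · intro t
        show (ratMap P Q)^[n] (ratMap P Q (liftN P Q (n + 1) γ (vtx P Q γ (n + 1) α) t)) = γ t
        rw [← Function.iterate_succ_apply, h5]
    rw [← h6]
    rfl

theorem exists_wait_tree {P Q : Polynomial ℂ} {d : ℕ} (h : RatData P Q d)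
    {γ : C(unitInterval, OnePoint ℂ)} (hγ : GoodPath P Q γ) {a a' : OnePoint ℂ} (h0 : γ 0 = a)
    (h1 : γ 1 = a') (hne : a' ≠ a) (hfa : ratMap P Q a = a) (hfa' : ratMap P Q a' = a) :
    ∃ T : CodingTree (ratMap P Q) 2, T.root = a ∧ T.UniqueLifts ∧ T.AvoidsCriticalValues ∧
      (∀ n α, T.vertex n α = vtx P Q γ (n + 1) α) ∧
      ∀ n α β, (∀ i ≤ n, α i = β i) → T.edge n α = T.edge n β := by
  refine ⟨{ root := a
            child := fun i => if i = 0 then a else a'
            child_injective := ?_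
            map_child := ?_
            curve := fun i => if i = 0 then ContinuousMap.const _ a else γ
            curve_zero := ?_
            curve_one := ?_
            edge := k07_edge P Q γ
            edge_zero := ?_
            edge_succ_map := ?_
            edge_succ_start := ?_ }, rfl, ?_, ?_, ?_, ?_⟩
  · intro i j hij
    simp only at hij
    split_ifs at hij with h2 h3 h3
    · rw [h2, h3]
    · exact absurd hij.symm hne
    · exact absurd hij hne
    · omega
  · intro i
    split_ifs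
    · exact hfa
    · exact hfa'
  · intro i
    split_ifs
    · rfl
    · exact h0
  · intro i
    split_ifs
    · rfl
    · exact h1
  · intro α
    unfold k07_edge
    simp only [vtx]
    split_ifs
    · rw [h0]
    · exact k07_lift0 h hγ
  · exact fun n α t => k07_edge_map h hγ h0 h1 hfa hfa' n α t
  · intro n α
    rw [k07_edge_zero h hγ h0 h1 hfa hfa', k07_edge_one]
  · intro n α γ' h2 h3
    show γ' = k07_edge P Q γ (n + 1) α
    have h2' : ∀ t, ratMap P Q (γ' t) = k07_edge P Q γ n (shift α) t := h2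
    have h3' : γ' 0 = k07_edge P Q γ n α 1 := h3
    refine path_unique h γ' _ 0 ?_ (fun t => ?_) (fun t => ?_)
    · rw [h3', k07_edge_zero h hγ h0 h1 hfa hfa', k07_edge_one]
    · rw [h2', k07_edge_map h hγ h0 h1 hfa hfa']
    · rw [h2']
      exact k07_edge_good h hγ h0 h1 hfa hfa' n _ t
  · intro c hc n hn i t
    have hm := marked_of_isCritPt h hc
    show (if i = 0 then ContinuousMap.const _ a else γ) t ≠ _
    split_ifs
    · intro h2
      have h2' : a = (ratMap P Q)^[n] c := h2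
      exact (hγ 0).2 n n hn le_rfl c hm (by rw [← h2', h0])
    · intro h2
      exact (hγ t).2 n n hn le_rfl c hm h2.symm
  · intro n α
    exact k07_edge_one γ n α
  · intro n α β hαβ
    show k07_edge P Q γ n α = k07_edge P Q γ n β
    unfold k07_edge
    rw [k07_vtx_congr γ n α β (fun i hi => hαβ i hi.le), hαβ n le_rfl]

end Pool.Agent.Lib.MP_e4ee3e_an
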