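import Pool.Agent.Lib.MP_e4ee3e_an.KDefs

/-!
K08. Measurable greedy code. mt w k = a waiting time M as in hV (Classical.choose; 0 if k ∉ G). Words w_0(x) = [], w_(j+1)(x) = w_j(x) ++ 0^M ++ [1] where k = least index in G with x ∈ U k and U k of diameter <= 2^-j (all dist y z <= 2^-j for y, z ∈ U k) and M = mt (w_j x) k (if there is no such k append [1]); the map x ↦ w_j x to the countable type List (Fin 2) is measurable (fibres are countable Boolean combinations of the sets U k); A x i = i-th letter of w_(i+1)(x). For x ∈ J the vertex is constant while waiting and each move ends in U k ∋ x of small diameter.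
-/

open MeasureTheory Filter Topology

namespace Pool.Agent.Lib.MP_e4ee3e_an

/-- `n = 0` codes that there is no good index, `n = k + 1` that `k` is one. -/
def k08_q {X : Type*} [MetricSpace X] (G : Set ℕ) (U : ℕ → Set X) (j : ℕ) (x : X) (n : ℕ) : Prop :=
  (n = 0 ∧ ¬ ∃ k, k ∈ G ∧ x ∈ U k ∧ ∀ y ∈ U k, ∀ z ∈ U k, dist y z ≤ (1 / 2 : ℝ) ^ j) ∨
    ∃ k, n = k + 1 ∧ k ∈ G ∧ x ∈ U k ∧ ∀ y ∈ U k, ∀ z ∈ U k, dist y z ≤ (1 / 2 : ℝ) ^ j

theorem k08_ex {X : Type*} [MetricSpace X] (G : Set ℕ) (U : ℕ → Set X) (j : ℕ) (x : X) :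
    ∃ n, k08_q G U j x n := by
  by_cases h : ∃ k, k ∈ G ∧ x ∈ U k ∧ ∀ y ∈ U k, ∀ z ∈ U k, dist y z ≤ (1 / 2 : ℝ) ^ j
  · obtain ⟨k, hk⟩ := h
    exact ⟨k + 1, Or.inr ⟨k, rfl, hk⟩⟩
  · exact ⟨0, Or.inl ⟨rfl, h⟩⟩

/-- the coded least good index -/
noncomputable def k08_K {X : Type*} [MetricSpace X] (G : Set ℕ) (U : ℕ → Set X) (j : ℕ) (x : X) :
    ℕ :=
  open Classical in Nat.find (k08_ex G U j x)

theorem k08_K_spec {X : Type*} [MetricSpace X] (G : Set ℕ) (U : ℕ → Set X) (j : ℕ) (x : X) :
    k08_q G U j x (k08_K G U j x) := by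
  classical
  exact Nat.find_spec (k08_ex G U j x)

/-- one step of the greedy code -/
def k08_step (mt : List (Fin 2) → ℕ → ℕ) (w : List (Fin 2)) : ℕ → List (Fin 2)
  | 0 => w ++ [1]
  | k + 1 => w ++ List.replicate (mt w k) 0 ++ [1]

/-- the words of the greedy code -/
noncomputable def k08_W {X : Type*} [MetricSpace X] (G : Set ℕ) (U : ℕ → Set X)
    (mt : List (Fin 2) → ℕ → ℕ) : ℕ → X → List (Fin 2)
  | 0, _ => []
  | j + 1, x => k08_step mt (k08_W G U mt j x) (k08_K G U j x)

/-- the greedy code -/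
noncomputable def k08_A {X : Type*} [MetricSpace X] (G : Set ℕ) (U : ℕ → Set X)
    (mt : List (Fin 2) → ℕ → ℕ) (x : X) (i : ℕ) : Fin 2 :=
  ((k08_W G U mt (i + 1) x)[i]?).getD 0

theorem k08_step_prefix (mt : List (Fin 2) → ℕ → ℕ) (w : List (Fin 2)) (n : ℕ) :
    w <+: k08_step mt w n := by
  cases n with
  | zero => exact List.prefix_append _ _
  | succ k =>
    simp only [k08_step, List.append_assoc]
    exact List.prefix_append _ _

theorem k08_step_length (mt : List (Fin 2) → ℕ → ℕ) (w : List (Fin 2)) (n : ℕ) :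
    w.length + 1 ≤ (k08_step mt w n).length := by
  cases n with
  | zero => simp [k08_step]
  | succ k => simp [k08_step]

section

variable {X : Type*} [MetricSpace X] (G : Set ℕ) (U : ℕ → Set X) (mt : List (Fin 2) → ℕ → ℕ)

theorem k08_length (j : ℕ) (x : X) : j ≤ (k08_W G U mt j x).length := by
  induction j with
  | zero => simp
  | succ j ih =>
    have := k08_step_length mt (k08_W G U mt j x) (k08_K G U j x)
    simp only [k08_W]
    omega

theorem k08_prefix {i j : ℕ} (hij : i ≤ j) (x : X) : k08_W G U mt i x <+: k08_W G U mt j x := by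
  induction j, hij using Nat.le_induction with
  | base => exact List.prefix_refl _
  | succ j _ ih => exact ih.trans (k08_step_prefix mt _ _)

theorem k08_letter (j i : ℕ) (x : X) (hi : i < (k08_W G U mt j x).length) :
    k08_A G U mt x i = (k08_W G U mt j x)[i] := by
  have h1 : i < (k08_W G U mt (i + 1) x).length := k08_length G U mt (i + 1) x
  have h2 : (k08_W G U mt (i + 1) x)[i] = (k08_W G U mt j x)[i] := by
    rcases le_total (i + 1) j with h | h
    · exact (k08_prefix G U mt h x).getElem h1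
    · exact ((k08_prefix G U mt h x).getElem hi).symm
  unfold k08_A
  rw [List.getElem?_eq_getElem h1, Option.getD_some, h2]

theorem k08_startsWith (j : ℕ) (x : X) : StartsWith (k08_W G U mt j x) (k08_A G U mt x) := by
  unfold StartsWith
  apply List.ext_getElem
  · simp
  · intro i h1 h2
    rw [List.getElem_ofFn]
    exact k08_letter G U mt j i x h2

theorem k08_measurable_K [MeasurableSpace X] (hU : ∀ k, MeasurableSet (U k)) (j : ℕ) :
    Measurable (k08_K G U j) := by
  classical
  have hs : ∀ k, MeasurableSet {x : X | k ∈ G ∧ x ∈ U k ∧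
      ∀ y ∈ U k, ∀ z ∈ U k, dist y z ≤ (1 / 2 : ℝ) ^ j} := by
    intro k
    by_cases h : k ∈ G ∧ ∀ y ∈ U k, ∀ z ∈ U k, dist y z ≤ (1 / 2 : ℝ) ^ j
    · have : {x : X | k ∈ G ∧ x ∈ U k ∧
          ∀ y ∈ U k, ∀ z ∈ U k, dist y z ≤ (1 / 2 : ℝ) ^ j} = U k := by
        ext x
        exact ⟨fun hx => hx.2.1, fun hx => ⟨h.1, hx, h.2⟩⟩
      rw [this]
      exact hU k
    · have : {x : X | k ∈ G ∧ x ∈ U k ∧
          ∀ y ∈ U k, ∀ z ∈ U k, dist y z ≤ (1 / 2 : ℝ) ^ j} = ∅ := by
        ext x
        exact ⟨fun hx => h ⟨hx.1, hx.2.2⟩, fun hx => hx.elim⟩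
      rw [this]
      exact MeasurableSet.empty
  have hex : MeasurableSet {x : X | ∃ k, k ∈ G ∧ x ∈ U k ∧
      ∀ y ∈ U k, ∀ z ∈ U k, dist y z ≤ (1 / 2 : ℝ) ^ j} := by
    have : {x : X | ∃ k, k ∈ G ∧ x ∈ U k ∧ ∀ y ∈ U k, ∀ z ∈ U k, dist y z ≤ (1 / 2 : ℝ) ^ j} =
        ⋃ k, {x : X | k ∈ G ∧ x ∈ U k ∧ ∀ y ∈ U k, ∀ z ∈ U k, dist y z ≤ (1 / 2 : ℝ) ^ j} := by
      ext x
      simp only [Set.mem_ofPred_eq, Set.mem_iUnion]
    rw [this]
    exact MeasurableSet.iUnion hs
  have hq : ∀ n, MeasurableSet {x : X | k08_q G U j x n} := by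
    intro n
    cases n with
    | zero =>
      have : {x : X | k08_q G U j x 0} = {x : X | ∃ k, k ∈ G ∧ x ∈ U k ∧
          ∀ y ∈ U k, ∀ z ∈ U k, dist y z ≤ (1 / 2 : ℝ) ^ j}ᶜ := by
        ext x
        constructor
        · rintro (⟨-, h⟩ | ⟨k, hk, -⟩)
          · exact h
          · omega
        · intro h
          exact Or.inl ⟨rfl, h⟩
      rw [this]
      exact hex.compl
    | succ k =>
      have : {x : X | k08_q G U j x (k + 1)} = {x : X | k ∈ G ∧ x ∈ U k ∧
          ∀ y ∈ U k, ∀ z ∈ U k, dist y z ≤ (1 / 2 : ℝ) ^ j} := by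
        ext x
        constructor
        · rintro (⟨h, -⟩ | ⟨k', hk, h⟩)
          · omega
          · have : k' = k := by omega
            subst this
            exact h
        · intro h
          exact Or.inr ⟨k, rfl, h⟩
      rw [this]
      exact hs k
  exact measurable_find (k08_ex G U j) hq

theorem k08_measurable_W [MeasurableSpace X] (hU : ∀ k, MeasurableSet (U k)) (j : ℕ) :
    @Measurable X (List (Fin 2)) _ ⊤ (k08_W G U mt j) := by
  letI : MeasurableSpace (List (Fin 2)) := ⊤
  haveI : MeasurableSingletonClass (List (Fin 2)) := ⟨fun _ => MeasurableSpace.measurableSet_top⟩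
  induction j with
  | zero => exact measurable_const
  | succ j ih =>
    have h1 : Measurable (fun p : List (Fin 2) × ℕ => k08_step mt p.1 p.2) :=
      measurable_of_countable _
    exact h1.comp (ih.prodMk (k08_measurable_K G U hU j))

theorem k08_measurable_A [MeasurableSpace X] (hU : ∀ k, MeasurableSet (U k)) :
    Measurable (k08_A G U mt) := by
  refine measurable_pi_iff.2 fun i => ?_
  letI : MeasurableSpace (List (Fin 2)) := ⊤
  have h1 : Measurable (fun w : List (Fin 2) => (w[i]?).getD 0) := measurable_from_top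
  exact h1.comp (k08_measurable_W G U mt hU (i + 1))

end

theorem exists_measurable_code {X : Type*} [MetricSpace X] [MeasurableSpace X] [BorelSpace X]
    (J : Set X) (G : Set ℕ) (U : ℕ → Set X) (hU : ∀ k, MeasurableSet (U k))
    (hbase : ∀ x ∈ J, ∀ ε : ℝ, 0 < ε → ∃ k ∈ G, x ∈ U k ∧ ∀ y ∈ U k, ∀ z ∈ U k, dist y z ≤ ε)
    (V : ℕ → (ℕ → Fin 2) → X) (hwait : ∀ n α, α n = 0 → V (n + 1) α = V n α)
    (hV : ∀ w : List (Fin 2), ∀ k ∈ G, ∃ M : ℕ, ∀ α : ℕ → Fin 2,
      StartsWith (w ++ List.replicate M 0 ++ [1]) α → V (w.length + M + 1) α ∈ U k) :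
    ∃ A : X → ℕ → Fin 2, Measurable A ∧
      ∀ x ∈ J, Tendsto (fun n => V n (A x)) atTop (𝓝 x) := by
  classical
  set mt : List (Fin 2) → ℕ → ℕ := fun w k => if h : k ∈ G then (hV w k h).choose else 0 with hmt
  refine ⟨k08_A G U mt, k08_measurable_A G U mt hU, fun x hx => ?_⟩
  set A := k08_A G U mt x with hA
  set N : ℕ → ℕ := fun j => (k08_W G U mt j x).length with hN
  -- the structure of the words
  have hst : ∀ j, ∃ k, k ∈ G ∧ x ∈ U k ∧ (∀ y ∈ U k, ∀ z ∈ U k, dist y z ≤ (1 / 2 : ℝ) ^ j) ∧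
      ∃ hk : k ∈ G, k08_W G U mt (j + 1) x = k08_W G U mt j x ++
        List.replicate ((hV (k08_W G U mt j x) k hk).choose) 0 ++ [1] := by
    intro j
    have hgood := hbase x hx ((1 / 2 : ℝ) ^ j) (by positivity)
    have hspec := k08_K_spec G U j x
    rcases hspec with ⟨-, hno⟩ | ⟨k, hk, hkG, hkx, hkd⟩
    · obtain ⟨k, hkG, hkx, hkd⟩ := hgood
      exact absurd ⟨k, hkG, hkx, hkd⟩ hno
    · refine ⟨k, hkG, hkx, hkd, hkG, ?_⟩
      have h1 : k08_W G U mt (j + 1) x = k08_step mt (k08_W G U mt j x) (k08_K G U j x) := rfl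
      rw [h1, hk]
      simp only [k08_step, hmt, dif_pos hkG]
  have hNlt : ∀ j, N j < N (j + 1) := fun j =>
    k08_step_length mt (k08_W G U mt j x) (k08_K G U j x)
  have hNmono : StrictMono N := strictMono_nat_of_lt_succ hNlt
  have hNge : ∀ j, j ≤ N j := fun j => k08_length G U mt j x
  have hN0 : N 0 = 0 := rfl
  have hstarts : ∀ j, StartsWith (k08_W G U mt j x) A := fun j => k08_startsWith G U mt j x
  -- the vertex at time N (j+1)
  have hend : ∀ j, dist (V (N (j + 1)) A) x ≤ (1 / 2 : ℝ) ^ j := by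
    intro j
    obtain ⟨k, hkG, hkx, hkd, hk, hW⟩ := hst j
    have h1 := (hV (k08_W G U mt j x) k hk).choose_spec A (by rw [← hW]; exact hstarts (j + 1))
    have h2 : N (j + 1) = (k08_W G U mt j x).length +
        (hV (k08_W G U mt j x) k hk).choose + 1 := by
      simp only [hN]
      rw [hW]
      simp [add_assoc]
    rw [h2]
    exact hkd _ h1 _ hkx
  -- waiting
  have hzero : ∀ j n, N j ≤ n → n + 1 < N (j + 1) → A n = 0 := by
    intro j n h1 h2
    obtain ⟨k, hkG, hkx, hkd, hk, hW⟩ := hst j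
    have hlt : n < (k08_W G U mt (j + 1) x).length := by
      have : N (j + 1) = (k08_W G U mt (j + 1) x).length := rfl
      omega
    have h3 : A n = (k08_W G U mt (j + 1) x)[n] := k08_letter G U mt (j + 1) n x hlt
    have h4 : (k08_W G U mt (j + 1) x)[n]? = some 0 := by
      rw [hW, List.append_assoc, List.getElem?_append_right h1, List.getElem?_append_left,
        List.getElem?_replicate]
      · rw [if_pos]
        have h5 : N (j + 1) = (k08_W G U mt j x).length +
            (hV (k08_W G U mt j x) k hk).choose + 1 := by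
          simp only [hN]
          rw [hW]
          simp [add_assoc]
        have h6 : N j = (k08_W G U mt j x).length := rfl
        omega
      · rw [List.length_replicate]
        have h5 : N (j + 1) = (k08_W G U mt j x).length +
            (hV (k08_W G U mt j x) k hk).choose + 1 := by
          simp only [hN]
          rw [hW]
          simp [add_assoc]
        have h6 : N j = (k08_W G U mt j x).length := rfl
        omega
    rw [List.getElem?_eq_getElem hlt] at h4
    rw [h3]
    exact Option.some.inj h4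
  have hkey : ∀ j n, N (j + 1) ≤ n → dist (V n A) x ≤ (1 / 2 : ℝ) ^ j := by
    intro j n hn
    induction n, hn using Nat.le_induction with
    | base => exact hend j
    | succ n hn ih =>
      -- the block of n
      have hex : ∃ m, n < N (m + 1) := ⟨n, lt_of_lt_of_le (Nat.lt_succ_self n) (hNge (n + 1))⟩
      set m := Nat.find hex with hm
      have hm1 : n < N (m + 1) := Nat.find_spec hex
      have hm2 : N m ≤ n := by
        rcases Nat.eq_zero_or_pos m with h0 | h0
        · rw [h0, hN0]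
          exact Nat.zero_le _
        · have h1 := Nat.find_min hex (m := m - 1) (by omega)
          rw [Nat.sub_add_cancel h0] at h1
          omega
      have hjm : j + 1 ≤ m := by
        have h1 : N (j + 1) < N (m + 1) := lt_of_le_of_lt hn hm1
        have h2 := hNmono.lt_iff_lt.1 h1
        omega
      rcases Nat.lt_or_ge (n + 1) (N (m + 1)) with h | h
      · rw [hwait n A (hzero m n hm2 h)]
        exact ih
      · have h1 : n + 1 = N (m + 1) := by omega
        rw [h1]
        refine (hend m).trans ?_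
        exact pow_le_pow_of_le_one (by norm_num) (by norm_num) (by omega)
  rw [Metric.tendsto_atTop]
  intro ε hε
  obtain ⟨j, hj⟩ := exists_pow_lt_of_lt_one hε (show (1 / 2 : ℝ) < 1 by norm_num)
  exact ⟨N (j + 1), fun n hn => lt_of_le_of_lt (hkey j n hn) hj⟩

end Pool.Agent.Lib.MP_e4ee3e_an
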