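import Pool.Agent.Lib.MP_e4ee3e_an.KDefs

/-!
K09. Translation between um D c on the plane and ratMap (uP D c) 1 on the sphere. marked (uP D c) 1 = {∞, 0}; infinity is fixed.
-/

open MeasureTheory Filter Topology

namespace Pool.Agent.Lib.MP_e4ee3e_an

theorem k09_natDegree {D : ℕ} (c : ℂ) : (uP D c).natDegree = D :=
  Polynomial.natDegree_X_pow_add_C

theorem uP_ratData {D : ℕ} (hD : 2 ≤ D) (c : ℂ) : RatData (uP D c) 1 D := by
  refine ⟨isCoprime_one_right, ?_, hD⟩
  rw [k09_natDegree, Polynomial.natDegree_one]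
  exact max_eq_left (Nat.zero_le D)

theorem k09_eval (D : ℕ) (c z : ℂ) : (uP D c).eval z = um D c z := by
  simp [uP, um]

theorem ratMap_uP {D : ℕ} (hD : 2 ≤ D) (c z : ℂ) :
    ratMap (uP D c) 1 (z : OnePoint ℂ) = ((um D c z : ℂ) : OnePoint ℂ) := by
  change ratio ((uP D c).eval z) ((1 : Polynomial ℂ).eval z) = _
  rw [k09_eval, Polynomial.eval_one, ratio, if_neg one_ne_zero, div_one]

theorem iter_ratMap_uP {D : ℕ} (hD : 2 ≤ D) (c z : ℂ) (n : ℕ) :
    (ratMap (uP D c) 1)^[n] (z : OnePoint ℂ) = (((um D c)^[n] z : ℂ) : OnePoint ℂ) := by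
  induction n generalizing z with
  | zero => rfl
  | succ n ih =>
    rw [Function.iterate_succ_apply, Function.iterate_succ_apply, ratMap_uP hD, ih]

theorem k09_infty {D : ℕ} (hD : 2 ≤ D) (c : ℂ) :
    ratMap (uP D c) 1 OnePoint.infty = OnePoint.infty := by
  change ratio ((uP D c).coeff (max (uP D c).natDegree (1 : Polynomial ℂ).natDegree))
    ((1 : Polynomial ℂ).coeff (max (uP D c).natDegree (1 : Polynomial ℂ).natDegree)) = _
  rw [k09_natDegree, Polynomial.natDegree_one, max_eq_left (Nat.zero_le D), ratio, if_pos]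
  rw [Polynomial.coeff_one, if_neg (by omega)]

theorem iter_ratMap_uP_infty {D : ℕ} (hD : 2 ≤ D) (c : ℂ) (n : ℕ) :
    (ratMap (uP D c) 1)^[n] OnePoint.infty = OnePoint.infty := by
  induction n with
  | zero => rfl
  | succ n ih =>
    rw [Function.iterate_succ_apply, k09_infty hD, ih]

theorem k09_marked {D : ℕ} (hD : 2 ≤ D) (c : ℂ) (x : OnePoint ℂ) :
    x ∈ marked (uP D c) 1 ↔ x = OnePoint.infty ∨ x = ((0 : ℂ) : OnePoint ℂ) := by
  have hW : ∀ y : ℂ, (Polynomial.derivative (uP D c) * 1 -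
      uP D c * Polynomial.derivative 1).eval y = (D : ℂ) * y ^ (D - 1) := by
    intro y
    simp [uP, Polynomial.derivative_X_pow]
  constructor
  · rintro (h | ⟨y, hy, h⟩)
    · exact Or.inl h
    · right
      rw [hW] at h
      rcases mul_eq_zero.mp h with h | h
      · exfalso
        have : D ≠ 0 := by omega
        exact this (by exact_mod_cast h)
      · rw [hy, eq_zero_of_pow_eq_zero h]
  · rintro (h | h)
    · exact Or.inl h
    · right
      refine ⟨0, h, ?_⟩
      rw [hW, zero_pow (by omega), mul_zero]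

theorem avoidN_uP_iff {D : ℕ} (hD : 2 ≤ D) (c z : ℂ) :
    (∀ n, AvoidN (uP D c) 1 n (z : OnePoint ℂ)) ↔ ∀ k, 1 ≤ k → (um D c)^[k] 0 ≠ z := by
  constructor
  · intro h k hk he
    refine h k k hk le_rfl ((0 : ℂ) : OnePoint ℂ) ((k09_marked hD c _).2 (Or.inr rfl)) ?_
    rw [iter_ratMap_uP hD, he]
  · intro h n k hk _ x hx
    rcases (k09_marked hD c x).1 hx with hx | hx
    · rw [hx, iter_ratMap_uP_infty hD]
      exact OnePoint.infty_ne_coe z
    · rw [hx, iter_ratMap_uP hD]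
      intro he
      exact h k hk (OnePoint.coe_injective he)

theorem filledJulia_uP {D : ℕ} (hD : 2 ≤ D) (c : ℂ) : filledJulia (uP D c) = uK D c := by
  have h : (fun x : ℂ => (uP D c).eval x) = um D c := funext (k09_eval D c)
  rw [filledJulia, uK, h]

theorem k09_fiber {D : ℕ} (hD : 2 ≤ D) (c w : ℂ) : (um D c ⁻¹' {w}).Finite := by
  have hne : (Polynomial.X ^ D - Polynomial.C (w - c) : Polynomial ℂ) ≠ 0 :=
    Polynomial.X_pow_sub_C_ne_zero (by omega) _
  refine (Polynomial.finite_setOfPred_isRoot hne).subset ?_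
  intro z hz
  have hz' : z ^ D + c = w := hz
  change (Polynomial.X ^ D - Polynomial.C (w - c) : Polynomial ℂ).IsRoot z
  rw [Polynomial.IsRoot, Polynomial.eval_sub, Polynomial.eval_pow, Polynomial.eval_X,
    Polynomial.eval_C, ← hz']
  ring

theorem k09_iter_fiber {D : ℕ} (hD : 2 ≤ D) (c w : ℂ) (n : ℕ) :
    ((um D c)^[n] ⁻¹' {w}).Finite := by
  induction n with
  | zero => exact Set.finite_singleton w
  | succ n ih =>
    have h : (um D c)^[n + 1] ⁻¹' {w} = um D c ⁻¹' ((um D c)^[n] ⁻¹' {w}) := by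
      rw [Function.iterate_succ, Set.preimage_comp]
    rw [h]
    exact ih.preimage' fun b _ => k09_fiber hD c b

theorem countable_badPreimages {D : ℕ} (hD : 2 ≤ D) (c : ℂ) (n : ℕ) :
    {z : ℂ | ∃ k, 1 ≤ k ∧ (um D c)^[k] 0 = (um D c)^[n] z}.Countable := by
  have h : {z : ℂ | ∃ k, 1 ≤ k ∧ (um D c)^[k] 0 = (um D c)^[n] z} ⊆
      ⋃ k : ℕ, (um D c)^[n] ⁻¹' {(um D c)^[k] 0} := by
    rintro z ⟨k, -, hk⟩
    exact Set.mem_iUnion.2 ⟨k, hk.symm⟩
  exact (Set.countable_iUnion fun k => (k09_iter_fiber hD c _ n).countable).mono h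

theorem exists_um_preimage {D : ℕ} (hD : 2 ≤ D) (c w : ℂ) : ∃ z, um D c z = w := by
  obtain ⟨z, hz⟩ := IsAlgClosed.exists_pow_nat_eq (w - c) (show 0 < D by omega)
  exact ⟨z, by rw [um, hz]; ring⟩

end Pool.Agent.Lib.MP_e4ee3e_an
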