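import Pool.Agent.Lib.MP_e4ee3e_an.KDefs

/-!
K10. Escape radius; the filled Julia set is compact, completely invariant, bounded orbits.
-/

open MeasureTheory Filter Topology

namespace Pool.Agent.Lib.MP_e4ee3e_an

theorem k10_mem_iff {D : ℕ} {c z : ℂ} : z ∈ uK D c ↔ ∃ M : ℝ, ∀ n : ℕ, ‖(um D c)^[n] z‖ ≤ M := by
  show Bornology.IsBounded (Set.range fun n : ℕ => (um D c)^[n] z) ↔ _
  rw [isBounded_iff_forall_norm_le]
  simp only [Set.forall_mem_range]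

theorem k10_iter_ge {f : ℂ → ℂ} {R : ℝ} (hR : 1 ≤ R) (hf : ∀ z : ℂ, R ≤ ‖z‖ → 2 * ‖z‖ ≤ ‖f z‖)
    {z : ℂ} (hz : R ≤ ‖z‖) (k : ℕ) : 2 ^ k * R ≤ ‖f^[k] z‖ := by
  induction k with
  | zero => simpa using hz
  | succ k ih =>
    rw [Function.iterate_succ_apply']
    have h1 : R ≤ ‖f^[k] z‖ := by
      have : (1 : ℝ) ≤ 2 ^ k := one_le_pow₀ (by norm_num)
      nlinarith
    have h2 := hf _ h1
    rw [pow_succ]
    linarith

theorem exists_um_escape {D : ℕ} (hD : 2 ≤ D) (c : ℂ) :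
    ∃ R : ℝ, 1 ≤ R ∧ (∀ z : ℂ, R ≤ ‖z‖ → 2 * ‖z‖ ≤ ‖um D c z‖) ∧
      (∀ z ∈ uK D c, ∀ n : ℕ, ‖(um D c)^[n] z‖ ≤ R) := by
  have hc := norm_nonneg c
  have hesc : ∀ z : ℂ, 3 + ‖c‖ ≤ ‖z‖ → 2 * ‖z‖ ≤ ‖um D c z‖ := by
    intro z hz
    have h1 : 1 ≤ ‖z‖ := by linarith
    have h2 : ‖z‖ ^ 2 ≤ ‖z‖ ^ D := pow_le_pow_right₀ h1 hD
    have h3 : ‖z ^ D‖ ≤ ‖z ^ D + c‖ + ‖c‖ := by
      have := norm_sub_le (z ^ D + c) c
      simpa using this
    rw [norm_pow] at h3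
    unfold um
    nlinarith
  refine ⟨3 + ‖c‖, by linarith, hesc, ?_⟩
  intro z hz n
  by_contra h
  push Not at h
  obtain ⟨M, hM⟩ := k10_mem_iff.1 hz
  obtain ⟨k, hk⟩ := pow_unbounded_of_one_lt M (one_lt_two (α := ℝ))
  have h1 := k10_iter_ge (by linarith : (1 : ℝ) ≤ 3 + ‖c‖) hesc h.le k
  rw [← Function.iterate_add_apply] at h1
  have h2 := hM (k + n)
  have h3 : (0 : ℝ) < 2 ^ k := by positivity
  nlinarith

theorem k10_cont (D : ℕ) (c : ℂ) : Continuous (um D c) := by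
  unfold um; fun_prop

theorem isCompact_uK {D : ℕ} (hD : 2 ≤ D) (c : ℂ) : IsCompact (uK D c) := by
  obtain ⟨R, hR1, hR2, hR3⟩ := exists_um_escape hD c
  have heq : uK D c = ⋂ n : ℕ, {z : ℂ | ‖(um D c)^[n] z‖ ≤ R} := by
    ext z
    rw [Set.mem_iInter]
    constructor
    · intro hz n
      exact hR3 z hz n
    · intro h
      exact k10_mem_iff.2 ⟨R, fun n => h n⟩
  refine Metric.isCompact_of_isClosed_isBounded ?_ ?_
  · rw [heq]
    refine isClosed_iInter fun n => ?_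
    exact isClosed_le ((k10_cont D c).iterate n).norm continuous_const
  · refine (isBounded_iff_forall_norm_le (E := ℂ)).2 ⟨R, ?_⟩
    intro z hz
    exact hR3 z hz 0

theorem um_mem_uK_iff {D : ℕ} (c z : ℂ) : um D c z ∈ uK D c ↔ z ∈ uK D c := by
  rw [k10_mem_iff, k10_mem_iff]
  constructor
  · rintro ⟨M, hM⟩
    refine ⟨max M ‖z‖, ?_⟩
    intro n
    cases n with
    | zero => simp
    | succ n =>
      refine le_trans ?_ (le_max_left _ _)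
      exact hM n
  · rintro ⟨M, hM⟩
    exact ⟨M, fun n => hM (n + 1)⟩

theorem iter_mem_uK_iff {D : ℕ} (c z : ℂ) (n : ℕ) : (um D c)^[n] z ∈ uK D c ↔ z ∈ uK D c := by
  induction n with
  | zero => rfl
  | succ n ih => rw [Function.iterate_succ_apply', um_mem_uK_iff, ih]

end Pool.Agent.Lib.MP_e4ee3e_an
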