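import Pool.Agent.Lib.MP_e4ee3e_an.K10

/-!
K11. A covering lemma and non-existence of all inverse branches. (a) covering: h holomorphic on ball a η, bounded by M, |h'(a)| = 1 (or >= 1): the image of ball a (η/2) contains a ball around h a whose radius depends only on η, M. Proof: g = dslope h a is bounded by 2M/η and |g(z) - g(a)| <= (4M/η^2)|z - a| (Schwarz), on the small circle |z-a| = r: |h(z) - h(a)| >= r/2, DiffContOnCl.ball_subset_image_closedBall. (b) if g i are inverse branches of f^i on ball a η with g i a = a, bounded by M: |(g i)'(a)| = |f'(a)|^-i; if |f'(a)| < 1 this contradicts Cauchy's estimate; if = 1 then by (a) f^i (ball a κ) ⊂ ball a η for all i, so ball a κ ⊂ uK, contradiction with a in the frontier.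
-/

open MeasureTheory Filter Topology

namespace Pool.Agent.Lib.MP_e4ee3e_an

theorem cover_lemma (η M : ℝ) (hη : 0 < η) : ∃ κ : ℝ, 0 < κ ∧ ∀ (a : ℂ) (h : ℂ → ℂ),
    DifferentiableOn ℂ h (Metric.ball a η) → (∀ z ∈ Metric.ball a η, ‖h z‖ ≤ M) →
    ‖deriv h a‖ = 1 → Metric.ball (h a) κ ⊆ h '' Metric.ball a η := by
  set A : ℝ := 4 * |M| / η ^ 2 + 1 with hA
  have hA0 : 0 < A := by positivity
  set r : ℝ := min (η / 2) (1 / (2 * A)) with hr
  have hr0 : 0 < r := lt_min (by positivity) (by positivity)
  have hrη : r < η := lt_of_le_of_lt (min_le_left _ _) (by linarith)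
  have hrA : A * r ≤ 1 / 2 := by
    have h1 : r ≤ 1 / (2 * A) := min_le_right _ _
    have h2 : A * r ≤ A * (1 / (2 * A)) := mul_le_mul_of_nonneg_left h1 hA0.le
    have h3 : A * (1 / (2 * A)) = 1 / 2 := by field_simp
    linarith
  refine ⟨r / 2 / 2, by positivity, ?_⟩
  intro a h hd hM h1
  have ha : a ∈ Metric.ball a η := Metric.mem_ball_self hη
  have hM0 : 0 ≤ M := (norm_nonneg _).trans (hM a ha)
  have hMabs : |M| = M := abs_of_nonneg hM0
  have hmaps : Set.MapsTo h (Metric.ball a η) (Metric.closedBall (h a) (2 * M)) := by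
    intro z hz
    rw [Metric.mem_closedBall, dist_eq_norm]
    have := norm_sub_le (h z) (h a)
    have h2 := hM z hz
    have h3 := hM a ha
    linarith
  have hds : ∀ z ∈ Metric.ball a η, ‖dslope h a z‖ ≤ 2 * M / η := fun z hz =>
    Complex.norm_dslope_le_div_of_mapsTo_ball hd hmaps hz
  have hdd : DifferentiableOn ℂ (dslope h a) (Metric.ball a η) :=
    (Complex.differentiableOn_dslope (Metric.ball_mem_nhds a hη)).2 hd
  have hmaps2 : Set.MapsTo (dslope h a) (Metric.ball a η)
      (Metric.closedBall (dslope h a a) (2 * (2 * M / η))) := by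
    intro z hz
    rw [Metric.mem_closedBall, dist_eq_norm]
    have := norm_sub_le (dslope h a z) (dslope h a a)
    have h2 := hds z hz
    have h3 := hds a ha
    linarith
  have hlip : ∀ z ∈ Metric.ball a η, ‖dslope h a z - dslope h a a‖ ≤ A * ‖z - a‖ := by
    intro z hz
    have h2 := Complex.dist_le_div_mul_dist_of_mapsTo_ball hdd hmaps2 hz
    rw [dist_eq_norm, dist_eq_norm] at h2
    refine h2.trans (mul_le_mul_of_nonneg_right ?_ (norm_nonneg _))
    have h3 : 2 * (2 * M / η) / η = 4 * |M| / η ^ 2 := by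
      rw [hMabs]
      field_simp
      ring
    rw [h3, hA]
    linarith
  have hsub : Metric.closedBall a r ⊆ Metric.ball a η := Metric.closedBall_subset_ball hrη
  have hcont : DiffContOnCl ℂ h (Metric.ball a r) := by
    refine DifferentiableOn.diffContOnCl ?_
    exact hd.mono (Metric.closure_ball_subset_closedBall.trans hsub)
  have hbig : ∀ z ∈ Metric.sphere a r, r / 2 ≤ ‖h z - h a‖ := by
    intro z hz
    have hzr : ‖z - a‖ = r := by rwa [mem_sphere_iff_norm] at hz
    have hzb : z ∈ Metric.ball a η := by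
      rw [mem_ball_iff_norm, hzr]; exact hrη
    have h2 := hlip z hzb
    rw [hzr] at h2
    have h3 : h z - h a = (z - a) * dslope h a z := by
      have := sub_smul_dslope h a z
      rw [smul_eq_mul] at this
      exact this.symm
    rw [h3, norm_mul, hzr]
    have h4 : ‖dslope h a a‖ = 1 := by rw [dslope_same, h1]
    have h5 : ‖dslope h a a‖ ≤ ‖dslope h a z‖ + ‖dslope h a z - dslope h a a‖ := by
      have := norm_sub_le (dslope h a z) (dslope h a z - dslope h a a)
      simpa using this
    have h6 : 1 / 2 ≤ ‖dslope h a z‖ := by linarith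
    nlinarith
  have hne : ∃ᶠ z in 𝓝 a, h z ≠ h a := by
    have hda : DifferentiableAt ℂ h a := hd.differentiableAt (Metric.ball_mem_nhds a hη)
    have h0 : deriv h a ≠ 0 := by
      intro h0
      rw [h0, norm_zero] at h1
      exact zero_ne_one h1
    have h2 : ∀ᶠ z in 𝓝[≠] a, h z ≠ h a := hda.hasDerivAt.eventually_ne h0
    exact (h2.frequently).filter_mono nhdsWithin_le_nhds
  have h3 := hcont.ball_subset_image_closedBall hr0 hbig hne
  exact h3.trans (Set.image_mono hsub)

theorem k11_deriv_iter {D : ℕ} {c a : ℂ} (hfix : um D c a = a) (i : ℕ) :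
    HasDerivAt ((um D c)^[i]) (((D : ℂ) * a ^ (D - 1)) ^ i) a := by
  have h1 : HasDerivAt (um D c) ((D : ℂ) * a ^ (D - 1)) a := by
    unfold um
    exact (hasDerivAt_pow D a).add_const c
  exact HasDerivAt.iterate a h1 hfix i

theorem no_branches {D : ℕ} {c a : ℂ} (H : FixCtx D c a) (η M : ℝ) (hη : 0 < η) (g : ℕ → ℂ → ℂ)
    (hg : ∀ i, DifferentiableOn ℂ (g i) (Metric.ball a η)) (hga : ∀ i, g i a = a)
    (hgb : ∀ i, ∀ w ∈ Metric.ball a η, ‖g i w‖ ≤ M)
    (hgf : ∀ i, ∀ w ∈ Metric.ball a η, (um D c)^[i] (g i w) = w) : False := by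
  have ha : a ∈ Metric.ball a η := Metric.mem_ball_self hη
  set lam : ℂ := (D : ℂ) * a ^ (D - 1) with hlam
  have hder : ∀ i, lam ^ i * deriv (g i) a = 1 := by
    intro i
    have hd : HasDerivAt (g i) (deriv (g i) a) a :=
      ((hg i).differentiableAt (Metric.ball_mem_nhds a hη)).hasDerivAt
    have h1 : HasDerivAt ((um D c)^[i]) (lam ^ i) (g i a) := by
      rw [hga i]; exact k11_deriv_iter H.fix i
    have h2 : HasDerivAt (fun w => (um D c)^[i] (g i w)) (lam ^ i * deriv (g i) a) a :=
      h1.comp a hd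
    have h3 : (fun w => (um D c)^[i] (g i w)) =ᶠ[𝓝 a] fun w => w := by
      filter_upwards [Metric.ball_mem_nhds a hη] with w hw
      exact hgf i w hw
    have h4 : HasDerivAt (fun w : ℂ => w) (lam ^ i * deriv (g i) a) a := h2.congr_of_eventuallyEq h3.symm
    exact h4.unique (hasDerivAt_id' a)
  have hnorm : ∀ i, ‖lam‖ ^ i * ‖deriv (g i) a‖ = 1 := by
    intro i
    rw [← norm_pow, ← norm_mul, hder i, norm_one]
  rcases lt_or_eq_of_le H.le with hlt | heq
  · -- attracting
    have hl0 : 0 < ‖lam‖ := by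
      rw [norm_pos_iff]
      intro h0
      have := hder 1
      rw [h0] at this
      simp at this
    have hbd : ∀ i, ‖deriv (g i) a‖ ≤ M / (η / 2) := by
      intro i
      have hsub : Metric.closedBall a (η / 2) ⊆ Metric.ball a η :=
        Metric.closedBall_subset_ball (by linarith)
      refine Complex.norm_deriv_le_of_forall_mem_sphere_norm_le (by positivity) ?_ ?_
      · refine DifferentiableOn.diffContOnCl ?_
        exact (hg i).mono (Metric.closure_ball_subset_closedBall.trans hsub)
      · intro z hz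
        exact hgb i z (hsub (Metric.sphere_subset_closedBall hz))
    have hlim : Tendsto (fun i : ℕ => ‖lam‖ ^ i * (M / (η / 2))) atTop (𝓝 (0 * (M / (η / 2)))) :=
      (tendsto_pow_atTop_nhds_zero_of_lt_one hl0.le hlt).mul_const _
    rw [zero_mul] at hlim
    have hge : ∀ i : ℕ, (1 : ℝ) ≤ ‖lam‖ ^ i * (M / (η / 2)) := by
      intro i
      rw [← hnorm i]
      exact mul_le_mul_of_nonneg_left (hbd i) (pow_nonneg hl0.le i)
    have := ge_of_tendsto' hlim hge
    linarith
  · obtain ⟨κ, hκ, hcov⟩ := cover_lemma η M hη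
    have hsub : Metric.ball a κ ⊆ uK D c := by
      intro z hz
      refine k10_mem_iff.2 ⟨‖a‖ + η, ?_⟩
      intro i
      have h1 : ‖deriv (g i) a‖ = 1 := by
        have := hnorm i
        rwa [heq, one_pow, one_mul] at this
      have h2 := hcov a (g i) (hg i) (hgb i) h1
      rw [hga i] at h2
      obtain ⟨w, hw, hwz⟩ := h2 hz
      rw [← hwz, hgf i w hw]
      rw [mem_ball_iff_norm] at hw
      have := norm_le_norm_add_norm_sub' w a
      linarith
    have hfr := H.julia heq
    have hint : a ∈ interior (uK D c) := by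
      rw [mem_interior_iff_mem_nhds]
      exact Filter.mem_of_superset (Metric.ball_mem_nhds a hκ) hsub
    exact (Set.disjoint_left.1 disjoint_interior_frontier) hint hfr

end Pool.Agent.Lib.MP_e4ee3e_an
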