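import Pool.Agent.Lib.MP_e4ee3e_an.K11
import Pool.Agent.Lib.MP_e4ee3e_an.Q03

/-!
K12. Some inverse branch hits the critical value. If g is an inverse branch of f^i on ball a η with g a = a omitting the value c then a branch of (g - c)^(1/D) (exists_log_ball, normalised to be a at a, using a^D = a - c) is an inverse branch of f^(i+1) fixing a. If no branch ever takes the value c we get all g i, bounded by an escape radius (|z^D + c| <= R implies |z| <= R), contradiction with no_branches. Hence the first statement. Second: if f^n(0) = a for some n >= 1, take η so small that the finite forward orbit of 0 meets ball a η at most in a; a branch with g w = c gives f^i(c) = w in the orbit of 0, so w = a and c = g a = a, hence a^D = 0, contradiction.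
-/

open MeasureTheory Filter Topology

namespace Pool.Agent.Lib.MP_e4ee3e_an

theorem k12_step {D : ℕ} {c a : ℂ} (H : FixCtx D c a) (η : ℝ) (hη : 0 < η) (i : ℕ) (g : ℂ → ℂ)
    (hg : DifferentiableOn ℂ g (Metric.ball a η)) (hga : g a = a)
    (hgf : ∀ w ∈ Metric.ball a η, (um D c)^[i] (g w) = w)
    (hc : ∀ w ∈ Metric.ball a η, g w ≠ c) :
    ∃ g' : ℂ → ℂ, DifferentiableOn ℂ g' (Metric.ball a η) ∧ g' a = a ∧
      ∀ w ∈ Metric.ball a η, (um D c)^[i + 1] (g' w) = w := by
  have ha : a ∈ Metric.ball a η := Metric.mem_ball_self hη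
  obtain ⟨F, hF, hFe⟩ := exists_log_ball hη (hg.sub_const c)
    (fun z hz => sub_ne_zero.2 (hc z hz))
  have hD0 : (D : ℂ) ≠ 0 := by
    have := H.two
    exact_mod_cast (by omega : D ≠ 0)
  have hpow : ∀ w ∈ Metric.ball a η, Complex.exp (F w / D) ^ D = g w - c := by
    intro w hw
    rw [← Complex.exp_nat_mul, mul_div_cancel₀ _ hD0, hFe w hw]
  have haD : a ^ D = a - c := by
    have := H.fix
    unfold um at this
    linear_combination this
  set om : ℂ := a / Complex.exp (F a / D) with hom
  have hom1 : om ^ D = 1 := by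
    rw [hom, div_pow, hpow a ha, hga, ← haD]
    exact div_self (pow_ne_zero D H.ne)
  refine ⟨fun w => om * Complex.exp (F w / D), ?_, ?_, ?_⟩
  · exact ((hF.div_const _).cexp).const_mul om
  · show om * Complex.exp (F a / D) = a
    rw [hom]
    exact div_mul_cancel₀ _ (Complex.exp_ne_zero _)
  · intro w hw
    rw [Function.iterate_succ_apply]
    have h1 : um D c (om * Complex.exp (F w / D)) = g w := by
      unfold um
      rw [mul_pow, hom1, one_mul, hpow w hw]
      ring
    rw [h1, hgf w hw]

theorem exists_branch_hit {D : ℕ} {c a : ℂ} (H : FixCtx D c a) (η : ℝ) (hη : 0 < η) :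
    ∃ (i : ℕ) (g : ℂ → ℂ), DifferentiableOn ℂ g (Metric.ball a η) ∧ g a = a ∧
      (∀ w ∈ Metric.ball a η, (um D c)^[i] (g w) = w) ∧ ∃ w ∈ Metric.ball a η, g w = c := by
  by_contra hcon
  push Not at hcon
  have hex : ∀ i : ℕ, ∃ g : ℂ → ℂ, DifferentiableOn ℂ g (Metric.ball a η) ∧ g a = a ∧
      ∀ w ∈ Metric.ball a η, (um D c)^[i] (g w) = w := by
    intro i
    induction i with
    | zero => exact ⟨fun w => w, differentiableOn_id, rfl, fun w _ => rfl⟩
    | succ i ih =>
      obtain ⟨g, h1, h2, h3⟩ := ih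
      exact k12_step H η hη i g h1 h2 h3 (hcon i g h1 h2 h3)
  choose g h1 h2 h3 using hex
  obtain ⟨R, hR1, hR2, -⟩ := exists_um_escape H.two c
  refine no_branches H η (max R (‖a‖ + η)) hη g h1 h2 ?_ h3
  intro i w hw
  by_contra hlt
  push Not at hlt
  have hR : R < ‖g i w‖ := lt_of_le_of_lt (le_max_left _ _) hlt
  have hη' : ‖a‖ + η < ‖g i w‖ := lt_of_le_of_lt (le_max_right _ _) hlt
  have h4 := k10_iter_ge (f := um D c) (R := ‖g i w‖) (by linarith)
    (fun z hz => hR2 z (by linarith)) (z := g i w) le_rfl i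
  rw [h3 i w hw] at h4
  rw [mem_ball_iff_norm] at hw
  have h5 := norm_le_norm_add_norm_sub' w a
  have h6 : (1 : ℝ) ≤ 2 ^ i := one_le_pow₀ (by norm_num)
  nlinarith [norm_nonneg (g i w)]

theorem not_postcritical {D : ℕ} {c a : ℂ} (H : FixCtx D c a) :
    ∀ k, 1 ≤ k → (um D c)^[k] 0 ≠ a := by
  intro k hk hka
  set O : Set ℂ := ((fun j : ℕ => (um D c)^[j] 0) '' Set.Iic k) \ {a} with hO
  have hOf : O.Finite := ((Set.finite_Iic k).image _).subset Set.sdiff_subset
  have haO : a ∉ O := fun h => h.2 rfl
  have hnh : Oᶜ ∈ 𝓝 a := hOf.isClosed.isOpen_compl.mem_nhds haO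
  obtain ⟨η, hη, hsub⟩ := Metric.mem_nhds_iff.1 hnh
  obtain ⟨i, g, hg, hga, hgf, w, hw, hwc⟩ := exists_branch_hit H η hη
  have hstay : ∀ n, (um D c)^[n + k] 0 = a := by
    intro n
    rw [Function.iterate_add_apply, hka]
    exact Function.iterate_fixed H.fix n
  have hf0 : um D c 0 = c := by
    unfold um
    rw [zero_pow (by have := H.two; omega), zero_add]
  have hw1 : (um D c)^[i + 1] 0 = w := by
    rw [Function.iterate_succ_apply, hf0]
    have := hgf w hw
    rwa [hwc] at this
  have hwa : w = a := by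
    by_contra hne
    apply hsub hw
    refine ⟨?_, hne⟩
    rcases le_or_gt (i + 1) k with hle | hgt
    · exact ⟨i + 1, hle, hw1⟩
    · exfalso
      apply hne
      rw [← hw1]
      have := hstay (i + 1 - k)
      rwa [Nat.sub_add_cancel hgt.le] at this
  have hca : c = a := by rw [← hwc, hwa, hga]
  have := H.fix
  unfold um at this
  rw [hca] at this
  have h0 : a ^ D = 0 := by linear_combination this
  exact pow_ne_zero D H.ne h0

end Pool.Agent.Lib.MP_e4ee3e_an
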