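import Pool.Agent.Lib.MP_e4ee3e_an.K12

/-!
K13. Components of preimages of discs at a contain all preimages of a of a given level. Let W n ε = connectedComponentIn (f^n ⁻¹' ball a ε) a. (1) 0 ∈ W i η for some i >= 1: from exists_branch_hit c ∈ W i' η (image of the ball under g is connected and contains a and c), and f⁻¹(W i') is connected because every component of f⁻¹(W i') maps onto W i' (open and closed/proper), so contains the only preimage 0 of c. (2) if f^k (ball a η) ⊂ ball a ε for k <= N then 0 ∈ W (i+k) ε for k <= N; hence W (i+k) ε = f⁻¹(W (i+k-1) ε) for 1 <= k <= N and W (i+N) ε contains all preimages of level N of a.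
-/

open MeasureTheory Filter Topology

namespace Pool.Agent.Lib.MP_e4ee3e_an

theorem k13_continuous (D : ℕ) (c : ℂ) : Continuous (um D c) := by
  unfold um; fun_prop

theorem k13_isOpenMap {D : ℕ} (hD : 2 ≤ D) (c : ℂ) : IsOpenMap (um D c) := by
  have h : AnalyticOnNhd ℂ (um D c) Set.univ := by
    have : Differentiable ℂ (um D c) := by unfold um; fun_prop
    exact (differentiableOn_univ.2 this).analyticOnNhd isOpen_univ
  rcases h.is_constant_or_isOpen isPreconnected_univ with ⟨w, hw⟩ | h1
  · exfalso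
    have h0 := hw 0 trivial
    have h1 := hw 1 trivial
    unfold um at h0 h1
    rw [zero_pow (by omega)] at h0
    rw [one_pow] at h1
    have : (1 : ℂ) = 0 := by linear_combination h1 - h0
    exact one_ne_zero this
  · intro s hs
    exact h1 s (Set.subset_univ _) hs

theorem k13_isProperMap {D : ℕ} (hD : 2 ≤ D) (c : ℂ) : IsProperMap (um D c) := by
  rw [isProperMap_iff_tendsto_cocompact]
  refine ⟨k13_continuous D c, ?_⟩
  rw [← Metric.cobounded_eq_cocompact, ← comap_norm_atTop]
  rw [tendsto_comap_iff]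
  have h1 : Tendsto (fun z : ℂ => ‖z‖ ^ D - ‖c‖) (comap norm atTop) atTop := by
    apply tendsto_atTop_add_const_right
    exact (tendsto_pow_atTop (by omega)).comp tendsto_comap
  refine tendsto_atTop_mono (fun z => ?_) h1
  show ‖z‖ ^ D - ‖c‖ ≤ ‖um D c z‖
  unfold um
  have := norm_sub_le (z ^ D + c) c
  rw [add_sub_cancel_right, norm_pow] at this
  linarith

/-- the preimage of a connected set which contains the critical value is connected -/
theorem k13_preconnected {D : ℕ} (hD : 2 ≤ D) (c : ℂ) {W : Set ℂ} (hW : IsPreconnected W)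
    (hc : c ∈ W) : IsPreconnected (um D c ⁻¹' W) := by
  have hcl : IsClosedMap (um D c) := (k13_isProperMap hD c).isClosedMap
  have hop := k13_isOpenMap hD c
  have hsurj : ∀ w : ℂ, ∃ z, um D c z = w := by
    intro w
    obtain ⟨z, hz⟩ := IsAlgClosed.exists_pow_nat_eq (w - c) (n := D) (by omega)
    exact ⟨z, by unfold um; rw [hz]; ring⟩
  have key : ∀ U V : Set ℂ, IsOpen U → IsOpen V → um D c ⁻¹' W ⊆ U ∪ V →
      (um D c ⁻¹' W ∩ U).Nonempty → ¬ (um D c ⁻¹' W ∩ (U ∩ V)).Nonempty → (0 : ℂ) ∈ U := by
    intro U V hU hV hUV hne hdis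
    have h1 : W ⊆ um D c '' U ∪ (um D c '' Vᶜ)ᶜ := by
      intro w hw
      by_cases h : w ∈ um D c '' Vᶜ
      · left
        obtain ⟨z, hz, rfl⟩ := h
        rcases hUV (show z ∈ um D c ⁻¹' W from hw) with h2 | h2
        · exact ⟨z, h2, rfl⟩
        · exact absurd h2 hz
      · exact Or.inr h
    obtain ⟨z, hz, hzU⟩ := hne
    by_contra h0
    have h2 : (W ∩ (um D c '' Vᶜ)ᶜ).Nonempty := by
      refine ⟨c, hc, ?_⟩
      rintro ⟨z', hz', he⟩
      have hz0 : z' = 0 := by
        unfold um at he
        have : z' ^ D = 0 := by linear_combination he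
        exact pow_eq_zero_iff (by omega) |>.1 this
      subst hz0
      have : (0 : ℂ) ∈ um D c ⁻¹' W := by
        show um D c 0 ∈ W
        rw [he]
        exact hc
      rcases hUV this with h3 | h3
      · exact h0 h3
      · exact hz' h3
    obtain ⟨w, hw, hw1, hw2⟩ := hW _ _ (hop U hU) (hcl _ hV.isClosed_compl).isOpen_compl h1
      ⟨um D c z, hz, z, hzU, rfl⟩ h2
    obtain ⟨u, hu, rfl⟩ := hw1
    refine hdis ⟨u, hw, hu, ?_⟩
    by_contra h3
    exact hw2 ⟨u, h3, rfl⟩
  intro U V hU hV hUV hneU hneV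
  by_contra hdis
  have h1 := key U V hU hV hUV hneU hdis
  have h2 := key V U hV hU (by rwa [Set.union_comm]) hneV (by rwa [Set.inter_comm V U])
  refine hdis ⟨0, ?_, h1, h2⟩
  show um D c 0 ∈ W
  unfold um
  rw [zero_pow (by omega), zero_add]
  exact hc

theorem k13_iter_fix {D : ℕ} {c a : ℂ} (H : FixCtx D c a) (n : ℕ) : (um D c)^[n] a = a :=
  Function.iterate_fixed H.fix n

theorem k13_mem {D : ℕ} {c a : ℂ} (H : FixCtx D c a) (n : ℕ) {ε : ℝ} (hε : 0 < ε) :
    a ∈ (um D c)^[n] ⁻¹' Metric.ball a ε := by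
  rw [Set.mem_preimage, k13_iter_fix H]
  exact Metric.mem_ball_self hε

/-- `f⁻¹ (W j ε) ⊆ W (j+1) ε` if the critical value is in `W j ε` -/
theorem k13_step {D : ℕ} {c a : ℂ} (H : FixCtx D c a) (j : ℕ) {ε : ℝ} (hε : 0 < ε)
    (hc : c ∈ connectedComponentIn ((um D c)^[j] ⁻¹' Metric.ball a ε) a) :
    um D c ⁻¹' connectedComponentIn ((um D c)^[j] ⁻¹' Metric.ball a ε) a ⊆
      connectedComponentIn ((um D c)^[j + 1] ⁻¹' Metric.ball a ε) a := by
  apply IsPreconnected.subset_connectedComponentIn
  · exact k13_preconnected H.two c isPreconnected_connectedComponentIn hc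
  · rw [Set.mem_preimage, H.fix]
    exact mem_connectedComponentIn (k13_mem H j hε)
  · intro z hz
    have := connectedComponentIn_subset _ _ hz
    rw [Set.mem_preimage, Function.iterate_succ_apply]
    exact this

/-- `f (W (j+1) ε) ⊆ W j ε` -/
theorem k13_image {D : ℕ} {c a : ℂ} (H : FixCtx D c a) (j : ℕ) {ε : ℝ} (hε : 0 < ε) {z : ℂ}
    (hz : z ∈ connectedComponentIn ((um D c)^[j + 1] ⁻¹' Metric.ball a ε) a) :
    um D c z ∈ connectedComponentIn ((um D c)^[j] ⁻¹' Metric.ball a ε) a := by
  have h : um D c '' connectedComponentIn ((um D c)^[j + 1] ⁻¹' Metric.ball a ε) a ⊆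
      connectedComponentIn ((um D c)^[j] ⁻¹' Metric.ball a ε) a := by
    apply IsPreconnected.subset_connectedComponentIn
    · exact isPreconnected_connectedComponentIn.image _ (k13_continuous D c).continuousOn
    · exact ⟨a, mem_connectedComponentIn (k13_mem H _ hε), H.fix⟩
    · rintro _ ⟨w, hw, rfl⟩
      have := connectedComponentIn_subset _ _ hw
      rw [Set.mem_preimage, ← Function.iterate_succ_apply]
      exact this
  exact h ⟨z, hz, rfl⟩

theorem k13_zero {D : ℕ} {c a : ℂ} (H : FixCtx D c a) {η : ℝ} (hη : 0 < η) :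
    ∃ i, (0 : ℂ) ∈ connectedComponentIn ((um D c)^[i] ⁻¹' Metric.ball a η) a := by
  obtain ⟨i, g, hg, hga, hgf, w, hw, hgw⟩ := exists_branch_hit H η hη
  have hc : c ∈ connectedComponentIn ((um D c)^[i] ⁻¹' Metric.ball a η) a := by
    have h : g '' Metric.ball a η ⊆
        connectedComponentIn ((um D c)^[i] ⁻¹' Metric.ball a η) a := by
      apply IsPreconnected.subset_connectedComponentIn
      · exact ((convex_ball a η).isPreconnected).image _ hg.continuousOn
      · exact ⟨a, Metric.mem_ball_self hη, hga⟩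
      · rintro _ ⟨v, hv, rfl⟩
        rw [Set.mem_preimage, hgf v hv]
        exact hv
    exact h ⟨w, hw, hgw⟩
  refine ⟨i + 1, k13_step H i hη hc ?_⟩
  have h6 : um D c 0 = c := by
    unfold um
    rw [zero_pow (by have := H.two; omega), zero_add]
  rw [Set.mem_preimage, h6]
  exact hc

theorem comp_contains {D : ℕ} {c a : ℂ} (H : FixCtx D c a) (ε : ℝ) (hε : 0 < ε) (N : ℕ) :
    ∃ n, N ≤ n ∧ ∀ z : ℂ, (um D c)^[N] z = a →
      z ∈ connectedComponentIn ((um D c)^[n] ⁻¹' Metric.ball a ε) a := by
  have h1 : ∀ᶠ z in 𝓝 a, ∀ k ∈ Finset.range (N + 1), (um D c)^[k] z ∈ Metric.ball a ε := by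
    rw [Filter.eventually_all_finset]
    intro k _
    have hk : ContinuousAt ((um D c)^[k]) a := ((k13_continuous D c).iterate k).continuousAt
    apply hk
    rw [k13_iter_fix H]
    exact Metric.ball_mem_nhds a hε
  obtain ⟨η, hη, hball⟩ := Metric.eventually_nhds_iff_ball.1 h1
  obtain ⟨i, hi⟩ := k13_zero H hη
  have h2 : ∀ k, k ≤ N → (0 : ℂ) ∈ connectedComponentIn ((um D c)^[i + k] ⁻¹' Metric.ball a ε) a := by
    intro k hk
    have h : connectedComponentIn ((um D c)^[i] ⁻¹' Metric.ball a η) a ⊆
        connectedComponentIn ((um D c)^[i + k] ⁻¹' Metric.ball a ε) a := by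
      apply IsPreconnected.subset_connectedComponentIn isPreconnected_connectedComponentIn
      · exact mem_connectedComponentIn (k13_mem H i hη)
      · intro z hz
        have h3 := connectedComponentIn_subset _ _ hz
        rw [Set.mem_preimage, add_comm, Function.iterate_add_apply]
        exact hball _ h3 k (Finset.mem_range.2 (by omega))
    exact h hi
  have h3 : ∀ k, k ≤ N → ∀ z : ℂ, (um D c)^[k] z = a →
      z ∈ connectedComponentIn ((um D c)^[i + k] ⁻¹' Metric.ball a ε) a := by
    intro k
    induction k with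
    | zero =>
      intro _ z hz
      have hz' : z = a := hz
      rw [hz']
      exact mem_connectedComponentIn (k13_mem H _ hε)
    | succ k ih =>
      intro hk z hz
      rw [Function.iterate_succ_apply] at hz
      have h4 := ih (by omega) _ hz
      have h5 := k13_image H (i + k) hε (h2 (k + 1) hk)
      have h6 : um D c 0 = c := by
        unfold um
        rw [zero_pow (by have := H.two; omega), zero_add]
      rw [h6] at h5
      exact k13_step H (i + k) hε h5 h4
  exact ⟨i + N, by omega, h3 N le_rfl⟩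

end Pool.Agent.Lib.MP_e4ee3e_an
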