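import Pool.Agent.Lib.MP_e4ee3e_an.Q04

/-!
Q05. Schottky's theorem, two omitted values c, c' which may vary: apply schottky01 to (g-c)/(c'-c) or to (g-c')/(c-c'); one of them has modulus at least 1/2 at x.
-/

open MeasureTheory Filter Topology

namespace Pool.Agent.Lib.MP_e4ee3e_an

theorem q05_one (M s : ℝ) (hs : 0 < s) : ∃ M' : ℝ, ∀ (x : ℂ) (r : ℝ) (g : ℂ → ℂ) (c c' : ℂ), 0 < r →
    DifferentiableOn ℂ g (Metric.ball x r) → (∀ z ∈ Metric.ball x r, g z ≠ c ∧ g z ≠ c') →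
    ‖c‖ ≤ M → ‖c'‖ ≤ M → s ≤ ‖c - c'‖ → ‖g x‖ ≤ M → 1 / 2 ≤ ‖(g x - c) / (c' - c)‖ →
    ∀ z ∈ Metric.ball x (r / 2), ‖g z‖ ≤ M' := by
  obtain ⟨M1, hM1⟩ := schottky01 (2 * M / s)
  refine ⟨|M1| * (2 * M) + M, ?_⟩
  intro x r g c c' hr hd h01 hc hc' hcc hgx hlow z hz
  have hne : c' - c ≠ 0 := by
    intro h0
    have h1 : c - c' = 0 := by rw [← neg_sub, h0, neg_zero]
    rw [h1, norm_zero] at hcc
    linarith
  have hM0 : 0 ≤ M := (norm_nonneg _).trans hc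
  have hn1 : s ≤ ‖c' - c‖ := by rwa [norm_sub_rev]
  have hn2 : ‖c' - c‖ ≤ 2 * M := by
    have := norm_sub_le c' c
    linarith
  have hup : ‖(g x - c) / (c' - c)‖ ≤ 2 * M / s := by
    rw [norm_div]
    have h1 : ‖g x - c‖ ≤ 2 * M := by
      have := norm_sub_le (g x) c
      linarith
    exact div_le_div₀ (by linarith) h1 hs hn1
  have key := hM1 x r (fun w => (g w - c) / (c' - c)) hr ((hd.sub_const c).div_const _)
    (fun w hw => by
      refine ⟨div_ne_zero (sub_ne_zero.mpr (h01 w hw).1) hne, ?_⟩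
      intro h1
      rw [div_eq_one_iff_eq hne] at h1
      exact (h01 w hw).2 (by linear_combination h1)) hlow hup z hz
  have hgz : g z = (g z - c) / (c' - c) * (c' - c) + c := by
    field_simp
    ring
  rw [hgz]
  refine (norm_add_le _ _).trans ?_
  rw [norm_mul]
  have h3 : ‖(g z - c) / (c' - c)‖ ≤ |M1| := key.trans (le_abs_self M1)
  have h4 : ‖(g z - c) / (c' - c)‖ * ‖c' - c‖ ≤ |M1| * (2 * M) :=
    mul_le_mul h3 hn2 (norm_nonneg _) (abs_nonneg _)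
  linarith

theorem schottky (M s : ℝ) (hs : 0 < s) : ∃ M' : ℝ, ∀ (x : ℂ) (r : ℝ) (g : ℂ → ℂ) (c c' : ℂ), 0 < r →
    DifferentiableOn ℂ g (Metric.ball x r) → (∀ z ∈ Metric.ball x r, g z ≠ c ∧ g z ≠ c') →
    ‖c‖ ≤ M → ‖c'‖ ≤ M → s ≤ ‖c - c'‖ → ‖g x‖ ≤ M → ∀ z ∈ Metric.ball x (r / 2), ‖g z‖ ≤ M' := by
  obtain ⟨M1, hM1⟩ := q05_one M s hs
  refine ⟨M1, ?_⟩
  intro x r g c c' hr hd h01 hc hc' hcc hgx z hz
  have hne : c' - c ≠ 0 := by
    intro h0
    have h1 : c - c' = 0 := by rw [← neg_sub, h0, neg_zero]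
    rw [h1, norm_zero] at hcc
    linarith
  have hne' : c - c' ≠ 0 := by
    intro h0
    rw [h0, norm_zero] at hcc
    linarith
  by_cases hlow : 1 / 2 ≤ ‖(g x - c) / (c' - c)‖
  · exact hM1 x r g c c' hr hd h01 hc hc' hcc hgx hlow z hz
  · have hlow' : 1 / 2 ≤ ‖(g x - c') / (c - c')‖ := by
      push Not at hlow
      have h1 : (g x - c) / (c' - c) + (g x - c') / (c - c') = 1 := by
        field_simp
        ring
      have h2 := norm_add_le ((g x - c) / (c' - c)) ((g x - c') / (c - c'))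
      rw [h1, norm_one] at h2
      linarith
    exact hM1 x r g c' c hr hd (fun w hw => ⟨(h01 w hw).2, (h01 w hw).1⟩) hc' hc
      (by rwa [norm_sub_rev]) hgx hlow' z hz

end Pool.Agent.Lib.MP_e4ee3e_an
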