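import Pool.Agent.Lib.MP_e4ee3e_an.K10
import Pool.Agent.Lib.MP_e4ee3e_an.Q05

/-!
K14. Moving targets. For p ∈ K and c ≠ 0: suppose f^N(v) ≠ f^N(p) for all v ∈ O, N >= N₁. Then f^N on O
omits all points of f^-2(f^(N+2)(p)). This set always contains two points u, ζ u (ζ a D-th root of
unity, ζ ≠ 1) which are bounded by an escape radius and at distance at least s: take t with
t^D = f^(N+2)(p) - c; one of t - c and ζ t - c has modulus at least |c| |1 - ζ| / 2. By Schottky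
f^N is bounded on the half ball for all N >= N₁, so the half ball is in K, a contradiction. So for
every p ∈ K there is N >= N₁ with f^N(p) ∈ f^N(O); the set of such p (N fixed) is open because f^N
is an open map; K is compact, so finitely many N suffice.
-/

open MeasureTheory Filter Topology

namespace Pool.Agent.Lib.MP_e4ee3e_an

theorem k14_continuous (D : ℕ) (c : ℂ) : Continuous (um D c) := by
  unfold um; fun_prop

theorem k14_differentiable (D : ℕ) (c : ℂ) (n : ℕ) : Differentiable ℂ ((um D c)^[n]) := by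
  have h : Differentiable ℂ (um D c) := by unfold um; fun_prop
  exact h.iterate n

theorem k14_isOpenMap {D : ℕ} (hD : 2 ≤ D) (c : ℂ) (n : ℕ) : IsOpenMap ((um D c)^[n]) := by
  have h0 : IsOpenMap (um D c) := by
    have h : AnalyticOnNhd ℂ (um D c) Set.univ := by
      have : Differentiable ℂ (um D c) := by unfold um; fun_prop
      exact (differentiableOn_univ.2 this).analyticOnNhd isOpen_univ
    rcases h.is_constant_or_isOpen isPreconnected_univ with ⟨w, hw⟩ | h1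
    · exfalso
      have h0 := hw 0 trivial
      have h1 := hw 1 trivial
      unfold um at h0 h1
      rw [zero_pow (by omega)] at h0
      rw [one_pow] at h1
      have : (1 : ℂ) = 0 := by linear_combination h1 - h0
      exact one_ne_zero this
    · intro s hs
      exact h1 s (Set.subset_univ _) hs
  induction n with
  | zero => exact IsOpenMap.id
  | succ n ih => exact ih.comp h0

theorem k14_root {D : ℕ} (hD : 2 ≤ D) : ∃ ζ : ℂ, ζ ^ D = 1 ∧ ζ ≠ 1 ∧ ‖ζ‖ = 1 := by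
  have h := Complex.isPrimitiveRoot_exp D (by omega)
  refine ⟨_, h.pow_eq_one, h.ne_one (by omega), h.norm'_eq_one (by omega)⟩

/-- two bounded and separated points in the second preimage -/
theorem k14_two {D : ℕ} (hD : 2 ≤ D) {c : ℂ} (hc : c ≠ 0) : ∃ s : ℝ, 0 < s ∧ ∀ w : ℂ,
    ∃ u u' : ℂ, s ≤ ‖u - u'‖ ∧ (um D c)^[2] u = w ∧ (um D c)^[2] u' = w := by
  obtain ⟨ζ, hζ, hζ1, hζn⟩ := k14_root hD
  have h1 : 0 < ‖1 - ζ‖ := norm_pos_iff.2 (sub_ne_zero.2 (Ne.symm hζ1))
  have h2 : 0 < ‖c‖ := norm_pos_iff.2 hc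
  set s₀ := min 1 (‖c‖ * ‖1 - ζ‖ / 2) with hs₀
  have hs₀p : 0 < s₀ := by
    rw [hs₀]
    exact lt_min one_pos (by positivity)
  refine ⟨s₀ * ‖1 - ζ‖, by positivity, fun w => ?_⟩
  obtain ⟨t, ht⟩ := IsAlgClosed.exists_pow_nat_eq (w - c) (n := D) (by omega)
  have h3 : ∃ t' : ℂ, t' ^ D = w - c ∧ s₀ ≤ ‖t' - c‖ := by
    by_contra hcon
    push Not at hcon
    have h4 := hcon t ht
    have h5 := hcon (ζ * t) (by rw [mul_pow, hζ, one_mul, ht])
    have h6 : c * (1 - ζ) = ζ * (t - c) - (ζ * t - c) := by ring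
    have h7 : ‖c‖ * ‖1 - ζ‖ ≤ ‖t - c‖ + ‖ζ * t - c‖ := by
      rw [← norm_mul, h6]
      refine (norm_sub_le _ _).trans ?_
      rw [norm_mul, hζn, one_mul]
    have h8 : s₀ ≤ ‖c‖ * ‖1 - ζ‖ / 2 := min_le_right _ _
    linarith
  obtain ⟨t', ht', hst⟩ := h3
  obtain ⟨u, hu⟩ := IsAlgClosed.exists_pow_nat_eq (t' - c) (n := D) (by omega)
  have hu0 : s₀ ≤ ‖u‖ := by
    by_contra hcon
    push Not at hcon
    have h4 : ‖u‖ ≤ 1 := hcon.le.trans (min_le_left _ _)
    have h5 : ‖u‖ ^ D ≤ ‖u‖ := by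
      calc ‖u‖ ^ D ≤ ‖u‖ ^ 1 := pow_le_pow_of_le_one (norm_nonneg _) h4 (by omega)
        _ = ‖u‖ := pow_one _
    rw [← norm_pow, hu] at h5
    linarith
  have h9 : ∀ v : ℂ, v ^ D = t' - c → (um D c)^[2] v = w := by
    intro v hv
    show um D c (um D c v) = w
    have h10 : um D c v = t' := by
      unfold um
      rw [hv]
      ring
    rw [h10]
    unfold um
    rw [ht']
    ring
  refine ⟨u, ζ * u, ?_, h9 u hu, h9 _ (by rw [mul_pow, hζ, one_mul, hu])⟩
  have h11 : u - ζ * u = u * (1 - ζ) := by ring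
  rw [h11, norm_mul]
  exact mul_le_mul_of_nonneg_right hu0 h1.le

theorem k14_hit {D : ℕ} (hD : 2 ≤ D) {c : ℂ} (hc : c ≠ 0) {x : ℂ} (hx : x ∈ frontier (uK D c))
    {r : ℝ} (hr : 0 < r) (N₁ : ℕ) {p : ℂ} (hp : p ∈ uK D c) : ∃ N, N₁ ≤ N ∧
      ∃ v ∈ Metric.ball x r, (um D c)^[N] v = (um D c)^[N] p := by
  by_contra hcon
  push Not at hcon
  obtain ⟨R, hR1, hR, hRK⟩ := exists_um_escape hD c
  obtain ⟨s, hs, htwo⟩ := k14_two hD hc
  obtain ⟨M', hM'⟩ := schottky R s hs
  have hclosed : IsClosed (uK D c) := (isCompact_uK hD c).isClosed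
  have hxK : x ∈ uK D c := hclosed.frontier_subset hx
  have hesc : ∀ u : ℂ, ‖(um D c)^[2] u‖ ≤ R → ‖u‖ ≤ R := by
    intro u hu
    by_contra h
    push Not at h
    have h1 := hR u h.le
    have h2 := hR (um D c u) (by linarith)
    have h3 : (um D c)^[2] u = um D c (um D c u) := rfl
    rw [h3] at hu
    linarith
  have hbd : ∀ N, N₁ ≤ N → ∀ z ∈ Metric.ball x (r / 2), ‖(um D c)^[N] z‖ ≤ M' := by
    intro N hN
    obtain ⟨u, u', huu, hu, hu'⟩ := htwo ((um D c)^[N + 2] p)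
    have hpR := hRK p hp (N + 2)
    apply hM' x r ((um D c)^[N]) u u' hr (k14_differentiable D c N).differentiableOn _
      (hesc u (by rw [hu]; exact hpR)) (hesc u' (by rw [hu']; exact hpR)) huu (hRK x hxK N)
    intro z hz
    have h1 := hcon (N + 2) (by omega) z hz
    have h2 : (um D c)^[N + 2] z = (um D c)^[2] ((um D c)^[N] z) := by
      rw [← Function.iterate_add_apply, add_comm]
    constructor
    · intro h
      rw [h2, h, hu] at h1
      exact h1 rfl
    · intro h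
      rw [h2, h, hu'] at h1
      exact h1 rfl
  have hsub : Metric.ball x (r / 2) ⊆ uK D c := by
    intro z hz
    show Bornology.IsBounded (Set.range fun n : ℕ => (um D c)^[n] z)
    rw [isBounded_iff_forall_norm_le]
    refine ⟨max M' (∑ i ∈ Finset.range N₁, ‖(um D c)^[i] z‖), ?_⟩
    rintro _ ⟨n, rfl⟩
    by_cases h : N₁ ≤ n
    · exact (hbd n h z hz).trans (le_max_left _ _)
    · refine le_trans ?_ (le_max_right _ _)
      exact Finset.single_le_sum (f := fun i => ‖(um D c)^[i] z‖) (fun i _ => norm_nonneg _)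
        (Finset.mem_range.2 (by omega))
  have hint : x ∈ interior (uK D c) :=
    mem_interior.2 ⟨_, hsub, Metric.isOpen_ball, Metric.mem_ball_self (by positivity)⟩
  exact hx.2 hint

theorem moving_hit {D : ℕ} (hD : 2 ≤ D) {c : ℂ} (hc : c ≠ 0) {x : ℂ} (hx : x ∈ frontier (uK D c))
    {O : Set ℂ} (hO : O ∈ 𝓝 x) (N₁ : ℕ) : ∃ N₂, ∀ p ∈ uK D c, ∃ N, N₁ ≤ N ∧ N ≤ N₂ ∧
      ∃ v ∈ O, (um D c)^[N] v = (um D c)^[N] p := by
  obtain ⟨r, hr, hball⟩ := Metric.mem_nhds_iff.1 hO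
  obtain ⟨F, hF⟩ := (isCompact_uK hD c).elim_finite_subcover
    (fun k : ℕ => (um D c)^[N₁ + k] ⁻¹' ((um D c)^[N₁ + k] '' Metric.ball x r))
    (fun k => ((k14_isOpenMap hD c (N₁ + k)) _ Metric.isOpen_ball).preimage
      ((k14_continuous D c).iterate _)) (by
      intro p hp
      obtain ⟨N, hN, v, hv, he⟩ := k14_hit hD hc hx hr N₁ hp
      refine Set.mem_iUnion.2 ⟨N - N₁, ?_⟩
      have h1 : N₁ + (N - N₁) = N := by omega
      show (um D c)^[N₁ + (N - N₁)] p ∈ (um D c)^[N₁ + (N - N₁)] '' Metric.ball x r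
      rw [h1]
      exact ⟨v, hv, he⟩)
  refine ⟨N₁ + F.sup id, fun p hp => ?_⟩
  obtain ⟨k, hk, v, hv, he⟩ := Set.mem_iUnion₂.1 (hF hp)
  exact ⟨N₁ + k, by omega, Nat.add_le_add_left (Finset.le_sup (f := id) hk) _, v, hball hv, he⟩

end Pool.Agent.Lib.MP_e4ee3e_an
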