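import Pool.Agent.Lib.MP_e4ee3e_an.K04
import Pool.Agent.Lib.MP_e4ee3e_an.K05
import Pool.Agent.Lib.MP_e4ee3e_an.K09
import Pool.Agent.Lib.MP_e4ee3e_an.K13
import Pool.Agent.Lib.MP_e4ee3e_an.K14

/-!
K15. One step. Given x in the Julia set, O a neighbourhood, ξ, N, y: N₂ from moving_hit with N₁ = N; n from comp_contains with max N₂ N; p = liftEnd n ξ a ∈ K (it is a preimage of a; as a point of the plane); N' ∈ [N, N₂] and v ∈ O with f^N'(v) = f^N'(p) = liftEnd (n - N') ξ a (liftEnd_iter, f a = a); by liftEnd_surj there is s with f^N' s = a and liftEnd n ξ s = v; y and s are in the component of f^-n(ball a ε) at a; exists_path_avoid with S = countable_badPreimages, then exists_modify.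
-/

open MeasureTheory Filter Topology

namespace Pool.Agent.Lib.MP_e4ee3e_an

theorem k15_c_ne {D : ℕ} {c a : ℂ} (H : FixCtx D c a) : c ≠ 0 := by
  intro hc
  have hfix : a ^ D + c = a := H.fix
  have h2 := H.two
  rw [hc, add_zero] at hfix
  have h1 : a ^ (D - 1) = 1 := by
    have h3 : a ^ (D - 1) * a = a := by
      rw [← pow_succ, Nat.sub_add_cancel (by omega)]
      exact hfix
    have h4 : a ^ (D - 1) * a = 1 * a := by rw [h3, one_mul]
    exact mul_right_cancel₀ H.ne h4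
  have hle := H.le
  rw [h1, mul_one, Complex.norm_natCast] at hle
  have : (2 : ℝ) ≤ D := by exact_mod_cast h2
  linarith

theorem k15_plane {D : ℕ} (hD : 2 ≤ D) (c w : ℂ) (n : ℕ) (y : OnePoint ℂ)
    (hy : (ratMap (uP D c) 1)^[n] y = (w : OnePoint ℂ)) :
    ∃ z : ℂ, y = (z : OnePoint ℂ) ∧ (um D c)^[n] z = w := by
  cases y using OnePoint.rec with
  | infty =>
    exfalso
    rw [iter_ratMap_uP_infty hD] at hy
    exact OnePoint.infty_ne_coe w hy
  | coe z =>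
    refine ⟨z, rfl, ?_⟩
    rw [iter_ratMap_uP hD] at hy
    exact OnePoint.coe_injective hy

theorem k15_iter_fix {D : ℕ} {c a : ℂ} (H : FixCtx D c a) (n : ℕ) : (um D c)^[n] a = a :=
  Function.iterate_fixed H.fix n

theorem k15_level {D : ℕ} {c a : ℂ} (H : FixCtx D c a) {m n : ℕ} (hmn : m ≤ n) {z : ℂ}
    (hz : (um D c)^[m] z = a) : (um D c)^[n] z = a := by
  have h1 : n = (n - m) + m := by omega
  rw [h1, Function.iterate_add_apply, hz, k15_iter_fix H]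

theorem one_step {D : ℕ} {c a : ℂ} (H : FixCtx D c a) {x : ℂ} (hx : x ∈ frontier (uK D c))
    {O : Set ℂ} (hO : O ∈ 𝓝 x) {ξ : C(unitInterval, OnePoint ℂ)} (hξ : GoodPath (uP D c) 1 ξ)
    (h0 : ξ 0 = (a : OnePoint ℂ)) (h1 : ∃ b ∈ uK D c, ξ 1 = ((b : ℂ) : OnePoint ℂ)) (N : ℕ) {y : OnePoint ℂ}
    (hy : (ratMap (uP D c) 1)^[N] y = (a : OnePoint ℂ)) (ε : ℝ) (hε : 0 < ε) :
    ∃ ξ' n, N ≤ n ∧ GoodPath (uP D c) 1 ξ' ∧ ξ' 0 = (a : OnePoint ℂ) ∧ ξ' 1 = ξ 1 ∧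
      Modifies a ε ξ ξ' ∧ liftEnd (uP D c) 1 n ξ' y ∈ (fun z : ℂ => (z : OnePoint ℂ)) '' O := by
  have hD := H.two
  have hR := uP_ratData hD c
  obtain ⟨N₂, hN₂⟩ := moving_hit hD (k15_c_ne H) hx hO N
  obtain ⟨n, hn, hcomp⟩ := comp_contains H ε hε (max N₂ N)
  have hnN : N ≤ n := (le_max_right _ _).trans hn
  obtain ⟨b, hbK, hb⟩ := h1
  have hfa : ∀ j, (ratMap (uP D c) 1)^[j] (a : OnePoint ℂ) = (a : OnePoint ℂ) := by
    intro j
    rw [iter_ratMap_uP hD, k15_iter_fix H]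
  -- the end of the lift at a
  have hfib := liftEnd_fiber hR hξ n (y := (a : OnePoint ℂ)) ((hfa n).trans h0.symm)
  rw [hb] at hfib
  obtain ⟨p, hp, hpn⟩ := k15_plane hD c b n _ hfib
  have hpK : p ∈ uK D c := by
    rw [← iter_mem_uK_iff c p n, hpn]
    exact hbK
  obtain ⟨N', hN'1, hN'2, v, hvO, hv⟩ := hN₂ p hpK
  have hN'n : N' ≤ n := hN'2.trans ((le_max_left _ _).trans hn)
  obtain ⟨m, hm⟩ : ∃ m, n = N' + m := ⟨n - N', by omega⟩
  have hit := liftEnd_iter hR hξ N' m (y := (a : OnePoint ℂ)) ((hfa _).trans h0.symm)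
  rw [← hm, hfa, hp, iter_ratMap_uP hD, ← hv, ← iter_ratMap_uP hD] at hit
  obtain ⟨s, hs, hsv⟩ := liftEnd_surj hR hξ N' m (v := (v : OnePoint ℂ)) (y₁ := (a : OnePoint ℂ))
    ((hfa _).trans h0.symm) hit
  rw [← hm] at hsv
  obtain ⟨s₀, hs₀, hs₀N⟩ := k15_plane hD c a N' s hs
  obtain ⟨y₀, hy₀, hy₀N⟩ := k15_plane hD c a N y hy
  have hs1 := hcomp s₀ (k15_level H (hN'2.trans (le_max_left _ _)) hs₀N)
  have hy1 := hcomp y₀ (k15_level H (le_max_right _ _) hy₀N)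
  have hsn : (um D c)^[n] s₀ = a := k15_level H hN'n hs₀N
  have hyn : (um D c)^[n] y₀ = a := k15_level H hnN hy₀N
  have hcont : Continuous (um D c)^[n] := by
    refine Continuous.iterate ?_ n
    unfold um
    fun_prop
  have hopen : IsOpen ((um D c)^[n] ⁻¹' Metric.ball a ε) := Metric.isOpen_ball.preimage hcont
  have hbad : ∀ z : ℂ, (um D c)^[n] z = a →
      z ∉ {z : ℂ | ∃ k, 1 ≤ k ∧ (um D c)^[k] 0 = (um D c)^[n] z} := by
    rintro z hz ⟨k, hk, hk'⟩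
    exact not_postcritical H k hk (hk'.trans hz)
  obtain ⟨π, hπ0, hπ1, hπ⟩ := exists_path_avoid hopen.connectedComponentIn
    isPreconnected_connectedComponentIn _ (countable_badPreimages hD c n)
    (x := y₀) (y := s₀) ⟨hy1, hbad y₀ hyn⟩ ⟨hs1, hbad s₀ hsn⟩
  obtain ⟨ξ', g1, g2, g3, g4, g5⟩ := exists_modify hR hξ a h0 n (y := y) (s := s)
    (by rw [hy₀, iter_ratMap_uP hD, hyn]) (by rw [hs₀, iter_ratMap_uP hD, hsn]) ε hε
    ⟨fun t => ((π t : ℂ) : OnePoint ℂ), OnePoint.continuous_coe.comp π.continuous⟩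
    (by
      change ((π 0 : ℂ) : OnePoint ℂ) = y
      rw [hπ0, hy₀])
    (by
      change ((π 1 : ℂ) : OnePoint ℂ) = s
      rw [hπ1, hs₀])
    (by
      intro t
      have hmem : π t ∈ (um D c)^[n] ⁻¹' Metric.ball a ε := connectedComponentIn_subset _ _ (hπ t).1
      refine ⟨(um D c)^[n] (π t), hmem, ?_, ?_⟩
      · exact iter_ratMap_uP hD c (π t) n
      · rw [avoidN_uP_iff hD]
        intro k hk he
        exact (hπ t).2 ⟨k, hk, he⟩)
  refine ⟨ξ', n, hnN, g1, g2, g3, g4, ?_⟩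
  rw [g5, hsv]
  exact ⟨v, hvO, rfl⟩

end Pool.Agent.Lib.MP_e4ee3e_an
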