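import Pool.Agent.Lib.MP_e4ee3e_an.K05
import Pool.Agent.Lib.MP_e4ee3e_an.K09
import Pool.Agent.Lib.MP_e4ee3e_an.K12

/-!
K16. A second preimage a' = ζ a (ζ a D-th root of unity ≠ 1), not postcritical (f^k(0) = a' implies f^(k+1)(0) = a), and a good path from a to a' (exists_path_avoid in the whole plane, S = forward orbit of 0).
-/

open MeasureTheory Filter Topology

namespace Pool.Agent.Lib.MP_e4ee3e_an

theorem exists_start {D : ℕ} {c a : ℂ} (H : FixCtx D c a) : ∃ a' : ℂ, a' ≠ a ∧ um D c a' = a ∧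
    ∃ ξ, GoodPath (uP D c) 1 ξ ∧ ξ 0 = (a : OnePoint ℂ) ∧ ξ 1 = (a' : OnePoint ℂ) := by
  have hD := H.two
  have hprim := Complex.isPrimitiveRoot_exp D (by omega)
  set ζ := Complex.exp (2 * Real.pi * Complex.I / D) with hζ
  have hζ1 : ζ ≠ 1 := hprim.ne_one (by omega)
  have hζD : ζ ^ D = 1 := hprim.pow_eq_one
  have hmap : um D c (ζ * a) = a := by
    have h1 := H.fix
    unfold um at h1 ⊢
    rw [mul_pow, hζD, one_mul]
    exact h1
  have hne : ζ * a ≠ a := by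
    intro h
    have h1 : (ζ - 1) * a = 0 := by linear_combination h
    rcases mul_eq_zero.1 h1 with h2 | h2
    · exact hζ1 (sub_eq_zero.1 h2)
    · exact H.ne h2
  have hnp := not_postcritical H
  set S : Set ℂ := {z : ℂ | ∃ k, 1 ≤ k ∧ (um D c)^[k] 0 = z} with hS
  have hSc : S.Countable := by
    refine (Set.countable_range fun k : ℕ => (um D c)^[k] 0).mono ?_
    rintro z ⟨k, -, hk⟩
    exact ⟨k, hk⟩
  have haS : a ∈ Set.univ \ S := ⟨Set.mem_univ _, fun ⟨k, hk, h⟩ => hnp k hk h⟩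
  have haS' : ζ * a ∈ Set.univ \ S := by
    refine ⟨Set.mem_univ _, fun ⟨k, hk, h⟩ => hnp (k + 1) (by omega) ?_⟩
    rw [Function.iterate_succ_apply', h, hmap]
  obtain ⟨π, hπ0, hπ1, hπ⟩ := exists_path_avoid isOpen_univ isPreconnected_univ S hSc haS haS'
  refine ⟨ζ * a, hne, hmap, ⟨fun t => ((π t : ℂ) : OnePoint ℂ),
    OnePoint.continuous_coe.comp π.continuous⟩, ?_, ?_, ?_⟩
  · intro t
    refine ⟨OnePoint.coe_ne_infty _, ?_⟩
    exact (avoidN_uP_iff hD c (π t)).2 fun k hk h => (hπ t).2 ⟨k, hk, h⟩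
  · show ((π 0 : ℂ) : OnePoint ℂ) = _
    rw [hπ0]
  · show ((π 1 : ℂ) : OnePoint ℂ) = _
    rw [hπ1]

end Pool.Agent.Lib.MP_e4ee3e_an
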