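import Pool.Agent.Lib.MP_e4ee3e_an.T06
import Pool.Agent.Lib.MP_e4ee3e_an.B01
import Pool.Agent.Lib.MP_e4ee3e_an.D08

/-!
Definitions for the construction of wild coding trees (question Q1).
-/

open MeasureTheory Filter Topology

namespace Pool.Agent.Lib.MP_e4ee3e_an

/-- A curve in the plane that avoids all images of marked points under positive iterates. -/
def GoodPath (P Q : Polynomial ℂ) (γ : C(unitInterval, OnePoint ℂ)) : Prop :=
  ∀ t, γ t ≠ OnePoint.infty ∧ ∀ n, AvoidN P Q n (γ t)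

/-- A lift of `γ` under the `n`-th iterate starting at `y` (chosen; unique for good paths). -/
noncomputable def liftN (P Q : Polynomial ℂ) (n : ℕ) (γ : C(unitInterval, OnePoint ℂ))
    (y : OnePoint ℂ) : C(unitInterval, OnePoint ℂ) :=
  open Classical in
  if h : ∃ γ' : C(unitInterval, OnePoint ℂ), γ' 0 = y ∧ ∀ t, (ratMap P Q)^[n] (γ' t) = γ t then
    h.choose
  else γ

/-- The end of the lift. -/
noncomputable def liftEnd (P Q : Polynomial ℂ) (n : ℕ) (γ : C(unitInterval, OnePoint ℂ))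
    (y : OnePoint ℂ) : OnePoint ℂ := liftN P Q n γ y 1

/-- The vertices of the tree with root `γ 0` (a fixed point) and curves: constant (letter `0`) and
`γ` (letter `1`). -/
noncomputable def vtx (P Q : Polynomial ℂ) (γ : C(unitInterval, OnePoint ℂ)) :
    ℕ → (ℕ → Fin 2) → OnePoint ℂ
  | 0, _ => γ 0
  | n + 1, α => if α n = 0 then vtx P Q γ n α else liftEnd P Q n γ (vtx P Q γ n α)

/-- The sequence `α` starts with the word `l`. -/
def StartsWith (l : List (Fin 2)) (α : ℕ → Fin 2) : Prop :=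
  List.ofFn (fun i : Fin l.length => α i) = l

/-- `ξ'` arises from `ξ` by a change near the time `0` inside the disc of radius `ε` at `a`. -/
def Modifies (a : ℂ) (ε : ℝ) (ξ ξ' : C(unitInterval, OnePoint ℂ)) : Prop :=
  ∃ τ : unitInterval, 0 < (τ : ℝ) ∧ (τ : ℝ) < ε ∧ (∀ t, τ ≤ t → ξ t = ξ' t) ∧
    ∀ t, t ≤ τ → (∃ z ∈ Metric.ball a ε, ξ t = ((z : ℂ) : OnePoint ℂ)) ∧
      ∃ z ∈ Metric.ball a ε, ξ' t = ((z : ℂ) : OnePoint ℂ)

/-- The filled Julia set of a polynomial: the points with bounded orbit. -/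
def filledJulia (p : Polynomial ℂ) : Set ℂ :=
  {z | Bornology.IsBounded (Set.range fun n : ℕ => (fun x : ℂ => p.eval x)^[n] z)}

/-- The Julia set of a polynomial of degree at least two, as a subset of the Riemann sphere: the
boundary of the filled Julia set. -/
def polyJulia (p : Polynomial ℂ) : Set (OnePoint ℂ) :=
  (fun z : ℂ => (z : OnePoint ℂ)) '' frontier (filledJulia p)

/-- The unicritical polynomial map `z ^ D + c`. -/
def um (D : ℕ) (c : ℂ) (z : ℂ) : ℂ := z ^ D + c

/-- The polynomial `X ^ D + c`. -/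
noncomputable def uP (D : ℕ) (c : ℂ) : Polynomial ℂ := Polynomial.X ^ D + Polynomial.C c

/-- The filled Julia set of `z ^ D + c`. -/
def uK (D : ℕ) (c : ℂ) : Set ℂ := {z | Bornology.IsBounded (Set.range fun n : ℕ => (um D c)^[n] z)}

/-- Hypotheses on the fixed point `a ≠ 0` of `z ^ D + c`: attracting, or indifferent and in the
Julia set. -/
structure FixCtx (D : ℕ) (c a : ℂ) : Prop where
  two : 2 ≤ D
  fix : um D c a = a
  ne : a ≠ 0
  le : ‖(D : ℂ) * a ^ (D - 1)‖ ≤ 1
  julia : ‖(D : ℂ) * a ^ (D - 1)‖ = 1 → a ∈ frontier (uK D c)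

end Pool.Agent.Lib.MP_e4ee3e_an
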