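import Pool.Agent.Lib.MP_e4ee3e_an.LDefs

/-!
L00. The sphere OnePoint ℂ: locally connected, second countable, connected open sets minus infinity.
(a) LocallyConnectedSpace (OnePoint ℂ): at finite points images of discs, at infinity the sets infinity plus the complement of a closed ball (complement of a ball is connected: image of (R,inf) x ℝ under r e^(i t), its closure adds infinity).
(b) if W is open and preconnected in the sphere then so is W minus infinity: a separation would give one of W, because a punctured neighbourhood of infinity is connected.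
(c) from K05 (exists_path_avoid): path in W minus a countable set.
-/

open MeasureTheory Filter Topology

namespace Pool.Agent.Lib.MP_e4ee3e_an

/-- The complement of a closed disc is connected. -/
theorem l00_ann (R : ℝ) (hR : 0 < R) : IsPreconnected {z : ℂ | R < ‖z‖} := by
  have h1 : Complex.exp '' {w : ℂ | Real.log R < w.re} = {z : ℂ | R < ‖z‖} := by
    ext z
    constructor
    · rintro ⟨w, hw, rfl⟩
      change R < ‖Complex.exp w‖
      rw [Complex.norm_exp]
      exact (Real.log_lt_iff_lt_exp hR).1 hw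
    · intro hz
      have hz' : R < ‖z‖ := hz
      have hz0 : z ≠ 0 := by
        intro h0
        rw [h0, norm_zero] at hz'
        linarith
      refine ⟨Complex.log z, ?_, Complex.exp_log hz0⟩
      change Real.log R < (Complex.log z).re
      rw [Complex.log_re]
      exact Real.log_lt_log hR hz'
  have h2 : IsPreconnected {w : ℂ | Real.log R < w.re} :=
    (convex_halfSpace_re_gt (Real.log R)).isPreconnected
  rw [← h1]
  exact h2.image _ Complex.continuous_exp.continuousOn

/-- The neighbourhoods of infinity. -/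
def l00B (R : ℝ) : Set (OnePoint ℂ) := ((fun z : ℂ => (z : OnePoint ℂ)) '' Metric.closedBall 0 R)ᶜ

theorem l00_mem_inf (R : ℝ) : OnePoint.infty ∈ l00B R := by
  rintro ⟨z, -, hz⟩
  exact OnePoint.coe_ne_infty z hz

theorem l00_mem_coe {R : ℝ} {z : ℂ} : (z : OnePoint ℂ) ∈ l00B R ↔ R < ‖z‖ := by
  constructor
  · intro h
    by_contra h1
    exact h ⟨z, by rw [mem_closedBall_zero_iff]; exact not_lt.1 h1, rfl⟩
  · rintro h ⟨w, hw, hwz⟩
    rw [OnePoint.coe_injective hwz, mem_closedBall_zero_iff] at hw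
    linarith

theorem l00_open (R : ℝ) : IsOpen (l00B R) :=
  OnePoint.isOpen_compl_image_coe.2 ⟨Metric.isClosed_closedBall, isCompact_closedBall 0 R⟩

theorem l00_basis {U : Set (OnePoint ℂ)} (hU : U ∈ 𝓝 (OnePoint.infty : OnePoint ℂ)) :
    ∃ R : ℝ, 0 < R ∧ l00B R ⊆ U := by
  obtain ⟨s, ⟨-, hs⟩, hsU⟩ := (OnePoint.hasBasis_nhds_infty (X := ℂ)).mem_iff.1 hU
  obtain ⟨R, hR⟩ := hs.isBounded.subset_closedBall (0 : ℂ)
  refine ⟨max R 1, lt_max_of_lt_right one_pos, ?_⟩
  intro x hx
  apply hsU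
  cases x using OnePoint.rec with
  | infty => exact Or.inr rfl
  | coe z =>
    left
    refine ⟨z, ?_, rfl⟩
    intro hz
    have h1 := hR hz
    rw [mem_closedBall_zero_iff] at h1
    have h2 := l00_mem_coe.1 hx
    have h3 := le_max_left R 1
    linarith

theorem l00_pre (R : ℝ) (hR : 0 < R) : IsPreconnected (l00B R) := by
  have h1 : IsPreconnected ((fun z : ℂ => (z : OnePoint ℂ)) '' {z : ℂ | R < ‖z‖}) :=
    (l00_ann R hR).image _ OnePoint.continuous_coe.continuousOn
  refine h1.subset_closure ?_ ?_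
  · rintro _ ⟨z, hz, rfl⟩
    exact l00_mem_coe.2 hz
  · intro x hx
    cases x using OnePoint.rec with
    | infty =>
      rw [mem_closure_iff_nhds]
      intro t ht
      obtain ⟨R', hR', hsub⟩ := l00_basis ht
      have hpos : 0 < R + R' := by positivity
      have hn : ‖((R + R' : ℝ) : ℂ)‖ = R + R' := by
        rw [Complex.norm_real, Real.norm_of_nonneg hpos.le]
      refine ⟨(((R + R' : ℝ) : ℂ) : OnePoint ℂ), hsub (l00_mem_coe.2 ?_), _, ?_, rfl⟩
      · rw [hn]
        linarith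
      · change R < ‖((R + R' : ℝ) : ℂ)‖
        rw [hn]
        linarith
    | coe z => exact subset_closure ⟨z, l00_mem_coe.1 hx, rfl⟩

theorem onePoint_locallyConnected : LocallyConnectedSpace (OnePoint ℂ) := by
  rw [locallyConnectedSpace_iff_connected_subsets]
  intro x U hU
  cases x using OnePoint.rec with
  | infty =>
    obtain ⟨R, hR, hsub⟩ := l00_basis hU
    exact ⟨l00B R, (l00_open R).mem_nhds (l00_mem_inf R), l00_pre R hR, hsub⟩
  | coe z =>
    have h1 : (fun z : ℂ => (z : OnePoint ℂ)) ⁻¹' U ∈ 𝓝 z :=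
      OnePoint.continuous_coe.continuousAt hU
    obtain ⟨δ, hδ, hb⟩ := Metric.mem_nhds_iff.1 h1
    refine ⟨(fun z : ℂ => (z : OnePoint ℂ)) '' Metric.ball z δ, ?_, ?_, ?_⟩
    · exact (OnePoint.isOpenEmbedding_coe.isOpenMap _ Metric.isOpen_ball).mem_nhds
        ⟨z, Metric.mem_ball_self hδ, rfl⟩
    · exact (convex_ball z δ).isPreconnected.image _ OnePoint.continuous_coe.continuousOn
    · rintro _ ⟨w, hw, rfl⟩
      exact hb hw

theorem l00_key {W : Set (OnePoint ℂ)} (hc : IsPreconnected W)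
    {R : ℝ} (hRW : l00B R ⊆ W) {u v : Set ℂ} (hu : IsOpen u) (hv : IsOpen v)
    (hS : IsOpen ((fun z : ℂ => (z : OnePoint ℂ)) ⁻¹' W))
    (huv : (fun z : ℂ => (z : OnePoint ℂ)) ⁻¹' W ⊆ u ∪ v)
    (hd : (fun z : ℂ => (z : OnePoint ℂ)) ⁻¹' W ∩ (u ∩ v) = ∅)
    (hR : {z : ℂ | R < ‖z‖} ⊆ u) :
    (fun z : ℂ => (z : OnePoint ℂ)) ⁻¹' W ⊆ u ∨ (fun z : ℂ => (z : OnePoint ℂ)) ⁻¹' W ⊆ v := by
  have h1 := (isPreconnected_iff_subset_of_disjoint.1 hc)
    (((fun z : ℂ => (z : OnePoint ℂ)) '' (u ∩ (fun z : ℂ => (z : OnePoint ℂ)) ⁻¹' W)) ∪ l00B R)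
    ((fun z : ℂ => (z : OnePoint ℂ)) '' (v ∩ (fun z : ℂ => (z : OnePoint ℂ)) ⁻¹' W))
    ((OnePoint.isOpenEmbedding_coe.isOpenMap _ (hu.inter hS)).union (l00_open R))
    (OnePoint.isOpenEmbedding_coe.isOpenMap _ (hv.inter hS))
    (by
      intro x hx
      cases x using OnePoint.rec with
      | infty => exact Or.inl (Or.inr (l00_mem_inf R))
      | coe z =>
        rcases huv (show z ∈ (fun z : ℂ => (z : OnePoint ℂ)) ⁻¹' W from hx) with h | h
        · exact Or.inl (Or.inl ⟨z, ⟨h, hx⟩, rfl⟩)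
        · exact Or.inr ⟨z, ⟨h, hx⟩, rfl⟩)
    (by
      rw [Set.eq_empty_iff_forall_notMem]
      rintro x ⟨hx, hx1, ⟨z, ⟨hzv, hzW⟩, rfl⟩⟩
      have hzu : z ∈ u := by
        rcases hx1 with ⟨z', ⟨hz', -⟩, he⟩ | h
        · have he' : z' = z := OnePoint.coe_injective he
          rw [← he']
          exact hz'
        · exact hR (l00_mem_coe.1 h)
      have h2 : z ∈ (fun z : ℂ => (z : OnePoint ℂ)) ⁻¹' W ∩ (u ∩ v) := ⟨hzW, hzu, hzv⟩
      rw [hd] at h2
      exact h2)
  rcases h1 with h1 | h1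
  · left
    intro z hz
    rcases h1 (show (z : OnePoint ℂ) ∈ W from hz) with ⟨z', ⟨hz', -⟩, he⟩ | h
    · have he' : z' = z := OnePoint.coe_injective he
      rw [← he']
      exact hz'
    · exact hR (l00_mem_coe.1 h)
  · exfalso
    obtain ⟨z, -, hz⟩ := h1 (hRW (l00_mem_inf R))
    exact OnePoint.coe_ne_infty z hz

theorem preconnected_diff_infty {W : Set (OnePoint ℂ)} (hW : IsOpen W) (hc : IsPreconnected W) :
    IsPreconnected ((fun z : ℂ => (z : OnePoint ℂ)) ⁻¹' W) := by
  by_cases hinf : OnePoint.infty ∈ W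
  · obtain ⟨R, hR, hsub⟩ := l00_basis (hW.mem_nhds hinf)
    have hS : IsOpen ((fun z : ℂ => (z : OnePoint ℂ)) ⁻¹' W) :=
      hW.preimage OnePoint.continuous_coe
    have hRS : {z : ℂ | R < ‖z‖} ⊆ (fun z : ℂ => (z : OnePoint ℂ)) ⁻¹' W := by
      intro z hz
      exact hsub (l00_mem_coe.2 hz)
    rw [isPreconnected_iff_subset_of_disjoint]
    intro u v hu hv huv hd
    have h1 := (isPreconnected_iff_subset_of_disjoint.1 (l00_ann R hR)) u v hu hv
      (hRS.trans huv) (by
        rw [Set.eq_empty_iff_forall_notMem]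
        rintro x ⟨hx, hx1⟩
        have h2 : x ∈ (fun z : ℂ => (z : OnePoint ℂ)) ⁻¹' W ∩ (u ∩ v) := ⟨hRS hx, hx1⟩
        rw [hd] at h2
        exact h2)
    rcases h1 with h1 | h1
    · exact l00_key hc hsub hu hv hS huv hd h1
    · rw [Set.union_comm] at huv
      rw [Set.inter_comm u v] at hd
      exact (l00_key hc hsub hv hu hS huv hd h1).symm
  · have h1 : (fun z : ℂ => (z : OnePoint ℂ)) '' ((fun z : ℂ => (z : OnePoint ℂ)) ⁻¹' W) = W := by
      rw [Set.image_preimage_eq_iff]
      intro x hx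
      cases x using OnePoint.rec with
      | infty => exact absurd hx hinf
      | coe z => exact ⟨z, rfl⟩
    have h2 := (OnePoint.isOpenEmbedding_coe (X := ℂ)).isInducing.isPreconnected_image
      (s := (fun z : ℂ => (z : OnePoint ℂ)) ⁻¹' W)
    apply h2.1
    have h3 : (OnePoint.some : ℂ → OnePoint ℂ) '' ((fun z : ℂ => (z : OnePoint ℂ)) ⁻¹' W) = W := h1
    rw [h3]
    exact hc

end Pool.Agent.Lib.MP_e4ee3e_an
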