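import Pool.Agent.Lib.MP_e4ee3e_an.L00
import Pool.Agent.Lib.MP_e4ee3e_an.K05

/-!
L01. In the sphere: two points of an open preconnected set off a countable set S containing infinity are joined off S (preconnected_diff_infty and exists_path_avoid of K05 for the preimage of W in ℂ).
-/

open MeasureTheory Filter Topology

namespace Pool.Agent.Lib.MP_e4ee3e_an

theorem l01_coe {x : OnePoint ℂ} (hx : x ≠ OnePoint.infty) : ∃ x' : ℂ, (x' : OnePoint ℂ) = x := by
  cases x using OnePoint.rec with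
  | infty => exact absurd rfl hx
  | coe x => exact ⟨x, rfl⟩

theorem exists_path_avoid_sphere {W : Set (OnePoint ℂ)} (hW : IsOpen W) (hc : IsPreconnected W)
    (S : Set (OnePoint ℂ)) (hS : S.Countable) (hinf : OnePoint.infty ∈ S) {x y : OnePoint ℂ}
    (hx : x ∈ W \ S) (hy : y ∈ W \ S) :
    ∃ π : C(unitInterval, OnePoint ℂ), π 0 = x ∧ π 1 = y ∧ ∀ t, π t ∈ W \ S := by
  have hinj : Function.Injective (fun z : ℂ => (z : OnePoint ℂ)) := OnePoint.coe_injective
  obtain ⟨x', rfl⟩ := l01_coe (x := x) (by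
    rintro rfl
    exact hx.2 hinf)
  obtain ⟨y', rfl⟩ := l01_coe (x := y) (by
    rintro rfl
    exact hy.2 hinf)
  have hWo : IsOpen ((fun z : ℂ => (z : OnePoint ℂ)) ⁻¹' W) := hW.preimage OnePoint.continuous_coe
  have hSc : ((fun z : ℂ => (z : OnePoint ℂ)) ⁻¹' S).Countable := hS.preimage_of_injOn hinj.injOn
  obtain ⟨π, h0, h1, h2⟩ := exists_path_avoid hWo (preconnected_diff_infty hW hc) _ hSc
    (x := x') (y := y') hx hy
  refine ⟨⟨fun t => (π t : OnePoint ℂ), OnePoint.continuous_coe.comp π.continuous⟩, ?_, ?_, ?_⟩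
  · show (π 0 : OnePoint ℂ) = _
    rw [h0]
  · show (π 1 : OnePoint ℂ) = _
    rw [h1]
  · intro t
    exact h2 t

end Pool.Agent.Lib.MP_e4ee3e_an
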