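import Pool.Agent.Lib.MP_e4ee3e_an.LDefs

/-!
L02. Homogeneous representation of the iterates by entire functions: A' = sum_i P.coeff i * A^i * B^(d-i), B' = sum_i Q.coeff i * A^i * B^(d-i) (i <= d); no common zeros (if B z is not 0 then A' z = B z ^ d * P.eval (A z / B z) ..., if B z = 0 then A' z = P.coeff d * A z ^ d, ...; S02 ratData_lower or coprimality).
-/

open MeasureTheory Filter Topology

namespace Pool.Agent.Lib.MP_e4ee3e_an

/-- homogenised polynomial -/
noncomputable def l02_hom (P : Polynomial ℂ) (d : ℕ) (a b : ℂ) : ℂ :=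
  ∑ i ∈ Finset.range (d + 1), P.coeff i * a ^ i * b ^ (d - i)

theorem l02_ne {P : Polynomial ℂ} {d : ℕ} (hP : P.natDegree ≤ d) {a b : ℂ} (hb : b ≠ 0) :
    l02_hom P d a b = b ^ d * P.eval (a / b) := by
  unfold l02_hom
  rw [Polynomial.eval_eq_sum_range' (Nat.lt_succ_of_le hP), Finset.mul_sum]
  refine Finset.sum_congr rfl fun i hi => ?_
  have hi' : i ≤ d := by
    have := Finset.mem_range.1 hi
    omega
  have h1 : b ^ d = b ^ (d - i) * b ^ i := by rw [← pow_add, Nat.sub_add_cancel hi']
  rw [h1, div_pow]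
  field_simp

theorem l02_zero {P : Polynomial ℂ} {d : ℕ} (a : ℂ) :
    l02_hom P d a 0 = P.coeff d * a ^ d := by
  unfold l02_hom
  rw [Finset.sum_eq_single d]
  · rw [Nat.sub_self, pow_zero, mul_one]
  · intro i hi hid
    have := Finset.mem_range.1 hi
    rw [zero_pow (by omega), mul_zero]
  · intro h
    exact absurd (Finset.self_mem_range_succ d) h

theorem l02_ratio {t a b : ℂ} (ht : t ≠ 0) : ratio (t * a) (t * b) = ratio a b := by
  unfold ratio
  by_cases hb : b = 0
  · rw [if_pos hb, if_pos (by rw [hb, mul_zero])]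
  · rw [if_neg hb, if_neg (mul_ne_zero ht hb), mul_div_mul_left _ _ ht]

theorem l02_step {P Q : Polynomial ℂ} {d : ℕ} (h : RatData P Q d) {a b : ℂ}
    (hab : (a, b) ≠ (0, 0)) :
    (l02_hom P d a b, l02_hom Q d a b) ≠ (0, 0) ∧
      ratMap P Q (ratio a b) = ratio (l02_hom P d a b) (l02_hom Q d a b) := by
  obtain ⟨hP, hQ⟩ := s02_deg h
  by_cases hb : b = 0
  · subst hb
    have ha : a ≠ 0 := by
      rintro rfl
      exact hab rfl
    have had : a ^ d ≠ 0 := pow_ne_zero _ ha
    rw [l02_zero, l02_zero]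
    constructor
    · intro h0
      apply s02_coeff h
      have e1 : P.coeff d * a ^ d = 0 := congrArg Prod.fst h0
      have e2 : Q.coeff d * a ^ d = 0 := congrArg Prod.snd h0
      rw [(mul_eq_zero.1 e1).resolve_right had, (mul_eq_zero.1 e2).resolve_right had]
      rfl
    · rw [mul_comm (P.coeff d), mul_comm (Q.coeff d), l02_ratio had]
      have h1 : ratio a 0 = OnePoint.infty := by
        unfold ratio
        rw [if_pos rfl]
      rw [h1]
      show ratio (P.coeff (max P.natDegree Q.natDegree)) (Q.coeff (max P.natDegree Q.natDegree)) = _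
      rw [h.deg]
  · have hbd : b ^ d ≠ 0 := pow_ne_zero _ hb
    rw [l02_ne hP hb, l02_ne hQ hb]
    constructor
    · intro h0
      apply s02_ne h (a / b)
      have e1 : b ^ d * P.eval (a / b) = 0 := congrArg Prod.fst h0
      have e2 : b ^ d * Q.eval (a / b) = 0 := congrArg Prod.snd h0
      rw [(mul_eq_zero.1 e1).resolve_left hbd, (mul_eq_zero.1 e2).resolve_left hbd]
      rfl
    · rw [l02_ratio hbd]
      have h1 : ratio a b = ((a / b : ℂ) : OnePoint ℂ) := by
        unfold ratio
        rw [if_neg hb]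
      rw [h1]
      rfl

theorem iter_hom {P Q : Polynomial ℂ} {d : ℕ} (h : RatData P Q d) (n : ℕ) :
    ∃ A B : ℂ → ℂ, Differentiable ℂ A ∧ Differentiable ℂ B ∧ (∀ z, (A z, B z) ≠ (0, 0)) ∧
      ∀ z : ℂ, (ratMap P Q)^[n] (z : OnePoint ℂ) = ratio (A z) (B z) := by
  induction n with
  | zero =>
    refine ⟨fun z => z, fun _ => 1, differentiable_id, differentiable_const 1, ?_, ?_⟩
    · intro z h0
      exact one_ne_zero (congrArg Prod.snd h0)
    · intro z
      rw [Function.iterate_zero, id]
      unfold ratio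
      rw [if_neg one_ne_zero, div_one]
  | succ n ih =>
    obtain ⟨A, B, hA, hB, hAB, hf⟩ := ih
    refine ⟨fun z => l02_hom P d (A z) (B z), fun z => l02_hom Q d (A z) (B z), ?_, ?_, ?_, ?_⟩
    · unfold l02_hom
      fun_prop
    · unfold l02_hom
      fun_prop
    · intro z
      exact (l02_step h (hAB z)).1
    · intro z
      rw [Function.iterate_succ_apply', hf z]
      exact (l02_step h (hAB z)).2

end Pool.Agent.Lib.MP_e4ee3e_an
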