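import Pool.Agent.Lib.MP_e4ee3e_an.LDefs
import Pool.Agent.Lib.MP_e4ee3e_an.Q05

/-!
L03. Schottky's theorem for maps to the sphere omitting three s-separated points. F = [A : B]. One of the three points, c = [c1 : c2] (hom c), has distance >= s/2 from F x. Rotation T sends c to infinity: T [p1 : p2] = [conj c1 p1 + conj c2 p2 : c1 p2 - c2 p1]; it preserves dist (dist_ratio, |wdg| is multiplied by |c|^2 and nrm by |c|). G = T o F is a holomorphic function on the ball, |G x| <= 2/s (dist (G x) infinity = 1 / sqrt (1 + |G x|^2) >= s/2), it omits the finite points T u', T v' of modulus <= 1/s with |T u' - T v'| >= s. schottky (Q05) with M = 2/s gives |G| <= M' on ball x (r/2), Cauchy's estimate gives |G z - G x| <= (4 M'/r) |z - x| on ball x (r/4), and dist <= norm of the difference.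
-/

open MeasureTheory Filter Topology

namespace Pool.Agent.Lib.MP_e4ee3e_an

attribute [local instance] chMetric

theorem l03_ratio_hom (c : OnePoint ℂ) : ratio (hom c).1 (hom c).2 = c := by
  cases c using OnePoint.rec with
  | infty => simp [ratio]
  | coe x => simp [ratio]

theorem l03_dist {p q : ℂ × ℂ} (hp : p ≠ 0) (hq : q ≠ 0) :
    dist (ratio p.1 p.2) (ratio q.1 q.2) = ‖wdg p q‖ / (nrm p * nrm q) := by
  have h1 : (p.1, p.2) ≠ (0, 0) := hp
  have h2 : (q.1, q.2) ≠ (0, 0) := hq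
  exact dist_ratio h1 h2

theorem l03_wdg_comm (p q : ℂ × ℂ) : wdg p q = - wdg q p := by
  unfold wdg; ring

theorem l03_eq {p q : ℂ × ℂ} (hp : p ≠ 0) (hq : q ≠ 0) (h : wdg p q = 0) :
    ratio p.1 p.2 = ratio q.1 q.2 := by
  rw [← dist_le_zero, l03_dist hp hq, h, norm_zero, zero_div]

theorem l03_le {c p q : ℂ × ℂ} (hc : c ≠ 0) (hp : p ≠ 0) (hq : q ≠ 0) (h1 : wdg c p ≠ 0)
    (h2 : wdg c q ≠ 0) :
    dist (ratio p.1 p.2) (ratio q.1 q.2) ≤ ‖inr p c / wdg c p - inr q c / wdg c q‖ := by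
  have hcn := nrm_pos_of_ne hc
  have hpn := nrm_pos_of_ne hp
  have hqn := nrm_pos_of_ne hq
  have h1n : 0 < ‖wdg c p‖ := norm_pos_iff.2 h1
  have h2n : 0 < ‖wdg c q‖ := norm_pos_iff.2 h2
  have key : inr p c / wdg c p - inr q c / wdg c q =
      ((nrm c ^ 2 : ℝ) : ℂ) * wdg p q / (wdg c p * wdg c q) := by
    rw [wdg_identity p c q, l03_wdg_comm p c]
    field_simp
    ring
  rw [key, norm_div, norm_mul, norm_mul, Complex.norm_real, Real.norm_of_nonneg (by positivity),
    l03_dist hp hq]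
  have e1 : ‖wdg p q‖ / (nrm p * nrm q) =
      nrm c ^ 2 * ‖wdg p q‖ / ((nrm c * nrm p) * (nrm c * nrm q)) := by
    field_simp
  rw [e1]
  refine div_le_div_of_nonneg_left (by positivity) (by positivity) ?_
  exact mul_le_mul (norm_wdg_le c p) (norm_wdg_le c q) h2n.le (by positivity)

theorem l03_bd {c p : ℂ × ℂ} (hc : c ≠ 0) (hp : p ≠ 0) {t : ℝ} (ht : 0 < t)
    (h : t ≤ dist (ratio c.1 c.2) (ratio p.1 p.2)) :
    wdg c p ≠ 0 ∧ ‖inr p c / wdg c p‖ ≤ 1 / t := by
  have hcn := nrm_pos_of_ne hc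
  have hpn := nrm_pos_of_ne hp
  rw [l03_dist hc hp] at h
  have h0 : wdg c p ≠ 0 := by
    intro h0
    rw [h0, norm_zero, zero_div] at h
    linarith
  refine ⟨h0, ?_⟩
  have h1 : 0 < ‖wdg c p‖ := norm_pos_iff.2 h0
  rw [norm_div, div_le_div_iff₀ h1 ht, one_mul]
  have h2 : t * (nrm c * nrm p) ≤ ‖wdg c p‖ := (le_div_iff₀ (by positivity)).1 h
  have h3 := norm_inr_le p c
  nlinarith

theorem l03_core (s : ℝ) (hs : 0 < s) : ∃ L : ℝ, 0 < L ∧ ∀ (x : ℂ) (r : ℝ) (A B : ℂ → ℂ),
    0 < r → DifferentiableOn ℂ A (Metric.ball x r) → DifferentiableOn ℂ B (Metric.ball x r) →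
    (∀ z ∈ Metric.ball x r, (A z, B z) ≠ (0, 0)) → ∀ c u v : OnePoint ℂ,
    s ≤ dist c u → s ≤ dist c v → s ≤ dist u v → s / 2 ≤ dist c (ratio (A x) (B x)) →
    (∀ z ∈ Metric.ball x r, ratio (A z) (B z) ≠ c ∧ ratio (A z) (B z) ≠ u ∧
      ratio (A z) (B z) ≠ v) →
    ∀ z ∈ Metric.ball x (r / 4),
      dist (ratio (A z) (B z)) (ratio (A x) (B x)) ≤ L * ‖z - x‖ / r := by
  obtain ⟨M, hM⟩ := schottky (2 / s) s hs
  refine ⟨4 * |M| + 1, by positivity, ?_⟩
  intro x r A B hr hA hB hAB c u v hcu hcv huv hcx hom3 z hz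
  have hx : x ∈ Metric.ball x r := Metric.mem_ball_self hr
  have hc0 := hom_ne_zero c
  have hu0 := hom_ne_zero u
  have hv0 := hom_ne_zero v
  have hU := l03_bd hc0 hu0 hs (by rwa [l03_ratio_hom, l03_ratio_hom])
  have hV := l03_bd hc0 hv0 hs (by rwa [l03_ratio_hom, l03_ratio_hom])
  have hX := l03_bd (p := (A x, B x)) hc0 (hAB x hx) (half_pos hs) (by rwa [l03_ratio_hom])
  have hw : ∀ z ∈ Metric.ball x r, wdg (hom c) (A z, B z) ≠ 0 := by
    intro z hz h0
    apply (hom3 z hz).1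
    have := l03_eq (p := hom c) (q := (A z, B z)) hc0 (hAB z hz) h0
    rw [l03_ratio_hom] at this
    exact this.symm
  have hGd : DifferentiableOn ℂ (fun z => inr (A z, B z) (hom c) / wdg (hom c) (A z, B z))
      (Metric.ball x r) := by
    refine DifferentiableOn.div ?_ ?_ hw
    · unfold inr
      exact (hA.mul_const _).add (hB.mul_const _)
    · unfold wdg
      exact (hB.const_mul _).sub (hA.const_mul _)
  have hss : 1 / s ≤ 2 / s := div_le_div_of_nonneg_right (by norm_num) hs.le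
  have h2s : 1 / (s / 2) = 2 / s := by field_simp
  have hbd := hM x r (fun z => inr (A z, B z) (hom c) / wdg (hom c) (A z, B z))
    (inr (hom u) (hom c) / wdg (hom c) (hom u)) (inr (hom v) (hom c) / wdg (hom c) (hom v)) hr hGd
    (by
      intro z hz
      constructor
      · intro heq
        apply (hom3 z hz).2.1
        have h1 := l03_le (c := hom c) (p := (A z, B z)) (q := hom u) hc0 (hAB z hz) hu0 (hw z hz)
          hU.1
        rw [heq, sub_self, norm_zero, l03_ratio_hom] at h1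
        exact dist_le_zero.1 h1
      · intro heq
        apply (hom3 z hz).2.2
        have h1 := l03_le (c := hom c) (p := (A z, B z)) (q := hom v) hc0 (hAB z hz) hv0 (hw z hz)
          hV.1
        rw [heq, sub_self, norm_zero, l03_ratio_hom] at h1
        exact dist_le_zero.1 h1)
    (hU.2.trans hss) (hV.2.trans hss)
    (by
      have h1 := l03_le hc0 hu0 hv0 hU.1 hV.1
      rw [l03_ratio_hom, l03_ratio_hom] at h1
      exact huv.trans h1)
    (by
      have := hX.2
      rw [h2s] at this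
      exact this)
  have hM0 : 0 ≤ |M| := abs_nonneg M
  have hr2 : 0 < r / 2 := by linarith
  have hmaps : Set.MapsTo (fun z => inr (A z, B z) (hom c) / wdg (hom c) (A z, B z))
      (Metric.ball x (r / 2)) (Metric.closedBall
        ((fun z => inr (A z, B z) (hom c) / wdg (hom c) (A z, B z)) x) (2 * |M|)) := by
    intro w hw'
    rw [Metric.mem_closedBall, dist_eq_norm]
    refine (norm_sub_le _ _).trans ?_
    have h1 := (hbd w hw').trans (le_abs_self M)
    have h2 := (hbd x (Metric.mem_ball_self hr2)).trans (le_abs_self M)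
    linarith
  have hz2 : z ∈ Metric.ball x (r / 2) := Metric.ball_subset_ball (by linarith) hz
  have hzr : z ∈ Metric.ball x r := Metric.ball_subset_ball (by linarith) hz
  have hd2 := Complex.dist_le_div_mul_dist_of_mapsTo_ball
    (hGd.mono (Metric.ball_subset_ball (by linarith))) hmaps hz2
  rw [dist_eq_norm, dist_eq_norm] at hd2
  have h1 := l03_le (c := hom c) (p := (A z, B z)) (q := (A x, B x)) hc0 (hAB z hzr) (hAB x hx)
    (hw z hzr) (hw x hx)
  refine h1.trans (hd2.trans ?_)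
  have e1 : 2 * |M| / (r / 2) * ‖z - x‖ = 4 * |M| * ‖z - x‖ / r := by
    field_simp
    ring
  rw [e1]
  refine div_le_div_of_nonneg_right ?_ hr.le
  refine mul_le_mul_of_nonneg_right ?_ (norm_nonneg _)
  linarith

theorem sphere_schottky (s : ℝ) (hs : 0 < s) : ∃ L : ℝ, 0 < L ∧ ∀ (x : ℂ) (r : ℝ) (A B : ℂ → ℂ),
    0 < r → DifferentiableOn ℂ A (Metric.ball x r) → DifferentiableOn ℂ B (Metric.ball x r) →
    (∀ z ∈ Metric.ball x r, (A z, B z) ≠ (0, 0)) → ∀ u v w : OnePoint ℂ,
    s ≤ dist u v → s ≤ dist v w → s ≤ dist u w →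
    (∀ z ∈ Metric.ball x r, ratio (A z) (B z) ≠ u ∧ ratio (A z) (B z) ≠ v ∧
      ratio (A z) (B z) ≠ w) →
    ∀ z ∈ Metric.ball x (r / 4),
      dist (ratio (A z) (B z)) (ratio (A x) (B x)) ≤ L * ‖z - x‖ / r := by
  obtain ⟨L, hL0, hL⟩ := l03_core s hs
  refine ⟨L, hL0, ?_⟩
  intro x r A B hr hA hB hAB u v w huv hvw huw hom3 z hz
  by_cases h1 : s / 2 ≤ dist u (ratio (A x) (B x))
  · exact hL x r A B hr hA hB hAB u v w huv huw hvw h1 hom3 z hz
  · have h2 : s / 2 ≤ dist v (ratio (A x) (B x)) := by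
      by_contra h2
      push Not at h1 h2
      have h3 := dist_triangle_right u v (ratio (A x) (B x))
      linarith
    have h4 : s ≤ dist v u := by rwa [dist_comm]
    exact hL x r A B hr hA hB hAB v u w h4 hvw huw h2
      (fun z hz => ⟨(hom3 z hz).2.1, (hom3 z hz).1, (hom3 z hz).2.2⟩) z hz

end Pool.Agent.Lib.MP_e4ee3e_an
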