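import Pool.Agent.Lib.MP_e4ee3e_an.LDefs

/-!
L04. Rational maps are open and surjective. Local: at a finite point with Q not 0 the quotient of
the polynomials is analytic and not constant near the point; at a pole use the inversion (an
isometry of the chordal metric); at infinity the reversed polynomials. Surjective: the image is
open and compact, the sphere is connected.
-/

open MeasureTheory Filter Topology

namespace Pool.Agent.Lib.MP_e4ee3e_an

attribute [local instance] chMetric

/-- The inversion of the sphere. -/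
noncomputable def l04_inv (x : OnePoint ℂ) : OnePoint ℂ := ratio (hom x).2 (hom x).1

lemma l04_hom_ne (x : OnePoint ℂ) : ((hom x).2, (hom x).1) ≠ (0, 0) := by
  intro h
  apply hom_ne_zero x
  have h1 := congrArg Prod.fst h
  have h2 := congrArg Prod.snd h
  exact Prod.ext h2 h1

lemma l04_ratio_hom (x : OnePoint ℂ) : ratio (hom x).1 (hom x).2 = x := by
  cases x using OnePoint.rec with
  | infty => simp [ratio]
  | coe x => simp [ratio]

lemma l04_ratio_smul {t a b : ℂ} (ht : t ≠ 0) : ratio (t * a) (t * b) = ratio a b := by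
  unfold ratio
  by_cases hb : b = 0
  · simp [hb]
  · rw [if_neg (mul_ne_zero ht hb), if_neg hb, mul_div_mul_left _ _ ht]

lemma l04_inv_ratio {a b : ℂ} (h : (a, b) ≠ (0, 0)) : l04_inv (ratio a b) = ratio b a := by
  unfold ratio l04_inv
  by_cases hb : b = 0
  · have ha : a ≠ 0 := by
      rintro rfl
      exact h (by rw [hb])
    simp [hb, ratio, ha]
  · rw [if_neg hb]
    simp only [hom_coe]
    by_cases ha : a = 0
    · simp [ha, ratio]
    · have : a / b ≠ 0 := div_ne_zero ha hb
      simp [ratio, ha, hb]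

lemma l04_inv_inv (x : OnePoint ℂ) : l04_inv (l04_inv x) = x := by
  conv_rhs => rw [← l04_ratio_hom x]
  unfold l04_inv
  rw [show ratio (hom (ratio (hom x).2 (hom x).1)).2 (hom (ratio (hom x).2 (hom x).1)).1 =
    l04_inv (ratio (hom x).2 (hom x).1) from rfl]
  exact l04_inv_ratio (l04_hom_ne x)

lemma l04_inv_isometry : Isometry l04_inv := by
  refine Isometry.of_dist_eq fun x y => ?_
  have h1 : ((hom x).1, (hom x).2) ≠ (0, 0) := hom_ne_zero x
  have h2 : ((hom y).1, (hom y).2) ≠ (0, 0) := hom_ne_zero y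
  have h3 : dist x y = dist (ratio (hom x).1 (hom x).2) (ratio (hom y).1 (hom y).2) := by
    rw [l04_ratio_hom, l04_ratio_hom]
  rw [h3, dist_ratio h1 h2, l04_inv, l04_inv, dist_ratio (l04_hom_ne x) (l04_hom_ne y)]
  congr 1
  · rw [← norm_neg]
    congr 1
    ring
  · simp only [nrm]
    rw [add_comm (‖(hom x).2‖ ^ 2), add_comm (‖(hom y).2‖ ^ 2)]

/-- The inversion as a homeomorphism. -/
noncomputable def l04_homeo : OnePoint ℂ ≃ₜ OnePoint ℂ where
  toFun := l04_inv
  invFun := l04_inv
  left_inv := l04_inv_inv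
  right_inv := l04_inv_inv
  continuous_toFun := l04_inv_isometry.continuous
  continuous_invFun := l04_inv_isometry.continuous

lemma l04_local {A B : ℂ → ℂ} {w₀ : ℂ} (hA : AnalyticAt ℂ A w₀) (hB : AnalyticAt ℂ B w₀)
    (h0 : (A w₀, B w₀) ≠ (0, 0))
    (hnc : ¬ ∀ᶠ w in 𝓝 w₀, ratio (A w) (B w) = ratio (A w₀) (B w₀)) :
    𝓝 (ratio (A w₀) (B w₀)) ≤ map (fun w => ratio (A w) (B w)) (𝓝 w₀) := by
  -- the finite case
  have key : ∀ A B : ℂ → ℂ, AnalyticAt ℂ A w₀ → AnalyticAt ℂ B w₀ → B w₀ ≠ 0 →
      (¬ ∀ᶠ w in 𝓝 w₀, ratio (A w) (B w) = ratio (A w₀) (B w₀)) →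
      𝓝 (ratio (A w₀) (B w₀)) ≤ map (fun w => ratio (A w) (B w)) (𝓝 w₀) := by
    intro A B hA hB hb hnc
    have hev : ∀ᶠ w in 𝓝 w₀, B w ≠ 0 := hB.continuousAt.eventually_ne hb
    have heq : (fun w => ratio (A w) (B w)) =ᶠ[𝓝 w₀] fun w => ((A w / B w : ℂ) : OnePoint ℂ) := by
      filter_upwards [hev] with w hw
      rw [ratio, if_neg hw]
    have hAB : AnalyticAt ℂ (fun w => A w / B w) w₀ := hA.div hB hb
    have h1 : ratio (A w₀) (B w₀) = ((A w₀ / B w₀ : ℂ) : OnePoint ℂ) := by rw [ratio, if_neg hb]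
    rcases hAB.eventually_constant_or_nhds_le_map_nhds with hc | hc
    · exfalso
      apply hnc
      filter_upwards [hc, hev] with w hw hw2
      rw [h1, ratio, if_neg hw2, hw]
    · have e1 : map (fun w => ((A w / B w : ℂ) : OnePoint ℂ)) (𝓝 w₀) =
          map (fun z : ℂ => (z : OnePoint ℂ)) (map (fun w => A w / B w) (𝓝 w₀)) := by
        rw [Filter.map_map]
        rfl
      rw [Filter.map_congr heq, h1, OnePoint.nhds_coe_eq, e1]
      exact Filter.map_mono hc
  by_cases hb : B w₀ = 0
  · have ha : A w₀ ≠ 0 := by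
      intro ha
      exact h0 (by rw [ha, hb])
    have hev : ∀ᶠ w in 𝓝 w₀, A w ≠ 0 := hA.continuousAt.eventually_ne ha
    have hswap : ∀ w, A w ≠ 0 → ratio (A w) (B w) = l04_inv (ratio (B w) (A w)) := by
      intro w hw
      rw [l04_inv_ratio]
      intro h
      exact hw (congrArg Prod.snd h)
    have h1 := key B A hB hA ha (by
      intro hc
      apply hnc
      filter_upwards [hc, hev] with w hw hw2
      rw [hswap w hw2, hswap w₀ ha, hw])
    have heq : (fun w => ratio (A w) (B w)) =ᶠ[𝓝 w₀] fun w => l04_inv (ratio (B w) (A w)) := by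
      filter_upwards [hev] with w hw
      exact hswap w hw
    have e1 : map (fun w => l04_inv (ratio (B w) (A w))) (𝓝 w₀) =
        map l04_inv (map (fun w => ratio (B w) (A w)) (𝓝 w₀)) := by
      rw [Filter.map_map]
      rfl
    rw [Filter.map_congr heq, hswap w₀ ha, e1]
    have h2 : 𝓝 (l04_inv (ratio (B w₀) (A w₀))) = map l04_inv (𝓝 (ratio (B w₀) (A w₀))) :=
      (l04_homeo.map_nhds_eq _).symm
    rw [h2]
    exact Filter.map_mono h1
  · exact key A B hA hB hb hnc

lemma l04_inv_coe (w : ℂ) : l04_inv (w : OnePoint ℂ) = ratio 1 w := by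
  simp [l04_inv]

lemma l04_reflect {P Q : Polynomial ℂ} {d : ℕ} (h : RatData P Q d) (w : ℂ) :
    ratMap P Q (l04_inv (w : OnePoint ℂ)) =
      ratio ((Polynomial.reflect d P).eval w) ((Polynomial.reflect d Q).eval w) := by
  have hP : P.natDegree ≤ d := by
    have := h.deg
    omega
  have hQ : Q.natDegree ≤ d := by
    have := h.deg
    omega
  rw [l04_inv_coe]
  by_cases hw : w = 0
  · subst hw
    have h1 : ratio 1 (0 : ℂ) = OnePoint.infty := by simp [ratio]
    rw [h1]
    show ratio (P.coeff (max P.natDegree Q.natDegree)) (Q.coeff (max P.natDegree Q.natDegree)) = _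
    rw [h.deg, ← Polynomial.coeff_zero_eq_eval_zero, ← Polynomial.coeff_zero_eq_eval_zero,
      Polynomial.coeff_reflect, Polynomial.coeff_reflect, Polynomial.revAt_le (Nat.zero_le d),
      Nat.sub_zero]
  · have h1 : ratio 1 w = (((1 / w : ℂ)) : OnePoint ℂ) := by rw [ratio, if_neg hw]
    rw [h1]
    show ratio (P.eval (1 / w)) (Q.eval (1 / w)) = _
    have e : ∀ R : Polynomial ℂ, R.natDegree ≤ d →
        (Polynomial.reflect d R).eval w = w ^ d * R.eval (1 / w) := by
      intro R hR
      rw [Polynomial.eval_eq_sum_range' (n := d + 1) (x := w) (lt_of_le_of_lt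
        (Polynomial.natDegree_reflect_le) (by omega)) , Polynomial.eval_eq_sum_range' (n := d + 1)
        (by omega), Finset.mul_sum, ← Finset.sum_flip]
      refine Finset.sum_congr rfl fun i hi => ?_
      have hi' : i ≤ d := by
        have := Finset.mem_range.1 hi
        omega
      rw [Polynomial.coeff_reflect, Polynomial.revAt_le (by omega)]
      have h3 : d - (d - i) = i := by omega
      rw [h3]
      have h4 : w ^ d = w ^ (d - i) * w ^ i := by
        rw [← pow_add]
        congr 1
        omega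
      rw [h4, one_div, inv_pow]
      have h5 : w ^ i ≠ 0 := pow_ne_zero _ hw
      field_simp
    rw [e P hP, e Q hQ, l04_ratio_smul (pow_ne_zero _ hw)]

theorem ratMap_isOpenMap {P Q : Polynomial ℂ} {d : ℕ} (h : RatData P Q d) :
    IsOpenMap (ratMap P Q) := by
  rw [isOpenMap_iff_nhds_le]
  have hinf : ∀ (g : ℂ → OnePoint ℂ) (w₀ : ℂ) (p : OnePoint ℂ), Function.Injective g →
      ¬ ∀ᶠ w in 𝓝 w₀, ratMap P Q (g w) = p := by
    intro g w₀ p hg hc
    have h1 : {w : ℂ | ratMap P Q (g w) = p} ⊆ g ⁻¹' {x | ratMap P Q x = p} := fun w hw => hw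
    have h2 : {w : ℂ | ratMap P Q (g w) = p}.Finite :=
      ((ratMap_fiber_finite h p).preimage hg.injOn).subset h1
    have h3 : {w : ℂ | ratMap P Q (g w) = p} ∈ 𝓝 w₀ := hc
    exact (infinite_of_mem_nhds w₀ h3) h2
  intro x
  cases x using OnePoint.rec with
  | infty =>
    have h0 : l04_inv ((0 : ℂ) : OnePoint ℂ) = OnePoint.infty := by
      rw [l04_inv_coe]
      simp [ratio]
    have hfun : (fun w : ℂ => ratMap P Q (l04_inv (w : OnePoint ℂ))) = fun w : ℂ =>
        ratio ((Polynomial.reflect d P).eval w) ((Polynomial.reflect d Q).eval w) := by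
      funext w
      exact l04_reflect h w
    have hne : ((Polynomial.reflect d P).eval (0:ℂ), (Polynomial.reflect d Q).eval (0:ℂ)) ≠
        (0, 0) := by
      rw [← Polynomial.coeff_zero_eq_eval_zero, ← Polynomial.coeff_zero_eq_eval_zero,
        Polynomial.coeff_reflect, Polynomial.coeff_reflect, Polynomial.revAt_le (Nat.zero_le d),
        Nat.sub_zero]
      exact s02_coeff h
    have hloc := l04_local (A := fun w => (Polynomial.reflect d P).eval w)
      (B := fun w => (Polynomial.reflect d Q).eval w) (w₀ := 0)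
      ((Polynomial.differentiable _).analyticAt 0) ((Polynomial.differentiable _).analyticAt 0)
      hne (by
        have := hinf (fun w => l04_inv (w : OnePoint ℂ)) 0
          (ratio ((Polynomial.reflect d P).eval 0) ((Polynomial.reflect d Q).eval 0))
          (l04_homeo.injective.comp OnePoint.coe_injective)
        simpa only [l04_reflect h] using this)
    rw [← hfun] at hloc
    have e0 : ratio ((Polynomial.reflect d P).eval 0) ((Polynomial.reflect d Q).eval 0) =
        ratMap P Q OnePoint.infty := by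
      rw [← h0, l04_reflect h]
    rw [e0] at hloc
    have e1 : map (fun w : ℂ => ratMap P Q (l04_inv (w : OnePoint ℂ))) (𝓝 0) =
        map (ratMap P Q) (𝓝 OnePoint.infty) := by
      rw [← h0]
      have e2 : 𝓝 (l04_inv ((0 : ℂ) : OnePoint ℂ)) = map l04_inv (𝓝 ((0 : ℂ) : OnePoint ℂ)) :=
        (l04_homeo.map_nhds_eq _).symm
      rw [e2, OnePoint.nhds_coe_eq, Filter.map_map, Filter.map_map]
      rfl
    rw [← e1]
    exact hloc
  | coe x =>
    have hloc := l04_local (A := fun w => P.eval w) (B := fun w => Q.eval w) (w₀ := x)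
      (P.differentiable.analyticAt x) (Q.differentiable.analyticAt x) (s02_ne h x)
      (hinf (fun w => (w : OnePoint ℂ)) x (ratio (P.eval x) (Q.eval x)) OnePoint.coe_injective)
    rw [OnePoint.nhds_coe_eq, Filter.map_map]
    exact hloc

theorem ratMap_iter_isOpenMap {P Q : Polynomial ℂ} {d : ℕ} (h : RatData P Q d) (n : ℕ) :
    IsOpenMap ((ratMap P Q)^[n]) := by
  induction n with
  | zero => exact IsOpenMap.id
  | succ n ih => rw [Function.iterate_succ']; exact (ratMap_isOpenMap h).comp ih

theorem ratMap_surjective {P Q : Polynomial ℂ} {d : ℕ} (h : RatData P Q d) :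
    Function.Surjective (ratMap P Q) := by
  have h1 : IsClopen (Set.range (ratMap P Q)) :=
    ⟨(isCompact_range (ratMap_continuous h)).isClosed, (ratMap_isOpenMap h).isOpen_range⟩
  have h2 := h1.eq_univ ⟨_, Set.mem_range_self OnePoint.infty⟩
  exact Set.range_eq_univ.1 h2

end Pool.Agent.Lib.MP_e4ee3e_an
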