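import Pool.Agent.Lib.MP_e4ee3e_an.LDefs

/-!
L05. A fibre with one point: f z = e' only for z = e. With e' = [e1 : e2] the polynomial R = e2 P - e1 Q has degree <= d; if e is finite it has the only zero e and its coefficient of degree d is not 0 (otherwise f infinity = e'), so R = C (X - e)^d; if e = infinity it has no zeros, so it is constant (not 0). dist (f z) e' = |R z| / (nrm (P z, Q z) nrm (e1, e2)) by dist_ratio, nrm (P z, Q z) >= c sqrt (1+|z|^2)^d (S02), so dist (f z) e' <= C' dist z e ^ d <= C' dist z e ^ 2 (dist <= 1); z = infinity separately.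
-/

open MeasureTheory Filter Topology

namespace Pool.Agent.Lib.MP_e4ee3e_an

attribute [local instance] chMetric

theorem l05_root {R : Polynomial ℂ} {d : ℕ} {w : ℂ} (hd : R.natDegree = d)
    (h : ∀ z, R.eval z = 0 → z = w) (z : ℂ) :
    ‖R.eval z‖ = ‖R.leadingCoeff‖ * ‖z - w‖ ^ d := by
  have hs := IsAlgClosed.splits R
  have hr : R.roots = Multiset.replicate d w := by
    rw [Multiset.eq_replicate]
    refine ⟨?_, ?_⟩
    · rw [← hs.natDegree_eq_card_roots, hd]
    · intro b hb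
      exact h b (Polynomial.isRoot_of_mem_roots hb)
  rw [hs.eval_eq_prod_roots, hr, Multiset.map_replicate, Multiset.prod_replicate, norm_mul,
    norm_pow]

theorem l05_const {R : Polynomial ℂ} (h : ∀ z, R.eval z ≠ 0) (z : ℂ) :
    R.eval z = R.eval 0 := by
  have hd : R.degree ≤ 0 := by
    by_contra hcon
    obtain ⟨x, hx⟩ := IsAlgClosed.exists_root R (by
      intro h0
      exact hcon h0.le)
    exact h x hx
  rw [Polynomial.eq_C_of_degree_le_zero hd, Polynomial.eval_C, Polynomial.eval_C]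

theorem l05_rep (e : OnePoint ℂ) : ∃ u v : ℂ, (u, v) ≠ (0, 0) ∧ ratio u v = e := by
  cases e using OnePoint.rec with
  | infty =>
    refine ⟨1, 0, ?_, ?_⟩
    · intro h
      exact one_ne_zero (congrArg Prod.fst h)
    · unfold ratio
      rw [if_pos rfl]
  | coe x =>
    refine ⟨x, 1, ?_, ?_⟩
    · intro h
      exact one_ne_zero (congrArg Prod.snd h)
    · unfold ratio
      rw [if_neg one_ne_zero, div_one]

theorem singleton_fiber_contract {P Q : Polynomial ℂ} {d : ℕ} (h : RatData P Q d)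
    {e e' : OnePoint ℂ} (he : ∀ z, ratMap P Q z = e' → z = e) (hee : ratMap P Q e = e') :
    ∃ C : ℝ, 0 < C ∧ ∀ z, dist (ratMap P Q z) e' ≤ C * dist z e ^ 2 := by
  obtain ⟨u, v, huv, hr⟩ := l05_rep e'
  obtain ⟨c, hc, hlow, hlowi⟩ := ratData_lower h
  obtain ⟨hP, hQ⟩ := s02_deg h
  have htwo := h.two
  have hN : 0 < nrm (u, v) := nrm_pos_of_ne huv
  obtain ⟨R, hR⟩ : ∃ R : Polynomial ℂ, R = Polynomial.C v * P - Polynomial.C u * Q := ⟨_, rfl⟩
  have hRe : ∀ z, R.eval z = P.eval z * v - Q.eval z * u := by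
    intro z
    rw [hR, Polynomial.eval_sub, Polynomial.eval_mul, Polynomial.eval_mul, Polynomial.eval_C,
      Polynomial.eval_C]
    ring
  have hRc : R.coeff d = P.coeff d * v - Q.coeff d * u := by
    rw [hR, Polynomial.coeff_sub, Polynomial.coeff_C_mul, Polynomial.coeff_C_mul]
    ring
  have hz : ∀ z : ℂ, dist (ratMap P Q (z : OnePoint ℂ)) e' =
      ‖R.eval z‖ / (nrm (P.eval z, Q.eval z) * nrm (u, v)) := by
    intro z
    rw [← hr, hRe]
    exact dist_ratio (s02_ne h z) huv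
  have hinf : dist (ratMap P Q OnePoint.infty) e' =
      ‖R.coeff d‖ / (nrm (P.coeff d, Q.coeff d) * nrm (u, v)) := by
    rw [← hr, hRc]
    have h1 : ratMap P Q OnePoint.infty = ratio (P.coeff d) (Q.coeff d) := by
      show ratio (P.coeff (max P.natDegree Q.natDegree)) (Q.coeff (max P.natDegree Q.natDegree)) = _
      rw [h.deg]
    rw [h1]
    exact dist_ratio (s02_coeff h) huv
  have he0 : ∀ z : ℂ, R.eval z = 0 → (z : OnePoint ℂ) = e := by
    intro z h0
    apply he
    apply dist_eq_zero.1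
    rw [hz, h0, norm_zero, zero_div]
  have hS : ∀ z : ℂ, 1 ≤ Real.sqrt (1 + ‖z‖ ^ 2) := one_le_sqrt_one_add
  cases e using OnePoint.rec with
  | infty =>
    have hne : ∀ z, R.eval z ≠ 0 := fun z h0 => OnePoint.coe_ne_infty z (he0 z h0)
    refine ⟨‖R.eval 0‖ / (c * nrm (u, v)) + 1, by positivity, ?_⟩
    intro z
    cases z using OnePoint.rec with
    | infty =>
      rw [hee, dist_self]
      positivity
    | coe z =>
      have h1 := hS z
      have h2 := hlow z
      rw [hz, dist_coe_infty, l05_const hne z]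
      have hS0 : 0 < Real.sqrt (1 + ‖z‖ ^ 2) := by linarith
      have h3 : c * Real.sqrt (1 + ‖z‖ ^ 2) ^ 2 ≤ nrm (P.eval z, Q.eval z) :=
        (mul_le_mul_of_nonneg_left (pow_le_pow_right₀ h1 htwo) hc.le).trans h2
      have h4 : ‖R.eval 0‖ / (nrm (P.eval z, Q.eval z) * nrm (u, v)) ≤
          ‖R.eval 0‖ / (c * Real.sqrt (1 + ‖z‖ ^ 2) ^ 2 * nrm (u, v)) :=
        div_le_div_of_nonneg_left (norm_nonneg _) (by positivity)
          (mul_le_mul_of_nonneg_right h3 hN.le)
      have h5 : ‖R.eval 0‖ / (c * Real.sqrt (1 + ‖z‖ ^ 2) ^ 2 * nrm (u, v)) =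
          ‖R.eval 0‖ / (c * nrm (u, v)) * (1 / Real.sqrt (1 + ‖z‖ ^ 2)) ^ 2 := by
        field_simp
      rw [h5] at h4
      refine h4.trans ?_
      exact mul_le_mul_of_nonneg_right (by linarith) (by positivity)
  | coe w =>
    have hcd : R.coeff d ≠ 0 := by
      intro h0
      have h1 : ratMap P Q OnePoint.infty = e' := by
        apply dist_eq_zero.1
        rw [hinf, h0, norm_zero, zero_div]
      exact OnePoint.infty_ne_coe w (he _ h1)
    have hdeg : R.natDegree = d := by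
      apply le_antisymm
      · rw [hR]
        refine (Polynomial.natDegree_sub_le _ _).trans (max_le ?_ ?_)
        · refine Polynomial.natDegree_mul_le.trans ?_
          rw [Polynomial.natDegree_C, zero_add]
          exact hP
        · refine Polynomial.natDegree_mul_le.trans ?_
          rw [Polynomial.natDegree_C, zero_add]
          exact hQ
      · exact Polynomial.le_natDegree_of_ne_zero hcd
    have hroot : ∀ z, R.eval z = 0 → z = w := fun z h0 => OnePoint.coe_injective (he0 z h0)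
    have hSw := hS w
    have hSw0 : 0 < Real.sqrt (1 + ‖w‖ ^ 2) := by linarith
    refine ⟨‖R.leadingCoeff‖ * Real.sqrt (1 + ‖w‖ ^ 2) ^ d / (c * nrm (u, v)) +
      Real.sqrt (1 + ‖w‖ ^ 2) ^ 2, by positivity, ?_⟩
    intro z
    cases z using OnePoint.rec with
    | infty =>
      rw [dist_comm OnePoint.infty, dist_coe_infty]
      refine (dist_le_one _ _).trans ?_
      have h1 : Real.sqrt (1 + ‖w‖ ^ 2) ^ 2 * (1 / Real.sqrt (1 + ‖w‖ ^ 2)) ^ 2 = 1 := by
        field_simp
      rw [add_mul, h1]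
      have h2 : 0 ≤ ‖R.leadingCoeff‖ * Real.sqrt (1 + ‖w‖ ^ 2) ^ d / (c * nrm (u, v)) *
        (1 / Real.sqrt (1 + ‖w‖ ^ 2)) ^ 2 := by positivity
      linarith
    | coe z =>
      have h1 := hS z
      have h2 := hlow z
      have hS0 : 0 < Real.sqrt (1 + ‖z‖ ^ 2) := by linarith
      obtain ⟨δ, hδ⟩ : ∃ δ : ℝ, δ = dist (z : OnePoint ℂ) (w : OnePoint ℂ) := ⟨_, rfl⟩
      have hδ0 : 0 ≤ δ := by rw [hδ]; exact dist_nonneg
      have hδ1 : δ ≤ 1 := by rw [hδ]; exact dist_le_one _ _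
      have hzw : ‖z - w‖ = δ * Real.sqrt (1 + ‖z‖ ^ 2) * Real.sqrt (1 + ‖w‖ ^ 2) := by
        rw [hδ, dist_coe]
        field_simp
      rw [hz, l05_root hdeg hroot, ← hδ, hzw]
      have h4 : ‖R.leadingCoeff‖ * (δ * Real.sqrt (1 + ‖z‖ ^ 2) * Real.sqrt (1 + ‖w‖ ^ 2)) ^ d /
          (nrm (P.eval z, Q.eval z) * nrm (u, v)) ≤
          ‖R.leadingCoeff‖ * (δ * Real.sqrt (1 + ‖z‖ ^ 2) * Real.sqrt (1 + ‖w‖ ^ 2)) ^ d /
          (c * Real.sqrt (1 + ‖z‖ ^ 2) ^ d * nrm (u, v)) :=
        div_le_div_of_nonneg_left (by positivity) (by positivity)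
          (mul_le_mul_of_nonneg_right h2 hN.le)
      have h5 : ‖R.leadingCoeff‖ * (δ * Real.sqrt (1 + ‖z‖ ^ 2) * Real.sqrt (1 + ‖w‖ ^ 2)) ^ d /
          (c * Real.sqrt (1 + ‖z‖ ^ 2) ^ d * nrm (u, v)) =
          ‖R.leadingCoeff‖ * Real.sqrt (1 + ‖w‖ ^ 2) ^ d / (c * nrm (u, v)) * δ ^ d := by
        rw [mul_pow, mul_pow]
        field_simp
      rw [h5] at h4
      refine h4.trans ?_
      have h6 : δ ^ d ≤ δ ^ 2 := pow_le_pow_of_le_one hδ0 hδ1 htwo
      have h7 : ‖R.leadingCoeff‖ * Real.sqrt (1 + ‖w‖ ^ 2) ^ d / (c * nrm (u, v)) * δ ^ d ≤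
          ‖R.leadingCoeff‖ * Real.sqrt (1 + ‖w‖ ^ 2) ^ d / (c * nrm (u, v)) * δ ^ 2 :=
        mul_le_mul_of_nonneg_left h6 (by positivity)
      refine h7.trans ?_
      exact mul_le_mul_of_nonneg_right (by linarith [sq_nonneg (Real.sqrt (1 + ‖w‖ ^ 2))])
        (sq_nonneg δ)

end Pool.Agent.Lib.MP_e4ee3e_an
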