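import Pool.Agent.Lib.MP_e4ee3e_an.S04

/-!
S05. A good point has exactly d preimages, all finite. For y = (y : ℂ) good, R = P - C y * Q has
degree exactly d (its coefficient of degree d is p_d - y q_d, nonzero because
ratMap infinity = ratio p_d q_d is not y; note (p_d, q_d) nonzero); all its roots are simple: at a
double root x one has P x = y Q x, P' x = y Q' x, so the Wronskian vanishes at x, x is marked, and
ratMap x = y (Q x nonzero by coprimality), contradiction. So R has d distinct roots.
-/

open MeasureTheory Filter Topology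

namespace Pool.Agent.Lib.MP_e4ee3e_an

attribute [local instance] chMetric

theorem s05_no_common_zero {P Q : Polynomial ℂ} (h : IsCoprime P Q) (x : ℂ)
    (hP : P.eval x = 0) (hQ : Q.eval x = 0) : False := by
  obtain ⟨a, b, hab⟩ := h
  have h1 := congrArg (Polynomial.eval x) hab
  rw [Polynomial.eval_add, Polynomial.eval_mul, Polynomial.eval_mul, hP, hQ] at h1
  simp at h1

theorem s05_coeff_ne {P Q : Polynomial ℂ} {d : ℕ} (h : RatData P Q d) {y : ℂ}
    (hy : (y : OnePoint ℂ) ∈ good1 P Q) : (P - Polynomial.C y * Q).coeff d ≠ 0 := by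
  have h1 := hy.2 OnePoint.infty (Or.inl rfl)
  have h2 : ratMap P Q OnePoint.infty = ratio (P.coeff d) (Q.coeff d) := by
    show ratio (P.coeff (max P.natDegree Q.natDegree)) (Q.coeff (max P.natDegree Q.natDegree)) = _
    rw [h.deg]
  rw [h2] at h1
  rw [Polynomial.coeff_sub, Polynomial.coeff_C_mul]
  intro h3
  have h4 : P.coeff d = y * Q.coeff d := sub_eq_zero.1 h3
  by_cases hq : Q.coeff d = 0
  · rw [hq, mul_zero] at h4
    have hd := h.deg
    have hd2 := h.two
    rcases le_total P.natDegree Q.natDegree with hle | hle
    · rw [max_eq_right hle] at hd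
      have h5 : Q = 0 := by
        rw [← Polynomial.leadingCoeff_eq_zero, Polynomial.leadingCoeff, hd]
        exact hq
      exact s04_Q_ne_zero h h5
    · rw [max_eq_left hle] at hd
      have h5 : P = 0 := by
        rw [← Polynomial.leadingCoeff_eq_zero, Polynomial.leadingCoeff, hd]
        exact h4
      rw [h5] at hd
      simp at hd
      omega
  · apply h1
    unfold ratio
    rw [if_neg hq, h4, mul_div_assoc, div_self hq, mul_one]

theorem s05_natDegree {P Q : Polynomial ℂ} {d : ℕ} (h : RatData P Q d) {y : ℂ}
    (hy : (y : OnePoint ℂ) ∈ good1 P Q) : (P - Polynomial.C y * Q).natDegree = d := by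
  apply le_antisymm
  · refine (Polynomial.natDegree_sub_le _ _).trans ?_
    have hd := h.deg
    refine max_le (by omega) ?_
    refine Polynomial.natDegree_mul_le.trans ?_
    rw [Polynomial.natDegree_C]
    omega
  · exact Polynomial.le_natDegree_of_ne_zero (s05_coeff_ne h hy)

theorem s05_nodup {P Q : Polynomial ℂ} {d : ℕ} (h : RatData P Q d) {y : ℂ}
    (hy : (y : OnePoint ℂ) ∈ good1 P Q) : (P - Polynomial.C y * Q).roots.Nodup := by
  classical
  rw [Multiset.nodup_iff_count_le_one]
  intro x
  by_contra hx
  rw [not_le, Polynomial.count_roots, Polynomial.one_lt_rootMultiplicity_iff_isRoot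
    (s04_sub_ne_zero h y)] at hx
  obtain ⟨h1, h2⟩ := hx
  have h3 : P.eval x = y * Q.eval x := by
    have := h1
    rw [Polynomial.IsRoot, Polynomial.eval_sub, Polynomial.eval_mul, Polynomial.eval_C] at this
    exact sub_eq_zero.1 this
  have h4 : (Polynomial.derivative P).eval x = y * (Polynomial.derivative Q).eval x := by
    have := h2
    rw [Polynomial.IsRoot, Polynomial.derivative_sub, Polynomial.derivative_mul,
      Polynomial.derivative_C, zero_mul, zero_add, Polynomial.eval_sub, Polynomial.eval_mul,
      Polynomial.eval_C] at this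
    exact sub_eq_zero.1 this
  have h5 : (x : OnePoint ℂ) ∈ marked P Q := by
    refine Or.inr ⟨x, rfl, ?_⟩
    rw [Polynomial.eval_sub, Polynomial.eval_mul, Polynomial.eval_mul, h3, h4]
    ring
  have hq : Q.eval x ≠ 0 := by
    intro hq
    rw [hq, mul_zero] at h3
    exact s05_no_common_zero h.cop x h3 hq
  apply hy.2 _ h5
  show ratio (P.eval x) (Q.eval x) = _
  unfold ratio
  rw [if_neg hq, h3, mul_div_assoc, div_self hq, mul_one]

theorem regular_fiber {P Q : Polynomial ℂ} {d : ℕ} (h : RatData P Q d) {y : OnePoint ℂ}
    (hy : y ∈ good1 P Q) :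
    ∃ child : Fin d → OnePoint ℂ, Function.Injective child ∧
      (∀ i, ratMap P Q (child i) = y) ∧ (∀ i, child i ≠ OnePoint.infty) ∧
      ∀ x, ratMap P Q x = y → ∃ i, child i = x := by
  classical
  cases y using OnePoint.rec with
  | infty => exact absurd rfl hy.1
  | coe y =>
    set R : Polynomial ℂ := P - Polynomial.C y * Q with hR
    have hcard : R.roots.toFinset.card = d := by
      rw [Multiset.toFinset_card_of_nodup (s05_nodup h hy)]
      rw [← (IsAlgClosed.splits R).natDegree_eq_card_roots]
      exact s05_natDegree h hy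
    let eq : R.roots.toFinset ≃ Fin d := R.roots.toFinset.equivFinOfCardEq hcard
    refine ⟨fun i => (((eq.symm i : R.roots.toFinset) : ℂ) : OnePoint ℂ), ?_, ?_, ?_, ?_⟩
    · intro i j hij
      have h1 := OnePoint.coe_injective hij
      exact eq.symm.injective (Subtype.ext h1)
    · intro i
      have h1 : ((eq.symm i : R.roots.toFinset) : ℂ) ∈ R.roots := by
        have := (eq.symm i).2
        rwa [Multiset.mem_toFinset] at this
      set x : ℂ := ((eq.symm i : R.roots.toFinset) : ℂ) with hx
      have h2 : R.IsRoot x := Polynomial.isRoot_of_mem_roots h1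
      have h3 : P.eval x = y * Q.eval x := by
        have := h2
        rw [Polynomial.IsRoot, hR, Polynomial.eval_sub, Polynomial.eval_mul,
          Polynomial.eval_C] at this
        exact sub_eq_zero.1 this
      have hq : Q.eval x ≠ 0 := by
        intro hq
        rw [hq, mul_zero] at h3
        exact s05_no_common_zero h.cop x h3 hq
      show ratio (P.eval x) (Q.eval x) = _
      unfold ratio
      rw [if_neg hq, h3, mul_div_assoc, div_self hq, mul_one]
    · intro i
      exact OnePoint.coe_ne_infty _
    · intro x hx
      cases x using OnePoint.rec with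
      | infty => exact absurd hx (hy.2 _ (Or.inl rfl))
      | coe x =>
        have h2 := (s04_ratio_coe hx).2
        have h3 : x ∈ R.roots.toFinset := by
          rw [Multiset.mem_toFinset, Polynomial.mem_roots (s04_sub_ne_zero h y)]
          show Polynomial.eval x (P - Polynomial.C y * Q) = 0
          rw [Polynomial.eval_sub, Polynomial.eval_mul, Polynomial.eval_C, h2, sub_self]
        refine ⟨eq ⟨x, h3⟩, ?_⟩
        show (((eq.symm (eq ⟨x, h3⟩) : R.roots.toFinset) : ℂ) : OnePoint ℂ) = _
        rw [Equiv.symm_apply_apply]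

end Pool.Agent.Lib.MP_e4ee3e_an
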