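import Pool.Agent.Lib.MP_e4ee3e_an.L04
import Pool.Agent.Lib.MP_e4ee3e_an.S05

/-!
L06. Points all of whose preimage sets have at most two elements lie in a finite completely invariant cycle. T_k = f^-k(q) is not empty, |T_k| <= 2 and nondecreasing (f surjective), so constant for k >= k0; for k >= k0 every y in T_k has a one-point fibre, so y is not in good1 (regular_fiber gives d >= 2 points), i.e. y in the finite set Z = {infinity} ∪ f(marked) (marked_finite). Choose a chain u_0 = q, f u_(k+1) = u_k; pigeonhole: u_i = u_j, k0 <= i < j; E = {u_i, ..., u_j} is a cycle containing q, every point of E has a one-point fibre, contained in E.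
-/

open MeasureTheory Filter Topology

namespace Pool.Agent.Lib.MP_e4ee3e_an

theorem l06_single {X : Type*} {f : X → X} (hs : Function.Surjective f) {q : X}
    (hq : ∀ k : ℕ, ¬ ∃ u v w : X, u ≠ v ∧ v ≠ w ∧ u ≠ w ∧ f^[k] u = q ∧ f^[k] v = q ∧ f^[k] w = q) :
    ∃ k0 : ℕ, ∀ k, k0 ≤ k → ∀ y, f^[k] y = q → ∀ u v, f u = y → f v = y → u = v := by
  by_cases h : ∃ k, ∃ y1 y2 : X, y1 ≠ y2 ∧ f^[k] y1 = q ∧ f^[k] y2 = q
  · obtain ⟨k0, hk0⟩ := h
    have h2 : ∀ k, k0 ≤ k → ∃ y1 y2 : X, y1 ≠ y2 ∧ f^[k] y1 = q ∧ f^[k] y2 = q := by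
      intro k hk
      induction k, hk using Nat.le_induction with
      | base => exact hk0
      | succ k _ ih =>
        obtain ⟨y1, y2, h3, h4, h5⟩ := ih
        obtain ⟨u1, rfl⟩ := hs y1
        obtain ⟨u2, rfl⟩ := hs y2
        exact ⟨u1, u2, fun h6 => h3 (by rw [h6]), h4, h5⟩
    refine ⟨k0, fun k hk y hy u v hu hv => ?_⟩
    by_contra huv
    obtain ⟨y1, y2, h3, h4, h5⟩ := h2 k hk
    obtain ⟨y', hy', hy'q⟩ : ∃ y', y' ≠ y ∧ f^[k] y' = q := by
      by_cases h6 : y1 = y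
      · exact ⟨y2, fun h7 => h3 (h6.trans h7.symm), h5⟩
      · exact ⟨y1, h6, h4⟩
    obtain ⟨w, rfl⟩ := hs y'
    refine hq (k + 1) ⟨u, v, w, huv, ?_, ?_, ?_, ?_, hy'q⟩
    · intro h7; apply hy'; rw [← h7, hv]
    · intro h7; apply hy'; rw [← h7, hu]
    · rw [Function.iterate_succ_apply, hu, hy]
    · rw [Function.iterate_succ_apply, hv, hy]
  · refine ⟨0, fun k _ y hy u v hu hv => ?_⟩
    by_contra huv
    refine h ⟨k + 1, u, v, huv, ?_, ?_⟩
    · rw [Function.iterate_succ_apply, hu, hy]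
    · rw [Function.iterate_succ_apply, hv, hy]

theorem exceptional_cycle {P Q : Polynomial ℂ} {d : ℕ} (h : RatData P Q d) (q : OnePoint ℂ)
    (hq : ∀ k : ℕ, ¬ ∃ u v w : OnePoint ℂ, u ≠ v ∧ v ≠ w ∧ u ≠ w ∧ (ratMap P Q)^[k] u = q ∧
      (ratMap P Q)^[k] v = q ∧ (ratMap P Q)^[k] w = q) :
    ∃ E : Set (OnePoint ℂ), E.Finite ∧ q ∈ E ∧ (∀ z, ratMap P Q z ∈ E ↔ z ∈ E) ∧
      ∀ e ∈ E, ∀ z, ratMap P Q z = ratMap P Q e → z = e := by
  have hs := ratMap_surjective h
  obtain ⟨k0, hk0⟩ := l06_single hs hq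
  obtain ⟨g, hg⟩ := hs.hasRightInverse
  obtain ⟨u, hu⟩ : ∃ u : ℕ → OnePoint ℂ, u = fun k => g^[k] q := ⟨_, rfl⟩
  have hu0 : u 0 = q := by rw [hu]; rfl
  have hus : ∀ k, ratMap P Q (u (k + 1)) = u k := by
    intro k
    rw [hu]
    show ratMap P Q (g^[k + 1] q) = g^[k] q
    rw [Function.iterate_succ_apply', hg]
  have huT : ∀ k, (ratMap P Q)^[k] (u k) = q := by
    intro k
    induction k with
    | zero => exact hu0
    | succ k ih => rw [Function.iterate_succ_apply, hus, ih]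
  have hZ : ({z | z ∉ good1 P Q} : Set (OnePoint ℂ)).Finite := by
    refine ((Set.finite_singleton (OnePoint.infty : OnePoint ℂ)).union
      ((marked_finite h).image (ratMap P Q))).subset ?_
    intro z hz
    by_contra h1
    apply hz
    constructor
    · intro h2; exact h1 (Or.inl h2)
    · intro c hc h2; exact h1 (Or.inr ⟨c, hc, h2⟩)
  have hbad : ∀ n, u (k0 + n) ∉ good1 P Q := by
    intro n hn
    obtain ⟨child, h1, h2, -, -⟩ := regular_fiber h hn
    have hd := h.two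
    have h3 := hk0 (k0 + n) (by omega) (u (k0 + n)) (huT _) (child ⟨0, by omega⟩) (child ⟨1, by omega⟩)
      (h2 _) (h2 _)
    have h4 := h1 h3
    simp at h4
  obtain ⟨i, j, hij, hki, heq⟩ : ∃ i j, i < j ∧ k0 ≤ i ∧ u i = u j := by
    have h1 : ¬ Function.Injective (fun n => u (k0 + n)) := by
      intro h2
      have h3 : (Set.range (fun n => u (k0 + n))).Finite := hZ.subset (by
        rintro _ ⟨n, rfl⟩
        exact hbad n)
      exact Set.infinite_range_of_injective h2 h3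
    unfold Function.Injective at h1
    push Not at h1
    obtain ⟨a, b, h2, h3⟩ := h1
    rcases lt_or_gt_of_ne h3 with h4 | h4
    · exact ⟨k0 + a, k0 + b, by omega, by omega, h2⟩
    · exact ⟨k0 + b, k0 + a, by omega, by omega, h2.symm⟩
  have hone : ∀ l, k0 ≤ l → ∀ z w, ratMap P Q z = u l → ratMap P Q w = u l → z = w :=
    fun l hl z w hz hw => hk0 l hl (u l) (huT l) z w hz hw
  have hfwd : ∀ z, z ∈ u '' Set.Icc i j → ratMap P Q z ∈ u '' Set.Icc i j := by
    rintro _ ⟨l, ⟨hl1, hl2⟩, rfl⟩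
    rcases Nat.lt_or_ge i l with h1 | h1
    · obtain ⟨l', rfl⟩ : ∃ l', l = l' + 1 := ⟨l - 1, by omega⟩
      exact ⟨l', ⟨by omega, by omega⟩, (hus l').symm⟩
    · have h2 : l = i := by omega
      obtain ⟨j', rfl⟩ : ∃ j', j = j' + 1 := ⟨j - 1, by omega⟩
      refine ⟨j', ⟨by omega, by omega⟩, ?_⟩
      rw [h2, heq, hus]
  have hbwd : ∀ z, ratMap P Q z ∈ u '' Set.Icc i j → z ∈ u '' Set.Icc i j := by
    rintro z ⟨l, ⟨hl1, hl2⟩, hz⟩
    rcases Nat.lt_or_ge l j with h1 | h1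
    · refine ⟨l + 1, ⟨by omega, by omega⟩, ?_⟩
      exact hone l (by omega) _ _ (hus l) hz.symm
    · have h2 : l = j := by omega
      refine ⟨i + 1, ⟨by omega, by omega⟩, ?_⟩
      refine hone i hki _ _ (hus i) ?_
      rw [← hz, h2, heq]
  refine ⟨u '' Set.Icc i j, (Set.finite_Icc i j).image u, ?_, fun z => ⟨hbwd z, hfwd z⟩, ?_⟩
  · have h1 : ∀ n, n ≤ i → u (i - n) ∈ u '' Set.Icc i j := by
      intro n
      induction n with
      | zero => intro _; exact ⟨i, ⟨le_rfl, hij.le⟩, rfl⟩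
      | succ n ih =>
        intro hn
        have h2 := hfwd _ (ih (by omega))
        have h3 : i - n = (i - (n + 1)) + 1 := by omega
        rw [h3, hus] at h2
        exact h2
    have h2 := h1 i le_rfl
    rw [Nat.sub_self, hu0] at h2
    exact h2
  · intro e he z hz
    obtain ⟨l, ⟨hl1, _⟩, hl3⟩ := hfwd e he
    exact hone l (by omega) z e (hz.trans hl3.symm) hl3.symm

end Pool.Agent.Lib.MP_e4ee3e_an
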