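import Pool.Agent.Lib.MP_e4ee3e_an.L05
import Pool.Agent.Lib.MP_e4ee3e_an.L06
import Pool.Agent.Lib.MP_e4ee3e_an.S05

/-!
L07. Points of the closure of the backward orbit of a (a in good1, fixed) are not exceptional. If q
is exceptional take E from exceptional_cycle; a is not in E (the fibre of a has d >= 2 points:
regular_fiber). By singleton_fiber_contract there is C with dist (f z) (f e) <= C dist z e ^ 2 for
all e in E (finite), so for small δ the set V = {z : exists e in E, dist z e < δ} satisfies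
f V ⊂ V, a not in V; so the backward orbit of a does not meet V, a neighbourhood of q.
-/

open MeasureTheory Filter Topology

namespace Pool.Agent.Lib.MP_e4ee3e_an

attribute [local instance] chMetric

theorem back_nonexceptional {P Q : Polynomial ℂ} {d : ℕ} (h : RatData P Q d) (a : ℂ)
    (hfa : ratMap P Q (a : OnePoint ℂ) = (a : OnePoint ℂ)) (ha : (a : OnePoint ℂ) ∈ good1 P Q) :
    ∀ q ∈ closure (backOrbit P Q a), ∃ (k : ℕ) (u v w : OnePoint ℂ), u ≠ v ∧ v ≠ w ∧ u ≠ w ∧
      (ratMap P Q)^[k] u = q ∧ (ratMap P Q)^[k] v = q ∧ (ratMap P Q)^[k] w = q := by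
  intro q hq
  by_contra hcon
  push Not at hcon
  obtain ⟨E, hEf, hqE, hEinv, hEtot⟩ := exceptional_cycle h q (by
    rintro k ⟨u, v, w, h1, h2, h3, h4, h5, h6⟩
    exact hcon k u v w h1 h2 h3 h4 h5 h6)
  -- a is not in E
  have haE : (a : OnePoint ℂ) ∉ E := by
    intro haE
    obtain ⟨child, hinj, hmap, hne, _⟩ := regular_fiber h ha
    have h2 := h.two
    have hall : ∀ i, child i = (a : OnePoint ℂ) := by
      intro i
      exact hEtot _ haE _ ((hmap i).trans hfa.symm)
    have h3 : (⟨0, by omega⟩ : Fin d) = ⟨1, by omega⟩ :=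
      hinj ((hall _).trans (hall _).symm)
    simp at h3
  -- a uniform constant
  have hC : ∀ e : OnePoint ℂ, e ∈ E → ∃ C : ℝ, 0 < C ∧
      ∀ z, dist (ratMap P Q z) (ratMap P Q e) ≤ C * dist z e ^ 2 := by
    intro e he
    exact singleton_fiber_contract h (fun z hz => hEtot e he z hz) rfl
  choose! C hC0 hC1 using hC
  obtain ⟨K, hK⟩ : ∃ K : ℝ, ∀ e ∈ E, C e ≤ K := by
    obtain ⟨K, hK⟩ := (hEf.image C).bddAbove
    exact ⟨K, fun e he => hK ⟨e, he, rfl⟩⟩
  have hKpos : 0 < K := (hC0 q hqE).trans_le (hK q hqE)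
  -- the distance of a to E
  obtain ⟨δ₀, hδ₀, hδa⟩ : ∃ δ₀ : ℝ, 0 < δ₀ ∧ ∀ e ∈ E, δ₀ ≤ dist (a : OnePoint ℂ) e := by
    have h1 : IsClosed E := hEf.isClosed
    have h2 : Eᶜ ∈ 𝓝 (a : OnePoint ℂ) := h1.isOpen_compl.mem_nhds haE
    obtain ⟨δ₀, hδ₀, hb⟩ := Metric.mem_nhds_iff.1 h2
    refine ⟨δ₀, hδ₀, fun e he => ?_⟩
    by_contra hlt
    push Not at hlt
    exact hb (by rw [Metric.mem_ball, dist_comm]; exact hlt) he
  set δ : ℝ := min δ₀ (1 / K) with hδ
  have hδpos : 0 < δ := lt_min hδ₀ (by positivity)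
  let V : Set (OnePoint ℂ) := {z | ∃ e ∈ E, dist z e < δ}
  have hVinv : ∀ z ∈ V, ratMap P Q z ∈ V := by
    rintro z ⟨e, he, hze⟩
    refine ⟨ratMap P Q e, (hEinv e).2 he, ?_⟩
    have h1 := hC1 e he z
    have h0 : 0 ≤ dist z e := dist_nonneg
    have h2 : C e * dist z e ^ 2 ≤ K * dist z e ^ 2 :=
      mul_le_mul_of_nonneg_right (hK e he) (by positivity)
    rcases h0.eq_or_lt with h3 | h3
    · rw [← h3] at h1 h2
      have : dist (ratMap P Q z) (ratMap P Q e) ≤ 0 := by
        refine h1.trans ?_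
        simp
      linarith
    · have h4 : K * dist z e < 1 := by
        have h5 : dist z e < 1 / K := hze.trans_le (min_le_right _ _)
        rw [lt_div_iff₀ hKpos] at h5
        linarith
      calc dist (ratMap P Q z) (ratMap P Q e) ≤ K * dist z e ^ 2 := h1.trans h2
        _ = (K * dist z e) * dist z e := by ring
        _ ≤ 1 * dist z e := by
            apply mul_le_mul_of_nonneg_right h4.le h0
        _ < δ := by rw [one_mul]; exact hze
  have haV : (a : OnePoint ℂ) ∉ V := by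
    rintro ⟨e, he, hlt⟩
    have := hδa e he
    have h2 := hlt.trans_le (min_le_left δ₀ (1 / K))
    linarith
  have hVit : ∀ (m : ℕ) (z : OnePoint ℂ), z ∈ V → (ratMap P Q)^[m] z ∈ V := by
    intro m
    induction m with
    | zero => intro z hz; exact hz
    | succ m ih =>
      intro z hz
      rw [Function.iterate_succ_apply]
      exact ih _ (hVinv z hz)
  obtain ⟨z, hz, hzq⟩ := Metric.mem_closure_iff.1 hq δ hδpos
  obtain ⟨m, hm⟩ := hz
  apply haV
  rw [← hm]
  exact hVit m z ⟨q, hqE, by rw [dist_comm]; exact hzq⟩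

end Pool.Agent.Lib.MP_e4ee3e_an
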