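import Pool.Agent.Lib.MP_e4ee3e_an.L04

/-!
L08. Uniformly separated triples of preimages (compactness). G k s = {q : there are u v w with f^k = q and pairwise distances > s} is open (f^k is open), and if q has three preimages of level k then also of every level k' >= k (f surjective). Finite subcover: one k for all q in K; then K is covered by the increasing open sets G k (1/(j+1)).
-/

open MeasureTheory Filter Topology

namespace Pool.Agent.Lib.MP_e4ee3e_an

attribute [local instance] chMetric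

/-- points with three preimages which are more than `s` apart. -/
def l08_G {X : Type*} [PseudoMetricSpace X] (f : X → X) (s : ℝ) : Set X :=
  {q | ∃ u v w : X, s < dist u v ∧ s < dist v w ∧ s < dist u w ∧ f u = q ∧ f v = q ∧ f w = q}

theorem l08_open {X : Type*} [PseudoMetricSpace X] {f : X → X} (hf : IsOpenMap f) (s : ℝ) :
    IsOpen (l08_G f s) := by
  rw [isOpen_iff_mem_nhds]
  rintro q ⟨u, v, w, h1, h2, h3, hu, hv, hw⟩
  obtain ⟨ε, hε, e1, e2, e3⟩ : ∃ ε : ℝ, 0 < ε ∧ s + 2 * ε < dist u v ∧ s + 2 * ε < dist v w ∧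
      s + 2 * ε < dist u w := by
    refine ⟨min (dist u v - s) (min (dist v w - s) (dist u w - s)) / 4, ?_, ?_, ?_, ?_⟩
    · apply div_pos _ (by norm_num)
      apply lt_min (by linarith) (lt_min (by linarith) (by linarith))
    all_goals
      have a1 := min_le_left (dist u v - s) (min (dist v w - s) (dist u w - s))
      have a2 := (min_le_right (dist u v - s) (min (dist v w - s) (dist u w - s))).trans (min_le_left _ _)
      have a3 := (min_le_right (dist u v - s) (min (dist v w - s) (dist u w - s))).trans (min_le_right _ _)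
      linarith
  have b1 : f '' Metric.ball u ε ∈ 𝓝 q := by
    rw [← hu]; exact hf.image_mem_nhds (Metric.ball_mem_nhds u hε)
  have b2 : f '' Metric.ball v ε ∈ 𝓝 q := by
    rw [← hv]; exact hf.image_mem_nhds (Metric.ball_mem_nhds v hε)
  have b3 : f '' Metric.ball w ε ∈ 𝓝 q := by
    rw [← hw]; exact hf.image_mem_nhds (Metric.ball_mem_nhds w hε)
  filter_upwards [b1, b2, b3] with q' c1 c2 c3
  obtain ⟨u', hu1, hu2⟩ := c1
  obtain ⟨v', hv1, hv2⟩ := c2
  obtain ⟨w', hw1, hw2⟩ := c3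
  rw [Metric.mem_ball] at hu1 hv1 hw1
  have t1 := dist_triangle4 u u' v' v
  have t2 := dist_triangle4 v v' w' w
  have t3 := dist_triangle4 u u' w' w
  rw [dist_comm u u'] at t1 t3
  rw [dist_comm v v'] at t2
  exact ⟨u', v', w', by linarith, by linarith, by linarith, hu2, hv2, hw2⟩

theorem l08_main {X : Type*} [MetricSpace X] {f : X → X} (hs : Function.Surjective f)
    (ho : ∀ n, IsOpenMap (f^[n])) {K : Set X} (hK : IsCompact K)
    (ht : ∀ q ∈ K, ∃ (k : ℕ) (u v w : X), u ≠ v ∧ v ≠ w ∧ u ≠ w ∧ f^[k] u = q ∧ f^[k] v = q ∧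
      f^[k] w = q) :
    ∃ (s : ℝ) (k : ℕ), 0 < s ∧ ∀ q ∈ K, ∃ u v w : X, s ≤ dist u v ∧ s ≤ dist v w ∧
      s ≤ dist u w ∧ f^[k] u = q ∧ f^[k] v = q ∧ f^[k] w = q := by
  have hmono : ∀ k, l08_G (f^[k]) 0 ⊆ l08_G (f^[k + 1]) 0 := by
    rintro k q ⟨u, v, w, h1, h2, h3, hu, hv, hw⟩
    obtain ⟨u1, rfl⟩ := hs u
    obtain ⟨v1, rfl⟩ := hs v
    obtain ⟨w1, rfl⟩ := hs w
    refine ⟨u1, v1, w1, ?_, ?_, ?_, hu, hv, hw⟩
    · exact dist_pos.2 fun h => by rw [h, dist_self] at h1; exact lt_irrefl _ h1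
    · exact dist_pos.2 fun h => by rw [h, dist_self] at h2; exact lt_irrefl _ h2
    · exact dist_pos.2 fun h => by rw [h, dist_self] at h3; exact lt_irrefl _ h3
  obtain ⟨k, hk⟩ := hK.elim_directed_cover (fun k => l08_G (f^[k]) 0)
    (fun k => l08_open (ho k) 0) (by
      intro q hq
      obtain ⟨k, u, v, w, h1, h2, h3, h4, h5, h6⟩ := ht q hq
      exact Set.mem_iUnion.2 ⟨k, u, v, w, dist_pos.2 h1, dist_pos.2 h2, dist_pos.2 h3, h4, h5, h6⟩)
    (monotone_nat_of_le_succ hmono).directed_le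
  obtain ⟨n, hn⟩ := hK.elim_directed_cover (fun n : ℕ => l08_G (f^[k]) (1 / ((n : ℝ) + 1)))
    (fun n => l08_open (ho k) _) (by
      intro q hq
      obtain ⟨u, v, w, h1, h2, h3, h4, h5, h6⟩ := hk hq
      obtain ⟨n, hn⟩ := exists_nat_one_div_lt (lt_min h1 (lt_min h2 h3))
      refine Set.mem_iUnion.2 ⟨n, u, v, w, hn.trans_le (min_le_left _ _),
        hn.trans_le ((min_le_right _ _).trans (min_le_left _ _)),
        hn.trans_le ((min_le_right _ _).trans (min_le_right _ _)), h4, h5, h6⟩)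
    (by
      apply Monotone.directed_le
      apply monotone_nat_of_le_succ
      rintro m q ⟨u, v, w, h1, h2, h3, hu, hv, hw⟩
      have h4 : 1 / (((m + 1 : ℕ) : ℝ) + 1) ≤ 1 / ((m : ℝ) + 1) := by
        apply one_div_le_one_div_of_le (by positivity)
        push_cast
        linarith
      exact ⟨u, v, w, h4.trans_lt h1, h4.trans_lt h2, h4.trans_lt h3, hu, hv, hw⟩)
  refine ⟨1 / ((n : ℝ) + 1), k, by positivity, fun q hq => ?_⟩
  obtain ⟨u, v, w, h1, h2, h3, hu, hv, hw⟩ := hn hq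
  exact ⟨u, v, w, h1.le, h2.le, h3.le, hu, hv, hw⟩

theorem uniform_triples {P Q : Polynomial ℂ} {d : ℕ} (h : RatData P Q d) {K : Set (OnePoint ℂ)}
    (hK : IsCompact K)
    (ht : ∀ q ∈ K, ∃ (k : ℕ) (u v w : OnePoint ℂ), u ≠ v ∧ v ≠ w ∧ u ≠ w ∧
      (ratMap P Q)^[k] u = q ∧ (ratMap P Q)^[k] v = q ∧ (ratMap P Q)^[k] w = q) :
    ∃ (s : ℝ) (k : ℕ), 0 < s ∧ ∀ q ∈ K, ∃ u v w : OnePoint ℂ, s ≤ dist u v ∧ s ≤ dist v w ∧
      s ≤ dist u w ∧ (ratMap P Q)^[k] u = q ∧ (ratMap P Q)^[k] v = q ∧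
      (ratMap P Q)^[k] w = q :=
  l08_main (ratMap_surjective h) (fun n => ratMap_iter_isOpenMap h n) hK ht

end Pool.Agent.Lib.MP_e4ee3e_an
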