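import Pool.Agent.Lib.MP_e4ee3e_an.L02
import Pool.Agent.Lib.MP_e4ee3e_an.L03

/-!
L09. If all iterates of level >= N₁ omit s-separated triples on a disc then its centre is not in the Julia set: U = image of ball x (r/4); at z in this ball apply sphere_schottky (with iter_hom) on ball z (r/2): dist (f^N w) (f^N z) <= L |w - z| / (r/2) for w in ball z (r/8), all N >= N₁; the finitely many N < N₁ by continuity (ratMap_iter_continuous).
-/

open MeasureTheory Filter Topology

namespace Pool.Agent.Lib.MP_e4ee3e_an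

attribute [local instance] chMetric

theorem l09_nhds {y : ℂ} {V : Set ℂ} (hV : V ∈ 𝓝 y) :
    ((fun w : ℂ => (w : OnePoint ℂ)) '' V) ∈ 𝓝 (y : OnePoint ℂ) := by
  rw [OnePoint.nhds_coe_eq]
  exact Filter.image_mem_map hV

theorem not_julia_of_triples {P Q : Polynomial ℂ} {d : ℕ} (h : RatData P Q d) (x : ℂ) (r s : ℝ)
    (hr : 0 < r) (hs : 0 < s) (N₁ : ℕ)
    (ht : ∀ N, N₁ ≤ N → ∃ u v w : OnePoint ℂ, s ≤ dist u v ∧ s ≤ dist v w ∧ s ≤ dist u w ∧
      ∀ z ∈ Metric.ball x r, (ratMap P Q)^[N] (z : OnePoint ℂ) ≠ u ∧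
        (ratMap P Q)^[N] (z : OnePoint ℂ) ≠ v ∧ (ratMap P Q)^[N] (z : OnePoint ℂ) ≠ w) :
    (x : OnePoint ℂ) ∉ julia (ratMap P Q) := by
  obtain ⟨L, hL0, hL⟩ := sphere_schottky s hs
  intro hJ
  apply hJ
  refine ⟨(fun w : ℂ => (w : OnePoint ℂ)) '' Metric.ball x (r / 4),
    l09_nhds (Metric.ball_mem_nhds x (by positivity)), ?_⟩
  rintro _ ⟨z, hz, rfl⟩ ε hε
  have hzr : Metric.ball z (r / 2) ⊆ Metric.ball x r := by
    apply Metric.ball_subset_ball'
    rw [Metric.mem_ball] at hz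
    linarith
  set δ : ℝ := min (r / 8) (ε * r / (4 * L)) with hδ
  have hδ0 : 0 < δ := lt_min (by positivity) (by positivity)
  have hev1 : ∀ᶠ w in 𝓝 (z : OnePoint ℂ), ∀ N ∈ Finset.range N₁,
      dist ((ratMap P Q)^[N] w) ((ratMap P Q)^[N] (z : OnePoint ℂ)) < ε := by
    rw [Filter.eventually_all_finset]
    intro N _
    have hc := (ratMap_iter_continuous h N).continuousAt (x := (z : OnePoint ℂ))
    exact hc (Metric.ball_mem_nhds _ hε)
  have hev2 : ∀ᶠ w in 𝓝 (z : OnePoint ℂ), w ∈ (fun w : ℂ => (w : OnePoint ℂ)) '' Metric.ball z δ :=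
    l09_nhds (Metric.ball_mem_nhds z hδ0)
  refine ⟨_, hev1.and hev2, ?_⟩
  rintro w ⟨hw1, w', hw', rfl⟩ n
  rw [← dist_eq_chd]
  rcases lt_or_ge n N₁ with hn | hn
  · exact hw1 n (Finset.mem_range.2 hn)
  · obtain ⟨A, B, hA, hB, hAB, hF⟩ := iter_hom h n
    obtain ⟨u, v, w, huv, hvw, huw, hom3⟩ := ht n hn
    have h1 := hL z (r / 2) A B (by positivity) hA.differentiableOn hB.differentiableOn
      (fun z _ => hAB z) u v w huv hvw huw
      (fun z' hz' => by
        rw [← hF z']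
        exact hom3 z' (hzr hz'))
      w' (by
        refine Metric.ball_subset_ball ?_ hw'
        have := min_le_left (r / 8) (ε * r / (4 * L))
        rw [← hδ] at this
        linarith)
    simp only
    rw [hF w', hF z]
    refine lt_of_le_of_lt h1 ?_
    rw [mem_ball_iff_norm] at hw'
    have h2 : δ ≤ ε * r / (4 * L) := min_le_right _ _
    have h3 : ‖w' - z‖ < ε * r / (4 * L) := lt_of_lt_of_le hw' h2
    rw [div_lt_iff₀ (by positivity)]
    have h4 : L * ‖w' - z‖ < L * (ε * r / (4 * L)) := mul_lt_mul_of_pos_left h3 hL0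
    have h5 : L * (ε * r / (4 * L)) = ε * r / 4 := by field_simp
    have h6 : 0 < ε * r := by positivity
    linarith

end Pool.Agent.Lib.MP_e4ee3e_an
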