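import Pool.Agent.Lib.MP_e4ee3e_an.L04
import Pool.Agent.Lib.MP_e4ee3e_an.L05

/-!
L10. Julia set: backward invariance (f is open), and infinity in the Julia set has a finite preimage (otherwise the fibre of infinity is {infinity}, singleton_fiber_contract shows f^n -> infinity uniformly near infinity, so infinity is not in the Julia set).
-/

open MeasureTheory Filter Topology

namespace Pool.Agent.Lib.MP_e4ee3e_an

attribute [local instance] chMetric

theorem julia_backward {P Q : Polynomial ℂ} {d : ℕ} (h : RatData P Q d) {x : OnePoint ℂ}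
    (hx : ratMap P Q x ∈ julia (ratMap P Q)) : x ∈ julia (ratMap P Q) := by
  rintro ⟨U, hU, hE⟩
  apply hx
  have hop := ratMap_isOpenMap h
  refine ⟨ratMap P Q '' U, hop.image_mem_nhds hU, ?_⟩
  rintro _ ⟨z, hz, rfl⟩ ε hε
  obtain ⟨V, hV, hVE⟩ := hE z hz ε hε
  refine ⟨ratMap P Q '' V, hop.image_mem_nhds hV, ?_⟩
  rintro _ ⟨w, hw, rfl⟩ n
  have := hVE w hw (n + 1)
  rwa [Function.iterate_succ_apply, Function.iterate_succ_apply] at this

theorem finite_preimage_infty {P Q : Polynomial ℂ} {d : ℕ} (h : RatData P Q d)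
    (hx : OnePoint.infty ∈ julia (ratMap P Q)) :
    ∃ x : ℂ, ratMap P Q (x : OnePoint ℂ) = OnePoint.infty := by
  by_contra hcon
  push Not at hcon
  set f := ratMap P Q with hf
  have he : ∀ z, f z = OnePoint.infty → z = OnePoint.infty := by
    intro z hz
    cases z using OnePoint.rec with
    | infty => rfl
    | coe z => exact absurd hz (hcon z)
  have hee : f OnePoint.infty = OnePoint.infty := by
    obtain ⟨z, hz⟩ := ratMap_surjective h OnePoint.infty
    have := he z hz
    rw [← this]
    rw [this]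
    rw [this] at hz
    exact hz
  obtain ⟨C, hC, hb⟩ := singleton_fiber_contract h he hee
  set r : ℝ := 1 / (2 * C) with hr
  have hr0 : 0 < r := by positivity
  have hiter : ∀ z : OnePoint ℂ, dist z OnePoint.infty < r → ∀ n : ℕ,
      dist (f^[n] z) OnePoint.infty ≤ (1 / 2) ^ n * dist z OnePoint.infty ∧
        dist (f^[n] z) OnePoint.infty < r := by
    intro z hz n
    induction n with
    | zero => simpa using hz
    | succ n ih =>
      have h1 := hb (f^[n] z)
      have h2 : C * dist (f^[n] z) OnePoint.infty ^ 2 ≤ 1 / 2 * dist (f^[n] z) OnePoint.infty := by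
        have h3 : C * dist (f^[n] z) OnePoint.infty ≤ C * r :=
          mul_le_mul_of_nonneg_left ih.2.le hC.le
        have h4 : C * r = 1 / 2 := by
          rw [hr]
          field_simp
        have h5 : (0 : ℝ) ≤ dist (f^[n] z) OnePoint.infty := dist_nonneg
        nlinarith
      have h6 : dist (f^[n + 1] z) OnePoint.infty ≤ 1 / 2 * dist (f^[n] z) OnePoint.infty := by
        rw [Function.iterate_succ_apply']
        exact h1.trans h2
      constructor
      · calc dist (f^[n + 1] z) OnePoint.infty ≤ 1 / 2 * dist (f^[n] z) OnePoint.infty := h6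
          _ ≤ 1 / 2 * ((1 / 2) ^ n * dist z OnePoint.infty) :=
            mul_le_mul_of_nonneg_left ih.1 (by norm_num)
          _ = (1 / 2) ^ (n + 1) * dist z OnePoint.infty := by ring
      · have h5 : (0 : ℝ) ≤ dist (f^[n] z) OnePoint.infty := dist_nonneg
        linarith [ih.2]
  apply hx
  refine ⟨Metric.ball OnePoint.infty r, Metric.ball_mem_nhds _ hr0, ?_⟩
  intro z hz ε hε
  have hlim : Tendsto (fun n : ℕ => (2 * r) * (1 / 2 : ℝ) ^ n) atTop (𝓝 ((2 * r) * 0)) :=
    (tendsto_pow_atTop_nhds_zero_of_lt_one (by norm_num) (by norm_num)).const_mul _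
  rw [mul_zero] at hlim
  obtain ⟨N, hN⟩ := (hlim.eventually (gt_mem_nhds hε)).exists_forall_of_atTop
  have hcont : ∀ n, Continuous f^[n] := fun n => (ratMap_continuous h).iterate n
  have hev : ∀ᶠ w in 𝓝 z, ∀ n ∈ Finset.range N, dist (f^[n] w) (f^[n] z) < ε := by
    rw [Filter.eventually_all_finset]
    intro n _
    exact (Metric.tendsto_nhds.1 ((hcont n).tendsto z)) ε hε
  have hball : ∀ᶠ w in 𝓝 z, w ∈ Metric.ball OnePoint.infty r := Metric.isOpen_ball.mem_nhds hz
  refine ⟨_, hev.and hball, ?_⟩
  rintro w ⟨hw1, hw2⟩ n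
  show dist (f^[n] w) (f^[n] z) < ε
  by_cases hn : n < N
  · exact hw1 n (Finset.mem_range.2 hn)
  · have h1 := (hiter w hw2 n).1
    have h2 := (hiter z hz n).1
    have h3 := hN n (by omega)
    have hz' : dist z OnePoint.infty < r := hz
    have hw' : dist w OnePoint.infty < r := hw2
    have hp : (0 : ℝ) < (1 / 2) ^ n := by positivity
    have h4 := dist_triangle_right (f^[n] w) (f^[n] z) OnePoint.infty
    nlinarith

end Pool.Agent.Lib.MP_e4ee3e_an
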