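import Pool.Agent.Lib.MP_e4ee3e_an.L07
import Pool.Agent.Lib.MP_e4ee3e_an.L08
import Pool.Agent.Lib.MP_e4ee3e_an.L09
import Pool.Agent.Lib.MP_e4ee3e_an.L10

/-!
L11. Moving targets. K = closure of the backward orbit of a is compact and f K ⊂ K (a fixed, f continuous). First x finite. uniform_triples (with back_nonexceptional) gives s, k. Claim: for every p in K there are N >= N₁ and v in O with f^N v = f^N p. Otherwise for N >= N₁ the triple of level k of q = f^(N+k) p is omitted by f^N on O (a point z in O with f^N z = u gives f^(N+k) z = f^(N+k) p), contradiction with not_julia_of_triples. For N fixed the set of such p (v in the interior of O) is open (f^N open and continuous); compactness of K. x = infinity: apply the result to a finite preimage x₁ of infinity (L10), O₁ = f⁻¹ O, N₁ + 1 and to preimages p₁ of p (f surjective).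
-/

open MeasureTheory Filter Topology

namespace Pool.Agent.Lib.MP_e4ee3e_an

attribute [local instance] chMetric

/-- Forward invariance of the closure of the backward orbit. -/
theorem l11_forward {P Q : Polynomial ℂ} {d : ℕ} (h : RatData P Q d) (a : ℂ)
    (hfa : ratMap P Q (a : OnePoint ℂ) = (a : OnePoint ℂ)) {p : OnePoint ℂ}
    (hp : p ∈ closure (backOrbit P Q a)) (n : ℕ) :
    (ratMap P Q)^[n] p ∈ closure (backOrbit P Q a) := by
  have hstep : ∀ q ∈ closure (backOrbit P Q a), ratMap P Q q ∈ closure (backOrbit P Q a) := by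
    intro q hq
    refine map_mem_closure (ratMap_continuous h) hq ?_
    rintro z ⟨m, hm⟩
    refine ⟨m, ?_⟩
    rw [← Function.iterate_succ_apply, Function.iterate_succ_apply', hm, hfa]
  induction n with
  | zero => exact hp
  | succ n ih => rw [Function.iterate_succ_apply']; exact hstep _ ih

/-- The case of a finite point of the Julia set. -/
theorem l11_finite {P Q : Polynomial ℂ} {d : ℕ} (h : RatData P Q d) (a : ℂ)
    (hfa : ratMap P Q (a : OnePoint ℂ) = (a : OnePoint ℂ)) (ha : (a : OnePoint ℂ) ∈ good1 P Q)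
    {x : ℂ} (hx : (x : OnePoint ℂ) ∈ julia (ratMap P Q)) {O : Set (OnePoint ℂ)}
    (hO : O ∈ 𝓝 (x : OnePoint ℂ)) (N₁ : ℕ) :
    ∃ N₂, ∀ p ∈ closure (backOrbit P Q a), ∃ N, N₁ ≤ N ∧ N ≤ N₂ ∧ ∃ v ∈ O,
      (ratMap P Q)^[N] v = (ratMap P Q)^[N] p := by
  have hK : IsCompact (closure (backOrbit P Q a)) := isClosed_closure.isCompact
  obtain ⟨s, k, hs, hsk⟩ := uniform_triples h hK (back_nonexceptional h a hfa ha)
  have hpre : (fun w : ℂ => (w : OnePoint ℂ)) ⁻¹' (interior O) ∈ 𝓝 x :=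
    OnePoint.continuous_coe.continuousAt.preimage_mem_nhds (interior_mem_nhds.mpr hO)
  obtain ⟨r, hr, hrO⟩ := Metric.mem_nhds_iff.mp hpre
  have hpt : ∀ p ∈ closure (backOrbit P Q a), ∃ N, N₁ ≤ N ∧ ∃ v ∈ interior O,
      (ratMap P Q)^[N] v = (ratMap P Q)^[N] p := by
    intro p hp
    by_contra hcon
    push Not at hcon
    refine not_julia_of_triples h x r s hr hs N₁ ?_ hx
    intro N hN
    obtain ⟨u, v, w, huv, hvw, huw, hu, hv, hw⟩ :=
      hsk ((ratMap P Q)^[k + N] p) (l11_forward h a hfa hp _)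
    have key : ∀ z ∈ Metric.ball x r, ∀ y, (ratMap P Q)^[k] y = (ratMap P Q)^[k + N] p →
        (ratMap P Q)^[N] (z : OnePoint ℂ) ≠ y := by
      intro z hz y hy hzy
      have hmem : (z : OnePoint ℂ) ∈ interior O := hrO hz
      refine hcon (k + N) (by omega) _ hmem ?_
      rw [Function.iterate_add_apply, hzy, hy]
    exact ⟨u, v, w, huv, hvw, huw, fun z hz =>
      ⟨key z hz u hu, key z hz v hv, key z hz w hw⟩⟩
  have hopen : ∀ i : ℕ, IsOpen (((ratMap P Q)^[N₁ + i]) ⁻¹'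
      (((ratMap P Q)^[N₁ + i]) '' interior O)) := by
    intro i
    exact ((ratMap_iter_isOpenMap h (N₁ + i)) _ isOpen_interior).preimage
      (ratMap_iter_continuous h (N₁ + i))
  obtain ⟨t, ht⟩ := hK.elim_finite_subcover (fun i : ℕ => ((ratMap P Q)^[N₁ + i]) ⁻¹'
      (((ratMap P Q)^[N₁ + i]) '' interior O)) hopen (by
    intro p hp
    obtain ⟨N, hN, v, hv, hvp⟩ := hpt p hp
    refine Set.mem_iUnion.mpr ⟨N - N₁, ?_⟩
    have hNN : N₁ + (N - N₁) = N := by omega
    show (ratMap P Q)^[N₁ + (N - N₁)] p ∈ ((ratMap P Q)^[N₁ + (N - N₁)]) '' interior O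
    rw [hNN]
    exact ⟨v, hv, hvp⟩)
  refine ⟨N₁ + t.sup id, ?_⟩
  intro p hp
  obtain ⟨i, hi, hpi⟩ := Set.mem_iUnion₂.mp (ht hp)
  obtain ⟨v, hv, hvp⟩ := hpi
  have hle : i ≤ t.sup id := Finset.le_sup (f := id) hi
  exact ⟨N₁ + i, by omega, by omega, v, interior_subset hv, hvp⟩

theorem moving_hit_gen {P Q : Polynomial ℂ} {d : ℕ} (h : RatData P Q d) (a : ℂ)
    (hfa : ratMap P Q (a : OnePoint ℂ) = (a : OnePoint ℂ)) (ha : (a : OnePoint ℂ) ∈ good1 P Q)
    {x : OnePoint ℂ} (hx : x ∈ julia (ratMap P Q)) {O : Set (OnePoint ℂ)} (hO : O ∈ 𝓝 x)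
    (N₁ : ℕ) :
    ∃ N₂, ∀ p ∈ backOrbit P Q a, ∃ N, N₁ ≤ N ∧ N ≤ N₂ ∧ ∃ v ∈ O,
      (ratMap P Q)^[N] v = (ratMap P Q)^[N] p := by
  induction x using OnePoint.rec with
  | infty =>
    obtain ⟨x₁, hx₁⟩ := finite_preimage_infty h hx
    have hxj : (x₁ : OnePoint ℂ) ∈ julia (ratMap P Q) := julia_backward h (by rw [hx₁]; exact hx)
    have hO₁ : (ratMap P Q) ⁻¹' O ∈ 𝓝 (x₁ : OnePoint ℂ) :=
      (ratMap_continuous h).continuousAt.preimage_mem_nhds (by rw [hx₁]; exact hO)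
    obtain ⟨N₂, hN₂⟩ := l11_finite h a hfa ha hxj hO₁ (N₁ + 1)
    refine ⟨N₂, ?_⟩
    rintro p ⟨m, hm⟩
    obtain ⟨p₁, hp₁⟩ := ratMap_surjective h p
    obtain ⟨N, hN, hN', v, hv, hvp⟩ := hN₂ p₁ (subset_closure ⟨m + 1, by
      rw [Function.iterate_succ_apply, hp₁, hm]⟩)
    obtain ⟨M, rfl⟩ : ∃ M, N = M + 1 := ⟨N - 1, by omega⟩
    refine ⟨M, by omega, by omega, ratMap P Q v, hv, ?_⟩
    rw [Function.iterate_succ_apply, Function.iterate_succ_apply, hp₁] at hvp
    exact hvp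
  | coe x =>
    obtain ⟨N₂, hN₂⟩ := l11_finite h a hfa ha hx hO N₁
    exact ⟨N₂, fun p hp => hN₂ p (subset_closure hp)⟩

end Pool.Agent.Lib.MP_e4ee3e_an
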