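import Pool.Agent.Lib.MP_e4ee3e_an.LDefs

/-!
L12. Countability of the bad preimages (ratMap_iter_fiber_finite, marked_finite).
-/

open MeasureTheory Filter Topology

namespace Pool.Agent.Lib.MP_e4ee3e_an

theorem countable_bad {P Q : Polynomial ℂ} {d : ℕ} (h : RatData P Q d) (n : ℕ) :
    {z : OnePoint ℂ | ¬ ((ratMap P Q)^[n] z ≠ OnePoint.infty ∧
      ∀ k, AvoidN P Q k ((ratMap P Q)^[n] z))}.Countable := by
  have hB : ({OnePoint.infty} ∪ ⋃ k : ℕ, (fun c => (ratMap P Q)^[k] c) '' marked P Q :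
      Set (OnePoint ℂ)).Countable :=
    (Set.countable_singleton _).union
      (Set.countable_iUnion fun k => (marked_finite h).countable.image _)
  have hC : (⋃ y ∈ ({OnePoint.infty} ∪ ⋃ k : ℕ, (fun c => (ratMap P Q)^[k] c) '' marked P Q :
      Set (OnePoint ℂ)), {x | (ratMap P Q)^[n] x = y}).Countable :=
    hB.biUnion fun y _ => (ratMap_iter_fiber_finite h n y).countable
  refine hC.mono fun z hz => ?_
  rw [Set.mem_iUnion₂]
  refine ⟨(ratMap P Q)^[n] z, ?_, rfl⟩
  by_contra hc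
  apply hz
  rw [Set.mem_union, Set.mem_singleton_iff, Set.mem_iUnion] at hc
  push Not at hc
  refine ⟨hc.1, fun k j _ _ c hcm hcz => ?_⟩
  exact hc.2 j ⟨c, hcm, hcz⟩

end Pool.Agent.Lib.MP_e4ee3e_an
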