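import Pool.Agent.Lib.MP_e4ee3e_an.L01
import Pool.Agent.Lib.MP_e4ee3e_an.L12
import Pool.Agent.Lib.MP_e4ee3e_an.S05

/-!
L13. A second preimage of a (regular_fiber: a in good1 because AvoidN 1 a and a is finite) and a
good path from a to it (exists_path_avoid_sphere with W = univ and S = bad points of level 0). The
preimage avoids because f^k c = a' implies f^(k+1) c = a.
-/

open MeasureTheory Filter Topology

namespace Pool.Agent.Lib.MP_e4ee3e_an

theorem exists_start_gen {P Q : Polynomial ℂ} {d : ℕ} (h : RatData P Q d) (a : ℂ)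
    (hfa : ratMap P Q (a : OnePoint ℂ) = (a : OnePoint ℂ))
    (hav : ∀ n, AvoidN P Q n (a : OnePoint ℂ)) :
    ∃ a' : OnePoint ℂ, a' ≠ (a : OnePoint ℂ) ∧ ratMap P Q a' = (a : OnePoint ℂ) ∧
      ∃ ξ, GoodPath P Q ξ ∧ ξ 0 = (a : OnePoint ℂ) ∧ ξ 1 = a' := by
  have hg1 : (a : OnePoint ℂ) ∈ good1 P Q :=
    ⟨OnePoint.coe_ne_infty a, fun c hc => hav 1 1 le_rfl le_rfl c hc⟩
  obtain ⟨child, hinj, hmap, hne, _⟩ := regular_fiber h hg1
  have h2 := h.two
  obtain ⟨i, hi⟩ : ∃ i, child i ≠ (a : OnePoint ℂ) := by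
    by_contra hc
    push Not at hc
    have h3 : (⟨0, by omega⟩ : Fin d) = ⟨1, by omega⟩ :=
      hinj ((hc _).trans (hc _).symm)
    simp at h3
  refine ⟨child i, hi, hmap i, ?_⟩
  have hav' : ∀ n, AvoidN P Q n (child i) := by
    intro n k hk _ c hc he
    refine hav (k + 1) (k + 1) (by omega) le_rfl c hc ?_
    rw [Function.iterate_succ_apply', he, hmap]
  have hbad0 := (countable_bad h 0).union (Set.countable_singleton (OnePoint.infty : OnePoint ℂ))
  obtain ⟨π, hπ0, hπ1, hπ⟩ := exists_path_avoid_sphere (W := Set.univ) isOpen_univ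
    PreconnectedSpace.isPreconnected_univ _ hbad0 (Or.inr rfl) (x := (a : OnePoint ℂ))
    (y := child i)
    ⟨trivial, by
      rintro (hc | hc)
      · exact hc ⟨OnePoint.coe_ne_infty a, hav⟩
      · exact OnePoint.coe_ne_infty a hc⟩
    ⟨trivial, by
      rintro (hc | hc)
      · exact hc ⟨hne i, hav'⟩
      · exact hne i hc⟩
  refine ⟨π, ?_, hπ0, hπ1⟩
  intro t
  have h3 : ¬ ¬ ((ratMap P Q)^[0] (π t) ≠ OnePoint.infty ∧
      ∀ k, AvoidN P Q k ((ratMap P Q)^[0] (π t))) := fun hc => (hπ t).2 (Or.inl hc)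
  exact not_not.1 h3

end Pool.Agent.Lib.MP_e4ee3e_an
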