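import Pool.Agent.Lib.MP_e4ee3e_an.L01
import Pool.Agent.Lib.MP_e4ee3e_an.L12
import Pool.Agent.Lib.MP_e4ee3e_an.L11
import Pool.Agent.Lib.MP_e4ee3e_an.K04

/-!
L14. One step. N₂ >= N from moving_hit_gen with N₁ = N; n from Spreads ε N₂; p = liftEnd n ξ a is
in the backward orbit (f^n p = ξ 1, f^(n+1) p = a); N' in [N, N₂] and v in O with
f^N' v = f^N' p = liftEnd (n - N') ξ a (liftEnd_iter and f a = a); liftEnd_surj gives s with
f^N' s = a and liftEnd n ξ s = v; y and s are in f^-N₂(a), hence in compAt n ε, which is open and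
preconnected; path π in it avoiding the countable set of bad points of level n (and infinity),
exists_path_avoid_sphere; then exists_modify (K04).
-/

open MeasureTheory Filter Topology

namespace Pool.Agent.Lib.MP_e4ee3e_an

theorem one_step_gen {P Q : Polynomial ℂ} {d : ℕ} (h : RatData P Q d) (a : ℂ)
    (hfa : ratMap P Q (a : OnePoint ℂ) = (a : OnePoint ℂ))
    (hav : ∀ n, AvoidN P Q n (a : OnePoint ℂ)) (hs : Spreads P Q a)
    {x : OnePoint ℂ} (hx : x ∈ julia (ratMap P Q)) {O : Set (OnePoint ℂ)} (hO : O ∈ 𝓝 x)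
    {ξ : C(unitInterval, OnePoint ℂ)} (hξ : GoodPath P Q ξ) (h0 : ξ 0 = (a : OnePoint ℂ))
    (h1 : ratMap P Q (ξ 1) = (a : OnePoint ℂ)) (N : ℕ) {y : OnePoint ℂ}
    (hy : (ratMap P Q)^[N] y = (a : OnePoint ℂ)) (ε : ℝ) (hε : 0 < ε) :
    ∃ ξ' n, N ≤ n ∧ GoodPath P Q ξ' ∧ ξ' 0 = (a : OnePoint ℂ) ∧ ξ' 1 = ξ 1 ∧
      Modifies a ε ξ ξ' ∧ liftEnd P Q n ξ' y ∈ O := by
  have hg1 : (a : OnePoint ℂ) ∈ good1 P Q :=
    ⟨OnePoint.coe_ne_infty a, fun c hc => hav 1 1 le_rfl le_rfl c hc⟩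
  obtain ⟨N₂, hN₂⟩ := moving_hit_gen h a hfa hg1 hx hO N
  obtain ⟨n, hn, hcomp⟩ := hs ε hε (max N₂ N)
  have hnN : N ≤ n := (le_max_right _ _).trans hn
  have hfan : ∀ j, (ratMap P Q)^[j] (a : OnePoint ℂ) = (a : OnePoint ℂ) :=
    fun j => Function.iterate_fixed hfa j
  have hlev : ∀ {m k : ℕ}, m ≤ k → ∀ {z : OnePoint ℂ}, (ratMap P Q)^[m] z = (a : OnePoint ℂ) →
      (ratMap P Q)^[k] z = (a : OnePoint ℂ) := by
    intro m k hmk z hz
    have h1 : k = (k - m) + m := by omega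
    rw [h1, Function.iterate_add_apply, hz, hfan]
  -- the end of the lift at a
  have hfib := liftEnd_fiber h hξ n (y := (a : OnePoint ℂ)) ((hfan n).trans h0.symm)
  have hp : liftEnd P Q n ξ (a : OnePoint ℂ) ∈ backOrbit P Q a := by
    refine ⟨n + 1, ?_⟩
    rw [Function.iterate_succ_apply', hfib, h1]
  obtain ⟨N', hN'1, hN'2, v, hvO, hv⟩ := hN₂ _ hp
  have hN'n : N' ≤ n := hN'2.trans ((le_max_left _ _).trans hn)
  obtain ⟨m, hm⟩ : ∃ m, n = N' + m := ⟨n - N', by omega⟩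
  have hit := liftEnd_iter h hξ N' m (y := (a : OnePoint ℂ)) ((hfan _).trans h0.symm)
  rw [← hm, hfan, ← hv] at hit
  obtain ⟨s, hs, hsv⟩ := liftEnd_surj h hξ N' m (v := v) (y₁ := (a : OnePoint ℂ))
    ((hfan _).trans h0.symm) hit
  rw [← hm] at hsv
  have hs1 := hcomp s (hlev (hN'2.trans (le_max_left _ _)) hs)
  have hy1 := hcomp y (hlev (le_max_right _ _) hy)
  have hsn : (ratMap P Q)^[n] s = (a : OnePoint ℂ) := hlev hN'n hs
  have hyn : (ratMap P Q)^[n] y = (a : OnePoint ℂ) := hlev hnN hy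
  have hcont := ratMap_iter_continuous h n
  have hdisc : IsOpen (sdisc a ε) := OnePoint.isOpenEmbedding_coe.isOpenMap _ Metric.isOpen_ball
  have hopen : IsOpen ((ratMap P Q)^[n] ⁻¹' sdisc a ε) := hdisc.preimage hcont
  have hlc : LocallyConnectedSpace (OnePoint ℂ) := onePoint_locallyConnected
  let S : Set (OnePoint ℂ) := {z : OnePoint ℂ | ¬ ((ratMap P Q)^[n] z ≠ OnePoint.infty ∧
    ∀ k, AvoidN P Q k ((ratMap P Q)^[n] z))} ∪ {OnePoint.infty}
  have hSc : S.Countable := (countable_bad h n).union (Set.countable_singleton _)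
  have hinf : ∀ z : OnePoint ℂ, (ratMap P Q)^[n] z = (a : OnePoint ℂ) → z ≠ OnePoint.infty := by
    rintro z hz rfl
    rcases Nat.eq_zero_or_pos n with hn0 | hn0
    · rw [hn0] at hz
      exact OnePoint.infty_ne_coe a hz
    · exact hav n n hn0 le_rfl OnePoint.infty (Or.inl rfl) hz
  have hbad : ∀ z : OnePoint ℂ, (ratMap P Q)^[n] z = (a : OnePoint ℂ) → z ∉ S := by
    intro z hz hzS
    rcases hzS with hzS | hzS
    · apply hzS
      rw [hz]
      exact ⟨OnePoint.coe_ne_infty a, hav⟩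
    · exact hinf z hz hzS
  obtain ⟨π, hπ0, hπ1, hπ⟩ := exists_path_avoid_sphere (W := compAt P Q a n ε)
    hopen.connectedComponentIn isPreconnected_connectedComponentIn S hSc (Or.inr rfl)
    (x := y) (y := s) ⟨hy1, hbad y hyn⟩ ⟨hs1, hbad s hsn⟩
  obtain ⟨ξ', g1, g2, g3, g4, g5⟩ := exists_modify h hξ a h0 n (y := y) (s := s) hyn hsn ε hε
    π hπ0 hπ1
    (by
      intro t
      have hmem : π t ∈ (ratMap P Q)^[n] ⁻¹' sdisc a ε :=
        connectedComponentIn_subset _ _ (hπ t).1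
      obtain ⟨z, hz, hzt⟩ := hmem
      refine ⟨z, hz, hzt.symm, ?_⟩
      have h2 : π t ∉ {z : OnePoint ℂ | ¬ ((ratMap P Q)^[n] z ≠ OnePoint.infty ∧
          ∀ k, AvoidN P Q k ((ratMap P Q)^[n] z))} := fun hc => (hπ t).2 (Or.inl hc)
      have h3 := not_not.1 h2
      intro k
      have h4 := h3.2 k
      rw [← hzt] at h4
      exact h4)
  refine ⟨ξ', n, hnN, g1, g2, g3, g4, ?_⟩
  rw [g5, hsv]
  exact hvO

end Pool.Agent.Lib.MP_e4ee3e_an
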