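import Pool.Agent.Lib.MP_e4ee3e_an.K11
import Pool.Agent.Lib.MP_e4ee3e_an.L09
import Pool.Agent.Lib.MP_e4ee3e_an.Q05
import Pool.Agent.Lib.MP_e4ee3e_an.S05

/-!
L15. Non-existence of all inverse branches fixing a. F z = P z / Q z is holomorphic near a (Q a is not 0), F a = a. From f^i (g_i w) = w near a: (deriv F a)^i * deriv (g_i) a = 1 (HasDerivAt.iterate for F; near a the iterates of f are given by F^[i]). f^-2(a) contains two distinct finite points b₁, b₂ different from a (regular_fiber for a and for a second preimage a' of a, which is in good1 too); for i >= 2 g_i omits b₁, b₂ (g_i w = b implies w = f^i b = a, g_i a = a). By schottky (Q05) |g_i| <= M' on ball a (η/2) for all i >= 2. If |F' a| < 1 then |deriv g_i a| -> infinity contradicts Cauchy's estimate. If = 1 then cover_lemma (K11) gives κ with ball a κ ⊂ g_i (ball a (η/2)), so f^i (ball a κ) ⊂ ball a (η/2) for all i >= 2; these maps omit infinity, a + η, a - η, so a is not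 in the Julia set by L09.
-/

open MeasureTheory Filter Topology

namespace Pool.Agent.Lib.MP_e4ee3e_an

attribute [local instance] chMetric

theorem l15_good {P Q : Polynomial ℂ} {y : OnePoint ℂ} (hy : y ≠ OnePoint.infty)
    (hav : AvoidN P Q 1 y) : y ∈ good1 P Q := by
  refine ⟨hy, fun c hc h0 => ?_⟩
  exact hav 1 le_rfl le_rfl c hc h0

theorem l15_two {P Q : Polynomial ℂ} {d : ℕ} (h : RatData P Q d) {y : OnePoint ℂ}
    (hy : y ∈ good1 P Q) : ∃ b₁ b₂ : ℂ, b₁ ≠ b₂ ∧ ratMap P Q (b₁ : OnePoint ℂ) = y ∧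
      ratMap P Q (b₂ : OnePoint ℂ) = y := by
  obtain ⟨child, hinj, hmap, hfin, -⟩ := regular_fiber h hy
  have hd := h.two
  obtain ⟨b₁, hb₁⟩ := OnePoint.ne_infty_iff_exists.1 (hfin ⟨0, by omega⟩)
  obtain ⟨b₂, hb₂⟩ := OnePoint.ne_infty_iff_exists.1 (hfin ⟨1, by omega⟩)
  refine ⟨b₁, b₂, ?_, ?_, ?_⟩
  · intro heq
    have h1 : child ⟨0, by omega⟩ = child ⟨1, by omega⟩ := by
      rw [← hb₁, ← hb₂, heq]
    have h2 := hinj h1
    simp at h2
  · rw [hb₁]; exact hmap _
  · rw [hb₂]; exact hmap _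

theorem l15_points {P Q : Polynomial ℂ} {d : ℕ} (h : RatData P Q d) (a : ℂ)
    (hfa : ratMap P Q (a : OnePoint ℂ) = (a : OnePoint ℂ))
    (hav : ∀ n, AvoidN P Q n (a : OnePoint ℂ)) :
    ∃ b₁ b₂ : ℂ, b₁ ≠ b₂ ∧ b₁ ≠ a ∧ b₂ ≠ a ∧ (ratMap P Q)^[2] (b₁ : OnePoint ℂ) = a ∧
      (ratMap P Q)^[2] (b₂ : OnePoint ℂ) = a := by
  have hga : (a : OnePoint ℂ) ∈ good1 P Q := l15_good (OnePoint.coe_ne_infty a) (hav 1)
  obtain ⟨c₁, c₂, hc, h1, h2⟩ := l15_two h hga
  obtain ⟨a', ha', hfa'⟩ : ∃ a' : ℂ, a' ≠ a ∧ ratMap P Q (a' : OnePoint ℂ) = a := by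
    by_cases h3 : c₁ = a
    · exact ⟨c₂, fun h4 => hc (by rw [h3, h4]), h2⟩
    · exact ⟨c₁, h3, h1⟩
  have hga' : (a' : OnePoint ℂ) ∈ good1 P Q := by
    refine ⟨OnePoint.coe_ne_infty a', fun c hc h0 => ?_⟩
    refine hav 2 2 (by norm_num) le_rfl c hc ?_
    show ratMap P Q (ratMap P Q c) = _
    rw [h0, hfa']
  obtain ⟨b₁, b₂, hb, h3, h4⟩ := l15_two h hga'
  refine ⟨b₁, b₂, hb, ?_, ?_, ?_, ?_⟩
  · intro h5
    rw [h5, hfa] at h3
    exact ha' (OnePoint.coe_injective h3).symm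
  · intro h5
    rw [h5, hfa] at h4
    exact ha' (OnePoint.coe_injective h4).symm
  · show ratMap P Q (ratMap P Q _) = _
    rw [h3, hfa']
  · show ratMap P Q (ratMap P Q _) = _
    rw [h4, hfa']

theorem l15_iter {P Q : Polynomial ℂ} (a : ℂ) (hQ : Q.eval a ≠ 0)
    (hF : P.eval a / Q.eval a = a) (i : ℕ) :
    ∀ᶠ z : ℂ in 𝓝 a, (ratMap P Q)^[i] (z : OnePoint ℂ) =
      (((fun z : ℂ => P.eval z / Q.eval z)^[i] z : ℂ) : OnePoint ℂ) := by
  induction i with
  | zero => exact Eventually.of_forall fun z => rfl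
  | succ i ih =>
    have h1 : ∀ᶠ z in 𝓝 a, Q.eval z ≠ 0 :=
      (Q.continuous.continuousAt (x := a)).eventually_ne hQ
    have h2 : Tendsto (fun z : ℂ => P.eval z / Q.eval z) (𝓝 a) (𝓝 a) := by
      have h3 : ContinuousAt (fun z : ℂ => P.eval z / Q.eval z) a :=
        (P.continuous.continuousAt).div (Q.continuous.continuousAt) hQ
      have h4 := h3.tendsto
      simp only [hF] at h4
      exact h4
    filter_upwards [h1, h2.eventually ih] with z hz1 hz2
    rw [Function.iterate_succ_apply, Function.iterate_succ_apply]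
    have h5 : ratMap P Q (z : OnePoint ℂ) = ((P.eval z / Q.eval z : ℂ) : OnePoint ℂ) := by
      show ratio (P.eval z) (Q.eval z) = _
      unfold ratio
      rw [if_neg hz1]
    rw [h5]
    exact hz2

theorem l15_norm {P Q : Polynomial ℂ} (a : ℂ)
    (hfa : ratMap P Q (a : OnePoint ℂ) = (a : OnePoint ℂ))
    (η : ℝ) (hη : 0 < η) (i : ℕ) (g : ℂ → ℂ)
    (hg : DifferentiableOn ℂ g (Metric.ball a η)) (hga : g a = a)
    (hgf : ∀ w ∈ Metric.ball a η, (ratMap P Q)^[i] ((g w : ℂ) : OnePoint ℂ) =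
      (w : OnePoint ℂ)) :
    ‖deriv (fun z => P.eval z / Q.eval z) a‖ ^ i * ‖deriv g a‖ = 1 := by
  obtain ⟨hQ, hF⟩ := b01_finite hfa
  have hdF : HasDerivAt (fun z => P.eval z / Q.eval z)
      (deriv (fun z => P.eval z / Q.eval z) a) a :=
    ((P.differentiableAt).div (Q.differentiableAt) hQ).hasDerivAt
  set F : ℂ → ℂ := fun z => P.eval z / Q.eval z with hFdef
  set lam : ℂ := deriv F a with hlam
  have hit : HasDerivAt (F^[i]) (lam ^ i) a := HasDerivAt.iterate a hdF hF i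
  have hd : HasDerivAt g (deriv g a) a :=
    (hg.differentiableAt (Metric.ball_mem_nhds a hη)).hasDerivAt
  have h1 : HasDerivAt (F^[i]) (lam ^ i) (g a) := by
    rw [hga]; exact hit
  have h2 : HasDerivAt (fun w => F^[i] (g w)) (lam ^ i * deriv g a) a := h1.comp a hd
  have hgt : Tendsto g (𝓝 a) (𝓝 a) := by
    have := hd.continuousAt.tendsto
    rwa [hga] at this
  have h3 : (fun w => F^[i] (g w)) =ᶠ[𝓝 a] fun w => w := by
    filter_upwards [Metric.ball_mem_nhds a hη, hgt.eventually (l15_iter a hQ hF i)] with w hw hw2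
    have h4 := hgf w hw
    rw [hw2] at h4
    exact OnePoint.coe_injective h4
  have h4 : HasDerivAt (fun w : ℂ => w) (lam ^ i * deriv g a) a :=
    h2.congr_of_eventuallyEq h3.symm
  have h5 := h4.unique (hasDerivAt_id' a)
  rw [← norm_pow, ← norm_mul, h5, norm_one]

theorem no_branches_gen {P Q : Polynomial ℂ} {d : ℕ} (h : RatData P Q d) (a : ℂ)
    (hfa : ratMap P Q (a : OnePoint ℂ) = (a : OnePoint ℂ))
    (hav : ∀ n, AvoidN P Q n (a : OnePoint ℂ))
    (hle : ‖deriv (fun z => P.eval z / Q.eval z) a‖ ≤ 1)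
    (hJ : ‖deriv (fun z => P.eval z / Q.eval z) a‖ = 1 → (a : OnePoint ℂ) ∈ julia (ratMap P Q))
    (η : ℝ) (hη : 0 < η) (g : ℕ → ℂ → ℂ)
    (hg : ∀ i, DifferentiableOn ℂ (g i) (Metric.ball a η)) (hga : ∀ i, g i a = a)
    (hgf : ∀ i, ∀ w ∈ Metric.ball a η, (ratMap P Q)^[i] ((g i w : ℂ) : OnePoint ℂ) =
      (w : OnePoint ℂ)) : False := by
  obtain ⟨b₁, b₂, hb, hb1, hb2, hfb1, hfb2⟩ := l15_points h a hfa hav
  have hnorm : ∀ i, ‖deriv (fun z => P.eval z / Q.eval z) a‖ ^ i * ‖deriv (g i) a‖ = 1 :=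
    fun i => l15_norm a hfa η hη i (g i) (hg i) (hga i) (hgf i)
  have hfixn : ∀ n, (ratMap P Q)^[n] (a : OnePoint ℂ) = a := fun n =>
    Function.iterate_fixed hfa n
  have homit : ∀ b : ℂ, b ≠ a → (ratMap P Q)^[2] (b : OnePoint ℂ) = a → ∀ i, 2 ≤ i →
      ∀ w ∈ Metric.ball a η, g i w ≠ b := by
    intro b hba hfb i hi w hw hgw
    have h1 := hgf i w hw
    obtain ⟨j, rfl⟩ := Nat.exists_eq_add_of_le' hi
    rw [hgw, Function.iterate_add_apply, hfb, hfixn j] at h1
    have h2 := OnePoint.coe_injective h1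
    rw [← h2, hga] at hgw
    exact hba hgw.symm
  obtain ⟨M, hM⟩ := schottky (max ‖a‖ (max ‖b₁‖ ‖b₂‖)) ‖b₁ - b₂‖
    (norm_pos_iff.2 (sub_ne_zero.2 hb))
  have hbd : ∀ i, 2 ≤ i → ∀ z ∈ Metric.ball a (η / 2), ‖g i z‖ ≤ M := by
    intro i hi
    refine hM a η (g i) b₁ b₂ hη (hg i)
      (fun z hz => ⟨homit b₁ hb1 hfb1 i hi z hz, homit b₂ hb2 hfb2 i hi z hz⟩) ?_ ?_ le_rfl ?_
    · exact (le_max_left _ _).trans (le_max_right _ _)
    · exact (le_max_right _ _).trans (le_max_right _ _)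
    · rw [hga i]; exact le_max_left _ _
  set lam : ℝ := ‖deriv (fun z => P.eval z / Q.eval z) a‖ with hlam
  have hl00 : 0 ≤ lam := norm_nonneg _
  rcases lt_or_eq_of_le hle with hlt | heq
  · have hder : ∀ i, 2 ≤ i → ‖deriv (g i) a‖ ≤ M / (η / 4) := by
      intro i hi
      have hsub : Metric.closedBall a (η / 4) ⊆ Metric.ball a (η / 2) :=
        Metric.closedBall_subset_ball (by linarith)
      have hsub2 : Metric.ball a (η / 2) ⊆ Metric.ball a η := Metric.ball_subset_ball (by linarith)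
      refine Complex.norm_deriv_le_of_forall_mem_sphere_norm_le (by positivity) ?_ ?_
      · refine DifferentiableOn.diffContOnCl ?_
        exact (hg i).mono (Metric.closure_ball_subset_closedBall.trans (hsub.trans hsub2))
      · intro z hz
        exact hbd i hi z (hsub (Metric.sphere_subset_closedBall hz))
    have hlim : Tendsto (fun i : ℕ => lam ^ i * (M / (η / 4))) atTop (𝓝 (0 * (M / (η / 4)))) :=
      (tendsto_pow_atTop_nhds_zero_of_lt_one hl00 hlt).mul_const _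
    rw [zero_mul] at hlim
    have hge : ∀ᶠ i : ℕ in atTop, (1 : ℝ) ≤ lam ^ i * (M / (η / 4)) := by
      filter_upwards [Filter.eventually_ge_atTop 2] with i hi
      rw [← hnorm i]
      exact mul_le_mul_of_nonneg_left (hder i hi) (pow_nonneg hl00 i)
    have := ge_of_tendsto hlim hge
    linarith
  · obtain ⟨κ, hκ, hcov⟩ := cover_lemma (η / 2) M (by positivity)
    have hsub : Metric.ball a (η / 2) ⊆ Metric.ball a η := Metric.ball_subset_ball (by linarith)
    have himg : ∀ N, 2 ≤ N → ∀ z ∈ Metric.ball a κ, ∃ w ∈ Metric.ball a (η / 2),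
        (ratMap P Q)^[N] (z : OnePoint ℂ) = (w : OnePoint ℂ) := by
      intro N hN z hz
      have h1 : ‖deriv (g N) a‖ = 1 := by
        have := hnorm N
        rwa [heq, one_pow, one_mul] at this
      have h2 := hcov a (g N) ((hg N).mono hsub) (hbd N hN) h1
      rw [hga N] at h2
      obtain ⟨w, hw, hwz⟩ := h2 hz
      refine ⟨w, hw, ?_⟩
      rw [← hwz]
      exact hgf N w (hsub hw)
    have hηc : (η : ℂ) ≠ 0 := Complex.ofReal_ne_zero.2 hη.ne'
    have hd1 : 0 < dist (OnePoint.infty : OnePoint ℂ) ((a + η : ℂ) : OnePoint ℂ) :=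
      dist_pos.2 (OnePoint.infty_ne_coe _)
    have hd2 : 0 < dist ((a + η : ℂ) : OnePoint ℂ) ((a - η : ℂ) : OnePoint ℂ) := by
      refine dist_pos.2 fun h0 => hηc ?_
      have h1 := OnePoint.coe_injective h0
      linear_combination (1 / 2) * h1
    have hd3 : 0 < dist (OnePoint.infty : OnePoint ℂ) ((a - η : ℂ) : OnePoint ℂ) :=
      dist_pos.2 (OnePoint.infty_ne_coe _)
    refine not_julia_of_triples h a κ (min (dist (OnePoint.infty : OnePoint ℂ)
      ((a + η : ℂ) : OnePoint ℂ)) (min (dist ((a + η : ℂ) : OnePoint ℂ)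
      ((a - η : ℂ) : OnePoint ℂ)) (dist (OnePoint.infty : OnePoint ℂ)
      ((a - η : ℂ) : OnePoint ℂ)))) hκ (lt_min hd1 (lt_min hd2 hd3)) 2 ?_ (hJ heq)
    intro N hN
    refine ⟨OnePoint.infty, ((a + η : ℂ) : OnePoint ℂ), ((a - η : ℂ) : OnePoint ℂ),
      min_le_left _ _, (min_le_right _ _).trans (min_le_left _ _),
      (min_le_right _ _).trans (min_le_right _ _), ?_⟩
    intro z hz
    obtain ⟨w, hw, hfw⟩ := himg N hN z hz
    rw [hfw]
    rw [mem_ball_iff_norm] at hw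
    refine ⟨OnePoint.coe_ne_infty w, ?_, ?_⟩
    · intro h0
      have h1 := OnePoint.coe_injective h0
      rw [h1, add_sub_cancel_left, Complex.norm_real, Real.norm_of_nonneg hη.le] at hw
      linarith
    · intro h0
      have h1 := OnePoint.coe_injective h0
      rw [h1, sub_sub_cancel_left, norm_neg, Complex.norm_real, Real.norm_of_nonneg hη.le] at hw
      linarith

end Pool.Agent.Lib.MP_e4ee3e_an
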