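import Pool.Agent.Lib.MP_e4ee3e_an.L15

/-!
L16. Some inverse branch fixing a takes a value which is not in good1 (so the image of a marked point). Otherwise branch_step (B01), starting with g 0 = id, gives all branches g i with g i a = a, contradiction with no_branches_gen. (good1: finite and not the image of a marked point.)
-/

open MeasureTheory Filter Topology

namespace Pool.Agent.Lib.MP_e4ee3e_an

theorem exists_branch_hit_gen {P Q : Polynomial ℂ} {d : ℕ} (h : RatData P Q d) (a : ℂ)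
    (hfa : ratMap P Q (a : OnePoint ℂ) = (a : OnePoint ℂ))
    (hav : ∀ n, AvoidN P Q n (a : OnePoint ℂ))
    (hle : ‖deriv (fun z => P.eval z / Q.eval z) a‖ ≤ 1)
    (hJ : ‖deriv (fun z => P.eval z / Q.eval z) a‖ = 1 → (a : OnePoint ℂ) ∈ julia (ratMap P Q))
    (η : ℝ) (hη : 0 < η) :
    ∃ (i : ℕ) (g : ℂ → ℂ), DifferentiableOn ℂ g (Metric.ball a η) ∧ g a = a ∧
      (∀ w ∈ Metric.ball a η, (ratMap P Q)^[i] ((g w : ℂ) : OnePoint ℂ) = (w : OnePoint ℂ)) ∧
      ∃ w ∈ Metric.ball a η, ∃ c ∈ marked P Q, ratMap P Q c = ((g w : ℂ) : OnePoint ℂ) := by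
  by_contra hcon
  push Not at hcon
  have hex : ∀ i : ℕ, ∃ g : ℂ → ℂ, DifferentiableOn ℂ g (Metric.ball a η) ∧ g a = a ∧
      ∀ w ∈ Metric.ball a η, (ratMap P Q)^[i] ((g w : ℂ) : OnePoint ℂ) = (w : OnePoint ℂ) := by
    intro i
    induction i with
    | zero => exact ⟨fun w => w, differentiableOn_id, rfl, fun w _ => rfl⟩
    | succ i ih =>
      obtain ⟨g, h1, h2, h3⟩ := ih
      obtain ⟨φ, h4, h5, h6⟩ := branch_step h a η hη g h1
        (fun w hw => ⟨OnePoint.coe_ne_infty _, hcon i g h1 h2 h3 w hw⟩) (a : OnePoint ℂ)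
        (by rw [h2]; exact hfa)
      refine ⟨φ, h4, OnePoint.coe_injective h5, ?_⟩
      intro w hw
      rw [Function.iterate_succ_apply, h6 w hw, h3 w hw]
  choose g h1 h2 h3 using hex
  exact no_branches_gen h a hfa hav hle hJ η hη g h1 h2 h3

end Pool.Agent.Lib.MP_e4ee3e_an
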