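import Pool.Agent.Lib.MP_e4ee3e_an.L00
import Pool.Agent.Lib.MP_e4ee3e_an.L04

/-!
L17. A component of the preimage of an open preconnected set maps onto it. C = component of f⁻¹ V at u is open (onePoint_locallyConnected, IsOpen.connectedComponentIn) and f is open, so f C is open; f C is closed in V: if y in V is in the closure of f C then by compactness there is u' in the closure of C with f u' = y, u' in f⁻¹ V, so C ∪ {u'} is preconnected in f⁻¹ V and u' is in C. V is preconnected.
-/

open MeasureTheory Filter Topology

namespace Pool.Agent.Lib.MP_e4ee3e_an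

theorem component_onto {P Q : Polynomial ℂ} {d : ℕ} (h : RatData P Q d) {V : Set (OnePoint ℂ)}
    (hV : IsOpen V) (hc : IsPreconnected V) {u : OnePoint ℂ} (hu : ratMap P Q u ∈ V) :
    ratMap P Q '' connectedComponentIn (ratMap P Q ⁻¹' V) u = V := by
  have := onePoint_locallyConnected
  have hcont := ratMap_continuous h
  have hcl : IsClosedMap (ratMap P Q) := hcont.isClosedMap
  set C := connectedComponentIn (ratMap P Q ⁻¹' V) u with hC
  have huC : u ∈ C := mem_connectedComponentIn hu
  have hCo : IsOpen C := (hV.preimage hcont).connectedComponentIn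
  have hfo : IsOpen (ratMap P Q '' C) := ratMap_isOpenMap h C hCo
  have hfc : IsClosed (ratMap P Q '' closure C) := hcl _ isClosed_closure
  have hsub : C ⊆ ratMap P Q ⁻¹' V := connectedComponentIn_subset _ _
  have key : V ∩ ratMap P Q '' closure C ⊆ ratMap P Q '' C := by
    rintro y ⟨hyV, v, hv, rfl⟩
    refine ⟨v, ?_, rfl⟩
    have h1 : IsPreconnected (insert v C) := by
      apply isPreconnected_connectedComponentIn.subset_closure (Set.subset_insert _ _)
      exact Set.insert_subset hv subset_closure
    have h2 : insert v C ⊆ C := by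
      apply h1.subset_connectedComponentIn (Set.mem_insert_of_mem _ huC)
      exact Set.insert_subset hyV hsub
    exact h2 (Set.mem_insert _ _)
  apply Set.Subset.antisymm
  · rintro _ ⟨v, hv, rfl⟩
    exact hsub hv
  · by_contra hcon
    obtain ⟨y, hyV, hy⟩ := Set.not_subset.1 hcon
    obtain ⟨z, hzV, hz1, hz2⟩ := hc (ratMap P Q '' C) (ratMap P Q '' closure C)ᶜ hfo
      hfc.isOpen_compl (fun w hw => by
        by_cases h3 : w ∈ ratMap P Q '' closure C
        · exact Or.inl (key ⟨hw, h3⟩)
        · exact Or.inr h3)
      ⟨ratMap P Q u, hu, u, huC, rfl⟩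
      ⟨y, hyV, fun h3 => hy (key ⟨hyV, h3⟩)⟩
    exact hz2 (Set.image_mono subset_closure hz1)

end Pool.Agent.Lib.MP_e4ee3e_an
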