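import Pool.Agent.Lib.MP_e4ee3e_an.L16
import Pool.Agent.Lib.MP_e4ee3e_an.L17

/-!
L18. Spreads for totally ramified marked points. (1) from exists_branch_hit_gen: g w = f c with c marked; the image of the disc under g is connected, contains a and g w, so f c is in compAt i η; the component of f⁻¹ (compAt i η) at a maps onto compAt i η (component_onto), so it contains a point u with f u = f c, u = c; so c is in compAt (i+1) η. (2) choose η such that f^k (sdisc a η) ⊂ sdisc a ε for k <= N (continuity, f a = a): c is in compAt (i+1+k) ε for k <= N. (3) if c is in compAt m ε, m >= 1, then f⁻¹ (compAt (m-1) ε) ⊂ compAt m ε: the component of f⁻¹ (compAt (m-1) ε) at any point maps onto compAt (m-1) ε, which contains f c, so it contains c, and it is connected in f^-m (sdisc a ε). (4) f^N z = a: by induction on k, f^(N-k) z is in compAt (i+1+k) ε. n = i + 1 + N.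
-/

open MeasureTheory Filter Topology

namespace Pool.Agent.Lib.MP_e4ee3e_an

theorem l18_sdisc_open (a : ℂ) (ε : ℝ) : IsOpen (sdisc a ε) :=
  OnePoint.isOpenEmbedding_coe.isOpenMap _ Metric.isOpen_ball

theorem l18_mem (a : ℂ) {ε : ℝ} (hε : 0 < ε) : ((a : ℂ) : OnePoint ℂ) ∈ sdisc a ε :=
  ⟨a, Metric.mem_ball_self hε, rfl⟩

/-- (2) a smaller disc. -/
theorem l18_eta {P Q : Polynomial ℂ} {d : ℕ} (h : RatData P Q d) (a : ℂ)
    (hfa : ratMap P Q (a : OnePoint ℂ) = (a : OnePoint ℂ)) {ε : ℝ} (hε : 0 < ε) (N : ℕ) :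
    ∃ η : ℝ, 0 < η ∧ ∀ k, k ≤ N → ∀ z ∈ sdisc a η, (ratMap P Q)^[k] z ∈ sdisc a ε := by
  have hfix : ∀ k, (ratMap P Q)^[k] (a : OnePoint ℂ) = (a : OnePoint ℂ) := fun k =>
    Function.iterate_fixed hfa k
  induction N with
  | zero =>
    refine ⟨ε, hε, fun k hk z hz => ?_⟩
    have : k = 0 := by omega
    rw [this]; exact hz
  | succ N ih =>
    obtain ⟨η, hη, h1⟩ := ih
    have h2 : (ratMap P Q)^[N + 1] ⁻¹' sdisc a ε ∈ 𝓝 ((a : ℂ) : OnePoint ℂ) := by
      apply ((ratMap_continuous h).iterate (N + 1)).continuousAt.preimage_mem_nhds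
      rw [hfix]
      exact (l18_sdisc_open a ε).mem_nhds (l18_mem a hε)
    have h3 : (fun z : ℂ => (z : OnePoint ℂ)) ⁻¹' ((ratMap P Q)^[N + 1] ⁻¹' sdisc a ε) ∈ 𝓝 a :=
      OnePoint.continuous_coe.continuousAt.preimage_mem_nhds h2
    obtain ⟨δ, hδ, h4⟩ := Metric.mem_nhds_iff.1 h3
    refine ⟨min η δ, lt_min hη hδ, fun k hk z hz => ?_⟩
    obtain ⟨x, hx, rfl⟩ := hz
    rcases Nat.lt_or_ge k (N + 1) with h5 | h5
    · exact h1 k (by omega) _ ⟨x, Metric.ball_subset_ball (min_le_left _ _) hx, rfl⟩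
    · have : k = N + 1 := by omega
      rw [this]
      exact h4 (Metric.ball_subset_ball (min_le_right _ _) hx)

theorem spreads_of_totRam {P Q : Polynomial ℂ} {d : ℕ} (h : RatData P Q d) (ht : TotRam P Q)
    (a : ℂ) (hfa : ratMap P Q (a : OnePoint ℂ) = (a : OnePoint ℂ))
    (hav : ∀ n, AvoidN P Q n (a : OnePoint ℂ))
    (hle : ‖deriv (fun z => P.eval z / Q.eval z) a‖ ≤ 1)
    (hJ : ‖deriv (fun z => P.eval z / Q.eval z) a‖ = 1 → (a : OnePoint ℂ) ∈ julia (ratMap P Q)) :
    Spreads P Q a := by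
  have := onePoint_locallyConnected
  intro ε hε N
  obtain ⟨η, hη, h1⟩ := l18_eta h a hfa hε N
  have hfix : ∀ k, (ratMap P Q)^[k] (a : OnePoint ℂ) = (a : OnePoint ℂ) := fun k =>
    Function.iterate_fixed hfa k
  have hc : Continuous (ratMap P Q) := ratMap_continuous h
  have hmem : ∀ k, ∀ ε' : ℝ, 0 < ε' → ((a : ℂ) : OnePoint ℂ) ∈ (ratMap P Q)^[k] ⁻¹' sdisc a ε' := by
    intro k ε' hε'
    rw [Set.mem_preimage, hfix]
    exact l18_mem a hε'
  have hcm : ∀ k, ∀ ε' : ℝ, 0 < ε' → ((a : ℂ) : OnePoint ℂ) ∈ compAt P Q a k ε' :=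
    fun k ε' hε' => mem_connectedComponentIn (hmem k ε' hε')
  have hopen : ∀ k ε', IsOpen (compAt P Q a k ε') := fun k ε' =>
    IsOpen.connectedComponentIn ((l18_sdisc_open a ε').preimage (hc.iterate k))
  have hpre : ∀ k ε', IsPreconnected (compAt P Q a k ε') := fun k ε' =>
    isPreconnected_connectedComponentIn
  have hsub : ∀ k ε', compAt P Q a k ε' ⊆ (ratMap P Q)^[k] ⁻¹' sdisc a ε' := fun k ε' =>
    connectedComponentIn_subset _ _
  obtain ⟨i, g, hg1, hg2, hg3, w, hw, c, hcm', hgc⟩ := exists_branch_hit_gen h a hfa hav hle hJ η hη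
  -- `f c` is in the component of level `i`
  have s1 : ratMap P Q c ∈ compAt P Q a i η := by
    have h2 : IsPreconnected ((fun z : ℂ => ((g z : ℂ) : OnePoint ℂ)) '' Metric.ball a η) :=
      (convex_ball a η).isPreconnected.image _
        (OnePoint.continuous_coe.comp_continuousOn hg1.continuousOn)
    have h3 : (fun z : ℂ => ((g z : ℂ) : OnePoint ℂ)) '' Metric.ball a η ⊆ compAt P Q a i η := by
      apply h2.subset_connectedComponentIn
      · exact ⟨a, Metric.mem_ball_self hη, by show ((g a : ℂ) : OnePoint ℂ) = _; rw [hg2]⟩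
      · rintro _ ⟨x, hx, rfl⟩
        show (ratMap P Q)^[i] ((g x : ℂ) : OnePoint ℂ) ∈ sdisc a η
        rw [hg3 x hx]
        exact ⟨x, hx, rfl⟩
    rw [hgc]
    exact h3 ⟨w, hw, rfl⟩
  -- `c` is in the component of level `i + 1`
  have s2 : c ∈ compAt P Q a (i + 1) η := by
    have h2 : ratMap P Q ((a : ℂ) : OnePoint ℂ) ∈ compAt P Q a i η := by rw [hfa]; exact hcm i η hη
    have h3 := component_onto h (hopen i η) (hpre i η) h2
    rw [← h3] at s1
    obtain ⟨u, hu, hu2⟩ := s1
    have h4 : u = c := ht c hcm' u hu2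
    rw [← h4]
    refine IsPreconnected.subset_connectedComponentIn (isPreconnected_connectedComponentIn
      (F := ratMap P Q ⁻¹' compAt P Q a i η) (x := ((a : ℂ) : OnePoint ℂ)))
      (mem_connectedComponentIn h2) ?_ hu
    intro y hy
    have h5 : ratMap P Q y ∈ compAt P Q a i η :=
      connectedComponentIn_subset (ratMap P Q ⁻¹' compAt P Q a i η) _ hy
    have h6 := hsub i η h5
    rw [Set.mem_preimage, Function.iterate_succ_apply]
    exact h6
  -- and in all components of level `i + 1 + k` for `ε`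
  have s3 : ∀ k, k ≤ N → c ∈ compAt P Q a (i + 1 + k) ε := by
    intro k hk
    refine IsPreconnected.subset_connectedComponentIn (hpre (i + 1) η) (hcm (i + 1) η hη) ?_ s2
    intro y hy
    have h2 := h1 k hk _ (hsub (i + 1) η hy)
    rw [Set.mem_preimage, Nat.add_comm (i + 1) k, Function.iterate_add_apply]
    exact h2
  -- step (3)
  have s4 : ∀ m, c ∈ compAt P Q a (m + 1) ε → ∀ z, ratMap P Q z ∈ compAt P Q a m ε →
      z ∈ compAt P Q a (m + 1) ε := by
    intro m hm z hz
    have h2 : ratMap P Q c ∈ compAt P Q a m ε := by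
      have h3 : ratMap P Q '' compAt P Q a (m + 1) ε ⊆ compAt P Q a m ε := by
        refine IsPreconnected.subset_connectedComponentIn ((hpre (m + 1) ε).image _ hc.continuousOn)
          ⟨_, hcm (m + 1) ε hε, hfa⟩ ?_
        rintro _ ⟨y, hy, rfl⟩
        have h4 := hsub (m + 1) ε hy
        rw [Set.mem_preimage, Function.iterate_succ_apply] at h4
        exact h4
      exact h3 ⟨c, hm, rfl⟩
    have h3 := component_onto h (hopen m ε) (hpre m ε) hz
    rw [← h3] at h2
    obtain ⟨u, hu, hu2⟩ := h2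
    have h4 : u = c := ht c hcm' u hu2
    rw [h4] at hu
    have h5 : connectedComponentIn (ratMap P Q ⁻¹' compAt P Q a m ε) z ⊆ compAt P Q a (m + 1) ε := by
      have h6 : compAt P Q a (m + 1) ε =
          connectedComponentIn ((ratMap P Q)^[m + 1] ⁻¹' sdisc a ε) c := connectedComponentIn_eq hm
      rw [h6]
      refine IsPreconnected.subset_connectedComponentIn isPreconnected_connectedComponentIn hu ?_
      intro y hy
      have h7 : ratMap P Q y ∈ compAt P Q a m ε :=
        connectedComponentIn_subset (ratMap P Q ⁻¹' compAt P Q a m ε) _ hy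
      have h8 := hsub m ε h7
      rw [Set.mem_preimage, Function.iterate_succ_apply]
      exact h8
    exact h5 (mem_connectedComponentIn hz)
  refine ⟨i + 1 + N, by omega, fun z hz => ?_⟩
  have s5 : ∀ k, k ≤ N → (ratMap P Q)^[N - k] z ∈ compAt P Q a (i + 1 + k) ε := by
    intro k
    induction k with
    | zero =>
      intro _
      rw [Nat.sub_zero, hz]
      exact hcm _ ε hε
    | succ k ih =>
      intro hk
      have h2 := ih (by omega)
      have h3 : N - k = (N - (k + 1)) + 1 := by omega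
      rw [h3, Function.iterate_succ_apply'] at h2
      exact s4 (i + 1 + k) (s3 (k + 1) hk) _ h2
  have h2 := s5 N le_rfl
  rw [Nat.sub_self] at h2
  exact h2

end Pool.Agent.Lib.MP_e4ee3e_an
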