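import Pool.Agent.Lib.MP_e4ee3e_an.LDefs

/-!
L19. Normal form f(z) = (α z^D + β) / (γ z^D + δ): coprime (γ P - α Q is a constant), max of the
degrees D ((α, γ) is not 0), Wronskian D (αδ - βγ) z^(D-1), marked = {infinity, 0}, totally
ramified.
-/

open MeasureTheory Filter Topology

namespace Pool.Agent.Lib.MP_e4ee3e_an

theorem bicritical_ratData {D : ℕ} (hD : 2 ≤ D) {α β γ δ : ℂ} (hdet : α * δ - β * γ ≠ 0) :
    RatData (Polynomial.C α * Polynomial.X ^ D + Polynomial.C β)
      (Polynomial.C γ * Polynomial.X ^ D + Polynomial.C δ) D := by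
  refine ⟨?_, ?_, hD⟩
  · refine ⟨Polynomial.C (-γ / (α * δ - β * γ)), Polynomial.C (α / (α * δ - β * γ)), ?_⟩
    have h1 : (-γ / (α * δ - β * γ)) * α + (α / (α * δ - β * γ)) * γ = 0 := by ring
    have h2 : (-γ / (α * δ - β * γ)) * β + (α / (α * δ - β * γ)) * δ = 1 := by
      rw [div_mul_eq_mul_div, div_mul_eq_mul_div, ← add_div, div_eq_one_iff_eq hdet]
      ring
    calc Polynomial.C (-γ / (α * δ - β * γ)) * (Polynomial.C α * Polynomial.X ^ D +
          Polynomial.C β) + Polynomial.C (α / (α * δ - β * γ)) *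
          (Polynomial.C γ * Polynomial.X ^ D + Polynomial.C δ)
        = Polynomial.C ((-γ / (α * δ - β * γ)) * α + (α / (α * δ - β * γ)) * γ) *
            Polynomial.X ^ D +
          Polynomial.C ((-γ / (α * δ - β * γ)) * β + (α / (α * δ - β * γ)) * δ) := by
          simp only [Polynomial.C_add, Polynomial.C_mul]
          ring
      _ = 1 := by
          rw [h1, h2]
          simp
  · have hdeg : ∀ x y : ℂ, (Polynomial.C x * Polynomial.X ^ D + Polynomial.C y).natDegree ≤ D := by
      intro x y
      refine (Polynomial.natDegree_add_le _ _).trans (max_le ?_ ?_)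
      · exact Polynomial.natDegree_C_mul_X_pow_le x D
      · rw [Polynomial.natDegree_C]
        exact Nat.zero_le D
    have hdeg2 : ∀ x y : ℂ, x ≠ 0 →
        (Polynomial.C x * Polynomial.X ^ D + Polynomial.C y).natDegree = D := by
      intro x y hx
      refine le_antisymm (hdeg x y) ?_
      apply Polynomial.le_natDegree_of_ne_zero
      simp only [Polynomial.coeff_add, Polynomial.coeff_C_mul, Polynomial.coeff_X_pow,
        Polynomial.coeff_C]
      have : D ≠ 0 := by omega
      simpa [this] using hx
    by_cases hα : α = 0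
    · have hγ : γ ≠ 0 := by
        rintro rfl
        apply hdet
        rw [hα]
        ring
      rw [hdeg2 γ δ hγ]
      exact max_eq_right (hdeg α β)
    · rw [hdeg2 α β hα]
      exact max_eq_left (hdeg γ δ)

theorem l19_infty {D : ℕ} (hD : 2 ≤ D) {α β γ δ : ℂ} (hdet : α * δ - β * γ ≠ 0) :
    ratMap (Polynomial.C α * Polynomial.X ^ D + Polynomial.C β)
      (Polynomial.C γ * Polynomial.X ^ D + Polynomial.C δ) OnePoint.infty = ratio α γ := by
  have hd := (bicritical_ratData hD hdet).deg
  have hD0 : D ≠ 0 := by omega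
  show ratio (Polynomial.coeff _ (max _ _)) (Polynomial.coeff _ (max _ _)) = _
  rw [hd]
  simp [Polynomial.coeff_X_pow, Polynomial.coeff_C, hD0]

theorem l19_coe {D : ℕ} (α β γ δ z : ℂ) :
    ratMap (Polynomial.C α * Polynomial.X ^ D + Polynomial.C β)
      (Polynomial.C γ * Polynomial.X ^ D + Polynomial.C δ) (z : OnePoint ℂ) =
      ratio (α * z ^ D + β) (γ * z ^ D + δ) := by
  show ratio (Polynomial.eval _ _) (Polynomial.eval _ _) = _
  simp

theorem bicritical_marked {D : ℕ} (hD : 2 ≤ D) {α β γ δ : ℂ} (hdet : α * δ - β * γ ≠ 0) :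
    marked (Polynomial.C α * Polynomial.X ^ D + Polynomial.C β)
      (Polynomial.C γ * Polynomial.X ^ D + Polynomial.C δ) =
      {OnePoint.infty, ((0 : ℂ) : OnePoint ℂ)} := by
  have hW : ∀ y : ℂ, (Polynomial.derivative (Polynomial.C α * Polynomial.X ^ D + Polynomial.C β) *
      (Polynomial.C γ * Polynomial.X ^ D + Polynomial.C δ) -
      (Polynomial.C α * Polynomial.X ^ D + Polynomial.C β) *
      Polynomial.derivative (Polynomial.C γ * Polynomial.X ^ D + Polynomial.C δ)).eval y = 0 ↔
      y = 0 := by
    intro y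
    have h1 : (Polynomial.derivative (Polynomial.C α * Polynomial.X ^ D + Polynomial.C β) *
      (Polynomial.C γ * Polynomial.X ^ D + Polynomial.C δ) -
      (Polynomial.C α * Polynomial.X ^ D + Polynomial.C β) *
      Polynomial.derivative (Polynomial.C γ * Polynomial.X ^ D + Polynomial.C δ)).eval y =
        (α * δ - β * γ) * D * y ^ (D - 1) := by
      simp [Polynomial.derivative_X_pow]
      ring
    rw [h1]
    have hD0 : (D : ℂ) ≠ 0 := by
      have : D ≠ 0 := by omega
      exact_mod_cast this
    have hD1 : D - 1 ≠ 0 := by omega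
    rw [mul_eq_zero, mul_eq_zero, pow_eq_zero_iff hD1]
    simp [hdet, hD0]
  ext c
  rw [Set.mem_insert_iff, Set.mem_singleton_iff]
  constructor
  · rintro (hc | ⟨y, hy, hy0⟩)
    · exact Or.inl hc
    · right
      rw [hy, (hW y).1 hy0]
  · rintro (hc | hc)
    · exact Or.inl hc
    · exact Or.inr ⟨0, hc, (hW 0).2 rfl⟩

theorem l19_ratio_eq {a b a' b' : ℂ} (he : ratio a b = ratio a' b') : a * b' = b * a' := by
  unfold ratio at he
  split_ifs at he with hb hb' hb'
  · rw [hb, hb']
    ring
  · exact absurd he.symm (OnePoint.coe_ne_infty _)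
  · exact absurd he (OnePoint.coe_ne_infty _)
  · have h1 : a / b = a' / b' := OnePoint.coe_injective he
    rw [div_eq_div_iff hb hb'] at h1
    rw [h1]
    ring

theorem bicritical_totRam {D : ℕ} (hD : 2 ≤ D) {α β γ δ : ℂ} (hdet : α * δ - β * γ ≠ 0) :
    TotRam (Polynomial.C α * Polynomial.X ^ D + Polynomial.C β)
      (Polynomial.C γ * Polynomial.X ^ D + Polynomial.C δ) := by
  have hR := bicritical_ratData hD hdet
  have hD0 : D ≠ 0 := by omega
  intro c hc z hz
  rw [bicritical_marked hD hdet] at hc
  rcases hc with rfl | hc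
  · cases z using OnePoint.rec with
    | infty => rfl
    | coe z =>
      exfalso
      rw [l19_infty hD hdet, l19_coe] at hz
      have h1 := l19_ratio_eq hz
      apply hdet
      linear_combination -h1
  · rw [Set.mem_singleton_iff] at hc
    subst hc
    cases z using OnePoint.rec with
    | infty =>
      exfalso
      rw [l19_infty hD hdet, l19_coe] at hz
      have h1 := l19_ratio_eq hz
      rw [zero_pow hD0] at h1
      apply hdet
      linear_combination h1
    | coe z =>
      rw [l19_coe, l19_coe] at hz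
      have h1 := l19_ratio_eq hz
      rw [zero_pow hD0] at h1
      have h2 : (α * δ - β * γ) * z ^ D = 0 := by linear_combination h1
      have h3 : z ^ D = 0 := (mul_eq_zero.1 h2).resolve_left hdet
      rw [pow_eq_zero_iff hD0] at h3
      rw [h3]

end Pool.Agent.Lib.MP_e4ee3e_an
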