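import Pool.Agent.Lib.MP_e4ee3e_an.KDefs

/-!
Definitions for bicritical rational maps (question Q1).
-/

open MeasureTheory Filter Topology

namespace Pool.Agent.Lib.MP_e4ee3e_an

/-- The Julia set of a self-map of the Riemann sphere: the complement of the largest open set on
which the iterates are equicontinuous for the chordal metric. -/
def julia (f : OnePoint ℂ → OnePoint ℂ) : Set (OnePoint ℂ) :=
  {x | ¬ ∃ U ∈ 𝓝 x, ∀ z ∈ U, ∀ ε : ℝ, 0 < ε → ∃ V ∈ 𝓝 z, ∀ w ∈ V, ∀ n : ℕ,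
    chd (f^[n] w) (f^[n] z) < ε}

/-- The disc of radius `ε` at `a` in the sphere. -/
def sdisc (a : ℂ) (ε : ℝ) : Set (OnePoint ℂ) := (fun w : ℂ => (w : OnePoint ℂ)) '' Metric.ball a ε

/-- The component at `a` of the preimage of the disc of radius `ε` at `a` under the iterate. -/
def compAt (P Q : Polynomial ℂ) (a : ℂ) (n : ℕ) (ε : ℝ) : Set (OnePoint ℂ) :=
  connectedComponentIn ((ratMap P Q)^[n] ⁻¹' sdisc a ε) (a : OnePoint ℂ)

/-- The components at `a` of preimages of small discs contain all preimages of `a` of given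
level. -/
def Spreads (P Q : Polynomial ℂ) (a : ℂ) : Prop :=
  ∀ ε : ℝ, 0 < ε → ∀ N : ℕ, ∃ n, N ≤ n ∧ ∀ z : OnePoint ℂ,
    (ratMap P Q)^[N] z = (a : OnePoint ℂ) → z ∈ compAt P Q a n ε

/-- All marked points are totally ramified. -/
def TotRam (P Q : Polynomial ℂ) : Prop :=
  ∀ c ∈ marked P Q, ∀ z, ratMap P Q z = ratMap P Q c → z = c

/-- The backward orbit of `a`. -/
def backOrbit (P Q : Polynomial ℂ) (a : ℂ) : Set (OnePoint ℂ) :=
  {z | ∃ m : ℕ, (ratMap P Q)^[m] z = (a : OnePoint ℂ)}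

end Pool.Agent.Lib.MP_e4ee3e_an
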