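import Pool.Agent.Lib.MP_e4ee3e_an.K06
import Pool.Agent.Lib.MP_e4ee3e_an.K07
import Pool.Agent.Lib.MP_e4ee3e_an.K08
import Pool.Agent.Lib.MP_e4ee3e_an.L13
import Pool.Agent.Lib.MP_e4ee3e_an.L14
import Pool.Agent.Lib.MP_e4ee3e_an.L18
import Pool.Agent.Lib.MP_e4ee3e_an.L19

/-!
LMain. Question Q1: one tree (unique lifts) codes every point of the Julia set if the components of
preimages of small discs at the fixed point spread; bicritical rational maps.
-/

open MeasureTheory Filter Topology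

namespace Pool.Agent.Lib.MP_e4ee3e_an

theorem spread_main {P Q : Polynomial ℂ} {d : ℕ} (h : RatData P Q d) (a : ℂ)
    (hfa : ratMap P Q (a : OnePoint ℂ) = (a : OnePoint ℂ))
    (hav : ∀ n, AvoidN P Q n (a : OnePoint ℂ)) (hs : Spreads P Q a)
    [MeasurableSpace (OnePoint ℂ)] [BorelSpace (OnePoint ℂ)] :
    ∃ T : CodingTree (ratMap P Q) 2, T.root = (a : OnePoint ℂ) ∧
      T.UniqueLifts ∧ T.AvoidsCriticalValues ∧
      (∀ n α β, (∀ i ≤ n, α i = β i) → T.edge n α = T.edge n β) ∧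
      (∀ x ∈ julia (ratMap P Q), ∃ α, Tendsto (fun n => T.vertex n α) atTop (𝓝 x)) ∧
      ∀ m : Measure (OnePoint ℂ), IsProbabilityMeasure m → m (julia (ratMap P Q))ᶜ = 0 →
        ∃ μ : Measure (ℕ → Fin 2), IsProbabilityMeasure μ ∧ μ T.domainᶜ = 0 ∧
          μ.map T.codingMap = m := by
  let _ := chMetric
  obtain ⟨a', hne, hfa', hξ₀⟩ := exists_start_gen h a hfa hav
  have hsep : TopologicalSpace.SeparableSpace (OnePoint ℂ) := inferInstance
  obtain ⟨q, hq⟩ := TopologicalSpace.exists_dense_seq (OnePoint ℂ)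
  let U : ℕ → Set (OnePoint ℂ) := fun k => Metric.ball (q k.unpair.1) (1 / (k.unpair.2 + 1))
  let G : Set ℕ := {k | (U k ∩ julia (ratMap P Q)).Nonempty}
  obtain ⟨γ, hγ, hγ0, hγ1, hγt⟩ := engine h a a' hav hfa hfa' G U hξ₀ (by
    intro k hk ξ hξ h0 h1 N y hy ε hε
    obtain ⟨x, hxO, hxJ⟩ := hk
    obtain ⟨ξ', n, hn, h2, h3, h4, h5, h6⟩ :=
      one_step_gen h a hfa hav hs hxJ (Metric.isOpen_ball.mem_nhds hxO) hξ h0 (by rw [h1, hfa'])
        N hy ε hε
    exact ⟨ξ', n, hn, h2, h3, h4.trans h1, h5, h6⟩)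
  obtain ⟨T, hTr, hTu, hTa, hTv, hTe⟩ := exists_wait_tree h hγ hγ0 hγ1 hne hfa hfa'
  have hbase : ∀ x ∈ julia (ratMap P Q), ∀ ε : ℝ, 0 < ε → ∃ k ∈ G, x ∈ U k ∧
      ∀ y ∈ U k, ∀ z ∈ U k, dist y z ≤ ε := by
    intro x hx ε hε
    obtain ⟨n, hn⟩ := exists_nat_one_div_lt (show (0:ℝ) < ε / 2 by positivity)
    have hpos : (0:ℝ) < 1 / ((n:ℝ) + 1) := by positivity
    obtain ⟨i, hi⟩ := Metric.denseRange_iff.1 hq x (1 / ((n:ℝ) + 1)) hpos
    have hmem : x ∈ U (Nat.pair i n) := by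
      simp only [U, Nat.unpair_pair]
      exact Metric.mem_ball.2 hi
    refine ⟨Nat.pair i n, ⟨x, hmem, hx⟩, hmem, ?_⟩
    intro y hy z hz
    simp only [U, Nat.unpair_pair, Metric.mem_ball] at hy hz
    have h6 := dist_triangle_right y z (q i)
    linarith
  obtain ⟨A, hA, hAJ⟩ := exists_measurable_code (julia (ratMap P Q)) G U
    (fun k => Metric.isOpen_ball.measurableSet) hbase (vtx P Q γ)
    (fun n α hα => by simp [vtx, hα]) hγt
  have htend : ∀ x ∈ julia (ratMap P Q), Tendsto (fun n => T.vertex n (A x)) atTop (𝓝 x) := by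
    intro x hx
    simp only [hTv]
    exact (hAJ x hx).comp (tendsto_add_atTop_nat 1)
  refine ⟨T, hTr, hTu, hTa, hTe, fun x hx => ⟨A x, htend x hx⟩, ?_⟩
  intro m hm hmJ
  refine coding_measure T (fun n α β h => ?_) m A hA ?_
  · have := hTe n α β h
    show T.edge n α 1 = T.edge n β 1
    rw [this]
  · have h1 : ∀ᵐ x ∂m, x ∈ julia (ratMap P Q) := hmJ
    filter_upwards [h1] with x hx
    exact htend x hx

theorem bicritical_main {D : ℕ} (hD : 2 ≤ D) {α β γ δ : ℂ} (hdet : α * δ - β * γ ≠ 0)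
    {f : OnePoint ℂ → OnePoint ℂ}
    (hf : f = ratMap (Polynomial.C α * Polynomial.X ^ D + Polynomial.C β)
      (Polynomial.C γ * Polynomial.X ^ D + Polynomial.C δ)) (a : ℂ)
    (hfa : f (a : OnePoint ℂ) = (a : OnePoint ℂ))
    (hav : ∀ k, 1 ≤ k → f^[k] ((0 : ℂ) : OnePoint ℂ) ≠ (a : OnePoint ℂ) ∧
      f^[k] OnePoint.infty ≠ (a : OnePoint ℂ))
    (hle : ‖deriv (fun z : ℂ => (α * z ^ D + β) / (γ * z ^ D + δ)) a‖ ≤ 1)
    (hJ : ‖deriv (fun z : ℂ => (α * z ^ D + β) / (γ * z ^ D + δ)) a‖ = 1 →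
      (a : OnePoint ℂ) ∈ julia f)
    [MeasurableSpace (OnePoint ℂ)] [BorelSpace (OnePoint ℂ)] :
    ∃ T : CodingTree f 2, T.root = (a : OnePoint ℂ) ∧
      T.UniqueLifts ∧ T.AvoidsCriticalValues ∧
      (∀ x ∈ julia f, ∃ α, Tendsto (fun n => T.vertex n α) atTop (𝓝 x)) ∧
      ∀ m : Measure (OnePoint ℂ), IsProbabilityMeasure m → m (julia f)ᶜ = 0 →
        ∃ μ : Measure (ℕ → Fin 2), IsProbabilityMeasure μ ∧ μ T.domainᶜ = 0 ∧
          μ.map T.codingMap = m := by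
  subst hf
  have hR := bicritical_ratData hD hdet
  have hav' : ∀ n, AvoidN (Polynomial.C α * Polynomial.X ^ D + Polynomial.C β)
      (Polynomial.C γ * Polynomial.X ^ D + Polynomial.C δ) n (a : OnePoint ℂ) := by
    intro n k hk _ c hc
    rw [bicritical_marked hD hdet] at hc
    rcases hc with rfl | hc
    · exact (hav k hk).2
    · rw [Set.mem_singleton_iff.1 hc]
      exact (hav k hk).1
  have hev : (fun z : ℂ => (Polynomial.C α * Polynomial.X ^ D + Polynomial.C β).eval z /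
      (Polynomial.C γ * Polynomial.X ^ D + Polynomial.C δ).eval z) =
      fun z : ℂ => (α * z ^ D + β) / (γ * z ^ D + δ) := by
    funext z
    simp
  have hs := spreads_of_totRam hR (bicritical_totRam hD hdet) a hfa hav'
    (by rw [hev]; exact hle) (by rw [hev]; exact hJ)
  obtain ⟨T, h1, h2, h3, _, h5, h6⟩ := spread_main hR a hfa hav' hs
  exact ⟨T, h1, h2, h3, h5, h6⟩

end Pool.Agent.Lib.MP_e4ee3e_an
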