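import Pool.Agent.Lib.MP_e4ee3e_an.Setup

/-!
R03. Covering a subset S of closedBall 0 R by discs of radius ρ centred in S: cut the plane into
squares of side ρ/2 (indices floor(2 Re/ρ), floor(2 Im/ρ)), choose a point of S in each square
which meets S; number of squares <= (4 R/ρ + 2)^2 <= C/ρ^2.
-/

open MeasureTheory Filter Topology

namespace Pool.Agent.Lib.MP_e4ee3e_an

attribute [local instance] chMetric

lemma r03_floor_bound {R ρ t : ℝ} (hρ : 0 < ρ) (ht : |t| ≤ R) :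
    -⌈2 * R / ρ⌉ ≤ ⌊2 * t / ρ⌋ ∧ ⌊2 * t / ρ⌋ ≤ ⌈2 * R / ρ⌉ := by
  have h1 := abs_le.1 ht
  have hc := Int.le_ceil (2 * R / ρ)
  constructor
  · rw [Int.le_floor]
    push_cast
    have : -(2 * R / ρ) ≤ 2 * t / ρ := by
      rw [← neg_div]
      apply div_le_div_of_nonneg_right _ hρ.le
      linarith
    linarith
  · have h2 : 2 * t / ρ ≤ 2 * R / ρ := by
      apply div_le_div_of_nonneg_right _ hρ.le
      linarith
    have h3 := Int.floor_le (2 * t / ρ)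
    have : ((⌊2 * t / ρ⌋ : ℤ) : ℝ) ≤ ((⌈2 * R / ρ⌉ : ℤ) : ℝ) := by linarith
    exact_mod_cast this

lemma r03_close {ρ s t : ℝ} (hρ : 0 < ρ) (h : ⌊2 * s / ρ⌋ = ⌊2 * t / ρ⌋) : |s - t| < ρ / 2 := by
  have h1 := Int.abs_sub_lt_one_of_floor_eq_floor h
  have h2 : 2 * s / ρ - 2 * t / ρ = (s - t) * (2 / ρ) := by ring
  rw [h2, abs_mul, abs_of_pos (show 0 < 2 / ρ by positivity)] at h1
  calc |s - t| = |s - t| * (2 / ρ) * (ρ / 2) := by field_simp
    _ < 1 * (ρ / 2) := by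
        apply mul_lt_mul_of_pos_right h1 (by positivity)
    _ = ρ / 2 := by ring

theorem plane_cover (R : ℝ) (hR : 0 < R) : ∃ C : ℝ, 0 < C ∧ ∀ (ρ : ℝ) (S : Set ℂ), 0 < ρ → ρ ≤ 1 →
    S ⊆ Metric.closedBall 0 R → ∃ F : Finset ℂ, (∀ c ∈ F, c ∈ S) ∧ (F.card : ℝ) ≤ C / ρ ^ 2 ∧
      ∀ x ∈ S, ∃ c ∈ F, ‖x - c‖ < ρ := by
  classical
  refine ⟨(4 * R + 3) ^ 2, by positivity, ?_⟩
  intro ρ S hρ hρ1 hS
  let K : ℤ := ⌈2 * R / ρ⌉
  have hK0 : 0 ≤ K := Int.ceil_nonneg (by positivity)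
  let idx : ℂ → ℤ × ℤ := fun x => (⌊2 * x.re / ρ⌋, ⌊2 * x.im / ρ⌋)
  let G : Finset (ℤ × ℤ) := (Finset.Icc (-K) K) ×ˢ (Finset.Icc (-K) K)
  have hidx : ∀ x ∈ S, idx x ∈ G := by
    intro x hx
    have hx1 : ‖x‖ ≤ R := by simpa using hS hx
    have h1 := r03_floor_bound hρ ((Complex.abs_re_le_norm x).trans hx1)
    have h2 := r03_floor_bound hρ ((Complex.abs_im_le_norm x).trans hx1)
    simp only [G, idx, Finset.mem_product, Finset.mem_Icc]
    exact ⟨h1, h2⟩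
  let G' : Finset (ℤ × ℤ) := G.filter (fun g => ∃ x ∈ S, idx x = g)
  have hex : ∀ g : ℤ × ℤ, ∃ x : ℂ, (∃ x ∈ S, idx x = g) → x ∈ S ∧ idx x = g := by
    intro g
    by_cases h : ∃ x ∈ S, idx x = g
    · obtain ⟨x, hx⟩ := h
      exact ⟨x, fun _ => hx⟩
    · exact ⟨0, fun h' => absurd h' h⟩
  choose pt hpt using hex
  refine ⟨G'.image pt, ?_, ?_, ?_⟩
  · intro c hc
    obtain ⟨g, hg, rfl⟩ := Finset.mem_image.1 hc
    exact (hpt g (Finset.mem_filter.1 hg).2).1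
  · have h1 : (G'.image pt).card ≤ G.card :=
      Finset.card_image_le.trans (Finset.card_filter_le _ _)
    have h2 : G.card = (2 * K + 1).toNat * (2 * K + 1).toNat := by
      simp only [G, Finset.card_product, Int.card_Icc]
      congr 2 <;> ring
    have h3 : (((2 * K + 1).toNat : ℕ) : ℝ) = 2 * (K : ℝ) + 1 := by
      have : (((2 * K + 1).toNat : ℕ) : ℤ) = 2 * K + 1 := Int.toNat_of_nonneg (by omega)
      have h4 : (((2 * K + 1).toNat : ℕ) : ℝ) = (((2 * K + 1).toNat : ℤ) : ℝ) := by push_cast; rfl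
      rw [h4, this]
      push_cast
      ring
    have h5 : (K : ℝ) < 2 * R / ρ + 1 := Int.ceil_lt_add_one _
    have h6 : 2 * (K : ℝ) + 1 ≤ (4 * R + 3) / ρ := by
      rw [le_div_iff₀ hρ]
      have h7 : (K : ℝ) * ρ ≤ 2 * R + ρ := by
        have := mul_le_mul_of_nonneg_right h5.le hρ.le
        have h8 : (2 * R / ρ + 1) * ρ = 2 * R + ρ := by field_simp
        linarith
      nlinarith
    have h9 : (0:ℝ) ≤ 2 * (K : ℝ) + 1 := by
      have : (0:ℝ) ≤ (K : ℝ) := by exact_mod_cast hK0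
      linarith
    calc ((G'.image pt).card : ℝ) ≤ (G.card : ℝ) := by exact_mod_cast h1
      _ = (2 * (K : ℝ) + 1) * (2 * (K : ℝ) + 1) := by rw [h2]; push_cast; rw [h3]
      _ ≤ ((4 * R + 3) / ρ) * ((4 * R + 3) / ρ) := by
          apply mul_le_mul h6 h6 h9 (by positivity)
      _ = (4 * R + 3) ^ 2 / ρ ^ 2 := by ring
  · intro x hx
    have hg : idx x ∈ G' := Finset.mem_filter.2 ⟨hidx x hx, x, hx, rfl⟩
    have hp := hpt (idx x) ⟨x, hx, rfl⟩
    refine ⟨pt (idx x), Finset.mem_image_of_mem _ hg, ?_⟩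
    have h1 : ⌊2 * (pt (idx x)).re / ρ⌋ = ⌊2 * x.re / ρ⌋ := congrArg Prod.fst hp.2
    have h2 : ⌊2 * (pt (idx x)).im / ρ⌋ = ⌊2 * x.im / ρ⌋ := congrArg Prod.snd hp.2
    have h3 := r03_close hρ h1.symm
    have h4 := r03_close hρ h2.symm
    calc ‖x - pt (idx x)‖ ≤ |(x - pt (idx x)).re| + |(x - pt (idx x)).im| :=
          Complex.norm_le_abs_re_add_abs_im _
      _ < ρ := by
          rw [Complex.sub_re, Complex.sub_im]
          linarith

end Pool.Agent.Lib.MP_e4ee3e_an
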