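import Pool.Agent.Lib.MP_e4ee3e_an.Setup

/-!
R04. Abstract choice of the root: B n measurable in the product, all slices over x of ν-measure
<= p₁, m X <= 1. Then the set of y for which infinitely often m (slice of B n over y) <= p₂ has
positive measure if p₁/p₂ < ν Y: by Tonelli the integral over y of m(slice) is <= p₁, Markov:
ν{m(slice) > p₂} <= p₁/p₂ for every n; if a.e. y were eventually in these sets, then
ν(univ) <= liminf ν(...) <= p₁/p₂ (measure_liminf / Fatou), contradiction.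
-/

open MeasureTheory Filter Topology

namespace Pool.Agent.Lib.MP_e4ee3e_an

attribute [local instance] chMetric

theorem root_selection {X Y : Type*} [MeasurableSpace X] [MeasurableSpace Y] (m : Measure X)
    (ν : Measure Y) [IsFiniteMeasure m] [IsFiniteMeasure ν] (hm1 : m Set.univ ≤ 1)
    (B : ℕ → Set (X × Y)) (hB : ∀ n, MeasurableSet (B n)) (p₁ p₂ : ENNReal) (hp₂ : p₂ ≠ 0)
    (hp₂' : p₂ ≠ ⊤) (hslice : ∀ n x, ν {y | (x, y) ∈ B n} ≤ p₁) (hlt : p₁ < p₂ * ν Set.univ) :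
    0 < ν {y | ∃ᶠ n in atTop, m {x | (x, y) ∈ B n} ≤ p₂} := by
  by_contra hcon
  have hzero : ν {y | ∃ᶠ n in atTop, m {x | (x, y) ∈ B n} ≤ p₂} = 0 := by
    simpa using hcon
  -- Markov for every n
  have hmarkov : ∀ n, p₂ * ν {y | p₂ < m {x | (x, y) ∈ B n}} ≤ p₁ := by
    intro n
    have hmeas : Measurable (fun y => m ((fun x => (x, y)) ⁻¹' B n)) :=
      measurable_measure_prodMk_right (hB n)
    have h1 : p₂ * ν {y | p₂ ≤ m ((fun x => (x, y)) ⁻¹' B n)} ≤
        ∫⁻ y, m ((fun x => (x, y)) ⁻¹' B n) ∂ν := mul_meas_ge_le_lintegral hmeas p₂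
    have h2 : ∫⁻ y, m ((fun x => (x, y)) ⁻¹' B n) ∂ν = ∫⁻ x, ν (Prod.mk x ⁻¹' B n) ∂m := by
      rw [← Measure.prod_apply_symm (hB n), Measure.prod_apply (hB n)]
    have h3 : ∫⁻ x, ν (Prod.mk x ⁻¹' B n) ∂m ≤ p₁ := by
      calc ∫⁻ x, ν (Prod.mk x ⁻¹' B n) ∂m ≤ ∫⁻ _, p₁ ∂m :=
            lintegral_mono fun x => hslice n x
        _ = p₁ * m Set.univ := lintegral_const _
        _ ≤ p₁ * 1 := by gcongr
        _ = p₁ := mul_one _
    refine le_trans ?_ (le_trans h1 (h2 ▸ h3))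
    gcongr
    intro hy
    exact hy.le
  have hae : ∀ᵐ y ∂ν, ∀ᶠ n in atTop, p₂ < m {x | (x, y) ∈ B n} := by
    have : ∀ᵐ y ∂ν, ¬ ∃ᶠ n in atTop, m {x | (x, y) ∈ B n} ≤ p₂ := by
      rw [ae_iff]
      simp only [not_not]
      exact hzero
    filter_upwards [this] with y hy
    rw [not_frequently] at hy
    filter_upwards [hy] with n hn
    exact not_le.1 hn
  let E : ℕ → Set Y := fun N => {y | ∀ n, N ≤ n → p₂ < m {x | (x, y) ∈ B n}}
  have hEmono : Monotone E := by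
    intro a b hab y hy n hn
    exact hy n (le_trans hab hn)
  have huniv : ν Set.univ ≤ ν (⋃ N, E N) := by
    apply measure_mono_ae
    filter_upwards [hae] with y hy _
    obtain ⟨N, hN⟩ := eventually_atTop.1 hy
    exact Set.mem_iUnion.2 ⟨N, hN⟩
  have hsup : p₂ * ν (⋃ N, E N) ≤ p₁ := by
    rw [hEmono.measure_iUnion, ENNReal.mul_iSup]
    refine iSup_le fun N => ?_
    refine le_trans ?_ (hmarkov N)
    have hsub : E N ⊆ {y | p₂ < m {x | (x, y) ∈ B N}} := fun y hy => hy N le_rfl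
    gcongr
  have : p₂ * ν Set.univ ≤ p₁ := le_trans (by gcongr) hsup
  exact absurd hlt (not_lt.2 this)

end Pool.Agent.Lib.MP_e4ee3e_an
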