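import Pool.Agent.Lib.MP_e4ee3e_an.S03

/-!
R05. Measurability of the bad set in the product. (a) small is closed: the condition passes to limits
since balls are open. (b) the set of (x,z) with some y in ball x s, f^[k] y = z, is a countable
union (over s' = s - 1/j) of the closed sets with y in closedBall x s' (compactness; continuity of
the iterate; coe is continuous and injective).
-/

open MeasureTheory Filter Topology

namespace Pool.Agent.Lib.MP_e4ee3e_an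

attribute [local instance] chMetric

/-- All iterates up to time `N` have oscillation at most `ε` on the disc of radius `s`. -/
def Small (P Q : Polynomial ℂ) (N : ℕ) (s ε : ℝ) : Set ℂ :=
  {x | ∀ k < N, ∀ w ∈ Metric.ball x s, ∀ w' ∈ Metric.ball x s,
    dist ((ratMap P Q)^[k] ((w : ℂ) : OnePoint ℂ)) ((ratMap P Q)^[k] ((w' : ℂ) : OnePoint ℂ)) ≤ ε}

/-- Pairs (x, z) such that no iterate with index in (M, N] maps a point of the disc to z. -/
def Miss (P Q : Polynomial ℂ) (M N : ℕ) (s : ℝ) : Set (ℂ × ℂ) :=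
  {q | ∀ k, M < k → k ≤ N → ∀ y ∈ Metric.ball q.1 s,
    (ratMap P Q)^[k] ((y : ℂ) : OnePoint ℂ) ≠ (q.2 : OnePoint ℂ)}

theorem isClosed_small {P Q : Polynomial ℂ} (N : ℕ) (s ε : ℝ) : IsClosed (Small P Q N s ε) := by
  rw [← isOpen_compl_iff, isOpen_iff_mem_nhds]
  intro x hx
  have hx' : ¬ (∀ k < N, ∀ w ∈ Metric.ball x s, ∀ w' ∈ Metric.ball x s,
    dist ((ratMap P Q)^[k] ((w : ℂ) : OnePoint ℂ)) ((ratMap P Q)^[k] ((w' : ℂ) : OnePoint ℂ)) ≤ ε) :=
    hx
  push Not at hx'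
  obtain ⟨k, hk, w, hw, w', hw', hlt⟩ := hx'
  have h1 : Metric.ball w s ∈ 𝓝 x :=
    Metric.isOpen_ball.mem_nhds (by rw [Metric.mem_ball, dist_comm]; exact hw)
  have h2 : Metric.ball w' s ∈ 𝓝 x :=
    Metric.isOpen_ball.mem_nhds (by rw [Metric.mem_ball, dist_comm]; exact hw')
  filter_upwards [h1, h2] with y hy hy' hc
  have h3 := hc k hk w (by rw [Metric.mem_ball, dist_comm]; exact hy) w'
    (by rw [Metric.mem_ball, dist_comm]; exact hy')
  exact absurd h3 (not_le.2 hlt)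

lemma r05_closed {F : ℂ → OnePoint ℂ} (hF : Continuous F) (r : ℝ) :
    IsClosed {q : ℂ × ℂ | ∃ v ∈ Metric.closedBall (0:ℂ) r,
      F (q.1 + v) = ((q.2 : ℂ) : OnePoint ℂ)} := by
  have hK : CompactSpace (Metric.closedBall (0:ℂ) r) :=
    isCompact_iff_compactSpace.1 (isCompact_closedBall 0 r)
  have h1 : IsClosed {p : (ℂ × ℂ) × Metric.closedBall (0:ℂ) r |
      F (p.1.1 + (p.2:ℂ)) = ((p.1.2 : ℂ) : OnePoint ℂ)} := by
    apply isClosed_eq
    · exact hF.comp (by fun_prop)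
    · exact OnePoint.continuous_coe.comp (by fun_prop)
  have h2 := isClosedMap_fst_of_compactSpace _ h1
  have h3 : {q : ℂ × ℂ | ∃ v ∈ Metric.closedBall (0:ℂ) r,
      F (q.1 + v) = ((q.2 : ℂ) : OnePoint ℂ)} = Prod.fst '' {p : (ℂ × ℂ) × Metric.closedBall (0:ℂ) r |
      F (p.1.1 + (p.2:ℂ)) = ((p.1.2 : ℂ) : OnePoint ℂ)} := by
    ext q
    constructor
    · rintro ⟨v, hv, h⟩
      exact ⟨(q, ⟨v, hv⟩), h, rfl⟩
    · rintro ⟨⟨q', v⟩, h, rfl⟩
      exact ⟨v, v.2, h⟩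
  rw [h3]
  exact h2

lemma r05_union {F : ℂ → OnePoint ℂ} (hF : Continuous F) (s : ℝ) :
    MeasurableSet {q : ℂ × ℂ | ∃ y ∈ Metric.ball q.1 s, F y = ((q.2 : ℂ) : OnePoint ℂ)} := by
  have h : {q : ℂ × ℂ | ∃ y ∈ Metric.ball q.1 s, F y = ((q.2 : ℂ) : OnePoint ℂ)} =
      ⋃ j : ℕ, {q : ℂ × ℂ | ∃ v ∈ Metric.closedBall (0:ℂ) (s - 1 / ((j : ℝ) + 1)),
        F (q.1 + v) = ((q.2 : ℂ) : OnePoint ℂ)} := by
    ext q
    simp only [Set.mem_setOf_eq, Set.mem_iUnion, Metric.mem_ball, Metric.mem_closedBall]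
    constructor
    · rintro ⟨y, hy, h⟩
      obtain ⟨j, hj⟩ := exists_nat_one_div_lt (sub_pos.2 hy)
      refine ⟨j, y - q.1, ?_, ?_⟩
      · rw [dist_eq_norm] at hy hj ⊢
        rw [sub_zero]
        linarith
      · rw [add_sub_cancel]
        exact h
    · rintro ⟨j, v, hv, h⟩
      refine ⟨q.1 + v, ?_, h⟩
      rw [dist_eq_norm] at hv ⊢
      rw [add_sub_cancel_left]
      rw [sub_zero] at hv
      have : (0:ℝ) < 1 / ((j : ℝ) + 1) := by positivity
      linarith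
  rw [h]
  exact MeasurableSet.iUnion fun j => (r05_closed hF _).measurableSet

theorem measurableSet_miss {P Q : Polynomial ℂ} {d : ℕ} (h : RatData P Q d) (M N : ℕ) (s : ℝ) :
    MeasurableSet (Miss P Q M N s) := by
  have h1 : (Miss P Q M N s)ᶜ = ⋃ k : ℕ, ⋃ _ : M < k ∧ k ≤ N,
      {q : ℂ × ℂ | ∃ y ∈ Metric.ball q.1 s,
        (ratMap P Q)^[k] ((y : ℂ) : OnePoint ℂ) = ((q.2 : ℂ) : OnePoint ℂ)} := by
    ext q
    simp only [Set.mem_compl_iff, Miss, Set.mem_setOf_eq, Set.mem_iUnion]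
    constructor
    · intro hq
      push Not at hq
      obtain ⟨k, hk, hk', y, hy, hyk⟩ := hq
      exact ⟨k, ⟨hk, hk'⟩, y, hy, hyk⟩
    · rintro ⟨k, ⟨hk, hk'⟩, y, hy, hyk⟩ hq
      exact hq k hk hk' y hy hyk
  rw [← MeasurableSet.compl_iff, h1]
  refine MeasurableSet.iUnion fun k => MeasurableSet.iUnion fun _ => ?_
  exact r05_union ((ratMap_iter_continuous h k).comp OnePoint.continuous_coe) s

end Pool.Agent.Lib.MP_e4ee3e_an
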