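import Pool.Agent.Lib.MP_e4ee3e_an.Setup

/-!
S04. Finiteness: fibres of ratMap are finite, the set of marked points is finite, iterates have
finite fibres. For the fibre over a finite y: the finite points x with ratMap x = y satisfy
(P - C y * Q).eval x = 0, and P - C y * Q is not 0 (else P = y Q, coprime, so both constant,
contradiction to d >= 2). For the fibre over infinity: Q.eval x = 0, Q nonzero (if Q = 0 then P is
a unit, hence constant, d = 0). Wronskian nonzero: P' Q = P Q' and coprime imply Q divides Q',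
so Q' = 0, so Q constant, similarly P' = 0 , contradiction to d >= 2.
-/

open MeasureTheory Filter Topology

namespace Pool.Agent.Lib.MP_e4ee3e_an

attribute [local instance] chMetric

theorem s04_deriv_eq_zero {Q : Polynomial ℂ} (h : Q ∣ Polynomial.derivative Q) :
    Polynomial.derivative Q = 0 := by
  by_cases hQ : Q = 0
  · rw [hQ]; simp
  · exact Polynomial.eq_zero_of_dvd_of_degree_lt h (Polynomial.degree_derivative_lt hQ)

theorem wronskian_ne_zero {P Q : Polynomial ℂ} {d : ℕ} (h : RatData P Q d) :
    Polynomial.derivative P * Q - P * Polynomial.derivative Q ≠ 0 := by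
  intro h0
  have h1 : Polynomial.derivative P * Q = P * Polynomial.derivative Q := sub_eq_zero.1 h0
  have h2 : Q ∣ Polynomial.derivative Q := by
    have h3 : Q ∣ P * Polynomial.derivative Q := ⟨Polynomial.derivative P, by rw [← h1, mul_comm]⟩
    exact h.cop.symm.dvd_of_dvd_mul_left h3
  have h4 : P ∣ Polynomial.derivative P := by
    have h3 : P ∣ Q * Polynomial.derivative P := ⟨Polynomial.derivative Q, by rw [← h1, mul_comm]⟩
    exact h.cop.dvd_of_dvd_mul_left h3
  have h5 := Polynomial.derivative_eq_zero.1 (s04_deriv_eq_zero h2)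
  have h6 := Polynomial.derivative_eq_zero.1 (s04_deriv_eq_zero h4)
  have h7 := h.deg
  have h8 := h.two
  rw [h5, h6] at h7
  simp at h7
  omega

theorem marked_finite {P Q : Polynomial ℂ} {d : ℕ} (h : RatData P Q d) :
    (marked P Q).Finite := by
  have h1 := Polynomial.finite_setOfPred_isRoot (wronskian_ne_zero h)
  refine ((Set.finite_singleton (OnePoint.infty : OnePoint ℂ)).union
    (h1.image (fun z : ℂ => (z : OnePoint ℂ)))).subset ?_
  rintro c (hc | ⟨y, hy, hy2⟩)
  · exact Or.inl hc
  · exact Or.inr ⟨y, hy2, hy.symm⟩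

theorem s04_Q_ne_zero {P Q : Polynomial ℂ} {d : ℕ} (h : RatData P Q d) : Q ≠ 0 := by
  intro hQ
  have h1 := h.cop
  rw [hQ, isCoprime_zero_right] at h1
  have h2 := Polynomial.natDegree_eq_zero_of_isUnit h1
  have h3 := h.deg
  have h4 := h.two
  rw [hQ, h2] at h3
  simp at h3
  omega

theorem s04_sub_ne_zero {P Q : Polynomial ℂ} {d : ℕ} (h : RatData P Q d) (y : ℂ) :
    P - Polynomial.C y * Q ≠ 0 := by
  intro h0
  have h1 : P = Polynomial.C y * Q := sub_eq_zero.1 h0
  have h2 : IsUnit Q := h.cop.isUnit_of_dvd' ⟨Polynomial.C y, by rw [h1, mul_comm]⟩ dvd_rfl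
  have h3 := Polynomial.natDegree_eq_zero_of_isUnit h2
  have h4 : P.natDegree ≤ 0 := by
    rw [h1]
    refine Polynomial.natDegree_mul_le.trans ?_
    rw [h3, Polynomial.natDegree_C]
  have h5 := h.deg
  have h6 := h.two
  omega

theorem s04_ratio_infty {a b : ℂ} (h : ratio a b = OnePoint.infty) : b = 0 := by
  unfold ratio at h
  by_contra hb
  rw [if_neg hb] at h
  exact OnePoint.coe_ne_infty _ h

theorem s04_ratio_coe {a b y : ℂ} (h : ratio a b = (y : OnePoint ℂ)) : b ≠ 0 ∧ a = y * b := by
  unfold ratio at h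
  by_cases hb : b = 0
  · rw [if_pos hb] at h
    exact absurd h (OnePoint.infty_ne_coe _)
  · rw [if_neg hb] at h
    have h1 := OnePoint.coe_injective h
    exact ⟨hb, (div_eq_iff hb).1 h1⟩

theorem ratMap_fiber_finite {P Q : Polynomial ℂ} {d : ℕ} (h : RatData P Q d) (y : OnePoint ℂ) :
    {x | ratMap P Q x = y}.Finite := by
  cases y using OnePoint.rec with
  | infty =>
    have h1 := Polynomial.finite_setOfPred_isRoot (s04_Q_ne_zero h)
    refine ((Set.finite_singleton (OnePoint.infty : OnePoint ℂ)).union
      (h1.image (fun z : ℂ => (z : OnePoint ℂ)))).subset ?_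
    intro x hx
    cases x using OnePoint.rec with
    | infty => exact Or.inl rfl
    | coe z => exact Or.inr ⟨z, s04_ratio_infty hx, rfl⟩
  | coe y =>
    have h1 := Polynomial.finite_setOfPred_isRoot (s04_sub_ne_zero h y)
    refine ((Set.finite_singleton (OnePoint.infty : OnePoint ℂ)).union
      (h1.image (fun z : ℂ => (z : OnePoint ℂ)))).subset ?_
    intro x hx
    cases x using OnePoint.rec with
    | infty => exact Or.inl rfl
    | coe z =>
      refine Or.inr ⟨z, ?_, rfl⟩
      have h2 := (s04_ratio_coe hx).2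
      show Polynomial.eval z (P - Polynomial.C y * Q) = 0
      rw [Polynomial.eval_sub, Polynomial.eval_mul, Polynomial.eval_C, h2, sub_self]

theorem ratMap_iter_fiber_finite {P Q : Polynomial ℂ} {d : ℕ} (h : RatData P Q d) (n : ℕ)
    (y : OnePoint ℂ) : {x | (ratMap P Q)^[n] x = y}.Finite := by
  induction n with
  | zero =>
    refine (Set.finite_singleton y).subset ?_
    intro x hx
    exact hx
  | succ n ih =>
    refine (ih.biUnion (fun z _ => ratMap_fiber_finite h z)).subset ?_
    intro x hx
    rw [Set.mem_iUnion₂]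
    exact ⟨ratMap P Q x, hx, rfl⟩

end Pool.Agent.Lib.MP_e4ee3e_an
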