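import Pool.Agent.Lib.MP_e4ee3e_an.S03
import Pool.Agent.Lib.MP_e4ee3e_an.S04

/-!
T01. Almost every root is tame. For each of the finitely many marked c the points q_k = f^[k] c,
k >= 1, form a countable set; Borel-Cantelli (measure_limsup_atTop_eq_zero /
ae_eventually_notMem) for the sets of z with dist q_k z < exp(-k/j): within a bounded disc |z| <= R
these have area <= C_R exp(-2k/j) (if q_k is finite: chordal distance < s and |z| <= R imply
|z - q_k| <= C_R s for small s; if q_k is infinity: empty for small s). So for a.e. z and all j the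
inequality holds for all large k, and z is none of the q_k; so a suitable κ exists. Enough to treat
δ = 1/j.
-/

open MeasureTheory Filter Topology

namespace Pool.Agent.Lib.MP_e4ee3e_an

attribute [local instance] chMetric

/-- In a bounded disc, small chordal balls are contained in small euclidean balls. -/
lemma t01_ball (R : ℝ) (hR : 0 ≤ R) (q : OnePoint ℂ) (s : ℝ)
    (hs : s ≤ 1 / (2 * Real.sqrt (1 + R ^ 2))) :
    ∃ y : ℂ, ∀ z : ℂ, ‖z‖ ≤ R → dist q (z : OnePoint ℂ) < s →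
      z ∈ Metric.ball y (2 * (1 + R ^ 2) * s) := by
  have hA : 0 < Real.sqrt (1 + R ^ 2) := Real.sqrt_pos.2 (by positivity)
  have hAA : Real.sqrt (1 + R ^ 2) * Real.sqrt (1 + R ^ 2) = 1 + R ^ 2 :=
    Real.mul_self_sqrt (by positivity)
  have hzA : ∀ z : ℂ, ‖z‖ ≤ R → Real.sqrt (1 + ‖z‖ ^ 2) ≤ Real.sqrt (1 + R ^ 2) := by
    intro z hz
    apply Real.sqrt_le_sqrt
    have := norm_nonneg z
    nlinarith
  have hinf : ∀ z : ℂ, ‖z‖ ≤ R → 1 / Real.sqrt (1 + R ^ 2) ≤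
      dist (z : OnePoint ℂ) OnePoint.infty := by
    intro z hz
    rw [dist_coe_infty]
    exact one_div_le_one_div_of_le (by positivity) (hzA z hz)
  have hhalf : 1 / (2 * Real.sqrt (1 + R ^ 2)) = 1 / Real.sqrt (1 + R ^ 2) / 2 := by
    field_simp
  have hApos : 0 < 1 / Real.sqrt (1 + R ^ 2) := by positivity
  cases q using OnePoint.rec with
  | infty =>
    refine ⟨0, fun z hz hd => ?_⟩
    exfalso
    have h1 := hinf z hz
    rw [dist_comm] at hd
    rw [hhalf] at hs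
    linarith
  | coe y =>
    refine ⟨y, fun z hz hd => ?_⟩
    have h1 := hinf z hz
    have h2 := dist_triangle (z : OnePoint ℂ) (y : OnePoint ℂ) OnePoint.infty
    rw [dist_comm (z : OnePoint ℂ) (y : OnePoint ℂ), dist_coe_infty y] at h2
    have h3 : 1 / (2 * Real.sqrt (1 + R ^ 2)) ≤ 1 / Real.sqrt (1 + ‖y‖ ^ 2) := by
      rw [hhalf] at hs ⊢
      linarith
    have hy : 0 < Real.sqrt (1 + ‖y‖ ^ 2) := Real.sqrt_pos.2 (by positivity)
    have h4 : Real.sqrt (1 + ‖y‖ ^ 2) ≤ 2 * Real.sqrt (1 + R ^ 2) :=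
      (one_div_le_one_div (by positivity) hy).1 h3
    rw [dist_coe, div_lt_iff₀ (by positivity)] at hd
    have hs0 : 0 < s := by
      by_contra hneg
      have : s * (Real.sqrt (1 + ‖y‖ ^ 2) * Real.sqrt (1 + ‖z‖ ^ 2)) ≤ 0 :=
        mul_nonpos_of_nonpos_of_nonneg (not_lt.1 hneg) (by positivity)
      linarith [norm_nonneg (y - z)]
    rw [Metric.mem_ball, dist_comm, dist_eq_norm]
    refine hd.trans_le ?_
    have h5 : Real.sqrt (1 + ‖y‖ ^ 2) * Real.sqrt (1 + ‖z‖ ^ 2) ≤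
        (2 * Real.sqrt (1 + R ^ 2)) * Real.sqrt (1 + R ^ 2) :=
      mul_le_mul h4 (hzA z hz) (Real.sqrt_nonneg _) (by positivity)
    calc s * (Real.sqrt (1 + ‖y‖ ^ 2) * Real.sqrt (1 + ‖z‖ ^ 2))
        ≤ s * ((2 * Real.sqrt (1 + R ^ 2)) * Real.sqrt (1 + R ^ 2)) :=
          mul_le_mul_of_nonneg_left h5 hs0.le
      _ = 2 * (1 + R ^ 2) * s := by rw [mul_assoc 2, hAA]; ring

lemma t01_exp_tendsto {ε : ℝ} (hε : 0 < ε) :
    Tendsto (fun k : ℕ => Real.exp (-(ε * k))) atTop (𝓝 0) := by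
  have h1 : Tendsto (fun k : ℕ => ε * (k : ℝ)) atTop atTop :=
    Tendsto.const_mul_atTop hε tendsto_natCast_atTop_atTop
  exact Real.tendsto_exp_neg_atTop_nhds_zero.comp h1

lemma t01_summable {ε : ℝ} (hε : 0 < ε) (C : ℝ) :
    Summable (fun k : ℕ => C * Real.exp (-(ε * k))) := by
  apply Summable.mul_left
  have h1 : Summable (fun k : ℕ => Real.exp (-ε) ^ k) := by
    apply summable_geometric_of_lt_one (Real.exp_pos _).le
    rw [Real.exp_lt_one_iff]
    linarith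
  refine h1.congr fun k => ?_
  rw [← Real.exp_nat_mul]
  congr 1
  ring

/-- Borel-Cantelli for the chordal balls. -/
lemma t01_borel (q : ℕ → OnePoint ℂ) {ε : ℝ} (hε : 0 < ε) :
    ∀ᵐ z : ℂ, ∀ᶠ k : ℕ in atTop, Real.exp (-(ε * k)) ≤ dist (q k) (z : OnePoint ℂ) := by
  have hmain : ∀ R : ℕ, ∀ᵐ z : ℂ, ‖z‖ ≤ (R : ℝ) →
      ∀ᶠ k : ℕ in atTop, Real.exp (-(ε * k)) ≤ dist (q k) (z : OnePoint ℂ) := by
    intro R
    have hR : (0 : ℝ) ≤ R := Nat.cast_nonneg _
    set A : ℝ := 1 / (2 * Real.sqrt (1 + (R : ℝ) ^ 2)) with hA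
    have hApos : 0 < A := by
      have : 0 < Real.sqrt (1 + (R : ℝ) ^ 2) := Real.sqrt_pos.2 (by positivity)
      positivity
    set S : ℕ → Set ℂ := fun k => {z | ‖z‖ ≤ (R : ℝ) ∧ Real.exp (-(ε * k)) ≤ A ∧
      dist (q k) (z : OnePoint ℂ) < Real.exp (-(ε * k))} with hS
    have hvol : ∀ k, volume (S k) ≤
        ENNReal.ofReal (((2 * (1 + (R : ℝ) ^ 2)) ^ 2 * Real.pi) * Real.exp (-((2 * ε) * k))) := by
      intro k
      by_cases hk : Real.exp (-(ε * k)) ≤ A
      · obtain ⟨y, hy⟩ := t01_ball R hR (q k) (Real.exp (-(ε * k))) hk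
        have hsub : S k ⊆ Metric.ball y (2 * (1 + (R : ℝ) ^ 2) * Real.exp (-(ε * k))) := by
          rintro z ⟨h1, _, h3⟩
          exact hy z h1 h3
        refine (measure_mono hsub).trans ?_
        rw [Complex.volume_ball]
        have hpi : ((NNReal.pi : NNReal) : ENNReal) = ENNReal.ofReal Real.pi := by
          rw [ENNReal.ofReal, ← NNReal.coe_real_pi, Real.toNNReal_coe]
        rw [hpi, ← ENNReal.ofReal_pow (by positivity), ← ENNReal.ofReal_mul (by positivity)]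
        apply le_of_eq
        congr 1
        have : Real.exp (-((2 * ε) * k)) = Real.exp (-(ε * k)) ^ 2 := by
          rw [← Real.exp_nat_mul]
          congr 1
          push_cast
          ring
        rw [this]
        ring
      · have : S k = ∅ := by
          ext z
          simp only [hS, Set.mem_ofPred_eq, Set.mem_empty_iff_false, iff_false]
          rintro ⟨_, h2, _⟩
          exact hk h2
        rw [this]
        simp
    have hsum : (∑' k, volume (S k)) ≠ ⊤ := by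
      refine ne_top_of_le_ne_top ?_ (ENNReal.tsum_le_tsum hvol)
      exact (t01_summable (by positivity) _).tsum_ofReal_ne_top
    have hbc := ae_eventually_notMem hsum
    filter_upwards [hbc] with z hz hzR
    have hsmall : ∀ᶠ k : ℕ in atTop, Real.exp (-(ε * k)) < A :=
      (t01_exp_tendsto hε).eventually (gt_mem_nhds hApos)
    filter_upwards [hz, hsmall] with k h1 h2
    by_contra h3
    exact h1 ⟨hzR, h2.le, not_le.1 h3⟩
  have hall := ae_all_iff.2 hmain
  filter_upwards [hall] with z hz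
  obtain ⟨R, hR⟩ := exists_nat_ge ‖z‖
  exact hz R hR

lemma t01_ne (q : ℕ → OnePoint ℂ) : ∀ᵐ z : ℂ, ∀ k, q k ≠ (z : OnePoint ℂ) := by
  rw [ae_all_iff]
  intro k
  cases hq : q k using OnePoint.rec with
  | infty => exact Filter.Eventually.of_forall fun z => OnePoint.infty_ne_coe z
  | coe y =>
    have : ∀ᵐ z : ℂ, z ≠ y := by
      simp [ae_iff]
    filter_upwards [this] with z hz h
    exact hz (OnePoint.coe_injective h).symm

/-- From eventual bounds to a uniform constant. -/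
lemma t01_const (g : ℕ → ℝ) (hg : ∀ k, 1 ≤ k → 0 < g k) {ε δ : ℝ} (hεδ : ε ≤ δ)
    (h : ∀ᶠ k : ℕ in atTop, Real.exp (-(ε * k)) ≤ g k) :
    ∀ᶠ κ : ℝ in 𝓝[>] 0, ∀ k : ℕ, 1 ≤ k → κ * Real.exp (-(δ * k)) ≤ g k := by
  obtain ⟨N, hN⟩ := eventually_atTop.1 h
  have h1 : ∀ᶠ κ : ℝ in 𝓝[>] 0, κ ≤ 1 := by
    have : ∀ᶠ κ : ℝ in 𝓝 0, κ < 1 := gt_mem_nhds one_pos
    filter_upwards [nhdsWithin_le_nhds this] with κ hκ using hκ.le
  have h2 : ∀ᶠ κ : ℝ in 𝓝[>] 0, ∀ k ∈ Finset.range N, 1 ≤ k →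
      κ * Real.exp (-(δ * k)) ≤ g k := by
    rw [Filter.eventually_all_finset]
    intro k _
    by_cases hk : 1 ≤ k
    · have hc : Tendsto (fun κ : ℝ => κ * Real.exp (-(δ * k))) (𝓝 0) (𝓝 (0 * Real.exp (-(δ * k)))) :=
        (continuous_id.mul continuous_const).tendsto 0
      rw [zero_mul] at hc
      have := hc.eventually (gt_mem_nhds (hg k hk))
      filter_upwards [nhdsWithin_le_nhds this] with κ hκ _ using hκ.le
    · exact Filter.Eventually.of_forall fun κ h => absurd h hk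
  filter_upwards [h1, h2] with κ hκ1 hκ2 k hk
  rcases lt_or_ge k N with hkN | hkN
  · exact hκ2 k (Finset.mem_range.2 hkN) hk
  · refine le_trans ?_ (hN k hkN)
    have he : Real.exp (-(δ * k)) ≤ Real.exp (-(ε * k)) := by
      apply Real.exp_le_exp.2
      have : ε * (k : ℝ) ≤ δ * k := mul_le_mul_of_nonneg_right hεδ (Nat.cast_nonneg _)
      linarith
    calc κ * Real.exp (-(δ * k)) ≤ 1 * Real.exp (-(δ * k)) :=
          mul_le_mul_of_nonneg_right hκ1 (Real.exp_pos _).le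
      _ ≤ Real.exp (-(ε * k)) := by rw [one_mul]; exact he

theorem tame_ae {P Q : Polynomial ℂ} {d : ℕ} (h : RatData P Q d) :
    ∀ᵐ z : ℂ, Tame P Q (z : OnePoint ℂ) := by
  have hfin := marked_finite h
  have h1 : ∀ c ∈ marked P Q, ∀ᵐ z : ℂ, (∀ j : ℕ, ∀ᶠ k : ℕ in atTop,
      Real.exp (-((1 / ((j : ℝ) + 1)) * k)) ≤ dist ((ratMap P Q)^[k] c) (z : OnePoint ℂ)) ∧
      ∀ k, (ratMap P Q)^[k] c ≠ (z : OnePoint ℂ) := by
    intro c _
    have ha : ∀ᵐ z : ℂ, ∀ j : ℕ, ∀ᶠ k : ℕ in atTop,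
        Real.exp (-((1 / ((j : ℝ) + 1)) * k)) ≤
          dist ((ratMap P Q)^[k] c) (z : OnePoint ℂ) := by
      rw [ae_all_iff]
      intro j
      exact t01_borel (fun k => (ratMap P Q)^[k] c) (by positivity)
    filter_upwards [ha, t01_ne (fun k => (ratMap P Q)^[k] c)] with z hz1 hz2
    exact ⟨hz1, hz2⟩
  have h2 : ∀ᵐ z : ℂ, ∀ c ∈ marked P Q, (∀ j : ℕ, ∀ᶠ k : ℕ in atTop,
      Real.exp (-((1 / ((j : ℝ) + 1)) * k)) ≤ dist ((ratMap P Q)^[k] c) (z : OnePoint ℂ)) ∧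
      ∀ k, (ratMap P Q)^[k] c ≠ (z : OnePoint ℂ) :=
    (Filter.eventually_all_finite hfin).2 h1
  filter_upwards [h2] with z hz
  intro δ hδ
  obtain ⟨j, hj⟩ := exists_nat_one_div_lt hδ
  have h3 : ∀ c ∈ marked P Q, ∀ᶠ κ : ℝ in 𝓝[>] 0, ∀ k : ℕ, 1 ≤ k →
      κ * Real.exp (-(δ * k)) ≤ dist ((ratMap P Q)^[k] c) (z : OnePoint ℂ) := by
    intro c hc
    obtain ⟨ha, hb⟩ := hz c hc
    exact t01_const _ (fun k _ => dist_pos.2 (hb k)) hj.le (ha j)
  have h4 := (Filter.eventually_all_finite hfin).2 h3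
  obtain ⟨κ, hκ, hκ0⟩ := (h4.and self_mem_nhdsWithin).exists
  exact ⟨κ, hκ0, fun k hk c hc => hκ c hc k hk⟩

theorem tame_of_image {P Q : Polynomial ℂ} {d : ℕ} (h : RatData P Q d) {p : OnePoint ℂ}
    (hp : Tame P Q (ratMap P Q p)) : Tame P Q p := by
  obtain ⟨L, hL2, hL⟩ := ratMap_lipschitz h
  intro δ hδ
  obtain ⟨κ, hκ, hk⟩ := hp δ hδ
  have hL0 : 0 < L := by linarith
  refine ⟨κ * Real.exp (-δ) / L, by positivity, fun k hk1 c hc => ?_⟩
  have h1 := hk (k + 1) (by omega) c hc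
  rw [Function.iterate_succ_apply'] at h1
  have h2 := h1.trans (hL _ _)
  have h3 : Real.exp (-(δ * ((k + 1 : ℕ) : ℝ))) = Real.exp (-δ) * Real.exp (-(δ * k)) := by
    rw [← Real.exp_add]
    congr 1
    push_cast
    ring
  rw [h3] at h2
  rw [div_mul_eq_mul_div, div_le_iff₀ hL0]
  nlinarith [h2]

/-- A finite tame point is good and is never hit by a forward image of a marked point. -/
theorem tame_ne {P Q : Polynomial ℂ} {p : OnePoint ℂ} (hp : Tame P Q p) {k : ℕ} (hk : 1 ≤ k)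
    {c : OnePoint ℂ} (hc : c ∈ marked P Q) : (ratMap P Q)^[k] c ≠ p := by
  obtain ⟨κ, hκ, hkk⟩ := hp 1 one_pos
  intro he
  have h1 := hkk k hk c hc
  rw [he, dist_self] at h1
  have : 0 < κ * Real.exp (-(1 * (k : ℝ))) := by positivity
  linarith

end Pool.Agent.Lib.MP_e4ee3e_an
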