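import Pool.Agent.Lib.MP_e4ee3e_an.R02
import Pool.Agent.Lib.MP_e4ee3e_an.R03
import Pool.Agent.Lib.MP_e4ee3e_an.R04
import Pool.Agent.Lib.MP_e4ee3e_an.R05
import Pool.Agent.Lib.MP_e4ee3e_an.T01

/-!
R06. Choice of the root. Let mC = m.comap coe (coe is an open embedding, measurable embedding),
R with m of the complement of coe closedBall 0 R at most p/2 (m {infinity} = 0), p₂ = p/2,
p₁ = p₂ * area/2, η from R02 with these, C' = 1 + 5 log L/θ. B n = {(x,z): x in closedBall 0 R,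
x not in Small (floor(C' n)) (η s) ε, (x,z) in Miss (2n) (floor(C' n)) s}, s = L^(-2n), ν = volume
restricted to ball v₀ ρ₀: slices <= p₁ by R02 (k < floor(C' n) expanding, 2n < k). R04 and tame_ae
give a tame z in the ball with infinitely many good n. For such n (large): F from R03 for
S = Small ∩ closedBall, ρ = η s, card <= C (L^(2n)/η)^2 <= exp(θ floor(C' n)) for n large.
The set in question is contained in complement of coe closedBall union coe of the slice.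
-/

open MeasureTheory Filter Topology

namespace Pool.Agent.Lib.MP_e4ee3e_an

attribute [local instance] chMetric

theorem r06_emb [MeasurableSpace (OnePoint ℂ)] [BorelSpace (OnePoint ℂ)] :
    MeasurableEmbedding ((↑) : ℂ → OnePoint ℂ) :=
  OnePoint.isOpenEmbedding_coe.measurableEmbedding

/-- most of the mass lies over a large disc -/
theorem r06_radius [MeasurableSpace (OnePoint ℂ)] [BorelSpace (OnePoint ℂ)]
    (m : Measure (OnePoint ℂ)) [IsProbabilityMeasure m] (hm : m {OnePoint.infty} = 0) (p : ℝ)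
    (hp : 0 < p) : ∃ R : ℝ, 0 < R ∧
      m (((↑) : ℂ → OnePoint ℂ) '' Metric.closedBall 0 R)ᶜ ≤ ENNReal.ofReal p := by
  have h1 : Tendsto (fun j : ℕ => m ((((↑) : ℂ → OnePoint ℂ) '' Metric.closedBall 0 (j : ℝ))ᶜ))
      atTop (𝓝 (m (⋂ j : ℕ, (((↑) : ℂ → OnePoint ℂ) '' Metric.closedBall 0 (j : ℝ))ᶜ))) := by
    refine tendsto_measure_iInter_atTop ?_ ?_ ⟨0, measure_ne_top _ _⟩
    · intro j
      exact ((r06_emb.measurableSet_image.2 measurableSet_closedBall).compl).nullMeasurableSet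
    · intro i j hij
      apply Set.compl_subset_compl.2
      apply Set.image_mono
      apply Metric.closedBall_subset_closedBall
      exact_mod_cast hij
  have h2 : (⋂ j : ℕ, (((↑) : ℂ → OnePoint ℂ) '' Metric.closedBall 0 (j : ℝ))ᶜ) ⊆
      {OnePoint.infty} := by
    intro x hx
    cases x using OnePoint.rec with
    | infty => rfl
    | coe y =>
      exfalso
      rw [Set.mem_iInter] at hx
      obtain ⟨j, hj⟩ := exists_nat_ge ‖y‖
      exact hx j ⟨y, by rw [Metric.mem_closedBall, dist_zero_right]; exact hj, rfl⟩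
  rw [measure_mono_null h2 hm] at h1
  have h3 : (0 : ENNReal) < ENNReal.ofReal p := ENNReal.ofReal_pos.2 hp
  have h4 := (h1.eventually (gt_mem_nhds h3)).and (eventually_ge_atTop 1)
  obtain ⟨j, hj, hj1⟩ := h4.exists
  refine ⟨j, by exact_mod_cast hj1, hj.le⟩

/-- numerical comparison: the number of discs is small against the entropy budget -/
theorem r06_count (C η L θ : ℝ) (hC : 0 < C) (hη : 0 < η) (hL : 2 ≤ L) (hθ : 0 < θ) :
    ∀ᶠ n : ℕ in atTop, C / (η * (L ^ (2 * n))⁻¹) ^ 2 ≤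
      Real.exp (θ * ⌊(1 + 5 * Real.log L / θ) * n⌋₊) := by
  have hl : 0 < Real.log L := Real.log_pos (by linarith)
  have h1 : ∀ᶠ n : ℕ in atTop, Real.log (C / η ^ 2) + θ ≤ θ * n := by
    have : Tendsto (fun n : ℕ => θ * (n : ℝ)) atTop atTop :=
      tendsto_natCast_atTop_atTop.const_mul_atTop hθ
    exact this.eventually_ge_atTop _
  filter_upwards [h1] with n hn
  have hLn : 0 < L ^ (2 * n) := by positivity
  have h2 : C / (η * (L ^ (2 * n))⁻¹) ^ 2 =
      Real.exp (Real.log (C / η ^ 2) + 4 * n * Real.log L) := by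
    rw [Real.exp_add, Real.exp_log (by positivity),
      show (4 : ℝ) * n * Real.log L = ((4 * n : ℕ) : ℝ) * Real.log L by push_cast; ring,
      Real.exp_nat_mul, Real.exp_log (by linarith)]
    field_simp
    ring
  rw [h2]
  apply Real.exp_le_exp.2
  have h3 : (1 + 5 * Real.log L / θ) * n - 1 ≤ ⌊(1 + 5 * Real.log L / θ) * (n : ℝ)⌋₊ := by
    have := Nat.lt_floor_add_one ((1 + 5 * Real.log L / θ) * (n : ℝ))
    linarith
  have h4 := mul_le_mul_of_nonneg_left h3 hθ.le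
  have h5 : θ * ((1 + 5 * Real.log L / θ) * n - 1) = θ * n + 5 * Real.log L * n - θ := by
    field_simp
  rw [h5] at h4
  have h6 : 0 ≤ Real.log L * n := by positivity
  nlinarith

/-- the choice of the root with an arbitrary almost everywhere property of the root -/
theorem exists_root_gen {P Q : Polynomial ℂ} {d : ℕ} (h : RatData P Q d)
    [MeasurableSpace (OnePoint ℂ)] [BorelSpace (OnePoint ℂ)] (L : ℝ) (hL : 2 ≤ L)
    (hlip : ∀ x y, dist (ratMap P Q x) (ratMap P Q y) ≤ L * dist x y)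
    (m : Measure (OnePoint ℂ)) [IsProbabilityMeasure m] (hm : m {OnePoint.infty} = 0)
    (v₀ : ℂ) (ρ₀ θ ε p : ℝ) (hρ₀ : 0 < ρ₀) (hθ : 0 < θ) (hε : 0 < ε) (hp : 0 < p)
    (Pz : ℂ → Prop) (hPz : ∀ᵐ z : ℂ, Pz z) :
    ∃ C' : ℝ, 1 ≤ C' ∧ ∃ z ∈ Metric.ball v₀ ρ₀, Pz z ∧
      ∃ᶠ n : ℕ in atTop, ∃ F : Finset (OnePoint ℂ),
        (F.card : ℝ) ≤ Real.exp (θ * ⌊C' * n⌋₊) ∧
        m {x | ¬ (∃ c ∈ F, ∀ k < ⌊C' * n⌋₊,
            dist ((ratMap P Q)^[k] x) ((ratMap P Q)^[k] c) ≤ ε) ∧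
          ¬ (∃ N : ℕ, 2 * n < N ∧ (N : ℝ) ≤ C' * n ∧ ∃ y, dist x y < (L ^ (2 * n))⁻¹ ∧
            (ratMap P Q)^[N] y = (z : OnePoint ℂ))} ≤ ENNReal.ofReal p := by
  classical
  have hl : 0 < Real.log L := Real.log_pos (by linarith)
  obtain ⟨R, hR, hmR⟩ := r06_radius m hm (p / 2) (by linarith)
  set ν : Measure ℂ := volume.restrict (Metric.ball v₀ ρ₀) with hν
  have hvol : volume (Metric.ball v₀ ρ₀) ≠ ⊤ := measure_ball_lt_top.ne
  have hvol0 : 0 < volume.real (Metric.ball v₀ ρ₀) := by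
    rw [Measure.real, ENNReal.toReal_pos_iff]
    exact ⟨Metric.measure_ball_pos volume v₀ hρ₀, measure_ball_lt_top⟩
  set p₁ : ℝ := p / 2 * (volume.real (Metric.ball v₀ ρ₀) / 2) with hp₁
  have hp₁0 : 0 < p₁ := by positivity
  obtain ⟨η, hη0, hη1, hexp⟩ := expand_cover h L hL hlip v₀ ρ₀ ε p₁ hρ₀ hε hp₁0
  obtain ⟨C, hC, hcov⟩ := plane_cover R hR
  set C' : ℝ := 1 + 5 * Real.log L / θ with hC'
  have hC'1 : 1 ≤ C' := by
    have : 0 ≤ 5 * Real.log L / θ := by positivity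
    linarith
  refine ⟨C', hC'1, ?_⟩
  set mC : Measure ℂ := m.comap ((↑) : ℂ → OnePoint ℂ) with hmC
  have hmCle : ∀ S : Set ℂ, mC S = m (((↑) : ℂ → OnePoint ℂ) '' S) := fun S =>
    r06_emb.comap_apply m S
  haveI : IsFiniteMeasure mC := ⟨by
    rw [hmCle]
    exact measure_lt_top _ _⟩
  haveI : IsFiniteMeasure ν := ⟨by
    rw [hν, Measure.restrict_apply_univ]
    exact measure_ball_lt_top⟩
  have hm1 : mC Set.univ ≤ 1 := by
    rw [hmCle]
    exact prob_le_one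
  set B : ℕ → Set (ℂ × ℂ) := fun n =>
    {q | q.1 ∈ Metric.closedBall (0 : ℂ) R ∧
      q.1 ∉ Small P Q ⌊C' * n⌋₊ (η * (L ^ (2 * n))⁻¹) ε ∧
      q ∈ Miss P Q (2 * n) ⌊C' * n⌋₊ (L ^ (2 * n))⁻¹} with hB
  have hBm : ∀ n, MeasurableSet (B n) := by
    intro n
    have b1 : MeasurableSet {q : ℂ × ℂ | q.1 ∈ Metric.closedBall (0 : ℂ) R} :=
      measurable_fst measurableSet_closedBall
    have b2 : MeasurableSet {q : ℂ × ℂ |
        q.1 ∉ Small P Q ⌊C' * n⌋₊ (η * (L ^ (2 * n))⁻¹) ε} :=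
      measurable_fst (isClosed_small _ _ _).measurableSet.compl
    exact b1.inter (b2.inter (measurableSet_miss h _ _ _))
  have hslice : ∀ n x, ν {y | (x, y) ∈ B n} ≤ ENNReal.ofReal p₁ := by
    intro n x
    by_cases hx : x ∈ Small P Q ⌊C' * n⌋₊ (η * (L ^ (2 * n))⁻¹) ε
    · have : {y | (x, y) ∈ B n} = ∅ := by
        ext y
        simp only [Set.mem_ofPred_eq, Set.mem_empty_iff_false, iff_false]
        rintro ⟨-, h2, -⟩
        exact h2 hx
      rw [this]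
      simp
    · have hx' := hx
      simp only [Small, Set.mem_ofPred_eq, not_forall, not_le] at hx'
      obtain ⟨k, hk, w, hw, w', hw', hd⟩ := hx'
      obtain ⟨h2n, hv⟩ := hexp n k x ⟨w, hw, w', hw', hd⟩
      rw [hν, Measure.restrict_apply' measurableSet_ball]
      refine le_trans (measure_mono ?_) hv
      rintro z ⟨⟨-, -, h3⟩, hz⟩
      refine ⟨hz, ?_⟩
      rintro ⟨y, hy, hyz⟩
      exact h3 k h2n hk.le y hy hyz
  have hνu : ν Set.univ = ENNReal.ofReal (volume.real (Metric.ball v₀ ρ₀)) := by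
    rw [hν, Measure.restrict_apply_univ, Measure.real, ENNReal.ofReal_toReal hvol]
  have hsel := root_selection mC ν hm1 B hBm (ENNReal.ofReal p₁) (ENNReal.ofReal (p / 2))
    (by
      rw [Ne, ENNReal.ofReal_eq_zero, not_le]
      linarith) ENNReal.ofReal_ne_top hslice (by
      rw [hνu, ← ENNReal.ofReal_mul (by linarith)]
      apply (ENNReal.ofReal_lt_ofReal_iff (by positivity)).2
      rw [hp₁]
      nlinarith)
  have hae : ∀ᵐ z ∂ν, z ∈ Metric.ball v₀ ρ₀ ∧ Pz z := by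
    refine (ae_restrict_mem measurableSet_ball).and ?_
    exact ae_restrict_of_ae hPz
  obtain ⟨z, hz1, hz2⟩ : ∃ z ∈ {y | ∃ᶠ n in atTop, mC {x | (x, y) ∈ B n} ≤ ENNReal.ofReal (p / 2)},
      z ∈ Metric.ball v₀ ρ₀ ∧ Pz z := by
    by_contra hcon
    push Not at hcon
    refine hsel.ne' (measure_mono_null ?_ hae)
    intro z hz hz'
    exact hcon z hz hz'.1 hz'.2
  refine ⟨z, hz2.1, hz2.2, ?_⟩
  refine (hz1.and_eventually (r06_count C η L θ hC hη0 hL hθ)).mono ?_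
  rintro n ⟨hn, hcard⟩
  have hs : 0 < (L ^ (2 * n))⁻¹ := by positivity
  have hs1 : (L ^ (2 * n))⁻¹ ≤ 1 := by
    apply inv_le_one_of_one_le₀
    apply one_le_pow₀
    linarith
  have hρ : 0 < η * (L ^ (2 * n))⁻¹ := by positivity
  have hρ1 : η * (L ^ (2 * n))⁻¹ ≤ 1 := by nlinarith
  obtain ⟨F₀, hF1, hF2, hF3⟩ := hcov (η * (L ^ (2 * n))⁻¹)
    (Small P Q ⌊C' * n⌋₊ (η * (L ^ (2 * n))⁻¹) ε ∩ Metric.closedBall 0 R) hρ hρ1
    Set.inter_subset_right
  refine ⟨F₀.image (fun c : ℂ => (c : OnePoint ℂ)), ?_, ?_⟩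
  · have : ((F₀.image (fun c : ℂ => (c : OnePoint ℂ))).card : ℝ) ≤ F₀.card := by
      exact_mod_cast Finset.card_image_le
    exact this.trans (hF2.trans hcard)
  · have hsub : {x | ¬ (∃ c ∈ F₀.image (fun c : ℂ => (c : OnePoint ℂ)), ∀ k < ⌊C' * n⌋₊,
            dist ((ratMap P Q)^[k] x) ((ratMap P Q)^[k] c) ≤ ε) ∧
          ¬ (∃ N : ℕ, 2 * n < N ∧ (N : ℝ) ≤ C' * n ∧ ∃ y, dist x y < (L ^ (2 * n))⁻¹ ∧
            (ratMap P Q)^[N] y = (z : OnePoint ℂ))} ⊆
        (((↑) : ℂ → OnePoint ℂ) '' Metric.closedBall 0 R)ᶜ ∪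
        (((↑) : ℂ → OnePoint ℂ) '' {x | (x, z) ∈ B n}) := by
      rintro x ⟨hx1, hx2⟩
      by_cases hxR : x ∈ (((↑) : ℂ → OnePoint ℂ) '' Metric.closedBall 0 R)
      · right
        obtain ⟨y, hy, rfl⟩ := hxR
        refine ⟨y, ⟨hy, ?_, ?_⟩, rfl⟩
        · intro hsm
          obtain ⟨c, hc, hyc⟩ := hF3 y ⟨hsm, hy⟩
          apply hx1
          refine ⟨(c : OnePoint ℂ), Finset.mem_image_of_mem _ hc, fun k hk => ?_⟩
          have hcs := (hF1 c hc).1
          refine hcs k hk y ?_ c ?_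
          · rw [Metric.mem_ball, dist_eq_norm]
            exact hyc
          · exact Metric.mem_ball_self hρ
        · intro k hk1 hk2 y' hy' he
          apply hx2
          refine ⟨k, hk1, ?_, (y' : OnePoint ℂ), ?_, he⟩
          · have h0 : (0 : ℝ) ≤ C' * n := by positivity
            have : ((⌊C' * n⌋₊ : ℕ) : ℝ) ≤ C' * n := Nat.floor_le h0
            have h1 : (k : ℝ) ≤ ((⌊C' * n⌋₊ : ℕ) : ℝ) := by exact_mod_cast hk2
            exact h1.trans this
          · refine (dist_coe_le y y').trans_lt ?_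
            rw [Metric.mem_ball, dist_comm, dist_eq_norm] at hy'
            exact hy'
      · left
        exact hxR
    calc m _ ≤ m ((((↑) : ℂ → OnePoint ℂ) '' Metric.closedBall 0 R)ᶜ ∪
        (((↑) : ℂ → OnePoint ℂ) '' {x | (x, z) ∈ B n})) := measure_mono hsub
      _ ≤ m ((((↑) : ℂ → OnePoint ℂ) '' Metric.closedBall 0 R)ᶜ) +
        m (((↑) : ℂ → OnePoint ℂ) '' {x | (x, z) ∈ B n}) := measure_union_le _ _
      _ ≤ ENNReal.ofReal (p / 2) + ENNReal.ofReal (p / 2) := by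
          refine add_le_add hmR ?_
          rw [← hmCle]
          exact hn
      _ = ENNReal.ofReal p := by
          rw [← ENNReal.ofReal_add (by linarith) (by linarith)]
          congr 1
          ring

theorem exists_root {P Q : Polynomial ℂ} {d : ℕ} (h : RatData P Q d)
    [MeasurableSpace (OnePoint ℂ)] [BorelSpace (OnePoint ℂ)] (L : ℝ) (hL : 2 ≤ L)
    (hlip : ∀ x y, dist (ratMap P Q x) (ratMap P Q y) ≤ L * dist x y)
    (m : Measure (OnePoint ℂ)) [IsProbabilityMeasure m] (hm : m {OnePoint.infty} = 0)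
    (v₀ : ℂ) (ρ₀ θ ε p : ℝ) (hρ₀ : 0 < ρ₀) (hθ : 0 < θ) (hε : 0 < ε) (hp : 0 < p) :
    ∃ C' : ℝ, 1 ≤ C' ∧ ∃ z ∈ Metric.ball v₀ ρ₀, Tame P Q (z : OnePoint ℂ) ∧
      ∃ᶠ n : ℕ in atTop, ∃ F : Finset (OnePoint ℂ),
        (F.card : ℝ) ≤ Real.exp (θ * ⌊C' * n⌋₊) ∧
        m {x | ¬ (∃ c ∈ F, ∀ k < ⌊C' * n⌋₊,
            dist ((ratMap P Q)^[k] x) ((ratMap P Q)^[k] c) ≤ ε) ∧
          ¬ (∃ N : ℕ, 2 * n < N ∧ (N : ℝ) ≤ C' * n ∧ ∃ y, dist x y < (L ^ (2 * n))⁻¹ ∧
            (ratMap P Q)^[N] y = (z : OnePoint ℂ))} ≤ ENNReal.ofReal p :=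
  exists_root_gen h L hL hlip m hm v₀ ρ₀ θ ε p hρ₀ hθ hε hp
    (fun z => Tame P Q (z : OnePoint ℂ)) (tame_ae h)

end Pool.Agent.Lib.MP_e4ee3e_an
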