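import Pool.Agent.Lib.MP_e4ee3e_an.S07

/-!
S08. Lifting of paths and of maps of discs, and uniqueness, from
IsCoveringMapOn.existsUnique_continuousMap_lifts (A = unitInterval, A = the subtype of a ball: use
ContractibleSpace and Convex.locallyPathConnectedSpace) and for uniqueness
IsCoveringMap.eqOn_of_comp_eqOn / eq_of_comp_eq for the restriction to the preimage of good1
(IsCoveringMapOn.isCoveringMap_restrictPreimage).
-/

open MeasureTheory Filter Topology

namespace Pool.Agent.Lib.MP_e4ee3e_an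

attribute [local instance] chMetric

/-- Uniqueness of lifts over the good set, for maps defined on a preconnected space. -/
theorem s08_unique {P Q : Polynomial ℂ} {d : ℕ} (h : RatData P Q d) {A : Type*}
    [TopologicalSpace A] [PreconnectedSpace A] (g₁ g₂ : A → OnePoint ℂ) (hc₁ : Continuous g₁)
    (hc₂ : Continuous g₂) (a : A) (h0 : g₁ a = g₂ a)
    (hf : ∀ t, ratMap P Q (g₁ t) = ratMap P Q (g₂ t)) (hg : ∀ t, ratMap P Q (g₁ t) ∈ good1 P Q) :
    g₁ = g₂ := by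
  have cov := (ratMap_isCoveringMapOn h).isCoveringMap_restrictPreimage
  have hg₂ : ∀ t, ratMap P Q (g₂ t) ∈ good1 P Q := fun t => hf t ▸ hg t
  have key := cov.eq_of_comp_eq
    (g₁ := fun t => (⟨g₁ t, hg t⟩ : ratMap P Q ⁻¹' good1 P Q))
    (g₂ := fun t => (⟨g₂ t, hg₂ t⟩ : ratMap P Q ⁻¹' good1 P Q))
    (hc₁.subtype_mk _) (hc₂.subtype_mk _)
    (by
      funext t
      exact Subtype.ext (hf t)) a (Subtype.ext h0)
  funext t
  exact congrArg Subtype.val (congrFun key t)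

theorem path_lift {P Q : Polynomial ℂ} {d : ℕ} (h : RatData P Q d)
    (γ : C(unitInterval, OnePoint ℂ)) (hγ : ∀ t, γ t ∈ good1 P Q) (t₀ : unitInterval)
    (e : OnePoint ℂ) (he : ratMap P Q e = γ t₀) :
    ∃ γ' : C(unitInterval, OnePoint ℂ), γ' t₀ = e ∧ ∀ t, ratMap P Q (γ' t) = γ t := by
  have : LocallyPathConnectedSpace unitInterval :=
    (convex_Icc (0 : ℝ) 1).locallyPathConnectedSpace
  have : ContractibleSpace unitInterval :=
    (convex_Icc (0 : ℝ) 1).contractibleSpace ⟨0, by simp⟩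
  obtain ⟨F, ⟨h1, h2⟩, -⟩ :=
    (ratMap_isCoveringMapOn h).existsUnique_continuousMap_lifts γ he hγ
  exact ⟨F, h1, fun t => congrFun h2 t⟩

theorem path_unique {P Q : Polynomial ℂ} {d : ℕ} (h : RatData P Q d)
    (γ₁ γ₂ : C(unitInterval, OnePoint ℂ)) (t₀ : unitInterval) (h0 : γ₁ t₀ = γ₂ t₀)
    (hf : ∀ t, ratMap P Q (γ₁ t) = ratMap P Q (γ₂ t)) (hg : ∀ t, ratMap P Q (γ₁ t) ∈ good1 P Q) :
    γ₁ = γ₂ := by
  have := s08_unique h γ₁ γ₂ γ₁.continuous γ₂.continuous t₀ h0 hf hg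
  exact DFunLike.coe_injective this

theorem disc_lift {P Q : Polynomial ℂ} {d : ℕ} (h : RatData P Q d) (b : ℂ) (r : ℝ) (hr : 0 < r)
    (ψ : ℂ → OnePoint ℂ) (hψ : ContinuousOn ψ (Metric.ball b r))
    (hg : ∀ w ∈ Metric.ball b r, ψ w ∈ good1 P Q) (e : OnePoint ℂ) (he : ratMap P Q e = ψ b) :
    ∃ φ : ℂ → OnePoint ℂ, ContinuousOn φ (Metric.ball b r) ∧ φ b = e ∧
      ∀ w ∈ Metric.ball b r, ratMap P Q (φ w) = ψ w := by
  classical
  have hb : b ∈ Metric.ball b r := Metric.mem_ball_self hr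
  have : LocallyPathConnectedSpace (Metric.ball b r) :=
    Metric.isOpen_ball.locallyPathConnectedSpace
  have : ContractibleSpace (Metric.ball b r) :=
    (convex_ball b r).contractibleSpace ⟨b, hb⟩
  obtain ⟨F, ⟨h1, h2⟩, -⟩ :=
    (ratMap_isCoveringMapOn h).existsUnique_continuousMap_lifts (A := Metric.ball b r)
      (⟨(Metric.ball b r).domRestrict ψ, continuousOn_iff_continuous_domRestrict.mp hψ⟩ :
        C(Metric.ball b r, OnePoint ℂ)) (a₀ := ⟨b, hb⟩) (e₀ := e) he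
      (fun a => hg a.1 a.2)
  obtain ⟨g, hgF⟩ : ∃ g : ℂ → OnePoint ℂ, ∀ z : Metric.ball b r, g z = F z :=
    ⟨fun z => if hz : z ∈ Metric.ball b r then F ⟨z, hz⟩ else e, fun z => by simp⟩
  refine ⟨g, ?_, ?_, ?_⟩
  · rw [continuousOn_iff_continuous_domRestrict]
    have : (Metric.ball b r).domRestrict g = F := by
      funext z
      exact hgF z
    rw [this]
    exact F.continuous
  · rw [← h1]
    exact hgF ⟨b, hb⟩
  · intro w hw
    have := congrFun h2 ⟨w, hw⟩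
    rw [show g w = F ⟨w, hw⟩ from hgF ⟨w, hw⟩]
    exact this

theorem disc_unique {P Q : Polynomial ℂ} {d : ℕ} (h : RatData P Q d) (b : ℂ) (r : ℝ)
    (φ₁ φ₂ : ℂ → OnePoint ℂ) (h₁ : ContinuousOn φ₁ (Metric.ball b r))
    (h₂ : ContinuousOn φ₂ (Metric.ball b r)) (w₀ : ℂ) (hw₀ : w₀ ∈ Metric.ball b r)
    (h0 : φ₁ w₀ = φ₂ w₀)
    (hf : ∀ w ∈ Metric.ball b r, ratMap P Q (φ₁ w) = ratMap P Q (φ₂ w))
    (hg : ∀ w ∈ Metric.ball b r, ratMap P Q (φ₁ w) ∈ good1 P Q) :
    ∀ w ∈ Metric.ball b r, φ₁ w = φ₂ w := by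
  have : PreconnectedSpace (Metric.ball b r) :=
    isPreconnected_iff_preconnectedSpace.1 (convex_ball b r).isPreconnected
  have key := s08_unique h ((Metric.ball b r).domRestrict φ₁) ((Metric.ball b r).domRestrict φ₂)
    (continuousOn_iff_continuous_domRestrict.mp h₁)
    (continuousOn_iff_continuous_domRestrict.mp h₂) ⟨w₀, hw₀⟩ h0
    (fun t => hf t.1 t.2) (fun t => hg t.1 t.2)
  intro w hw
  exact congrFun key ⟨w, hw⟩

end Pool.Agent.Lib.MP_e4ee3e_an
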