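import Pool.Agent.Lib.MP_e4ee3e_an.T03

/-!
T04. Curves of the tree. Choose a common a for the d + 1 tame points z, child i (T03), and join z to
child i by the two segments [z,a] and [a, child i]: γ t = z + 2t(a-z) for t <= 1/2,
a + (2t-1)(child - a) for t >= 1/2. Lipschitz; the trace is in the union of two tame segments
(union of two TameSets is TameSet; subset of a TameSet is TameSet).
-/

open MeasureTheory Filter Topology

namespace Pool.Agent.Lib.MP_e4ee3e_an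

attribute [local instance] chMetric

lemma t04_union {P Q : Polynomial ℂ} {S T : Set ℂ} (hS : TameSet P Q S) (hT : TameSet P Q T) :
    TameSet P Q (S ∪ T) := by
  intro δ hδ
  obtain ⟨κ₁, hκ₁, h1⟩ := hS δ hδ
  obtain ⟨κ₂, hκ₂, h2⟩ := hT δ hδ
  refine ⟨min κ₁ κ₂, lt_min hκ₁ hκ₂, fun k hk c hc x hx w hw => ?_⟩
  have he := (Real.exp_pos (-(δ * k))).le
  rcases hx with hx | hx
  · exact h1 k hk c hc x hx w
      (Metric.ball_subset_ball (mul_le_mul_of_nonneg_right (min_le_left _ _) he) hw)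
  · exact h2 k hk c hc x hx w
      (Metric.ball_subset_ball (mul_le_mul_of_nonneg_right (min_le_right _ _) he) hw)

lemma t04_subset {P Q : Polynomial ℂ} {S T : Set ℂ} (hST : S ⊆ T) (hT : TameSet P Q T) :
    TameSet P Q S := by
  intro δ hδ
  obtain ⟨κ, hκ, h⟩ := hT δ hδ
  exact ⟨κ, hκ, fun k hk c hc x hx w hw => h k hk c hc x (hST hx) w hw⟩

/-- The broken line z, a, c. -/
noncomputable def t04Path (z a c : ℂ) : C(unitInterval, ℂ) where
  toFun t := z + ((min (2 * (t : ℝ)) 1 : ℝ) : ℂ) * (a - z) +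
    ((max (2 * (t : ℝ) - 1) 0 : ℝ) : ℂ) * (c - a)
  continuous_toFun := by fun_prop

lemma t04Path_apply (z a c : ℂ) (t : unitInterval) :
    t04Path z a c t = z + ((min (2 * (t : ℝ)) 1 : ℝ) : ℂ) * (a - z) +
      ((max (2 * (t : ℝ) - 1) 0 : ℝ) : ℂ) * (c - a) := rfl

lemma t04Path_zero (z a c : ℂ) : t04Path z a c 0 = z := by
  rw [t04Path_apply]
  norm_num

lemma t04Path_one (z a c : ℂ) : t04Path z a c 1 = c := by
  rw [t04Path_apply]
  norm_num

lemma t04Path_lip (z a c : ℂ) (s t : unitInterval) :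
    ‖t04Path z a c s - t04Path z a c t‖ ≤ (2 * ‖a - z‖ + 2 * ‖c - a‖) * |(s : ℝ) - t| := by
  rw [t04Path_apply, t04Path_apply]
  have h1 : |min (2 * (s : ℝ)) 1 - min (2 * (t : ℝ)) 1| ≤ 2 * |(s : ℝ) - t| := by
    refine (abs_min_sub_min_le_max _ _ _ _).trans ?_
    rw [sub_self, abs_zero, max_eq_left (abs_nonneg _), ← mul_sub, abs_mul, abs_two]
  have h2 : |max (2 * (s : ℝ) - 1) 0 - max (2 * (t : ℝ) - 1) 0| ≤ 2 * |(s : ℝ) - t| := by
    refine (abs_max_sub_max_le_max _ _ _ _).trans ?_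
    rw [sub_self, abs_zero, max_eq_left (abs_nonneg _), sub_sub_sub_cancel_right, ← mul_sub,
      abs_mul, abs_two]
  have h3 : z + ((min (2 * (s : ℝ)) 1 : ℝ) : ℂ) * (a - z) +
      ((max (2 * (s : ℝ) - 1) 0 : ℝ) : ℂ) * (c - a) -
      (z + ((min (2 * (t : ℝ)) 1 : ℝ) : ℂ) * (a - z) +
      ((max (2 * (t : ℝ) - 1) 0 : ℝ) : ℂ) * (c - a)) =
      ((min (2 * (s : ℝ)) 1 - min (2 * (t : ℝ)) 1 : ℝ) : ℂ) * (a - z) +
      ((max (2 * (s : ℝ) - 1) 0 - max (2 * (t : ℝ) - 1) 0 : ℝ) : ℂ) * (c - a) := by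
    rw [Complex.ofReal_sub, Complex.ofReal_sub]
    ring
  rw [h3]
  refine (norm_add_le _ _).trans ?_
  rw [norm_mul, norm_mul, Complex.norm_real, Complex.norm_real, Real.norm_eq_abs,
    Real.norm_eq_abs]
  have h4 := mul_le_mul_of_nonneg_right h1 (norm_nonneg (a - z))
  have h5 := mul_le_mul_of_nonneg_right h2 (norm_nonneg (c - a))
  nlinarith

lemma t04Path_range (z a c : ℂ) :
    Set.range (t04Path z a c) ⊆ segment ℝ z a ∪ segment ℝ c a := by
  rintro _ ⟨t, rfl⟩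
  rw [t04Path_apply]
  have ht0 : (0 : ℝ) ≤ t := t.2.1
  have ht1 : (t : ℝ) ≤ 1 := t.2.2
  rcases le_total (2 * (t : ℝ)) 1 with h | h
  · left
    rw [min_eq_left h, max_eq_right (by linarith), segment_eq_image']
    refine ⟨2 * t, ⟨by linarith, h⟩, ?_⟩
    simp only [Complex.real_smul]
    push_cast
    ring
  · right
    rw [min_eq_right h, max_eq_left (by linarith), segment_symm, segment_eq_image']
    refine ⟨2 * t - 1, ⟨by linarith, by linarith⟩, ?_⟩
    simp only [Complex.real_smul]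
    push_cast
    ring

theorem tame_edges_exist {P Q : Polynomial ℂ} {d : ℕ} (h : RatData P Q d) (z : ℂ)
    (hz : Tame P Q (z : OnePoint ℂ)) (c : Fin d → ℂ) (hc : ∀ i, Tame P Q ((c i : ℂ) : OnePoint ℂ)) :
    ∃ e : Fin d → C(unitInterval, ℂ), (∀ i, e i 0 = z) ∧ (∀ i, e i 1 = c i) ∧
      ∀ i, TamePath P Q (e i) := by
  have h1 : ∀ᵐ a : ℂ, TameSet P Q (segment ℝ z a) := tameSeg_ae h z hz
  have h2 : ∀ᵐ a : ℂ, ∀ i, TameSet P Q (segment ℝ (c i) a) :=
    ae_all_iff.2 fun i => tameSeg_ae h (c i) (hc i)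
  obtain ⟨a, ha1, ha2⟩ := (h1.and h2).exists
  refine ⟨fun i => t04Path z a (c i), fun i => t04Path_zero _ _ _, fun i => t04Path_one _ _ _,
    fun i => ⟨⟨_, t04Path_lip z a (c i)⟩, ?_⟩⟩
  exact t04_subset (t04Path_range z a (c i)) (t04_union ha1 (ha2 i))

end Pool.Agent.Lib.MP_e4ee3e_an
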