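import Pool.Agent.Lib.MP_e4ee3e_an.S05
import Pool.Agent.Lib.MP_e4ee3e_an.S08
import Pool.Agent.Lib.MP_e4ee3e_an.T04

/-!
T05. Existence of the tree over a tame finite root z: z is good1 (tame_ne with k = 1), child from
S05 (all finite and tame by tame_of_image), e from T04, and G by recursion with path_lift: define
lift γ e0 := if there is a lift then choose it else constant; G 0 α = coe o e (α 0),
G (n+1) α = lift of G n (shift α) starting at G n α 1. Invariant proved by induction:
f^[n] (G n α t) = e (α n) t, so G n α t is good1 (it is not infinity and not the image of a marked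
point, else e (α n) t would be f^[k] of a marked point, against TameSet), and
f (G n α 1) = G n (shift α) 0 in the sense needed for the next lift.
-/

open MeasureTheory Filter Topology

namespace Pool.Agent.Lib.MP_e4ee3e_an

attribute [local instance] chMetric

/-- a chosen lift of a path -/
noncomputable def t05_lift (P Q : Polynomial ℂ) (γ : C(unitInterval, OnePoint ℂ))
    (e : OnePoint ℂ) : C(unitInterval, OnePoint ℂ) :=
  open Classical in
  if h : ∃ γ' : C(unitInterval, OnePoint ℂ), γ' 0 = e ∧ ∀ t, ratMap P Q (γ' t) = γ t then h.choose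
  else γ

theorem t05_lift_spec {P Q : Polynomial ℂ} {γ : C(unitInterval, OnePoint ℂ)} {e : OnePoint ℂ}
    (h : ∃ γ' : C(unitInterval, OnePoint ℂ), γ' 0 = e ∧ ∀ t, ratMap P Q (γ' t) = γ t) :
    t05_lift P Q γ e 0 = e ∧ ∀ t, ratMap P Q (t05_lift P Q γ e t) = γ t := by
  unfold t05_lift
  rw [dif_pos h]
  exact h.choose_spec

/-- the recursion for the edges -/
noncomputable def t05_G (P Q : Polynomial ℂ) {d : ℕ} (e : Fin d → C(unitInterval, OnePoint ℂ)) :
    ℕ → (ℕ → Fin d) → C(unitInterval, OnePoint ℂ)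
  | 0, α => e (α 0)
  | n + 1, α => t05_lift P Q (t05_G P Q e n (shift α)) (t05_G P Q e n α 1)

theorem t05_good {P Q : Polynomial ℂ} {e : ℂ} {n : ℕ} {x : OnePoint ℂ}
    (he : ∀ k, 1 ≤ k → ∀ c ∈ marked P Q, (ratMap P Q)^[k] c ≠ ((e : ℂ) : OnePoint ℂ))
    (hx : (ratMap P Q)^[n] x = ((e : ℂ) : OnePoint ℂ)) : x ∈ good1 P Q := by
  refine ⟨?_, ?_⟩
  · rintro rfl
    rcases Nat.eq_zero_or_pos n with h0 | h0
    · subst h0
      exact OnePoint.infty_ne_coe e hx
    · exact he n h0 _ (Or.inl rfl) hx
  · rintro c hc rfl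
    refine he (n + 1) (by omega) c hc ?_
    rw [Function.iterate_succ_apply]
    exact hx

theorem tree_exists {P Q : Polynomial ℂ} {d : ℕ} (h : RatData P Q d) (z : ℂ)
    (hz : Tame P Q (z : OnePoint ℂ)) :
    ∃ (child : Fin d → OnePoint ℂ) (e : Fin d → C(unitInterval, ℂ))
      (G : ℕ → (ℕ → Fin d) → C(unitInterval, OnePoint ℂ)),
      TreeCtx P Q d (z : OnePoint ℂ) child e G := by
  have hz1 : (z : OnePoint ℂ) ∈ good1 P Q :=
    ⟨OnePoint.coe_ne_infty z, fun c hc => tame_ne hz (k := 1) le_rfl hc⟩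
  obtain ⟨child, hinj, hmap, hfin, hsurj⟩ := regular_fiber h hz1
  have hc : ∀ i, ∃ c : ℂ, (c : OnePoint ℂ) = child i := fun i => OnePoint.ne_infty_iff_exists.1 (hfin i)
  choose c hc using hc
  have hct : ∀ i, Tame P Q ((c i : ℂ) : OnePoint ℂ) := by
    intro i
    apply tame_of_image h
    rw [hc, hmap]
    exact hz
  obtain ⟨e, he0, he1, het⟩ := tame_edges_exist h z hz c hct
  have hcoe : Continuous (fun x : ℂ => (x : OnePoint ℂ)) := OnePoint.continuous_coe
  let e' : Fin d → C(unitInterval, OnePoint ℂ) := fun i => ⟨fun t => ((e i t : ℂ) : OnePoint ℂ),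
    hcoe.comp (e i).continuous⟩
  have he' : ∀ i t, e' i t = ((e i t : ℂ) : OnePoint ℂ) := fun _ _ => rfl
  have hav : ∀ i t k, 1 ≤ k → ∀ c ∈ marked P Q,
      (ratMap P Q)^[k] c ≠ ((e i t : ℂ) : OnePoint ℂ) := by
    intro i t k hk c hc
    obtain ⟨κ, hκ, hκ'⟩ := (het i).2 1 one_pos
    refine hκ' k hk c hc (e i t) ⟨t, rfl⟩ (e i t) ?_
    exact Metric.mem_ball_self (by positivity)
  set G := t05_G P Q e' with hG
  have hG0 : ∀ α, G 0 α = e' (α 0) := fun _ => rfl
  have hGs : ∀ n α, G (n + 1) α = t05_lift P Q (G n (shift α)) (G n α 1) := fun _ _ => rfl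
  -- invariant
  have inv : ∀ n, (∀ α t, (ratMap P Q)^[n] (G n α t) = ((e (α n) t : ℂ) : OnePoint ℂ)) ∧
      (∀ α, ratMap P Q (G n α 1) = G n (shift α) 0) := by
    intro n
    induction n with
    | zero =>
      refine ⟨fun α t => rfl, fun α => ?_⟩
      rw [hG0, hG0, he', he', he1, he0, hc, hmap]
    | succ n ih =>
      obtain ⟨ih1, ih2⟩ := ih
      have key : ∀ α, G (n + 1) α 0 = G n α 1 ∧
          ∀ t, ratMap P Q (G (n + 1) α t) = G n (shift α) t := by
        intro α
        rw [hGs]
        apply t05_lift_spec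
        exact path_lift h _ (fun t => t05_good (hav (shift α n) t) (ih1 (shift α) t)) 0 _ (ih2 α)
      refine ⟨fun α t => ?_, fun α => ?_⟩
      · rw [Function.iterate_succ_apply, (key α).2, ih1]
        rfl
      · rw [(key α).2, (key (shift α)).1]
  have key : ∀ n α, G (n + 1) α 0 = G n α 1 ∧
      ∀ t, ratMap P Q (G (n + 1) α t) = G n (shift α) t := by
    intro n α
    rw [hGs]
    apply t05_lift_spec
    exact path_lift h _ (fun t => t05_good (hav (shift α n) t) ((inv n).1 (shift α) t)) 0 _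
      ((inv n).2 α)
  refine ⟨child, e, G, ?_⟩
  exact
    { data := h
      child_injective := hinj
      map_child := hmap
      child_surj := hsurj
      e_zero := fun i => by rw [he0]
      e_one := fun i => by rw [he1, hc]
      e_tame := het
      G_zero := fun α t => rfl
      G_map := fun n α t => (key n α).2 t
      G_start := fun n α => (key n α).1 }

end Pool.Agent.Lib.MP_e4ee3e_an
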