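import Pool.Agent.Lib.MP_e4ee3e_an.T07
import Pool.Agent.Lib.MP_e4ee3e_an.S06

/-!
T08. The abstract tree. z n α = G n α 1, D n α = diam of the range of G n α (bounded by 1).
-/

open MeasureTheory Filter Topology

namespace Pool.Agent.Lib.MP_e4ee3e_an

attribute [local instance] chMetric

variable {P Q : Polynomial ℂ} {d : ℕ} {root : OnePoint ℂ} {child : Fin d → OnePoint ℂ}
  {e : Fin d → C(unitInterval, ℂ)} {G : ℕ → (ℕ → Fin d) → C(unitInterval, OnePoint ℂ)}

lemma t08_bdd (s : Set (OnePoint ℂ)) : Bornology.IsBounded s := by
  rw [Metric.isBounded_iff]
  exact ⟨1, fun x _ y _ => dist_le_one x y⟩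

/-- The abstract tree of a tree context. -/
theorem TreeCtx.absTree_exists (T : TreeCtx P Q d root child e G) (L : ℝ) (hL : 2 ≤ L)
    (hlip : ∀ x y, dist (ratMap P Q x) (ratMap P Q y) ≤ L * dist x y) :
    ∃ A : AbsTree (OnePoint ℂ) (ratMap P Q) L d, A.root = root ∧ ∀ n α, A.z n α = G n α 1 := by
  refine ⟨{ root := root
            z := fun n α => G n α 1
            D := fun n α => Metric.diam (Set.range (G n α))
            z_congr := fun n α β h => by
              show G n α 1 = G n β 1
              rw [T.G_congr n α β h]
            D_congr := fun n α β h => by
              show Metric.diam (Set.range (G n α)) = Metric.diam (Set.range (G n β))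
              rw [T.G_congr n α β h]
            D_nonneg := fun n α => Metric.diam_nonneg
            D_le := ⟨1, fun n α =>
              Metric.diam_le_of_forall_dist_le zero_le_one fun x _ y _ => dist_le_one x y⟩
            map_z_zero := fun α => by
              show ratMap P Q (G 0 α 1) = root
              rw [T.G_zero, T.e_one, T.map_child]
            map_z_succ := fun n α => T.G_map n α 1
            dist_z := fun n α => by
              show dist (G n α 1) (G (n + 1) α 1) ≤ Metric.diam (Set.range (G (n + 1) α))
              rw [← T.G_start n α]
              exact Metric.dist_le_diam_of_mem (t08_bdd _) (Set.mem_range_self _)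
                (Set.mem_range_self _)
            D_shift := fun n α => by
              show Metric.diam (Set.range (G n (shift α))) ≤
                L * Metric.diam (Set.range (G (n + 1) α))
              refine Metric.diam_le_of_forall_dist_le
                (mul_nonneg (by linarith) Metric.diam_nonneg) ?_
              rintro _ ⟨s, rfl⟩ _ ⟨t, rfl⟩
              rw [← T.G_map n α s, ← T.G_map n α t]
              refine (hlip _ _).trans ?_
              exact mul_le_mul_of_nonneg_left
                (Metric.dist_le_diam_of_mem (t08_bdd _) (Set.mem_range_self _)
                  (Set.mem_range_self _)) (by linarith)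
            surj := fun n y hy => T.G_surj n y hy
            count := fun δ hδ => T.bad_count δ hδ }, rfl, fun n α => rfl⟩

/-- The geometric coding tree (in the sense of Defs) of a tree context. -/
theorem TreeCtx.codingTree_exists (T : TreeCtx P Q d root child e G) :
    ∃ S : CodingTree (ratMap P Q) d, S.root = root ∧ (∀ n α, S.vertex n α = G n α 1) ∧
      S.UniqueLifts ∧ S.AvoidsCriticalValues := by
  refine ⟨{ root := root
            child := child
            child_injective := T.child_injective
            map_child := T.map_child
            curve := fun i => ⟨fun t => ((e i t : ℂ) : OnePoint ℂ),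
              OnePoint.continuous_coe.comp (e i).continuous⟩
            curve_zero := fun i => T.e_zero i
            curve_one := fun i => T.e_one i
            edge := G
            edge_zero := fun α => by
              ext t
              exact T.G_zero α t
            edge_succ_map := T.G_map
            edge_succ_start := T.G_start }, rfl, fun n α => rfl, ?_, ?_⟩
  · intro n α γ hγ h0
    exact T.G_unique n α γ hγ h0
  · intro c hc n hn i t h
    exact T.e_avoid i t n hn c (marked_of_isCritPt T.data hc) h.symm

end Pool.Agent.Lib.MP_e4ee3e_an
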