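import Pool.Agent.Lib.MP_e4ee3e_an.D04
import Pool.Agent.Lib.MP_e4ee3e_an.D07
import Pool.Agent.Lib.MP_e4ee3e_an.D08
import Pool.Agent.Lib.MP_e4ee3e_an.E07
import Pool.Agent.Lib.MP_e4ee3e_an.R06
import Pool.Agent.Lib.MP_e4ee3e_an.T05
import Pool.Agent.Lib.MP_e4ee3e_an.T08

/-!
Main. Assembly of the theorem.
-/

open MeasureTheory Filter Topology

namespace Pool.Agent.Lib.MP_e4ee3e_an

attribute [local instance] chMetric

theorem main_theorem {P Q : Polynomial ℂ} {d : ℕ} (h : RatData P Q d)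
    [MeasurableSpace (OnePoint ℂ)] [BorelSpace (OnePoint ℂ)] (V : Set (OnePoint ℂ))
    (hV : IsOpen V) (hne : V.Nonempty) (m : Measure (OnePoint ℂ)) [IsProbabilityMeasure m]
    (hm : Ergodic (ratMap P Q) m) (hent : 0 < ksEntropy (ratMap P Q) m) :
    ∃ S : CodingTree (ratMap P Q) d, S.root ∈ V ∧ S.UniqueLifts ∧ S.AvoidsCriticalValues ∧
      ∃ μ : Measure (ℕ → Fin d), IsProbabilityMeasure μ ∧ μ S.domainᶜ = 0 ∧
        μ.map S.codingMap = m := by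
  obtain ⟨L, hL, hlip⟩ := ratMap_lipschitz h
  obtain ⟨K, ξ, θ, hξ, hθ, hfreq⟩ := exists_partition hent
  obtain ⟨ε, p, hε, hp, hmain⟩ := abstract_main (ratMap P Q) L hL hlip m hm K ξ hξ θ hθ hfreq
  have hatom : m {OnePoint.infty} = 0 := no_atom hm hent _
  -- a disc inside V
  obtain ⟨v₀, ρ₀, hρ₀, hball⟩ : ∃ (v₀ : ℂ) (ρ₀ : ℝ), 0 < ρ₀ ∧
      ∀ z ∈ Metric.ball v₀ ρ₀, (z : OnePoint ℂ) ∈ V := by
    have hdense : DenseRange ((↑) : ℂ → OnePoint ℂ) := OnePoint.denseRange_coe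
    obtain ⟨v₀, hv₀⟩ := hdense.exists_mem_open hV hne
    have hopen : IsOpen ((fun z : ℂ => (z : OnePoint ℂ)) ⁻¹' V) :=
      hV.preimage OnePoint.continuous_coe
    obtain ⟨ρ₀, hρ₀, hsub⟩ := Metric.isOpen_iff.1 hopen v₀ hv₀
    exact ⟨v₀, ρ₀, hρ₀, fun z hz => hsub hz⟩
  obtain ⟨C', hC', z, hz, htame, hfreq2⟩ :=
    exists_root h L hL hlip m hatom v₀ ρ₀ θ ε p hρ₀ hθ hε hp
  obtain ⟨child, e, G, T⟩ := tree_exists h z htame
  obtain ⟨A, hAroot, hAz⟩ := T.absTree_exists L hL hlip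
  obtain ⟨S, hSroot, hSv, hSu, hSa⟩ := T.codingTree_exists
  obtain ⟨δ, hδ, hfull⟩ := hmain C' d A hC' (by rw [hAroot]; exact hfreq2)
  have hd : 0 < d := by have := h.two; omega
  obtain ⟨s, hs, hae⟩ := A.exists_code_ae hd hδ m hfull
  refine ⟨S, by rw [hSroot]; exact hball z hz, hSu, hSa, ?_⟩
  refine coding_measure S ?_ m s hs ?_
  · intro n α β hαβ
    rw [hSv, hSv, T.G_congr n α β hαβ]
  · filter_upwards [hae] with x hx
    simpa only [hSv, hAz] using hx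

end Pool.Agent.Lib.MP_e4ee3e_an
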