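import Pool.Agent.Lib.MP_e4ee3e_an.U02
import Pool.Agent.Lib.MP_e4ee3e_an.Setup2
import Pool.Agent.Lib.MP_e4ee3e_an.T04

/-!
U03. A tame segment from z' to z gives an auxiliary root: γ the segment path (t -> z' + t(z-z')),
tame path; lift N v = end of the lift of γ starting at v (choice; v itself if f^N v is not z').
dist v (lift N v) <= diam of the range, then lift_count.
-/

open MeasureTheory Filter Topology

namespace Pool.Agent.Lib.MP_e4ee3e_an

attribute [local instance] chMetric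

/-- The segment path. -/
noncomputable def u03Path (z z' : ℂ) : C(unitInterval, ℂ) where
  toFun t := z' + ((t : ℝ) : ℂ) * (z - z')
  continuous_toFun := by fun_prop

lemma u03Path_apply (z z' : ℂ) (t : unitInterval) :
    u03Path z z' t = z' + ((t : ℝ) : ℂ) * (z - z') := rfl

lemma u03Path_tame {P Q : Polynomial ℂ} (z z' : ℂ) (hseg : TameSet P Q (segment ℝ z z')) :
    TamePath P Q (u03Path z z') := by
  refine ⟨⟨‖z - z'‖, fun s t => ?_⟩, t04_subset ?_ hseg⟩
  · rw [u03Path_apply, u03Path_apply]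
    have : z' + ((s : ℝ) : ℂ) * (z - z') - (z' + ((t : ℝ) : ℂ) * (z - z')) =
        (((s : ℝ) - (t : ℝ) : ℝ) : ℂ) * (z - z') := by
      push_cast
      ring
    rw [this, norm_mul, Complex.norm_real, Real.norm_eq_abs, mul_comm]
  · rintro _ ⟨t, rfl⟩
    refine ⟨(t : ℝ), 1 - (t : ℝ), t.2.1, by linarith [t.2.2], by ring, ?_⟩
    rw [u03Path_apply, Complex.real_smul, Complex.real_smul]
    push_cast
    ring

theorem auxRoot_of_segment {P Q : Polynomial ℂ} {d : ℕ} (h : RatData P Q d) (z z' : ℂ)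
    (hseg : TameSet P Q (segment ℝ z z')) {L : ℝ}
    (A : AbsTree (OnePoint ℂ) (ratMap P Q) L d) (hA : A.root = (z : OnePoint ℂ)) :
    A.AuxRoot (z' : OnePoint ℂ) := by
  classical
  have htame := u03Path_tame z z' hseg
  have h0 : u03Path z z' 0 = z' := by rw [u03Path_apply]; simp
  have h1 : u03Path z z' 1 = z := by rw [u03Path_apply]; simp
  have havoid : ∀ n t, AvoidN P Q n ((u03Path z z' t : ℂ) : OnePoint ℂ) := by
    obtain ⟨Λ, κ, -, hκ0, -, hdisc⟩ := u02_unif (u03Path z z') htame 1 one_pos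
    intro n t
    exact hdisc n t _ (Metric.mem_ball_self (by positivity))
  have hex : ∀ (N : ℕ) (v : OnePoint ℂ), ∃ Γ : C(unitInterval, OnePoint ℂ),
      (ratMap P Q)^[N] v = (z' : OnePoint ℂ) → Γ 0 = v ∧
        ∀ t, (ratMap P Q)^[N] (Γ t) = ((u03Path z z' t : ℂ) : OnePoint ℂ) := by
    intro N v
    by_cases hv : (ratMap P Q)^[N] v = (z' : OnePoint ℂ)
    · obtain ⟨Γ, hΓ⟩ := iter_path_lift h N (u03Path z z') (havoid N) v (by rw [hv, h0])
      exact ⟨Γ, fun _ => hΓ⟩
    · exact ⟨ContinuousMap.const _ v, fun hv' => absurd hv' hv⟩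
  choose Γ hΓ using hex
  refine ⟨fun N v => Γ N v 1, fun N v hv => ?_, fun δ' hδ' => ?_⟩
  · rw [(hΓ N v hv).2 1, h1, hA]
  · obtain ⟨C, hC⟩ := lift_count h (u03Path z z') htame δ' hδ'
    refine ⟨C, fun N t ht ht1 S hS => hC N t ht ht1 S fun v hv => ?_⟩
    obtain ⟨hv1, hv2⟩ := hS v hv
    obtain ⟨e0, e1⟩ := hΓ N v hv1
    refine ⟨Γ N v, e0, e1, hv2.trans_le ?_⟩
    have hb : Bornology.IsBounded (Set.range (Γ N v)) :=
      (isCompact_range (Γ N v).continuous).isBounded
    have := Metric.dist_le_diam_of_mem hb (Set.mem_range_self (0 : unitInterval))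
      (Set.mem_range_self (1 : unitInterval))
    rw [e0] at this
    exact this

end Pool.Agent.Lib.MP_e4ee3e_an
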