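import Pool.Agent.Lib.MP_e4ee3e_an.E02
import Pool.Agent.Lib.MP_e4ee3e_an.E03
import Pool.Agent.Lib.MP_e4ee3e_an.E04

/-!
U01. Entropy covering lemma for J families of block lengths (generalisation of E03 and E05, same
proofs; condition K exp(-β-s) + sum over i of exp((θ-β) n_i)(1+K exp(-s))^(n_i) <= 1, fine if
J exp(-θ n₀/4) <= 1/2).
-/

open MeasureTheory Filter Topology

namespace Pool.Agent.Lib.MP_e4ee3e_an

attribute [local instance] chMetric

section U01

theorem u01_factor {κ θ c : ℝ} (hκ0 : 0 ≤ κ) (hκ : κ ≤ θ / 4) (n n₀ : ℕ) (hn : n₀ ≤ n)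
    (hθ : 0 < θ) (h0 : Real.exp (-(θ / 4 * n₀)) ≤ c) :
    Real.exp ((θ - 3 / 2 * θ) * n) * (1 + κ) ^ n ≤ c := by
  have h1 : (1 + κ) ^ n ≤ Real.exp (θ / 4 * n) := by
    have h2 : 1 + κ ≤ Real.exp (θ / 4) := by
      have := Real.add_one_le_exp (θ / 4)
      linarith
    calc (1 + κ) ^ n ≤ (Real.exp (θ / 4)) ^ n := pow_le_pow_left₀ (by linarith) h2 n
      _ = Real.exp (θ / 4 * n) := by rw [← Real.exp_nat_mul]; congr 1; ring
  calc Real.exp ((θ - 3 / 2 * θ) * n) * (1 + κ) ^ n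
      ≤ Real.exp ((θ - 3 / 2 * θ) * n) * Real.exp (θ / 4 * n) :=
        mul_le_mul_of_nonneg_left h1 (Real.exp_nonneg _)
    _ = Real.exp (-(θ / 4 * n)) := by rw [← Real.exp_add]; congr 1; ring
    _ ≤ Real.exp (-(θ / 4 * n₀)) := by
        apply Real.exp_le_exp.mpr
        have : (n₀ : ℝ) ≤ n := by exact_mod_cast hn
        nlinarith
    _ ≤ c := h0

theorem u01_name_countJ (J K : ℕ) (hK : 1 ≤ K) (θ : ℝ) (hθ : 0 < θ) :
    ∃ (n₀ : ℕ) (s : ℝ), 0 < s ∧ ∀ {X : Type} [MetricSpace X] (f : X → X) (ξ : X → Fin K)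
      (E G : Set X) (ε : ℝ) (nn : Fin J → ℕ) (FF : Fin J → Finset X),
      (∀ x ∈ E, ∀ y ∈ E, dist x y ≤ 2 * ε → ξ x = ξ y) → (∀ i, n₀ ≤ nn i) →
      (∀ i, ((FF i).card : ℝ) ≤ Real.exp (θ * nn i)) →
      (∀ x ∈ G, ∃ i, ∃ c ∈ FF i, ∀ k < nn i, dist (f^[k] x) (f^[k] c) ≤ ε) →
      ∃ M : ℕ, ∀ L b : ℕ,
        ({w : Fin L → Fin K | ∃ x : X, badCount f (G ∩ E) L x ≤ b ∧
          ∀ i : Fin L, ξ (f^[i] x) = w i}.ncard : ℝ) ≤
          M * Real.exp (3 / 2 * θ * L + s * b) := by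
  -- the constants
  have hJ0 : (0 : ℝ) ≤ J := Nat.cast_nonneg J
  obtain ⟨D, hD⟩ : ∃ D : ℝ, D = 2 * ((J : ℝ) + 1) := ⟨_, rfl⟩
  have hDpos : 0 < D := by rw [hD]; positivity
  obtain ⟨n₁', hn₁'⟩ := exists_nat_gt (4 / θ * Real.log D)
  have hKpos : (0 : ℝ) < K := by exact_mod_cast hK
  set κ : ℝ := min (θ / 4) (1 / 2) with hκdef
  have hκ0 : 0 < κ := lt_min (by linarith) (by norm_num)
  set s : ℝ := Real.log (K / κ) with hs
  have hKκ : 1 < K / κ := by
    rw [lt_div_iff₀ hκ0]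
    have h1 : κ ≤ 1 / 2 := min_le_right _ _
    have h2 : (1 : ℝ) ≤ K := by exact_mod_cast hK
    linarith
  have hs0 : 0 < s := Real.log_pos hKκ
  have hKs : (K : ℝ) * Real.exp (-s) = κ := by
    rw [hs, Real.exp_neg, Real.exp_log (by positivity)]
    field_simp
  refine ⟨n₁' + 1, s, hs0, ?_⟩
  intro X _ f ξ E G ε nn FF hE hnn hFF hcov
  have h0 : Real.exp (-(θ / 4 * (n₁' + 1 : ℕ))) ≤ D⁻¹ := by
    have h1 : Real.log D ≤ θ / 4 * (n₁' + 1 : ℕ) := by
      have h2 : 4 / θ * Real.log D < (n₁' + 1 : ℕ) := by push_cast; linarith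
      have h3 : θ / 4 * (4 / θ * Real.log D) = Real.log D := by field_simp
      have h4 : θ / 4 * (4 / θ * Real.log D) < θ / 4 * (n₁' + 1 : ℕ) :=
        mul_lt_mul_of_pos_left h2 (by linarith)
      linarith
    calc Real.exp (-(θ / 4 * (n₁' + 1 : ℕ))) ≤ Real.exp (-Real.log D) :=
          Real.exp_le_exp.mpr (by linarith)
      _ = D⁻¹ := by rw [Real.exp_neg, Real.exp_log hDpos]
  obtain ⟨W, hW⟩ : ∃ W : ℕ, W = (∑ i, nn i) + 1 := ⟨_, rfl⟩
  have hnW : ∀ i, nn i < W := by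
    intro i
    rw [hW]
    exact Nat.lt_succ_of_le (Finset.single_le_sum (f := nn) (fun _ _ => Nat.zero_le _)
      (Finset.mem_univ i))
  refine ⟨K ^ W, ?_⟩
  have main : ∀ L b : ℕ, ((e03Fin f ξ (G ∩ E) L b).card : ℝ) ≤
      (K ^ W : ℕ) * Real.exp (3 / 2 * θ * L + s * b) := by
    intro L
    induction L using Nat.strong_induction_on with
    | _ L ih =>
    intro b
    have hM0 : (0 : ℝ) ≤ ((K ^ W : ℕ) : ℝ) := Nat.cast_nonneg _
    by_cases hL : L ≤ W
    · have h1 : ((e03Fin f ξ (G ∩ E) L b).card : ℝ) ≤ ((K ^ W : ℕ) : ℝ) := by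
        exact_mod_cast (e03_card_trivial f ξ (G ∩ E) L b).trans (Nat.pow_le_pow_right hK hL)
      have h2 : 1 ≤ Real.exp (3 / 2 * θ * L + s * b) := by
        apply Real.one_le_exp
        positivity
      nlinarith
    · push Not at hL
      obtain ⟨L₀, hL₀⟩ : ∃ L₀, L = 1 + L₀ := ⟨L - 1, by omega⟩
      -- the words starting outside of G
      set A₀ : Finset (List (Fin K)) := if b = 0 then ∅ else
        ((Finset.univ : Finset (Fin K)) ×ˢ e03Fin f ξ (G ∩ E) L₀ (b - 1)).image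
          (fun p => p.1 :: p.2) with hA₀
      have hsub : e03Fin f ξ (G ∩ E) L b ⊆ A₀ ∪
          (Finset.univ : Finset (Fin J)).biUnion
            (fun i => e03Blk hK f ξ E (G ∩ E) ε (nn i) (L - nn i) b (FF i)) := by
        intro l hl
        rw [e03_mem] at hl
        obtain ⟨x, hx, rfl⟩ := hl
        rw [Finset.mem_union]
        by_cases hxG : x ∈ G
        · right
          obtain ⟨i, c, hcF, hc⟩ := hcov x hxG
          rw [Finset.mem_biUnion]
          refine ⟨i, Finset.mem_univ _, ?_⟩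
          have hLi : L = nn i + (L - nn i) := by
            have := hnW i
            omega
          obtain ⟨L₁, hL₁⟩ : ∃ L₁, L₁ = L - nn i := ⟨_, rfl⟩
          rw [← hL₁] at hLi ⊢
          rw [hLi] at hx ⊢
          exact e03_blk_mem hK f ξ E G ε hE (nn i) L₁ b (FF i) c x hcF hc hx
        · left
          rw [hL₀, e03_bad_add] at hx
          have h1 : badCount f (G ∩ E) 1 x = 1 := by
            rw [e03_bad_eq]
            simp [hxG]
          rw [h1] at hx
          have hb : b ≠ 0 := by omega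
          rw [hA₀, if_neg hb, Finset.mem_image]
          refine ⟨(ξ x, e03Name f ξ L₀ (f^[1] x)), ?_, ?_⟩
          · rw [Finset.mem_product]
            refine ⟨Finset.mem_univ _, ?_⟩
            rw [e03_mem]
            exact ⟨f^[1] x, by omega, rfl⟩
          · rw [hL₀, e03Name_add]
            simp [e03Name]
      have hc0 : (A₀.card : ℝ) ≤ (K ^ W : ℕ) *
          Real.exp (3 / 2 * θ * L + s * b) * (1 / 2) := by
        by_cases hb : b = 0
        · rw [hA₀, if_pos hb]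
          simp only [Finset.card_empty, Nat.cast_zero]
          positivity
        · rw [hA₀, if_neg hb]
          have h1 : (((Finset.univ : Finset (Fin K)) ×ˢ e03Fin f ξ (G ∩ E) L₀ (b - 1)).image
              (fun p => p.1 :: p.2)).card ≤ K * (e03Fin f ξ (G ∩ E) L₀ (b - 1)).card := by
            refine Finset.card_image_le.trans ?_
            rw [Finset.card_product]
            simp
          have h2 := ih L₀ (by omega) (b - 1)
          have h3 : ((((Finset.univ : Finset (Fin K)) ×ˢ e03Fin f ξ (G ∩ E) L₀ (b - 1)).image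
              (fun p => p.1 :: p.2)).card : ℝ) ≤
              K * ((e03Fin f ξ (G ∩ E) L₀ (b - 1)).card : ℝ) := by exact_mod_cast h1
          have h4 : (K : ℝ) * ((e03Fin f ξ (G ∩ E) L₀ (b - 1)).card : ℝ) ≤
              K * ((K ^ W : ℕ) * Real.exp (3 / 2 * θ * L₀ + s * (b - 1 : ℕ))) :=
            mul_le_mul_of_nonneg_left h2 hKpos.le
          refine h3.trans (h4.trans ?_)
          have hb1 : ((b - 1 : ℕ) : ℝ) = b - 1 := by
            rw [Nat.cast_sub (by omega)]; simp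
          have hL0' : (L : ℝ) = 1 + L₀ := by rw [hL₀]; push_cast; ring
          have e1 : Real.exp (3 / 2 * θ * L₀ + s * (b - 1 : ℕ)) =
              Real.exp (3 / 2 * θ * L + s * b) * (Real.exp (-(3 / 2 * θ)) * Real.exp (-s)) := by
            rw [← Real.exp_add, ← Real.exp_add, hb1, hL0']
            congr 1
            ring
          rw [e1]
          have e2 : (K : ℝ) * (Real.exp (-(3 / 2 * θ)) * Real.exp (-s)) ≤ 1 / 2 := by
            have h5 : Real.exp (-(3 / 2 * θ)) ≤ 1 := by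
              rw [Real.exp_le_one_iff]; linarith
            have h6 : (K : ℝ) * (Real.exp (-(3 / 2 * θ)) * Real.exp (-s)) =
                Real.exp (-(3 / 2 * θ)) * κ := by rw [← hKs]; ring
            rw [h6]
            have h7 : κ ≤ 1 / 2 := min_le_right _ _
            nlinarith
          have e3 : (K : ℝ) * ((K ^ W : ℕ) *
              (Real.exp (3 / 2 * θ * L + s * b) * (Real.exp (-(3 / 2 * θ)) * Real.exp (-s)))) =
              (K ^ W : ℕ) * Real.exp (3 / 2 * θ * L + s * b) *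
                (K * (Real.exp (-(3 / 2 * θ)) * Real.exp (-s))) := by ring
          rw [e3]
          exact mul_le_mul_of_nonneg_left e2 (by positivity)
      have hblk : ∀ i : Fin J,
          ((e03Blk hK f ξ E (G ∩ E) ε (nn i) (L - nn i) b (FF i)).card : ℝ) ≤ (K ^ W : ℕ) *
            Real.exp (3 / 2 * θ * L + s * b) * D⁻¹ := by
        intro i
        have hLi : nn i + (L - nn i) = L := by
          have := hnW i
          omega
        have hni := hnn i
        have h1 := e03_blk_card hK f ξ E (G ∩ E) ε (nn i) (L - nn i) b (FF i) (K ^ W : ℕ)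
          (3 / 2 * θ) s θ hM0 (hFF i) (fun b' => ih (L - nn i) (by omega) b')
        rw [hLi, hKs] at h1
        refine h1.trans ?_
        apply mul_le_mul_of_nonneg_left _ (by positivity)
        exact u01_factor hκ0.le (min_le_left _ _) (nn i) (n₁' + 1) hni hθ h0
      have hcard : ((e03Fin f ξ (G ∩ E) L b).card : ℝ) ≤ A₀.card +
          ∑ i : Fin J,
            ((e03Blk hK f ξ E (G ∩ E) ε (nn i) (L - nn i) b (FF i)).card : ℝ) := by
        have h1 := (Finset.card_le_card hsub).trans ((Finset.card_union_le _ _).trans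
          (Nat.add_le_add_left (Finset.card_biUnion_le) _))
        exact_mod_cast h1
      have hsum : ∑ i : Fin J,
            ((e03Blk hK f ξ E (G ∩ E) ε (nn i) (L - nn i) b (FF i)).card : ℝ) ≤
          (K ^ W : ℕ) * Real.exp (3 / 2 * θ * L + s * b) * (1 / 2) := by
        refine (Finset.sum_le_card_nsmul _ _ _ fun i _ => hblk i).trans ?_
        rw [Finset.card_univ, Fintype.card_fin, nsmul_eq_mul]
        have h5 : (J : ℝ) * D⁻¹ ≤ 1 / 2 := by
          rw [← div_eq_mul_inv, div_le_iff₀ hDpos, hD]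
          linarith
        have h6 : (0 : ℝ) ≤ (K ^ W : ℕ) * Real.exp (3 / 2 * θ * L + s * b) := by positivity
        calc (J : ℝ) * ((K ^ W : ℕ) * Real.exp (3 / 2 * θ * L + s * b) * D⁻¹)
            = (K ^ W : ℕ) * Real.exp (3 / 2 * θ * L + s * b) * (J * D⁻¹) := by ring
          _ ≤ _ := mul_le_mul_of_nonneg_left h5 h6
      linarith
  intro L b
  refine le_trans ?_ (main L b)
  exact_mod_cast e03_ncard_le f ξ (G ∩ E) L b

end U01

theorem entropy_coverJ (J K : ℕ) (hK : 1 ≤ K) (θ : ℝ) (hθ : 0 < θ) :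
    ∃ (p : ℝ) (n₀ : ℕ), 0 < p ∧ ∀ {X : Type} [MetricSpace X] [MeasurableSpace X] [BorelSpace X]
      (f : X → X) (m : Measure X) [IsProbabilityMeasure m] (ξ : X → Fin K)
      (E G : Set X) (ε : ℝ) (nn : Fin J → ℕ) (FF : Fin J → Finset X), MeasurePreserving f m m →
      Measurable ξ →
      (∀ x ∈ E, ∀ y ∈ E, dist x y ≤ 2 * ε → ξ x = ξ y) → (∀ i, n₀ ≤ nn i) →
      (∀ i, ((FF i).card : ℝ) ≤ Real.exp (θ * nn i)) →
      (∀ x ∈ G, ∃ i, ∃ c ∈ FF i, ∀ k < nn i, dist (f^[k] x) (f^[k] c) ≤ ε) →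
      m Gᶜ ≤ ENNReal.ofReal p → m Eᶜ ≤ ENNReal.ofReal p →
      ∀ᶠ L : ℕ in atTop, blockEntropy f m ξ L ≤ 3 * θ * L := by
  obtain ⟨n₀, s, hs, hname⟩ := u01_name_countJ J K hK θ hθ
  have hlogK : 0 ≤ Real.log K := Real.log_nonneg (by exact_mod_cast hK)
  obtain ⟨q, hqdef⟩ : ∃ q : ℝ, q = θ / (2 * s) := ⟨_, rfl⟩
  have hq : 0 < q := by rw [hqdef]; positivity
  have hsq : s * q = θ / 2 := by rw [hqdef]; field_simp
  obtain ⟨p, hpdef⟩ : ∃ p : ℝ, p = θ * q / (4 * (Real.log K + 1)) := ⟨_, rfl⟩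
  have hp : 0 < p := by rw [hpdef]; positivity
  have hpq : (2 * p) / q * Real.log K ≤ θ / 2 := by
    have e : (2 * p) / q = θ / (2 * (Real.log K + 1)) := by
      rw [hpdef]; field_simp; ring
    rw [e, div_mul_eq_mul_div, div_le_div_iff₀ (by positivity) (by norm_num)]
    nlinarith
  refine ⟨p, n₀, hp, ?_⟩
  intro X _ _ _ f m _ ξ E G ε nn FF hf hξ hE hnn hFF hG hmG hmE
  obtain ⟨M, hM⟩ := hname f ξ E G ε nn FF hE hnn hFF hG
  obtain ⟨S, hSdef⟩ : ∃ S : Set X, S = (toMeasurable m (G ∩ E)ᶜ)ᶜ := ⟨_, rfl⟩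
  have hSm : MeasurableSet S := by rw [hSdef]; exact (measurableSet_toMeasurable _ _).compl
  have hSsub : S ⊆ G ∩ E := by
    rw [hSdef, Set.compl_subset_comm]
    exact subset_toMeasurable _ _
  have hSc : m Sᶜ ≤ ENNReal.ofReal (2 * p) := by
    rw [hSdef, compl_compl, measure_toMeasurable, Set.compl_inter]
    refine (measure_union_le _ _).trans ?_
    rw [two_mul, ENNReal.ofReal_add hp.le hp.le]
    exact add_le_add hmG hmE
  have hev : ∀ᶠ L : ℕ in atTop, Real.log (M + 1) + 2 ≤ θ / 2 * L := by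
    have h1 : Tendsto (fun L : ℕ => θ / 2 * (L : ℝ)) atTop atTop :=
      tendsto_natCast_atTop_atTop.const_mul_atTop (by positivity)
    exact h1.eventually_ge_atTop _
  filter_upwards [hev] with L hL
  obtain ⟨A, hAdef⟩ : ∃ A : Set X, A = {x | q * L < (badCount f S L x : ℝ)}ᶜ := ⟨_, rfl⟩
  have hbm : Measurable fun x => (badCount f S L x : ℝ) :=
    measurable_from_nat.comp (badCount_measurable hf.measurable hSm L)
  have hAm : MeasurableSet A := by
    rw [hAdef]
    exact (measurableSet_lt measurable_const hbm).compl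
  have hAc : m.real Aᶜ ≤ 2 * p / q := by
    rw [hAdef, compl_compl]
    have h1 := badCount_markov hf hSm L q hq (2 * p) (by positivity) hSc
    unfold Measure.real
    refine ENNReal.toReal_le_of_le_ofReal (by positivity) h1
  obtain ⟨R, hR⟩ : ∃ R : ℝ, R = (M + 1) * Real.exp (2 * θ * L) := ⟨_, rfl⟩
  have hR1 : 1 ≤ R := by
    rw [hR]
    have h1 : (1 : ℝ) ≤ M + 1 := by
      have : (0 : ℝ) ≤ M := Nat.cast_nonneg M
      linarith
    have h2 : (1 : ℝ) ≤ Real.exp (2 * θ * L) := Real.one_le_exp (by positivity)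
    nlinarith
  have hN1 : 1 ≤ ⌊R⌋₊ := Nat.le_floor (by exact_mod_cast hR1)
  have hcard : {w : Fin L → Fin K | ∃ x ∈ A, ∀ i : Fin L, ξ (f^[i] x) = w i}.ncard ≤ ⌊R⌋₊ := by
    apply Nat.le_floor
    have h1 := hM L ⌊q * L⌋₊
    have hsub : {w : Fin L → Fin K | ∃ x ∈ A, ∀ i : Fin L, ξ (f^[i] x) = w i} ⊆
        {w : Fin L → Fin K | ∃ x : X, badCount f (G ∩ E) L x ≤ ⌊q * L⌋₊ ∧
          ∀ i : Fin L, ξ (f^[i] x) = w i} := by
      rintro w ⟨x, hx, hw⟩
      refine ⟨x, ?_, hw⟩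
      refine (badCount_mono hSsub L x).trans ?_
      apply Nat.le_floor
      rw [hAdef, Set.mem_compl_iff, Set.mem_ofPred_eq, not_lt] at hx
      exact hx
    have h2 : (({w : Fin L → Fin K | ∃ x ∈ A, ∀ i : Fin L, ξ (f^[i] x) = w i}.ncard : ℕ) : ℝ) ≤
        (({w : Fin L → Fin K | ∃ x : X, badCount f (G ∩ E) L x ≤ ⌊q * L⌋₊ ∧
          ∀ i : Fin L, ξ (f^[i] x) = w i}.ncard : ℕ) : ℝ) := by
      exact_mod_cast Set.ncard_le_ncard hsub (Set.toFinite _)
    refine h2.trans (h1.trans ?_)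
    rw [hR]
    have h3 : (⌊q * (L : ℝ)⌋₊ : ℝ) ≤ q * L := Nat.floor_le (by positivity)
    have h4 : 3 / 2 * θ * L + s * (⌊q * (L : ℝ)⌋₊ : ℝ) ≤ 2 * θ * L := by
      have : s * (⌊q * (L : ℝ)⌋₊ : ℝ) ≤ s * (q * L) := mul_le_mul_of_nonneg_left h3 hs.le
      have e : s * (q * L) = θ / 2 * L := by rw [← mul_assoc, hsq]
      rw [e] at this
      linarith
    have h5 := Real.exp_le_exp.mpr h4
    have h6 : (0 : ℝ) ≤ M := Nat.cast_nonneg M
    have h7 := Real.exp_pos (2 * θ * L)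
    calc (M : ℝ) * Real.exp (3 / 2 * θ * L + s * (⌊q * (L : ℝ)⌋₊ : ℝ))
        ≤ M * Real.exp (2 * θ * L) := mul_le_mul_of_nonneg_left h5 h6
      _ ≤ (M + 1) * Real.exp (2 * θ * L) := by linarith
  have hmain := blockEntropy_le f hf.measurable m ξ hξ L A hAm ⌊R⌋₊ hN1 hcard
  have hlogN : Real.log (⌊R⌋₊ : ℝ) ≤ Real.log (M + 1) + 2 * θ * L := by
    have h1 : (⌊R⌋₊ : ℝ) ≤ R := Nat.floor_le (by linarith)
    have h2 : (0 : ℝ) < ⌊R⌋₊ := by exact_mod_cast hN1
    refine (Real.log_le_log h2 h1).trans ?_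
    rw [hR, Real.log_mul (by positivity) (Real.exp_pos _).ne', Real.log_exp]
  have hLK : m.real Aᶜ * (L * Real.log K) ≤ θ / 2 * L := by
    have h0 : (0 : ℝ) ≤ L * Real.log K := by positivity
    calc m.real Aᶜ * (L * Real.log K) ≤ 2 * p / q * (L * Real.log K) :=
          mul_le_mul_of_nonneg_right hAc h0
      _ = (2 * p / q * Real.log K) * L := by ring
      _ ≤ θ / 2 * L := mul_le_mul_of_nonneg_right hpq (Nat.cast_nonneg L)
  linarith

end Pool.Agent.Lib.MP_e4ee3e_an
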