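import Pool.Agent.Lib.MP_e4ee3e_an.D03
import Pool.Agent.Lib.MP_e4ee3e_an.D06
import Pool.Agent.Lib.MP_e4ee3e_an.W04
import Pool.Agent.Lib.MP_e4ee3e_an.E06
import Pool.Agent.Lib.MP_e4ee3e_an.U01
import Pool.Agent.Lib.MP_e4ee3e_an.Setup2

/-!
U04. Abstract main theorem with an auxiliary root. As D07 with three block lengths:
n₁ = floor(η n), n, floor(C' n), η = min (1/4) (θ/(48 log L)). p₀ etc. as in D07 with
entropy_coverJ (J = 3). Given C', T, y₀: C'' = 2 C'/η, δ = θ/(28 C''), k₀, q from W04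
(vertex_cover with C''), δ' = θ/(8 C'), C from AuxRoot. If x satisfies: exists N in (2n, C' n], y with
dist x y < L^(-2n), f^N y = y₀, then (a) if dist y (lift N y) > t = L^(-3 n₁): y is in the family
F_a = union over N <= C' n of the large ones: card <= (C' n+1) C exp(δ' C' n) L^(6 n₁) <= exp(θ n)
for n large (6 η log L <= θ/8; the family of all v with f^N v = y₀ that are large is finite: every
finite subset has bounded cardinality), and y shadows x for k < n since L^k L^(-2n) <= L^(-n) <= ε;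
(b) otherwise y' = lift N y has f^N y' = root, dist x y' < L^(-2n) + L^(-3n₁) <= L^(-2 n₁), and
2 n₁ < N <= C' n <= C'' n₁ (n <= 2 n₁/η for n large), so vertex_cover at n₁ applies (for x with few
bad times up to n₁). G = union of the three kinds, complement of measure <= p₀.
-/

open MeasureTheory Filter Topology

namespace Pool.Agent.Lib.MP_e4ee3e_an

attribute [local instance] chMetric

lemma u04_tail (δ : ℝ) (hδ : 0 < δ) :
    ∀ᶠ N : ℕ in atTop,
      Real.exp (-(δ * N)) / (1 - Real.exp (-δ)) < (1 / ((N : ℝ) + 1)) / 2 := by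
  have h1 : 0 < 1 - Real.exp (-δ) := by
    have : Real.exp (-δ) < 1 := by rw [Real.exp_lt_one_iff]; linarith
    linarith
  have h2 : Tendsto (fun N : ℕ => ((N : ℝ) + 1) * Real.exp (-(δ * N))) atTop (𝓝 0) := by
    have h3 : Tendsto (fun x : ℝ => x ^ 1 * Real.exp (-(δ * x))) atTop (𝓝 0) := by
      have := Real.tendsto_pow_mul_exp_neg_atTop_nhds_zero 1
      have h4 : Tendsto (fun x : ℝ => δ * x) atTop atTop :=
        Tendsto.const_mul_atTop hδ tendsto_id
      have h5 := (this.comp h4).const_mul (1 / δ)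
      rw [mul_zero] at h5
      refine h5.congr fun x => ?_
      simp only [Function.comp, pow_one]
      field_simp
    have h4 : Tendsto (fun x : ℝ => Real.exp (-(δ * x))) atTop (𝓝 0) := by
      have h5 : Tendsto (fun x : ℝ => δ * x) atTop atTop :=
        Tendsto.const_mul_atTop hδ tendsto_id
      exact Real.tendsto_exp_neg_atTop_nhds_zero.comp h5
    have h6 := (h3.add h4).comp tendsto_natCast_atTop_atTop
    rw [add_zero] at h6
    refine h6.congr fun N => ?_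
    simp only [Function.comp, pow_one]
    ring
  have h7 : ∀ᶠ N : ℕ in atTop,
      ((N : ℝ) + 1) * Real.exp (-(δ * N)) < (1 - Real.exp (-δ)) / 2 :=
    h2.eventually (gt_mem_nhds (by linarith))
  filter_upwards [h7] with N hN
  have h8 : (0 : ℝ) < (N : ℝ) + 1 := by positivity
  rw [div_div, div_lt_div_iff₀ h1 (by positivity)]
  nlinarith

/-- A finite union of families with uniformly bounded finite subsets. -/
lemma u04_family {X : Type*} (P : ℕ → X → Prop) (B : ℝ) (M : ℕ)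
    (h : ∀ N ≤ M, ∀ S : Finset X, (∀ v ∈ S, P N v) → (S.card : ℝ) ≤ B) :
    ∃ F : Finset X, (∀ N ≤ M, ∀ v, P N v → v ∈ F) ∧ (F.card : ℝ) ≤ (M + 1) * B := by
  classical
  have hfin : ∀ N : ℕ, {v | N ≤ M ∧ P N v}.Finite := by
    intro N
    by_contra hinf
    obtain ⟨t, ht, hcard⟩ := (Set.not_finite.1 hinf).exists_subset_card_eq (⌊|B|⌋₊ + 1)
    have hN : N ≤ M := by
      have hne : t.Nonempty := by
        rw [← Finset.card_pos, hcard]; omega
      obtain ⟨v, hv⟩ := hne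
      exact (ht hv).1
    have h1 := h N hN t (fun v hv => (ht hv).2)
    rw [hcard] at h1
    have h2 := Nat.lt_floor_add_one |B|
    push_cast at h1
    linarith [le_abs_self B]
  refine ⟨(Finset.range (M + 1)).biUnion fun N => (hfin N).toFinset, ?_, ?_⟩
  · intro N hN v hv
    rw [Finset.mem_biUnion]
    exact ⟨N, Finset.mem_range.2 (by omega), (Set.Finite.mem_toFinset _).2 ⟨hN, hv⟩⟩
  · have h1 : (((Finset.range (M + 1)).biUnion fun N => (hfin N).toFinset).card : ℝ) ≤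
        ((∑ N ∈ Finset.range (M + 1), (hfin N).toFinset.card : ℕ) : ℝ) := by
      exact_mod_cast Finset.card_biUnion_le
    refine h1.trans ?_
    push_cast
    have h2 : ∀ N ∈ Finset.range (M + 1), ((hfin N).toFinset.card : ℝ) ≤ B := by
      intro N hN
      rw [Finset.mem_range] at hN
      exact h N (by omega) _ (fun v hv => ((Set.Finite.mem_toFinset _).1 hv).2)
    refine (Finset.sum_le_sum h2).trans ?_
    rw [Finset.sum_const, Finset.card_range, nsmul_eq_mul]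
    push_cast
    exact le_rfl

/-- Linear growth is below exponential growth. -/
lemma u04_growth (A B a : ℝ) (hB : 0 ≤ B) (ha : 0 < a) :
    ∀ᶠ n : ℕ in atTop, (A * n + 1) * B ≤ Real.exp (a * n) := by
  filter_upwards [eventually_ge_atTop (⌈2 * (A + 1) * B / a ^ 2⌉₊ + 1)] with n hn
  have hn1 : (1 : ℝ) ≤ n := by
    have : 1 ≤ n := by omega
    exact_mod_cast this
  have hn2 : 2 * (A + 1) * B / a ^ 2 ≤ n := by
    refine (Nat.le_ceil _).trans ?_
    have : ⌈2 * (A + 1) * B / a ^ 2⌉₊ ≤ n := by omega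
    exact_mod_cast this
  rw [div_le_iff₀ (by positivity)] at hn2
  have h1 := Real.quadratic_le_exp_of_nonneg (x := a * n) (by positivity)
  have h2 : (A * n + 1) * B ≤ (A + 1) * B * n := by nlinarith
  have h3 : (A + 1) * B * n ≤ (a * n) ^ 2 / 2 := by nlinarith
  have h4 : 0 ≤ a * (n : ℝ) := by positivity
  linarith

/-- The cardinality bound of the family of far vertices. -/
lemma u04_card {L θ η C C' : ℝ} (hL : 2 ≤ L) (hθ : 0 < θ) (hη : 0 < η)
    (hηL : 6 * η * Real.log L ≤ θ / 8) (hC' : 1 ≤ C') :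
    ∀ᶠ n : ℕ in atTop, ((⌊C' * n⌋₊ : ℝ) + 1) *
      (|C| * Real.exp (θ / (8 * C') * (C' * n)) / ((L ^ (3 * ⌊η * n⌋₊))⁻¹) ^ 2) ≤
      Real.exp (θ * n) := by
  filter_upwards [u04_growth C' |C| (θ / 2) (abs_nonneg _) (by positivity)] with n hn
  have hL0 : 0 < L := by linarith
  have hlog : 0 < Real.log L := Real.log_pos (by linarith)
  have h1 : ((⌊C' * n⌋₊ : ℝ)) ≤ C' * n := Nat.floor_le (by positivity)
  have h2 : ((⌊η * n⌋₊ : ℝ)) ≤ η * n := Nat.floor_le (by positivity)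
  have h3 : 1 / ((L ^ (3 * ⌊η * n⌋₊))⁻¹) ^ 2 ≤ Real.exp (θ / 8 * n) := by
    have h4 : 1 / ((L ^ (3 * ⌊η * n⌋₊))⁻¹) ^ 2 = Real.exp (6 * ⌊η * n⌋₊ * Real.log L) := by
      rw [inv_pow, one_div, inv_inv, ← pow_mul]
      have : L ^ (3 * ⌊η * (n : ℝ)⌋₊ * 2) = Real.exp (Real.log L) ^ (3 * ⌊η * (n : ℝ)⌋₊ * 2) := by
        rw [Real.exp_log hL0]
      rw [this, ← Real.exp_nat_mul]
      push_cast
      congr 1
      ring
    rw [h4]
    apply Real.exp_le_exp.2
    have hn0 : (0 : ℝ) ≤ n := by positivity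
    calc 6 * (⌊η * n⌋₊ : ℝ) * Real.log L ≤ 6 * (η * n) * Real.log L := by
          have := mul_le_mul_of_nonneg_right h2 hlog.le
          linarith
      _ = (6 * η * Real.log L) * n := by ring
      _ ≤ θ / 8 * n := mul_le_mul_of_nonneg_right hηL hn0
  have h5 : θ / (8 * C') * (C' * n) = θ / 8 * n := by
    field_simp
  rw [h5]
  have h6 : |C| * Real.exp (θ / 8 * n) / ((L ^ (3 * ⌊η * n⌋₊))⁻¹) ^ 2 =
      |C| * Real.exp (θ / 8 * n) * (1 / ((L ^ (3 * ⌊η * n⌋₊))⁻¹) ^ 2) := by ring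
  rw [h6]
  have h7 : (0 : ℝ) ≤ |C| * Real.exp (θ / 8 * n) := by positivity
  calc ((⌊C' * n⌋₊ : ℝ) + 1) * (|C| * Real.exp (θ / 8 * n) *
        (1 / ((L ^ (3 * ⌊η * n⌋₊))⁻¹) ^ 2))
      ≤ (C' * n + 1) * (|C| * Real.exp (θ / 8 * n) * Real.exp (θ / 8 * n)) := by
        apply mul_le_mul (by linarith) (mul_le_mul_of_nonneg_left h3 h7) (by positivity)
        positivity
    _ = ((C' * n + 1) * |C|) * Real.exp (θ / 4 * n) := by
        have : Real.exp (θ / 4 * n) = Real.exp (θ / 8 * n) * Real.exp (θ / 8 * n) := by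
          rw [← Real.exp_add]
          congr 1
          ring
        rw [this]
        ring
    _ ≤ Real.exp (θ / 2 * n) * Real.exp (θ / 4 * n) :=
        mul_le_mul_of_nonneg_right hn (Real.exp_pos _).le
    _ ≤ Real.exp (θ * n) := by
        rw [← Real.exp_add]
        apply Real.exp_le_exp.2
        have hn0 : (0 : ℝ) ≤ θ * n := by positivity
        nlinarith

/-- Iterates of a Lipschitz map. -/
lemma u04_iter {X : Type*} [MetricSpace X] {f : X → X} {L : ℝ} (hL : 2 ≤ L)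
    (hf : ∀ x y, dist (f x) (f y) ≤ L * dist x y) (k : ℕ) (x y : X) :
    dist (f^[k] x) (f^[k] y) ≤ L ^ k * dist x y := by
  induction k generalizing x y with
  | zero => simp
  | succ k ih =>
    rw [Function.iterate_succ_apply, Function.iterate_succ_apply]
    refine (ih (f x) (f y)).trans ?_
    rw [pow_succ, mul_assoc]
    exact mul_le_mul_of_nonneg_left (hf x y) (by positivity)

/-- Sum of the two small distances. -/
lemma u04_small {L : ℝ} (hL : 2 ≤ L) {n n₁ : ℕ} (h1 : 1 ≤ n₁) (h2 : 3 * n₁ ≤ 2 * n) :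
    (L ^ (2 * n))⁻¹ + (L ^ (3 * n₁))⁻¹ ≤ (L ^ (2 * n₁))⁻¹ := by
  have hL0 : 0 < L := by linarith
  have e1 : (L ^ (2 * n))⁻¹ ≤ (L ^ (3 * n₁))⁻¹ := by
    apply inv_anti₀ (by positivity)
    exact pow_le_pow_right₀ (by linarith) h2
  have e2 : 2 * (L ^ (3 * n₁))⁻¹ ≤ (L ^ (2 * n₁))⁻¹ := by
    have h3 : (L ^ (2 * n₁))⁻¹ = L ^ n₁ * (L ^ (3 * n₁))⁻¹ := by
      have : L ^ (3 * n₁) = L ^ n₁ * L ^ (2 * n₁) := by
        rw [← pow_add]
        congr 1
        ring
      rw [this, mul_inv, ← mul_assoc, mul_inv_cancel₀ (by positivity), one_mul]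
    rw [h3]
    apply mul_le_mul_of_nonneg_right _ (by positivity)
    calc (2 : ℝ) ≤ L := hL
      _ = L ^ 1 := (pow_one L).symm
      _ ≤ L ^ n₁ := pow_le_pow_right₀ (by linarith) h1
  linarith

theorem abstract_main_aux {X : Type} [MetricSpace X] [CompactSpace X] [MeasurableSpace X]
    [BorelSpace X] (f : X → X) (L : ℝ) (hL : 2 ≤ L)
    (hf : ∀ x y, dist (f x) (f y) ≤ L * dist x y) (m : Measure X) [IsProbabilityMeasure m]
    (hm : Ergodic f m) (K : ℕ) (ξ : X → Fin K) (hξ : Measurable ξ) (θ : ℝ) (hθ : 0 < θ)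
    (hent : ∃ᶠ n : ℕ in atTop, 3 * θ * n < blockEntropy f m ξ n) :
    ∃ ε p : ℝ, 0 < ε ∧ 0 < p ∧ ∀ (C' : ℝ) (d : ℕ) (T : AbsTree X f L d) (y₀ : X), 1 ≤ C' →
      T.AuxRoot y₀ →
      (∃ᶠ n : ℕ in atTop, ∃ F : Finset X, (F.card : ℝ) ≤ Real.exp (θ * ⌊C' * n⌋₊) ∧
        m {x | ¬ (∃ c ∈ F, ∀ k < ⌊C' * n⌋₊, dist (f^[k] x) (f^[k] c) ≤ ε) ∧
          ¬ (∃ N : ℕ, 2 * n < N ∧ (N : ℝ) ≤ C' * n ∧ ∃ y, dist x y < (L ^ (2 * n))⁻¹ ∧
            f^[N] y = y₀)} ≤ ENNReal.ofReal p) →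
      ∃ δ : ℝ, 0 < δ ∧ m (T.ptsAll δ)ᶜ = 0 := by
  classical
  have hne : Nonempty X := nonempty_of_isProbabilityMeasure m
  have hK : 1 ≤ K := by
    obtain ⟨x⟩ := hne
    exact Nat.one_le_iff_ne_zero.2 (by rintro rfl; exact (ξ x).elim0)
  obtain ⟨p₀, n₀, hp₀, hcover⟩ := entropy_coverJ 3 K hK θ hθ
  obtain ⟨E, ε, hε, hsep, hE⟩ := exists_separated m ξ hξ p₀ hp₀
  refine ⟨ε, p₀ / 2, hε, by positivity, ?_⟩
  intro C' d T y₀ hC' hroot hfreq
  have hL0 : 0 < L := by linarith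
  have hlog : 0 < Real.log L := Real.log_pos (by linarith)
  obtain ⟨η, hη, hη4, hηL⟩ : ∃ η : ℝ, 0 < η ∧ η ≤ 1 / 4 ∧ 6 * η * Real.log L ≤ θ / 8 := by
    refine ⟨min (1 / 4) (θ / (48 * Real.log L)), lt_min (by norm_num) (by positivity),
      min_le_left _ _, ?_⟩
    have h1 : min (1 / 4) (θ / (48 * Real.log L)) ≤ θ / (48 * Real.log L) := min_le_right _ _
    calc 6 * min (1 / 4) (θ / (48 * Real.log L)) * Real.log L
        ≤ 6 * (θ / (48 * Real.log L)) * Real.log L := by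
          apply mul_le_mul_of_nonneg_right _ hlog.le
          linarith
      _ = θ / 8 := by
          field_simp
          ring
  obtain ⟨C₂, hC₂1, hC₂def⟩ : ∃ C₂ : ℝ, 1 ≤ C₂ ∧ C₂ * η = 2 * C' := by
    refine ⟨2 * C' / η, ?_, by field_simp⟩
    rw [le_div_iff₀ hη]
    linarith
  have hC₂0 : 0 < C₂ := by linarith
  have hC'0 : 0 < C' := by linarith
  have hδ : 0 < θ / (28 * C₂) := by positivity
  generalize hδdef : θ / (28 * C₂) = δ at hδ
  obtain ⟨k₀, q, hq, hW⟩ := T.vertex_cover hL hf hδ hθ hC₂1 (by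
    rw [← hδdef]
    have : 28 * (θ / (28 * C₂)) * C₂ = θ := by field_simp
    linarith)
  refine ⟨δ, hδ, ?_⟩
  have hcont : Continuous f := by
    have : LipschitzWith (Real.toNNReal L) f := by
      refine LipschitzWith.of_dist_le_mul fun x y => ?_
      rw [Real.coe_toNNReal _ (by linarith)]
      exact hf x y
    exact this.continuous
  rcases T.ptsAll_zero_one (by linarith) hcont hδ m hm with h0 | h1
  swap
  · exact h1
  exfalso
  obtain ⟨lift, hlift, hcount⟩ := hroot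
  obtain ⟨C, hC⟩ := hcount (θ / (8 * C')) (by positivity)
  have e1 := T.nobad_measure hδ k₀ m h0 (q * (p₀ / 2)) (by positivity)
  have e2 := u04_tail δ hδ
  have e3 : ∀ᶠ N : ℕ in atTop, 1 / ((N : ℝ) + 1) ≤ ε := by
    have := tendsto_one_div_add_atTop_nhds_zero_nat (𝕜 := ℝ)
    filter_upwards [this.eventually (gt_mem_nhds hε)] with N hN
    exact hN.le
  obtain ⟨N, hN1, hN2, hN3⟩ := (e1.and (e2.and e3)).exists
  obtain ⟨n₂, hn₂⟩ := hW (1 / ((N : ℝ) + 1)) N (by positivity) hN2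
  -- the eventual conditions on n
  have e4 : ∀ᶠ n : ℕ in atTop, max n₂ (max n₀ 1) ≤ ⌊η * n⌋₊ := by
    have h1 : Tendsto (fun n : ℕ => ⌊η * (n : ℝ)⌋₊) atTop atTop :=
      tendsto_nat_floor_atTop.comp (Tendsto.const_mul_atTop hη tendsto_natCast_atTop_atTop)
    exact h1.eventually (eventually_ge_atTop _)
  have e5 : ∀ᶠ n : ℕ in atTop, 2 ≤ η * (n : ℝ) := by
    have h1 : Tendsto (fun n : ℕ => η * (n : ℝ)) atTop atTop :=
      Tendsto.const_mul_atTop hη tendsto_natCast_atTop_atTop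
    exact h1.eventually (eventually_ge_atTop _)
  have e6 : ∀ᶠ n : ℕ in atTop, (L ^ n)⁻¹ ≤ ε := by
    have h1 : Tendsto (fun n : ℕ => (L ^ n)⁻¹) atTop (𝓝 0) :=
      (tendsto_pow_atTop_atTop_of_one_lt (by linarith)).inv_tendsto_atTop
    filter_upwards [h1.eventually (gt_mem_nhds hε)] with n hn
    exact hn.le
  have e7 := u04_card (C := C) hL hθ hη hηL hC'
  obtain ⟨n, ⟨F₁, hF₁, hmeas⟩, hn4, hn5, hn6, hn7⟩ :=
    (hfreq.and_eventually (e4.and (e5.and (e6.and e7)))).exists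
  generalize hn₁def : ⌊η * (n : ℝ)⌋₊ = n₁ at hn4 hn7
  have hn₁2 : n₂ ≤ n₁ := (le_max_left _ _).trans hn4
  have hn₁0 : n₀ ≤ n₁ := ((le_max_left _ _).trans (le_max_right _ _)).trans hn4
  have hn₁1 : 1 ≤ n₁ := ((le_max_right _ _).trans (le_max_right _ _)).trans hn4
  have hn₁le : (n₁ : ℝ) ≤ η * n := by
    rw [← hn₁def]
    exact Nat.floor_le (by positivity)
  have hn₁ge : η * n < n₁ + 1 := by
    rw [← hn₁def]
    exact Nat.lt_floor_add_one _
  have hn0 : (0 : ℝ) ≤ n := by positivity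
  have h4n₁ : 4 * n₁ ≤ n := by
    have : (4 : ℝ) * n₁ ≤ n := by nlinarith
    exact_mod_cast this
  have hCn : C' * n ≤ C₂ * n₁ := by
    have h1 : η * n ≤ 2 * n₁ := by linarith
    have h2 : C' * n * η * 2 ≤ C₂ * n₁ * η * 2 := by
      calc C' * n * η * 2 = 2 * C' * (η * n) := by ring
        _ ≤ 2 * C' * (2 * n₁) := mul_le_mul_of_nonneg_left h1 (by positivity)
        _ = C₂ * η * (2 * n₁) := by rw [hC₂def]
        _ = C₂ * n₁ * η * 2 := by ring
    have h3 : C' * n * (η * 2) ≤ C₂ * n₁ * (η * 2) := by linarith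
    exact le_of_mul_le_mul_right h3 (by positivity)
  obtain ⟨F₂, hF₂, hF₂'⟩ := hn₂ n₁ hn₁2
  -- the family of far vertices
  have ht0 : 0 < (L ^ (3 * n₁))⁻¹ := by positivity
  have ht1 : (L ^ (3 * n₁))⁻¹ ≤ 1 := by
    apply inv_le_one_of_one_le₀
    exact one_le_pow₀ (by linarith)
  obtain ⟨F₃, hF₃, hF₃card⟩ := u04_family
    (fun N v => f^[N] v = y₀ ∧ (L ^ (3 * n₁))⁻¹ < dist v (lift N v))
    (|C| * Real.exp (θ / (8 * C') * (C' * n)) / ((L ^ (3 * n₁))⁻¹) ^ 2) ⌊C' * n⌋₊ (by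
      intro N hN S hS
      refine (hC N _ ht0 ht1 S hS).trans ?_
      have hN' : (N : ℝ) ≤ C' * n := by
        refine le_trans ?_ (Nat.floor_le (by positivity))
        exact_mod_cast hN
      apply div_le_div_of_nonneg_right _ (by positivity)
      apply mul_le_mul (le_abs_self C) _ (Real.exp_pos _).le (abs_nonneg _)
      apply Real.exp_le_exp.2
      exact mul_le_mul_of_nonneg_left hN' (by positivity))
  have hF₃' : (F₃.card : ℝ) ≤ Real.exp (θ * n) := hF₃card.trans hn7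
  have hCfl : n ≤ ⌊C' * n⌋₊ := by
    apply Nat.le_floor
    nlinarith
  have hfin := hcover f m ξ E {x | (∃ c ∈ F₂, ∀ k < n₁, dist (f^[k] x) (f^[k] c) ≤ ε) ∨
      (∃ c ∈ F₃, ∀ k < n, dist (f^[k] x) (f^[k] c) ≤ ε) ∨
      (∃ c ∈ F₁, ∀ k < ⌊C' * n⌋₊, dist (f^[k] x) (f^[k] c) ≤ ε)} ε
      ![n₁, n, ⌊C' * n⌋₊] ![F₂, F₃, F₁]
      hm.toMeasurePreserving hξ hsep (by
        intro i
        fin_cases i
        · exact hn₁0
        · show n₀ ≤ n
          omega
        · show n₀ ≤ ⌊C' * n⌋₊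
          omega) (by
        intro i
        fin_cases i
        · exact hF₂
        · exact hF₃'
        · exact hF₁) (by
        rintro x (hx | hx | hx)
        · exact ⟨0, hx⟩
        · exact ⟨1, hx⟩
        · exact ⟨2, hx⟩) ?_ hE
  · obtain ⟨l, hl1, hl2⟩ := (hent.and_eventually hfin).exists
    linarith
  · have hsub : {x | (∃ c ∈ F₂, ∀ k < n₁, dist (f^[k] x) (f^[k] c) ≤ ε) ∨
        (∃ c ∈ F₃, ∀ k < n, dist (f^[k] x) (f^[k] c) ≤ ε) ∨
        (∃ c ∈ F₁, ∀ k < ⌊C' * n⌋₊, dist (f^[k] x) (f^[k] c) ≤ ε)}ᶜ ⊆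
        {x | ¬ (∃ c ∈ F₁, ∀ k < ⌊C' * n⌋₊, dist (f^[k] x) (f^[k] c) ≤ ε) ∧
          ¬ (∃ N : ℕ, 2 * n < N ∧ (N : ℝ) ≤ C' * n ∧ ∃ y, dist x y < (L ^ (2 * n))⁻¹ ∧
            f^[N] y = y₀)} ∪
        {x | q * n₁ < (badCount f (T.nobad δ k₀ (1 / ((N : ℝ) + 1)) N) n₁ x : ℝ)} := by
      intro x hx
      rw [Set.mem_compl_iff, Set.mem_ofPred_eq, not_or, not_or] at hx
      by_cases hb : (badCount f (T.nobad δ k₀ (1 / ((N : ℝ) + 1)) N) n₁ x : ℝ) ≤ q * n₁
      · left
        refine ⟨hx.2.2, ?_⟩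
        rintro ⟨M, hM1, hM2, y, hy1, hy2⟩
        by_cases hfar : (L ^ (3 * n₁))⁻¹ < dist y (lift M y)
        · apply hx.2.1
          refine ⟨y, hF₃ M (Nat.le_floor hM2) y ⟨hy2, hfar⟩, fun k hk => ?_⟩
          refine (u04_iter hL hf k x y).trans ?_
          calc L ^ k * dist x y ≤ L ^ n * (L ^ (2 * n))⁻¹ := by
                apply mul_le_mul _ hy1.le dist_nonneg (by positivity)
                exact pow_le_pow_right₀ (by linarith) hk.le
            _ = (L ^ n)⁻¹ := by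
                rw [two_mul, pow_add, mul_inv, ← mul_assoc, mul_inv_cancel₀ (by positivity),
                  one_mul]
            _ ≤ ε := hn6
        · apply hx.1
          push Not at hfar
          obtain ⟨u, hu, hu'⟩ := hF₂' x hb ⟨M, by omega, hM2.trans hCn, lift M y, by
            calc dist x (lift M y) ≤ dist x y + dist y (lift M y) := dist_triangle _ _ _
              _ < (L ^ (2 * n))⁻¹ + (L ^ (3 * n₁))⁻¹ := by linarith
              _ ≤ (L ^ (2 * n₁))⁻¹ := u04_small hL hn₁1 (by omega), hlift M y hy2⟩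
          exact ⟨u, hu, fun k hk => (hu' k hk).le.trans hN3⟩
      · right
        exact not_le.1 hb
    refine (measure_mono hsub).trans ((measure_union_le _ _).trans ?_)
    have hmk := badCount_markov hm.toMeasurePreserving
      (T.isClosed_nobad δ k₀ (1 / ((N : ℝ) + 1)) N).measurableSet n₁ q hq (q * (p₀ / 2))
      (by positivity) hN1
    calc _ ≤ ENNReal.ofReal (p₀ / 2) + ENNReal.ofReal (q * (p₀ / 2) / q) := add_le_add hmeas hmk
      _ = ENNReal.ofReal p₀ := by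
        rw [← ENNReal.ofReal_add (by positivity) (by positivity)]
        congr 1
        field_simp
        ring

end Pool.Agent.Lib.MP_e4ee3e_an
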