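import Pool.Agent.Lib.MP_e4ee3e_an.R06

/-!
U05. Choice of an auxiliary root with an arbitrary almost everywhere property (general form of R06;
helper81 proves it as exists_root_gen in R06 and this module just quotes it).
-/

open MeasureTheory Filter Topology

namespace Pool.Agent.Lib.MP_e4ee3e_an

attribute [local instance] chMetric

theorem exists_root_ae {P Q : Polynomial ℂ} {d : ℕ} (h : RatData P Q d)
    [MeasurableSpace (OnePoint ℂ)] [BorelSpace (OnePoint ℂ)] (L : ℝ) (hL : 2 ≤ L)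
    (hlip : ∀ x y, dist (ratMap P Q x) (ratMap P Q y) ≤ L * dist x y)
    (m : Measure (OnePoint ℂ)) [IsProbabilityMeasure m] (hm : m {OnePoint.infty} = 0)
    (v₀ : ℂ) (ρ₀ θ ε p : ℝ) (hρ₀ : 0 < ρ₀) (hθ : 0 < θ) (hε : 0 < ε) (hp : 0 < p)
    (Pz : ℂ → Prop) (hPz : ∀ᵐ z : ℂ, Pz z) :
    ∃ C' : ℝ, 1 ≤ C' ∧ ∃ z ∈ Metric.ball v₀ ρ₀, Pz z ∧
      ∃ᶠ n : ℕ in atTop, ∃ F : Finset (OnePoint ℂ),
        (F.card : ℝ) ≤ Real.exp (θ * ⌊C' * n⌋₊) ∧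
        m {x | ¬ (∃ c ∈ F, ∀ k < ⌊C' * n⌋₊,
            dist ((ratMap P Q)^[k] x) ((ratMap P Q)^[k] c) ≤ ε) ∧
          ¬ (∃ N : ℕ, 2 * n < N ∧ (N : ℝ) ≤ C' * n ∧ ∃ y, dist x y < (L ^ (2 * n))⁻¹ ∧
            (ratMap P Q)^[N] y = (z : OnePoint ℂ))} ≤ ENNReal.ofReal p :=
  exists_root_gen h L hL hlip m hm v₀ ρ₀ θ ε p hρ₀ hθ hε hp Pz hPz

end Pool.Agent.Lib.MP_e4ee3e_an
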