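import Pool.Agent.Lib.MP_e4ee3e_an.V08
import Pool.Agent.Lib.MP_e4ee3e_an.U03
import Pool.Agent.Lib.MP_e4ee3e_an.U04
import Pool.Agent.Lib.MP_e4ee3e_an.U05
import Pool.Agent.Lib.MP_e4ee3e_an.E07
import Pool.Agent.Lib.MP_e4ee3e_an.T05
import Pool.Agent.Lib.MP_e4ee3e_an.T08

/-!
Main2. One tree for all measures, with shift-invariant measures on sequences.
-/

open MeasureTheory Filter Topology

namespace Pool.Agent.Lib.MP_e4ee3e_an

attribute [local instance] chMetric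

/-- a tame point inside a nonempty open set -/
lemma main2_exists_tame {P Q : Polynomial ℂ} {d : ℕ} (h : RatData P Q d) (V : Set (OnePoint ℂ))
    (hV : IsOpen V) (hne : V.Nonempty) :
    ∃ z : ℂ, (z : OnePoint ℂ) ∈ V ∧ Tame P Q (z : OnePoint ℂ) := by
  have hdense : DenseRange ((↑) : ℂ → OnePoint ℂ) := OnePoint.denseRange_coe
  obtain ⟨v₀, hv₀⟩ := hdense.exists_mem_open hV hne
  have hopen : IsOpen ((fun z : ℂ => (z : OnePoint ℂ)) ⁻¹' V) :=
    hV.preimage OnePoint.continuous_coe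
  have hpos : 0 < volume ((fun z : ℂ => (z : OnePoint ℂ)) ⁻¹' V) :=
    hopen.measure_pos volume ⟨v₀, hv₀⟩
  have hae := tame_ae h
  by_contra hcon
  push Not at hcon
  have hsub : ((fun z : ℂ => (z : OnePoint ℂ)) ⁻¹' V) ⊆ {z : ℂ | ¬ Tame P Q (z : OnePoint ℂ)} :=
    fun z hz => hcon z hz
  have h0 : volume {z : ℂ | ¬ Tame P Q (z : OnePoint ℂ)} = 0 := hae
  exact hpos.ne' (measure_mono_null hsub h0)

theorem main_theorem_one_tree {P Q : Polynomial ℂ} {d : ℕ} (h : RatData P Q d)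
    [MeasurableSpace (OnePoint ℂ)] [BorelSpace (OnePoint ℂ)] (V : Set (OnePoint ℂ))
    (hV : IsOpen V) (hne : V.Nonempty) :
    ∃ S : CodingTree (ratMap P Q) d, S.root ∈ V ∧ S.UniqueLifts ∧ S.AvoidsCriticalValues ∧
      ∀ (m : Measure (OnePoint ℂ)), IsProbabilityMeasure m → Ergodic (ratMap P Q) m →
        0 < ksEntropy (ratMap P Q) m →
        ∃ μ : Measure (ℕ → Fin d), IsProbabilityMeasure μ ∧ MeasurePreserving shift μ μ ∧
          μ S.domainᶜ = 0 ∧ μ.map S.codingMap = m := by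
  obtain ⟨L, hL, hlip⟩ := ratMap_lipschitz h
  obtain ⟨z, hzV, htame⟩ := main2_exists_tame h V hV hne
  obtain ⟨child, e, G, T⟩ := tree_exists h z htame
  obtain ⟨A, hAroot, hAz⟩ := T.absTree_exists L hL hlip
  obtain ⟨S, hSroot, hSv, hSu, hSa⟩ := T.codingTree_exists
  have hd : 0 < d := by have := h.two; omega
  refine ⟨S, by rw [hSroot]; exact hzV, hSu, hSa, ?_⟩
  intro m hprob hm hent
  obtain ⟨K, ξ, θ, hξ, hθ, hfreq⟩ := exists_partition hent
  obtain ⟨ε, p, hε, hp, hmain⟩ := abstract_main_aux (ratMap P Q) L hL hlip m hm K ξ hξ θ hθ hfreq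
  have hatom : m {OnePoint.infty} = 0 := no_atom hm hent _
  obtain ⟨C', hC', z', hz', hseg, hfreq2⟩ :=
    exists_root_ae h L hL hlip m hatom 0 1 θ ε p one_pos hθ hε hp
      (fun z' => TameSet P Q (segment ℝ z z')) (tameSeg_ae h z htame)
  obtain ⟨δ, hδ, hfull⟩ := hmain C' d A (z' : OnePoint ℂ) hC'
    (auxRoot_of_segment h z z' hseg A hAroot) hfreq2
  obtain ⟨μ, hμ1, hμ2, hμ3, hμ4⟩ :=
    A.exists_invariant hd hL hlip m hm K ξ hξ θ hθ hfreq δ hδ hfull
  refine ⟨μ, hμ1, hμ2, ?_, ?_⟩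
  · have : ∀ᵐ β ∂μ, β ∈ S.domain := by
      filter_upwards [hμ3] with β hβ
      obtain ⟨x, hx⟩ := hβ
      refine ⟨x, ?_⟩
      simpa only [hSv, hAz] using hx
    exact this
  · apply hμ4
    intro β x hx
    have : Tendsto (fun n => S.vertex n β) atTop (𝓝 x) := by
      simpa only [hSv, hAz] using hx
    exact this.limUnder_eq

end Pool.Agent.Lib.MP_e4ee3e_an
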