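import Pool.Agent.Lib.MP_e4ee3e_an.Setup

/-!
N01. Local Lipschitz constants on a ball give a Lipschitz constant (maps from a ball of the plane
to a metric space). Restrict to the segment from w to w' and use
image_le_of_liminf_slope_right_lt_deriv_boundary' or a direct sup argument:
u(t) = dist (g w) (g (w + t (w' - w))).
-/

open MeasureTheory Filter Topology

namespace Pool.Agent.Lib.MP_e4ee3e_an

attribute [local instance] chMetric

theorem lip_of_local {X : Type*} [MetricSpace X] (g : ℂ → X) (a : ℂ) (r M : ℝ)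
    (h : ∀ w ∈ Metric.ball a r, ∀ M' : ℝ, M < M' → ∀ᶠ w' in 𝓝 w, dist (g w) (g w') ≤ M' * ‖w - w'‖) :
    ∀ w ∈ Metric.ball a r, ∀ w' ∈ Metric.ball a r, dist (g w) (g w') ≤ M * ‖w - w'‖ := by
  intro w hw w' hw'
  have hcont : ∀ x ∈ Metric.ball a r, ContinuousAt g x := by
    intro x hx
    have h1 := h x hx (M + 1) (by linarith)
    have h2 : Tendsto (fun y => (M + 1) * ‖x - y‖) (𝓝 x) (𝓝 0) := by
      have h3 : Continuous fun y : ℂ => (M + 1) * ‖x - y‖ := by fun_prop
      have h4 := h3.tendsto x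
      simpa using h4
    rw [ContinuousAt, tendsto_iff_dist_tendsto_zero]
    refine squeeze_zero' (Eventually.of_forall fun y => dist_nonneg) ?_ h2
    filter_upwards [h1] with y hy
    rw [dist_comm]
    exact hy
  have hmem : ∀ t ∈ Set.Icc (0 : ℝ) 1, w + (t : ℂ) * (w' - w) ∈ Metric.ball a r := by
    intro t ht
    have h1 := (convex_ball a r).add_smul_sub_mem hw hw' ht
    rwa [Complex.real_smul] at h1
  have key : ∀ M' : ℝ, M < M' → dist (g w) (g w') ≤ M' * ‖w - w'‖ := by
    intro M' hM'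
    have hp : Continuous fun t : ℝ => w + (t : ℂ) * (w' - w) := by fun_prop
    have h1 := image_le_of_liminf_slope_right_le_deriv_boundary
      (f := fun t : ℝ => dist (g w) (g (w + (t : ℂ) * (w' - w)))) (a := 0) (b := 1)
      (B := fun t => M' * ‖w - w'‖ * t) (B' := fun _ => M' * ‖w - w'‖) ?_ ?_ ?_ ?_ ?_
      (x := 1) ⟨zero_le_one, le_rfl⟩
    · simpa using h1
    · intro t ht
      refine ContinuousAt.continuousWithinAt ?_
      have h2 : ContinuousAt (fun t : ℝ => g (w + (t : ℂ) * (w' - w))) t :=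
        ContinuousAt.comp (f := fun t : ℝ => w + (t : ℂ) * (w' - w)) (hcont _ (hmem t ht))
          hp.continuousAt
      exact Tendsto.dist tendsto_const_nhds h2
    · simp
    · fun_prop
    · intro t _
      have h2 : HasDerivAt (fun t : ℝ => M' * ‖w - w'‖ * t) (M' * ‖w - w'‖ * 1) t :=
        (hasDerivAt_id t).const_mul _
      rw [mul_one] at h2
      exact h2.hasDerivWithinAt
    · intro t ht s hs
      have h2 := h _ (hmem t ⟨ht.1, ht.2.le⟩) M' hM'
      have h3 : ∀ᶠ z : ℝ in 𝓝 t, dist (g (w + (t : ℂ) * (w' - w))) (g (w + (z : ℂ) * (w' - w))) ≤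
          M' * ‖(w + (t : ℂ) * (w' - w)) - (w + (z : ℂ) * (w' - w))‖ :=
        (hp.tendsto t).eventually h2
      have h4 : ∀ᶠ z : ℝ in 𝓝[>] t, slope (fun t : ℝ => dist (g w) (g (w + (t : ℂ) * (w' - w)))) t z < s := by
        filter_upwards [nhdsWithin_le_nhds h3, self_mem_nhdsWithin] with z hz hzt
        have hzt' : (0 : ℝ) < z - t := sub_pos.2 hzt
        rw [slope_def_field, div_lt_iff₀ hzt']
        have h5 : (w + (t : ℂ) * (w' - w)) - (w + (z : ℂ) * (w' - w)) = ((z - t : ℝ) : ℂ) * (w - w') := by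
          push_cast
          ring
        rw [h5, norm_mul, Complex.norm_real, Real.norm_of_nonneg hzt'.le] at hz
        have h6 := dist_triangle (g w) (g (w + (t : ℂ) * (w' - w))) (g (w + (z : ℂ) * (w' - w)))
        have h7 : M' * ‖w - w'‖ * (z - t) < s * (z - t) := mul_lt_mul_of_pos_right hs hzt'
        nlinarith
      exact h4.frequently
  refine le_of_forall_pos_le_add fun ε hε => ?_
  have hn : 0 < ‖w - w'‖ + 1 := by positivity
  have h1 := key (M + ε / (‖w - w'‖ + 1)) (by have := div_pos hε hn; linarith)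
  have h2 : ε / (‖w - w'‖ + 1) * ‖w - w'‖ ≤ ε := by
    rw [div_mul_eq_mul_div, div_le_iff₀ hn]
    nlinarith [norm_nonneg (w - w')]
  linarith

end Pool.Agent.Lib.MP_e4ee3e_an
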