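import Pool.Agent.Lib.MP_e4ee3e_an.Setup

/-!
N02. Uniform bound for the Cauchy transform of an area: on Z in closedBall 0 R,
norm (ξ - ζ)^-1 <= 1 outside ball ζ 1, and its integral over ball ζ 1 is 2 pi (polar coordinates,
or dyadic rings: integral over the ring 2^-(j+1) <= |ξ-ζ| < 2^-j is at most 2^(j+1) * pi * 4^-j).
Also integrability.
-/

open MeasureTheory Filter Topology

namespace Pool.Agent.Lib.MP_e4ee3e_an

attribute [local instance] chMetric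

/-- Cauchy transform of the area of `Z`. -/
noncomputable def cauchyT (Z : Set ℂ) (ζ : ℂ) : ℂ := ∫ ξ in Z, (ξ - ζ)⁻¹

/-- the kernel cut off at radius `ρ` -/
noncomputable def n02_k (ρ : ℝ) (y : ℝ) : ℝ := (Set.Iio ρ).indicator (fun y => y⁻¹) y

theorem n02_k_nonneg (ρ : ℝ) {y : ℝ} (hy : 0 ≤ y) : 0 ≤ n02_k ρ y := by
  by_cases h1 : y < ρ
  · simp [n02_k, Set.indicator, h1, hy]
  · simp [n02_k, Set.indicator, h1]

theorem n02_integrable (ρ : ℝ) : Integrable (fun ξ : ℂ => n02_k ρ ‖ξ‖) := by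
  rw [integrable_fun_norm_addHaar (volume : Measure ℂ) (f := n02_k ρ), Complex.finrank_real_complex]
  have h : Set.EqOn (fun y : ℝ => y ^ (2 - 1) • n02_k ρ y) ((Set.Iio ρ).indicator (fun _ => (1 : ℝ)))
      (Set.Ioi 0) := by
    intro y hy
    have hy' : y ≠ 0 := ne_of_gt hy
    by_cases h1 : y < ρ
    · simp [n02_k, Set.indicator, h1, hy']
    · simp [n02_k, Set.indicator, h1]
  rw [integrableOn_congr_fun h measurableSet_Ioi, integrableOn_indicator_iff measurableSet_Iio]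
  apply integrableOn_const
  · refine ne_of_lt (lt_of_le_of_lt (measure_mono (t := Set.Ioo 0 ρ) ?_) measure_Ioo_lt_top)
    intro y hy
    exact ⟨hy.2, hy.1⟩
  · exact enorm_ne_top

theorem n02_integrable_sub (ρ : ℝ) (ζ : ℂ) : Integrable (fun ξ : ℂ => n02_k ρ ‖ξ - ζ‖) :=
  (n02_integrable ρ).comp_sub_right ζ

theorem n02_meas (ζ : ℂ) : Measurable (fun ξ : ℂ => (ξ - ζ)⁻¹) :=
  (measurable_id.sub_const ζ).inv

theorem integrableOn_inv_sub (R : ℝ) (ζ : ℂ) :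
    IntegrableOn (fun ξ : ℂ => (ξ - ζ)⁻¹) (Metric.closedBall 0 R) := by
  refine Integrable.mono' (n02_integrable_sub (R + ‖ζ‖ + 1) ζ).integrableOn
    (n02_meas ζ).aestronglyMeasurable ?_
  rw [ae_restrict_iff' measurableSet_closedBall]
  refine Eventually.of_forall (fun ξ hξ => ?_)
  have h1 : ‖ξ‖ ≤ R := by simpa using hξ
  have h2 : ‖ξ - ζ‖ < R + ‖ζ‖ + 1 := by
    have := norm_sub_le ξ ζ
    linarith
  simp [n02_k, Set.indicator, h2]

theorem n02_le (u : ℂ) : ‖u⁻¹‖ ≤ n02_k 1 ‖u‖ + 1 := by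
  rw [norm_inv]
  by_cases h : ‖u‖ < 1
  · simp [n02_k, Set.indicator, h]
  · have h0 := n02_k_nonneg 1 (norm_nonneg u)
    have h1 : ‖u‖⁻¹ ≤ 1 := inv_le_one_of_one_le₀ (not_lt.1 h)
    linarith

theorem cauchyT_bound (R : ℝ) : ∃ C : ℝ, 0 < C ∧ ∀ (Z : Set ℂ) (ζ : ℂ), MeasurableSet Z →
    Z ⊆ Metric.closedBall 0 R → ‖cauchyT Z ζ‖ ≤ C := by
  have hvol : volume (Metric.closedBall (0 : ℂ) R) ≠ ⊤ := measure_closedBall_lt_top.ne
  have hI0 : 0 ≤ ∫ ξ : ℂ, n02_k 1 ‖ξ‖ :=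
    integral_nonneg (fun ξ => n02_k_nonneg 1 (norm_nonneg ξ))
  refine ⟨(∫ ξ : ℂ, n02_k 1 ‖ξ‖) + volume.real (Metric.closedBall (0 : ℂ) R) + 1, by positivity,
    fun Z ζ hZ hsub => ?_⟩
  have hint : IntegrableOn (fun ξ : ℂ => (ξ - ζ)⁻¹) Z := (integrableOn_inv_sub R ζ).mono_set hsub
  have hZfin : volume Z ≠ ⊤ := ne_of_lt (lt_of_le_of_lt (measure_mono hsub) measure_closedBall_lt_top)
  have hk : IntegrableOn (fun ξ : ℂ => n02_k 1 ‖ξ - ζ‖) Z := (n02_integrable_sub 1 ζ).integrableOn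
  have h1c : IntegrableOn (fun _ : ℂ => (1 : ℝ)) Z := integrableOn_const hZfin enorm_ne_top
  calc ‖cauchyT Z ζ‖ ≤ ∫ ξ in Z, ‖(ξ - ζ)⁻¹‖ := norm_integral_le_integral_norm _
    _ ≤ ∫ ξ in Z, (n02_k 1 ‖ξ - ζ‖ + 1) :=
        setIntegral_mono hint.norm (hk.add h1c) (fun ξ => n02_le (ξ - ζ))
    _ = (∫ ξ in Z, n02_k 1 ‖ξ - ζ‖) + volume.real Z := by
        rw [integral_add hk h1c, setIntegral_const, smul_eq_mul, mul_one]
    _ ≤ (∫ ξ : ℂ, n02_k 1 ‖ξ - ζ‖) + volume.real (Metric.closedBall (0 : ℂ) R) := by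
        refine add_le_add ?_ (measureReal_mono hsub hvol)
        exact setIntegral_le_integral (n02_integrable_sub 1 ζ)
          (Eventually.of_forall (fun ξ => n02_k_nonneg 1 (norm_nonneg _)))
    _ = (∫ ξ : ℂ, n02_k 1 ‖ξ‖) + volume.real (Metric.closedBall (0 : ℂ) R) := by
        rw [integral_sub_right_eq_self (fun ξ : ℂ => n02_k 1 ‖ξ‖) ζ]
    _ ≤ _ := by linarith

end Pool.Agent.Lib.MP_e4ee3e_an
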