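import Pool.Agent.Lib.MP_e4ee3e_an.N02

/-!
N03. The Cauchy transform of a compact set Z is holomorphic off Z, and ζ * cauchyT Z ζ tends to
minus the area of Z at infinity. (hasDerivAt_integral_of_dominated_loc_of_deriv_le on a ball of
radius dist/2 around ζ; for the limit: ζ/(ξ-ζ) tends to -1 uniformly for ξ in Z.)
-/

open MeasureTheory Filter Topology

namespace Pool.Agent.Lib.MP_e4ee3e_an

attribute [local instance] chMetric

theorem n03_int {Z : Set ℂ} (hZ : IsCompact Z) (ζ : ℂ) :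
    IntegrableOn (fun ξ : ℂ => (ξ - ζ)⁻¹) Z := by
  obtain ⟨R, hR⟩ := hZ.isBounded.subset_closedBall 0
  exact (integrableOn_inv_sub R ζ).mono_set hR

theorem cauchyT_hasDerivAt {Z : Set ℂ} (hZ : IsCompact Z) {ζ : ℂ} (hζ : ζ ∉ Z) :
    HasDerivAt (cauchyT Z) (∫ ξ in Z, ((ξ - ζ) ^ 2)⁻¹) ζ := by
  obtain ⟨r, hr, hball⟩ := Metric.isOpen_iff.1 hZ.isClosed.isOpen_compl ζ hζ
  have hfar : ∀ ξ ∈ Z, ∀ z ∈ Metric.ball ζ (r / 2), r / 2 ≤ ‖ξ - z‖ := by
    intro ξ hξ z hz
    by_contra hcon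
    push Not at hcon
    have h1 : ξ ∈ Metric.ball ζ r := by
      rw [Metric.mem_ball, dist_eq_norm] at hz ⊢
      have := norm_add_le (ξ - z) (z - ζ)
      rw [sub_add_sub_cancel] at this
      linarith
    exact hball h1 hξ
  have hZfin : volume Z ≠ ⊤ := hZ.measure_lt_top.ne
  have key := hasDerivAt_integral_of_dominated_loc_of_deriv_le (μ := volume.restrict Z)
    (F := fun (z : ℂ) (ξ : ℂ) => (ξ - z)⁻¹) (F' := fun (z : ℂ) (ξ : ℂ) => ((ξ - z) ^ 2)⁻¹)
    (bound := fun _ => ((r / 2) ^ 2)⁻¹) (x₀ := ζ) (s := Metric.ball ζ (r / 2))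
    (Metric.ball_mem_nhds ζ (by positivity))
    (Eventually.of_forall (fun z => (n02_meas z).aestronglyMeasurable)) (n03_int hZ ζ)
    (((measurable_id.sub_const ζ).pow_const 2).inv.aestronglyMeasurable)
    ((ae_restrict_iff' hZ.measurableSet).2 (Eventually.of_forall (fun ξ hξ z hz => by
      have h1 := hfar ξ hξ z hz
      rw [norm_inv, norm_pow]
      exact inv_anti₀ (by positivity) (pow_le_pow_left₀ (by positivity) h1 2))))
    (integrableOn_const hZfin enorm_ne_top)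
    ((ae_restrict_iff' hZ.measurableSet).2 (Eventually.of_forall (fun ξ hξ z hz => by
      have h1 := hfar ξ hξ z hz
      have h2 : ξ - z ≠ 0 := by
        intro h
        rw [h, norm_zero] at h1
        linarith
      have h4 : HasDerivAt (fun x : ℂ => ξ - x) (-1) z := by
        simpa using (hasDerivAt_id z).const_sub ξ
      have h3 : HasDerivAt (fun x : ℂ => (ξ - x)⁻¹) (- -1 / (ξ - z) ^ 2) z := h4.inv h2
      have h5 : (- -1 / (ξ - z) ^ 2) = ((ξ - z) ^ 2)⁻¹ := by rw [neg_neg, one_div]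
      exact h5 ▸ h3)))
  exact key.2

theorem cauchyT_infty {Z : Set ℂ} (hZ : IsCompact Z) :
    Tendsto (fun ζ : ℂ => ζ * cauchyT Z ζ) (Filter.cocompact ℂ)
      (𝓝 (-((volume.real Z : ℝ) : ℂ))) := by
  obtain ⟨R, hR⟩ := hZ.isBounded.subset_closedBall 0
  have hZfin : volume Z ≠ ⊤ := hZ.measure_lt_top.ne
  set R' := max R 0 with hR'
  have hR'0 : 0 ≤ R' := le_max_right _ _
  have hnorm : ∀ ξ ∈ Z, ‖ξ‖ ≤ R' := fun ξ hξ => by
    have := hR hξ
    rw [Metric.mem_closedBall, dist_zero_right] at this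
    exact this.trans (le_max_left _ _)
  have hb : ∀ ζ : ℂ, R' < ‖ζ‖ →
      ‖ζ * cauchyT Z ζ - (-((volume.real Z : ℝ) : ℂ))‖ ≤ R' * volume.real Z * (‖ζ‖ - R')⁻¹ := by
    intro ζ hζ
    have e1 : ζ * cauchyT Z ζ - (-((volume.real Z : ℝ) : ℂ)) = ∫ ξ in Z, ξ * (ξ - ζ)⁻¹ := by
      have a1 : ((volume.real Z : ℝ) : ℂ) = ∫ _ξ in Z, (1 : ℂ) := by
        rw [setIntegral_const]
        simp
      unfold cauchyT
      rw [sub_neg_eq_add, a1, ← integral_const_mul, ← integral_add ((n03_int hZ ζ).const_mul ζ)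
        (integrableOn_const hZfin enorm_ne_top)]
      refine setIntegral_congr_fun hZ.measurableSet (fun ξ hξ => ?_)
      have h2 : ξ - ζ ≠ 0 := by
        intro h
        have h3 := hnorm ξ hξ
        rw [sub_eq_zero.1 h] at h3
        linarith
      field_simp
      ring
    rw [e1]
    have h4 : ∀ ξ ∈ Z, ‖ξ * (ξ - ζ)⁻¹‖ ≤ R' * (‖ζ‖ - R')⁻¹ := by
      intro ξ hξ
      have h5 := hnorm ξ hξ
      have h6 : ‖ζ‖ - R' ≤ ‖ξ - ζ‖ := by
        have := norm_sub_norm_le ζ ξ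
        rw [norm_sub_rev] at this
        linarith
      rw [norm_mul, norm_inv]
      exact mul_le_mul h5 (inv_anti₀ (by linarith) h6) (by positivity) hR'0
    have h7 := norm_setIntegral_le_of_norm_le_const (μ := volume) hZ.measure_lt_top h4
    refine h7.trans (le_of_eq (by ring))
  rw [tendsto_iff_norm_sub_tendsto_zero]
  have hlim : Tendsto (fun ζ : ℂ => R' * volume.real Z * (‖ζ‖ - R')⁻¹) (Filter.cocompact ℂ)
      (𝓝 0) := by
    have h8 : Tendsto (fun ζ : ℂ => ‖ζ‖ - R') (Filter.cocompact ℂ) atTop :=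
      tendsto_atTop_add_const_right _ _ (tendsto_norm_cocompact_atTop)
    have := (tendsto_inv_atTop_zero.comp h8).const_mul (R' * volume.real Z)
    simpa using this
  refine squeeze_zero' (Eventually.of_forall (fun ζ => norm_nonneg _)) ?_ hlim
  have h9 : ∀ᶠ ζ : ℂ in Filter.cocompact ℂ, R' < ‖ζ‖ :=
    tendsto_norm_cocompact_atTop.eventually (eventually_gt_atTop R')
  filter_upwards [h9] with ζ hζ using hb ζ hζ

end Pool.Agent.Lib.MP_e4ee3e_an
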