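import Pool.Agent.Lib.MP_e4ee3e_an.Setup

/-!
N04. Sector selection: the four closed sets of ξ in Z for which ((ξ-ζ)^2)^-1 lies in the four closed
quadrants cover Z; one of them, Z', has at least a quarter of the area; on Z' the real and imaginary
parts have constant signs so |integral| >= (1/2)(|Re| + |Im|) integrals >= (1/2) * integral of the
norm >= (1/2) vol(Z)/4 /(R+|ζ|)^2 . (Z compact, ζ not in Z: the integrand is continuous on Z.)
-/

open MeasureTheory Filter Topology

namespace Pool.Agent.Lib.MP_e4ee3e_an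

attribute [local instance] chMetric

/-- sign of a Boolean -/
noncomputable def n04_sg (b : Bool) : ℝ := if b then 1 else -1

lemma n04_sg_abs (b : Bool) : |n04_sg b| = 1 := by
  cases b <;> simp [n04_sg]

lemma n04_exists_sg (x : ℝ) : ∃ b, 0 ≤ n04_sg b * x := by
  rcases le_total 0 x with h | h
  · exact ⟨true, by simpa [n04_sg] using h⟩
  · exact ⟨false, by simpa [n04_sg] using h⟩

lemma n04_norm_le (z : ℂ) (a b : Bool) (ha : 0 ≤ n04_sg a * z.re) (hb : 0 ≤ n04_sg b * z.im) :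
    ‖z‖ ≤ n04_sg a * z.re + n04_sg b * z.im := by
  have h1 : |z.re| = n04_sg a * z.re := by
    rw [← abs_of_nonneg ha, abs_mul, n04_sg_abs, one_mul]
  have h2 : |z.im| = n04_sg b * z.im := by
    rw [← abs_of_nonneg hb, abs_mul, n04_sg_abs, one_mul]
  rw [← h1, ← h2]
  exact Complex.norm_le_abs_re_add_abs_im z

lemma n04_le_norm (z : ℂ) (a b : Bool) :
    n04_sg a * z.re + n04_sg b * z.im ≤ 2 * ‖z‖ := by
  have h1 : n04_sg a * z.re ≤ |z.re| := by
    refine (le_abs_self _).trans ?_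
    rw [abs_mul, n04_sg_abs, one_mul]
  have h2 : n04_sg b * z.im ≤ |z.im| := by
    refine (le_abs_self _).trans ?_
    rw [abs_mul, n04_sg_abs, one_mul]
  have h3 := Complex.abs_re_le_norm z
  have h4 := Complex.abs_im_le_norm z
  linarith

theorem sector_select {Z : Set ℂ} (hZ : IsCompact Z) {R : ℝ} (hR : 0 < R)
    (hZR : Z ⊆ Metric.closedBall 0 R) {ζ : ℂ} (hζ : ζ ∉ Z) :
    ∃ Z' : Set ℂ, Z' ⊆ Z ∧ IsCompact Z' ∧
      volume.real Z / (8 * (R + ‖ζ‖) ^ 2) ≤ ‖∫ ξ in Z', ((ξ - ζ) ^ 2)⁻¹‖ := by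
  set F : ℂ → ℂ := fun ξ => ((ξ - ζ) ^ 2)⁻¹ with hF
  have hne : ∀ ξ ∈ Z, (ξ - ζ) ^ 2 ≠ 0 := by
    intro ξ hξ h
    have h1 : ξ - ζ = 0 := by
      simpa using h
    rw [sub_eq_zero.1 h1] at hξ
    exact hζ hξ
  have hFc : ContinuousOn F Z := by
    apply ContinuousOn.inv₀ _ hne
    fun_prop
  set T : Bool × Bool → Set ℂ := fun p => {z : ℂ | 0 ≤ n04_sg p.1 * z.re ∧ 0 ≤ n04_sg p.2 * z.im}
    with hT
  have hTc : ∀ p, IsClosed (T p) := by
    intro p
    apply IsClosed.inter
    · exact isClosed_le continuous_const (continuous_const.mul Complex.continuous_re)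
    · exact isClosed_le continuous_const (continuous_const.mul Complex.continuous_im)
  set S : Bool × Bool → Set ℂ := fun p => Z ∩ F ⁻¹' (T p) with hS
  have hSc : ∀ p, IsCompact (S p) := by
    intro p
    apply hZ.of_isClosed_subset _ Set.inter_subset_left
    exact hFc.preimage_isClosed_of_isClosed hZ.isClosed (hTc p)
  have hcov : Z ⊆ ⋃ p, S p := by
    intro z hz
    obtain ⟨a, ha⟩ := n04_exists_sg (F z).re
    obtain ⟨b, hb⟩ := n04_exists_sg (F z).im
    exact Set.mem_iUnion.2 ⟨(a, b), hz, ha, hb⟩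
  have hfin : ∀ p, volume (S p) ≠ ⊤ := fun p => (hSc p).measure_lt_top.ne
  have hvol : volume.real Z ≤ ∑ p, volume.real (S p) := by
    refine (measureReal_mono hcov ?_).trans (measureReal_iUnion_fintype_le _)
    exact (isCompact_iUnion hSc).measure_lt_top.ne
  obtain ⟨p, hp⟩ : ∃ p, volume.real Z / 4 ≤ volume.real (S p) := by
    by_contra hc
    push Not at hc
    have h1 : ∑ p, volume.real (S p) < ∑ _p : Bool × Bool, volume.real Z / 4 :=
      Finset.sum_lt_sum_of_nonempty Finset.univ_nonempty fun p _ => hc p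
    have h2 : ∑ _p : Bool × Bool, volume.real Z / 4 = volume.real Z := by
      simp
      ring
    linarith
  refine ⟨S p, Set.inter_subset_left, hSc p, ?_⟩
  have hmS : MeasurableSet (S p) := (hSc p).isClosed.measurableSet
  have hint : IntegrableOn F (S p) :=
    (hFc.mono Set.inter_subset_left).integrableOn_compact (hSc p)
  set ell : ℂ →L[ℝ] ℝ := n04_sg p.1 • Complex.reCLM + n04_sg p.2 • Complex.imCLM with hell
  have hell' : ∀ z, ell z = n04_sg p.1 * z.re + n04_sg p.2 * z.im := by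
    intro z
    simp [hell]
  have h1 : ell (∫ ξ in S p, F ξ) ≤ 2 * ‖∫ ξ in S p, F ξ‖ := by
    rw [hell']
    exact n04_le_norm _ _ _
  have h2 : ell (∫ ξ in S p, F ξ) = ∫ ξ in S p, ell (F ξ) :=
    (ell.integral_comp_comm hint).symm
  have hR0 : 0 < R + ‖ζ‖ := by positivity
  have h3 : ∫ _ξ in S p, (1 / (R + ‖ζ‖) ^ 2 : ℝ) ≤ ∫ ξ in S p, ell (F ξ) := by
    apply setIntegral_mono_on _ (ell.integrable_comp hint) hmS
    · intro ξ hξ
      have h4 : ‖F ξ‖ ≤ ell (F ξ) := by
        rw [hell']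
        exact n04_norm_le _ _ _ hξ.2.1 hξ.2.2
      refine le_trans ?_ h4
      have h5 : ‖ξ - ζ‖ ≤ R + ‖ζ‖ := by
        have h6 : ‖ξ‖ ≤ R := by simpa using hZR hξ.1
        exact (norm_sub_le _ _).trans (by linarith)
      have h7 : 0 < ‖ξ - ζ‖ := by
        rw [norm_pos_iff]
        intro h8
        exact hne ξ hξ.1 (by rw [h8]; ring)
      rw [hF]
      simp only [norm_inv, norm_pow]
      rw [one_div]
      gcongr
    · exact integrableOn_const (hfin p)
  rw [setIntegral_const, smul_eq_mul] at h3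
  rw [h2] at h1
  have h9 : volume.real Z / 4 * (1 / (R + ‖ζ‖) ^ 2) ≤
      volume.real (S p) * (1 / (R + ‖ζ‖) ^ 2) := by
    gcongr
  have h10 : volume.real Z / (8 * (R + ‖ζ‖) ^ 2) =
      (volume.real Z / 4 * (1 / (R + ‖ζ‖) ^ 2)) / 2 := by
    field_simp
    ring
  rw [h10]
  have h11 : volume.real (S p) = volume.real (S p) := rfl
  linarith

end Pool.Agent.Lib.MP_e4ee3e_an
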