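import Pool.Agent.Lib.MP_e4ee3e_an.N03
import Pool.Agent.Lib.MP_e4ee3e_an.N04

/-!
N05. Local test function at a point ζ₀ of the sphere outside the compact set Z: H is the Cauchy
transform of Z' (from N04) if ζ₀ is finite, of Z if ζ₀ is infinity, with value 0 at infinity.
c₀ depends only on R and p: for ζ₀ finite, the ratio |H ζ - H ζ₀| / dist ζ ζ₀ tends to
|h'(ζ₀)| (1+|ζ₀|^2) >= p (1+|ζ₀|^2)/(8 (R+|ζ₀|)^2) >= p/(16 max(R,1)^2); for ζ₀ = infinity
|h(ζ)| / dist ζ infinity >= |ζ h(ζ)| tends to vol Z >= p.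
-/

open MeasureTheory Filter Topology

namespace Pool.Agent.Lib.MP_e4ee3e_an

/-- extension by `0` at infinity -/
noncomputable def n05_ext (h : ℂ → ℂ) (p : OnePoint ℂ) : ℂ :=
  match p with
  | OnePoint.infty => 0
  | OnePoint.some x => h x

@[simp] lemma n05_ext_coe (h : ℂ → ℂ) (x : ℂ) : n05_ext h (x : OnePoint ℂ) = h x := rfl
@[simp] lemma n05_ext_infty (h : ℂ → ℂ) : n05_ext h (OnePoint.infty) = 0 := rfl

lemma n05_tendsto_zero {Z : Set ℂ} (hZ : IsCompact Z) :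
    Tendsto (cauchyT Z) (Filter.cocompact ℂ) (𝓝 0) := by
  have h1 := cauchyT_infty hZ
  have h2 : Tendsto (fun ζ : ℂ => ζ⁻¹) (Filter.cocompact ℂ) (𝓝 0) :=
    tendsto_inv₀_cobounded.mono_left (by rw [Metric.cobounded_eq_cocompact])
  have h3 := h2.mul h1
  rw [zero_mul] at h3
  refine h3.congr' ?_
  have h4 : ∀ᶠ ζ : ℂ in Filter.cocompact ℂ, ζ ≠ 0 := by
    have := (isCompact_singleton (x := (0 : ℂ))).compl_mem_cocompact
    filter_upwards [this] with ζ hζ h0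
    exact hζ (by simp [h0])
  filter_upwards [h4] with ζ hζ
  field_simp

lemma n05_cont {Z : Set ℂ} (hZ : IsCompact Z) :
    ContinuousOn (n05_ext (cauchyT Z)) ((fun z : ℂ => (z : OnePoint ℂ)) '' Z)ᶜ := by
  intro p hp
  apply ContinuousAt.continuousWithinAt
  cases p using OnePoint.rec with
  | infty =>
    rw [OnePoint.continuousAt_infty', Filter.coclosedCompact_eq_cocompact]
    exact n05_tendsto_zero hZ
  | coe x =>
    rw [OnePoint.continuousAt_coe]
    have hx : x ∉ Z := fun h => hp ⟨x, h, rfl⟩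
    exact (cauchyT_hasDerivAt hZ hx).continuousAt

lemma n05_bound {C R : ℝ} (hC : 0 < C) (hb : ∀ (Z : Set ℂ) (ζ : ℂ), MeasurableSet Z →
    Z ⊆ Metric.closedBall 0 R → ‖cauchyT Z ζ‖ ≤ C) {Z : Set ℂ} (hZ : IsCompact Z)
    (hZR : Z ⊆ Metric.closedBall 0 R) (p : OnePoint ℂ) : ‖n05_ext (cauchyT Z) p‖ ≤ C := by
  cases p using OnePoint.rec with
  | infty => simpa using hC.le
  | coe x => exact hb Z x hZ.isClosed.measurableSet hZR

attribute [local instance] chMetric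

theorem test_function (R p : ℝ) (hR : 0 < R) (hp : 0 < p) :
    ∃ M c₀ : ℝ, 0 < M ∧ 0 < c₀ ∧ ∀ (Z : Set ℂ), IsCompact Z → Z ⊆ Metric.closedBall 0 R →
      p ≤ volume.real Z → ∀ ζ₀ : OnePoint ℂ, ζ₀ ∉ (fun z : ℂ => (z : OnePoint ℂ)) '' Z →
      ∃ H : OnePoint ℂ → ℂ, (∀ ζ, ‖H ζ‖ ≤ M) ∧
        ContinuousOn H ((fun z : ℂ => (z : OnePoint ℂ)) '' Z)ᶜ ∧
        (∀ z : ℂ, z ∉ Z → DifferentiableAt ℂ (fun z : ℂ => H (z : OnePoint ℂ)) z) ∧
        ∀ c : ℝ, c < c₀ → ∀ᶠ ζ in 𝓝 ζ₀, c * dist ζ ζ₀ ≤ ‖H ζ - H ζ₀‖ := by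
  obtain ⟨C, hC, hb⟩ := cauchyT_bound R
  have hmax : (1 : ℝ) ≤ max R 1 := le_max_right _ _
  refine ⟨C, p / (16 * (max R 1) ^ 2), hC, by positivity, ?_⟩
  intro Z hZ hZR hpZ ζ₀ hζ₀
  cases ζ₀ using OnePoint.rec with
  | infty =>
    refine ⟨n05_ext (cauchyT Z), n05_bound hC hb hZ hZR, n05_cont hZ, ?_, ?_⟩
    · intro z hz
      exact (cauchyT_hasDerivAt hZ hz).differentiableAt
    · intro c hc
      have hcp : c < p := by
        refine hc.trans_le ?_
        apply div_le_self hp.le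
        nlinarith
      rw [OnePoint.nhds_infty_eq, eventually_sup, eventually_map, eventually_pure,
        Filter.coclosedCompact_eq_cocompact]
      refine ⟨?_, by simp⟩
      have h1 := (cauchyT_infty hZ).norm
      rw [norm_neg, Complex.norm_real, Real.norm_of_nonneg measureReal_nonneg] at h1
      have h2 : ∀ᶠ ζ : ℂ in Filter.cocompact ℂ, c < ‖ζ * cauchyT Z ζ‖ :=
        h1.eventually (lt_mem_nhds (hcp.trans_le hpZ))
      have h4 : ∀ᶠ ζ : ℂ in Filter.cocompact ℂ, ζ ≠ 0 := by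
        have := (isCompact_singleton (x := (0 : ℂ))).compl_mem_cocompact
        filter_upwards [this] with ζ hζ h0
        exact hζ (by simp [h0])
      filter_upwards [h2, h4] with ζ hζ hζ0
      rw [dist_coe_infty, n05_ext_coe, n05_ext_infty, sub_zero]
      rw [norm_mul] at hζ
      have h5 : 0 < ‖ζ‖ := norm_pos_iff.2 hζ0
      rcases le_or_gt c 0 with hc0 | hc0
      · refine le_trans ?_ (norm_nonneg _)
        exact mul_nonpos_of_nonpos_of_nonneg hc0 (by positivity)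
      · have h6 : 1 / Real.sqrt (1 + ‖ζ‖ ^ 2) ≤ 1 / ‖ζ‖ := by
          apply one_div_le_one_div_of_le h5
          apply Real.le_sqrt_of_sq_le
          linarith
        calc c * (1 / Real.sqrt (1 + ‖ζ‖ ^ 2)) ≤ c * (1 / ‖ζ‖) := by gcongr
          _ ≤ ‖cauchyT Z ζ‖ := by
            rw [mul_one_div, div_le_iff₀ h5]
            linarith
  | coe z₀ =>
    have hz₀ : z₀ ∉ Z := fun h => hζ₀ ⟨z₀, h, rfl⟩
    obtain ⟨Z', hZ'Z, hZ'c, hZ'⟩ := sector_select hZ hR hZR hz₀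
    have hz₀' : z₀ ∉ Z' := fun h => hz₀ (hZ'Z h)
    refine ⟨n05_ext (cauchyT Z'), n05_bound hC hb hZ'c (hZ'Z.trans hZR), ?_, ?_, ?_⟩
    · exact (n05_cont hZ'c).mono (Set.compl_subset_compl.2 (Set.image_mono hZ'Z))
    · intro z hz
      exact (cauchyT_hasDerivAt hZ'c (fun h => hz (hZ'Z h))).differentiableAt
    · intro c hc
      rw [OnePoint.nhds_coe_eq, eventually_map]
      set D : ℂ := ∫ ξ in Z', ((ξ - z₀) ^ 2)⁻¹ with hD
      have hder : HasDerivAt (cauchyT Z') D z₀ := cauchyT_hasDerivAt hZ'c hz₀'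
      have hlow : c / (1 + ‖z₀‖ ^ 2) < ‖D‖ := by
        refine lt_of_lt_of_le ?_ hZ'
        have h1 : 0 < 1 + ‖z₀‖ ^ 2 := by positivity
        have h2 : 0 < R + ‖z₀‖ := by positivity
        rw [div_lt_iff₀ h1]
        refine hc.trans_le ?_
        rw [div_mul_eq_mul_div, div_le_div_iff₀ (by positivity) (by positivity)]
        have h3 : (R + ‖z₀‖) ^ 2 ≤ 2 * ((max R 1) ^ 2 * (1 + ‖z₀‖ ^ 2)) := by
          have h4 : R ≤ max R 1 := le_max_left _ _
          have h5 : 0 ≤ ‖z₀‖ := norm_nonneg _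
          have h6 : R ^ 2 ≤ (max R 1) ^ 2 := by gcongr
          have h7 : ‖z₀‖ ^ 2 ≤ (max R 1) ^ 2 * ‖z₀‖ ^ 2 := by
            have h8 : (1 : ℝ) ≤ (max R 1) ^ 2 := by nlinarith
            nlinarith [sq_nonneg ‖z₀‖]
          nlinarith [sq_nonneg (R - ‖z₀‖)]
        calc p * (8 * (R + ‖z₀‖) ^ 2) ≤ volume.real Z * (8 * (R + ‖z₀‖) ^ 2) := by gcongr
          _ ≤ volume.real Z * (8 * (2 * ((max R 1) ^ 2 * (1 + ‖z₀‖ ^ 2)))) := by
            have := measureReal_nonneg (μ := volume) (s := Z)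
            gcongr
          _ = volume.real Z * (1 + ‖z₀‖ ^ 2) * (16 * (max R 1) ^ 2) := by ring
      -- the factor in the chordal distance
      set k : ℂ → ℝ := fun x =>
        c / (Real.sqrt (1 + ‖x‖ ^ 2) * Real.sqrt (1 + ‖z₀‖ ^ 2)) with hk
      have hkc : ContinuousAt k z₀ := by
        have hpos : Real.sqrt (1 + ‖z₀‖ ^ 2) * Real.sqrt (1 + ‖z₀‖ ^ 2) ≠ 0 := by positivity
        have hden : ContinuousAt
            (fun x : ℂ => Real.sqrt (1 + ‖x‖ ^ 2) * Real.sqrt (1 + ‖z₀‖ ^ 2)) z₀ := by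
          fun_prop
        exact continuousAt_const.div hden hpos
      have hk0 : k z₀ = c / (1 + ‖z₀‖ ^ 2) := by
        rw [hk]
        simp only
        rw [Real.mul_self_sqrt (by positivity)]
      have hslope : Tendsto (fun x => ‖slope (cauchyT Z') z₀ x‖) (𝓝[≠] z₀) (𝓝 ‖D‖) :=
        (hasDerivAt_iff_tendsto_slope.1 hder).norm
      have hk1 : Tendsto k (𝓝[≠] z₀) (𝓝 (c / (1 + ‖z₀‖ ^ 2))) := by
        rw [← hk0]
        exact hkc.tendsto.mono_left nhdsWithin_le_nhds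
      have hev : ∀ᶠ x in 𝓝[≠] z₀, k x < ‖slope (cauchyT Z') z₀ x‖ :=
        hk1.eventually_lt hslope hlow
      rw [eventually_nhdsWithin_iff] at hev
      filter_upwards [hev] with x hx
      rw [dist_coe, n05_ext_coe, n05_ext_coe]
      by_cases hxz : x = z₀
      · subst hxz
        simp
      · have h1 := hx hxz
        have h2 : 0 < ‖x - z₀‖ := norm_pos_iff.2 (sub_ne_zero.2 hxz)
        rw [slope_def_field, norm_div, lt_div_iff₀ h2] at h1
        rw [hk] at h1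
        simp only at h1
        calc c * (‖x - z₀‖ / (Real.sqrt (1 + ‖x‖ ^ 2) * Real.sqrt (1 + ‖z₀‖ ^ 2))) =
            c / (Real.sqrt (1 + ‖x‖ ^ 2) * Real.sqrt (1 + ‖z₀‖ ^ 2)) * ‖x - z₀‖ := by ring
          _ ≤ _ := h1.le

end Pool.Agent.Lib.MP_e4ee3e_an
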