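import Pool.Agent.Lib.MP_e4ee3e_an.N01
import Pool.Agent.Lib.MP_e4ee3e_an.N05

/-!
N06. Normality lemma. Choose Z compact inside Z with area >= p/2 (inner regularity). For w₀ in
ball a (r/2) take H = test function at g w₀ (R replaced by max R 1, p by p/2). H o g is continuous
on ball a r and differentiable off the finite set F, hence holomorphic
(Complex.analyticAt_of_differentiable_on_punctured_nhds_of_continuousAt), bounded by M, so its
derivative at w₀ is at most 2M/r in norm (Cauchy estimate on circles of radius < r/2). Hence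
for M' > 2M/(r c₀): dist (g w) (g w₀) <= M' |w - w₀| for w near w₀. Conclude with N01 on
ball a (r/2).
-/

open MeasureTheory Filter Topology

namespace Pool.Agent.Lib.MP_e4ee3e_an

attribute [local instance] chMetric

/-- the composition of `g` with a test function is holomorphic -/
theorem n06_diff {a : ℂ} {r : ℝ} {g : ℂ → OnePoint ℂ} {G : ℂ → ℂ} {F Z : Set ℂ}
    (hF : F.Finite) (hg : ContinuousOn g (Metric.ball a r))
    (hG : ∀ w ∈ Metric.ball a r, w ∉ F → g w = ((G w : ℂ) : OnePoint ℂ) ∧ DifferentiableAt ℂ G w)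
    (hgZ : ∀ w ∈ Metric.ball a r, ∀ z ∈ Z, g w ≠ (z : OnePoint ℂ)) {H : OnePoint ℂ → ℂ}
    (hHc : ContinuousOn H ((fun z : ℂ => (z : OnePoint ℂ)) '' Z)ᶜ)
    (hHd : ∀ z : ℂ, z ∉ Z → DifferentiableAt ℂ (fun z : ℂ => H (z : OnePoint ℂ)) z) :
    DifferentiableOn ℂ (fun w => H (g w)) (Metric.ball a r) := by
  have hcont : ContinuousOn (fun w => H (g w)) (Metric.ball a r) := by
    refine hHc.comp hg ?_
    intro w hw h
    obtain ⟨z, hz, hzw⟩ := h
    exact hgZ w hw z hz hzw.symm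
  have hpt : ∀ w ∈ Metric.ball a r, w ∉ F → DifferentiableAt ℂ (fun w => H (g w)) w := by
    intro w hw hwF
    have hopen : IsOpen (Metric.ball a r \ F) := Metric.isOpen_ball.sdiff hF.isClosed
    have hev : (fun w => H (g w)) =ᶠ[𝓝 w] (fun w => H ((G w : ℂ) : OnePoint ℂ)) := by
      filter_upwards [hopen.mem_nhds ⟨hw, hwF⟩] with u hu
      rw [(hG u hu.1 hu.2).1]
    obtain ⟨h1, h2⟩ := hG w hw hwF
    have hGw : G w ∉ Z := fun hz => hgZ w hw (G w) hz h1
    have h3 : DifferentiableAt ℂ ((fun z : ℂ => H (z : OnePoint ℂ)) ∘ G) w :=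
      (hHd (G w) hGw).comp w h2
    exact h3.congr_of_eventuallyEq hev
  intro w hw
  have h1 : ∀ᶠ z in 𝓝[≠] w, DifferentiableAt ℂ (fun w => H (g w)) z := by
    have h2 : (F \ {w})ᶜ ∈ 𝓝 w :=
      (hF.subset Set.sdiff_subset).isClosed.isOpen_compl.mem_nhds (fun h => h.2 rfl)
    rw [eventually_nhdsWithin_iff]
    filter_upwards [h2, Metric.isOpen_ball.mem_nhds hw] with z hz1 hz2 hz3
    exact hpt z hz2 (fun hzF => hz1 ⟨hzF, hz3⟩)
  have h3 := Complex.analyticAt_of_differentiable_on_punctured_nhds_of_continuousAt h1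
    (hcont.continuousAt (Metric.isOpen_ball.mem_nhds hw))
  exact h3.differentiableAt.differentiableWithinAt

theorem n06_local {f : ℂ → ℂ} {w : ℂ} {K : ℝ} (hf : DifferentiableAt ℂ f w)
    (hK : ‖deriv f w‖ < K) : ∀ᶠ z in 𝓝 w, ‖f z - f w‖ ≤ K * ‖z - w‖ := by
  have h1 := hasDerivAt_iff_isLittleO.mp hf.hasDerivAt
  have h2 := h1.def (show 0 < K - ‖deriv f w‖ by linarith)
  filter_upwards [h2] with z hz
  have h3 : f z - f w = (f z - f w - (z - w) • deriv f w) + (z - w) • deriv f w := by ring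
  rw [h3]
  refine (norm_add_le _ _).trans ?_
  rw [norm_smul]
  nlinarith [norm_nonneg (z - w)]

theorem normality (R p : ℝ) (hp : 0 < p) :
    ∃ C : ℝ, 0 < C ∧ ∀ (a : ℂ) (r : ℝ) (g : ℂ → OnePoint ℂ) (G : ℂ → ℂ) (F Z : Set ℂ),
      0 < r → F.Finite → ContinuousOn g (Metric.ball a r) →
      (∀ w ∈ Metric.ball a r, w ∉ F → g w = ((G w : ℂ) : OnePoint ℂ) ∧ DifferentiableAt ℂ G w) →
      MeasurableSet Z → Z ⊆ Metric.closedBall 0 R → ENNReal.ofReal p ≤ volume Z →
      (∀ w ∈ Metric.ball a r, ∀ z ∈ Z, g w ≠ (z : OnePoint ℂ)) →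
      ∀ w ∈ Metric.ball a (r / 2), ∀ w' ∈ Metric.ball a (r / 2),
        dist (g w) (g w') ≤ C * ‖w - w'‖ / r := by
  obtain ⟨M, c₀, hM, hc₀, htest⟩ := test_function (max R 1) (p / 2) (by positivity) (by positivity)
  refine ⟨6 * M / c₀, by positivity, ?_⟩
  intro a r g G F Z hr hF hg hG hZm hZR hZp hgZ
  -- a compact subset
  have hlt : ENNReal.ofReal (p / 2) < volume Z :=
    lt_of_lt_of_le ((ENNReal.ofReal_lt_ofReal_iff hp).mpr (by linarith)) hZp
  obtain ⟨K, hKZ, hK, hKv⟩ := hZm.exists_lt_isCompact hlt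
  have hKR : K ⊆ Metric.closedBall 0 (max R 1) :=
    (hKZ.trans hZR).trans (Metric.closedBall_subset_closedBall (le_max_left _ _))
  have hKp : p / 2 ≤ volume.real K := by
    have h1 : volume K ≠ ⊤ := hK.measure_lt_top.ne
    exact (ENNReal.ofReal_le_iff_le_toReal h1).mp hKv.le
  have hgK : ∀ w ∈ Metric.ball a r, ∀ z ∈ K, g w ≠ (z : OnePoint ℂ) :=
    fun w hw z hz => hgZ w hw z (hKZ hz)
  have key : ∀ w ∈ Metric.ball a (r / 2), ∀ M' : ℝ, 6 * M / c₀ / r < M' →
      ∀ᶠ w' in 𝓝 w, dist (g w) (g w') ≤ M' * ‖w - w'‖ := by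
    intro w hw M' hM'
    have hwr : w ∈ Metric.ball a r := Metric.ball_subset_ball (by linarith) hw
    have hsub : Metric.ball w (r / 2) ⊆ Metric.ball a r := by
      intro z hz
      rw [Metric.mem_ball] at hz hw ⊢
      calc dist z a ≤ dist z w + dist w a := dist_triangle _ _ _
        _ < r / 2 + r / 2 := add_lt_add hz hw
        _ = r := by ring
    have hout : g w ∉ (fun z : ℂ => (z : OnePoint ℂ)) '' K := by
      rintro ⟨z, hz, hzw⟩
      exact hgK w hwr z hz hzw.symm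
    obtain ⟨H, hHM, hHc, hHd, hHl⟩ := htest K hK hKR hKp (g w) hout
    have hdiff := n06_diff hF hg hG hgK hHc hHd
    -- derivative bound by the Schwarz lemma
    have hder : ‖deriv (fun w => H (g w)) w‖ ≤ 3 * M / (r / 2) := by
      refine Complex.norm_deriv_le_div_of_mapsTo_ball (hdiff.mono hsub) ?_ (by linarith)
      intro z _
      rw [Metric.mem_closedBall, dist_eq_norm]
      calc ‖H (g z) - H (g w)‖ ≤ ‖H (g z)‖ + ‖H (g w)‖ := norm_sub_le _ _
        _ ≤ M + M := add_le_add (hHM _) (hHM _)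
        _ ≤ 3 * M := by linarith
    have hMr : 0 < M' := lt_trans (by positivity) hM'
    -- choose constants
    have h6 : 6 * M / r < M' * c₀ := by
      rw [div_div, div_lt_iff₀ (by positivity)] at hM'
      rw [div_lt_iff₀ hr]
      nlinarith
    obtain ⟨K1, hK1, hK2⟩ := exists_between h6
    have hc : K1 / M' < c₀ := by rw [div_lt_iff₀ hMr]; linarith
    have hK1pos : 0 < K1 := lt_trans (by positivity) hK1
    have h7 : ∀ᶠ z in 𝓝 w, ‖H (g z) - H (g w)‖ ≤ K1 * ‖z - w‖ := by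
      refine n06_local (f := fun w => H (g w))
        (hdiff.differentiableAt (Metric.isOpen_ball.mem_nhds hwr)) (lt_of_le_of_lt hder ?_)
      calc 3 * M / (r / 2) = 6 * M / r := by field_simp; ring
        _ < K1 := hK1
    have h8 : Tendsto g (𝓝 w) (𝓝 (g w)) := hg.continuousAt (Metric.isOpen_ball.mem_nhds hwr)
    have h9 := h8.eventually (hHl (K1 / M') hc)
    filter_upwards [h7, h9] with z hz1 hz2
    have h10 : K1 / M' * dist (g z) (g w) ≤ K1 * ‖z - w‖ := hz2.trans hz1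
    rw [dist_comm, norm_sub_rev]
    have h11 : K1 * dist (g z) (g w) ≤ K1 * (M' * ‖z - w‖) := by
      have h12 : K1 * dist (g z) (g w) = M' * (K1 / M' * dist (g z) (g w)) := by
        field_simp
      rw [h12]
      calc M' * (K1 / M' * dist (g z) (g w)) ≤ M' * (K1 * ‖z - w‖) :=
            mul_le_mul_of_nonneg_left h10 hMr.le
        _ = K1 * (M' * ‖z - w‖) := by ring
    exact le_of_mul_le_mul_left h11 hK1pos
  intro w hw w' hw'
  have h := lip_of_local g a (r / 2) (6 * M / c₀ / r) key w hw w' hw'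
  calc dist (g w) (g w') ≤ 6 * M / c₀ / r * ‖w - w'‖ := h
    _ = 6 * M / c₀ * ‖w - w'‖ / r := by ring

end Pool.Agent.Lib.MP_e4ee3e_an
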