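import Pool.Agent.Lib.MP_e4ee3e_an.Setup

/-!
S01. Chordal distance of two points given by homogeneous coordinates.
Proof: if b = 0 then ratio a b = infinity, hom = (1,0) and (a, b) = a * (1, 0) with a nonzero;
otherwise hom (ratio a b) = (a / b, 1) = b^-1 * (a, b). In all cases (a, b) = t * hom (ratio a b)
with t nonzero; wdg and nrm are homogeneous.
-/

open MeasureTheory Filter Topology

namespace Pool.Agent.Lib.MP_e4ee3e_an

attribute [local instance] chMetric

theorem s01_hom {a b : ℂ} (h : (a, b) ≠ (0, 0)) :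
    ∃ t : ℂ, t ≠ 0 ∧ a = t * (hom (ratio a b)).1 ∧ b = t * (hom (ratio a b)).2 := by
  unfold ratio
  by_cases hb : b = 0
  · refine ⟨a, ?_, ?_, ?_⟩
    · rintro rfl
      exact h (by rw [hb])
    · rw [if_pos hb]
      simp
    · rw [if_pos hb]
      simp [hb]
  · refine ⟨b, hb, ?_, ?_⟩
    · rw [if_neg hb]
      simp only [hom_coe]
      field_simp
    · rw [if_neg hb]
      simp

theorem s01_nrm (t : ℂ) (u : ℂ × ℂ) : nrm (t * u.1, t * u.2) = ‖t‖ * nrm u := by
  unfold nrm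
  rw [norm_mul, norm_mul, mul_pow, mul_pow, ← mul_add, Real.sqrt_mul (by positivity),
    Real.sqrt_sq (norm_nonneg t)]

theorem dist_ratio {a b a' b' : ℂ} (h : (a, b) ≠ (0, 0)) (h' : (a', b') ≠ (0, 0)) :
    dist (ratio a b) (ratio a' b') = ‖a * b' - b * a'‖ / (nrm (a, b) * nrm (a', b')) := by
  obtain ⟨t, ht, h1, h2⟩ := s01_hom h
  obtain ⟨s, hs, h3, h4⟩ := s01_hom h'
  rw [dist_eq_chd]
  unfold chd
  have hp := nrm_hom_pos (ratio a b)
  have hq := nrm_hom_pos (ratio a' b')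
  have e1 : nrm (a, b) = ‖t‖ * nrm (hom (ratio a b)) := by
    rw [← s01_nrm, ← h1, ← h2]
  have e2 : nrm (a', b') = ‖s‖ * nrm (hom (ratio a' b')) := by
    rw [← s01_nrm, ← h3, ← h4]
  have e3 : a * b' - b * a' = t * s * wdg (hom (ratio a b)) (hom (ratio a' b')) := by
    unfold wdg
    calc a * b' - b * a' = (t * (hom (ratio a b)).1) * (s * (hom (ratio a' b')).2) -
          (t * (hom (ratio a b)).2) * (s * (hom (ratio a' b')).1) := by
            rw [← h1, ← h2, ← h3, ← h4]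
      _ = _ := by ring
  rw [e1, e2, e3, norm_mul, norm_mul]
  have ht' : ‖t‖ ≠ 0 := norm_ne_zero_iff.2 ht
  have hs' : ‖s‖ ≠ 0 := norm_ne_zero_iff.2 hs
  field_simp

end Pool.Agent.Lib.MP_e4ee3e_an
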