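import Pool.Agent.Lib.MP_e4ee3e_an.LDefs
import Pool.Agent.Lib.MP_e4ee3e_an.L04
import Pool.Agent.Lib.MP_e4ee3e_an.Q1.CR
import Pool.Agent.Lib.MP_e4ee3e_an.Q1.TP
import Pool.Agent.Lib.MP_e4ee3e_an.Q1.MO

/-!
N07. Julia set and conjugacy; a finite critical point exists; quadratic maps are totally ramified
at their critical points; the multiplier is invariant.
-/

open MeasureTheory Filter Topology

namespace Pool.Agent.Lib.MP_e4ee3e_an

attribute [local instance] chMetric

/-- The Julia set is invariant under conjugacy. -/
theorem n07_julia_sub {f f' : OnePoint ℂ → OnePoint ℂ} (M : OnePoint ℂ ≃ₜ OnePoint ℂ)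
    (hM : ∀ x, f' (M x) = M (f x)) {x : OnePoint ℂ} (hx : M x ∉ julia f') : x ∉ julia f := by
  have hx' : ∃ U ∈ 𝓝 (M x), ∀ z ∈ U, ∀ ε : ℝ, 0 < ε → ∃ V ∈ 𝓝 z, ∀ w ∈ V, ∀ n : ℕ,
    chd (f'^[n] w) (f'^[n] z) < ε := not_not.1 hx
  obtain ⟨U, hU, hUz⟩ := hx'
  intro hc
  apply hc
  refine ⟨M ⁻¹' U, M.continuous.continuousAt.preimage_mem_nhds hU, ?_⟩
  intro z hz ε hε
  -- uniform continuity of the inverse
  have huc : UniformContinuous M.symm :=
    CompactSpace.uniformContinuous_of_continuous M.symm.continuous
  obtain ⟨δ, hδ, hδε⟩ := Metric.uniformContinuous_iff.1 huc ε hε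
  obtain ⟨V, hV, hVw⟩ := hUz (M z) hz δ hδ
  refine ⟨M ⁻¹' V, M.continuous.continuousAt.preimage_mem_nhds hV, ?_⟩
  intro w hw n
  have h1 := hVw (M w) hw n
  rw [Q1.iterate_conj M hM, Q1.iterate_conj M hM, ← dist_eq_chd] at h1
  have h2 := hδε h1
  rw [M.symm_apply_apply, M.symm_apply_apply, dist_eq_chd] at h2
  exact h2

theorem julia_conj {f f' : OnePoint ℂ → OnePoint ℂ} (M : OnePoint ℂ ≃ₜ OnePoint ℂ)
    (hM : ∀ x, f' (M x) = M (f x)) : julia f' = M '' julia f := by
  have hM' : ∀ x, f (M.symm x) = M.symm (f' x) := fun x => Q1.tp_symm M hM x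
  ext y
  constructor
  · intro hy
    refine ⟨M.symm y, ?_, M.apply_symm_apply y⟩
    by_contra hc
    exact n07_julia_sub M.symm hM' hc hy
  · rintro ⟨x, hx, rfl⟩
    by_contra hc
    exact n07_julia_sub M hM hc hx

open Polynomial in
/-- There is a finite zero of the Wronskian. -/
theorem exists_wronskian_zero {P Q : Polynomial ℂ} {d : ℕ} (h : RatData P Q d) :
    ∃ b : ℂ, (Polynomial.derivative P * Q - P * Polynomial.derivative Q).eval b = 0 := by
  by_contra hno
  push Not at hno
  set W := Polynomial.derivative P * Q - P * Polynomial.derivative Q with hW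
  have hd0 : W.degree = 0 := by
    by_contra hne
    obtain ⟨b, hb⟩ := IsAlgClosed.exists_root W hne
    exact hno b hb
  have hW' : Polynomial.derivative W = 0 := by
    rw [Polynomial.eq_C_of_degree_eq_zero hd0, Polynomial.derivative_C]
  have hW2 : Polynomial.derivative (Polynomial.derivative P) * Q =
      P * Polynomial.derivative (Polynomial.derivative Q) := by
    have h1 : Polynomial.derivative W = Polynomial.derivative (Polynomial.derivative P) * Q -
        P * Polynomial.derivative (Polynomial.derivative Q) := by
      rw [hW]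
      simp only [Polynomial.derivative_sub, Polynomial.derivative_mul]
      ring
    rw [hW'] at h1
    exact (sub_eq_zero.1 h1.symm)
  have key : ∀ R S : Polynomial ℂ, IsCoprime R S →
      Polynomial.derivative (Polynomial.derivative R) * S =
        R * Polynomial.derivative (Polynomial.derivative S) → R.natDegree ≤ 1 := by
    intro R S hRS he
    have hdvd : R ∣ Polynomial.derivative (Polynomial.derivative R) := by
      apply hRS.dvd_of_dvd_mul_right
      rw [he]
      exact dvd_mul_right _ _
    by_contra hlt
    push Not at hlt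
    have h2 : Polynomial.derivative (Polynomial.derivative R) = 0 := by
      apply Polynomial.eq_zero_of_dvd_of_natDegree_lt hdvd
      refine (Polynomial.natDegree_derivative_le _).trans_lt ?_
      have h3 := Polynomial.natDegree_derivative_le R
      omega
    have h3 := Polynomial.derivative_eq_zero.1 h2
    rw [Polynomial.natDegree_eq_zero] at h3
    obtain ⟨x, hx⟩ := h3
    have h5 : Polynomial.derivative (R - Polynomial.C x * Polynomial.X) = 0 := by
      rw [Polynomial.derivative_sub, ← hx]
      simp
    have h6 := Polynomial.derivative_eq_zero.1 h5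
    rw [Polynomial.natDegree_eq_zero] at h6
    obtain ⟨y, hy⟩ := h6
    have h7 : R = Polynomial.C x * Polynomial.X + Polynomial.C y := by
      rw [hy]
      ring
    have h8 : R.natDegree ≤ 1 := by
      rw [h7]
      exact Polynomial.natDegree_linear_le
    omega
  have h1 := key P Q h.cop hW2
  have h2 := key Q P h.cop.symm (by rw [mul_comm (Polynomial.derivative (Polynomial.derivative Q)) P, ← hW2, mul_comm])
  have h3 := h.deg
  have h4 := h.two
  omega

/-- A fibre of a quadratic map has at most two points. -/
theorem n07_fiber_two {P Q : Polynomial ℂ} (h : RatData P Q 2) {u v w y : OnePoint ℂ}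
    (hu : ratMap P Q u = y) (hv : ratMap P Q v = y) (hw : ratMap P Q w = y) (huv : u ≠ v)
    (hvw : v ≠ w) (huw : u ≠ w) : False := by
  set R : Polynomial ℂ := Polynomial.C (hom y).2 * P - Polynomial.C (hom y).1 * Q with hR
  have hfin := ratMap_fiber_finite h y
  have hval : ∀ z : ℂ, ratMap P Q (z : OnePoint ℂ) = y ↔ R.eval z = 0 := by
    intro z
    have e1 : R.eval z = (hom y).2 * P.eval z - (hom y).1 * Q.eval z := by
      simp [hR]
    have e2 : ratMap P Q (z : OnePoint ℂ) = ratio (P.eval z) (Q.eval z) := rfl
    have hne := s02_ne h z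
    rw [e1, e2]
    constructor
    · intro he
      rw [← he]
      unfold ratio
      split_ifs with hq
      · simp [hq]
      · simp only [hom_coe]
        field_simp
        ring
    · intro he
      cases y using OnePoint.rec with
      | infty =>
        simp only [hom_infty, zero_mul, one_mul, zero_sub, neg_eq_zero] at he
        simp [ratio, he]
      | coe y =>
        simp only [hom_coe, one_mul] at he
        have hq : Q.eval z ≠ 0 := by
          intro hq
          rw [hq, mul_zero, sub_zero] at he
          exact hne (by rw [he, hq]; rfl)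
        rw [ratio, if_neg hq]
        congr 1
        rw [div_eq_iff hq]
        linear_combination he
  have hR0 : R ≠ 0 := by
    intro h0
    have h1 : (Set.range fun z : ℂ => (z : OnePoint ℂ)) ⊆ {x | ratMap P Q x = y} := by
      rintro _ ⟨z, rfl⟩
      show ratMap P Q (z : OnePoint ℂ) = y
      rw [hval, h0, Polynomial.eval_zero]
    exact (Set.infinite_range_of_injective OnePoint.coe_injective) (hfin.subset h1)
  have hPd : P.natDegree ≤ 2 := h.deg ▸ le_max_left _ _
  have hQd : Q.natDegree ≤ 2 := h.deg ▸ le_max_right _ _
  have hRd : R.natDegree ≤ 2 := by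
    refine (Polynomial.natDegree_sub_le _ _).trans (max_le ?_ ?_)
    · exact (Polynomial.natDegree_C_mul_le _ _).trans hPd
    · exact (Polynomial.natDegree_C_mul_le _ _).trans hQd
  have hinf : ratMap P Q OnePoint.infty = y → R.natDegree ≤ 1 := by
    intro he
    have e2 : ratMap P Q OnePoint.infty = ratio (P.coeff 2) (Q.coeff 2) := by
      show ratio (P.coeff (max P.natDegree Q.natDegree)) (Q.coeff (max P.natDegree Q.natDegree)) = _
      rw [h.deg]
    have hc : R.coeff 2 = 0 := by
      have e1 : R.coeff 2 = (hom y).2 * P.coeff 2 - (hom y).1 * Q.coeff 2 := by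
        rw [hR, Polynomial.coeff_sub, Polynomial.coeff_C_mul, Polynomial.coeff_C_mul]
      rw [e1, ← he, e2]
      unfold ratio
      split_ifs with hq
      · simp [hq]
      · simp only [hom_coe]
        field_simp
        ring
    by_contra hlt
    push Not at hlt
    have h2 : R.natDegree = 2 := le_antisymm hRd hlt
    apply hR0
    rw [← Polynomial.leadingCoeff_eq_zero, Polynomial.leadingCoeff, h2]
    exact hc
  have hroots := Polynomial.card_roots' R
  -- two finite points and infinity
  have two : ∀ p q : ℂ, p ≠ q → ratMap P Q (p : OnePoint ℂ) = y → ratMap P Q (q : OnePoint ℂ) = y →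
      2 ≤ R.natDegree := by
    intro p q hpq hp hq
    have hsub : ({p, q} : Finset ℂ) ⊆ R.roots.toFinset := by
      intro z hz
      rw [Finset.mem_insert, Finset.mem_singleton] at hz
      rw [Multiset.mem_toFinset, Polynomial.mem_roots hR0]
      rcases hz with rfl | rfl
      · exact (hval _).1 hp
      · exact (hval _).1 hq
    have h1 := Finset.card_le_card hsub
    rw [Finset.card_pair hpq] at h1
    have h2 := Multiset.toFinset_card_le R.roots
    omega
  have three : ∀ p q r : ℂ, p ≠ q → q ≠ r → p ≠ r → ratMap P Q (p : OnePoint ℂ) = y →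
      ratMap P Q (q : OnePoint ℂ) = y → ratMap P Q (r : OnePoint ℂ) = y → False := by
    intro p q r hpq hqr hpr hp hq hr
    have hsub : ({p, q, r} : Finset ℂ) ⊆ R.roots.toFinset := by
      intro z hz
      rw [Finset.mem_insert, Finset.mem_insert, Finset.mem_singleton] at hz
      rw [Multiset.mem_toFinset, Polynomial.mem_roots hR0]
      rcases hz with rfl | rfl | rfl
      · exact (hval _).1 hp
      · exact (hval _).1 hq
      · exact (hval _).1 hr
    have h1 := Finset.card_le_card hsub
    have h3 : ({p, q, r} : Finset ℂ).card = 3 := by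
      rw [Finset.card_eq_three]
      exact ⟨p, q, r, hpq, hpr, hqr, rfl⟩
    have h2 := Multiset.toFinset_card_le R.roots
    omega
  cases u using OnePoint.rec with
  | infty =>
    cases v using OnePoint.rec with
    | infty => exact huv rfl
    | coe v =>
      cases w using OnePoint.rec with
      | infty => exact huw rfl
      | coe w =>
        have h1 := two v w (fun e => hvw (by rw [e])) hv hw
        have h2 := hinf hu
        omega
  | coe u =>
    cases v using OnePoint.rec with
    | infty =>
      cases w using OnePoint.rec with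
      | infty => exact hvw rfl
      | coe w =>
        have h1 := two u w (fun e => huw (by rw [e])) hu hw
        have h2 := hinf hv
        omega
    | coe v =>
      cases w using OnePoint.rec with
      | infty =>
        have h1 := two u v (fun e => huv (by rw [e])) hu hv
        have h2 := hinf hw
        omega
      | coe w =>
        exact three u v w (fun e => huv (by rw [e])) (fun e => hvw (by rw [e]))
          (fun e => huw (by rw [e])) hu hv hw

/-- Critical points of a quadratic map are totally ramified. -/
theorem quadratic_totRam {P Q : Polynomial ℂ} (h : RatData P Q 2) {c : OnePoint ℂ}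
    (hc : IsCritPt (ratMap P Q) c) {z : OnePoint ℂ} (hz : ratMap P Q z = ratMap P Q c) : z = c := by
  by_contra hne
  obtain ⟨U, V, hU, hV, hcU, hzV, hUV⟩ := t2_separation (Ne.symm hne)
  have hop := ratMap_isOpenMap h
  have h1 : ratMap P Q '' V ∈ 𝓝 (ratMap P Q c) := by
    rw [← hz]
    exact (hop V hV).mem_nhds ⟨z, hzV, rfl⟩
  have h2 : U ∩ ratMap P Q ⁻¹' (ratMap P Q '' V) ∈ 𝓝 c :=
    Filter.inter_mem (hU.mem_nhds hcU) ((ratMap_continuous h).continuousAt.preimage_mem_nhds h1)
  have h3 := hc _ h2
  unfold Set.InjOn at h3
  push Not at h3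
  obtain ⟨u, hu, u', hu', he, hne'⟩ := h3
  obtain ⟨v, hv, hve⟩ := hu.2
  have huv : u ≠ v := fun e => Set.disjoint_left.1 hUV hu.1 (e ▸ hv)
  have huv' : u' ≠ v := fun e => Set.disjoint_left.1 hUV hu'.1 (e ▸ hv)
  exact n07_fiber_two h (y := ratMap P Q u) rfl he.symm hve hne' huv' huv

end Pool.Agent.Lib.MP_e4ee3e_an
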