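import Pool.Agent.Lib.MP_e4ee3e_an.N07

/-!
N08. Conjugation by the Moebius map 1 / (x - b), explicit form, and invariance of the multiplier.
-/

open MeasureTheory Filter Topology

namespace Pool.Agent.Lib.MP_e4ee3e_an

open Q1

open Polynomial in
theorem exists_conj_explicit {P Q : Polynomial ℂ} {d : ℕ} (h : RatData P Q d) (b : ℂ) :
    ∃ (P' Q' : Polynomial ℂ), RatData P' Q' d ∧
      (∀ x, ratMap P' Q' (mo_homeo b x) = mo_homeo b (ratMap P Q x)) ∧
      ∀ w : ℂ, w ≠ 0 → P'.eval w = w ^ d * Q.eval (w⁻¹ + b) ∧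
        Q'.eval w = w ^ d * (P.eval (w⁻¹ + b) - b * Q.eval (w⁻¹ + b)) := by
  have hPd : P.natDegree ≤ d := h.deg ▸ le_max_left _ _
  have hQd : Q.natDegree ≤ d := h.deg ▸ le_max_right _ _
  have hRd : (P - C b * Q).natDegree ≤ d := by
    refine (Polynomial.natDegree_sub_le _ _).trans (max_le hPd ?_)
    refine Polynomial.natDegree_mul_le.trans ?_
    rw [Polynomial.natDegree_C]
    omega
  have hRe (x : ℂ) : (P - C b * Q).eval x = P.eval x - b * Q.eval x := by
    rw [Polynomial.eval_sub, Polynomial.eval_mul, Polynomial.eval_C]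
  have hRc : (P - C b * Q).coeff d = P.coeff d - b * Q.coeff d := by
    rw [Polynomial.coeff_sub, Polynomial.coeff_C_mul]
  set P' : Polynomial ℂ := reflect d (Q.comp (X + C b)) with hP'
  set Q' : Polynomial ℂ := reflect d ((P - C b * Q).comp (X + C b)) with hQ'
  have hP'd : P'.natDegree ≤ d := by
    refine (Polynomial.natDegree_reflect_le).trans (max_le le_rfl ?_)
    rw [mo_comp_natDegree]
    exact hQd
  have hQ'd : Q'.natDegree ≤ d := by
    refine (Polynomial.natDegree_reflect_le).trans (max_le le_rfl ?_)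
    rw [mo_comp_natDegree]
    exact hRd
  have hP'c : P'.coeff d = Q.eval b := mo_coeff_top d Q b
  have hQ'c : Q'.coeff d = P.eval b - b * Q.eval b := by
    rw [hQ', mo_coeff_top, hRe]
  have hdeg : max P'.natDegree Q'.natDegree = d := by
    apply le_antisymm (max_le hP'd hQ'd)
    by_contra hlt
    rw [not_le, max_lt_iff] at hlt
    have h1 : P'.coeff d = 0 := Polynomial.coeff_eq_zero_of_natDegree_lt hlt.1
    have h2 : Q'.coeff d = 0 := Polynomial.coeff_eq_zero_of_natDegree_lt hlt.2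
    rw [hP'c] at h1
    rw [hQ'c, h1, mul_zero, sub_zero] at h2
    exact s05_no_common_zero h.cop b h2 h1
  have hcop : IsCoprime P' Q' := by
    rw [Polynomial.isCoprime_iff_aeval_ne_zero_of_isAlgClosed ℂ ℂ]
    intro w
    rw [Polynomial.coe_aeval_eq_eval]
    by_contra hno
    rw [not_or, not_not, not_not] at hno
    obtain ⟨h1, h2⟩ := hno
    by_cases hw : w = 0
    · rw [hw] at h1 h2
      rw [hP', mo_eval_zero hQd] at h1
      rw [hQ', mo_eval_zero hRd, hRc, h1, mul_zero, sub_zero] at h2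
      exact mo_coeff_ne h (by rw [h1, h2])
    · rw [hP', mo_eval_other hQd b hw] at h1
      rw [hQ', mo_eval_other hRd b hw, hRe] at h2
      have h3 : Q.eval (w⁻¹ + b) = 0 := by
        rcases mul_eq_zero.1 h1 with h | h
        · exact absurd h (pow_ne_zero _ hw)
        · exact h
      have h4 : P.eval (w⁻¹ + b) = 0 := by
        rcases mul_eq_zero.1 h2 with h | h
        · exact absurd h (pow_ne_zero _ hw)
        · rw [h3, mul_zero, sub_zero] at h
          exact h
      exact s05_no_common_zero h.cop _ h4 h3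
  refine ⟨P', Q', ⟨hcop, hdeg, h.two⟩, ?_, ?_⟩
  · intro x
    rw [mo_homeo_apply, mo_homeo_apply]
    cases x using OnePoint.rec with
    | infty =>
      have e1 : mo_M b OnePoint.infty = ((0 : ℂ) : OnePoint ℂ) := by
        simp [mo_M, ratio]
      have e2 : ratMap P Q OnePoint.infty = ratio (P.coeff d) (Q.coeff d) := by
        show ratio (P.coeff (max P.natDegree Q.natDegree))
          (Q.coeff (max P.natDegree Q.natDegree)) = _
        rw [h.deg]
      rw [e1, e2, mo_M_ratio b (mo_coeff_ne h)]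
      show ratio (P'.eval 0) (Q'.eval 0) = _
      rw [hP', mo_eval_zero hQd, hQ', mo_eval_zero hRd, hRc]
    | coe x =>
      have e2 : ratMap P Q (x : OnePoint ℂ) = ratio (P.eval x) (Q.eval x) := rfl
      rw [e2, mo_M_ratio b (mo_eval_ne h.cop x)]
      by_cases hx : x = b
      · have e1 : mo_M b (x : OnePoint ℂ) = OnePoint.infty := by
          rw [hx]
          simp [mo_M, ratio]
        rw [e1]
        show ratio (P'.coeff (max P'.natDegree Q'.natDegree))
          (Q'.coeff (max P'.natDegree Q'.natDegree)) = _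
        rw [hdeg, hP'c, hQ'c, hx]
      · have hxb : x - b ≠ 0 := sub_ne_zero.2 hx
        have e1 : mo_M b (x : OnePoint ℂ) = (((x - b)⁻¹ : ℂ) : OnePoint ℂ) := by
          simp [mo_M, ratio, hxb]
        rw [e1]
        show ratio (P'.eval (x - b)⁻¹) (Q'.eval (x - b)⁻¹) = _
        have hw : (x - b)⁻¹ ≠ 0 := inv_ne_zero hxb
        rw [hP', mo_eval_other hQd b hw, hQ', mo_eval_other hRd b hw, inv_inv, sub_add_cancel, hRe,
          mo_ratio_mul (pow_ne_zero _ hw)]
  · intro w hw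
    rw [hP', mo_eval_other hQd b hw, hQ', mo_eval_other hRd b hw, hRe]
    exact ⟨rfl, rfl⟩

theorem n08_homeo_coe {b x : ℂ} (hx : x ≠ b) :
    mo_homeo b (x : OnePoint ℂ) = (((x - b)⁻¹ : ℂ) : OnePoint ℂ) := by
  rw [mo_homeo_apply]
  simp [mo_M, ratio, sub_ne_zero.2 hx]

theorem n08_homeo_self (b : ℂ) : mo_homeo b (b : OnePoint ℂ) = OnePoint.infty := by
  rw [mo_homeo_apply]
  simp [mo_M, ratio]

/-- Invariance of the multiplier. -/
theorem n08_deriv {P Q P' Q' : Polynomial ℂ} {d : ℕ} {a b : ℂ} (hab : a ≠ b)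
    (hQa : Q.eval a ≠ 0) (hfa : P.eval a / Q.eval a = a)
    (hev : ∀ w : ℂ, w ≠ 0 → P'.eval w = w ^ d * Q.eval (w⁻¹ + b) ∧
        Q'.eval w = w ^ d * (P.eval (w⁻¹ + b) - b * Q.eval (w⁻¹ + b))) :
    deriv (fun z => P'.eval z / Q'.eval z) (a - b)⁻¹ = deriv (fun z => P.eval z / Q.eval z) a := by
  set w₀ : ℂ := (a - b)⁻¹ with hw₀
  have hab' : a - b ≠ 0 := sub_ne_zero.2 hab
  have hw0 : w₀ ≠ 0 := inv_ne_zero hab'
  have hback : w₀⁻¹ + b = a := by
    rw [hw₀, inv_inv]
    ring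
  set F : ℂ → ℂ := fun z => P.eval z / Q.eval z with hF
  have hFd : DifferentiableAt ℂ F a := by
    exact P.differentiable.differentiableAt.div Q.differentiable.differentiableAt hQa
  have hFa : F a = a := hfa
  -- the local formula
  have hcont : ContinuousAt (fun w : ℂ => Q.eval (w⁻¹ + b)) w₀ := by
    have h1 : ContinuousAt (fun w : ℂ => w⁻¹ + b) w₀ :=
      (continuousAt_inv₀ hw0).add continuousAt_const
    exact (Q.continuous.continuousAt).comp h1
  have hev1 : ∀ᶠ w in 𝓝 w₀, Q.eval (w⁻¹ + b) ≠ 0 := by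
    apply hcont.eventually_ne
    rw [hback]
    exact hQa
  have hev2 : ∀ᶠ w in 𝓝 w₀, w ≠ 0 := eventually_ne_nhds hw0
  have heq : (fun w => P'.eval w / Q'.eval w) =ᶠ[𝓝 w₀] fun w => (F (w⁻¹ + b) - b)⁻¹ := by
    filter_upwards [hev1, hev2] with w h1 h2
    obtain ⟨e1, e2⟩ := hev w h2
    rw [e1, e2]
    have h3 : w ^ d ≠ 0 := pow_ne_zero _ h2
    have h4 : P.eval (w⁻¹ + b) - b * Q.eval (w⁻¹ + b) = Q.eval (w⁻¹ + b) * (F (w⁻¹ + b) - b) := by
      rw [hF]
      generalize w⁻¹ + b = u at h1 ⊢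
      field_simp
    rw [h4, mul_div_mul_left _ _ h3]
    rw [← div_div, div_self h1, one_div]
  rw [heq.deriv_eq]
  have hin : HasDerivAt (fun w : ℂ => w⁻¹ + b) (-(w₀ ^ 2)⁻¹) w₀ := by
    simpa using (hasDerivAt_inv hw0).add_const b
  have hF1 : HasDerivAt F (deriv F a) (w₀⁻¹ + b) := by
    rw [hback]
    exact hFd.hasDerivAt
  have hcomp : HasDerivAt (fun w : ℂ => F (w⁻¹ + b)) (deriv F a * -(w₀ ^ 2)⁻¹) w₀ := by
    have h7 : HasDerivAt (F ∘ fun w : ℂ => w⁻¹ + b) (deriv F a * -(w₀ ^ 2)⁻¹) w₀ :=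
      HasDerivAt.comp (h₂ := F) w₀ hF1 hin
    exact h7
  have hne : F (w₀⁻¹ + b) - b ≠ 0 := by
    rw [hback, hFa]
    exact hab'
  have hinv := (hcomp.sub_const b).inv hne
  have h5 := hinv.deriv
  have h6 : (fun w => (F (w⁻¹ + b) - b)⁻¹) = (fun w => F (w⁻¹ + b) - b)⁻¹ := rfl
  rw [h6, h5, hback, hFa, hw₀]
  field_simp

end Pool.Agent.Lib.MP_e4ee3e_an
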