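import Pool.Agent.Lib.MP_e4ee3e_an.N08
import Pool.Agent.Lib.MP_e4ee3e_an.K06
import Pool.Agent.Lib.MP_e4ee3e_an.L13
import Pool.Agent.Lib.MP_e4ee3e_an.L14
import Pool.Agent.Lib.MP_e4ee3e_an.L18
import Pool.Agent.Lib.MP_e4ee3e_an.Q1.CO

/-!
N09. Question Q1 for all rational maps whose critical points are totally ramified (all quadratic
maps, all maps with two critical points), with an attracting, parabolic or Cremer fixed point.
-/

open MeasureTheory Filter Topology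

namespace Pool.Agent.Lib.MP_e4ee3e_an

open Q1

theorem spread_codes {P Q : Polynomial ℂ} {d : ℕ} (h : RatData P Q d) (a : ℂ)
    (hfa : ratMap P Q (a : OnePoint ℂ) = (a : OnePoint ℂ))
    (hav : ∀ n, AvoidN P Q n (a : OnePoint ℂ)) (hs : Spreads P Q a)
    [MeasurableSpace (OnePoint ℂ)] [BorelSpace (OnePoint ℂ)] :
    Codes (ratMap P Q) d (a : OnePoint ℂ) (julia (ratMap P Q)) := by
  let _ := chMetric
  obtain ⟨a', hne, hfa', hξ₀⟩ := exists_start_gen h a hfa hav
  have hsep : TopologicalSpace.SeparableSpace (OnePoint ℂ) := inferInstance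
  obtain ⟨q, hq⟩ := TopologicalSpace.exists_dense_seq (OnePoint ℂ)
  let U : ℕ → Set (OnePoint ℂ) := fun k => Metric.ball (q k.unpair.1) (1 / (k.unpair.2 + 1))
  let G : Set ℕ := {k | (U k ∩ julia (ratMap P Q)).Nonempty}
  obtain ⟨γ, hγ, hγ0, hγ1, hγt⟩ := engine h a a' hav hfa hfa' G U hξ₀ (by
    intro k hk ξ hξ h0 h1 N y hy ε hε
    obtain ⟨x, hxO, hxJ⟩ := hk
    obtain ⟨ξ', n, hn, h2, h3, h4, h5, h6⟩ :=
      one_step_gen h a hfa hav hs hxJ (Metric.isOpen_ball.mem_nhds hxO) hξ h0 (by rw [h1, hfa'])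
        N hy ε hε
    exact ⟨ξ', n, hn, h2, h3, h4.trans h1, h5, h6⟩)
  refine codes_of_wild h hfa (good_iff.2 ⟨OnePoint.coe_ne_infty a, hav⟩) hne hfa' hγ hγ0 hγ1 _ ?_
  intro w O hO hOJ
  obtain ⟨x, hxO, hxJ⟩ := hOJ
  obtain ⟨ε, hε, hεO⟩ := Metric.isOpen_iff.1 hO x hxO
  obtain ⟨n, hn⟩ := exists_nat_one_div_lt (show (0:ℝ) < ε / 2 by positivity)
  have hpos : (0:ℝ) < 1 / ((n:ℝ) + 1) := by positivity
  obtain ⟨i, hi⟩ := Metric.denseRange_iff.1 hq x (1 / ((n:ℝ) + 1)) hpos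
  have hmem : x ∈ U (Nat.pair i n) := by
    simp only [U, Nat.unpair_pair]
    exact Metric.mem_ball.2 hi
  have hsub : U (Nat.pair i n) ⊆ O := by
    intro y hy
    apply hεO
    simp only [U, Nat.unpair_pair, Metric.mem_ball] at hy ⊢
    have h6 := dist_triangle_right y x (q i)
    linarith
  obtain ⟨M, hM⟩ := hγt w (Nat.pair i n) ⟨x, hmem, hxJ⟩
  exact ⟨M, fun α hα => hsub (hM α hα)⟩

theorem critical_main {P Q : Polynomial ℂ} {d : ℕ} (h : RatData P Q d)
    (hbi : ∀ c, IsCritPt (ratMap P Q) c → ∀ z, ratMap P Q z = ratMap P Q c → z = c) (a : ℂ)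
    (hfa : ratMap P Q (a : OnePoint ℂ) = (a : OnePoint ℂ))
    (hcrit : ∀ c, IsCritPt (ratMap P Q) c → ∀ n : ℕ, 1 ≤ n →
      (ratMap P Q)^[n] c ≠ (a : OnePoint ℂ))
    (hle : ‖deriv (fun z => P.eval z / Q.eval z) a‖ ≤ 1)
    (hJ : ‖deriv (fun z => P.eval z / Q.eval z) a‖ = 1 → (a : OnePoint ℂ) ∈ julia (ratMap P Q))
    [MeasurableSpace (OnePoint ℂ)] [BorelSpace (OnePoint ℂ)] :
    Codes (ratMap P Q) d (a : OnePoint ℂ) (julia (ratMap P Q)) := by
  obtain ⟨b, hb⟩ := exists_wronskian_zero h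
  have hbc : IsCritPt (ratMap P Q) (b : OnePoint ℂ) := isCritPt_of_wronskian h hb
  have hab : a ≠ b := by
    rintro rfl
    exact hcrit _ hbc 1 le_rfl hfa
  obtain ⟨P', Q', hR', hconj, hev⟩ := exists_conj_explicit h b
  set M := mo_homeo b with hM
  set w₀ : ℂ := (a - b)⁻¹ with hw₀
  have hMa : M (a : OnePoint ℂ) = (w₀ : OnePoint ℂ) := n08_homeo_coe hab
  have hMb : M (b : OnePoint ℂ) = OnePoint.infty := n08_homeo_self b
  have hf'a : ratMap P' Q' (w₀ : OnePoint ℂ) = (w₀ : OnePoint ℂ) := by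
    rw [← hMa, hconj, hfa]
  -- marked points of the conjugate are critical
  have hmk : ∀ c' ∈ marked P' Q', ∃ c, IsCritPt (ratMap P Q) c ∧ M c = c' := by
    rintro c' (hc' | ⟨y, hy, hy0⟩)
    · exact ⟨(b : OnePoint ℂ), hbc, by rw [hMb, hc']⟩
    · have h1 : IsCritPt (ratMap P' Q') c' := by
        rw [hy]
        exact isCritPt_of_wronskian hR' hy0
      refine ⟨M.symm c', ?_, M.apply_symm_apply c'⟩
      rw [← isCritPt_conj M hconj, M.apply_symm_apply]
      exact h1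
  have htot : TotRam P' Q' := by
    intro c' hc' z' hz'
    obtain ⟨c, hc, rfl⟩ := hmk c' hc'
    obtain ⟨z, rfl⟩ := M.surjective z'
    rw [hconj, hconj] at hz'
    rw [hbi c hc z (M.injective hz')]
  have hav' : ∀ n, AvoidN P' Q' n (w₀ : OnePoint ℂ) := by
    intro n k hk _ c' hc' he
    obtain ⟨c, hc, rfl⟩ := hmk c' hc'
    rw [iterate_conj M hconj, ← hMa] at he
    exact hcrit c hc k hk (M.injective he)
  have hQa : Q.eval a ≠ 0 := by
    intro h0
    have h1 : ratMap P Q (a : OnePoint ℂ) = ratio (P.eval a) (Q.eval a) := rfl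
    rw [h1, ratio, if_pos h0] at hfa
    exact OnePoint.infty_ne_coe a hfa
  have hfa0 : P.eval a / Q.eval a = a := by
    have h1 : ratMap P Q (a : OnePoint ℂ) = ratio (P.eval a) (Q.eval a) := rfl
    rw [h1, ratio, if_neg hQa] at hfa
    exact OnePoint.coe_injective hfa
  have hder := n08_deriv (P' := P') (Q' := Q') hab hQa hfa0 hev
  have hjul : julia (ratMap P' Q') = M '' julia (ratMap P Q) := julia_conj M hconj
  have hs := spreads_of_totRam hR' htot w₀ hf'a hav' (by rw [hder]; exact hle) (by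
    rw [hder]
    intro h1
    rw [hjul]
    exact ⟨(a : OnePoint ℂ), hJ h1, hMa⟩)
  have hcodes := spread_codes hR' w₀ hf'a hav' hs
  rw [hjul, ← hMa] at hcodes
  exact codes_of_conj M hconj hcodes

/-- From measures to points. -/
theorem point_of_codes {f : OnePoint ℂ → OnePoint ℂ} {d : ℕ} (T : CodingTree f d)
    {F : Set (OnePoint ℂ)} [MeasurableSpace (OnePoint ℂ)] [BorelSpace (OnePoint ℂ)]
    (hT : ∀ m : Measure (OnePoint ℂ), IsProbabilityMeasure m → m Fᶜ = 0 →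
      ∃ μ : Measure (ℕ → Fin d), IsProbabilityMeasure μ ∧ μ T.domainᶜ = 0 ∧
        μ.map T.codingMap = m) {x : OnePoint ℂ} (hx : x ∈ F) :
    ∃ ω, Tendsto (fun n => T.vertex n ω) atTop (𝓝 x) := by
  have hm : IsProbabilityMeasure (Measure.dirac x) := inferInstance
  have hsing : MeasurableSet ({x} : Set (OnePoint ℂ)) := (T1Space.t1 x).measurableSet
  have h0 : (Measure.dirac x) Fᶜ = 0 := by
    have h1 : Fᶜ ⊆ ({x} : Set (OnePoint ℂ))ᶜ := by
      intro y hy hyx
      rw [Set.mem_singleton_iff] at hyx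
      exact hy (hyx ▸ hx)
    refine measure_mono_null h1 ?_
    rw [Measure.dirac_apply' x hsing.compl]
    simp
  obtain ⟨μ, hμ, hdom, hmap⟩ := hT _ hm h0
  have hae : AEMeasurable T.codingMap μ := by
    by_contra hcon
    rw [Measure.map_of_not_aemeasurable hcon] at hmap
    have h1 : (Measure.dirac x) Set.univ = 1 := hm.measure_univ
    rw [← hmap] at h1
    simp at h1
  have h2 : μ (T.codingMap ⁻¹' {x}) = 1 := by
    rw [← Measure.map_apply_of_aemeasurable hae hsing, hmap, Measure.dirac_apply' x hsing]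
    simp
  have h3 : ¬ (T.domain ∩ T.codingMap ⁻¹' {x} = ∅) := by
    intro he
    have h4 : T.codingMap ⁻¹' {x} ⊆ T.domainᶜ := by
      intro ω hω hωd
      have : ω ∈ T.domain ∩ T.codingMap ⁻¹' {x} := ⟨hωd, hω⟩
      rw [he] at this
      exact this
    have h5 := measure_mono_null h4 hdom
    rw [h5] at h2
    exact zero_ne_one h2
  obtain ⟨ω, hωd, hω⟩ := Set.nonempty_iff_ne_empty.2 h3
  obtain ⟨y, hy⟩ := hωd
  refine ⟨ω, ?_⟩
  have h6 : T.codingMap ω = y := hy.limUnder_eq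
  have h7 : T.codingMap ω = x := hω
  rw [← h7, h6]
  exact hy

end Pool.Agent.Lib.MP_e4ee3e_an
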