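import Mathlib

/-!
Q01. Values of h omitted when cosh(h)^2 omits the integers. Given w put t = |2 Re w|; there is s in [t, t+2] with cosh s an odd integer (cosh(t+2) - cosh t >= cosh 2 - 1 > 2 and the intermediate value theorem); k = round(2 Im w / π); b = (± s + i π k)/2; cosh(2b) = ± cosh s is odd, cosh(b)^2 = (cosh(2b)+1)/2.
-/

open MeasureTheory Filter Topology

namespace Pool.Agent.Lib.MP_e4ee3e_an

theorem q01_cosh (t : ℝ) (ht : 0 ≤ t) :
    ∃ s : ℝ, t ≤ s ∧ s ≤ t + 2 ∧ ∃ m : ℤ, Real.cosh s = 2 * m + 1 := by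
  have h1 : Real.cosh (t + 2) - Real.cosh t = 2 * Real.sinh (t + 1) * Real.sinh 1 := by
    have e1 : t + 2 = (t + 1) + 1 := by ring
    have e2 : Real.cosh t = Real.cosh ((t + 1) - 1) := by congr 1; ring
    rw [e2, e1, Real.cosh_add, Real.cosh_sub]
    ring
  have h2 : (1 : ℝ) ≤ Real.sinh 1 := Real.self_le_sinh_iff.2 zero_le_one
  have h3 : (1 : ℝ) ≤ Real.sinh (t + 1) :=
    le_trans (by linarith) (Real.self_le_sinh_iff.2 (by linarith : (0 : ℝ) ≤ t + 1))
  have h4 : Real.cosh t + 2 ≤ Real.cosh (t + 2) := by nlinarith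
  set m : ℤ := ⌈(Real.cosh t - 1) / 2⌉ with hm
  have h5 : (Real.cosh t - 1) / 2 ≤ m := Int.le_ceil _
  have h6 : (m : ℝ) < (Real.cosh t - 1) / 2 + 1 := Int.ceil_lt_add_one _
  have h7 : (2 * m + 1 : ℝ) ∈ Set.Icc (Real.cosh t) (Real.cosh (t + 2)) :=
    ⟨by linarith, by linarith⟩
  obtain ⟨s, hs, hs2⟩ := intermediate_value_Icc (by linarith : t ≤ t + 2)
    Real.continuous_cosh.continuousOn h7
  exact ⟨s, hs.1, hs.2, m, hs2⟩

theorem cosh_sq_net (w : ℂ) : ∃ b : ℂ, ‖w - b‖ < 3 ∧ ∃ m : ℤ, Complex.cosh b ^ 2 = (m : ℂ) := by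
  obtain ⟨s, hs1, hs2, m, hm⟩ := q01_cosh |2 * w.re| (abs_nonneg _)
  obtain ⟨σ, hσ, hσ2⟩ : ∃ σ : ℝ, (σ = 1 ∨ σ = -1) ∧ 2 * w.re = σ * |2 * w.re| := by
    rcases le_total 0 (2 * w.re) with h | h
    · exact ⟨1, Or.inl rfl, by rw [abs_of_nonneg h, one_mul]⟩
    · exact ⟨-1, Or.inr rfl, by rw [abs_of_nonpos h]; ring⟩
  set k : ℤ := round (2 * w.im / Real.pi) with hk
  have hk1 : |2 * w.im / Real.pi - k| ≤ 1 / 2 := abs_sub_round _
  have hpi : 0 < Real.pi := Real.pi_pos
  set b : ℂ := ⟨σ * s / 2, Real.pi * k / 2⟩ with hb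
  refine ⟨b, ?_, ?_⟩
  · have hre : |(w - b).re| ≤ 1 := by
      have e : (w - b).re = σ * (|2 * w.re| - s) / 2 := by
        rw [Complex.sub_re]
        simp only [hb]
        linear_combination hσ2 / 2
      rw [e]
      have h1 : |(|2 * w.re| - s)| ≤ 2 := by
        rw [abs_le]; constructor <;> linarith
      rcases hσ with h | h
      · rw [h, one_mul, abs_div, abs_two]; linarith
      · rw [h, neg_one_mul, neg_div, abs_neg, abs_div, abs_two]; linarith
    have him : |(w - b).im| ≤ 1 := by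
      have e : (w - b).im = Real.pi / 2 * (2 * w.im / Real.pi - k) := by
        rw [Complex.sub_im]
        simp only [hb]
        field_simp
      rw [e, abs_mul, abs_of_pos (by positivity)]
      have h4 := Real.pi_le_four
      calc Real.pi / 2 * |2 * w.im / Real.pi - k| ≤ Real.pi / 2 * (1 / 2) :=
            mul_le_mul_of_nonneg_left hk1 (by positivity)
        _ ≤ 1 := by linarith
    have := Complex.norm_le_abs_re_add_abs_im (w - b)
    linarith
  · have h2b : Complex.cosh (2 * b) = ((-1 : ℤ) ^ k.natAbs * (2 * m + 1) : ℤ) := by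
      have e : (2 * b : ℂ) = ((σ * s : ℝ) : ℂ) + ((Real.pi * k : ℝ) : ℂ) * Complex.I := by
        apply Complex.ext
        · simp [hb]; ring
        · simp [hb]; ring
      rw [e, Complex.cosh_add, Complex.cosh_mul_I, Complex.sinh_mul_I]
      have hc : Real.cosh (σ * s) = 2 * m + 1 := by
        rcases hσ with h | h
        · rw [h, one_mul, hm]
        · rw [h, neg_one_mul, Real.cosh_neg, hm]
      have hsin : Real.sin (Real.pi * k) = 0 := by
        rw [mul_comm]; exact Real.sin_int_mul_pi k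
      have hcos : Real.cos (Real.pi * k) = (-1 : ℝ) ^ k.natAbs := by
        rw [mul_comm]
        rcases Int.natAbs_eq k with h | h
        · conv_lhs => rw [h]
          rw [Int.cast_natCast, Real.cos_nat_mul_pi]
        · conv_lhs => rw [h]
          rw [Int.cast_neg, Int.cast_natCast, neg_mul, Real.cos_neg, Real.cos_nat_mul_pi]
      rw [← Complex.ofReal_cosh, ← Complex.ofReal_cos, ← Complex.ofReal_sin, hsin, hcos, hc]
      push_cast
      ring
    have hsq : Complex.cosh b ^ 2 = (Complex.cosh (2 * b) + 1) / 2 := by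
      rw [Complex.cosh_two_mul, ← Complex.cosh_sq_sub_sinh_sq b]
      ring
    rw [hsq, h2b]
    rcases Nat.even_or_odd k.natAbs with h | h
    · refine ⟨m + 1, ?_⟩
      rw [h.neg_one_pow]
      push_cast
      ring
    · refine ⟨-m, ?_⟩
      rw [h.neg_one_pow]
      push_cast
      ring

end Pool.Agent.Lib.MP_e4ee3e_an
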