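import Pool.Agent.Lib.MP_e4ee3e_an.S08

/-!
S09. Uniqueness for lifts by iterates. Induction on n: for n + 1, f^[n+1] γ = f^[n] (f γ); the paths
f o γ₁ and f o γ₂ agree at t0, and f^[n] of them is avoided/finite, so they agree by induction; then
path_unique applies if f (γ₁ t) is in good1: it is not infinity, since otherwise (n >= 1)
f^[n] (f (γ₁ t)) = f^[n] infinity, excluded by AvoidN (infinity is marked), or (n = 0) excluded
directly; and it is not the image of a marked point c, since otherwise f^[n+1] c = f^[n+1] (γ₁ t).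
-/

open MeasureTheory Filter Topology

namespace Pool.Agent.Lib.MP_e4ee3e_an

attribute [local instance] chMetric

/-- Uniqueness of lifts by iterates, for maps defined on a preconnected space. -/
theorem s09_unique {P Q : Polynomial ℂ} {d : ℕ} (h : RatData P Q d) {A : Type*}
    [TopologicalSpace A] [PreconnectedSpace A] (n : ℕ) (g₁ g₂ : A → OnePoint ℂ)
    (hc₁ : Continuous g₁) (hc₂ : Continuous g₂) (a : A) (h0 : g₁ a = g₂ a)
    (hf : ∀ t, (ratMap P Q)^[n] (g₁ t) = (ratMap P Q)^[n] (g₂ t))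
    (hg : ∀ t, (ratMap P Q)^[n] (g₁ t) ≠ OnePoint.infty ∧ AvoidN P Q n ((ratMap P Q)^[n] (g₁ t))) :
    g₁ = g₂ := by
  induction n generalizing g₁ g₂ with
  | zero =>
    funext t
    exact hf t
  | succ n ih =>
    have hcont := ratMap_continuous h
    have key := ih (fun t => ratMap P Q (g₁ t)) (fun t => ratMap P Q (g₂ t))
      (hcont.comp hc₁) (hcont.comp hc₂) (congrArg (ratMap P Q) h0)
      (fun t => by
        have := hf t
        rwa [Function.iterate_succ_apply, Function.iterate_succ_apply] at this)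
      (fun t => by
        have := hg t
        rw [Function.iterate_succ_apply] at this
        exact ⟨this.1, fun k hk hkn c hc => this.2 k hk (by omega) c hc⟩)
    refine s08_unique h g₁ g₂ hc₁ hc₂ a h0 (fun t => congrFun key t) (fun t => ?_)
    have hgt := hg t
    rw [Function.iterate_succ_apply] at hgt
    refine ⟨fun hinf => ?_, fun c hc hceq => ?_⟩
    · rcases Nat.eq_zero_or_pos n with hn | hn
      · subst hn
        exact hgt.1 hinf
      · exact hgt.2 n hn (by omega) OnePoint.infty (Or.inl rfl) (by rw [hinf])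
    · refine hgt.2 (n + 1) (by omega) le_rfl c hc ?_
      rw [Function.iterate_succ_apply, hceq]

theorem iter_path_unique {P Q : Polynomial ℂ} {d : ℕ} (h : RatData P Q d) (n : ℕ)
    (γ₁ γ₂ : C(unitInterval, OnePoint ℂ)) (t₀ : unitInterval) (h0 : γ₁ t₀ = γ₂ t₀)
    (hf : ∀ t, (ratMap P Q)^[n] (γ₁ t) = (ratMap P Q)^[n] (γ₂ t))
    (hg : ∀ t, (ratMap P Q)^[n] (γ₁ t) ≠ OnePoint.infty ∧ AvoidN P Q n ((ratMap P Q)^[n] (γ₁ t))) :
    γ₁ = γ₂ := by
  have := s09_unique h n γ₁ γ₂ γ₁.continuous γ₂.continuous t₀ h0 hf hg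
  exact DFunLike.coe_injective this

theorem iter_disc_unique {P Q : Polynomial ℂ} {d : ℕ} (h : RatData P Q d) (n : ℕ) (b : ℂ) (r : ℝ)
    (hok : DiscOK P Q n b r) (φ₁ φ₂ : ℂ → OnePoint ℂ)
    (h₁ : ContinuousOn φ₁ (Metric.ball b r))
    (h₂ : ContinuousOn φ₂ (Metric.ball b r)) (w₀ : ℂ) (hw₀ : w₀ ∈ Metric.ball b r)
    (h0 : φ₁ w₀ = φ₂ w₀)
    (hf₁ : ∀ w ∈ Metric.ball b r, (ratMap P Q)^[n] (φ₁ w) = (w : OnePoint ℂ))
    (hf₂ : ∀ w ∈ Metric.ball b r, (ratMap P Q)^[n] (φ₂ w) = (w : OnePoint ℂ)) :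
    ∀ w ∈ Metric.ball b r, φ₁ w = φ₂ w := by
  have : PreconnectedSpace (Metric.ball b r) :=
    isPreconnected_iff_preconnectedSpace.1 (convex_ball b r).isPreconnected
  have key := s09_unique h n ((Metric.ball b r).domRestrict φ₁) ((Metric.ball b r).domRestrict φ₂)
    (continuousOn_iff_continuous_domRestrict.mp h₁)
    (continuousOn_iff_continuous_domRestrict.mp h₂) ⟨w₀, hw₀⟩ h0
    (fun t => (hf₁ t.1 t.2).trans (hf₂ t.1 t.2).symm)
    (fun t => by
      have e1 : (ratMap P Q)^[n] ((Metric.ball b r).domRestrict φ₁ t) = ((t.1 : ℂ) : OnePoint ℂ) :=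
        hf₁ t.1 t.2
      rw [e1]
      exact ⟨OnePoint.coe_ne_infty _, hok t.1 t.2⟩)
  intro w hw
  exact congrFun key ⟨w, hw⟩

end Pool.Agent.Lib.MP_e4ee3e_an
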