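import Pool.Agent.Lib.MP_e4ee3e_an.S09
import Pool.Agent.Lib.MP_e4ee3e_an.T01

/-!
T06. Basic facts on the tree: iterates of edges, avoidance, unique lifts, dependence on finitely
many letters, surjectivity onto preimages of the root, injectivity.
(e) surjectivity by induction on n: f^[n+1] y = root; f^[n] y is a preimage of the root, = child i.
n = 0: done. n >= 1: let γ be the path e i; lift it by f^[n] with end y (iterate path_lift with
t₀ = 1), start point y' satisfies f^[n] y' = root; by induction y' = G (n-1) α 1; let β be α with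
letter n replaced by i; G n β is a lift of e i by f^[n] starting at y' (congr), so by
iter_path_unique equals the lifted path, so its end is y.
(f) injectivity: if α n = β n and G n α t = G n β t then the paths agree (iter_path_unique), so the
start points agree, and f^[n-1] of the start points are child (α (n-1)) and child (β (n-1)).
-/

open MeasureTheory Filter Topology

namespace Pool.Agent.Lib.MP_e4ee3e_an

attribute [local instance] chMetric

variable {P Q : Polynomial ℂ} {d : ℕ} {root : OnePoint ℂ} {child : Fin d → OnePoint ℂ}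
  {e : Fin d → C(unitInterval, ℂ)} {G : ℕ → (ℕ → Fin d) → C(unitInterval, OnePoint ℂ)}

theorem TreeCtx.iter (T : TreeCtx P Q d root child e G) (n : ℕ) (α : ℕ → Fin d)
    (t : unitInterval) : (ratMap P Q)^[n] (G n α t) = ((e (α n) t : ℂ) : OnePoint ℂ) := by
  induction n generalizing α with
  | zero => simpa using T.G_zero α t
  | succ n ih =>
    rw [Function.iterate_succ_apply, T.G_map, ih]
    rfl

theorem TreeCtx.e_avoid (T : TreeCtx P Q d root child e G) (i : Fin d) (t : unitInterval) (k : ℕ)
    (hk : 1 ≤ k) (c : OnePoint ℂ) (hc : c ∈ marked P Q) :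
    (ratMap P Q)^[k] c ≠ ((e i t : ℂ) : OnePoint ℂ) := by
  obtain ⟨κ, hκ, h⟩ := (T.e_tame i).2 1 one_pos
  refine h k hk c hc (e i t) ⟨t, rfl⟩ (e i t) ?_
  exact Metric.mem_ball_self (mul_pos hκ (Real.exp_pos _))

theorem TreeCtx.G_good (T : TreeCtx P Q d root child e G) (n : ℕ) (α : ℕ → Fin d)
    (t : unitInterval) : G n α t ∈ good1 P Q := by
  refine ⟨fun h => ?_, fun c hc h => ?_⟩
  · rcases Nat.eq_zero_or_pos n with rfl | hn
    · rw [T.G_zero] at h
      exact OnePoint.coe_ne_infty _ h
    · have h1 := T.iter n α t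
      rw [h] at h1
      exact T.e_avoid (α n) t n hn OnePoint.infty (Or.inl rfl) h1
  · have h1 := T.iter n α t
    rw [← h, ← Function.iterate_succ_apply] at h1
    exact T.e_avoid (α n) t (n + 1) (by omega) c hc h1

theorem TreeCtx.G_unique (T : TreeCtx P Q d root child e G) (n : ℕ) (α : ℕ → Fin d)
    (γ : C(unitInterval, OnePoint ℂ)) (hγ : ∀ t, ratMap P Q (γ t) = G n (shift α) t)
    (h0 : γ 0 = G n α 1) : γ = G (n + 1) α := by
  refine path_unique T.data γ (G (n + 1) α) 0 ?_ ?_ ?_
  · rw [h0, T.G_start]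
  · intro t
    rw [hγ, T.G_map]
  · intro t
    rw [hγ]
    exact T.G_good n (shift α) t

theorem TreeCtx.G_congr (T : TreeCtx P Q d root child e G) (n : ℕ) (α β : ℕ → Fin d)
    (hαβ : ∀ i ≤ n, α i = β i) : G n α = G n β := by
  induction n generalizing α β with
  | zero =>
    ext1 t
    rw [T.G_zero, T.G_zero, hαβ 0 le_rfl]
  | succ n ih =>
    refine T.G_unique n β (G (n + 1) α) ?_ ?_
    · intro t
      rw [T.G_map, ih (shift α) (shift β) (fun i hi => hαβ (i + 1) (by omega))]
    · rw [T.G_start, ih α β (fun i hi => hαβ i (by omega))]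

theorem TreeCtx.t06_good (T : TreeCtx P Q d root child e G) (n : ℕ) (i : Fin d)
    (t : unitInterval) : ((e i t : ℂ) : OnePoint ℂ) ≠ OnePoint.infty ∧
      AvoidN P Q n ((e i t : ℂ) : OnePoint ℂ) :=
  ⟨OnePoint.coe_ne_infty _, fun k hk _ c hc => T.e_avoid i t k hk c hc⟩

theorem TreeCtx.G_inj (T : TreeCtx P Q d root child e G) (n : ℕ) (α β : ℕ → Fin d)
    (t : unitInterval) (hn : α n = β n) (ht : G n α t = G n β t) : ∀ i ≤ n, α i = β i := by
  induction n generalizing t with
  | zero =>
    intro i hi
    obtain rfl : i = 0 := by omega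
    exact hn
  | succ n ih =>
    have h1 : G (n + 1) α = G (n + 1) β := by
      refine iter_path_unique T.data (n + 1) _ _ t ht ?_ ?_
      · intro s
        rw [T.iter, T.iter, hn]
      · intro s
        rw [T.iter]
        exact T.t06_good (n + 1) _ s
    have h2 : G n α 1 = G n β 1 := by
      rw [← T.G_start, ← T.G_start, h1]
    have h3 : α n = β n := by
      apply T.child_injective
      rw [← T.e_one, ← T.e_one, ← T.iter, ← T.iter, h2]
    intro i hi
    rcases Nat.lt_or_ge i (n + 1) with h | h
    · exact ih 1 h3 h2 i (by omega)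
    · obtain rfl : i = n + 1 := by omega
      exact hn

/-- Lifting a path by an iterate. -/
theorem t06_iter_lift (h : RatData P Q d) (m : ℕ) (γ : C(unitInterval, OnePoint ℂ))
    (hγ : ∀ t, γ t ≠ OnePoint.infty ∧ AvoidN P Q m (γ t)) (t₀ : unitInterval)
    (x : OnePoint ℂ) (hx : (ratMap P Q)^[m] x = γ t₀) :
    ∃ γ' : C(unitInterval, OnePoint ℂ), γ' t₀ = x ∧ ∀ t, (ratMap P Q)^[m] (γ' t) = γ t := by
  induction m generalizing x with
  | zero => exact ⟨γ, hx.symm, fun t => rfl⟩
  | succ m ih =>
    rw [Function.iterate_succ_apply] at hx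
    obtain ⟨γ1, h1, h2⟩ := ih (fun t => ⟨(hγ t).1, fun k hk hk2 => (hγ t).2 k hk (by omega)⟩) _ hx
    have hg : ∀ t, γ1 t ∈ good1 P Q := by
      intro t
      refine ⟨fun h3 => ?_, fun c hc h3 => ?_⟩
      · have h4 := h2 t
        rw [h3] at h4
        rcases Nat.eq_zero_or_pos m with rfl | hm
        · exact (hγ t).1 h4.symm
        · exact (hγ t).2 m hm (by omega) _ (Or.inl rfl) h4
      · have h4 := h2 t
        rw [← h3, ← Function.iterate_succ_apply] at h4
        exact (hγ t).2 (m + 1) (by omega) le_rfl c hc h4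
    obtain ⟨γ', h5, h6⟩ := path_lift h γ1 hg t₀ x h1.symm
    refine ⟨γ', h5, fun t => ?_⟩
    rw [Function.iterate_succ_apply, h6, h2]

theorem TreeCtx.G_surj (T : TreeCtx P Q d root child e G) (n : ℕ) (y : OnePoint ℂ)
    (hy : (ratMap P Q)^[n + 1] y = root) : ∃ α, G n α 1 = y := by
  induction n generalizing y with
  | zero =>
    obtain ⟨i, hi⟩ := T.child_surj y (by simpa using hy)
    refine ⟨fun _ => i, ?_⟩
    rw [T.G_zero, T.e_one, hi]
  | succ n ih =>
    rw [Function.iterate_succ_apply'] at hy
    obtain ⟨i, hi⟩ := T.child_surj _ hy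
    let γ : C(unitInterval, OnePoint ℂ) :=
      ⟨fun t => ((e i t : ℂ) : OnePoint ℂ), OnePoint.continuous_coe.comp (e i).continuous⟩
    have hγv : ∀ t, γ t = ((e i t : ℂ) : OnePoint ℂ) := fun t => rfl
    obtain ⟨γ', h1, h2⟩ := t06_iter_lift T.data (n + 1) γ (fun t => T.t06_good (n + 1) i t) 1 y
      (by rw [hγv, T.e_one, hi])
    obtain ⟨α, hα⟩ := ih (γ' 0) (by rw [h2, hγv, T.e_zero])
    refine ⟨Function.update α (n + 1) i, ?_⟩
    have h3 : G n (Function.update α (n + 1) i) = G n α := by
      apply T.G_congr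
      intro j hj
      rw [Function.update_of_ne (by omega)]
    have h4 : G (n + 1) (Function.update α (n + 1) i) = γ' := by
      refine iter_path_unique T.data (n + 1) _ _ 0 ?_ ?_ ?_
      · rw [T.G_start, h3, hα]
      · intro t
        rw [T.iter, h2, hγv, Function.update_self]
      · intro t
        rw [T.iter]
        exact T.t06_good (n + 1) _ t
    rw [h4, h1]

end Pool.Agent.Lib.MP_e4ee3e_an
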