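import Pool.Agent.Lib.MP_e4ee3e_an.S03
import Pool.Agent.Lib.MP_e4ee3e_an.S04

/-!
R01. Iterates of a rational map are, off finitely many points of the plane, given by a
differentiable function. Induction: G' = (P/Q) o G off F and off the finitely many w with
f^[N+1] w = infinity.
-/

open MeasureTheory Filter Topology

namespace Pool.Agent.Lib.MP_e4ee3e_an

attribute [local instance] chMetric

theorem iter_hol {P Q : Polynomial ℂ} {d : ℕ} (h : RatData P Q d) (N : ℕ) :
    ∃ (G : ℂ → ℂ) (F : Set ℂ), F.Finite ∧ ∀ w : ℂ, w ∉ F →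
      (ratMap P Q)^[N] (w : OnePoint ℂ) = ((G w : ℂ) : OnePoint ℂ) ∧ DifferentiableAt ℂ G w := by
  induction N with
  | zero => exact ⟨id, ∅, Set.finite_empty, fun w _ => ⟨rfl, differentiableAt_id⟩⟩
  | succ N ih =>
    obtain ⟨G, F, hF, hG⟩ := ih
    refine ⟨fun w => P.eval (G w) / Q.eval (G w),
      F ∪ {w : ℂ | (ratMap P Q)^[N + 1] (w : OnePoint ℂ) = OnePoint.infty}, hF.union ?_,
      fun w hw => ?_⟩
    · exact Set.Finite.preimage (OnePoint.coe_injective.injOn)
        (ratMap_iter_fiber_finite h (N + 1) OnePoint.infty)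
    · have h1 : w ∉ F := fun h' => hw (Or.inl h')
      have h2 : (ratMap P Q)^[N + 1] (w : OnePoint ℂ) ≠ OnePoint.infty := fun h' => hw (Or.inr h')
      obtain ⟨e1, e2⟩ := hG w h1
      have e3 : (ratMap P Q)^[N + 1] (w : OnePoint ℂ) = ratio (P.eval (G w)) (Q.eval (G w)) := by
        rw [Function.iterate_succ_apply', e1]
        rfl
      have h4 : Q.eval (G w) ≠ 0 := by
        intro h0
        apply h2
        rw [e3, ratio, if_pos h0]
      refine ⟨?_, ?_⟩
      · rw [e3, ratio, if_neg h4]
      · exact (P.differentiable.differentiableAt.comp w e2).div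
          (Q.differentiable.differentiableAt.comp w e2) h4

end Pool.Agent.Lib.MP_e4ee3e_an
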