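import Pool.Agent.Lib.MP_e4ee3e_an.N06
import Pool.Agent.Lib.MP_e4ee3e_an.R01

/-!
R02. If an iterate expands a tiny disc to size > ε, then it maps the disc of radius s = L^(-2n)
over all of ball v₀ ρ₀ but a set of area < p₁. C from normality with R = |v₀| + ρ₀, p = p₁;
η = min (1/4) (ε/4) (ε/(4 C)). (a) L^k * 2 η s >= dist > ε >= 2η gives L^k > L^(2n), k > 2n.
(b) if the area of Z = {z in ball v₀ ρ₀, z not in f^[k](ball x s)} were >= p₁, normality on
ball x s (Z is measurable: complement of a countable union of closed sets, exhaust the open ball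
by closed balls) gives dist <= C * 2 η s / s = 2 C η <= ε on ball x (η s), contradiction.
-/

open MeasureTheory Filter Topology

namespace Pool.Agent.Lib.MP_e4ee3e_an

attribute [local instance] chMetric

theorem r02_isClosed {P Q : Polynomial ℂ} {d : ℕ} (h : RatData P Q d) (k : ℕ) (x : ℂ)
    (s : ℝ) : IsClosed {z : ℂ | ∃ y ∈ Metric.closedBall x s,
      (ratMap P Q)^[k] ((y : ℂ) : OnePoint ℂ) = (z : OnePoint ℂ)} := by
  have hc : Continuous fun y : ℂ => (ratMap P Q)^[k] ((y : ℂ) : OnePoint ℂ) :=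
    (ratMap_iter_continuous h k).comp OnePoint.continuous_coe
  have h1 : IsCompact ((fun y : ℂ => (ratMap P Q)^[k] ((y : ℂ) : OnePoint ℂ)) ''
      Metric.closedBall x s) := (isCompact_closedBall x s).image hc
  have h2 := h1.isClosed.preimage (OnePoint.continuous_coe : Continuous ((↑) : ℂ → OnePoint ℂ))
  exact h2

theorem measurable_image_disc {P Q : Polynomial ℂ} {d : ℕ} (h : RatData P Q d) (k : ℕ) (x : ℂ)
    (s : ℝ) : MeasurableSet {z : ℂ | ∃ y ∈ Metric.ball x s,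
      (ratMap P Q)^[k] ((y : ℂ) : OnePoint ℂ) = (z : OnePoint ℂ)} := by
  have h1 : {z : ℂ | ∃ y ∈ Metric.ball x s,
      (ratMap P Q)^[k] ((y : ℂ) : OnePoint ℂ) = (z : OnePoint ℂ)} =
      ⋃ j : ℕ, {z : ℂ | ∃ y ∈ Metric.closedBall x (s - 1 / (j + 1)),
      (ratMap P Q)^[k] ((y : ℂ) : OnePoint ℂ) = (z : OnePoint ℂ)} := by
    ext z
    simp only [Set.mem_ofPred_eq, Set.mem_iUnion]
    constructor
    · rintro ⟨y, hy, hz⟩
      rw [Metric.mem_ball] at hy
      obtain ⟨j, hj⟩ := exists_nat_one_div_lt (sub_pos.2 hy)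
      exact ⟨j, y, Metric.mem_closedBall.2 (by linarith), hz⟩
    · rintro ⟨j, y, hy, hz⟩
      rw [Metric.mem_closedBall] at hy
      have : (0 : ℝ) < 1 / ((j : ℝ) + 1) := by positivity
      exact ⟨y, Metric.mem_ball.2 (by linarith), hz⟩
  rw [h1]
  exact MeasurableSet.iUnion fun j => (r02_isClosed h k x _).measurableSet

theorem r02_iter_lip {X : Type*} [PseudoMetricSpace X] {f : X → X} {L : ℝ} (hL : 0 ≤ L)
    (hf : ∀ x y, dist (f x) (f y) ≤ L * dist x y) (k : ℕ) (x y : X) :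
    dist (f^[k] x) (f^[k] y) ≤ L ^ k * dist x y := by
  induction k with
  | zero => simp
  | succ k ih =>
    rw [Function.iterate_succ_apply', Function.iterate_succ_apply', pow_succ']
    calc dist (f (f^[k] x)) (f (f^[k] y)) ≤ L * dist (f^[k] x) (f^[k] y) := hf _ _
      _ ≤ L * (L ^ k * dist x y) := mul_le_mul_of_nonneg_left ih hL
      _ = L * L ^ k * dist x y := by ring

theorem expand_cover {P Q : Polynomial ℂ} {d : ℕ} (h : RatData P Q d) (L : ℝ) (hL : 2 ≤ L)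
    (hlip : ∀ x y, dist (ratMap P Q x) (ratMap P Q y) ≤ L * dist x y) (v₀ : ℂ) (ρ₀ ε p₁ : ℝ)
    (hρ₀ : 0 < ρ₀) (hε : 0 < ε) (hp₁ : 0 < p₁) :
    ∃ η : ℝ, 0 < η ∧ η ≤ 1 / 2 ∧ ∀ (n k : ℕ) (x : ℂ),
      (∃ w ∈ Metric.ball x (η * (L ^ (2 * n))⁻¹), ∃ w' ∈ Metric.ball x (η * (L ^ (2 * n))⁻¹),
        ε < dist ((ratMap P Q)^[k] ((w : ℂ) : OnePoint ℂ)) ((ratMap P Q)^[k] ((w' : ℂ) : OnePoint ℂ))) →
      2 * n < k ∧ volume {z : ℂ | z ∈ Metric.ball v₀ ρ₀ ∧ ¬ ∃ y ∈ Metric.ball x (L ^ (2 * n))⁻¹,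
        (ratMap P Q)^[k] ((y : ℂ) : OnePoint ℂ) = (z : OnePoint ℂ)} ≤ ENNReal.ofReal p₁ := by
  obtain ⟨C, hC, hnorm⟩ := normality (‖v₀‖ + ρ₀) p₁ hp₁
  have hη1 : 0 < min (1 / 2) (min (ε / 4) (ε / (4 * C))) := by positivity
  refine ⟨min (1 / 2) (min (ε / 4) (ε / (4 * C))), hη1, min_le_left _ _, ?_⟩
  set η := min (1 / 2) (min (ε / 4) (ε / (4 * C))) with hη
  have e1 : η ≤ 1 / 2 := min_le_left _ _
  have e2 : η ≤ ε / 4 := (min_le_right _ _).trans (min_le_left _ _)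
  have e3 : η ≤ ε / (4 * C) := (min_le_right _ _).trans (min_le_right _ _)
  rintro n k x ⟨w, hw, w', hw', hd⟩
  have hs : 0 < (L ^ (2 * n))⁻¹ := by positivity
  have hLn : 0 < L ^ (2 * n) := by positivity
  have hww : ‖w - w'‖ < 2 * η * (L ^ (2 * n))⁻¹ := by
    rw [Metric.mem_ball] at hw hw'
    rw [← dist_eq_norm]
    calc dist w w' ≤ dist w x + dist w' x := dist_triangle_right _ _ _
      _ < 2 * η * (L ^ (2 * n))⁻¹ := by linarith
  refine ⟨?_, ?_⟩
  · have h1 : ε < L ^ k * (2 * η * (L ^ (2 * n))⁻¹) := by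
      calc ε < _ := hd
        _ ≤ L ^ k * dist (w : OnePoint ℂ) (w' : OnePoint ℂ) :=
          r02_iter_lip (by linarith) hlip k _ _
        _ ≤ L ^ k * (2 * η * (L ^ (2 * n))⁻¹) := by
          apply mul_le_mul_of_nonneg_left _ (by positivity)
          exact (dist_coe_le w w').trans hww.le
    have h2 : L ^ (2 * n) < L ^ k := by
      have h3 : ε * L ^ (2 * n) < L ^ k * (2 * η) := by
        have := mul_lt_mul_of_pos_right h1 hLn
        rwa [mul_assoc, mul_assoc, mul_assoc, inv_mul_cancel₀ hLn.ne', mul_one] at this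
      have h4 : L ^ k * (2 * η) ≤ L ^ k * (ε / 2) := by
        apply mul_le_mul_of_nonneg_left _ (by positivity)
        linarith
      have h5 : 0 < L ^ k := by positivity
      nlinarith
    exact (pow_lt_pow_iff_right₀ (by linarith)).1 h2
  · by_contra hcon
    rw [not_le] at hcon
    obtain ⟨G, F, hF, hG⟩ := iter_hol h k
    have hmeas : MeasurableSet {z : ℂ | z ∈ Metric.ball v₀ ρ₀ ∧
        ¬ ∃ y ∈ Metric.ball x (L ^ (2 * n))⁻¹,
        (ratMap P Q)^[k] ((y : ℂ) : OnePoint ℂ) = (z : OnePoint ℂ)} :=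
      measurableSet_ball.inter (measurable_image_disc h k x _).compl
    have key := hnorm x (L ^ (2 * n))⁻¹ (fun w => (ratMap P Q)^[k] ((w : ℂ) : OnePoint ℂ)) G F
      {z : ℂ | z ∈ Metric.ball v₀ ρ₀ ∧ ¬ ∃ y ∈ Metric.ball x (L ^ (2 * n))⁻¹,
        (ratMap P Q)^[k] ((y : ℂ) : OnePoint ℂ) = (z : OnePoint ℂ)} hs hF
      ((ratMap_iter_continuous h k).comp OnePoint.continuous_coe).continuousOn
      (fun w _ hwF => hG w hwF) hmeas ?_ hcon.le ?_ w ?_ w' ?_
    · have h1 : C * ‖w - w'‖ / (L ^ (2 * n))⁻¹ ≤ ε := by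
        rw [div_le_iff₀ hs]
        have h2 : C * ‖w - w'‖ ≤ C * (2 * η * (L ^ (2 * n))⁻¹) :=
          mul_le_mul_of_nonneg_left hww.le hC.le
        have h3 : C * η ≤ ε / 4 := by
          have := mul_le_mul_of_nonneg_left e3 hC.le
          calc C * η ≤ C * (ε / (4 * C)) := this
            _ = ε / 4 := by field_simp
        have h4 : C * (2 * η * (L ^ (2 * n))⁻¹) = 2 * (C * η) * (L ^ (2 * n))⁻¹ := by ring
        rw [h4] at h2
        refine h2.trans ?_
        apply mul_le_mul_of_nonneg_right _ hs.le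
        linarith
      exact absurd (key.trans h1) (not_le.2 hd)
    · rintro z ⟨hz, -⟩
      rw [Metric.mem_ball, dist_eq_norm] at hz
      rw [Metric.mem_closedBall, dist_zero_right]
      calc ‖z‖ = ‖(z - v₀) + v₀‖ := by rw [sub_add_cancel]
        _ ≤ ‖z - v₀‖ + ‖v₀‖ := norm_add_le _ _
        _ ≤ ‖v₀‖ + ρ₀ := by linarith
    · rintro y hy z ⟨-, hz⟩ he
      exact hz ⟨y, hy, he⟩
    · refine Metric.ball_subset_ball ?_ hw
      nlinarith
    · refine Metric.ball_subset_ball ?_ hw'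
      nlinarith

end Pool.Agent.Lib.MP_e4ee3e_an
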