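import Pool.Agent.Lib.MP_e4ee3e_an.Setup

/-!
S02. Polynomial estimates for coprime P, Q with max of the degrees equal to d.
(a) lower bound: the function (|P|^2+|Q|^2)/(1+|x|^2)^d is continuous and positive on the plane
(coprime: no common zero) and tends to |p_d|^2+|q_d|^2 > 0 at infinity, hence bounded below.
(b) upper bound for P(x)Q(y)-Q(x)P(y): it is a linear combination of x^i y^j - x^j y^i,
0 <= j < i <= d, and x^i y^j - x^j y^i = (x-y) * sum of i - j monomials x^a y^b with a, b <= d-1,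
and |x|^a <= sqrt(1+|x|^2)^(d-1).
(c) the same with y = infinity: P(x) q_d - Q(x) p_d has degree <= d-1.
-/

open MeasureTheory Filter Topology

namespace Pool.Agent.Lib.MP_e4ee3e_an

attribute [local instance] chMetric

/-- bound of a polynomial by a power of `sqrt (1 + |x|^2)` -/
theorem s02_poly (F : Polynomial ℂ) {n : ℕ} (hn : F.natDegree ≤ n) :
    ∃ K : ℝ, 0 ≤ K ∧ ∀ x : ℂ, ‖F.eval x‖ ≤ K * Real.sqrt (1 + ‖x‖ ^ 2) ^ n := by
  refine ⟨∑ i ∈ Finset.range (n + 1), ‖F.coeff i‖, Finset.sum_nonneg fun i _ => norm_nonneg _,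
    fun x => ?_⟩
  rw [Polynomial.eval_eq_sum_range' (Nat.lt_succ_of_le hn), Finset.sum_mul]
  refine (norm_sum_le _ _).trans (Finset.sum_le_sum fun i hi => ?_)
  rw [norm_mul, norm_pow]
  apply mul_le_mul_of_nonneg_left _ (norm_nonneg _)
  have h1 := one_le_sqrt_one_add x
  have h2 : ‖x‖ ≤ Real.sqrt (1 + ‖x‖ ^ 2) := Real.le_sqrt_of_sq_le (by linarith)
  calc ‖x‖ ^ i ≤ Real.sqrt (1 + ‖x‖ ^ 2) ^ i := pow_le_pow_left₀ (norm_nonneg x) h2 i
    _ ≤ Real.sqrt (1 + ‖x‖ ^ 2) ^ n := pow_le_pow_right₀ h1 (by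
        have := Finset.mem_range.1 hi
        omega)

theorem s02_deg {P Q : Polynomial ℂ} {d : ℕ} (h : RatData P Q d) :
    P.natDegree ≤ d ∧ Q.natDegree ≤ d := by
  have h1 := h.deg
  omega

theorem s02_coeff {P Q : Polynomial ℂ} {d : ℕ} (h : RatData P Q d) :
    (P.coeff d, Q.coeff d) ≠ 0 := by
  intro h0
  have h1 := h.deg
  have h2 := h.two
  have e1 : P.coeff d = 0 := congrArg Prod.fst h0
  have e2 : Q.coeff d = 0 := congrArg Prod.snd h0
  rcases max_choice P.natDegree Q.natDegree with hm | hm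
  · have h3 : P.natDegree = d := by omega
    rw [← h3, Polynomial.coeff_natDegree, Polynomial.leadingCoeff_eq_zero] at e1
    rw [e1, Polynomial.natDegree_zero] at h3
    omega
  · have h3 : Q.natDegree = d := by omega
    rw [← h3, Polynomial.coeff_natDegree, Polynomial.leadingCoeff_eq_zero] at e2
    rw [e2, Polynomial.natDegree_zero] at h3
    omega

theorem s02_ne {P Q : Polynomial ℂ} {d : ℕ} (h : RatData P Q d) (x : ℂ) :
    (P.eval x, Q.eval x) ≠ 0 := by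
  intro h0
  have e1 : P.eval x = 0 := congrArg Prod.fst h0
  have e2 : Q.eval x = 0 := congrArg Prod.snd h0
  obtain ⟨a, b, hab⟩ := h.cop
  have h1 := congrArg (Polynomial.eval x) hab
  rw [Polynomial.eval_add, Polynomial.eval_mul, Polynomial.eval_mul, e1, e2, Polynomial.eval_one,
    mul_zero, mul_zero, add_zero] at h1
  exact zero_ne_one h1

theorem s02_rest (F : Polynomial ℂ) {d : ℕ} (hd : 1 ≤ d) (hF : F.natDegree ≤ d) :
    (F - Polynomial.C (F.coeff d) * Polynomial.X ^ d).natDegree ≤ d - 1 := by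
  rw [Polynomial.natDegree_le_iff_coeff_eq_zero]
  intro N hN
  rw [Polynomial.coeff_sub, Polynomial.coeff_C_mul, Polynomial.coeff_X_pow]
  by_cases h : N = d
  · rw [h, if_pos rfl, mul_one, sub_self]
  · rw [if_neg h, mul_zero, sub_zero]
    exact Polynomial.coeff_eq_zero_of_natDegree_lt (by omega)

theorem s02_lead (F : Polynomial ℂ) {d : ℕ} (hd : 1 ≤ d) (hF : F.natDegree ≤ d)
    (h0 : F.coeff d ≠ 0) :
    ∃ a R : ℝ, 0 < a ∧ 1 ≤ R ∧ ∀ x : ℂ, R ≤ ‖x‖ → a * Real.sqrt (1 + ‖x‖ ^ 2) ^ d ≤ ‖F.eval x‖ := by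
  obtain ⟨K, hK, hb⟩ := s02_poly _ (s02_rest F hd hF)
  have hf : 0 < ‖F.coeff d‖ := norm_pos_iff.2 h0
  set a : ℝ := ‖F.coeff d‖ / 2 ^ d with ha
  have ha0 : 0 < a := by positivity
  refine ⟨a / 2, max 1 (2 * K / a), by positivity, le_max_left _ _, fun x hx => ?_⟩
  have h1 : 1 ≤ ‖x‖ := (le_max_left _ _).trans hx
  have h2 : 2 * K / a ≤ ‖x‖ := (le_max_right _ _).trans hx
  set R : ℝ := Real.sqrt (1 + ‖x‖ ^ 2) with hR
  have hRx : ‖x‖ ≤ R := Real.le_sqrt_of_sq_le (by linarith)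
  have hR2 : R ≤ 2 * ‖x‖ := by
    rw [hR, Real.sqrt_le_left (by positivity)]
    nlinarith
  have hR0 : 0 < R := by linarith
  have e : F.eval x = F.coeff d * x ^ d +
      (F - Polynomial.C (F.coeff d) * Polynomial.X ^ d).eval x := by
    rw [Polynomial.eval_sub, Polynomial.eval_mul, Polynomial.eval_C, Polynomial.eval_pow,
      Polynomial.eval_X]
    ring
  have h3 : ‖F.coeff d * x ^ d‖ ≤ ‖F.eval x‖ + K * R ^ (d - 1) := by
    have h4 : F.coeff d * x ^ d = F.eval x -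
        (F - Polynomial.C (F.coeff d) * Polynomial.X ^ d).eval x := by
      rw [e]
      ring
    rw [h4]
    exact (norm_sub_le _ _).trans (add_le_add le_rfl (hb x))
  have h5 : a * R ^ d ≤ ‖F.coeff d * x ^ d‖ := by
    rw [norm_mul, norm_pow, ha, div_mul_eq_mul_div, mul_div_assoc]
    apply mul_le_mul_of_nonneg_left _ hf.le
    rw [div_le_iff₀ (by positivity)]
    calc R ^ d ≤ (2 * ‖x‖) ^ d := pow_le_pow_left₀ hR0.le hR2 d
      _ = ‖x‖ ^ d * 2 ^ d := by rw [mul_pow, mul_comm]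
  have h6 : K * R ^ (d - 1) ≤ a / 2 * R ^ d := by
    obtain ⟨k, rfl⟩ : ∃ k, d = k + 1 := ⟨d - 1, by omega⟩
    rw [Nat.add_sub_cancel, pow_succ]
    have h7 : K ≤ a / 2 * R := by
      rw [div_le_iff₀ ha0] at h2
      nlinarith
    calc K * R ^ k ≤ (a / 2 * R) * R ^ k := mul_le_mul_of_nonneg_right h7 (by positivity)
      _ = a / 2 * (R ^ k * R) := by ring
  have h8 : a / 2 * R ^ d = a * R ^ d - a / 2 * R ^ d := by ring
  rw [h8]
  linarith

theorem s02_fst (u : ℂ × ℂ) : ‖u.1‖ ≤ nrm u := by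
  unfold nrm
  apply Real.le_sqrt_of_sq_le
  nlinarith [sq_nonneg ‖u.2‖]

theorem s02_snd (u : ℂ × ℂ) : ‖u.2‖ ≤ nrm u := by
  unfold nrm
  apply Real.le_sqrt_of_sq_le
  nlinarith [sq_nonneg ‖u.1‖]

theorem s02_far {P Q : Polynomial ℂ} {d : ℕ} (h : RatData P Q d) :
    ∃ a R : ℝ, 0 < a ∧ 1 ≤ R ∧ ∀ x : ℂ, R ≤ ‖x‖ →
      a * Real.sqrt (1 + ‖x‖ ^ 2) ^ d ≤ nrm (P.eval x, Q.eval x) := by
  have h2 := h.two
  obtain ⟨dP, dQ⟩ := s02_deg h
  by_cases hP : P.coeff d = 0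
  · have hQ : Q.coeff d ≠ 0 := by
      intro hQ
      exact s02_coeff h (by rw [hP, hQ]; rfl)
    obtain ⟨a, R, ha, hR, hb⟩ := s02_lead Q (by omega) dQ hQ
    exact ⟨a, R, ha, hR, fun x hx => (hb x hx).trans (s02_snd (P.eval x, Q.eval x))⟩
  · obtain ⟨a, R, ha, hR, hb⟩ := s02_lead P (by omega) dP hP
    exact ⟨a, R, ha, hR, fun x hx => (hb x hx).trans (s02_fst (P.eval x, Q.eval x))⟩

theorem ratData_lower {P Q : Polynomial ℂ} {d : ℕ} (h : RatData P Q d) :
    ∃ c : ℝ, 0 < c ∧ (∀ x : ℂ, c * Real.sqrt (1 + ‖x‖ ^ 2) ^ d ≤ nrm (P.eval x, Q.eval x)) ∧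
      c ≤ nrm (P.coeff d, Q.coeff d) := by
  obtain ⟨a, R, ha, hR, hb⟩ := s02_far h
  have hc : IsCompact (Metric.closedBall (0 : ℂ) R) := isCompact_closedBall 0 R
  have hcont : Continuous (fun x : ℂ => nrm (P.eval x, Q.eval x)) := by
    unfold nrm
    have h1 : Continuous (fun x : ℂ => P.eval x) := P.continuous
    have h2 : Continuous (fun x : ℂ => Q.eval x) := Q.continuous
    fun_prop
  obtain ⟨x₀, -, hx₀⟩ := hc.exists_isMinOn ⟨0, by simp; linarith⟩ hcont.continuousOn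
  have hm : 0 < nrm (P.eval x₀, Q.eval x₀) := nrm_pos_of_ne (s02_ne h x₀)
  have hn : 0 < nrm (P.coeff d, Q.coeff d) := nrm_pos_of_ne (s02_coeff h)
  set m := nrm (P.eval x₀, Q.eval x₀) with hmdef
  set R1 : ℝ := Real.sqrt (1 + R ^ 2) with hR1
  have hR1p : 0 < R1 := Real.sqrt_pos.2 (by positivity)
  refine ⟨min (min a (m / R1 ^ d)) (nrm (P.coeff d, Q.coeff d)), ?_, ?_, min_le_right _ _⟩
  · exact lt_min (lt_min ha (by positivity)) hn
  · intro x
    have hs : 0 ≤ Real.sqrt (1 + ‖x‖ ^ 2) := Real.sqrt_nonneg _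
    rcases le_total R ‖x‖ with hx | hx
    · refine le_trans (mul_le_mul_of_nonneg_right ?_ (pow_nonneg hs d)) (hb x hx)
      exact (min_le_left _ _).trans (min_le_left _ _)
    · have h1 : m ≤ nrm (P.eval x, Q.eval x) := by
        apply hx₀
        simpa using hx
      have h2 : Real.sqrt (1 + ‖x‖ ^ 2) ≤ R1 := by
        apply Real.sqrt_le_sqrt
        have := norm_nonneg x
        nlinarith
      refine le_trans ?_ h1
      calc min (min a (m / R1 ^ d)) (nrm (P.coeff d, Q.coeff d)) *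
            Real.sqrt (1 + ‖x‖ ^ 2) ^ d ≤ m / R1 ^ d * R1 ^ d := by
              apply mul_le_mul ((min_le_left _ _).trans (min_le_right _ _))
                (pow_le_pow_left₀ hs h2 d) (pow_nonneg hs d) (by positivity)
        _ = m := by field_simp

theorem s02_pow (x y : ℂ) {d i j : ℕ} (hd : 1 ≤ d) (hij : j ≤ i) (hi : i ≤ d) :
    ‖x ^ i * y ^ j - x ^ j * y ^ i‖ ≤
      d * ‖x - y‖ * Real.sqrt (1 + ‖x‖ ^ 2) ^ (d - 1) * Real.sqrt (1 + ‖y‖ ^ 2) ^ (d - 1) := by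
  obtain ⟨m, rfl⟩ : ∃ m, i = j + m := ⟨i - j, by omega⟩
  have e : x ^ (j + m) * y ^ j - x ^ j * y ^ (j + m) =
      ∑ k ∈ Finset.range m, (x - y) * (x ^ (j + k) * y ^ (j + (m - 1 - k))) := by
    have h1 := (Commute.all x y).geom_sum₂_mul m
    rw [← Finset.mul_sum]
    have h2 : ∑ k ∈ Finset.range m, x ^ (j + k) * y ^ (j + (m - 1 - k)) =
        x ^ j * y ^ j * ∑ k ∈ Finset.range m, x ^ k * y ^ (m - 1 - k) := by
      rw [Finset.mul_sum]
      apply Finset.sum_congr rfl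
      intro k _
      rw [pow_add, pow_add]
      ring
    rw [h2]
    calc x ^ (j + m) * y ^ j - x ^ j * y ^ (j + m) = x ^ j * y ^ j * (x ^ m - y ^ m) := by
          rw [pow_add, pow_add]
          ring
      _ = x ^ j * y ^ j * ((∑ k ∈ Finset.range m, x ^ k * y ^ (m - 1 - k)) * (x - y)) := by
          rw [h1]
      _ = _ := by ring
  rw [e]
  have hx1 := one_le_sqrt_one_add x
  have hy1 := one_le_sqrt_one_add y
  have hx : ‖x‖ ≤ Real.sqrt (1 + ‖x‖ ^ 2) := Real.le_sqrt_of_sq_le (by linarith)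
  have hy : ‖y‖ ≤ Real.sqrt (1 + ‖y‖ ^ 2) := Real.le_sqrt_of_sq_le (by linarith)
  set X := Real.sqrt (1 + ‖x‖ ^ 2)
  set Y := Real.sqrt (1 + ‖y‖ ^ 2)
  refine (norm_sum_le _ _).trans ?_
  have hterm : ∀ k ∈ Finset.range m, ‖(x - y) * (x ^ (j + k) * y ^ (j + (m - 1 - k)))‖ ≤
      ‖x - y‖ * (X ^ (d - 1) * Y ^ (d - 1)) := by
    intro k hk
    have hk' := Finset.mem_range.1 hk
    rw [norm_mul, norm_mul, norm_pow, norm_pow]
    apply mul_le_mul_of_nonneg_left _ (norm_nonneg _)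
    have p1 : ‖x‖ ^ (j + k) ≤ X ^ (d - 1) :=
      (pow_le_pow_left₀ (norm_nonneg x) hx _).trans (pow_le_pow_right₀ hx1 (by omega))
    have p2 : ‖y‖ ^ (j + (m - 1 - k)) ≤ Y ^ (d - 1) :=
      (pow_le_pow_left₀ (norm_nonneg y) hy _).trans (pow_le_pow_right₀ hy1 (by omega))
    exact mul_le_mul p1 p2 (by positivity) (by positivity)
  refine (Finset.sum_le_sum hterm).trans ?_
  rw [Finset.sum_const, Finset.card_range, nsmul_eq_mul]
  have hm : (m : ℝ) ≤ d := by exact_mod_cast (by omega : m ≤ d)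
  have hnn : 0 ≤ ‖x - y‖ * (X ^ (d - 1) * Y ^ (d - 1)) := by positivity
  calc (m : ℝ) * (‖x - y‖ * (X ^ (d - 1) * Y ^ (d - 1)))
      ≤ d * (‖x - y‖ * (X ^ (d - 1) * Y ^ (d - 1))) := mul_le_mul_of_nonneg_right hm hnn
    _ = _ := by ring

theorem s02_pow' (x y : ℂ) {d i j : ℕ} (hd : 1 ≤ d) (hi : i ≤ d) (hj : j ≤ d) :
    ‖x ^ i * y ^ j - x ^ j * y ^ i‖ ≤
      d * ‖x - y‖ * Real.sqrt (1 + ‖x‖ ^ 2) ^ (d - 1) * Real.sqrt (1 + ‖y‖ ^ 2) ^ (d - 1) := by
  rcases le_total j i with h | h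
  · exact s02_pow x y hd h hi
  · have h1 := s02_pow x y hd h hj
    rwa [← norm_neg, neg_sub] at h1

theorem ratData_upper {P Q : Polynomial ℂ} {d : ℕ} (h : RatData P Q d) :
    ∃ C : ℝ, 0 < C ∧
      (∀ x y : ℂ, ‖P.eval x * Q.eval y - Q.eval x * P.eval y‖ ≤
        C * ‖x - y‖ * Real.sqrt (1 + ‖x‖ ^ 2) ^ (d - 1) * Real.sqrt (1 + ‖y‖ ^ 2) ^ (d - 1)) ∧
      (∀ x : ℂ, ‖P.eval x * Q.coeff d - Q.eval x * P.coeff d‖ ≤
        C * Real.sqrt (1 + ‖x‖ ^ 2) ^ (d - 1)) := by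
  have hd := h.two
  obtain ⟨dP, dQ⟩ := s02_deg h
  have hF : (P * Polynomial.C (Q.coeff d) - Q * Polynomial.C (P.coeff d)).natDegree ≤ d - 1 := by
    rw [Polynomial.natDegree_le_iff_coeff_eq_zero]
    intro N hN
    rw [Polynomial.coeff_sub, Polynomial.coeff_mul_C, Polynomial.coeff_mul_C]
    by_cases hNd : N = d
    · rw [hNd]
      ring
    · rw [Polynomial.coeff_eq_zero_of_natDegree_lt (show P.natDegree < N by omega),
        Polynomial.coeff_eq_zero_of_natDegree_lt (show Q.natDegree < N by omega)]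
      ring
  obtain ⟨K, hK, hb⟩ := s02_poly _ hF
  set S : ℝ := ∑ i ∈ Finset.range (d + 1), ∑ j ∈ Finset.range (d + 1),
    ‖P.coeff i * Q.coeff j‖ * d with hS
  have hS0 : 0 ≤ S := Finset.sum_nonneg fun i _ => Finset.sum_nonneg fun j _ => by positivity
  refine ⟨S + K + 1, by positivity, ?_, ?_⟩
  · intro x y
    have e : P.eval x * Q.eval y - Q.eval x * P.eval y = ∑ i ∈ Finset.range (d + 1),
        ∑ j ∈ Finset.range (d + 1), P.coeff i * Q.coeff j * (x ^ i * y ^ j - x ^ j * y ^ i) := by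
      rw [Polynomial.eval_eq_sum_range' (Nat.lt_succ_of_le dP) x,
        Polynomial.eval_eq_sum_range' (Nat.lt_succ_of_le dQ) y,
        Polynomial.eval_eq_sum_range' (Nat.lt_succ_of_le dQ) x,
        Polynomial.eval_eq_sum_range' (Nat.lt_succ_of_le dP) y, mul_comm (∑ i ∈ Finset.range (d + 1), Q.coeff i * x ^ i),
        Finset.sum_mul_sum, Finset.sum_mul_sum, ← Finset.sum_sub_distrib]
      apply Finset.sum_congr rfl
      intro i _
      rw [← Finset.sum_sub_distrib]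
      apply Finset.sum_congr rfl
      intro j _
      ring
    rw [e]
    have hx1 := one_le_sqrt_one_add x
    have hy1 := one_le_sqrt_one_add y
    set X := Real.sqrt (1 + ‖x‖ ^ 2)
    set Y := Real.sqrt (1 + ‖y‖ ^ 2)
    have hW : 0 ≤ ‖x - y‖ * X ^ (d - 1) * Y ^ (d - 1) := by positivity
    calc ‖∑ i ∈ Finset.range (d + 1), ∑ j ∈ Finset.range (d + 1),
          P.coeff i * Q.coeff j * (x ^ i * y ^ j - x ^ j * y ^ i)‖
        ≤ ∑ i ∈ Finset.range (d + 1), ∑ j ∈ Finset.range (d + 1),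
          ‖P.coeff i * Q.coeff j‖ * d * (‖x - y‖ * X ^ (d - 1) * Y ^ (d - 1)) := by
          refine (norm_sum_le _ _).trans (Finset.sum_le_sum fun i hi => ?_)
          refine (norm_sum_le _ _).trans (Finset.sum_le_sum fun j hj => ?_)
          rw [norm_mul]
          have h1 := s02_pow' x y (d := d) (i := i) (j := j) (by omega)
            (by have := Finset.mem_range.1 hi; omega) (by have := Finset.mem_range.1 hj; omega)
          calc ‖P.coeff i * Q.coeff j‖ * ‖x ^ i * y ^ j - x ^ j * y ^ i‖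
              ≤ ‖P.coeff i * Q.coeff j‖ * (d * ‖x - y‖ * X ^ (d - 1) * Y ^ (d - 1)) :=
                mul_le_mul_of_nonneg_left h1 (norm_nonneg _)
            _ = _ := by ring
      _ = S * (‖x - y‖ * X ^ (d - 1) * Y ^ (d - 1)) := by
          rw [hS, Finset.sum_mul]
          apply Finset.sum_congr rfl
          intro i _
          rw [Finset.sum_mul]
      _ ≤ (S + K + 1) * (‖x - y‖ * X ^ (d - 1) * Y ^ (d - 1)) :=
          mul_le_mul_of_nonneg_right (by linarith) hW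
      _ = _ := by ring
  · intro x
    have h1 := hb x
    rw [Polynomial.eval_sub, Polynomial.eval_mul, Polynomial.eval_mul, Polynomial.eval_C,
      Polynomial.eval_C] at h1
    refine h1.trans (mul_le_mul_of_nonneg_right (by linarith) (by positivity))

end Pool.Agent.Lib.MP_e4ee3e_an
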