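import Pool.Agent.Lib.MP_e4ee3e_an.S01
import Pool.Agent.Lib.MP_e4ee3e_an.S02

/-!
S03. A rational map is Lipschitz for the chordal metric, in particular continuous.
Cases (finite, finite), (finite, infinity), (infinity, infinity) with S01 and S02; note that
eval x and the coefficients of degree d are not both 0 by S02 (lower bound).
-/

open MeasureTheory Filter Topology

namespace Pool.Agent.Lib.MP_e4ee3e_an

attribute [local instance] chMetric

theorem ratMap_lipschitz {P Q : Polynomial ℂ} {d : ℕ} (h : RatData P Q d) :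
    ∃ L : ℝ, 2 ≤ L ∧ ∀ x y, dist (ratMap P Q x) (ratMap P Q y) ≤ L * dist x y := by
  obtain ⟨c, hc, hlow, hlowd⟩ := ratData_lower h
  obtain ⟨C, hC, hup, hupd⟩ := ratData_upper h
  have hd := h.two
  obtain ⟨k, rfl⟩ : ∃ k, d = k + 1 := ⟨d - 1, by omega⟩
  rw [Nat.add_sub_cancel] at hup hupd
  have hne : ∀ x : ℂ, (P.eval x, Q.eval x) ≠ (0, 0) := fun x => s02_ne h x
  have hned : (P.coeff (k + 1), Q.coeff (k + 1)) ≠ (0, 0) := s02_coeff h
  have hfin : ∀ x : ℂ, ratMap P Q (x : OnePoint ℂ) = ratio (P.eval x) (Q.eval x) := fun x => rfl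
  have hinf : ratMap P Q OnePoint.infty = ratio (P.coeff (k + 1)) (Q.coeff (k + 1)) := by
    have : ratMap P Q OnePoint.infty = ratio (P.coeff (max P.natDegree Q.natDegree))
      (Q.coeff (max P.natDegree Q.natDegree)) := rfl
    rw [this, h.deg]
  have hfi : ∀ x : ℂ, dist (ratMap P Q (x : OnePoint ℂ)) (ratMap P Q OnePoint.infty) ≤
      C / c ^ 2 * dist (x : OnePoint ℂ) OnePoint.infty := by
    intro x
    rw [hfin, hinf, dist_ratio (hne x) hned, dist_coe_infty]
    have hX := one_le_sqrt_one_add x
    have hX0 : 0 < Real.sqrt (1 + ‖x‖ ^ 2) := by linarith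
    have l1 := hlow x
    have u1 := hupd x
    set X := Real.sqrt (1 + ‖x‖ ^ 2)
    have hXk : 0 < X ^ k := by positivity
    have hXk1 : 0 < X ^ (k + 1) := by positivity
    have h1 : c * X ^ (k + 1) * c ≤ nrm (P.eval x, Q.eval x) * nrm (P.coeff (k + 1), Q.coeff (k + 1)) :=
      mul_le_mul l1 hlowd hc.le (nrm_nonneg _)
    calc ‖P.eval x * Q.coeff (k + 1) - Q.eval x * P.coeff (k + 1)‖ /
          (nrm (P.eval x, Q.eval x) * nrm (P.coeff (k + 1), Q.coeff (k + 1)))
        ≤ C * X ^ k / (c * X ^ (k + 1) * c) := div_le_div₀ (by positivity) u1 (by positivity) h1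
      _ = C / c ^ 2 * (1 / X) := by
          rw [pow_succ]
          field_simp
  refine ⟨max 2 (C / c ^ 2), le_max_left _ _, ?_⟩
  have hle : ∀ x y : OnePoint ℂ, dist (ratMap P Q x) (ratMap P Q y) ≤ C / c ^ 2 * dist x y := by
    intro x y
    cases x using OnePoint.rec with
    | infty =>
      cases y using OnePoint.rec with
      | infty => simp
      | coe y =>
        rw [dist_comm, dist_comm OnePoint.infty]
        exact hfi y
    | coe x =>
      cases y using OnePoint.rec with
      | infty => exact hfi x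
      | coe y =>
        rw [hfin, hfin, dist_ratio (hne x) (hne y), dist_coe]
        have hX := one_le_sqrt_one_add x
        have hY := one_le_sqrt_one_add y
        have l1 := hlow x
        have l2 := hlow y
        have u1 := hup x y
        set X := Real.sqrt (1 + ‖x‖ ^ 2)
        set Y := Real.sqrt (1 + ‖y‖ ^ 2)
        have hX0 : 0 < X := by linarith
        have hY0 : 0 < Y := by linarith
        have h1 : c * X ^ (k + 1) * (c * Y ^ (k + 1)) ≤
            nrm (P.eval x, Q.eval x) * nrm (P.eval y, Q.eval y) :=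
          mul_le_mul l1 l2 (by positivity) (nrm_nonneg _)
        calc ‖P.eval x * Q.eval y - Q.eval x * P.eval y‖ /
              (nrm (P.eval x, Q.eval x) * nrm (P.eval y, Q.eval y))
            ≤ C * ‖x - y‖ * X ^ k * Y ^ k / (c * X ^ (k + 1) * (c * Y ^ (k + 1))) :=
              div_le_div₀ (by positivity) u1 (by positivity) h1
          _ = C / c ^ 2 * (‖x - y‖ / (X * Y)) := by
              rw [pow_succ, pow_succ]
              field_simp
  intro x y
  exact (hle x y).trans (mul_le_mul_of_nonneg_right (le_max_right _ _) dist_nonneg)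

theorem ratMap_continuous {P Q : Polynomial ℂ} {d : ℕ} (h : RatData P Q d) :
    Continuous (ratMap P Q) := by
  obtain ⟨L, hL, hb⟩ := ratMap_lipschitz h
  have h1 : LipschitzWith (Real.toNNReal L) (ratMap P Q) :=
    LipschitzWith.of_dist_le_mul fun x y => by
      rw [Real.coe_toNNReal L (by linarith)]
      exact hb x y
  exact h1.continuous

theorem ratMap_iter_continuous {P Q : Polynomial ℂ} {d : ℕ} (h : RatData P Q d) (n : ℕ) :
    Continuous ((ratMap P Q)^[n]) := by
  exact (ratMap_continuous h).iterate n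

end Pool.Agent.Lib.MP_e4ee3e_an
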