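import Pool.Agent.Lib.MP_e4ee3e_an.S03
import Pool.Agent.Lib.MP_e4ee3e_an.S04

/-!
S07. ratMap is a covering map over good1. For x with ratMap x in good1: x is not marked, so x is
finite, Wronskian nonzero, and Q x nonzero (the value is finite). Near x the map is
coe o (P/Q) with P/Q having nonzero strict derivative: local homeomorphism
(HasStrictDerivAt.toOpenPartialHomeomorph; compose with the open embedding coe of the plane).
Then IsCoveringMapOn.of_isLocalHomeomorphOn (OnePoint ℂ is compact Hausdorff, S03 continuity).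
-/

open MeasureTheory Filter Topology

namespace Pool.Agent.Lib.MP_e4ee3e_an

attribute [local instance] chMetric

/-- The affine form of the map is a local homeomorphism at the preimages of good points. -/
theorem s07_aux (P Q : Polynomial ℂ) :
    IsLocalHomeomorphOn (ratMap P Q ∘ ((↑) : ℂ → OnePoint ℂ))
      {z : ℂ | ratMap P Q (z : OnePoint ℂ) ∈ good1 P Q} := by
  refine IsLocalHomeomorphOn.mk _ _ fun z hz => ?_
  have hval : ratMap P Q (z : OnePoint ℂ) = ratio (P.eval z) (Q.eval z) := rfl
  have hQ : Q.eval z ≠ 0 := by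
    intro h0
    apply hz.1
    rw [hval, ratio, if_pos h0]
  have hW : (Polynomial.derivative P * Q - P * Polynomial.derivative Q).eval z ≠ 0 := by
    intro h0
    exact hz.2 (z : OnePoint ℂ) (Or.inr ⟨z, rfl, h0⟩) rfl
  have hder : HasStrictDerivAt (fun w : ℂ => P.eval w / Q.eval w)
      (((Polynomial.derivative P).eval z * Q.eval z - P.eval z * (Polynomial.derivative Q).eval z)
        / Q.eval z ^ 2) z :=
    (P.hasStrictDerivAt z).fun_div (Q.hasStrictDerivAt z) hQ
  have hne : ((Polynomial.derivative P).eval z * Q.eval z -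
      P.eval z * (Polynomial.derivative Q).eval z) / Q.eval z ^ 2 ≠ 0 := by
    apply div_ne_zero
    · simpa using hW
    · exact pow_ne_zero _ hQ
  have hF := hder.hasStrictFDerivAt_equiv hne
  have hopen : IsOpen {w : ℂ | Q.eval w ≠ 0} := by
    exact isOpen_ne_fun Q.continuous continuous_const
  have hmem := hF.mem_toOpenPartialHomeomorph_source
  set e₁ := hF.toOpenPartialHomeomorph (fun w : ℂ => P.eval w / Q.eval w) with he₁
  set c : OpenPartialHomeomorph ℂ (OnePoint ℂ) :=
    OnePoint.isOpenEmbedding_coe.toOpenPartialHomeomorph _ with hc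
  refine ⟨(e₁.restrOpen _ hopen).trans c, ?_, ?_⟩
  · rw [OpenPartialHomeomorph.trans_source]
    refine ⟨?_, ?_⟩
    · rw [OpenPartialHomeomorph.restrOpen_source]
      exact ⟨hmem, hQ⟩
    · simp [hc]
  · intro w hw
    rw [OpenPartialHomeomorph.trans_source, OpenPartialHomeomorph.restrOpen_source] at hw
    have hw2 : Q.eval w ≠ 0 := hw.1.2
    change ratMap P Q (w : OnePoint ℂ) = ((P.eval w / Q.eval w : ℂ) : OnePoint ℂ)
    have : ratMap P Q (w : OnePoint ℂ) = ratio (P.eval w) (Q.eval w) := rfl
    rw [this, ratio, if_neg hw2]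

theorem ratMap_isLocalHomeomorphOn {P Q : Polynomial ℂ} {d : ℕ} (h : RatData P Q d) :
    IsLocalHomeomorphOn (ratMap P Q) ((ratMap P Q) ⁻¹' (good1 P Q)) := by
  have h1 := (s07_aux P Q).of_comp_right
    (OnePoint.isOpenEmbedding_coe.isLocalHomeomorph.isLocalHomeomorphOn)
  refine h1.mono ?_
  intro x hx
  rcases eq_or_ne x OnePoint.infty with hinf | hinf
  · exfalso
    exact hx.2 OnePoint.infty (Or.inl rfl) (by rw [hinf])
  · obtain ⟨z, rfl⟩ := OnePoint.ne_infty_iff_exists.1 hinf
    exact ⟨z, hx, rfl⟩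

theorem ratMap_isCoveringMapOn {P Q : Polynomial ℂ} {d : ℕ} (h : RatData P Q d) :
    IsCoveringMapOn (ratMap P Q) (good1 P Q) := by
  exact IsCoveringMapOn.of_isLocalHomeomorphOn (ratMap_continuous h) (ratMap_isLocalHomeomorphOn h)

end Pool.Agent.Lib.MP_e4ee3e_an
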