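import Pool.Agent.Lib.MP_e4ee3e_an.Sphere

/-!
Common working definitions for the analytic part.
-/

open MeasureTheory Filter Topology

namespace Pool.Agent.Lib.MP_e4ee3e_an

attribute [local instance] chMetric

/-- Standing hypotheses on the rational map `P / Q` of degree `d`. -/
structure RatData (P Q : Polynomial ℂ) (d : ℕ) : Prop where
  cop : IsCoprime P Q
  deg : max P.natDegree Q.natDegree = d
  two : 2 ≤ d

/-- Marked points: infinity and the finite zeros of the Wronskian. -/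
def marked (P Q : Polynomial ℂ) : Set (OnePoint ℂ) :=
  {c | c = OnePoint.infty ∨ ∃ y : ℂ, c = (y : OnePoint ℂ) ∧
    (Polynomial.derivative P * Q - P * Polynomial.derivative Q).eval y = 0}

/-- Finite points which are not images of marked points. -/
def good1 (P Q : Polynomial ℂ) : Set (OnePoint ℂ) :=
  {y | y ≠ OnePoint.infty ∧ ∀ c ∈ marked P Q, ratMap P Q c ≠ y}

/-- `y` is none of the images of marked points under the first `n` iterates. -/
def AvoidN (P Q : Polynomial ℂ) (n : ℕ) (y : OnePoint ℂ) : Prop :=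
  ∀ k, 1 ≤ k → k ≤ n → ∀ c ∈ marked P Q, (ratMap P Q)^[k] c ≠ y

/-- The disc contains none of the images of marked points under the first `n` iterates. -/
def DiscOK (P Q : Polynomial ℂ) (n : ℕ) (b : ℂ) (r : ℝ) : Prop :=
  ∀ w ∈ Metric.ball b r, AvoidN P Q n (w : OnePoint ℂ)

/-- `φ` is a holomorphic inverse branch of the `n`-th iterate on the disc. -/
def IsBranch (P Q : Polynomial ℂ) (n : ℕ) (b : ℂ) (r : ℝ) (φ : ℂ → ℂ) : Prop :=
  DifferentiableOn ℂ φ (Metric.ball b r) ∧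
    ∀ w ∈ Metric.ball b r, (ratMap P Q)^[n] ((φ w : ℂ) : OnePoint ℂ) = (w : OnePoint ℂ)

/-- Tame point: the images of the marked points approach it at most subexponentially. -/
def Tame (P Q : Polynomial ℂ) (p : OnePoint ℂ) : Prop :=
  ∀ δ : ℝ, 0 < δ → ∃ κ : ℝ, 0 < κ ∧ ∀ k : ℕ, 1 ≤ k → ∀ c ∈ marked P Q,
    κ * Real.exp (-(δ * k)) ≤ dist ((ratMap P Q)^[k] c) p

/-- A set of the plane is tame: the images of marked points approach it at most
subexponentially. -/
def TameSet (P Q : Polynomial ℂ) (S : Set ℂ) : Prop :=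
  ∀ δ : ℝ, 0 < δ → ∃ κ : ℝ, 0 < κ ∧ ∀ k : ℕ, 1 ≤ k → ∀ c ∈ marked P Q, ∀ x ∈ S,
    ∀ w ∈ Metric.ball x (κ * Real.exp (-(δ * k))), (ratMap P Q)^[k] c ≠ (w : OnePoint ℂ)

/-- Tame curve: Lipschitz with tame trace. -/
def TamePath (P Q : Polynomial ℂ) (γ : C(unitInterval, ℂ)) : Prop :=
  (∃ Λ : ℝ, ∀ s t : unitInterval, ‖γ s - γ t‖ ≤ Λ * |(s : ℝ) - t|) ∧
    TameSet P Q (Set.range γ)

/-- The working form of a geometric coding tree. -/
structure TreeCtx (P Q : Polynomial ℂ) (d : ℕ) (root : OnePoint ℂ) (child : Fin d → OnePoint ℂ)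
    (e : Fin d → C(unitInterval, ℂ))
    (G : ℕ → (ℕ → Fin d) → C(unitInterval, OnePoint ℂ)) : Prop where
  data : RatData P Q d
  child_injective : Function.Injective child
  map_child : ∀ i, ratMap P Q (child i) = root
  child_surj : ∀ x, ratMap P Q x = root → ∃ i, child i = x
  e_zero : ∀ i, ((e i 0 : ℂ) : OnePoint ℂ) = root
  e_one : ∀ i, ((e i 1 : ℂ) : OnePoint ℂ) = child i
  e_tame : ∀ i, TamePath P Q (e i)
  G_zero : ∀ α t, G 0 α t = ((e (α 0) t : ℂ) : OnePoint ℂ)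
  G_map : ∀ n α t, ratMap P Q (G (n + 1) α t) = G n (shift α) t
  G_start : ∀ n α, G (n + 1) α 0 = G n α 1

/-- Abstract tree data over a map of a metric space. -/
structure AbsTree (X : Type*) [MetricSpace X] (f : X → X) (L : ℝ) (d : ℕ) where
  root : X
  z : ℕ → (ℕ → Fin d) → X
  D : ℕ → (ℕ → Fin d) → ℝ
  z_congr : ∀ n α β, (∀ i ≤ n, α i = β i) → z n α = z n β
  D_congr : ∀ n α β, (∀ i ≤ n, α i = β i) → D n α = D n β
  D_nonneg : ∀ n α, 0 ≤ D n α
  D_le : ∃ B : ℝ, ∀ n α, D n α ≤ B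
  map_z_zero : ∀ α, f (z 0 α) = root
  map_z_succ : ∀ n α, f (z (n + 1) α) = z n (shift α)
  dist_z : ∀ n α, dist (z n α) (z (n + 1) α) ≤ D (n + 1) α
  D_shift : ∀ n α, D n (shift α) ≤ L * D (n + 1) α
  surj : ∀ n y, f^[n + 1] y = root → ∃ α, z n α = y
  count : ∀ δ : ℝ, 0 < δ → ∃ C : ℝ, ∀ n : ℕ,
    ({w : Fin (n + 1) → Fin d | ∃ α : ℕ → Fin d, (∀ i : Fin (n + 1), α i = w i) ∧
      Real.exp (-(δ * n)) < D n α}.ncard : ℝ) ≤ C * Real.exp (3 * δ * n)

namespace AbsTree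

variable {X : Type*} [MetricSpace X] {f : X → X} {L : ℝ} {d : ℕ}

/-- Codes all of whose edges satisfy an exponential bound. -/
def codes (T : AbsTree X f L d) (δ A : ℝ) : Set (ℕ → Fin d) :=
  {α | ∀ k : ℕ, T.D k α ≤ A * Real.exp (-(δ * k))}

/-- The points coded by such codes. -/
def pts (T : AbsTree X f L d) (δ A : ℝ) : Set X :=
  {x | ∃ α ∈ T.codes δ A, Tendsto (fun n => T.z n α) atTop (𝓝 x)}

/-- The points coded by a good code. -/
def ptsAll (T : AbsTree X f L d) (δ : ℝ) : Set X := ⋃ A : ℕ, T.pts δ (A : ℝ)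

/-- Points near which every deep vertex has a bad initial word of level at least `k₀`. -/
def nobad (T : AbsTree X f L d) (δ : ℝ) (k₀ : ℕ) (ε₀ : ℝ) (N₀ : ℕ) : Set X :=
  {x | ∀ n, N₀ ≤ n → ∀ α, dist x (T.z n α) < ε₀ →
    ∃ l, k₀ ≤ l ∧ l ≤ n ∧ Real.exp (-(δ * l)) < T.D l α}

end AbsTree

/-- Number of times `t < n` at which the orbit of `x` is outside `S`. -/
noncomputable def badCount {X : Type*} (f : X → X) (S : Set X) (n : ℕ) (x : X) : ℕ :=
  {t : ℕ | t < n ∧ f^[t] x ∉ S}.ncard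

end Pool.Agent.Lib.MP_e4ee3e_an
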