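import Pool.Agent.Lib.MP_e4ee3e_an.Defs

/-!
The chordal metric on the Riemann sphere.
-/

open MeasureTheory Filter Topology ComplexConjugate

namespace Pool.Agent.Lib.MP_e4ee3e_an

/-- Homogeneous coordinates. -/
noncomputable def hom (p : OnePoint ℂ) : ℂ × ℂ :=
  match p with
  | OnePoint.infty => (1, 0)
  | OnePoint.some x => (x, 1)

/-- Hermitian norm on pairs. -/
noncomputable def nrm (u : ℂ × ℂ) : ℝ := Real.sqrt (‖u.1‖ ^ 2 + ‖u.2‖ ^ 2)

/-- Determinant of two vectors. -/
noncomputable def wdg (u v : ℂ × ℂ) : ℂ := u.1 * v.2 - u.2 * v.1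

/-- Chordal distance. -/
noncomputable def chd (p q : OnePoint ℂ) : ℝ :=
  ‖wdg (hom p) (hom q)‖ / (nrm (hom p) * nrm (hom q))

@[simp] lemma hom_coe (x : ℂ) : hom (x : OnePoint ℂ) = (x, 1) := rfl
@[simp] lemma hom_infty : hom (OnePoint.infty) = (1, 0) := rfl

lemma nrm_nonneg (u : ℂ × ℂ) : 0 ≤ nrm u := Real.sqrt_nonneg _

lemma nrm_sq (u : ℂ × ℂ) : nrm u ^ 2 = ‖u.1‖ ^ 2 + ‖u.2‖ ^ 2 :=
  Real.sq_sqrt (by positivity)

lemma nrm_pos_of_ne {u : ℂ × ℂ} (h : u ≠ 0) : 0 < nrm u := by
  have : 0 < ‖u.1‖ ^ 2 + ‖u.2‖ ^ 2 := by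
    rcases eq_or_ne u.1 0 with h1 | h1
    · have h2 : u.2 ≠ 0 := fun h2 => h (Prod.ext h1 h2)
      positivity
    · positivity
  exact Real.sqrt_pos.2 this

lemma hom_ne_zero (p : OnePoint ℂ) : hom p ≠ 0 := by
  cases p using OnePoint.rec with
  | infty => simp [Prod.ext_iff]
  | coe x => simp [Prod.ext_iff]

lemma nrm_hom_pos (p : OnePoint ℂ) : 0 < nrm (hom p) := nrm_pos_of_ne (hom_ne_zero p)

/-- Hermitian product. -/
noncomputable def inr (u v : ℂ × ℂ) : ℂ := u.1 * conj v.1 + u.2 * conj v.2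

lemma norm_inr_le (u v : ℂ × ℂ) : ‖inr u v‖ ≤ nrm u * nrm v := by
  have h1 : ‖inr u v‖ ≤ ‖u.1‖ * ‖v.1‖ + ‖u.2‖ * ‖v.2‖ := by
    refine (norm_add_le _ _).trans ?_
    simp
  refine h1.trans ?_
  rw [nrm, nrm, ← Real.sqrt_mul (by positivity)]
  apply Real.le_sqrt_of_sq_le
  nlinarith [sq_nonneg (‖u.1‖ * ‖v.2‖ - ‖u.2‖ * ‖v.1‖)]

lemma norm_wdg_le (u v : ℂ × ℂ) : ‖wdg u v‖ ≤ nrm u * nrm v := by
  have h1 : ‖wdg u v‖ ≤ ‖u.1‖ * ‖v.2‖ + ‖u.2‖ * ‖v.1‖ := by
    refine (norm_sub_le _ _).trans ?_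
    simp
  refine h1.trans ?_
  rw [nrm, nrm, ← Real.sqrt_mul (by positivity)]
  apply Real.le_sqrt_of_sq_le
  nlinarith [sq_nonneg (‖u.1‖ * ‖v.1‖ - ‖u.2‖ * ‖v.2‖)]

lemma wdg_identity (u v w : ℂ × ℂ) :
    ((nrm v ^ 2 : ℝ) : ℂ) * wdg u w = inr u v * wdg v w + wdg u v * inr w v := by
  have h1 : ((nrm v ^ 2 : ℝ) : ℂ) = v.1 * conj v.1 + v.2 * conj v.2 := by
    rw [nrm_sq, Complex.mul_conj, Complex.mul_conj, Complex.normSq_eq_norm_sq,
      Complex.normSq_eq_norm_sq]
    push_cast
    ring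
  rw [h1]
  simp only [wdg, inr]
  ring

lemma chd_self (p : OnePoint ℂ) : chd p p = 0 := by
  have : wdg (hom p) (hom p) = 0 := by simp only [wdg]; ring
  simp [chd, this]

lemma chd_comm (p q : OnePoint ℂ) : chd p q = chd q p := by
  have : wdg (hom p) (hom q) = - wdg (hom q) (hom p) := by simp only [wdg]; ring
  simp only [chd]
  rw [this, norm_neg, mul_comm (nrm (hom p))]

lemma chd_nonneg (p q : OnePoint ℂ) : 0 ≤ chd p q := by
  unfold chd
  have h1 := nrm_hom_pos p
  have h2 := nrm_hom_pos q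
  positivity

lemma chd_le_one (p q : OnePoint ℂ) : chd p q ≤ 1 := by
  unfold chd
  have h1 := nrm_hom_pos p
  have h2 := nrm_hom_pos q
  rw [div_le_one (by positivity)]
  exact norm_wdg_le _ _

lemma chd_triangle (p q r : OnePoint ℂ) : chd p r ≤ chd p q + chd q r := by
  have hp := nrm_hom_pos p
  have hq := nrm_hom_pos q
  have hr := nrm_hom_pos r
  have key : nrm (hom q) ^ 2 * ‖wdg (hom p) (hom r)‖ ≤
      nrm (hom p) * nrm (hom q) * ‖wdg (hom q) (hom r)‖ +
      ‖wdg (hom p) (hom q)‖ * (nrm (hom r) * nrm (hom q)) := by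
    have h1 := congrArg norm (wdg_identity (hom p) (hom q) (hom r))
    rw [norm_mul, Complex.norm_real, Real.norm_of_nonneg (by positivity)] at h1
    rw [h1]
    refine (norm_add_le _ _).trans ?_
    rw [norm_mul, norm_mul]
    gcongr
    · exact norm_inr_le _ _
    · exact norm_inr_le _ _
  unfold chd
  rw [div_add_div _ _ (by positivity) (by positivity), div_le_div_iff₀ (by positivity) (by positivity)]
  have := mul_le_mul_of_nonneg_left key (show 0 ≤ nrm (hom p) * nrm (hom r) by positivity)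
  nlinarith [this]

lemma eq_of_chd_eq_zero {p q : OnePoint ℂ} (h : chd p q = 0) : p = q := by
  have hp := nrm_hom_pos p
  have hq := nrm_hom_pos q
  unfold chd at h
  rw [div_eq_zero_iff] at h
  rcases h with h | h
  · rw [norm_eq_zero] at h
    cases p using OnePoint.rec with
    | infty =>
      cases q using OnePoint.rec with
      | infty => rfl
      | coe y => simp [wdg] at h
    | coe x =>
      cases q using OnePoint.rec with
      | infty => simp [wdg] at h
      | coe y =>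
        simp only [wdg, hom_coe, mul_one, one_mul] at h
        rw [sub_eq_zero.1 h]
  · exfalso
    have : 0 < nrm (hom p) * nrm (hom q) := by positivity
    exact this.ne' h

/-- The bare chordal metric space structure. -/
noncomputable abbrev chMetric0 : MetricSpace (OnePoint ℂ) where
  dist := chd
  dist_self := chd_self
  dist_comm := chd_comm
  dist_triangle := chd_triangle
  eq_of_dist_eq_zero := eq_of_chd_eq_zero

lemma chd_coe (x y : ℂ) :
    chd (x : OnePoint ℂ) (y : OnePoint ℂ) =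
      ‖x - y‖ / (Real.sqrt (1 + ‖x‖ ^ 2) * Real.sqrt (1 + ‖y‖ ^ 2)) := by
  simp [chd, wdg, nrm, add_comm]

lemma chd_coe_infty (x : ℂ) :
    chd (x : OnePoint ℂ) OnePoint.infty = 1 / Real.sqrt (1 + ‖x‖ ^ 2) := by
  simp [chd, wdg, nrm, add_comm]

lemma chd_infty_coe (x : ℂ) :
    chd OnePoint.infty (x : OnePoint ℂ) = 1 / Real.sqrt (1 + ‖x‖ ^ 2) := by
  rw [chd_comm, chd_coe_infty]

lemma one_le_sqrt_one_add (x : ℂ) : 1 ≤ Real.sqrt (1 + ‖x‖ ^ 2) := by
  rw [Real.one_le_sqrt]
  nlinarith [sq_nonneg ‖x‖]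

lemma chd_coe_le (x y : ℂ) : chd (x : OnePoint ℂ) (y : OnePoint ℂ) ≤ ‖x - y‖ := by
  rw [chd_coe]
  apply div_le_self (norm_nonneg _)
  have h1 := one_le_sqrt_one_add x
  have h2 := one_le_sqrt_one_add y
  nlinarith

lemma chd_tendsto (p : OnePoint ℂ) : Tendsto (fun q => chd q p) (𝓝 p) (𝓝 0) := by
  cases p using OnePoint.rec with
  | infty =>
    rw [OnePoint.tendsto_nhds_infty]
    have h1 : Tendsto (fun x : ℂ => ‖x‖) (Filter.cocompact ℂ) atTop :=
      tendsto_norm_cocompact_atTop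
    have h2 : Tendsto (fun x : ℂ => 1 / Real.sqrt (1 + ‖x‖ ^ 2)) (Filter.cocompact ℂ) (𝓝 0) := by
      have h3 : Tendsto (fun x : ℂ => (‖x‖)⁻¹) (Filter.cocompact ℂ) (𝓝 0) :=
        tendsto_inv_atTop_zero.comp h1
      have h4 : ∀ᶠ x : ℂ in Filter.cocompact ℂ, 1 ≤ ‖x‖ := h1.eventually_ge_atTop 1
      refine tendsto_of_tendsto_of_tendsto_of_le_of_le' tendsto_const_nhds h3 ?_ ?_
      · exact Filter.Eventually.of_forall fun x => by positivity
      · filter_upwards [h4] with x hx
        rw [one_div]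
        apply inv_anti₀ (by linarith)
        apply Real.le_sqrt_of_sq_le
        nlinarith
    intro s hs
    refine ⟨?_, ?_⟩
    · rw [chd_self]; exact mem_of_mem_nhds hs
    · have h5 := h2.eventually hs
      rw [Filter.eventually_iff, Filter.mem_cocompact'] at h5
      obtain ⟨t, ht, hts⟩ := h5
      refine ⟨t, ht.isClosed, ht, fun x hx => ?_⟩
      by_contra hc
      apply hx
      apply hts
      intro hc2
      apply hc
      simp only [Function.comp]
      rw [chd_coe_infty]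
      exact hc2
  | coe x =>
    rw [OnePoint.nhds_coe_eq, Filter.tendsto_map'_iff]
    have h1 : Tendsto (fun y : ℂ => ‖y - x‖) (𝓝 x) (𝓝 0) := by
      have h0 : Continuous fun y : ℂ => ‖y - x‖ := by fun_prop
      have := h0.tendsto x
      simpa using this
    refine tendsto_of_tendsto_of_tendsto_of_le_of_le tendsto_const_nhds h1 ?_ ?_
    · intro y; exact chd_nonneg _ _
    · intro y; exact chd_coe_le y x

lemma t2_of_metric {X : Type*} (mX : MetricSpace X) :
    @T2Space X mX.toPseudoMetricSpace.toUniformSpace.toTopologicalSpace := inferInstance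

lemma chTopology_eq :
    (OnePoint.instTopologicalSpace : TopologicalSpace (OnePoint ℂ)) =
      chMetric0.toPseudoMetricSpace.toUniformSpace.toTopologicalSpace := by
  have hle : (OnePoint.instTopologicalSpace : TopologicalSpace (OnePoint ℂ)) ≤
      chMetric0.toPseudoMetricSpace.toUniformSpace.toTopologicalSpace := by
    rw [← continuous_id_iff_le]
    refine (@continuous_iff_continuousAt (OnePoint ℂ) (OnePoint ℂ) OnePoint.instTopologicalSpace
      chMetric0.toPseudoMetricSpace.toUniformSpace.toTopologicalSpace id).2 ?_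
    intro p
    refine (@Metric.tendsto_nhds (OnePoint ℂ) (OnePoint ℂ) chMetric0.toPseudoMetricSpace
      _ _ _).2 ?_
    intro ε hε
    have := (chd_tendsto p).eventually (gt_mem_nhds hε)
    exact this
  have h2 : @T2Space (OnePoint ℂ) chMetric0.toPseudoMetricSpace.toUniformSpace.toTopologicalSpace :=
    t2_of_metric chMetric0
  have hc : @CompactSpace (OnePoint ℂ) OnePoint.instTopologicalSpace := inferInstance
  refine le_antisymm hle ?_
  rw [← continuous_id_iff_le]
  have hcont : @Continuous (OnePoint ℂ) (OnePoint ℂ) (OnePoint.instTopologicalSpace)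
      chMetric0.toPseudoMetricSpace.toUniformSpace.toTopologicalSpace (Equiv.refl (OnePoint ℂ)) :=
    continuous_id_iff_le.2 hle
  exact @Continuous.continuous_symm_of_equiv_compact_to_t2 (OnePoint ℂ) (OnePoint ℂ)
    (OnePoint.instTopologicalSpace) chMetric0.toPseudoMetricSpace.toUniformSpace.toTopologicalSpace
    hc h2 (Equiv.refl (OnePoint ℂ)) hcont

/-- The chordal metric space structure on `OnePoint ℂ`, with the usual topology. -/
noncomputable abbrev chMetric : MetricSpace (OnePoint ℂ) :=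
  chMetric0.replaceTopology chTopology_eq

attribute [local instance] chMetric

lemma dist_eq_chd (p q : OnePoint ℂ) : dist p q = chd p q := rfl

lemma dist_coe (x y : ℂ) :
    dist (x : OnePoint ℂ) (y : OnePoint ℂ) =
      ‖x - y‖ / (Real.sqrt (1 + ‖x‖ ^ 2) * Real.sqrt (1 + ‖y‖ ^ 2)) := chd_coe x y

lemma dist_coe_le (x y : ℂ) : dist (x : OnePoint ℂ) (y : OnePoint ℂ) ≤ ‖x - y‖ := chd_coe_le x y

lemma dist_coe_infty (x : ℂ) :
    dist (x : OnePoint ℂ) OnePoint.infty = 1 / Real.sqrt (1 + ‖x‖ ^ 2) := chd_coe_infty x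

lemma dist_le_one (p q : OnePoint ℂ) : dist p q ≤ 1 := chd_le_one p q

/-- check: the topology is the usual one (definitionally) -/
example : (OnePoint.instTopologicalSpace : TopologicalSpace (OnePoint ℂ)) =
    chMetric.toPseudoMetricSpace.toUniformSpace.toTopologicalSpace := rfl

end Pool.Agent.Lib.MP_e4ee3e_an
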