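import Pool.Agent.Lib.MP_e4ee3e_an.Setup

/-!
T02. Area of strips and cones. (a) the set of a in closedBall 0 R with |Im(a * conj u)| <= h,
|u| = 1, is a rotated strip: area <= 4 R h (rotate: a -> a * conj u preserves area; then contained
in the rectangle [-R,R] x [-h,h]). (b) if some point x of the segment [u,a] has |x - q| < s and
q is not u then |Im((a-u) conj(q-u))| <= s |a-u|: write x = u + t (a-u), q - u = t(a-u) + e with
|e| < s. So a - u lies in the strip with h = s (R+|u|)/|q-u|, inside the ball of radius R+|u|.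
-/

open MeasureTheory Filter Topology

namespace Pool.Agent.Lib.MP_e4ee3e_an

attribute [local instance] chMetric

theorem strip_area (u : ℂ) (hu : ‖u‖ = 1) (R h : ℝ) (hR : 0 ≤ R) (hh : 0 ≤ h) :
    volume {a : ℂ | a ∈ Metric.closedBall 0 R ∧ |(a * (starRingEnd ℂ) u).im| ≤ h} ≤
      ENNReal.ofReal (4 * R * h) := by
  have hu' : ‖(starRingEnd ℂ) u‖ = 1 := by rw [RCLike.norm_conj]; exact hu
  set w : Circle := ⟨(starRingEnd ℂ) u, mem_sphere_zero_iff_norm.2 hu'⟩ with hw
  have hwc : (w : ℂ) = (starRingEnd ℂ) u := rfl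
  have hmp : MeasurePreserving (rotation w) volume volume := (rotation w).measurePreserving
  set rect : Set ℂ := Set.Icc (-R) R ×ℂ Set.Icc (-h) h with hrect
  have hrv : volume rect = ENNReal.ofReal (4 * R * h) := by
    have h1 : rect = Complex.measurableEquivRealProd ⁻¹' (Set.Icc (-R) R ×ˢ Set.Icc (-h) h) := by
      ext z
      simp only [hrect, Complex.mem_reProdIm, Set.mem_preimage, Set.mem_prod]
      rfl
    rw [h1, Complex.volume_preserving_equiv_real_prod.measure_preimage
      ((measurableSet_Icc.prod measurableSet_Icc).nullMeasurableSet),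
      Measure.volume_eq_prod, Measure.prod_prod, Real.volume_Icc, Real.volume_Icc,
      ← ENNReal.ofReal_mul (by linarith)]
    congr 1
    ring
  have hmeas : MeasurableSet rect := by
    have h1 : rect = Complex.measurableEquivRealProd ⁻¹' (Set.Icc (-R) R ×ˢ Set.Icc (-h) h) := by
      ext z
      simp only [hrect, Complex.mem_reProdIm, Set.mem_preimage, Set.mem_prod]
      rfl
    rw [h1]
    exact Complex.measurableEquivRealProd.measurable (measurableSet_Icc.prod measurableSet_Icc)
  have hsub : {a : ℂ | a ∈ Metric.closedBall 0 R ∧ |(a * (starRingEnd ℂ) u).im| ≤ h} ⊆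
      (rotation w) ⁻¹' rect := by
    rintro a ⟨ha1, ha2⟩
    rw [Set.mem_preimage, rotation_apply, hwc, hrect, Complex.mem_reProdIm]
    rw [mul_comm] at ha2
    refine ⟨?_, ?_⟩
    · rw [Set.mem_Icc, ← abs_le]
      refine (Complex.abs_re_le_norm _).trans ?_
      rw [norm_mul, hu', one_mul]
      simpa using ha1
    · rw [Set.mem_Icc, ← abs_le]
      exact ha2
  refine (measure_mono hsub).trans ?_
  rw [hmp.measure_preimage hmeas.nullMeasurableSet, hrv]

theorem cone_area (u q : ℂ) (hq : q ≠ u) (R s : ℝ) (hR : 0 ≤ R) (hs : 0 ≤ s) :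
    volume {a : ℂ | a ∈ Metric.closedBall 0 R ∧ ∃ x ∈ segment ℝ u a, ‖x - q‖ < s} ≤
      ENNReal.ofReal (4 * (R + ‖u‖) ^ 2 * s / ‖q - u‖) := by
  have hqu : 0 < ‖q - u‖ := norm_pos_iff.2 (sub_ne_zero.2 hq)
  set v : ℂ := (q - u) / (‖q - u‖ : ℝ) with hv
  have hv1 : ‖v‖ = 1 := by
    rw [hv, norm_div, Complex.norm_real, norm_norm, div_self hqu.ne']
  set R' : ℝ := R + ‖u‖ with hR'
  have hR'0 : 0 ≤ R' := by positivity
  set h' : ℝ := s * R' / ‖q - u‖ with hh'
  have hh'0 : 0 ≤ h' := by positivity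
  have hsub : {a : ℂ | a ∈ Metric.closedBall 0 R ∧ ∃ x ∈ segment ℝ u a, ‖x - q‖ < s} ⊆
      (fun a => a + (-u)) ⁻¹' {b : ℂ | b ∈ Metric.closedBall 0 R' ∧
        |(b * (starRingEnd ℂ) v).im| ≤ h'} := by
    rintro a ⟨ha, x, hx, hxq⟩
    have hna : ‖a‖ ≤ R := by simpa using ha
    have hau : ‖a + (-u)‖ ≤ R' := by
      refine (norm_add_le _ _).trans ?_
      rw [norm_neg, hR']
      linarith
    refine ⟨by simpa using hau, ?_⟩
    rw [segment_eq_image'] at hx
    obtain ⟨t, _, rfl⟩ := hx
    set b : ℂ := a + (-u) with hb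
    set e : ℂ := u + t • (a - u) - q with he
    have hq2 : q - u = (t : ℂ) * b - e := by
      rw [he, hb, Complex.real_smul]
      ring
    have h1 : (b * (starRingEnd ℂ) v).im = (b * (starRingEnd ℂ) (q - u)).im / ‖q - u‖ := by
      rw [hv, map_div₀, Complex.conj_ofReal, ← mul_div_assoc, Complex.div_ofReal_im]
    have h2 : (b * (starRingEnd ℂ) (q - u)).im = -(b * (starRingEnd ℂ) e).im := by
      rw [hq2, map_sub, map_mul, Complex.conj_ofReal, mul_sub, Complex.sub_im]
      have : (b * ((t : ℂ) * (starRingEnd ℂ) b)).im = 0 := by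
        have h3 : b * ((t : ℂ) * (starRingEnd ℂ) b) = (t : ℂ) * (b * (starRingEnd ℂ) b) := by ring
        rw [h3, Complex.mul_conj, ← Complex.ofReal_mul, Complex.ofReal_im]
      rw [this]
      ring
    rw [h1, abs_div, abs_of_pos hqu, h2, abs_neg, hh']
    apply div_le_div_of_nonneg_right _ hqu.le
    refine (Complex.abs_im_le_norm _).trans ?_
    rw [norm_mul, RCLike.norm_conj, mul_comm]
    exact mul_le_mul hxq.le hau (norm_nonneg _) hs
  refine (measure_mono hsub).trans ?_
  rw [measure_preimage_add_right]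
  refine (strip_area v hv1 R' h' hR'0 hh'0).trans ?_
  apply ENNReal.ofReal_le_ofReal
  apply le_of_eq
  rw [hh']
  ring

end Pool.Agent.Lib.MP_e4ee3e_an
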