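import Pool.Agent.Lib.MP_e4ee3e_an.S04
import Pool.Agent.Lib.MP_e4ee3e_an.T01
import Pool.Agent.Lib.MP_e4ee3e_an.T02

/-!
T03. From a tame finite point u almost every segment [u,a] is tame. Fix R, δ = 2/j. For marked c and
k >= 1 with q_k = f^[k] c finite: |q_k - u| >= dist q_k u >= κ exp(-k/j) (tame). Borel-Cantelli for
the sets of a in closedBall 0 R such that [u,a] comes within exp(-2k/j) * (1/2)... of q_k: area
<= C exp(-2k/j) exp(k/j)/κ summable. So for a.e. a, [u,a] stays at distance >= exp(-2k/j) from q_k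
for k large; for the remaining finitely many k need q_k not on [u,a]: the set of a with q_k in
[u,a] has area 0 (cone_area with s -> 0). Compactness of the segment gives a positive distance.
-/

open MeasureTheory Filter Topology

namespace Pool.Agent.Lib.MP_e4ee3e_an

attribute [local instance] chMetric

/-- A subexponentially approached point: almost every segment issued from it is eventually
avoided. -/
lemma t03_borel (u : ℂ) (q : ℕ → OnePoint ℂ)
    (hq : ∀ δ : ℝ, 0 < δ → ∃ κ : ℝ, 0 < κ ∧ ∀ k : ℕ, 1 ≤ k →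
      κ * Real.exp (-(δ * k)) ≤ dist (q k) (u : OnePoint ℂ)) {ε : ℝ} (hε : 0 < ε) :
    ∀ᵐ a : ℂ, ∀ᶠ k : ℕ in atTop, ∀ y : ℂ, q k = (y : OnePoint ℂ) → ∀ x ∈ segment ℝ u a,
      Real.exp (-(ε * k)) ≤ ‖x - y‖ := by
  obtain ⟨κ, hκ, hqk⟩ := hq (ε / 2) (by positivity)
  have hmain : ∀ R : ℕ, ∀ᵐ a : ℂ, ‖a‖ ≤ (R : ℝ) →
      ∀ᶠ k : ℕ in atTop, ∀ y : ℂ, q k = (y : OnePoint ℂ) → ∀ x ∈ segment ℝ u a,
      Real.exp (-(ε * k)) ≤ ‖x - y‖ := by
    intro R
    have hR : (0 : ℝ) ≤ R := Nat.cast_nonneg _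
    set S : ℕ → Set ℂ := fun k => {a | 1 ≤ k ∧ ‖a‖ ≤ (R : ℝ) ∧ ∃ y : ℂ,
      q k = (y : OnePoint ℂ) ∧ ∃ x ∈ segment ℝ u a, ‖x - y‖ < Real.exp (-(ε * k))} with hS
    have hvol : ∀ k, volume (S k) ≤
        ENNReal.ofReal ((4 * ((R : ℝ) + ‖u‖) ^ 2 / κ) * Real.exp (-((ε / 2) * k))) := by
      intro k
      by_cases hk : 1 ≤ k
      swap
      · have : S k = ∅ := by
          ext z
          simp only [hS, Set.mem_ofPred_eq, Set.mem_empty_iff_false, iff_false]
          rintro ⟨h1, _⟩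
          exact hk h1
        rw [this]
        simp
      cases hqc : q k using OnePoint.rec with
      | infty =>
        have : S k = ∅ := by
          ext z
          simp only [hS, Set.mem_ofPred_eq, Set.mem_empty_iff_false, iff_false]
          rintro ⟨_, _, y, hy, _⟩
          rw [hqc] at hy
          exact OnePoint.infty_ne_coe y hy
        rw [this]
        simp
      | coe y =>
        have h1 := hqk k hk
        rw [hqc] at h1
        have h2 := h1.trans (dist_coe_le y u)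
        have h3 : 0 < κ * Real.exp (-(ε / 2 * k)) := by positivity
        have hyu : 0 < ‖y - u‖ := h3.trans_le h2
        have hne : y ≠ u := fun he => by
          rw [he, sub_self, norm_zero] at hyu
          exact lt_irrefl _ hyu
        have hsub : S k ⊆ {a : ℂ | a ∈ Metric.closedBall 0 (R : ℝ) ∧
            ∃ x ∈ segment ℝ u a, ‖x - y‖ < Real.exp (-(ε * k))} := by
          rintro a ⟨_, ha, y', hy', hx⟩
          rw [hqc] at hy'
          have : y = y' := OnePoint.coe_injective hy'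
          subst this
          exact ⟨by simpa using ha, hx⟩
        refine (measure_mono hsub).trans ((cone_area u y hne R _ hR (Real.exp_pos _).le).trans ?_)
        apply ENNReal.ofReal_le_ofReal
        have he : Real.exp (-(ε * k)) = Real.exp (-(ε / 2 * k)) * Real.exp (-(ε / 2 * k)) := by
          rw [← Real.exp_add]
          congr 1
          ring
        rw [div_le_iff₀ hyu]
        calc 4 * ((R : ℝ) + ‖u‖) ^ 2 * Real.exp (-(ε * k))
            = 4 * ((R : ℝ) + ‖u‖) ^ 2 / κ * Real.exp (-(ε / 2 * k)) *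
                (κ * Real.exp (-(ε / 2 * k))) := by
              rw [he]
              field_simp
          _ ≤ 4 * ((R : ℝ) + ‖u‖) ^ 2 / κ * Real.exp (-(ε / 2 * k)) * ‖y - u‖ :=
              mul_le_mul_of_nonneg_left h2 (by positivity)
    have hsum : (∑' k, volume (S k)) ≠ ⊤ := by
      refine ne_top_of_le_ne_top ?_ (ENNReal.tsum_le_tsum hvol)
      exact (t01_summable (by positivity) _).tsum_ofReal_ne_top
    have hbc := ae_eventually_notMem hsum
    filter_upwards [hbc] with a ha haR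
    filter_upwards [ha, eventually_ge_atTop 1] with k h1 h2 y hy x hx
    by_contra h3
    exact h1 ⟨h2, haR, y, hy, x, hx, not_le.1 h3⟩
  have hall := ae_all_iff.2 hmain
  filter_upwards [hall] with a ha
  obtain ⟨R, hR⟩ := exists_nat_ge ‖a‖
  exact ha R hR

/-- Almost every segment from u misses a given point. -/
lemma t03_miss (u y : ℂ) (hy : y ≠ u) : ∀ᵐ a : ℂ, y ∉ segment ℝ u a := by
  have hyu : 0 < ‖y - u‖ := norm_pos_iff.2 (sub_ne_zero.2 hy)
  have hmain : ∀ R : ℕ, ∀ᵐ a : ℂ, ‖a‖ ≤ (R : ℝ) → y ∉ segment ℝ u a := by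
    intro R
    have hR : (0 : ℝ) ≤ R := Nat.cast_nonneg _
    rw [ae_iff]
    set C : ℝ := 4 * ((R : ℝ) + ‖u‖) ^ 2 / ‖y - u‖ with hC
    have hb : ∀ s : ℝ, 0 < s → volume {a : ℂ | ¬(‖a‖ ≤ (R : ℝ) → y ∉ segment ℝ u a)} ≤
        ENNReal.ofReal (C * s) := by
      intro s hs
      have hsub : {a : ℂ | ¬(‖a‖ ≤ (R : ℝ) → y ∉ segment ℝ u a)} ⊆
          {a : ℂ | a ∈ Metric.closedBall 0 (R : ℝ) ∧ ∃ x ∈ segment ℝ u a, ‖x - y‖ < s} := by
        intro a ha
        have ha' : ¬(‖a‖ ≤ (R : ℝ) → y ∉ segment ℝ u a) := ha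
        push Not at ha'
        exact ⟨by simpa using ha'.1, y, ha'.2, by simpa using hs⟩
      refine (measure_mono hsub).trans ((cone_area u y hy R s hR hs.le).trans ?_)
      apply ENNReal.ofReal_le_ofReal
      apply le_of_eq
      rw [hC]
      ring
    have ht : Tendsto (fun s : ℝ => ENNReal.ofReal (C * s)) (𝓝[>] 0) (𝓝 0) := by
      have h1 : Tendsto (fun s : ℝ => C * s) (𝓝 0) (𝓝 (C * 0)) :=
        (continuous_const.mul continuous_id).tendsto 0
      have h2 := (ENNReal.tendsto_ofReal h1).mono_left (nhdsWithin_le_nhds (s := Set.Ioi 0))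
      simpa using h2
    have hle := ge_of_tendsto ht (by
      filter_upwards [self_mem_nhdsWithin] with s hs using hb s hs)
    exact le_antisymm hle zero_le
  have hall := ae_all_iff.2 hmain
  filter_upwards [hall] with a ha
  obtain ⟨R, hR⟩ := exists_nat_ge ‖a‖
  exact ha R hR

lemma t03_segment_compact (u a : ℂ) : IsCompact (segment ℝ u a) := by
  rw [segment_eq_image']
  exact isCompact_Icc.image (by fun_prop)

theorem tameSeg_ae {P Q : Polynomial ℂ} {d : ℕ} (h : RatData P Q d) (u : ℂ)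
    (hu : Tame P Q (u : OnePoint ℂ)) :
    ∀ᵐ a : ℂ, TameSet P Q (segment ℝ u a) := by
  have hfin := marked_finite h
  have h1 : ∀ c ∈ marked P Q, ∀ᵐ a : ℂ, (∀ j : ℕ, ∀ᶠ k : ℕ in atTop, ∀ y : ℂ,
      (ratMap P Q)^[k] c = (y : OnePoint ℂ) → ∀ x ∈ segment ℝ u a,
      Real.exp (-((1 / ((j : ℝ) + 1)) * k)) ≤ ‖x - y‖) ∧
      ∀ k : ℕ, 1 ≤ k → ∀ y : ℂ, (ratMap P Q)^[k] c = (y : OnePoint ℂ) → y ∉ segment ℝ u a := by
    intro c hc
    have hq : ∀ δ : ℝ, 0 < δ → ∃ κ : ℝ, 0 < κ ∧ ∀ k : ℕ, 1 ≤ k →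
        κ * Real.exp (-(δ * k)) ≤ dist ((fun k => (ratMap P Q)^[k] c) k) (u : OnePoint ℂ) := by
      intro δ hδ
      obtain ⟨κ, hκ, hk⟩ := hu δ hδ
      exact ⟨κ, hκ, fun k hk1 => hk k hk1 c hc⟩
    have ha : ∀ᵐ a : ℂ, ∀ j : ℕ, ∀ᶠ k : ℕ in atTop, ∀ y : ℂ,
      (ratMap P Q)^[k] c = (y : OnePoint ℂ) → ∀ x ∈ segment ℝ u a,
      Real.exp (-((1 / ((j : ℝ) + 1)) * k)) ≤ ‖x - y‖ := by
      rw [ae_all_iff]
      intro j
      exact t03_borel u (fun k => (ratMap P Q)^[k] c) hq (by positivity)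
    have hb : ∀ᵐ a : ℂ, ∀ k : ℕ, 1 ≤ k → ∀ y : ℂ, (ratMap P Q)^[k] c = (y : OnePoint ℂ) →
        y ∉ segment ℝ u a := by
      rw [ae_all_iff]
      intro k
      by_cases hk : 1 ≤ k
      swap
      · exact Filter.Eventually.of_forall fun a h => absurd h hk
      cases hqc : (ratMap P Q)^[k] c using OnePoint.rec with
      | infty =>
        exact Filter.Eventually.of_forall fun a _ y hy => absurd hy (OnePoint.infty_ne_coe y)
      | coe y =>
        have hne : y ≠ u := by
          intro he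
          have := tame_ne hu hk hc
          rw [hqc, he] at this
          exact this rfl
        filter_upwards [t03_miss u y hne] with a ha _ y' hy'
        have : y = y' := OnePoint.coe_injective hy'
        rw [← this]
        exact ha
    filter_upwards [ha, hb] with a ha hb using ⟨ha, hb⟩
  have h2 := (Filter.eventually_all_finite hfin).2 h1
  filter_upwards [h2] with a ha
  intro δ hδ
  obtain ⟨j, hj⟩ := exists_nat_one_div_lt hδ
  have h3 : ∀ c ∈ marked P Q, ∀ᶠ κ : ℝ in 𝓝[>] 0, ∀ k : ℕ, 1 ≤ k → ∀ y : ℂ,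
      (ratMap P Q)^[k] c = (y : OnePoint ℂ) → ∀ x ∈ segment ℝ u a,
      κ * Real.exp (-(δ * k)) ≤ ‖x - y‖ := by
    intro c hc
    obtain ⟨h4, h5⟩ := ha c hc
    classical
    set g : ℕ → ℝ := fun k =>
      if hk : ∃ y : ℂ, (ratMap P Q)^[k] c = (y : OnePoint ℂ) then
        Metric.infDist (Classical.choose hk) (segment ℝ u a) else 1 with hg
    have hgy : ∀ k (y : ℂ), (ratMap P Q)^[k] c = (y : OnePoint ℂ) →
        g k = Metric.infDist y (segment ℝ u a) := by
      intro k y hy
      have hex : ∃ y : ℂ, (ratMap P Q)^[k] c = (y : OnePoint ℂ) := ⟨y, hy⟩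
      have hc1 := Classical.choose_spec hex
      have hc2 : Classical.choose hex = y := OnePoint.coe_injective (hc1.symm.trans hy)
      simp only [hg]
      rw [dif_pos hex, hc2]
    have hne : (segment ℝ u a).Nonempty := ⟨u, left_mem_segment ℝ u a⟩
    have hgpos : ∀ k, 1 ≤ k → 0 < g k := by
      intro k hk
      by_cases hex : ∃ y : ℂ, (ratMap P Q)^[k] c = (y : OnePoint ℂ)
      · obtain ⟨y, hy⟩ := hex
        rw [hgy k y hy]
        exact ((t03_segment_compact u a).isClosed.notMem_iff_infDist_pos hne).1 (h5 k hk y hy)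
      · simp only [hg]
        rw [dif_neg hex]
        exact one_pos
    have hev : ∀ᶠ k : ℕ in atTop, Real.exp (-((1 / ((j : ℝ) + 1)) * k)) ≤ g k := by
      filter_upwards [h4 j] with k hk
      by_cases hex : ∃ y : ℂ, (ratMap P Q)^[k] c = (y : OnePoint ℂ)
      · obtain ⟨y, hy⟩ := hex
        rw [hgy k y hy]
        refine (Metric.le_infDist hne).2 fun {x} hx => ?_
        rw [dist_comm, dist_eq_norm]
        exact hk y hy x hx
      · simp only [hg]
        rw [dif_neg hex]
        rw [Real.exp_le_one_iff]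
        have : 0 ≤ (1 / ((j : ℝ) + 1)) * k := by positivity
        linarith
    filter_upwards [t01_const g hgpos hj.le hev] with κ hκ k hk y hy x hx
    refine (hκ k hk).trans ?_
    rw [hgy k y hy]
    refine (Metric.infDist_le_dist_of_mem hx).trans ?_
    rw [dist_comm, dist_eq_norm]
  have h4 := (Filter.eventually_all_finite hfin).2 h3
  obtain ⟨κ, hκ, hκ0⟩ := (h4.and self_mem_nhdsWithin).exists
  refine ⟨κ, hκ0, fun k hk c hc x hx w hw he => ?_⟩
  have h5 := hκ c hc k hk w he x hx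
  rw [Metric.mem_ball, dist_comm, dist_eq_norm] at hw
  linarith

end Pool.Agent.Lib.MP_e4ee3e_an
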