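import Pool.Agent.Lib.MP_e4ee3e_an.A05
import Pool.Agent.Lib.MP_e4ee3e_an.T06

/-!
T07. Subexponential number of large edges. Fix δ, put δ' = δ/3, κ from tameness of the d curves for
δ' (minimum), Λ Lipschitz constant (>= 1). At level n let r = κ exp(-δ' n) and N the least integer
with Λ/N < r/4, so N <= C exp(δ' n). Piece j of curve i: t in [j/N, (j+1)/N], contained in
ball (e i (j/N)) (r/4), which satisfies DiscOK n (e i (j/N)) r. If the edge G n α has chordal
diameter > exp(-δ n), some piece has two points at distance > exp(-δ n)/N (triangle inequality).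
On this piece G n α = φ o e i, φ the branch with φ (e i (j/N)) = G n α (j/N) (B01 and uniqueness:
compare along the piece, e.g. via path_unique after reparametrisation, or extend: both t -> G n α t
and t -> φ (e i t) on the interval; iter_path_unique for the reparametrised paths). So the value
v = G n α (j/N) belongs to the set counted by A05 with t = exp(-δ n)/N, and (i, j, v) determines the
word (G_inj). Total <= d N (1 + C N^2 exp(2 δ n)) <= C' exp(3 δ n).
-/

open MeasureTheory Filter Topology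

namespace Pool.Agent.Lib.MP_e4ee3e_an

attribute [local instance] chMetric

variable {P Q : Polynomial ℂ} {d : ℕ} {root : OnePoint ℂ} {child : Fin d → OnePoint ℂ}
  {e : Fin d → C(unitInterval, ℂ)} {G : ℕ → (ℕ → Fin d) → C(unitInterval, OnePoint ℂ)}

/-- A piece of an edge is the image of the corresponding piece of the curve under a branch. -/
theorem TreeCtx.piece (T : TreeCtx P Q d root child e G) (n : ℕ) (α : ℕ → Fin d)
    (s t : unitInterval) (hst : s ≤ t) (r : ℝ) (hr : 0 < r) (hok : DiscOK P Q n (e (α n) s) r)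
    (hpiece : ∀ u, s ≤ u → u ≤ t → e (α n) u ∈ Metric.ball (e (α n) s) r) :
    ∃ φ : ℂ → ℂ, IsBranch P Q n (e (α n) s) r φ ∧
      ∀ u, s ≤ u → u ≤ t → G n α u = ((φ (e (α n) u) : ℂ) : OnePoint ℂ) := by
  obtain ⟨φ, hφ, hφv⟩ := branch_exists T.data n (e (α n) s) r hr hok (G n α s) (T.iter n α s)
  refine ⟨φ, hφ, ?_⟩
  let u : unitInterval → unitInterval := fun x => max s (min x t)
  have hu : Continuous u := continuous_const.max (continuous_id.min continuous_const)
  have hu1 : ∀ x, s ≤ u x := fun x => le_max_left _ _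
  have hu2 : ∀ x, u x ≤ t := fun x => max_le hst (min_le_right _ _)
  have hub : ∀ x, e (α n) (u x) ∈ Metric.ball (e (α n) s) r := fun x =>
    hpiece _ (hu1 x) (hu2 x)
  let γ₁ : C(unitInterval, OnePoint ℂ) := ⟨fun x => G n α (u x), (G n α).continuous.comp hu⟩
  have hc2 : Continuous fun x => ((φ (e (α n) (u x)) : ℂ) : OnePoint ℂ) := by
    refine OnePoint.continuous_coe.comp ?_
    exact hφ.1.continuousOn.comp_continuous ((e (α n)).continuous.comp hu) hub
  let γ₂ : C(unitInterval, OnePoint ℂ) := ⟨fun x => ((φ (e (α n) (u x)) : ℂ) : OnePoint ℂ), hc2⟩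
  have hus : u s = s := by
    simp only [u, min_eq_left hst, max_self]
  have h12 : γ₁ = γ₂ := by
    refine iter_path_unique T.data n γ₁ γ₂ s ?_ ?_ ?_
    · change G n α (u s) = ((φ (e (α n) (u s)) : ℂ) : OnePoint ℂ)
      rw [hus, hφv]
    · intro x
      change (ratMap P Q)^[n] (G n α (u x)) = (ratMap P Q)^[n] ((φ (e (α n) (u x)) : ℂ) : OnePoint ℂ)
      rw [T.iter, hφ.2 _ (hub x)]
    · intro x
      change (ratMap P Q)^[n] (G n α (u x)) ≠ OnePoint.infty ∧
        AvoidN P Q n ((ratMap P Q)^[n] (G n α (u x)))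
      rw [T.iter]
      exact T.t06_good n _ _
  intro x hx1 hx2
  have hux : u x = x := by
    simp only [u, min_eq_left hx2, max_eq_right hx1]
  have h3 := DFunLike.congr_fun h12 x
  change G n α (u x) = ((φ (e (α n) (u x)) : ℂ) : OnePoint ℂ) at h3
  rwa [hux] at h3

/-- Uniform constants for the curves. -/
theorem TreeCtx.t07_unif (T : TreeCtx P Q d root child e G) (δ : ℝ) (hδ : 0 < δ) :
    ∃ Λ κ : ℝ, 0 < Λ ∧ 0 < κ ∧ (∀ i s t, ‖e i s - e i t‖ ≤ Λ * |(s : ℝ) - t|) ∧
      ∀ (n : ℕ) (i : Fin d) (s : unitInterval),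
        DiscOK P Q n (e i s) (κ * Real.exp (-(δ * n))) := by
  have h1 : ∀ i, ∃ Λ : ℝ, ∀ s t : unitInterval, ‖e i s - e i t‖ ≤ Λ * |(s : ℝ) - t| :=
    fun i => (T.e_tame i).1
  choose Λ hΛ using h1
  have h2 : ∀ i, ∃ κ : ℝ, 0 < κ ∧ ∀ k : ℕ, 1 ≤ k → ∀ c ∈ marked P Q, ∀ x ∈ Set.range (e i),
    ∀ w ∈ Metric.ball x (κ * Real.exp (-(δ * k))), (ratMap P Q)^[k] c ≠ (w : OnePoint ℂ) :=
    fun i => (T.e_tame i).2 δ hδ
  choose κ hκ0 hκ using h2
  have hS : 0 ≤ ∑ i, (κ i)⁻¹ := Finset.sum_nonneg fun i _ => (inv_pos.2 (hκ0 i)).le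
  have hκle : ∀ i, (1 + ∑ i, (κ i)⁻¹)⁻¹ ≤ κ i := by
    intro i
    rw [inv_le_comm₀ (by linarith) (hκ0 i)]
    have := Finset.single_le_sum (f := fun i => (κ i)⁻¹)
      (fun i _ => (inv_pos.2 (hκ0 i)).le) (Finset.mem_univ i)
    linarith
  refine ⟨1 + ∑ i, |Λ i|, (1 + ∑ i, (κ i)⁻¹)⁻¹, ?_, ?_, ?_, ?_⟩
  · have : 0 ≤ ∑ i, |Λ i| := Finset.sum_nonneg fun i _ => abs_nonneg _
    linarith
  · exact inv_pos.2 (by linarith)
  · intro i s t
    refine (hΛ i s t).trans ?_
    refine mul_le_mul_of_nonneg_right ?_ (abs_nonneg _)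
    have := Finset.single_le_sum (f := fun i => |Λ i|)
      (fun i _ => abs_nonneg _) (Finset.mem_univ i)
    have h3 := le_abs_self (Λ i)
    linarith
  · intro n i s w hw k hk hkn c hc
    refine hκ i k hk c hc (e i s) ⟨s, rfl⟩ w ?_
    rw [Metric.mem_ball] at hw ⊢
    refine hw.trans_le ?_
    refine mul_le_mul (hκle i) ?_ (Real.exp_pos _).le (hκ0 i).le
    apply Real.exp_le_exp.2
    have : (k : ℝ) ≤ n := by exact_mod_cast hkn
    nlinarith

/-- The point `j / N` of the unit interval. -/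
noncomputable def t07_pt (N j : ℕ) (hN : 0 < N) (hj : j ≤ N) : unitInterval :=
  ⟨(j : ℝ) / N, by
    have : (0 : ℝ) < N := by exact_mod_cast hN
    positivity, by
    have : (0 : ℝ) < N := by exact_mod_cast hN
    rw [div_le_one this]
    exact_mod_cast hj⟩

/-- A path with large diameter has a large piece. -/
theorem t07_large {X : Type*} [PseudoMetricSpace X] (g : unitInterval → X) (D : ℝ) (hD : 0 < D)
    (h : D < Metric.diam (Set.range g)) (N : ℕ) (hN : 0 < N) :
    ∃ (j : ℕ) (hj : j < N) (u v : unitInterval),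
      t07_pt N j hN hj.le ≤ u ∧ u ≤ t07_pt N (j + 1) hN hj ∧
      t07_pt N j hN hj.le ≤ v ∧ v ≤ t07_pt N (j + 1) hN hj ∧ D / N ≤ dist (g u) (g v) := by
  have hN' : (0 : ℝ) < N := by exact_mod_cast hN
  have h1 : ∃ x y : unitInterval, x ≤ y ∧ D < dist (g x) (g y) := by
    by_contra hc
    push Not at hc
    refine absurd h (not_lt.2 ?_)
    refine Metric.diam_le_of_forall_dist_le hD.le ?_
    rintro _ ⟨x, rfl⟩ _ ⟨y, rfl⟩
    rcases le_total x y with hxy | hxy
    · exact hc x y hxy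
    · rw [dist_comm]; exact hc y x hxy
  obtain ⟨x, y, hxy, hd⟩ := h1
  let q : ℕ → unitInterval := fun j => if hj : j ≤ N then t07_pt N j hN hj else 1
  let p : ℕ → unitInterval := fun j => max x (min y (q j))
  have hp0 : p 0 = x := by
    have h2 : q 0 = 0 := by
      simp only [q, Nat.zero_le, dif_pos]
      apply Subtype.ext
      simp [t07_pt]
    simp only [p, h2]
    rw [min_eq_right (show (0 : unitInterval) ≤ y from y.2.1),
      max_eq_left (show (0 : unitInterval) ≤ x from x.2.1)]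
  have hpN : p N = y := by
    have h2 : q N = 1 := by
      simp only [q, le_refl, dif_pos]
      apply Subtype.ext
      simp [t07_pt, hN'.ne']
    simp only [p, h2]
    rw [min_eq_left (show y ≤ (1 : unitInterval) from y.2.2), max_eq_right hxy]
  have h3 : ∃ j ∈ Finset.range N, D / N < dist (g (p j)) (g (p (j + 1))) := by
    by_contra hc
    push Not at hc
    have h4 := dist_le_range_sum_dist (fun j => g (p j)) N
    have h5 := Finset.sum_le_sum hc
    simp only [Finset.sum_const, Finset.card_range, nsmul_eq_mul] at h5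
    rw [mul_div_cancel₀ _ hN'.ne'] at h5
    rw [hp0, hpN] at h4
    linarith
  obtain ⟨j, hj, hjd⟩ := h3
  have hj := Finset.mem_range.1 hj
  have hq : q j = t07_pt N j hN hj.le := by simp only [q, hj.le, dif_pos]
  have hq1 : q (j + 1) = t07_pt N (j + 1) hN hj := by
    simp only [q]
    rw [dif_pos (show j + 1 ≤ N from hj)]
  have hqq : q j ≤ q (j + 1) := by
    rw [hq, hq1]
    apply Subtype.coe_le_coe.1
    simp only [t07_pt]
    gcongr
    exact_mod_cast Nat.le_succ j
  have hne : p j ≠ p (j + 1) := by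
    intro h
    rw [h, dist_self] at hjd
    exact absurd hjd (not_lt.2 (by positivity))
  have hmono : p j ≤ p (j + 1) := max_le_max le_rfl (min_le_min le_rfl hqq)
  have hlow : q j ≤ p j := by
    rcases le_total (q j) y with h | h
    · calc q j = min y (q j) := (min_eq_right h).symm
        _ ≤ p j := le_max_right _ _
    · exfalso
      apply hne
      simp only [p]
      rw [min_eq_left h, min_eq_left (h.trans hqq)]
  have hup : p (j + 1) ≤ q (j + 1) := by
    rcases le_total x (q (j + 1)) with h | h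
    · exact max_le h (min_le_right _ _)
    · exfalso
      apply hne
      simp only [p]
      rw [max_eq_left ((min_le_right _ _).trans h), max_eq_left ((min_le_right _ _).trans
        (hqq.trans h))]
  refine ⟨j, hj, p j, p (j + 1), ?_, ?_, ?_, ?_, hjd.le⟩
  · rw [← hq]; exact hlow
  · rw [← hq1]; exact hmono.trans hup
  · rw [← hq]; exact hlow.trans hmono
  · rw [← hq1]; exact hup

theorem TreeCtx.bad_count (T : TreeCtx P Q d root child e G) (δ : ℝ) (hδ : 0 < δ) :
    ∃ C : ℝ, ∀ n : ℕ,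
      ({w : Fin (n + 1) → Fin d | ∃ α : ℕ → Fin d, (∀ i : Fin (n + 1), α i = w i) ∧
        Real.exp (-(δ * n)) < Metric.diam (Set.range (G n α))}.ncard : ℝ) ≤
      C * Real.exp (3 * δ * n) := by
  obtain ⟨Λ, κ, hΛ0, hκ0, hΛ, hdisc⟩ := T.t07_unif (δ / 3) (by positivity)
  obtain ⟨CA, hCA0, hCA⟩ := branch_count T.data
  set M : ℝ := 4 * Λ / κ + 2 with hM
  have hM0 : 0 < M := by positivity
  refine ⟨(1 + CA * M ^ 2) * (d * M), fun n => ?_⟩
  set E : ℝ := Real.exp (δ / 3 * n) with hE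
  have hE1 : 1 ≤ E := Real.one_le_exp (by positivity)
  have hE0 : 0 < E := by positivity
  set r : ℝ := κ * Real.exp (-(δ / 3 * n)) with hr
  have hr0 : 0 < r := by positivity
  have hrE : r = κ / E := by rw [hr, Real.exp_neg, hE]; rfl
  set N : ℕ := ⌈4 * Λ / r⌉₊ + 1 with hNdef
  have hN : 0 < N := Nat.succ_pos _
  have hN' : (0 : ℝ) < N := by exact_mod_cast hN
  have hN1 : 4 * Λ / r < N := by
    rw [hNdef]
    push_cast
    linarith [Nat.le_ceil (4 * Λ / r)]
  have hN2 : Λ * (1 / N) < r / 4 := by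
    rw [div_lt_iff₀ hr0] at hN1
    rw [mul_one_div, div_lt_iff₀ hN']
    linarith
  have hN3 : (N : ℝ) ≤ M * E := by
    have h1 := Nat.ceil_lt_add_one (show 0 ≤ 4 * Λ / r by positivity)
    have h2 : 4 * Λ / r = 4 * Λ / κ * E := by
      rw [hrE]; field_simp
    rw [hNdef]
    push_cast
    rw [hM, add_mul]
    linarith
  set D : ℝ := Real.exp (-(δ * n)) with hDdef
  have hD0 : 0 < D := Real.exp_pos _
  set τ : ℝ := D / N with hτ
  have hτ0 : 0 < τ := by positivity
  -- the bad set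
  set W : Set (Fin (n + 1) → Fin d) := {w | ∃ α : ℕ → Fin d, (∀ i : Fin (n + 1), α i = w i) ∧
        D < Metric.diam (Set.range (G n α))} with hW
  have hkey : ∀ w ∈ W, ∃ (α : ℕ → Fin d) (j : Fin N), (∀ i : Fin (n + 1), α i = w i) ∧
      ∃ φ : ℂ → ℂ, IsBranch P Q n (e (α n) (t07_pt N j hN j.2.le)) r φ ∧
        ((φ (e (α n) (t07_pt N j hN j.2.le)) : ℂ) : OnePoint ℂ) =
          G n α (t07_pt N j hN j.2.le) ∧
        ∃ w ∈ Metric.ball (e (α n) (t07_pt N j hN j.2.le)) (r / 4),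
        ∃ w' ∈ Metric.ball (e (α n) (t07_pt N j hN j.2.le)) (r / 4),
          τ ≤ dist ((φ w : ℂ) : OnePoint ℂ) ((φ w' : ℂ) : OnePoint ℂ) := by
    rintro w ⟨α, hα, hdiam⟩
    obtain ⟨j, hj, u, v, hu1, hu2, hv1, hv2, huv⟩ := t07_large (G n α) D hD0 hdiam N hN
    have hin : ∀ x, t07_pt N j hN hj.le ≤ x → x ≤ t07_pt N (j + 1) hN hj →
        e (α n) x ∈ Metric.ball (e (α n) (t07_pt N j hN hj.le)) (r / 4) := by
      intro x hx1 hx2
      rw [Metric.mem_ball, dist_eq_norm]
      refine (hΛ _ _ _).trans_lt (lt_of_le_of_lt ?_ hN2)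
      refine mul_le_mul_of_nonneg_left ?_ hΛ0.le
      have h1 : ((j : ℝ) / N) ≤ (x : ℝ) := hx1
      have h2 : (x : ℝ) ≤ ((j + 1 : ℕ) : ℝ) / N := hx2
      change |(x : ℝ) - (j : ℝ) / N| ≤ 1 / N
      rw [abs_of_nonneg (by linarith)]
      push_cast at h2
      rw [add_div] at h2
      linarith
    have hle : t07_pt N j hN hj.le ≤ t07_pt N (j + 1) hN hj := hu1.trans hu2
    obtain ⟨φ, hφ, hφG⟩ := T.piece n α _ _ hle r hr0 (hdisc n (α n) _)
      (fun x hx1 hx2 => Metric.ball_subset_ball (by linarith) (hin x hx1 hx2))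
    refine ⟨α, ⟨j, hj⟩, hα, φ, hφ, (hφG _ le_rfl hle).symm, e (α n) u, hin u hu1 hu2,
      e (α n) v, hin v hv1 hv2, ?_⟩
    rw [← hφG u hu1 hu2, ← hφG v hv1 hv2]
    exact huv
  have : Nonempty (Fin d) := ⟨⟨0, by have := T.data.two; omega⟩⟩
  have : Nonempty (Fin N) := ⟨⟨0, hN⟩⟩
  choose! α j hα hφ using hkey
  classical
  have hWf : W.Finite := Set.toFinite _
  have hcard : (hWf.toFinset.card : ℝ) ≤ (1 + CA / τ ^ 2) * (d * N) := by
    have hb : ∀ b ∈ (Finset.univ : Finset (Fin d × Fin N)),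
        (hWf.toFinset.filter (fun w => (α w n, j w) = b)).card ≤ ⌊1 + CA / τ ^ 2⌋₊ := by
      rintro ⟨i, k⟩ -
      apply Nat.le_floor
      set S := hWf.toFinset.filter (fun w => (α w n, j w) = (i, k)) with hS
      have hmem : ∀ w ∈ S, w ∈ W ∧ α w n = i ∧ j w = k := by
        intro w hw
        rw [hS, Finset.mem_filter, Set.Finite.mem_toFinset, Prod.mk.injEq] at hw
        exact hw
      set V : (Fin (n + 1) → Fin d) → OnePoint ℂ := fun w =>
        G n (α w) (t07_pt N k hN k.2.le) with hV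
      have hinj : Set.InjOn V S := by
        intro w hw w' hw' hww
        obtain ⟨h1, h2, h3⟩ := hmem w hw
        obtain ⟨h1', h2', h3'⟩ := hmem w' hw'
        have h4 := T.G_inj n (α w) (α w') _ (by rw [h2, h2']) hww
        funext l
        rw [← hα w h1 l, ← hα w' h1' l]
        exact h4 l (Nat.lt_succ_iff.1 l.2)
      rw [← Finset.card_image_of_injOn hinj]
      refine hCA n (e i (t07_pt N k hN k.2.le)) r τ hr0 hτ0 (hdisc n i _) _ ?_
      intro v hv
      obtain ⟨w, hw, rfl⟩ := Finset.mem_image.1 hv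
      obtain ⟨h1, h2, h3⟩ := hmem w hw
      obtain ⟨φ, hφ1, hφ2, hφ3⟩ := hφ w h1
      rw [h2, h3] at hφ1 hφ3
      rw [h2, h3] at hφ2
      exact ⟨φ, hφ1, hφ2, hφ3⟩
    have h1 := Finset.card_le_mul_card_image_of_maps_to
      (f := fun w => (α w n, j w)) (s := hWf.toFinset) (t := Finset.univ)
      (fun _ _ => Finset.mem_univ _) _ hb
    rw [Finset.card_univ, Fintype.card_prod, Fintype.card_fin, Fintype.card_fin] at h1
    have h2 : (hWf.toFinset.card : ℝ) ≤ (⌊1 + CA / τ ^ 2⌋₊ : ℝ) * (d * N) := by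
      exact_mod_cast h1
    refine h2.trans (mul_le_mul_of_nonneg_right (Nat.floor_le (by positivity)) (by positivity))
  rw [Set.ncard_eq_toFinset_card W hWf]
  refine hcard.trans ?_
  have hexp : Real.exp (3 * δ * n) = E ^ 3 * (D ^ 2)⁻¹ := by
    rw [hE, hDdef, ← Real.exp_nat_mul, ← Real.exp_nat_mul, ← Real.exp_neg, ← Real.exp_add]
    congr 1
    push_cast
    ring
  have hD1 : D ≤ 1 := by
    rw [hDdef, Real.exp_le_one_iff]
    have : 0 ≤ δ * n := by positivity
    linarith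
  have hDi : 1 ≤ (D ^ 2)⁻¹ := by
    rw [one_le_inv₀ (by positivity)]
    nlinarith
  have h1 : CA / τ ^ 2 = CA * N ^ 2 * (D ^ 2)⁻¹ := by
    rw [hτ]; field_simp
  rw [hexp, h1]
  have h2 : CA * N ^ 2 * (D ^ 2)⁻¹ ≤ CA * (M * E) ^ 2 * (D ^ 2)⁻¹ := by gcongr
  have h3 : 1 + CA * (M * E) ^ 2 * (D ^ 2)⁻¹ ≤ (1 + CA * M ^ 2) * E ^ 2 * (D ^ 2)⁻¹ := by
    have h4 : 1 ≤ E ^ 2 * (D ^ 2)⁻¹ := by
      have := one_le_pow₀ (n := 2) hE1
      nlinarith
    nlinarith
  calc (1 + CA * N ^ 2 * (D ^ 2)⁻¹) * (d * N)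
      ≤ ((1 + CA * M ^ 2) * E ^ 2 * (D ^ 2)⁻¹) * (d * (M * E)) := by
        refine mul_le_mul (by linarith) ?_ (by positivity) (by positivity)
        exact mul_le_mul_of_nonneg_left hN3 (by positivity)
    _ = (1 + CA * M ^ 2) * (d * M) * (E ^ 3 * (D ^ 2)⁻¹) := by ring

end Pool.Agent.Lib.MP_e4ee3e_an
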