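import Pool.Agent.Lib.MP_e4ee3e_an.A05
import Pool.Agent.Lib.MP_e4ee3e_an.S09
import Pool.Agent.Lib.MP_e4ee3e_an.T06
import Pool.Agent.Lib.MP_e4ee3e_an.T07

/-!
U02. Lifts of an arbitrary tame curve γ. (a) existence of lifts by iterates with prescribed start
(iterate path_lift; intermediate paths are good1 because γ is finite valued and avoids forward images
of marked points). (b) count of large lifts: as in T07 (same proof with t in place of exp(-δ n)):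
N <= C exp(δ' n) pieces, each large lift has a piece of diameter > t/N, branch_count with t/N, and
the start point v is determined by the value at the left end of the piece (iter_path_unique).
Total N (1 + C N^2/t^2) <= C' exp(δ n)/t^2 as t <= 1, with δ' = δ/3.
-/

open MeasureTheory Filter Topology

namespace Pool.Agent.Lib.MP_e4ee3e_an

attribute [local instance] chMetric

theorem iter_path_lift {P Q : Polynomial ℂ} {d : ℕ} (h : RatData P Q d) (n : ℕ)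
    (γ : C(unitInterval, ℂ))
    (hγ : ∀ t, AvoidN P Q n ((γ t : ℂ) : OnePoint ℂ)) (v : OnePoint ℂ)
    (hv : (ratMap P Q)^[n] v = ((γ 0 : ℂ) : OnePoint ℂ)) :
    ∃ Γ : C(unitInterval, OnePoint ℂ), Γ 0 = v ∧
      ∀ t, (ratMap P Q)^[n] (Γ t) = ((γ t : ℂ) : OnePoint ℂ) := by
  let γ' : C(unitInterval, OnePoint ℂ) :=
    ⟨fun t => ((γ t : ℂ) : OnePoint ℂ), OnePoint.continuous_coe.comp γ.continuous⟩
  exact t06_iter_lift h n γ' (fun t => ⟨OnePoint.coe_ne_infty _, hγ t⟩) 0 v hv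

/-- A piece of a lift is the image of the corresponding piece of the curve under a branch. -/
theorem u02_piece {P Q : Polynomial ℂ} {d : ℕ} (h : RatData P Q d) (n : ℕ)
    (γ : C(unitInterval, ℂ)) (hγ : ∀ t, AvoidN P Q n ((γ t : ℂ) : OnePoint ℂ))
    (Γ : C(unitInterval, OnePoint ℂ))
    (hΓ : ∀ t, (ratMap P Q)^[n] (Γ t) = ((γ t : ℂ) : OnePoint ℂ))
    (s t : unitInterval) (hst : s ≤ t) (r : ℝ) (hr : 0 < r) (hok : DiscOK P Q n (γ s) r)
    (hpiece : ∀ u, s ≤ u → u ≤ t → γ u ∈ Metric.ball (γ s) r) :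
    ∃ φ : ℂ → ℂ, IsBranch P Q n (γ s) r φ ∧
      ∀ u, s ≤ u → u ≤ t → Γ u = ((φ (γ u) : ℂ) : OnePoint ℂ) := by
  obtain ⟨φ, hφ, hφv⟩ := branch_exists h n (γ s) r hr hok (Γ s) (hΓ s)
  refine ⟨φ, hφ, ?_⟩
  let u : unitInterval → unitInterval := fun x => max s (min x t)
  have hu : Continuous u := continuous_const.max (continuous_id.min continuous_const)
  have hu1 : ∀ x, s ≤ u x := fun x => le_max_left _ _
  have hu2 : ∀ x, u x ≤ t := fun x => max_le hst (min_le_right _ _)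
  have hub : ∀ x, γ (u x) ∈ Metric.ball (γ s) r := fun x => hpiece _ (hu1 x) (hu2 x)
  let γ₁ : C(unitInterval, OnePoint ℂ) := ⟨fun x => Γ (u x), Γ.continuous.comp hu⟩
  have hc2 : Continuous fun x => ((φ (γ (u x)) : ℂ) : OnePoint ℂ) := by
    refine OnePoint.continuous_coe.comp ?_
    exact hφ.1.continuousOn.comp_continuous (γ.continuous.comp hu) hub
  let γ₂ : C(unitInterval, OnePoint ℂ) := ⟨fun x => ((φ (γ (u x)) : ℂ) : OnePoint ℂ), hc2⟩
  have hus : u s = s := by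
    simp only [u, min_eq_left hst, max_self]
  have h12 : γ₁ = γ₂ := by
    refine iter_path_unique h n γ₁ γ₂ s ?_ ?_ ?_
    · change Γ (u s) = ((φ (γ (u s)) : ℂ) : OnePoint ℂ)
      rw [hus, hφv]
    · intro x
      change (ratMap P Q)^[n] (Γ (u x)) = (ratMap P Q)^[n] ((φ (γ (u x)) : ℂ) : OnePoint ℂ)
      rw [hΓ, hφ.2 _ (hub x)]
    · intro x
      change (ratMap P Q)^[n] (Γ (u x)) ≠ OnePoint.infty ∧
        AvoidN P Q n ((ratMap P Q)^[n] (Γ (u x)))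
      rw [hΓ]
      exact ⟨OnePoint.coe_ne_infty _, hγ _⟩
  intro x hx1 hx2
  have hux : u x = x := by
    simp only [u, min_eq_left hx2, max_eq_right hx1]
  have h3 := DFunLike.congr_fun h12 x
  change Γ (u x) = ((φ (γ (u x)) : ℂ) : OnePoint ℂ) at h3
  rwa [hux] at h3

/-- Uniform constants for the curve. -/
theorem u02_unif {P Q : Polynomial ℂ} (γ : C(unitInterval, ℂ)) (hγ : TamePath P Q γ) (δ : ℝ)
    (hδ : 0 < δ) :
    ∃ Λ κ : ℝ, 0 < Λ ∧ 0 < κ ∧ (∀ s t, ‖γ s - γ t‖ ≤ Λ * |(s : ℝ) - t|) ∧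
      ∀ (n : ℕ) (s : unitInterval), DiscOK P Q n (γ s) (κ * Real.exp (-(δ * n))) := by
  obtain ⟨Λ, hΛ⟩ := hγ.1
  obtain ⟨κ, hκ0, hκ⟩ := hγ.2 δ hδ
  refine ⟨1 + |Λ|, κ, by positivity, hκ0, ?_, ?_⟩
  · intro s t
    refine (hΛ s t).trans ?_
    refine mul_le_mul_of_nonneg_right ?_ (abs_nonneg _)
    have h3 := le_abs_self Λ
    linarith
  · intro n s w hw k hk hkn c hc
    refine hκ k hk c hc (γ s) ⟨s, rfl⟩ w ?_
    rw [Metric.mem_ball] at hw ⊢
    refine hw.trans_le ?_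
    refine mul_le_mul_of_nonneg_left ?_ hκ0.le
    apply Real.exp_le_exp.2
    have : (k : ℝ) ≤ n := by exact_mod_cast hkn
    nlinarith

theorem lift_count {P Q : Polynomial ℂ} {d : ℕ} (h : RatData P Q d)
    (γ : C(unitInterval, ℂ)) (hγ : TamePath P Q γ) (δ : ℝ) (hδ : 0 < δ) :
    ∃ C : ℝ, ∀ (n : ℕ) (t : ℝ), 0 < t → t ≤ 1 → ∀ S : Finset (OnePoint ℂ),
      (∀ v ∈ S, ∃ Γ : C(unitInterval, OnePoint ℂ), Γ 0 = v ∧
        (∀ u, (ratMap P Q)^[n] (Γ u) = ((γ u : ℂ) : OnePoint ℂ)) ∧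
        t < Metric.diam (Set.range Γ)) →
      (S.card : ℝ) ≤ C * Real.exp (δ * n) / t ^ 2 := by
  classical
  obtain ⟨Λ, κ, hΛ0, hκ0, hΛ, hdisc⟩ := u02_unif γ hγ (δ / 3) (by positivity)
  obtain ⟨CA, hCA0, hCA⟩ := branch_count h
  set M : ℝ := 4 * Λ / κ + 2 with hM
  have hM0 : 0 < M := by positivity
  refine ⟨(1 + CA * M ^ 2) * M, fun n D hD0 hD1 S hS => ?_⟩
  set E : ℝ := Real.exp (δ / 3 * n) with hE
  have hE1 : 1 ≤ E := Real.one_le_exp (by positivity)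
  have hE0 : 0 < E := by positivity
  set r : ℝ := κ * Real.exp (-(δ / 3 * n)) with hr
  have hr0 : 0 < r := by positivity
  have hrE : r = κ / E := by rw [hr, Real.exp_neg, hE]; rfl
  set N : ℕ := ⌈4 * Λ / r⌉₊ + 1 with hNdef
  have hN : 0 < N := Nat.succ_pos _
  have hN' : (0 : ℝ) < N := by exact_mod_cast hN
  have hN1 : 4 * Λ / r < N := by
    rw [hNdef]
    push_cast
    linarith [Nat.le_ceil (4 * Λ / r)]
  have hN2 : Λ * (1 / N) < r / 4 := by
    rw [div_lt_iff₀ hr0] at hN1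
    rw [mul_one_div, div_lt_iff₀ hN']
    linarith
  have hN3 : (N : ℝ) ≤ M * E := by
    have h1 := Nat.ceil_lt_add_one (show 0 ≤ 4 * Λ / r by positivity)
    have h2 : 4 * Λ / r = 4 * Λ / κ * E := by
      rw [hrE]; field_simp
    rw [hNdef]
    push_cast
    rw [hM, add_mul]
    linarith
  set τ : ℝ := D / N with hτ
  have hτ0 : 0 < τ := by positivity
  have havoid : ∀ t, AvoidN P Q n ((γ t : ℂ) : OnePoint ℂ) := fun t =>
    hdisc n t (γ t) (Metric.mem_ball_self hr0)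
  have hkey : ∀ v ∈ S, ∃ (Γ : C(unitInterval, OnePoint ℂ)) (j : Fin N), Γ 0 = v ∧
      (∀ u, (ratMap P Q)^[n] (Γ u) = ((γ u : ℂ) : OnePoint ℂ)) ∧
      ∃ φ : ℂ → ℂ, IsBranch P Q n (γ (t07_pt N j hN j.2.le)) r φ ∧
        ((φ (γ (t07_pt N j hN j.2.le)) : ℂ) : OnePoint ℂ) = Γ (t07_pt N j hN j.2.le) ∧
        ∃ w ∈ Metric.ball (γ (t07_pt N j hN j.2.le)) (r / 4),
        ∃ w' ∈ Metric.ball (γ (t07_pt N j hN j.2.le)) (r / 4),
          τ ≤ dist ((φ w : ℂ) : OnePoint ℂ) ((φ w' : ℂ) : OnePoint ℂ) := by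
    intro v₀ hv₀
    obtain ⟨Γ, hΓ0, hΓ, hdiam⟩ := hS v₀ hv₀
    obtain ⟨j, hj, u, v, hu1, hu2, hv1, hv2, huv⟩ := t07_large Γ D hD0 hdiam N hN
    have hin : ∀ x, t07_pt N j hN hj.le ≤ x → x ≤ t07_pt N (j + 1) hN hj →
        γ x ∈ Metric.ball (γ (t07_pt N j hN hj.le)) (r / 4) := by
      intro x hx1 hx2
      rw [Metric.mem_ball, dist_eq_norm]
      refine (hΛ _ _).trans_lt (lt_of_le_of_lt ?_ hN2)
      refine mul_le_mul_of_nonneg_left ?_ hΛ0.le
      have h1 : ((j : ℝ) / N) ≤ (x : ℝ) := hx1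
      have h2 : (x : ℝ) ≤ ((j + 1 : ℕ) : ℝ) / N := hx2
      change |(x : ℝ) - (j : ℝ) / N| ≤ 1 / N
      rw [abs_of_nonneg (by linarith)]
      push_cast at h2
      rw [add_div] at h2
      linarith
    have hle : t07_pt N j hN hj.le ≤ t07_pt N (j + 1) hN hj := hu1.trans hu2
    obtain ⟨φ, hφ, hφG⟩ := u02_piece h n γ havoid Γ hΓ _ _ hle r hr0 (hdisc n _)
      (fun x hx1 hx2 => Metric.ball_subset_ball (by linarith) (hin x hx1 hx2))
    refine ⟨Γ, ⟨j, hj⟩, hΓ0, hΓ, φ, hφ, (hφG _ le_rfl hle).symm, γ u, hin u hu1 hu2,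
      γ v, hin v hv1 hv2, ?_⟩
    rw [← hφG u hu1 hu2, ← hφG v hv1 hv2]
    exact huv
  have : Nonempty (Fin N) := ⟨⟨0, hN⟩⟩
  choose! Γ j hΓ0 hΓ hφ using hkey
  have hcard : (S.card : ℝ) ≤ (1 + CA / τ ^ 2) * N := by
    have hb : ∀ b ∈ (Finset.univ : Finset (Fin N)),
        (S.filter (fun v => j v = b)).card ≤ ⌊1 + CA / τ ^ 2⌋₊ := by
      rintro k -
      apply Nat.le_floor
      set B := S.filter (fun v => j v = k) with hB
      have hmem : ∀ v ∈ B, v ∈ S ∧ j v = k := by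
        intro v hv
        rw [hB, Finset.mem_filter] at hv
        exact hv
      set V : OnePoint ℂ → OnePoint ℂ := fun v => Γ v (t07_pt N k hN k.2.le) with hV
      have hinj : Set.InjOn V B := by
        intro v hv v' hv' hvv
        obtain ⟨h1, h2⟩ := hmem v hv
        obtain ⟨h1', h2'⟩ := hmem v' hv'
        have h4 : Γ v = Γ v' := by
          refine iter_path_unique h n _ _ (t07_pt N k hN k.2.le) hvv ?_ ?_
          · intro x
            rw [hΓ v h1, hΓ v' h1']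
          · intro x
            rw [hΓ v h1]
            exact ⟨OnePoint.coe_ne_infty _, havoid _⟩
        rw [← hΓ0 v h1, ← hΓ0 v' h1', h4]
      rw [← Finset.card_image_of_injOn hinj]
      refine hCA n (γ (t07_pt N k hN k.2.le)) r τ hr0 hτ0 (hdisc n _) _ ?_
      intro x hx
      obtain ⟨v, hv, rfl⟩ := Finset.mem_image.1 hx
      obtain ⟨h1, h2⟩ := hmem v hv
      obtain ⟨φ, hφ1, hφ2, hφ3⟩ := hφ v h1
      rw [h2] at hφ1 hφ3
      rw [h2] at hφ2
      exact ⟨φ, hφ1, hφ2, hφ3⟩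
    have h1 := Finset.card_le_mul_card_image_of_maps_to
      (f := fun v => j v) (s := S) (t := Finset.univ)
      (fun _ _ => Finset.mem_univ _) _ hb
    rw [Finset.card_univ, Fintype.card_fin] at h1
    have h2 : (S.card : ℝ) ≤ (⌊1 + CA / τ ^ 2⌋₊ : ℝ) * N := by
      exact_mod_cast h1
    refine h2.trans (mul_le_mul_of_nonneg_right (Nat.floor_le (by positivity)) (by positivity))
  refine hcard.trans ?_
  have hexp : Real.exp (δ * n) = E ^ 3 := by
    rw [hE, ← Real.exp_nat_mul]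
    congr 1
    push_cast
    ring
  have hDi : 1 ≤ (D ^ 2)⁻¹ := by
    rw [one_le_inv₀ (by positivity)]
    nlinarith
  have h1 : CA / τ ^ 2 = CA * N ^ 2 * (D ^ 2)⁻¹ := by
    rw [hτ]; field_simp
  rw [hexp, h1]
  have h2 : CA * N ^ 2 * (D ^ 2)⁻¹ ≤ CA * (M * E) ^ 2 * (D ^ 2)⁻¹ := by gcongr
  have h3 : 1 + CA * (M * E) ^ 2 * (D ^ 2)⁻¹ ≤ (1 + CA * M ^ 2) * E ^ 2 * (D ^ 2)⁻¹ := by
    have h4 : 1 ≤ E ^ 2 * (D ^ 2)⁻¹ := by
      have := one_le_pow₀ (n := 2) hE1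
      nlinarith
    nlinarith
  calc (1 + CA * N ^ 2 * (D ^ 2)⁻¹) * N
      ≤ ((1 + CA * M ^ 2) * E ^ 2 * (D ^ 2)⁻¹) * (M * E) := by
        refine mul_le_mul (by linarith) hN3 (by positivity) (by positivity)
    _ = (1 + CA * M ^ 2) * M * E ^ 3 / D ^ 2 := by
        rw [div_eq_mul_inv]; ring

end Pool.Agent.Lib.MP_e4ee3e_an
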