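import Pool.Agent.Lib.MP_e4ee3e_an.D02
import Pool.Agent.Lib.MP_e4ee3e_an.D03
import Pool.Agent.Lib.MP_e4ee3e_an.Setup2

/-!
V01. Elementary facts. good δ k₀ is closed, contained in codes δ A for some natural A (A >= 1,
A >= B exp(δ k₀)); codes δ A is contained in goodAll (δ/2) only; here: on good δ k₀ the vertices
converge to T.cod β, uniformly (distance from z n to the limit <= exp(-δ(n+1))/(1-exp(-δ)) for
n >= k₀), so T.cod is continuous on good δ k₀; goodAll δ is measurable, forward invariant up to the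
constant: for β in goodAll (δ) the shift satisfies D k (shift β) <= L D (k+1) β
<= L exp(-δ) exp(-δ k), so it is in codes δ (L+1); to have an invariant set use codesAll below.
-/

open MeasureTheory Filter Topology

namespace Pool.Agent.Lib.MP_e4ee3e_an

attribute [local instance] chMetric

variable {X : Type*} [MetricSpace X] [CompactSpace X] {f : X → X} {L : ℝ} {d : ℕ}

omit [CompactSpace X] in
theorem v01_continuous_D (T : AbsTree X f L d) (n : ℕ) : Continuous (fun α => T.D n α) := by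
  refine continuous_iff_continuousAt.2 fun α => ?_
  have h : ∀ᶠ β in 𝓝 α, ∀ i ∈ Set.Iic n, β i = α i := by
    refine (eventually_all_finite (Set.finite_Iic n)).2 fun i _ => ?_
    exact (continuous_apply i).continuousAt.eventually
      ((isOpen_discrete {α i}).mem_nhds (Set.mem_singleton _))
  refine tendsto_const_nhds.congr' ?_
  filter_upwards [h] with β hβ
  exact T.D_congr n α β fun i hi => (hβ i hi).symm

theorem AbsTree.isClosed_good (T : AbsTree X f L d) (δ : ℝ) (k₀ : ℕ) :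
    IsClosed (T.good δ k₀) := by
  have h1 : T.good δ k₀ = ⋂ k : ℕ, ⋂ _ : k₀ ≤ k, {β | T.D k β ≤ Real.exp (-(δ * k))} := by
    ext β
    simp [AbsTree.good]
  rw [h1]
  exact isClosed_iInter fun k => isClosed_iInter fun _ =>
    isClosed_le (v01_continuous_D T k) continuous_const

theorem AbsTree.good_subset_codes (T : AbsTree X f L d) {δ : ℝ} (hδ : 0 < δ) (k₀ : ℕ) :
    ∃ A : ℕ, T.good δ k₀ ⊆ T.codes δ (A : ℝ) := by
  obtain ⟨B, hB⟩ := T.D_le
  refine ⟨⌈max 1 (|B| * Real.exp (δ * k₀))⌉₊, fun β hβ k => ?_⟩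
  have hA := Nat.le_ceil (max 1 (|B| * Real.exp (δ * k₀)))
  rcases le_or_gt k₀ k with hk | hk
  · calc T.D k β ≤ Real.exp (-(δ * k)) := hβ k hk
      _ = 1 * Real.exp (-(δ * k)) := (one_mul _).symm
      _ ≤ _ := mul_le_mul_of_nonneg_right ((le_max_left _ _).trans hA) (Real.exp_pos _).le
  · have h1 : Real.exp (δ * k) ≤ Real.exp (δ * k₀) := by
      apply Real.exp_le_exp.2
      have : (k : ℝ) ≤ k₀ := by exact_mod_cast hk.le
      exact mul_le_mul_of_nonneg_left this hδ.le
    have h2 : |B| * Real.exp (δ * k) ≤ (⌈max 1 (|B| * Real.exp (δ * k₀))⌉₊ : ℝ) :=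
      (mul_le_mul_of_nonneg_left h1 (abs_nonneg B)).trans ((le_max_right _ _).trans hA)
    calc T.D k β ≤ |B| := (hB k β).trans (le_abs_self B)
      _ = |B| * Real.exp (δ * k) * Real.exp (-(δ * k)) := by
          rw [mul_assoc, ← Real.exp_add, add_neg_cancel, Real.exp_zero, mul_one]
      _ ≤ _ := mul_le_mul_of_nonneg_right h2 (Real.exp_pos _).le

/-- The shift-invariant set of all good codes. -/
theorem AbsTree.codesAll_shift (T : AbsTree X f L d) (hL : 0 ≤ L) {δ : ℝ} (β : ℕ → Fin d)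
    (hβ : β ∈ ⋃ A : ℕ, T.codes δ (A : ℝ)) : shift β ∈ ⋃ A : ℕ, T.codes δ (A : ℝ) := by
  obtain ⟨A, hA⟩ := Set.mem_iUnion.1 hβ
  refine Set.mem_iUnion.2 ⟨⌈L * (A * Real.exp (-δ))⌉₊, fun k => ?_⟩
  have h1 : T.D k (shift β) ≤ L * T.D (k + 1) β := T.D_shift k β
  have h2 : T.D (k + 1) β ≤ A * Real.exp (-(δ * ((k + 1 : ℕ) : ℝ))) := hA (k + 1)
  have h3 : Real.exp (-(δ * ((k + 1 : ℕ) : ℝ))) = Real.exp (-δ) * Real.exp (-(δ * k)) := by
    rw [← Real.exp_add]
    congr 1
    push_cast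
    ring
  rw [h3] at h2
  calc T.D k (shift β) ≤ L * T.D (k + 1) β := h1
    _ ≤ L * (A * (Real.exp (-δ) * Real.exp (-(δ * k)))) := mul_le_mul_of_nonneg_left h2 hL
    _ = L * (A * Real.exp (-δ)) * Real.exp (-(δ * k)) := by ring
    _ ≤ _ := mul_le_mul_of_nonneg_right (Nat.le_ceil _) (Real.exp_pos _).le

theorem AbsTree.measurableSet_codesAll (T : AbsTree X f L d) (δ : ℝ) :
    MeasurableSet (⋃ A : ℕ, T.codes δ (A : ℝ)) :=
  MeasurableSet.iUnion fun _ => (T.isCompact_codes δ _).isClosed.measurableSet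

theorem AbsTree.cod_tendsto (T : AbsTree X f L d) {δ : ℝ} (hδ : 0 < δ) {β : ℕ → Fin d}
    (hβ : β ∈ ⋃ A : ℕ, T.codes δ (A : ℝ)) : Tendsto (fun n => T.z n β) atTop (𝓝 (T.cod β)) := by
  obtain ⟨A, hA⟩ := Set.mem_iUnion.1 hβ
  haveI : Nonempty X := ⟨T.root⟩
  exact tendsto_nhds_limUnder (T.codes_tendsto hδ hA)

theorem AbsTree.cod_shift (T : AbsTree X f L d) (hf : Continuous f) (hL : 0 ≤ L) {δ : ℝ}
    (hδ : 0 < δ) {β : ℕ → Fin d} (hβ : β ∈ ⋃ A : ℕ, T.codes δ (A : ℝ)) :
    T.cod (shift β) = f (T.cod β) := by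
  have h1 := T.cod_tendsto hδ (T.codesAll_shift hL β hβ)
  have h2 := (hf.tendsto (T.cod β)).comp ((T.cod_tendsto hδ hβ).comp (tendsto_add_atTop_nat 1))
  have h3 : (f ∘ (fun n => T.z n β) ∘ fun a => a + 1) = fun n => T.z n (shift β) := by
    funext n
    exact T.map_z_succ n β
  rw [h3] at h2
  exact tendsto_nhds_unique h1 h2

theorem AbsTree.cod_continuousOn (T : AbsTree X f L d) {δ : ℝ} (hδ : 0 < δ) (k₀ : ℕ) :
    ContinuousOn T.cod (T.good δ k₀) := by
  obtain ⟨A, hA⟩ := T.good_subset_codes hδ k₀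
  have hlim : Tendsto (fun n : ℕ => (A : ℝ) * Real.exp (-(δ * ((n : ℝ) + 1))) /
      (1 - Real.exp (-δ))) atTop (𝓝 0) := by
    have h1 : Tendsto (fun n : ℕ => δ * ((n : ℝ) + 1)) atTop atTop :=
      (tendsto_atTop_add_const_right _ _ tendsto_natCast_atTop_atTop).const_mul_atTop hδ
    have h2 : Tendsto (fun n : ℕ => Real.exp (-(δ * ((n : ℝ) + 1)))) atTop (𝓝 0) :=
      Real.tendsto_exp_neg_atTop_nhds_zero.comp h1
    have h3 := (h2.const_mul (A : ℝ)).div_const (1 - Real.exp (-δ))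
    simpa using h3
  have hu : TendstoUniformlyOn (fun n β => T.z n β) T.cod atTop (T.good δ k₀) := by
    rw [Metric.tendstoUniformlyOn_iff]
    intro ε hε
    filter_upwards [hlim.eventually (gt_mem_nhds hε)] with n hn β hβ
    have h1 := T.codes_dist_le hδ (hA hβ)
      (T.cod_tendsto hδ (Set.mem_iUnion.2 ⟨A, hA hβ⟩)) n
    rw [dist_comm]
    exact h1.trans_lt hn
  exact hu.continuousOn (Frequently.of_forall fun n => (d02_continuous_z T n).continuousOn)

/-- A globally measurable version of the coding map. -/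
theorem AbsTree.exists_measurable_cod [MeasurableSpace X] [BorelSpace X] (T : AbsTree X f L d)
    {δ : ℝ} (hδ : 0 < δ) : ∃ π : (ℕ → Fin d) → X, Measurable π ∧
      ∀ β ∈ ⋃ A : ℕ, T.codes δ (A : ℝ), π β = T.cod β := by
  classical
  have hS := T.measurableSet_codesAll δ
  refine ⟨fun β => if β ∈ ⋃ A : ℕ, T.codes δ (A : ℝ) then T.cod β else T.root, ?_, ?_⟩
  · refine measurable_of_tendsto_metrizable
      (f := fun (n : ℕ) β => if β ∈ ⋃ A : ℕ, T.codes δ (A : ℝ) then T.z n β else T.root) ?_ ?_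
    · intro n
      exact Measurable.ite hS (d02_continuous_z T n).measurable measurable_const
    · rw [tendsto_pi_nhds]
      intro β
      by_cases hβ : β ∈ ⋃ A : ℕ, T.codes δ (A : ℝ)
      · simp only [if_pos hβ]
        exact T.cod_tendsto hδ hβ
      · simp only [if_neg hβ]
        exact tendsto_const_nhds
  · intro β hβ
    simp only [if_pos hβ]

end Pool.Agent.Lib.MP_e4ee3e_an
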