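import Pool.Agent.Lib.MP_e4ee3e_an.Setup2

/-!
V02. Bound for the last bad level of shifted good codes: D i (shift^t α) <= L^t D (i+t) α
<= L^t A exp(-χ(i+t)), and t log L + log A <= (χ-δ) i + χ t when t < n, i > C' n - t >= (C'-1) n,
log A <= n.
-/

open MeasureTheory Filter Topology

namespace Pool.Agent.Lib.MP_e4ee3e_an

attribute [local instance] chMetric

variable {X : Type*} [MetricSpace X] {f : X → X} {L : ℝ} {d : ℕ}

theorem v02_iter (T : AbsTree X f L d) (hL : 0 ≤ L) (t : ℕ) : ∀ (i : ℕ) (α : ℕ → Fin d),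
    T.D i (shift^[t] α) ≤ L ^ t * T.D (i + t) α := by
  induction t with
  | zero =>
    intro i α
    simp
  | succ t ih =>
    intro i α
    rw [Function.iterate_succ_apply]
    refine (ih i (shift α)).trans ?_
    have h1 := T.D_shift (i + t) α
    calc L ^ t * T.D (i + t) (shift α) ≤ L ^ t * (L * T.D (i + t + 1) α) :=
          mul_le_mul_of_nonneg_left h1 (pow_nonneg hL t)
      _ = L ^ (t + 1) * T.D (i + (t + 1)) α := by
          rw [pow_succ, mul_assoc, add_assoc]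

theorem AbsTree.tail_bound (T : AbsTree X f L d) (hL : 2 ≤ L) {χ δ A C' : ℝ} (hδ : 0 < δ)
    (hδχ : δ < χ) (hC' : 1 ≤ C') (h : Real.log L + 1 ≤ (χ - δ) * (C' - 1)) (hA : 1 ≤ A) (n : ℕ)
    (hn : Real.log A ≤ n) (α : ℕ → Fin d) (hα : α ∈ T.codes χ A) (t : ℕ) (ht : t < n) (i : ℕ)
    (hi : C' * n < t + i) : T.D i (shift^[t] α) ≤ Real.exp (-(δ * i)) := by
  have hL0 : (0 : ℝ) < L := by linarith
  have hA0 : (0 : ℝ) < A := by linarith
  have hlogL : 0 ≤ Real.log L := Real.log_nonneg (by linarith)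
  have htn : (t : ℝ) ≤ n := by exact_mod_cast ht.le
  have ht0 : (0 : ℝ) ≤ t := Nat.cast_nonneg t
  have h1 : T.D i (shift^[t] α) ≤ L ^ t * (A * Real.exp (-(χ * ((i + t : ℕ) : ℝ)))) :=
    (v02_iter T hL0.le t i α).trans (mul_le_mul_of_nonneg_left (hα (i + t)) (pow_nonneg hL0.le t))
  refine h1.trans ?_
  have h2 : L ^ t * (A * Real.exp (-(χ * ((i + t : ℕ) : ℝ)))) =
      Real.exp (t * Real.log L + Real.log A - χ * ((i : ℝ) + t)) := by
    rw [Real.exp_sub, Real.exp_add, Real.exp_nat_mul, Real.exp_log hL0, Real.exp_log hA0,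
      Real.exp_neg]
    push_cast
    rw [div_eq_mul_inv, mul_assoc]
  rw [h2]
  apply Real.exp_le_exp.2
  have h3 : (C' - 1) * n ≤ i := by nlinarith
  have h4 : (χ - δ) * ((C' - 1) * n) ≤ (χ - δ) * i :=
    mul_le_mul_of_nonneg_left h3 (by linarith)
  have h5 : (Real.log L + 1) * n ≤ (χ - δ) * (C' - 1) * n :=
    mul_le_mul_of_nonneg_right h (by linarith)
  have h6 : (t : ℝ) * Real.log L ≤ n * Real.log L := mul_le_mul_of_nonneg_right htn hlogL
  have h7 : 0 ≤ χ * t := mul_nonneg (by linarith) ht0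
  nlinarith

end Pool.Agent.Lib.MP_e4ee3e_an
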