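import Pool.Agent.Lib.MP_e4ee3e_an.W04
import Pool.Agent.Lib.MP_e4ee3e_an.Setup2

/-!
V03. Sibling of W04 (vertex_cover) for codes instead of shadowing vertices. Let N₁ = max N₀ k₀, let
x = lim z_n(α). For t < n not in the exceptional set E = {t : shift^t α in good} let e(t) = t + last
level l >= k₀ with exp(-δ l) < D l (shift^t α); by hypothesis e(t) <= C' n. Put
b = max (n + N₁) (max over such t of e(t)), u = z b α. For t < n:
dist (f^t x) (f^t u) <= sum over i > b - t of D i (shift^t α) <= sum of exp(-δ i) < ε₀, since levels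
i > b - t are beyond the last bad level of shift^t α (for t in E use b - t >= k₀). Word
w = (α_0..α_b). Case b = n + N₁: k = n, free tail of length N₁ + 1. Case b = e(t*) > n + N₁: k = t*,
tail w.drop k bad. For t < k not in E there is a bad block from t to e(t) <= b. Count with W03 as in
W04 (C' >= 2 makes n + N₁ <= C' n for n large; all helper lemmas of W04 can be reused).
-/

open MeasureTheory Filter Topology

namespace Pool.Agent.Lib.MP_e4ee3e_an

attribute [local instance] chMetric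

section

variable {X : Type*} [MetricSpace X] {f : X → X} {L : ℝ} {d : ℕ}

/-- the last bad level -/
theorem v03_last {P : ℕ → Prop} (h0 : ∃ l, P l) {m : ℕ} (hm : ∀ l, P l → l ≤ m) :
    ∃ l, P l ∧ ∀ i, P i → i ≤ l := by
  classical
  obtain ⟨l0, hl0⟩ := h0
  have h1 : ((Finset.range (m + 1)).filter P).Nonempty :=
    ⟨l0, Finset.mem_filter.2 ⟨Finset.mem_range.2 (by have := hm l0 hl0; omega), hl0⟩⟩
  refine ⟨((Finset.range (m + 1)).filter P).max' h1, ?_, fun i hi => ?_⟩
  · exact (Finset.mem_filter.1 (Finset.max'_mem _ h1)).2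
  · exact Finset.le_max' _ _
      (Finset.mem_filter.2 ⟨Finset.mem_range.2 (by have := hm i hi; omega), hi⟩)

/-- distance between the limit and a vertex beyond the last bad level -/
theorem v03_dist (T : AbsTree X f L d) {δ ε₀ : ℝ} (hδ : 0 < δ) {N₀ : ℕ}
    (hN₀ : Real.exp (-(δ * N₀)) / (1 - Real.exp (-δ)) < ε₀)
    (hf : Continuous f) {x : X} {α : ℕ → Fin d} (hx : Tendsto (fun j => T.z j α) atTop (𝓝 x))
    {t b : ℕ} (htb : t + N₀ ≤ b)
    (hgood : ∀ i, b < t + i → T.D i (shift^[t] α) ≤ Real.exp (-(δ * i))) :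
    dist (f^[t] x) (f^[t] (T.z b α)) < ε₀ := by
  have h1 : Tendsto (fun j => f^[t] (T.z j α)) atTop (𝓝 (f^[t] x)) :=
    ((hf.iterate t).tendsto x).comp hx
  have h2 : Tendsto (fun j => dist (f^[t] (T.z j α)) (f^[t] (T.z b α))) atTop
      (𝓝 (dist (f^[t] x) (f^[t] (T.z b α)))) := h1.dist tendsto_const_nhds
  refine lt_of_le_of_lt ?_ hN₀
  refine le_of_tendsto h2 ?_
  filter_upwards [eventually_ge_atTop b] with M hM
  rw [w04_iter T t _ _ (by omega), w04_iter T t _ _ (by omega), dist_comm]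
  have h5 := dist_le_Ico_sum_dist (fun r => T.z r (shift^[t] α)) (show b - t ≤ M - t by omega)
  have h6 : ∑ r ∈ Finset.Ico (b - t) (M - t),
      dist (T.z r (shift^[t] α)) (T.z (r + 1) (shift^[t] α)) ≤
      ∑ r ∈ Finset.Ico (b - t) (M - t), Real.exp (-(δ * ((r : ℝ) + 1))) := by
    refine Finset.sum_le_sum fun r hr => ?_
    rw [Finset.mem_Ico] at hr
    have h7 := hgood (r + 1) (by omega)
    push_cast at h7
    exact (T.dist_z r _).trans h7
  have h8 := w04_geom hδ (b - t) (M - t)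
  have h9 : Real.exp (-(δ * (((b - t : ℕ) : ℝ) + 1))) / (1 - Real.exp (-δ)) ≤
      Real.exp (-(δ * N₀)) / (1 - Real.exp (-δ)) := by
    have h10 : 0 < 1 - Real.exp (-δ) := by
      have := w04_exp_lt hδ
      linarith
    refine div_le_div_of_nonneg_right ?_ h10.le
    apply Real.exp_le_exp.2
    have h11 : (N₀ : ℝ) ≤ ((b - t : ℕ) : ℝ) + 1 := by
      have h12 : N₀ ≤ b - t + 1 := by omega
      exact_mod_cast h12
    have h13 := mul_le_mul_of_nonneg_left h11 hδ.le
    linarith
  exact h5.trans (h6.trans (h8.trans h9))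

/-- the terminal position -/
theorem v03_find (T : AbsTree X f L d) {δ : ℝ} {k₀ N₁ n m : ℕ} (hm : n + N₁ ≤ m)
    {α : ℕ → Fin d}
    (hlev : ∀ t < n, ∀ i : ℕ, m < t + i → T.D i (shift^[t] α) ≤ Real.exp (-(δ * i))) :
    ∃ b k : ℕ, n + N₁ ≤ b ∧ b ≤ m ∧ k ≤ n ∧
      (∀ t < n, ∀ i : ℕ, k₀ ≤ i → b < t + i → T.D i (shift^[t] α) ≤ Real.exp (-(δ * i))) ∧
      ((k = n ∧ b = n + N₁) ∨
        (k < n ∧ Real.exp (-(δ * ((b - k : ℕ) : ℝ))) < T.D (b - k) (shift^[k] α))) := by
  classical
  -- the set of all endpoints of bad levels beyond `n + N₁`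
  by_cases hex : ∃ e, n + N₁ < e ∧ ∃ t < n, k₀ ≤ e - t ∧
      Real.exp (-(δ * ((e - t : ℕ) : ℝ))) < T.D (e - t) (shift^[t] α)
  · have hbd : ∀ e, (n + N₁ < e ∧ ∃ t < n, k₀ ≤ e - t ∧
        Real.exp (-(δ * ((e - t : ℕ) : ℝ))) < T.D (e - t) (shift^[t] α)) → e ≤ m := by
      rintro e ⟨he, t, ht, hk, hbad⟩
      by_contra hcon
      have h1 := hlev t ht (e - t) (by omega)
      exact absurd h1 (not_le.2 hbad)
    obtain ⟨b, ⟨hb1, k, hk, hkk, hbad⟩, hmax⟩ := v03_last hex hbd
    refine ⟨b, k, hb1.le, hbd b ⟨hb1, k, hk, hkk, hbad⟩, hk.le, ?_, Or.inr ⟨hk, hbad⟩⟩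
    intro t ht i hi hbt
    by_contra hcon
    have h1 := hmax (t + i) ⟨by omega, t, ht, by
      rw [Nat.add_sub_cancel_left]
      exact ⟨hi, not_le.1 hcon⟩⟩
    omega
  · refine ⟨n + N₁, n, le_rfl, hm, le_rfl, ?_, Or.inl ⟨rfl, rfl⟩⟩
    intro t ht i hi hbt
    by_contra hcon
    apply hex
    refine ⟨t + i, hbt, t, ht, ?_⟩
    rw [Nat.add_sub_cancel_left]
    exact ⟨hi, not_le.1 hcon⟩

end

variable {X : Type*} [MetricSpace X] [CompactSpace X] {f : X → X} {L : ℝ} {d : ℕ}

theorem AbsTree.code_cover (T : AbsTree X f L d) (hL : 2 ≤ L)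
    (hf : ∀ x y, dist (f x) (f y) ≤ L * dist x y) {δ θ C' : ℝ} (hδ : 0 < δ) (hθ : 0 < θ)
    (hC' : 2 ≤ C') (hδθ : 28 * δ * C' ≤ θ) :
    ∃ (k₀ : ℕ) (q : ℝ), 0 < q ∧ ∀ ε₀ : ℝ, 0 < ε₀ →
      ∃ n₀ : ℕ, ∀ n : ℕ, n₀ ≤ n → ∃ F : Finset X, (F.card : ℝ) ≤ Real.exp (θ * n) ∧
        ∀ (x : X) (α : ℕ → Fin d), Tendsto (fun j => T.z j α) atTop (𝓝 x) →
          (∀ t < n, ∀ i : ℕ, C' * n < t + i → T.D i (shift^[t] α) ≤ Real.exp (-(δ * i))) →
          (({t : ℕ | t < n ∧ shift^[t] α ∈ T.good δ k₀}.ncard : ℕ) : ℝ) ≤ q * n →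
          ∃ u ∈ F, ∀ k < n, dist (f^[k] x) (f^[k] u) < ε₀ := by
  classical
  obtain ⟨C, hC⟩ := T.count δ hδ
  obtain ⟨k₀, s, hs, hW⟩ := word_count d δ C hδ
  have hq : 0 < θ / (4 * s) := by positivity
  refine ⟨k₀, θ / (4 * s), hq, fun ε₀ hε₀ => ?_⟩
  specialize hW (w04_B T δ) (w04_B_card T δ C hC)
  -- the threshold for the tail
  obtain ⟨N₀, hN₀⟩ : ∃ N₀ : ℕ, Real.exp (-(δ * N₀)) / (1 - Real.exp (-δ)) < ε₀ := by
    have h10 : 0 < 1 - Real.exp (-δ) := by
      have := w04_exp_lt hδ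
      linarith
    obtain ⟨N₀, hN₀⟩ := exists_pow_lt_of_lt_one (mul_pos hε₀ h10) (w04_exp_lt hδ)
    refine ⟨N₀, ?_⟩
    rw [div_lt_iff₀ h10]
    have e : Real.exp (-(δ * N₀)) = Real.exp (-δ) ^ N₀ := by
      rw [← Real.exp_nat_mul]
      congr 1
      ring
    rw [e]
    exact hN₀
  set N₁ : ℕ := max N₀ k₀ with hN₁
  set D₁ : ℝ := ({w : List (Fin d) | w.length = N₁ + 1}.ncard : ℝ) with hD₁
  have hD0 : 0 ≤ D₁ := Nat.cast_nonneg _
  set K₁ : ℝ := |C| + D₁ with hK₁
  have hK0 : 0 ≤ K₁ := add_nonneg (abs_nonneg _) hD0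
  obtain ⟨n₁, hn₁⟩ := w04_large (K := 8 * C' ^ 2 * Real.exp (4 * δ) * K₁) hθ
  refine ⟨max n₁ (max N₁ 1), fun n hn => ?_⟩
  have hnn₁ : n₁ ≤ n := le_trans (le_max_left _ _) hn
  have hnN₁ : N₁ ≤ n := le_trans (le_trans (le_max_left _ _) (le_max_right _ _)) hn
  have hn1 : 1 ≤ n := le_trans (le_trans (le_max_right _ _) (le_max_right _ _)) hn
  have hnR : (1 : ℝ) ≤ n := by exact_mod_cast hn1
  have hC0 : 0 < C' := by linarith
  set b : ℕ := ⌊θ / (4 * s) * n⌋₊ with hb
  set I : ℕ := ⌊C' * n⌋₊ with hI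
  have hIle : (I : ℝ) ≤ C' * n := Nat.floor_le (by positivity)
  have hble : (b : ℝ) ≤ θ / (4 * s) * n := Nat.floor_le (by positivity)
  have hCn : 2 ≤ C' * (n : ℝ) := by nlinarith
  -- tails
  set R : ℕ → ℕ → Set (List (Fin d)) := fun i k =>
    if k < n then {w | w ∈ w04_B T δ ∧ w.length = i - k + 1} else {w | w.length = N₁ + 1} with hR
  have hRfin : ∀ i k, (R i k).Finite := by
    intro i k
    simp only [hR]
    split_ifs
    · exact (List.finite_length_eq (Fin d) (i - k + 1)).subset fun w hw => hw.2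
    · exact List.finite_length_eq (Fin d) (N₁ + 1)
  have hRcard : ∀ i k, i ≤ I → ((R i k).ncard : ℝ) ≤ K₁ * Real.exp (3 * δ * (C' * n)) := by
    intro i k hi
    have hexp1 : 1 ≤ Real.exp (3 * δ * (C' * n)) := Real.one_le_exp (by positivity)
    simp only [hR]
    split_ifs with hk
    · have h1 := w04_B_card T δ C hC (i - k)
      have h2 : Real.exp (3 * δ * ((i - k : ℕ) : ℝ)) ≤ Real.exp (3 * δ * (C' * n)) := by
        apply Real.exp_le_exp.2
        have h3 : ((i - k : ℕ) : ℝ) ≤ C' * n := by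
          have h4 : ((i - k : ℕ) : ℝ) ≤ (I : ℝ) := by
            have : i - k ≤ I := by omega
            exact_mod_cast this
          linarith
        exact mul_le_mul_of_nonneg_left h3 (by positivity)
      calc _ ≤ C * Real.exp (3 * δ * ((i - k : ℕ) : ℝ)) := h1
        _ ≤ |C| * Real.exp (3 * δ * ((i - k : ℕ) : ℝ)) :=
          mul_le_mul_of_nonneg_right (le_abs_self C) (Real.exp_pos _).le
        _ ≤ K₁ * Real.exp (3 * δ * (C' * n)) :=
          mul_le_mul (by linarith) h2 (Real.exp_pos _).le hK0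
    · calc D₁ ≤ K₁ * 1 := by
            rw [mul_one]
            linarith [abs_nonneg C]
        _ ≤ K₁ * Real.exp (3 * δ * (C' * n)) := mul_le_mul_of_nonneg_left hexp1 hK0
  -- words
  set W : ℕ → ℕ → Set (List (Fin d)) := fun i k =>
    {w : List (Fin d) | w.length = i + 1 ∧ w.drop k ∈ R i k ∧
          ∃ E : Finset ℕ, E.card ≤ b ∧ ∀ t < k, t ∈ E ∨
            ∃ l, k₀ ≤ l ∧ t + l + 1 ≤ i + 1 ∧ (w.drop t).take (l + 1) ∈ w04_B T δ} with hWdef
  have hWfin : ∀ i k, (W i k).Finite := fun i k =>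
    (List.finite_length_eq (Fin d) (i + 1)).subset fun w hw => hw.1
  have hWcard : ∀ i k, i ≤ I → k ≤ i → ((W i k).ncard : ℝ) ≤
      (2 * C' * n) * Real.exp (4 * δ * (C' * n) + 4 * δ + θ / 4 * n) *
        (K₁ * Real.exp (3 * δ * (C' * n))) := by
    intro i k hi hk
    have h1 := hW i b k hk (R i k) (hRfin i k)
    have hi' : (i : ℝ) ≤ C' * n := by
      have h2 : (i : ℝ) ≤ I := by exact_mod_cast hi
      linarith
    have h2 : Real.exp (4 * δ * ((i : ℝ) + 1) + s * b) ≤
        Real.exp (4 * δ * (C' * n) + 4 * δ + θ / 4 * n) := by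
      apply Real.exp_le_exp.2
      have h3 : s * (b : ℝ) ≤ θ / 4 * n := by
        calc s * (b : ℝ) ≤ s * (θ / (4 * s) * n) := mul_le_mul_of_nonneg_left hble hs.le
          _ = θ / 4 * n := by
            field_simp
      have h4 : 4 * δ * (i : ℝ) ≤ 4 * δ * (C' * n) :=
        mul_le_mul_of_nonneg_left hi' (by positivity)
      linarith
    refine h1.trans ?_
    refine mul_le_mul ?_ (hRcard i k hi) (Nat.cast_nonneg _) (by positivity)
    exact mul_le_mul (by linarith) h2 (Real.exp_pos _).le (by positivity)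
  -- vertices
  set g : ℕ → List (Fin d) → X := fun i w =>
    if h : ∃ α : ℕ → Fin d, w04_wd α (i + 1) = w then T.z i h.choose else T.root with hg
  have hgz : ∀ i α, g i (w04_wd α (i + 1)) = T.z i α := by
    intro i α
    have h : ∃ β : ℕ → Fin d, w04_wd β (i + 1) = w04_wd α (i + 1) := ⟨α, rfl⟩
    simp only [hg]
    rw [dif_pos h]
    apply T.z_congr
    intro t ht
    exact w04_ext h.choose_spec t (by omega)
  set P : Finset (ℕ × ℕ) := (Finset.range (I + 1) ×ˢ Finset.range (n + 1)).filter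
    (fun p => p.2 ≤ p.1) with hP
  refine ⟨P.biUnion fun p => (hWfin p.1 p.2).toFinset.image (g p.1), ?_, ?_⟩
  · have h1 : (((P.biUnion fun p => (hWfin p.1 p.2).toFinset.image (g p.1)).card : ℕ) : ℝ) ≤
        ∑ p ∈ P, ((W p.1 p.2).ncard : ℝ) := by
      have h2 : (P.biUnion fun p => (hWfin p.1 p.2).toFinset.image (g p.1)).card ≤
          ∑ p ∈ P, (W p.1 p.2).ncard := by
        refine Finset.card_biUnion_le.trans (Finset.sum_le_sum fun p _ => ?_)
        refine Finset.card_image_le.trans ?_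
        rw [Set.ncard_eq_toFinset_card _ (hWfin p.1 p.2)]
      exact_mod_cast h2
    have h3 : ∑ p ∈ P, ((W p.1 p.2).ncard : ℝ) ≤ P.card • ((2 * C' * n) *
        Real.exp (4 * δ * (C' * n) + 4 * δ + θ / 4 * n) *
          (K₁ * Real.exp (3 * δ * (C' * n)))) := by
      refine Finset.sum_le_card_nsmul _ _ _ fun p hp => ?_
      rw [hP, Finset.mem_filter, Finset.mem_product, Finset.mem_range] at hp
      exact hWcard p.1 p.2 (by omega) hp.2
    have h4 : (P.card : ℝ) ≤ (2 * C' * n) * (2 * n) := by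
      have h5 : P.card ≤ (I + 1) * (n + 1) := by
        refine (Finset.card_filter_le _ _).trans ?_
        rw [Finset.card_product, Finset.card_range, Finset.card_range]
      have h6 : (P.card : ℝ) ≤ ((I : ℝ) + 1) * ((n : ℝ) + 1) := by exact_mod_cast h5
      refine h6.trans (mul_le_mul (by linarith) (by linarith) (by positivity) (by positivity))
    rw [nsmul_eq_mul] at h3
    have h7 : 7 * δ * C' * n ≤ θ / 4 * n := by
      have : 7 * δ * C' ≤ θ / 4 := by linarith
      exact mul_le_mul_of_nonneg_right this (by positivity)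
    have h8 : Real.exp (4 * δ * (C' * n) + 4 * δ + θ / 4 * n) * Real.exp (3 * δ * (C' * n)) ≤
        Real.exp (4 * δ) * Real.exp (θ / 2 * n) := by
      rw [← Real.exp_add, ← Real.exp_add]
      apply Real.exp_le_exp.2
      linarith
    have h9 := hn₁ n hnn₁
    calc (((P.biUnion fun p => (hWfin p.1 p.2).toFinset.image (g p.1)).card : ℕ) : ℝ)
        ≤ (P.card : ℝ) * ((2 * C' * n) * Real.exp (4 * δ * (C' * n) + 4 * δ + θ / 4 * n) *
            (K₁ * Real.exp (3 * δ * (C' * n)))) := h1.trans h3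
      _ ≤ ((2 * C' * n) * (2 * n)) * ((2 * C' * n) *
            Real.exp (4 * δ * (C' * n) + 4 * δ + θ / 4 * n) *
            (K₁ * Real.exp (3 * δ * (C' * n)))) :=
          mul_le_mul_of_nonneg_right h4 (by positivity)
      _ = (8 * C' ^ 2 * K₁ * (n : ℝ) ^ 3) *
            (Real.exp (4 * δ * (C' * n) + 4 * δ + θ / 4 * n) *
            Real.exp (3 * δ * (C' * n))) := by ring
      _ ≤ (8 * C' ^ 2 * K₁ * (n : ℝ) ^ 3) * (Real.exp (4 * δ) * Real.exp (θ / 2 * n)) :=
          mul_le_mul_of_nonneg_left h8 (by positivity)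
      _ = (8 * C' ^ 2 * Real.exp (4 * δ) * K₁ * (n : ℝ) ^ 3) * Real.exp (θ / 2 * n) := by ring
      _ ≤ Real.exp (θ / 2 * n) * Real.exp (θ / 2 * n) :=
          mul_le_mul_of_nonneg_right h9 (Real.exp_pos _).le
      _ = Real.exp (θ * n) := by
          rw [← Real.exp_add]
          congr 1
          ring
  · intro x α hx hlev hgood
    have hfc : Continuous f := by
      refine LipschitzWith.continuous (K := L.toNNReal) ?_
      refine LipschitzWith.of_dist_le_mul fun x y => ?_
      rw [Real.coe_toNNReal L (by linarith)]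
      exact hf x y
    have hIm : n + N₁ ≤ I := by
      apply Nat.le_floor
      push_cast
      have h1 : (N₁ : ℝ) ≤ n := by exact_mod_cast hnN₁
      nlinarith
    obtain ⟨i, k, hi1, hi2, hk, hsh, hcase⟩ := v03_find T (δ := δ) (k₀ := k₀) hIm (α := α)
      (fun t ht i hi => hlev t ht i (by
        have h1 : C' * (n : ℝ) < (I : ℝ) + 1 := Nat.lt_floor_add_one _
        have h2 : ((I + 1 : ℕ) : ℝ) ≤ ((t + i : ℕ) : ℝ) := by exact_mod_cast hi
        push_cast at h2
        linarith))
    have hN₀N₁ : N₀ ≤ N₁ := le_max_left _ _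
    have hk₀N₁ : k₀ ≤ N₁ := le_max_right _ _
    refine ⟨T.z i α, ?_, ?_⟩
    · rw [Finset.mem_biUnion]
      refine ⟨(i, k), ?_, ?_⟩
      · rw [hP, Finset.mem_filter, Finset.mem_product, Finset.mem_range, Finset.mem_range]
        refine ⟨⟨by omega, by omega⟩, ?_⟩
        show k ≤ i
        omega
      · rw [Finset.mem_image]
        refine ⟨w04_wd α (i + 1), ?_, hgz i α⟩
        rw [Set.Finite.mem_toFinset]
        refine ⟨w04_length α (i + 1), ?_, ?_⟩
        · show (w04_wd α (i + 1)).drop k ∈ R i k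
          rw [w04_drop]
          simp only [hR]
          rcases hcase with ⟨h1, h2⟩ | ⟨h1, h2⟩
          · rw [if_neg (by omega)]
            show (w04_wd _ _).length = N₁ + 1
            rw [w04_length]
            omega
          · rw [if_pos h1]
            refine ⟨⟨i - k, shift^[k] α, ?_, h2⟩, ?_⟩
            · congr 1
              omega
            · rw [w04_length]
              omega
        · refine ⟨(Finset.range n).filter fun t => shift^[t] α ∈ T.good δ k₀, ?_, ?_⟩
          · have h1 : {t : ℕ | t < n ∧ shift^[t] α ∈ T.good δ k₀}.ncard =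
                ((Finset.range n).filter fun t => shift^[t] α ∈ T.good δ k₀).card := by
              rw [← Set.ncard_coe_finset]
              congr 1
              ext t
              simp
            rw [← h1]
            exact Nat.le_floor hgood
          · intro t ht
            by_cases hm : shift^[t] α ∈ T.good δ k₀
            · left
              rw [Finset.mem_filter, Finset.mem_range]
              exact ⟨by omega, hm⟩
            · right
              have h1 : ∃ l, k₀ ≤ l ∧ Real.exp (-(δ * l)) < T.D l (shift^[t] α) := by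
                by_contra hcon
                apply hm
                intro l hl
                by_contra hlt
                exact hcon ⟨l, hl, not_le.1 hlt⟩
              obtain ⟨l, hl, hbad⟩ := h1
              have hle : t + l ≤ i := by
                by_contra hcon
                have h2 := hsh t (by omega) l hl (by omega)
                exact absurd h2 (not_le.2 hbad)
              refine ⟨l, hl, by omega, l, shift^[t] α, ?_, hbad⟩
              rw [w04_drop, w04_take _ (by omega)]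
    · intro t ht
      refine v03_dist T hδ hN₀ hfc hx (by omega) fun j hj => ?_
      exact hsh t ht j (by omega) hj

end Pool.Agent.Lib.MP_e4ee3e_an
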