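import Pool.Agent.Lib.MP_e4ee3e_an.E05
import Pool.Agent.Lib.MP_e4ee3e_an.E06
import Pool.Agent.Lib.MP_e4ee3e_an.V01
import Pool.Agent.Lib.MP_e4ee3e_an.V02
import Pool.Agent.Lib.MP_e4ee3e_an.V03

/-!
V04. A positive fraction of good times on average. p, n₁ from entropy_cover for (K, θ); E, ε from
E06 (exists_separated) with p; C' = 2 + 2(log L + 1)/χ (so that (χ-δ)(C'-1) >= log L + 1 for
δ <= χ/2), δ = min (χ/2) (θ/(28 C')); k₀, q from V03; c = q p/2. If the conclusion fails,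
eventually sum over j < n of m{good at j} < c n, so by Markov (measurability of good,
shift and s) m{x : number of good times > q n} <= p/2; and m{x : s x not in codes χ A} <= p/2 for A
large. For n large every other x is in G = {x : n-shadowed by F}, so m(Gᶜ) <= p and
entropy_cover (both block lengths n, F₁ = F₂ = F) contradicts hent.
-/

open MeasureTheory Filter Topology

namespace Pool.Agent.Lib.MP_e4ee3e_an

attribute [local instance] chMetric

theorem v04_measurable_shift (d : ℕ) (j : ℕ) :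
    Measurable (fun α : ℕ → Fin d => shift^[j] α) := by
  have h : Measurable (shift : (ℕ → Fin d) → (ℕ → Fin d)) :=
    measurable_pi_lambda _ fun k => measurable_pi_apply (k + 1)
  exact h.iterate j

theorem v04_count {Y : Type} (g : ℕ → Set Y) (n : ℕ) (x : Y) :
    (({t : ℕ | t < n ∧ x ∈ g t}.ncard : ℕ) : ENNReal) =
      ∑ j ∈ Finset.range n, (g j).indicator (fun _ => (1 : ENNReal)) x := by
  classical
  have h1 : {t : ℕ | t < n ∧ x ∈ g t} = (((Finset.range n).filter fun t => x ∈ g t : Finset ℕ) :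
      Set ℕ) := by
    ext t
    simp
  rw [h1, Set.ncard_coe_finset, Finset.card_filter]
  push_cast
  refine Finset.sum_congr rfl fun j _ => ?_
  simp only [Set.indicator_apply]

theorem v04_markov {X : Type} [MeasurableSpace X] {m : Measure X} (B : ℕ → Set X)
    (hB : ∀ j, MeasurableSet (B j)) (n : ℕ) (hn : 0 < n) {q r : ℝ} (hq : 0 < q) (hr : 0 ≤ r)
    (h : ∑ j ∈ Finset.range n, m (B j) ≤ ENNReal.ofReal (q * r * n)) :
    m {x | q * n < (({t : ℕ | t < n ∧ x ∈ B t}.ncard : ℕ) : ℝ)} ≤ ENNReal.ofReal r := by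
  have hn' : (0 : ℝ) < n := by exact_mod_cast hn
  have hmeas : Measurable fun x => ∑ j ∈ Finset.range n,
      (B j).indicator (fun _ => (1 : ENNReal)) x :=
    Finset.measurable_fun_sum _ fun j _ => measurable_const.indicator (hB j)
  have h1 := mul_meas_ge_le_lintegral (μ := m) hmeas (ENNReal.ofReal (q * n))
  have h2 : ∫⁻ x, ∑ j ∈ Finset.range n, (B j).indicator (fun _ => (1 : ENNReal)) x ∂m =
      ∑ j ∈ Finset.range n, m (B j) := by
    rw [lintegral_finsetSum _ fun j _ => measurable_const.indicator (hB j)]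
    refine Finset.sum_congr rfl fun j _ => ?_
    rw [lintegral_indicator_const (hB j), one_mul]
  rw [h2] at h1
  have h3 : ENNReal.ofReal (q * n) * m {x | ENNReal.ofReal (q * n) ≤
      ∑ j ∈ Finset.range n, (B j).indicator (fun _ => (1 : ENNReal)) x} ≤
      ENNReal.ofReal (q * n) * ENNReal.ofReal r := by
    refine h1.trans (h.trans (le_of_eq ?_))
    rw [← ENNReal.ofReal_mul (by positivity)]
    congr 1
    ring
  have h4 : m {x | ENNReal.ofReal (q * n) ≤
      ∑ j ∈ Finset.range n, (B j).indicator (fun _ => (1 : ENNReal)) x} ≤ ENNReal.ofReal r := by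
    have h5 : ENNReal.ofReal (q * n) ≠ 0 := by
      rw [Ne, ENNReal.ofReal_eq_zero, not_le]
      positivity
    exact (ENNReal.mul_le_mul_iff_right h5 ENNReal.ofReal_ne_top).1 h3
  refine (measure_mono fun x hx => ?_).trans h4
  rw [Set.mem_ofPred_eq, ← v04_count]
  have h6 : (({t : ℕ | t < n ∧ x ∈ B t}.ncard : ℕ) : ENNReal) =
      ENNReal.ofReal (({t : ℕ | t < n ∧ x ∈ B t}.ncard : ℕ) : ℝ) := by
    rw [ENNReal.ofReal_natCast]
  rw [h6]
  exact ENNReal.ofReal_le_ofReal (le_of_lt hx)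

theorem AbsTree.tight {X : Type} [MetricSpace X] [CompactSpace X] [MeasurableSpace X]
    [BorelSpace X] {f : X → X} {L : ℝ} {d : ℕ} (T : AbsTree X f L d) (hL : 2 ≤ L)
    (hf : ∀ x y, dist (f x) (f y) ≤ L * dist x y) (m : Measure X) [IsProbabilityMeasure m]
    (hm : MeasurePreserving f m m) (K : ℕ) (ξ : X → Fin K) (hξ : Measurable ξ) (θ : ℝ)
    (hθ : 0 < θ) (hent : ∃ᶠ n : ℕ in atTop, 3 * θ * n < blockEntropy f m ξ n) (χ : ℝ) (hχ : 0 < χ)
    (s : X → ℕ → Fin d) (hs : Measurable s)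
    (hcode : ∀ᵐ x ∂m, (s x ∈ ⋃ A : ℕ, T.codes χ (A : ℝ)) ∧
      Tendsto (fun n => T.z n (s x)) atTop (𝓝 x)) :
    ∃ (δ : ℝ) (k₀ : ℕ) (c : ℝ), 0 < δ ∧ δ < χ ∧ 0 < c ∧ ∃ᶠ n : ℕ in atTop,
      ENNReal.ofReal (c * n) ≤ ∑ j ∈ Finset.range n, m {x | shift^[j] (s x) ∈ T.good δ k₀} := by
  classical
  have hK : 1 ≤ K := by
    obtain ⟨x⟩ : Nonempty X := by
      by_contra hne
      rw [not_nonempty_iff] at hne
      have h1 : m Set.univ = 1 := measure_univ
      have h2 : (Set.univ : Set X) = ∅ := Set.eq_empty_of_isEmpty _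
      rw [h2, measure_empty] at h1
      exact zero_ne_one h1
    have := (ξ x).2
    omega
  obtain ⟨p, n₁, hp, hcov⟩ := entropy_cover K hK θ hθ
  obtain ⟨E, ε, hε, hE, hmE⟩ := exists_separated m ξ hξ p hp
  have hlogL : 0 ≤ Real.log L := Real.log_nonneg (by linarith)
  obtain ⟨C', hC'⟩ : ∃ C' : ℝ, C' = 2 + 2 * (Real.log L + 1) / χ := ⟨_, rfl⟩
  have hC2 : 2 ≤ C' := by
    rw [hC']
    have : 0 ≤ 2 * (Real.log L + 1) / χ := by positivity
    linarith
  obtain ⟨δ, hδd⟩ : ∃ δ : ℝ, δ = min (χ / 2) (θ / (28 * C')) := ⟨_, rfl⟩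
  have hδ : 0 < δ := by
    rw [hδd]
    exact lt_min (by linarith) (by positivity)
  have hδ1 : δ ≤ χ / 2 := hδd ▸ min_le_left _ _
  have hδχ : δ < χ := by linarith
  have hδθ : 28 * δ * C' ≤ θ := by
    have h1 : δ ≤ θ / (28 * C') := hδd ▸ min_le_right _ _
    rw [le_div_iff₀ (by positivity)] at h1
    linarith
  have hCδ : Real.log L + 1 ≤ (χ - δ) * (C' - 1) := by
    have h1 : C' - 1 = 1 + 2 * (Real.log L + 1) / χ := by rw [hC']; ring
    have h2 : χ / 2 * (2 * (Real.log L + 1) / χ) = Real.log L + 1 := by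
      field_simp
    have h3 : χ / 2 * (C' - 1) ≤ (χ - δ) * (C' - 1) :=
      mul_le_mul_of_nonneg_right (by linarith) (by linarith)
    have h4 : χ / 2 * (C' - 1) = χ / 2 + (Real.log L + 1) := by
      rw [h1, mul_add, mul_one, h2]
    linarith
  obtain ⟨k₀, q, hq, hH⟩ := T.code_cover hL hf hδ hθ hC2 hδθ
  obtain ⟨n₀, hn₀⟩ := hH ε hε
  refine ⟨δ, k₀, q * (p / 2), hδ, hδχ, by positivity, ?_⟩
  by_contra hnot
  rw [Filter.not_frequently] at hnot
  -- the constant A
  have hmeasC : ∀ A : ℕ, MeasurableSet {x | s x ∉ T.codes χ (A : ℝ)} := fun A =>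
    hs (T.isCompact_codes χ _).isClosed.measurableSet.compl
  have hanti : Antitone fun A : ℕ => {x | s x ∉ T.codes χ (A : ℝ)} := by
    intro A A' hAA x hx hx'
    apply hx
    intro k
    refine (hx' k).trans (mul_le_mul_of_nonneg_right ?_ (Real.exp_pos _).le)
    exact_mod_cast hAA
  have hlim := tendsto_measure_iInter_atTop (μ := m)
    (fun A => (hmeasC A).nullMeasurableSet) hanti ⟨0, measure_ne_top m _⟩
  have hzero : m (⋂ A : ℕ, {x | s x ∉ T.codes χ (A : ℝ)}) = 0 := by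
    have h1 : m {x | ¬ ((s x ∈ ⋃ A : ℕ, T.codes χ (A : ℝ)) ∧
      Tendsto (fun n => T.z n (s x)) atTop (𝓝 x))} = 0 := ae_iff.1 hcode
    refine measure_mono_null (fun x hx => ?_) h1
    rw [Set.mem_ofPred_eq, not_and_or]
    left
    rw [Set.mem_iUnion, not_exists]
    intro A
    exact (Set.mem_iInter.1 hx A)
  rw [hzero] at hlim
  have hp2 : (0 : ENNReal) < ENNReal.ofReal (p / 2) := ENNReal.ofReal_pos.2 (by positivity)
  obtain ⟨A, hA1, hA⟩ := ((eventually_ge_atTop 1).and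
    (hlim.eventually (gt_mem_nhds hp2))).exists
  have hA1' : (1 : ℝ) ≤ (A : ℝ) := by exact_mod_cast hA1
  -- choose n
  have hlogA : ∀ᶠ n : ℕ in atTop, Real.log A ≤ n :=
    tendsto_natCast_atTop_atTop.eventually_ge_atTop _
  obtain ⟨n, hn⟩ := (hnot.and (hlogA.and ((eventually_ge_atTop n₀).and
    ((eventually_ge_atTop n₁).and (eventually_ge_atTop 1))))).exists
  obtain ⟨hsum, hnA, hnn₀, hnn₁, hn1⟩ := hn
  obtain ⟨F, hF, hshadow⟩ := hn₀ n hnn₀
  obtain ⟨G, hGdef⟩ : ∃ G : Set X, G = {x | ∃ c ∈ F, ∀ k < n, dist (f^[k] x) (f^[k] c) ≤ ε} :=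
    ⟨_, rfl⟩
  have hB : ∀ j, MeasurableSet {x | shift^[j] (s x) ∈ T.good δ k₀} := fun j =>
    ((v04_measurable_shift d j).comp hs) (T.isClosed_good δ k₀).measurableSet
  have hmark := v04_markov (m := m) (fun j => {x | shift^[j] (s x) ∈ T.good δ k₀}) hB n hn1 hq
    (r := p / 2) (by positivity) (le_of_lt (not_le.1 hsum))
  have hG : m Gᶜ ≤ ENNReal.ofReal p := by
    have h1 : m {x | ¬ ((s x ∈ ⋃ A : ℕ, T.codes χ (A : ℝ)) ∧
      Tendsto (fun n => T.z n (s x)) atTop (𝓝 x))} = 0 := ae_iff.1 hcode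
    have h2 : Gᶜ ⊆ {x | ¬ ((s x ∈ ⋃ A : ℕ, T.codes χ (A : ℝ)) ∧
        Tendsto (fun n => T.z n (s x)) atTop (𝓝 x))} ∪ ({x | s x ∉ T.codes χ (A : ℝ)} ∪
        {x | q * n < (({t : ℕ | t < n ∧ x ∈ {x | shift^[t] (s x) ∈ T.good δ k₀}}.ncard : ℕ) :
          ℝ)}) := by
      intro x hx
      by_contra hcon
      rw [Set.mem_union, Set.mem_union, not_or, not_or] at hcon
      obtain ⟨hc1, hc2, hc3⟩ := hcon
      rw [Set.mem_ofPred_eq, not_not] at hc1 hc2
      rw [Set.mem_ofPred_eq, not_lt] at hc3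
      apply hx
      rw [hGdef]
      obtain ⟨u, hu, hu2⟩ := hshadow x (s x) hc1.2 (fun t ht i hi =>
        T.tail_bound hL hδ hδχ (by linarith) hCδ hA1' n hnA (s x) hc2 t ht i hi) hc3
      exact ⟨u, hu, fun k hk => (hu2 k hk).le⟩
    refine (measure_mono h2).trans ((measure_union_le _ _).trans ?_)
    rw [h1, zero_add]
    refine (measure_union_le _ _).trans ?_
    have h3 : ENNReal.ofReal p = ENNReal.ofReal (p / 2) + ENNReal.ofReal (p / 2) := by
      rw [← ENNReal.ofReal_add (by positivity) (by positivity)]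
      congr 1
      ring
    rw [h3]
    exact add_le_add hA.le hmark
  have hfin := hcov f m ξ E G ε n n F F hm hξ hE hnn₁ hnn₁ hF hF
    (fun x hx => Or.inl (by rw [hGdef] at hx; exact hx)) hG hmE
  obtain ⟨L', hL1, hL2⟩ := (hent.and_eventually hfin).exists
  exact absurd hL1 (not_lt.2 hL2)

end Pool.Agent.Lib.MP_e4ee3e_an
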