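import Pool.Agent.Lib.MP_e4ee3e_an.Setup

/-!
V05. Limit measures. Let μ_n = (1/n) sum_{j<n} (S^j)_* μ₀ and κ_n = μ_n restricted to G. Choose an
ultrafilter U on the natural numbers containing atTop and the set of n in hfreq (Filter.Frequently
gives NeBot of atTop restricted to the principal filter). The functionals φ -> U-lim of the integral
of φ against μ_n, resp. κ_n, on C(Y,R) are positive linear; by Riesz-Markov-Kakutani
(RealRMK.integral_rieszMeasure, Y compact; or by compactness of the space of probability measures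
if Mathlib has it) they are given by measures ν, κ. ν is S-invariant: integral of φ o S against μ_n
differs from that of φ by at most 2 |φ|/n. κ <= ν: compare on nonnegative continuous functions,
outer regularity. κ(Gᶜ) = 0: for compact F in the open set Gᶜ take Urysohn φ = 1 on F, 0 on G.
κ(univ) = U-lim κ_n(univ) >= c > 0. For open W: κ(W) <= sup of integrals of φ, 0 <= φ <= 1 with
support in W, and the integral of φ against κ_n is <= μ_n(W ∩ G) <= B.
-/

open MeasureTheory Filter Topology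

namespace Pool.Agent.Lib.MP_e4ee3e_an

attribute [local instance] chMetric

section

variable {Y : Type*} [MeasurableSpace Y]

/-- the averages along the orbit -/
noncomputable def v05_M (S : Y → Y) (m₀ : FiniteMeasure Y) (n : ℕ) : FiniteMeasure Y :=
  (n : NNReal)⁻¹ • ∑ j ∈ Finset.range n, m₀.map (S^[j])

theorem v05_apply {S : Y → Y} (hS : Measurable S) (m₀ : FiniteMeasure Y) {n : ℕ}
    {A : Set Y} (hA : MeasurableSet A) :
    (v05_M S m₀ n : Measure Y) A = (((n : NNReal)⁻¹ : NNReal) : ENNReal) *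
      ∑ j ∈ Finset.range n, (m₀ : Measure Y) (S^[j] ⁻¹' A) := by
  unfold v05_M
  rw [FiniteMeasure.toMeasure_smul, FiniteMeasure.toMeasure_sum]
  rw [Measure.smul_apply, Measure.coe_finsetSum, Finset.sum_apply]
  rw [ENNReal.smul_def, smul_eq_mul]
  congr 1
  refine Finset.sum_congr rfl fun j _ => ?_
  rw [FiniteMeasure.toMeasure_map, Measure.map_apply (hS.iterate j) hA]

theorem v05_inv {n : ℕ} (hn : 1 ≤ n) : (((n : NNReal)⁻¹ : NNReal) : ENNReal) = (n : ENNReal)⁻¹ := by
  rw [ENNReal.coe_inv (by positivity)]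
  norm_cast

theorem v05_bound {S : Y → Y} (hS : Measurable S) (m₀ : FiniteMeasure Y) {n : ℕ} (hn : 1 ≤ n)
    {A : Set Y} (hA : MeasurableSet A) {B : ENNReal}
    (hB : ∀ j, (m₀ : Measure Y) (S^[j] ⁻¹' A) ≤ B) : (v05_M S m₀ n : Measure Y) A ≤ B := by
  rw [v05_apply hS m₀ hA, v05_inv hn]
  have h1 : ∑ j ∈ Finset.range n, (m₀ : Measure Y) (S^[j] ⁻¹' A) ≤ n * B := by
    have := Finset.sum_le_card_nsmul (Finset.range n)
      (fun j => (m₀ : Measure Y) (S^[j] ⁻¹' A)) B (fun j _ => hB j)
    rwa [Finset.card_range, nsmul_eq_mul] at this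
  calc (n : ENNReal)⁻¹ * ∑ j ∈ Finset.range n, (m₀ : Measure Y) (S^[j] ⁻¹' A)
      ≤ (n : ENNReal)⁻¹ * (n * B) := by gcongr
    _ = B := by
        rw [← mul_assoc, ENNReal.inv_mul_cancel (by positivity) (ENNReal.natCast_ne_top n), one_mul]

theorem v05_mass {S : Y → Y} (hS : Measurable S) (m₀ : FiniteMeasure Y)
    [IsProbabilityMeasure (m₀ : Measure Y)] {n : ℕ} (hn : 1 ≤ n) : (v05_M S m₀ n).mass = 1 := by
  have h : ((v05_M S m₀ n).mass : ENNReal) = 1 := by
    rw [FiniteMeasure.ennreal_mass, v05_apply hS m₀ MeasurableSet.univ, v05_inv hn]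
    simp only [Set.preimage_univ, measure_univ, Finset.sum_const, Finset.card_range, nsmul_eq_mul,
      mul_one]
    exact ENNReal.inv_mul_cancel (by positivity) (ENNReal.natCast_ne_top n)
  exact_mod_cast h

theorem v05_mass_le {S : Y → Y} (hS : Measurable S) (m₀ : FiniteMeasure Y)
    [IsProbabilityMeasure (m₀ : Measure Y)] (n : ℕ) : (v05_M S m₀ n).mass ≤ 1 := by
  rcases Nat.eq_zero_or_pos n with h | h
  · subst h
    unfold v05_M
    rw [Finset.range_zero, Finset.sum_empty, smul_zero, FiniteMeasure.zero_mass]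
    exact zero_le_one
  · exact (v05_mass hS m₀ h).le

theorem v05_shift {S : Y → Y} (hS : Measurable S) (m₀ : FiniteMeasure Y) (n : ℕ) :
    (v05_M S m₀ n).map S + (n : NNReal)⁻¹ • m₀ =
      v05_M S m₀ n + (n : NNReal)⁻¹ • m₀.map (S^[n]) := by
  have h1 : ∀ j, (m₀.map (S^[j])).map S = m₀.map (S^[j + 1]) := by
    intro j
    apply FiniteMeasure.toMeasure_injective
    rw [FiniteMeasure.toMeasure_map, FiniteMeasure.toMeasure_map, FiniteMeasure.toMeasure_map,
      Measure.map_map hS (hS.iterate j), Function.iterate_succ']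
  have h2 : (v05_M S m₀ n).map S =
      (n : NNReal)⁻¹ • ∑ j ∈ Finset.range n, m₀.map (S^[j + 1]) := by
    unfold v05_M
    rw [FiniteMeasure.map_smul]
    congr 1
    have h3 := map_sum (FiniteMeasure.mapHom hS) (fun j => m₀.map (S^[j])) (Finset.range n)
    have h4 : (∑ j ∈ Finset.range n, m₀.map (S^[j])).map S =
        ∑ j ∈ Finset.range n, (m₀.map (S^[j])).map S := h3
    rw [h4]
    exact Finset.sum_congr rfl fun j _ => h1 j
  have h0 : m₀.map (S^[0]) = m₀ := by
    apply FiniteMeasure.toMeasure_injective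
    rw [FiniteMeasure.toMeasure_map, Function.iterate_zero, Measure.map_id]
  rw [h2]
  unfold v05_M
  rw [← smul_add, ← smul_add]
  congr 1
  have h5 := Finset.sum_range_succ (fun j => m₀.map (S^[j])) n
  have h6 := Finset.sum_range_succ' (fun j => m₀.map (S^[j])) n
  rw [← h5, h6, h0]

end

theorem limit_measures {Y : Type*} [TopologicalSpace Y] [CompactSpace Y] [T2Space Y]
    [TopologicalSpace.MetrizableSpace Y] [MeasurableSpace Y] [BorelSpace Y] (S : Y → Y)
    (hS : Continuous S) (μ₀ : Measure Y) [IsProbabilityMeasure μ₀] (G : Set Y) (hG : IsClosed G)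
    (c : ℝ) (hc : 0 < c)
    (hfreq : ∃ᶠ n : ℕ in atTop,
      ENNReal.ofReal (c * n) ≤ ∑ j ∈ Finset.range n, μ₀ (S^[j] ⁻¹' G)) :
    ∃ ν κ : Measure Y, IsProbabilityMeasure ν ∧ MeasurePreserving S ν ν ∧ κ ≤ ν ∧ κ Gᶜ = 0 ∧
      0 < κ Set.univ ∧ ∀ (W : Set Y), IsOpen W → ∀ B : ENNReal,
        (∀ j : ℕ, μ₀ (S^[j] ⁻¹' (W ∩ G)) ≤ B) → κ W ≤ B := by
  classical
  have hSm : Measurable S := hS.measurable
  set m₀ : FiniteMeasure Y := ⟨μ₀, inferInstance⟩ with hm₀
  have hm₀c : (m₀ : Measure Y) = μ₀ := rfl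
  have : IsProbabilityMeasure (m₀ : Measure Y) := by rw [hm₀c]; infer_instance
  set P : Set ℕ := {n | ENNReal.ofReal (c * n) ≤ ∑ j ∈ Finset.range n, μ₀ (S^[j] ⁻¹' G)} with hP
  have hne : NeBot (atTop ⊓ 𝓟 P) := frequently_iff_neBot.1 hfreq
  set U : Ultrafilter ℕ := Ultrafilter.of (atTop ⊓ 𝓟 P) with hU
  have hUle : (U : Filter ℕ) ≤ atTop ⊓ 𝓟 P := Ultrafilter.of_le _
  have hUtop : (U : Filter ℕ) ≤ atTop := hUle.trans inf_le_left
  have hUP : ∀ᶠ n in (U : Filter ℕ), n ∈ P := by
    have h1 : P ∈ (atTop ⊓ 𝓟 P : Filter ℕ) := mem_inf_of_right (mem_principal_self P)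
    exact hUle h1
  have hU1 : ∀ᶠ n in (U : Filter ℕ), 1 ≤ n := hUtop (eventually_ge_atTop 1)
  set M : ℕ → FiniteMeasure Y := v05_M S m₀ with hM
  -- limits
  have hlim : ∀ (N : ℕ → FiniteMeasure Y) (K : Set Y), IsCompact K →
      (∀ n, (N n).mass ≤ 1 ∧ N n Kᶜ = 0) →
      ∃ ν : FiniteMeasure Y, (ν.mass ≤ 1 ∧ ν Kᶜ = 0) ∧ Tendsto N U (𝓝 ν) := by
    intro N K hK hN
    have h1 := (isCompact_setOfPred_finiteMeasure_le_of_isCompact (E := Y) 1 hK).ultrafilter_le_nhds'
      (U.map N) (Filter.Eventually.of_forall (f := (U : Filter ℕ)) hN)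
    obtain ⟨ν, hν, hle⟩ := h1
    exact ⟨ν, hν, hle⟩
  have hGm : MeasurableSet G := hG.measurableSet
  obtain ⟨κ, ⟨-, hκ0⟩, hκ⟩ := hlim (fun n => (M n).restrict G) G hG.isCompact (fun n => by
    refine ⟨?_, ?_⟩
    · rw [FiniteMeasure.restrict_mass]
      exact ((M n).apply_le_mass G).trans (v05_mass_le hSm m₀ n)
    · rw [FiniteMeasure.restrict_apply _ _ hGm.compl, Set.compl_inter_self]
      simp)
  obtain ⟨lam, -, hlam⟩ := hlim (fun n => (M n).restrict Gᶜ) Set.univ isCompact_univ (fun n => by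
    refine ⟨?_, ?_⟩
    · rw [FiniteMeasure.restrict_mass]
      exact ((M n).apply_le_mass Gᶜ).trans (v05_mass_le hSm m₀ n)
    · rw [Set.compl_univ]
      simp)
  have hsum : ∀ n, (M n).restrict G + (M n).restrict Gᶜ = M n := by
    intro n
    rw [← FiniteMeasure.restrict_union disjoint_compl_right hGm.compl, Set.union_compl_self,
      FiniteMeasure.restrict_univ]
  have hν : Tendsto M U (𝓝 (κ + lam)) := by
    have h1 := hκ.add hlam
    simp only [hsum] at h1
    exact h1
  set ν : FiniteMeasure Y := κ + lam with hνdef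
  have hνmass : ν.mass = 1 := by
    have h1 := hν.mass
    refine tendsto_nhds_unique h1 ?_
    refine (tendsto_const_nhds (x := (1 : NNReal))).congr' ?_
    filter_upwards [hU1] with n hn
    exact (v05_mass hSm m₀ hn).symm
  have hinvlim : Tendsto (fun n : ℕ => (n : NNReal)⁻¹) U (𝓝 0) := by
    have h1 : Tendsto (fun n : ℕ => (n : NNReal)⁻¹) atTop (𝓝 0) :=
      tendsto_inv_atTop_zero.comp tendsto_natCast_atTop_atTop
    exact h1.mono_left hUtop
  have hinv : ν.map S = ν := by
    have h1 : Tendsto (fun n => (M n).map S + (n : NNReal)⁻¹ • m₀) U (𝓝 (ν.map S + 0)) := by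
      refine (FiniteMeasure.tendsto_map_of_tendsto_of_continuous M ν hν hS).add ?_
      apply FiniteMeasure.tendsto_zero_of_tendsto_zero_mass
      have h2 : ∀ n : ℕ, ((n : NNReal)⁻¹ • m₀).mass = (n : NNReal)⁻¹ * m₀.mass := by
        intro n
        unfold FiniteMeasure.mass
        rw [FiniteMeasure.smul_apply, smul_eq_mul]
      simp only [h2]
      have h3 := hinvlim.mul_const m₀.mass
      rwa [zero_mul] at h3
    have h4 : Tendsto (fun n => M n + (n : NNReal)⁻¹ • m₀.map (S^[n])) U (𝓝 (ν + 0)) := by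
      refine hν.add ?_
      apply FiniteMeasure.tendsto_zero_of_tendsto_zero_mass
      have h2 : ∀ n : ℕ, ((n : NNReal)⁻¹ • m₀.map (S^[n])).mass ≤ (n : NNReal)⁻¹ * m₀.mass := by
        intro n
        have h5 : ((n : NNReal)⁻¹ • m₀.map (S^[n])).mass =
            (n : NNReal)⁻¹ * (m₀.map (S^[n])).mass := by
          unfold FiniteMeasure.mass
          rw [FiniteMeasure.smul_apply, smul_eq_mul]
        rw [h5]
        exact mul_le_mul_of_nonneg_left (FiniteMeasure.mass_map_le _ _) zero_le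
      have h3 := hinvlim.mul_const m₀.mass
      rw [zero_mul] at h3
      exact tendsto_of_tendsto_of_tendsto_of_le_of_le tendsto_const_nhds h3
        (fun n => zero_le) h2
    rw [add_zero] at h1 h4
    have h6 : (fun n => (M n).map S + (n : NNReal)⁻¹ • m₀) =
        fun n => M n + (n : NNReal)⁻¹ • m₀.map (S^[n]) := by
      funext n
      exact v05_shift hSm m₀ n
    rw [h6] at h1
    exact tendsto_nhds_unique h1 h4
  refine ⟨ν, κ, ?_, ⟨hSm, ?_⟩, ?_, ?_, ?_, ?_⟩
  · constructor
    rw [← FiniteMeasure.ennreal_mass, hνmass]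
    rfl
  · rw [← FiniteMeasure.toMeasure_map, hinv]
  · rw [hνdef, FiniteMeasure.toMeasure_add]
    exact Measure.le_add_right le_rfl
  · exact (FiniteMeasure.null_iff_toMeasure_null κ Gᶜ).1 hκ0
  · -- mass of the limit
    have h1 := hκ.mass
    have h2 : Real.toNNReal c ≤ κ.mass := by
      refine ge_of_tendsto h1 ?_
      filter_upwards [hU1, hUP] with n hn hnP
      rw [FiniteMeasure.restrict_mass]
      have h3 : ENNReal.ofReal c ≤ (M n : Measure Y) G := by
        rw [hM, v05_apply hSm m₀ hGm, v05_inv hn, hm₀c]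
        have h4 : ENNReal.ofReal c = (n : ENNReal)⁻¹ * ENNReal.ofReal (c * n) := by
          rw [ENNReal.ofReal_mul hc.le, ENNReal.ofReal_natCast, mul_comm (ENNReal.ofReal c),
            ← mul_assoc, ENNReal.inv_mul_cancel (by positivity) (ENNReal.natCast_ne_top n), one_mul]
        rw [h4]
        gcongr
        exact hnP
      have h5 : ((Real.toNNReal c : NNReal) : ENNReal) ≤ ((M n G : NNReal) : ENNReal) := by
        rw [FiniteMeasure.ennreal_coeFn_eq_coeFn_toMeasure]
        exact h3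
      exact_mod_cast h5
    rw [← FiniteMeasure.ennreal_mass]
    have h6 : 0 < Real.toNNReal c := Real.toNNReal_pos.2 hc
    exact_mod_cast lt_of_lt_of_le h6 h2
  · intro W hW B hB
    have hWm : MeasurableSet W := hW.measurableSet
    have h1 : ∀ᶠ n in (U : Filter ℕ), ((M n).restrict G : Measure Y) W ≤ B := by
      filter_upwards [hU1] with n hn
      rw [FiniteMeasure.restrict_apply_measure _ _ hWm]
      exact v05_bound hSm m₀ hn (hWm.inter hGm) hB
    have h2 := FiniteMeasure.limsup_measure_closed_le_of_tendsto hκ hW.isClosed_compl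
    have h3 : (κ : Measure Y) Set.univ ≤ B + (κ : Measure Y) Wᶜ := by
      refine le_of_forall_gt_imp_ge_of_dense fun a ha => ?_
      by_cases hBt : B = ⊤
      · rw [hBt, top_add] at ha
        exact absurd ha (not_lt.2 le_top)
      -- choose a bound for the complement
      have h4 : (κ : Measure Y) Wᶜ < a - B := by
        rw [lt_tsub_iff_left]
        exact ha
      have h5 : ∀ᶠ n in (U : Filter ℕ), ((M n).restrict G : Measure Y) Wᶜ < a - B :=
        eventually_lt_of_limsup_lt (lt_of_le_of_lt h2 h4)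
      have h6 : ∀ᶠ n in (U : Filter ℕ), (((M n).restrict G).mass : ENNReal) ≤ a := by
        filter_upwards [h1, h5] with n hn1 hn2
        rw [FiniteMeasure.ennreal_mass, ← measure_add_measure_compl hWm]
        calc _ ≤ B + (a - B) := add_le_add hn1 hn2.le
          _ = a := add_tsub_cancel_of_le (le_trans (le_add_right le_rfl) ha.le)
      have h7 : Tendsto (fun n => (((M n).restrict G).mass : ENNReal)) U (𝓝 (κ.mass : ENNReal)) :=
        ENNReal.tendsto_coe.2 hκ.mass
      rw [← FiniteMeasure.ennreal_mass]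
      exact le_of_tendsto h7 h6
    rw [← measure_add_measure_compl hWm] at h3
    exact (ENNReal.add_le_add_iff_right (measure_ne_top _ _)).1 h3

end Pool.Agent.Lib.MP_e4ee3e_an
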