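import Pool.Agent.Lib.MP_e4ee3e_an.Setup

/-!
V06. The invariant part. κ <= ν finite, h = κ.rnDeriv ν, A = {h > 0} intersected with C, measurable;
for measurable Z: κ Z = 0 implies ν (A ∩ Z) = 0. Let I = {β : S^j β in A for infinitely many j}:
S^-1 I = I, ν(A minus I) = 0 (Poincare: MeasurePreserving.conservative,
Conservative.ae_mem_imp_frequently_image_mem), so ν(I) >= ν(A) > 0. (a) ν(I minus C) = 0: R = I minus
C satisfies S^-1 R in R (S C in C, I invariant), equal measures, so a.e. β in R has all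
S^j β in R, but some S^j β is in A, inside C. (b) for m F = 0 let F' = union of f^-i F, null,
f^-1 F' in F'; T = I ∩ C ∩ π^-1 F' satisfies S^-1 T ∩ (a.e. C) in T, so a.e. β in T has all S^j β in
T, some in A ∩ π^-1 F', which is ν-null, and so are its preimages: ν T = 0. ν' = ν restricted to I,
normalised (ProbabilityTheory.cond ν I); invariant because S^-1 I = I. The image under π is
absolutely continuous w.r.t. m, f-invariant (π o S = f o π a.e.), so equal to m:
Ergodic.eq_of_absolutelyContinuous.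
-/

open MeasureTheory Filter Topology

namespace Pool.Agent.Lib.MP_e4ee3e_an

attribute [local instance] chMetric

/-- A set containing its preimage up to a null set: almost all its points stay in it. -/
theorem v06_stay {Y : Type*} [MeasurableSpace Y] {S : Y → Y} {ν : Measure Y}
    [IsProbabilityMeasure ν] (hν : MeasurePreserving S ν ν) {R : Set Y} (hR : MeasurableSet R)
    (h : ν (S ⁻¹' R \ R) = 0) : ∀ᵐ β ∂ν, β ∈ R → ∀ j : ℕ, S^[j] β ∈ R := by
  have hpre : ν (S ⁻¹' R) = ν R := hν.measure_preimage hR.nullMeasurableSet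
  have hSR : MeasurableSet (S ⁻¹' R) := hν.measurable hR
  have h1 : ν (R ∩ S ⁻¹' R) = ν R := by
    have h2 : ν (S ⁻¹' R) = ν (S ⁻¹' R ∩ R) + ν (S ⁻¹' R \ R) :=
      (measure_inter_add_diff (S ⁻¹' R) hR).symm
    rw [h, add_zero, hpre] at h2
    rw [Set.inter_comm]
    exact h2.symm
  have h3 : ν (R \ S ⁻¹' R) = 0 := by
    have h4 : ν R = ν (R ∩ S ⁻¹' R) + ν (R \ S ⁻¹' R) :=
      (measure_inter_add_diff R hSR).symm
    rw [h1] at h4
    have h5 : ν R + 0 = ν R + ν (R \ S ⁻¹' R) := by rw [add_zero]; exact h4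
    exact (ENNReal.add_right_inj (measure_ne_top ν R)).1 h5.symm
  have h6 : ∀ j : ℕ, ∀ᵐ β ∂ν, S^[j] β ∉ R \ S ⁻¹' R := by
    intro j
    have h7 : ∀ᵐ β ∂ν, β ∉ R \ S ⁻¹' R := measure_eq_zero_iff_ae_notMem.1 h3
    exact (hν.iterate j).quasiMeasurePreserving.ae h7
  filter_upwards [ae_all_iff.2 h6] with β hβ hβR j
  induction j with
  | zero => exact hβR
  | succ j ih =>
    by_contra hc
    refine hβ j ⟨ih, ?_⟩
    intro hm
    apply hc
    rw [Function.iterate_succ_apply']
    exact hm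

/-- Such a set is null if its points visit a set whose trace on it is null. -/
theorem v06_null {Y : Type*} [MeasurableSpace Y] {S : Y → Y} {ν : Measure Y}
    [IsProbabilityMeasure ν] (hν : MeasurePreserving S ν ν) {R A : Set Y} (hR : MeasurableSet R)
    (h : ν (S ⁻¹' R \ R) = 0) (hA : ν (A ∩ R) = 0) (hv : ∀ β ∈ R, ∃ j : ℕ, S^[j] β ∈ A) :
    ν R = 0 := by
  have h1 := v06_stay hν hR h
  have h2 : ∀ j : ℕ, ∀ᵐ β ∂ν, S^[j] β ∉ A ∩ R := by
    intro j
    have h7 : ∀ᵐ β ∂ν, β ∉ A ∩ R := measure_eq_zero_iff_ae_notMem.1 hA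
    exact (hν.iterate j).quasiMeasurePreserving.ae h7
  rw [measure_eq_zero_iff_ae_notMem]
  filter_upwards [h1, ae_all_iff.2 h2] with β hβ1 hβ2 hβR
  obtain ⟨j, hj⟩ := hv β hβR
  exact hβ2 j ⟨hj, hβ1 hβR j⟩

theorem invariant_part {X Y : Type*} [MeasurableSpace X] [MeasurableSpace Y] (S : Y → Y)
    (hS : Measurable S) (f : X → X) (hf : Measurable f) (m : Measure X) [IsProbabilityMeasure m]
    (hm : Ergodic f m) (ν : Measure Y) [IsProbabilityMeasure ν] (hν : MeasurePreserving S ν ν)
    (κ : Measure Y) (hκν : κ ≤ ν) (hκ0 : 0 < κ Set.univ) (C : Set Y) (hC : MeasurableSet C)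
    (hSC : ∀ β ∈ C, S β ∈ C) (hκC : κ Cᶜ = 0) (π : Y → X) (hπ : Measurable π)
    (hsemi : ∀ β ∈ C, π (S β) = f (π β))
    (hac : ∀ F : Set X, MeasurableSet F → m F = 0 → κ (π ⁻¹' F) = 0) :
    ∃ ν' : Measure Y, IsProbabilityMeasure ν' ∧ MeasurePreserving S ν' ν' ∧ ν' Cᶜ = 0 ∧
      ν'.map π = m := by
  classical
  have hκfin : IsFiniteMeasure κ :=
    ⟨lt_of_le_of_lt (hκν Set.univ) (measure_lt_top ν Set.univ)⟩
  have hκac : κ ≪ ν := Measure.absolutelyContinuous_of_le hκν
  obtain ⟨h, hhm, hκ⟩ : ∃ h : Y → ENNReal, Measurable h ∧ κ = ν.withDensity h :=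
    ⟨κ.rnDeriv ν, Measure.measurable_rnDeriv κ ν, (Measure.withDensity_rnDeriv_eq κ ν hκac).symm⟩
  let D : Set Y := {β | h β ≠ 0}
  have hD : MeasurableSet D := (hhm (measurableSet_singleton 0)).compl
  let A : Set Y := D ∩ C
  have hA : MeasurableSet A := hD.inter hC
  have hAC : A ⊆ C := Set.inter_subset_right
  have hzero : ∀ Z : Set Y, κ Z = 0 → ν (D ∩ Z) = 0 := by
    intro Z hZ
    rw [hκ, withDensity_apply_eq_zero hhm] at hZ
    exact hZ
  have hνA : 0 < ν A := by
    rw [pos_iff_ne_zero]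
    intro h0
    have h1 : κ A = 0 := hκac h0
    have h2 : κ (C \ D) = 0 := by
      rw [hκ, withDensity_apply_eq_zero hhm]
      have : {x | h x ≠ 0} ∩ (C \ D) = ∅ := by
        ext x
        simp only [Set.mem_inter_iff, Set.mem_setOf_eq, Set.mem_diff, Set.mem_empty_iff_false,
          iff_false, not_and, not_not]
        intro hx _
        exact hx
      rw [this]
      exact measure_empty
    have h3 : κ Set.univ ≤ κ A + κ (C \ D) + κ Cᶜ := by
      refine le_trans (measure_mono ?_) (le_trans (measure_union_le _ _)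
        (add_le_add_left (measure_union_le _ _) _))
      intro x _
      by_cases hxC : x ∈ C
      · by_cases hxD : x ∈ D
        · exact Or.inl (Or.inl ⟨hxD, hxC⟩)
        · exact Or.inl (Or.inr ⟨hxC, hxD⟩)
      · exact Or.inr hxC
    rw [h1, h2, hκC] at h3
    simp only [add_zero] at h3
    exact absurd hκ0 (not_lt.2 h3)
  let I : Set Y := {β | ∀ n : ℕ, ∃ j : ℕ, n ≤ j ∧ S^[j] β ∈ A}
  have hI : MeasurableSet I := by
    have : I = ⋂ n : ℕ, ⋃ j : ℕ, {β | n ≤ j ∧ S^[j] β ∈ A} := by
      ext β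
      simp [I]
    rw [this]
    refine MeasurableSet.iInter fun n => MeasurableSet.iUnion fun j => ?_
    by_cases hnj : n ≤ j
    · have : {β | n ≤ j ∧ S^[j] β ∈ A} = S^[j] ⁻¹' A := by
        ext β
        simp [hnj]
      rw [this]
      exact (hS.iterate j) hA
    · have : {β | n ≤ j ∧ S^[j] β ∈ A} = (∅ : Set Y) := by
        ext β
        simp [hnj]
      rw [this]
      exact MeasurableSet.empty
  have hSI : S ⁻¹' I = I := by
    ext β
    simp only [I, Set.mem_preimage, Set.mem_setOf_eq]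
    constructor
    · intro hβ n
      obtain ⟨j, hj, hjA⟩ := hβ n
      exact ⟨j + 1, by omega, by rw [Function.iterate_succ_apply]; exact hjA⟩
    · intro hβ n
      obtain ⟨j, hj, hjA⟩ := hβ (n + 1)
      refine ⟨j - 1, by omega, ?_⟩
      rw [← Function.iterate_succ_apply]
      have : (j - 1).succ = j := by omega
      rw [this]
      exact hjA
  have hAI : ν (A \ I) = 0 := by
    have h1 := hν.conservative.ae_mem_imp_frequently_image_mem hA.nullMeasurableSet
    rw [measure_eq_zero_iff_ae_notMem]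
    filter_upwards [h1] with β hβ hmem
    apply hmem.2
    intro n
    obtain ⟨j, hj, hjA⟩ := (frequently_atTop.1 (hβ hmem.1)) n
    exact ⟨j, hj, hjA⟩
  have hνI : ν I ≠ 0 := by
    intro h0
    have : ν A ≤ ν (A \ I) + ν I := by
      refine le_trans (measure_mono ?_) (measure_union_le _ _)
      intro x hx
      by_cases hxI : x ∈ I
      · exact Or.inr hxI
      · exact Or.inl ⟨hx, hxI⟩
    rw [hAI, h0, add_zero] at this
    exact absurd hνA (not_lt.2 this)
  have hvis : ∀ β ∈ I, ∃ j : ℕ, S^[j] β ∈ A := fun β hβ => by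
    obtain ⟨j, -, hj⟩ := hβ 0
    exact ⟨j, hj⟩
  -- (a)
  have hIC : ν (I \ C) = 0 := by
    refine v06_null hν (A := A) (hI.diff hC) ?_ ?_ (fun β hβ => hvis β hβ.1)
    · have : S ⁻¹' (I \ C) \ (I \ C) = ∅ := by
        ext β
        simp only [Set.mem_diff, Set.mem_preimage, Set.mem_empty_iff_false, iff_false, not_and,
          not_not]
        intro hβ hc
        refine absurd (hc ?_) (fun hβC => hβ.2 (hSC β hβC))
        rw [← hSI]
        exact hβ.1
      rw [this]
      exact measure_empty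
    · have : A ∩ (I \ C) = ∅ := by
        ext β
        simp only [Set.mem_inter_iff, Set.mem_diff, Set.mem_empty_iff_false, iff_false]
        rintro ⟨h1, -, h2⟩
        exact h2 (hAC h1)
      rw [this]
      exact measure_empty
  -- (b)
  have hIF : ∀ F : Set X, MeasurableSet F → m F = 0 → ν (I ∩ π ⁻¹' F) = 0 := by
    intro F hF hmF
    let F' : Set X := ⋃ n : ℕ, f^[n] ⁻¹' F
    have hF' : MeasurableSet F' := MeasurableSet.iUnion fun n => (hf.iterate n) hF
    have hmF' : m F' = 0 := by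
      refine measure_iUnion_null fun n => ?_
      rw [(hm.toMeasurePreserving.iterate n).measure_preimage hF.nullMeasurableSet]
      exact hmF
    have hFF : F ⊆ F' := fun x hx => Set.mem_iUnion.2 ⟨0, hx⟩
    have hfF : ∀ x, f x ∈ F' → x ∈ F' := by
      intro x hx
      obtain ⟨n, hn⟩ := Set.mem_iUnion.1 hx
      refine Set.mem_iUnion.2 ⟨n + 1, ?_⟩
      simp only [Set.mem_preimage] at hn ⊢
      rw [Function.iterate_succ_apply]
      exact hn
    have hT : ν (I ∩ (C ∩ π ⁻¹' F')) = 0 := by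
      have hTm : MeasurableSet (I ∩ (C ∩ π ⁻¹' F')) := hI.inter (hC.inter (hπ hF'))
      refine v06_null hν (A := A) hTm ?_ ?_ (fun β hβ => hvis β hβ.1)
      · refine measure_mono_null ?_ hIC
        rintro β ⟨hβ1, hβ2⟩
        have hβI : β ∈ I := by
          rw [← hSI]
          exact hβ1.1
        refine ⟨hβI, fun hβC => hβ2 ⟨hβI, hβC, ?_⟩⟩
        apply hfF
        rw [← hsemi β hβC]
        exact hβ1.2.2
      · refine measure_mono_null ?_ (hzero _ (hac F' hF' hmF'))
        rintro β ⟨hβ1, hβ2⟩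
        exact ⟨hβ1.1, hβ2.2.2⟩
    refine measure_mono_null ?_ (measure_union_null hT hIC)
    rintro β ⟨hβ1, hβ2⟩
    by_cases hβC : β ∈ C
    · exact Or.inl ⟨hβ1, hβC, hFF hβ2⟩
    · exact Or.inr ⟨hβ1, hβC⟩
  let ν' : Measure Y := (ν I)⁻¹ • ν.restrict I
  have hν'prob : IsProbabilityMeasure ν' := by
    refine ⟨?_⟩
    simp only [ν', Measure.smul_apply, Measure.restrict_apply MeasurableSet.univ, Set.univ_inter,
      smul_eq_mul]
    exact ENNReal.inv_mul_cancel hνI (measure_ne_top ν I)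
  have hν'S : MeasurePreserving S ν' ν' := by
    have h1 : MeasurePreserving S (ν.restrict (S ⁻¹' I)) (ν.restrict I) := hν.restrict_preimage hI
    rw [hSI] at h1
    exact h1.smul_measure (ν I)⁻¹
  have hν'0 : ∀ Z : Set Y, MeasurableSet Z → ν (I ∩ Z) = 0 → ν' Z = 0 := by
    intro Z hZ h0
    simp only [ν', Measure.smul_apply, Measure.restrict_apply hZ, smul_eq_mul]
    rw [Set.inter_comm, h0, mul_zero]
  have hν'C : ν' Cᶜ = 0 := hν'0 _ hC.compl hIC
  refine ⟨ν', hν'prob, hν'S, hν'C, ?_⟩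
  have hmapprob : IsProbabilityMeasure (ν'.map π) :=
    Measure.isProbabilityMeasure_map hπ.aemeasurable
  have hmapS : MeasurePreserving f (ν'.map π) (ν'.map π) := by
    refine ⟨hf, ?_⟩
    rw [Measure.map_map hf hπ]
    have hae : f ∘ π =ᵐ[ν'] π ∘ S := by
      have : ∀ᵐ β ∂ν', β ∈ C := hν'C
      filter_upwards [this] with β hβ
      exact (hsemi β hβ).symm
    rw [Measure.map_congr hae, ← Measure.map_map hπ hS, hν'S.map_eq]
  have hmapac : ν'.map π ≪ m := by
    refine Measure.AbsolutelyContinuous.mk fun F hF hmF => ?_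
    rw [Measure.map_apply hπ hF]
    exact hν'0 _ (hπ hF) (hIF F hF hmF)
  exact hm.eq_of_absolutelyContinuous hmapS hmapac

end Pool.Agent.Lib.MP_e4ee3e_an
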