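import Pool.Agent.Lib.MP_e4ee3e_an.V01

/-!
V07. Absolute continuity of the image of κ. Let F be m-null, O an open set containing F with
m O <= ε (outer regularity). good ∩ cod^-1 O is relatively open in the closed set good
(continuity of cod on good), = W ∩ good with W open. For each j:
(m.map s)(shift^-j (W ∩ good)) = m{x : shift^j (s x) in good, cod(shift^j (s x)) in O}
<= m{x : f^j x in O} = m O, as cod (shift^j (s x)) = f^j x for a.e. x (cod_shift iterated). So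
κ W <= ε and κ(π^-1 F) <= κ W + κ goodᶜ.
-/

open MeasureTheory Filter Topology

namespace Pool.Agent.Lib.MP_e4ee3e_an

attribute [local instance] chMetric

lemma v07_iter {X : Type*} [MetricSpace X] [CompactSpace X] {f : X → X} {L : ℝ} {d : ℕ}
    (T : AbsTree X f L d) (hL : 0 ≤ L) (hf : Continuous f) {χ : ℝ} (hχ : 0 < χ) (j : ℕ)
    (β : ℕ → Fin d) (hβ : β ∈ ⋃ A : ℕ, T.codes χ (A : ℝ)) :
    shift^[j] β ∈ ⋃ A : ℕ, T.codes χ (A : ℝ) ∧ T.cod (shift^[j] β) = f^[j] (T.cod β) := by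
  induction j with
  | zero => exact ⟨hβ, rfl⟩
  | succ j ih =>
    rw [Function.iterate_succ_apply', Function.iterate_succ_apply']
    exact ⟨T.codesAll_shift hL _ ih.1, by rw [T.cod_shift hf hL hχ ih.1, ih.2]⟩

lemma v07_shift_measurable {d : ℕ} : Measurable (shift : (ℕ → Fin d) → ℕ → Fin d) :=
  measurable_pi_lambda _ fun k => measurable_pi_apply (k + 1)

theorem AbsTree.kappa_ac {X : Type*} [MetricSpace X] [CompactSpace X] [MeasurableSpace X]
    [BorelSpace X] {f : X → X} {L : ℝ} {d : ℕ} (T : AbsTree X f L d) (hL : 0 ≤ L)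
    (hf : Continuous f) (m : Measure X) [IsProbabilityMeasure m] (hm : MeasurePreserving f m m)
    {χ δ : ℝ} (hδ : 0 < δ) (hδχ : δ < χ) (k₀ : ℕ) (s : X → ℕ → Fin d) (hs : Measurable s)
    (hcode : ∀ᵐ x ∂m, (s x ∈ ⋃ A : ℕ, T.codes χ (A : ℝ)) ∧
      Tendsto (fun n => T.z n (s x)) atTop (𝓝 x))
    (κ : Measure (ℕ → Fin d)) (hκG : κ (T.good δ k₀)ᶜ = 0)
    (hκW : ∀ W : Set (ℕ → Fin d), IsOpen W → ∀ B : ENNReal,
      (∀ j : ℕ, (m.map s) (shift^[j] ⁻¹' (W ∩ T.good δ k₀)) ≤ B) → κ W ≤ B)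
    (π : (ℕ → Fin d) → X) (hπ : Measurable π)
    (hπc : ∀ β ∈ ⋃ A : ℕ, T.codes δ (A : ℝ), π β = T.cod β) :
    ∀ F : Set X, MeasurableSet F → m F = 0 → κ (π ⁻¹' F) = 0 := by
  intro F hF hmF
  have hχ : 0 < χ := hδ.trans hδχ
  rw [← nonpos_iff_eq_zero]
  apply ENNReal.le_of_forall_pos_le_add
  intro ε hε _
  rw [zero_add]
  obtain ⟨O, hFO, hO, hmO⟩ := F.exists_isOpen_le_add m
    (show (ε : ENNReal) ≠ 0 from by exact_mod_cast hε.ne')
  rw [hmF, zero_add] at hmO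
  obtain ⟨W, hW, hWe⟩ := continuousOn_iff'.1 (T.cod_continuousOn hδ k₀) O hO
  have hGm : MeasurableSet (T.good δ k₀) := (T.isClosed_good δ k₀).measurableSet
  have hκ : κ W ≤ ε := by
    refine (hκW W hW (m O) fun j => ?_).trans hmO
    have hmeas : MeasurableSet (shift^[j] ⁻¹' (W ∩ T.good δ k₀)) :=
      (v07_shift_measurable.iterate j) (hW.measurableSet.inter hGm)
    rw [Measure.map_apply hs hmeas]
    have h1 : m (f^[j] ⁻¹' O) = m O :=
      (hm.iterate j).measure_preimage hO.measurableSet.nullMeasurableSet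
    rw [← h1]
    apply measure_mono_ae
    filter_upwards [hcode] with x hx hxW
    have h2 := v07_iter T hL hf hχ j (s x) hx.1
    have h3 : T.cod (s x) = x := tendsto_nhds_unique (T.cod_tendsto hχ hx.1) hx.2
    have h4 : shift^[j] (s x) ∈ T.cod ⁻¹' O ∩ T.good δ k₀ := by
      rw [hWe]
      exact hxW
    have h5 : T.cod (shift^[j] (s x)) ∈ O := h4.1
    rw [h2.2, h3] at h5
    exact h5
  obtain ⟨A, hA⟩ := T.good_subset_codes hδ k₀
  have hsub : π ⁻¹' F ⊆ W ∪ (T.good δ k₀)ᶜ := by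
    intro β hβ
    by_cases hg : β ∈ T.good δ k₀
    · left
      have h1 : π β = T.cod β := hπc β (Set.mem_iUnion.2 ⟨A, hA hg⟩)
      have h2 : β ∈ T.cod ⁻¹' O ∩ T.good δ k₀ := by
        refine ⟨hFO ?_, hg⟩
        rw [← h1]
        exact hβ
      rw [hWe] at h2
      exact h2.1
    · right
      exact hg
  calc κ (π ⁻¹' F) ≤ κ (W ∪ (T.good δ k₀)ᶜ) := measure_mono hsub
    _ ≤ κ W + κ (T.good δ k₀)ᶜ := measure_union_le _ _
    _ ≤ ε := by rw [hκG, add_zero]; exact hκ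

end Pool.Agent.Lib.MP_e4ee3e_an
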