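import Pool.Agent.Lib.MP_e4ee3e_an.V04
import Pool.Agent.Lib.MP_e4ee3e_an.V05
import Pool.Agent.Lib.MP_e4ee3e_an.V06
import Pool.Agent.Lib.MP_e4ee3e_an.V07
import Pool.Agent.Lib.MP_e4ee3e_an.D04b

/-!
V08. Assembly: a shift-invariant measure on sequences projecting to m.
-/

open MeasureTheory Filter Topology

namespace Pool.Agent.Lib.MP_e4ee3e_an

attribute [local instance] chMetric

lemma v08_shift_continuous {d : ℕ} : Continuous (shift : (ℕ → Fin d) → (ℕ → Fin d)) := by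
  unfold shift
  fun_prop

theorem AbsTree.exists_invariant {X : Type} [MetricSpace X] [CompactSpace X] [MeasurableSpace X]
    [BorelSpace X] {f : X → X} {L : ℝ} {d : ℕ} (T : AbsTree X f L d) (hd : 0 < d) (hL : 2 ≤ L)
    (hf : ∀ x y, dist (f x) (f y) ≤ L * dist x y) (m : Measure X) [IsProbabilityMeasure m]
    (hm : Ergodic f m) (K : ℕ) (ξ : X → Fin K) (hξ : Measurable ξ) (θ : ℝ)
    (hθ : 0 < θ) (hent : ∃ᶠ n : ℕ in atTop, 3 * θ * n < blockEntropy f m ξ n) (χ : ℝ) (hχ : 0 < χ)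
    (hfull : m (T.ptsAll χ)ᶜ = 0) :
    ∃ μ : Measure (ℕ → Fin d), IsProbabilityMeasure μ ∧ MeasurePreserving shift μ μ ∧
      (∀ᵐ β ∂μ, ∃ x, Tendsto (fun n => T.z n β) atTop (𝓝 x)) ∧
      ∀ g : (ℕ → Fin d) → X, (∀ β x, Tendsto (fun n => T.z n β) atTop (𝓝 x) → g β = x) →
        μ.map g = m := by
  have hL0 : 0 ≤ L := by linarith
  have hcont : Continuous f := by
    have : LipschitzWith (Real.toNNReal L) f := by
      refine LipschitzWith.of_dist_le_mul fun x y => ?_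
      rw [Real.coe_toNNReal _ hL0]
      exact hf x y
    exact this.continuous
  obtain ⟨s, hs, hcode⟩ := T.exists_good_code_ae hd hχ m hfull
  obtain ⟨δ, k₀, c, hδ, hδχ, hc, hfreq⟩ :=
    T.tight hL hf m hm.toMeasurePreserving K ξ hξ θ hθ hent χ hχ s hs hcode
  have hgood : IsClosed (T.good δ k₀) := T.isClosed_good δ k₀
  have hprob : IsProbabilityMeasure (m.map s) := Measure.isProbabilityMeasure_map hs.aemeasurable
  have hshc : ∀ j : ℕ, Continuous (shift^[j] : (ℕ → Fin d) → (ℕ → Fin d)) :=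
    fun j => v08_shift_continuous.iterate j
  have hfreq' : ∃ᶠ n : ℕ in atTop, ENNReal.ofReal (c * n) ≤
      ∑ j ∈ Finset.range n, (m.map s) (shift^[j] ⁻¹' (T.good δ k₀)) := by
    refine hfreq.mono fun n hn => hn.trans (le_of_eq ?_)
    refine Finset.sum_congr rfl fun j _ => ?_
    rw [Measure.map_apply hs ((hshc j).measurable hgood.measurableSet)]
    rfl
  obtain ⟨ν, κ, hν1, hν2, hκν, hκG, hκ0, hκW⟩ :=
    limit_measures shift v08_shift_continuous (m.map s) (T.good δ k₀) hgood c hc hfreq'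
  obtain ⟨π, hπ, hπc⟩ := T.exists_measurable_cod hδ
  have hac := T.kappa_ac hL0 hcont m hm.toMeasurePreserving hδ hδχ k₀ s hs hcode κ hκG hκW π hπ hπc
  have hCmeas := T.measurableSet_codesAll δ
  have hsub : T.good δ k₀ ⊆ ⋃ A : ℕ, T.codes δ (A : ℝ) := by
    obtain ⟨A, hA⟩ := T.good_subset_codes hδ k₀
    exact hA.trans (Set.subset_iUnion (fun A : ℕ => T.codes δ (A : ℝ)) A)
  have hκC : κ (⋃ A : ℕ, T.codes δ (A : ℝ))ᶜ = 0 :=
    measure_mono_null (Set.compl_subset_compl.2 hsub) hκG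
  have hSC : ∀ β ∈ ⋃ A : ℕ, T.codes δ (A : ℝ), shift β ∈ ⋃ A : ℕ, T.codes δ (A : ℝ) :=
    fun β hβ => T.codesAll_shift hL0 β hβ
  obtain ⟨μ, hμ1, hμ2, hμC, hμm⟩ := invariant_part shift v08_shift_continuous.measurable f
    hcont.measurable m hm ν hν2 κ hκν hκ0 (⋃ A : ℕ, T.codes δ (A : ℝ)) hCmeas hSC hκC π hπ
    (fun β hβ => by
      rw [hπc _ (hSC β hβ), hπc _ hβ]
      exact T.cod_shift hcont hL0 hδ hβ) hac
  have hae : ∀ᵐ β ∂μ, β ∈ ⋃ A : ℕ, T.codes δ (A : ℝ) := hμC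
  refine ⟨μ, hμ1, hμ2, ?_, ?_⟩
  · filter_upwards [hae] with β hβ
    exact ⟨_, T.cod_tendsto hδ hβ⟩
  · intro g hg
    have : g =ᵐ[μ] π := by
      filter_upwards [hae] with β hβ
      rw [hπc _ hβ]
      exact hg β _ (T.cod_tendsto hδ hβ)
    rw [Measure.map_congr this, hμm]

end Pool.Agent.Lib.MP_e4ee3e_an
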