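import Pool.Agent.Lib.MP_e4ee3e_an.X02

/-!
X04. If ν projects to the ergodic measure m, so does a.e. conditional measure. For a measurable set B
of ω with ν B > 0 in the sigma-algebra of invariant sets (it suffices), the measure
F -> (1/ν B) integral over B of κ_ω(π^-1 F) = ν(B ∩ π^-1 F)/ν B is the image of ν conditioned on the
invariant set B, so it is f-invariant (B is S-invariant, π o S = f o π a.e.) and absolutely continuous
w.r.t. m, hence equal to m (Ergodic.eq_of_absolutelyContinuous). So the
condExp of the indicator of π^-1 F is the constant m F, for F in a countable generating pi-system;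
then ext.
-/

open MeasureTheory Filter Topology

namespace Pool.Agent.Lib.MP_e4ee3e_an

attribute [local instance] chMetric

theorem map_restrict_eq_smul {X Y : Type*} [MeasurableSpace X]
    [MeasurableSpace Y] {S : Y → Y} {f : X → X} (hf : Measurable f)
    {m : Measure X} [IsProbabilityMeasure m] (hm : Ergodic f m) {ν : Measure Y}
    [IsProbabilityMeasure ν] (hν : MeasurePreserving S ν ν) {π : Y → X} (hπ : Measurable π)
    (hsemi : ∀ᵐ β ∂ν, π (S β) = f (π β)) (hmap : ν.map π = m) {B : Set Y} (hB : MeasurableSet B)
    (hSB : S ⁻¹' B = B) : (ν.restrict B).map π = ν B • m := by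
  have h1 : MeasurePreserving S (ν.restrict B) (ν.restrict B) := by
    have := hν.restrict_preimage hB
    rwa [hSB] at this
  have h2 : MeasurePreserving f ((ν.restrict B).map π) ((ν.restrict B).map π) := by
    refine ⟨hf, ?_⟩
    rw [Measure.map_map hf hπ]
    have h3 : (ν.restrict B).map (f ∘ π) = (ν.restrict B).map (π ∘ S) := by
      apply Measure.map_congr
      have := ae_restrict_of_ae (s := B) hsemi
      filter_upwards [this] with β hβ
      simp [hβ]
    rw [h3, ← Measure.map_map hπ h1.measurable, h1.map_eq]
  have h4 : (ν.restrict B).map π ≪ m := by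
    rw [← hmap]
    exact (Measure.map_mono Measure.restrict_le_self hπ).absolutelyContinuous
  obtain ⟨c, hc⟩ := hm.eq_smul_of_absolutelyContinuous h2 h4
  have h5 : c = ν B := by
    have := congrArg (fun μ : Measure X => μ Set.univ) hc
    simp only [Measure.smul_apply, measure_univ, smul_eq_mul, mul_one] at this
    rw [Measure.map_apply hπ MeasurableSet.univ] at this
    simpa using this.symm
  rw [hc, h5]

theorem countable_genPi {X : Type*} {b : Set (Set X)} (hb : b.Countable) :
    (generatePiSystem b).Countable := by
  have : Countable b := hb.to_subtype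
  have h1 : (Set.range (fun t : Finset b => ⋂ s ∈ t, (s : Set X))).Countable :=
    Set.countable_range _
  refine h1.mono ?_
  intro F hF
  induction hF with
  | base h => exact ⟨{⟨_, h⟩}, by simp⟩
  | @inter s t hs ht _ ihs iht =>
    classical
    obtain ⟨u, hu⟩ := ihs
    obtain ⟨v, hv⟩ := iht
    refine ⟨u ∪ v, ?_⟩
    simp only at hu hv ⊢
    rw [← hu, ← hv]
    ext x
    simp only [Set.mem_iInter, Finset.mem_union, Set.mem_inter_iff]
    constructor
    · intro h
      exact ⟨fun i hi => h i (Or.inl hi), fun i hi => h i (Or.inr hi)⟩
    · rintro ⟨h1, h2⟩ i (hi | hi)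
      · exact h1 i hi
      · exact h2 i hi

open ProbabilityTheory in
theorem condKernel_map {X Y : Type*} [MeasurableSpace X] [MeasurableSpace.CountablyGenerated X]
    [MeasurableSpace Y] [StandardBorelSpace Y] {S : Y → Y} {f : X → X} (hf : Measurable f)
    {m : Measure X} [IsProbabilityMeasure m] (hm : Ergodic f m) {ν : Measure Y}
    [IsProbabilityMeasure ν] (hν : MeasurePreserving S ν ν) {π : Y → X} (hπ : Measurable π)
    (hsemi : ∀ᵐ β ∂ν, π (S β) = f (π β)) (hmap : ν.map π = m) :
    ∀ᵐ ω ∂ν, (condExpKernel ν (MeasurableSpace.invariants S) ω).map π = m := by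
  have hle : MeasurableSpace.invariants S ≤ (inferInstance : MeasurableSpace Y) :=
    MeasurableSpace.invariants_le S
  have key : ∀ F : Set X, MeasurableSet F →
      ∀ᵐ ω ∂ν, (condExpKernel ν (MeasurableSpace.invariants S) ω).real (π ⁻¹' F) = m.real F := by
    intro F hF
    have h1 := condExpKernel_ae_eq_condExp (μ := ν) hle (hπ hF)
    have h2 : (fun _ : Y => m.real F) =ᵐ[ν]
        ν[(π ⁻¹' F).indicator (fun _ => (1 : ℝ)) | MeasurableSpace.invariants S] := by
      apply ae_eq_condExp_of_forall_setIntegral_eq hle
      · exact (integrable_const (1 : ℝ)).indicator (hπ hF)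
      · intro s _ _
        exact (integrable_const _)
      · intro s hs _
        have hs' := MeasurableSpace.measurableSet_invariants.1 hs
        rw [setIntegral_const, integral_indicator (hπ hF), Measure.restrict_restrict (hπ hF)]
        rw [setIntegral_const]
        have h6 := map_restrict_eq_smul hf hm hν hπ hsemi hmap hs'.1 hs'.2
        have h7 := congrArg (fun μ : Measure X => μ.real F) h6
        rw [map_measureReal_apply hπ hF, measureReal_restrict_apply (hπ hF)] at h7
        simp only [smul_eq_mul, mul_one]
        rw [h7]
        simp [Measure.real]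
      · exact stronglyMeasurable_const.aestronglyMeasurable
    filter_upwards [h1, h2] with ω ha hb
    rw [ha, ← hb]
  have hne : Nonempty Y := by
    by_contra hY
    rw [not_nonempty_iff] at hY
    have h1 : ν Set.univ = 0 := by rw [Set.eq_empty_of_isEmpty Set.univ]; exact measure_empty
    rw [measure_univ] at h1
    exact one_ne_zero h1
  have hpc : (generatePiSystem (MeasurableSpace.countableGeneratingSet X)).Countable :=
    countable_genPi (MeasurableSpace.countable_countableGeneratingSet)
  have hpm : ∀ F ∈ generatePiSystem (MeasurableSpace.countableGeneratingSet X),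
      MeasurableSet F := by
    intro F hF
    exact generatePiSystem_measurableSet
      (fun s hs => MeasurableSpace.measurableSet_countableGeneratingSet hs) F hF
  have hall : ∀ᵐ ω ∂ν, ∀ F ∈ generatePiSystem (MeasurableSpace.countableGeneratingSet X),
      (condExpKernel ν (MeasurableSpace.invariants S) ω).real (π ⁻¹' F) = m.real F := by
    rw [ae_ball_iff hpc]
    intro F hF
    exact key F (hpm F hF)
  filter_upwards [hall] with ω hω
  have hP : IsProbabilityMeasure ((condExpKernel ν (MeasurableSpace.invariants S) ω).map π) :=
    Measure.isProbabilityMeasure_map hπ.aemeasurable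
  refine ext_of_generate_finite
    (generatePiSystem (MeasurableSpace.countableGeneratingSet X)) ?_ (isPiSystem_generatePiSystem _)
    ?_ ?_
  · rw [generateFrom_generatePiSystem_eq, MeasurableSpace.generateFrom_countableGeneratingSet]
  · intro F hF
    rw [Measure.map_apply hπ (hpm F hF)]
    exact (measureReal_eq_measureReal_iff).1 (hω F hF)
  · simp
end Pool.Agent.Lib.MP_e4ee3e_an
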