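import Pool.Agent.Lib.MP_e4ee3e_an.X03
import Pool.Agent.Lib.MP_e4ee3e_an.X04

/-!
X05. Ergodic lifts: choose one ω good for X03, X04 and with κ_ω Cᶜ = 0.
-/

open MeasureTheory Filter Topology

namespace Pool.Agent.Lib.MP_e4ee3e_an

attribute [local instance] chMetric

theorem ergodic_lift {X Y : Type*} [MeasurableSpace X] [MeasurableSpace.CountablyGenerated X]
    [MeasurableSpace Y] [StandardBorelSpace Y] (S : Y → Y) (f : X → X) (hf : Measurable f)
    (m : Measure X) [IsProbabilityMeasure m] (hm : Ergodic f m) (ν : Measure Y)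
    [IsProbabilityMeasure ν] (hν : MeasurePreserving S ν ν) (C : Set Y) (hC : ν Cᶜ = 0)
    (π : Y → X) (hπ : Measurable π) (hsemi : ∀ᵐ β ∂ν, π (S β) = f (π β)) (hmap : ν.map π = m) :
    ∃ ν' : Measure Y, IsProbabilityMeasure ν' ∧ Ergodic S ν' ∧ ν' Cᶜ = 0 ∧ ν'.map π = m := by
  have h1 := condKernel_ergodic hν
  have h2 := condKernel_map hf hm hν hπ hsemi hmap
  have h3 := condKernel_null S hC
  have : NeZero ν := ⟨IsProbabilityMeasure.ne_zero ν⟩
  obtain ⟨ω, hω⟩ := (h1.and (h2.and h3)).exists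
  exact ⟨_, inferInstance, hω.1, hω.2.2, hω.2.1⟩

end Pool.Agent.Lib.MP_e4ee3e_an
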