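import Pool.Agent.Lib.MP_e4ee3e_an.V08
import Pool.Agent.Lib.MP_e4ee3e_an.X05

/-!
V09. Ergodic version of V08.
-/

open MeasureTheory Filter Topology

namespace Pool.Agent.Lib.MP_e4ee3e_an

attribute [local instance] chMetric

lemma v09_z_measurable {X : Type*} [MetricSpace X] [MeasurableSpace X] {f : X → X} {L : ℝ} {d : ℕ}
    (T : AbsTree X f L d) (n : ℕ) : Measurable (fun α => T.z n α) := by
  let ext : (Fin (n + 1) → Fin d) → (ℕ → Fin d) :=
    fun w k => if h : k < n + 1 then w ⟨k, h⟩ else w 0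
  let res : (ℕ → Fin d) → (Fin (n + 1) → Fin d) := fun α i => α i
  have hres : Measurable res := measurable_pi_lambda _ fun i => measurable_pi_apply _
  have h1 : (fun α => T.z n α) = (fun w => T.z n (ext w)) ∘ res := by
    funext α
    apply T.z_congr
    intro i hi
    have : i < n + 1 := by omega
    simp only [ext, res, dif_pos this]
  rw [h1]
  exact (measurable_of_countable _).comp hres

theorem AbsTree.exists_ergodic {X : Type} [MetricSpace X] [CompactSpace X] [MeasurableSpace X]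
    [BorelSpace X] {f : X → X} {L : ℝ} {d : ℕ} (T : AbsTree X f L d) (hd : 0 < d) (hL : 2 ≤ L)
    (hf : ∀ x y, dist (f x) (f y) ≤ L * dist x y) (m : Measure X) [IsProbabilityMeasure m]
    (hm : Ergodic f m) (K : ℕ) (ξ : X → Fin K) (hξ : Measurable ξ) (θ : ℝ)
    (hθ : 0 < θ) (hent : ∃ᶠ n : ℕ in atTop, 3 * θ * n < blockEntropy f m ξ n) (χ : ℝ) (hχ : 0 < χ)
    (hfull : m (T.ptsAll χ)ᶜ = 0) :
    ∃ μ : Measure (ℕ → Fin d), IsProbabilityMeasure μ ∧ Ergodic shift μ ∧
      (∀ᵐ β ∂μ, ∃ x, Tendsto (fun n => T.z n β) atTop (𝓝 x)) ∧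
      ∀ g : (ℕ → Fin d) → X, (∀ β x, Tendsto (fun n => T.z n β) atTop (𝓝 x) → g β = x) →
        μ.map g = m := by
  obtain ⟨μ, hμ1, hμ2, hμ3, hμ4⟩ :=
    T.exists_invariant hd hL hf m hm K ξ hξ θ hθ hent χ hχ hfull
  have hcont : Continuous f := by
    have : LipschitzWith (Real.toNNReal L) f := by
      refine LipschitzWith.of_dist_le_mul fun x y => ?_
      rw [Real.coe_toNNReal _ (by linarith)]
      exact hf x y
    exact this.continuous
  -- the limit map
  have hg0 : ∀ β x, Tendsto (fun n => T.z n β) atTop (𝓝 x) → T.cod β = x := by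
    intro β x hx
    exact hx.limUnder_eq
  have htend : ∀ᵐ β ∂μ, Tendsto (fun n => T.z n β) atTop (𝓝 (T.cod β)) := by
    filter_upwards [hμ3] with β hβ
    obtain ⟨x, hx⟩ := hβ
    rw [hg0 β x hx]
    exact hx
  have haem : AEMeasurable T.cod μ :=
    aemeasurable_of_tendsto_metrizable_ae atTop
      (fun n => (v09_z_measurable T n).aemeasurable) htend
  obtain ⟨π, hπ, hπeq⟩ := haem
  have hmapπ : μ.map π = m := by
    rw [← Measure.map_congr hπeq]
    exact hμ4 T.cod hg0
  have hC : ∀ᵐ β ∂μ, Tendsto (fun n => T.z n β) atTop (𝓝 (π β)) := by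
    filter_upwards [htend, hπeq] with β h1 h2
    rw [← h2]
    exact h1
  have hC2 : ∀ᵐ β ∂μ, Tendsto (fun n => T.z n (shift β)) atTop (𝓝 (π (shift β))) :=
    hμ2.quasiMeasurePreserving.tendsto_ae.eventually hC
  have hsemi : ∀ᵐ β ∂μ, π (shift β) = f (π β) := by
    filter_upwards [hC, hC2] with β h1 h2
    have h3 : Tendsto (fun n => T.z n (shift β)) atTop (𝓝 (f (π β))) := by
      have h4 : Tendsto (fun n => f (T.z (n + 1) β)) atTop (𝓝 (f (π β))) :=
        (hcont.tendsto _).comp (h1.comp (tendsto_add_atTop_nat 1))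
      refine h4.congr fun n => ?_
      exact T.map_z_succ n β
    exact tendsto_nhds_unique h2 h3
  obtain ⟨μ', h1, h2, h3, h4⟩ := ergodic_lift shift f hcont.measurable m hm μ hμ2
    {β | Tendsto (fun n => T.z n β) atTop (𝓝 (π β))} hC π hπ hsemi hmapπ
  have h5 : ∀ᵐ β ∂μ', Tendsto (fun n => T.z n β) atTop (𝓝 (π β)) := h3
  refine ⟨μ', h1, h2, ?_, ?_⟩
  · filter_upwards [h5] with β hβ
    exact ⟨_, hβ⟩
  · intro g hg
    have : g =ᵐ[μ'] π := by
      filter_upwards [h5] with β hβ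
      exact hg β _ hβ
    rw [Measure.map_congr this, h4]

end Pool.Agent.Lib.MP_e4ee3e_an
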