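import Pool.Agent.Lib.MP_e4ee3e_an.Setup

/-!
W01. Words that split into letters and long bad words: counting (Kraft type). W(ℓ,b) = lists of
length ℓ with Dec b' for some b' <= b. W(0,b) has one element; W(ℓ,b) is contained in the union of
the a :: W(ℓ-1,b-1) and of the u ++ W(ℓ-l-1,b), u in B of length l+1 >= k₀+1. Induction on ℓ with
bound exp(4 δ ℓ + s b): need d exp(-4δ-s) + sum over l >= k₀ of C exp(3 δ l) exp(-4 δ (l+1)) <= 1:
s with d exp(-s) <= 1/2, k₀ with C * exp(-δ k₀)/(1-exp(-δ)) <= 1/2 (take C >= 0).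
-/

open MeasureTheory Filter Topology

namespace Pool.Agent.Lib.MP_e4ee3e_an

attribute [local instance] chMetric

/-- Lists which are concatenations of single letters (`b` of them) and members of `B` of length
greater than `k₀`. -/
inductive Dec {A : Type*} (B : Set (List A)) (k₀ : ℕ) : ℕ → List A → Prop
  | nil : Dec B k₀ 0 []
  | letter (b : ℕ) (a : A) (w : List A) : Dec B k₀ b w → Dec B k₀ (b + 1) (a :: w)
  | block (b : ℕ) (u w : List A) : u ∈ B → k₀ < u.length → Dec B k₀ b w → Dec B k₀ b (u ++ w)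

/-- the words of length `ℓ` with at most `b` letters outside blocks -/
def w01Set {A : Type*} (B : Set (List A)) (k₀ ℓ b : ℕ) : Set (List A) :=
  {w | w.length = ℓ ∧ ∃ b' ≤ b, Dec B k₀ b' w}

theorem w01_finite {d : ℕ} (B : Set (List (Fin d))) (k₀ ℓ b : ℕ) : (w01Set B k₀ ℓ b).Finite :=
  (List.finite_length_eq (Fin d) ℓ).subset fun _ hw => hw.1

/-- the set of words starting with a letter -/
def w01L {A : Type*} (B : Set (List A)) (k₀ ℓ b : ℕ) : Set (List A) :=
  {w | 1 ≤ b ∧ ∃ a, ∃ w' ∈ w01Set B k₀ ℓ (b - 1), w = a :: w'}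

theorem w01_step {A : Type*} (B : Set (List A)) (k₀ ℓ b : ℕ) :
    w01Set B k₀ (ℓ + 1) b ⊆ w01L B k₀ ℓ b ∪
      ⋃ l ∈ Finset.Ico k₀ (ℓ + 1), (fun p : List A × List A => p.1 ++ p.2) ''
        ({u : List A | u ∈ B ∧ u.length = l + 1} ×ˢ w01Set B k₀ (ℓ - l) b) := by
  rintro w ⟨hl, b', hb', hw⟩
  cases hw with
  | nil => simp at hl
  | letter b a w' h =>
    left
    refine ⟨by omega, a, w', ⟨by simpa using hl, b, by omega, h⟩, rfl⟩
  | block _ u w' hu hk h =>
    right
    rw [List.length_append] at hl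
    rw [Set.mem_iUnion₂]
    refine ⟨u.length - 1, by rw [Finset.mem_Ico]; omega, (u, w'), ⟨⟨hu, by simp only; omega⟩,
      ⟨by simp only; omega, b', hb', h⟩⟩, rfl⟩

theorem w01_letters {d : ℕ} (B : Set (List (Fin d))) (k₀ ℓ b : ℕ) :
    (w01L B k₀ ℓ (b + 1)).ncard ≤ d * (w01Set B k₀ ℓ b).ncard := by
  have h : w01L B k₀ ℓ (b + 1) ⊆ (fun p : Fin d × List (Fin d) => p.1 :: p.2) ''
      ((Set.univ : Set (Fin d)) ×ˢ w01Set B k₀ ℓ b) := by
    rintro w ⟨-, a, w', hw', rfl⟩
    exact ⟨(a, w'), ⟨Set.mem_univ _, by simpa using hw'⟩, rfl⟩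
  have hfin : ((Set.univ : Set (Fin d)) ×ˢ w01Set B k₀ ℓ b).Finite :=
    Set.finite_univ.prod (w01_finite B k₀ ℓ b)
  refine (Set.ncard_le_ncard h (hfin.image _)).trans ?_
  refine (Set.ncard_image_le hfin).trans ?_
  rw [Set.ncard_prod, Set.ncard_univ, Nat.card_eq_fintype_card, Fintype.card_fin]

theorem w01_letters_zero {A : Type*} (B : Set (List A)) (k₀ ℓ : ℕ) :
    w01L B k₀ ℓ 0 = ∅ := by
  ext w
  simp [w01L]

theorem dec_count (d : ℕ) (δ C : ℝ) (hδ : 0 < δ) :
    ∃ (k₀ : ℕ) (s : ℝ), 0 < s ∧ ∀ B : Set (List (Fin d)),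
      (∀ l : ℕ, ({w : List (Fin d) | w ∈ B ∧ w.length = l + 1}.ncard : ℝ) ≤
        C * Real.exp (3 * δ * l)) →
      ∀ ℓ b : ℕ, ({w : List (Fin d) | w.length = ℓ ∧ ∃ b' ≤ b, Dec B k₀ b' w}.ncard : ℝ) ≤
        Real.exp (4 * δ * ℓ + s * b) := by
  set r : ℝ := Real.exp (-δ) with hr
  have hr0 : 0 < r := Real.exp_pos _
  have hr1 : r < 1 := by rw [hr, Real.exp_lt_one_iff]; linarith
  set C' : ℝ := max C 0 with hC'
  have hC0 : 0 ≤ C' := le_max_right _ _
  have hCC : C ≤ C' := le_max_left _ _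
  obtain ⟨k₀, hk₀⟩ := exists_pow_lt_of_lt_one
    (show (0 : ℝ) < (1 - r) / (2 * (C' + 1)) by
      apply div_pos <;> [linarith; positivity]) hr1
  have hgeo : ∀ n : ℕ, C' * ∑ l ∈ Finset.Ico k₀ n, r ^ l ≤ 1 / 2 := by
    intro n
    have h1 := geom_sum_Ico_le_of_lt_one (m := k₀) (n := n) hr0.le hr1
    have h2 : r ^ k₀ / (1 - r) ≤ 1 / (2 * (C' + 1)) := by
      rw [div_le_iff₀ (by linarith)]
      have : 1 / (2 * (C' + 1)) * (1 - r) = (1 - r) / (2 * (C' + 1)) := by ring
      rw [this]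
      exact hk₀.le
    calc C' * ∑ l ∈ Finset.Ico k₀ n, r ^ l ≤ C' * (1 / (2 * (C' + 1))) :=
          mul_le_mul_of_nonneg_left (h1.trans h2) hC0
      _ ≤ 1 / 2 := by
          rw [mul_one_div, div_le_div_iff₀ (by positivity) (by positivity)]
          nlinarith
  refine ⟨k₀, Real.log (2 * d + 2), Real.log_pos (by
    have : (0 : ℝ) ≤ d := Nat.cast_nonneg d
    linarith), ?_⟩
  set s : ℝ := Real.log (2 * d + 2) with hs
  have hes : Real.exp s = 2 * d + 2 := Real.exp_log (by positivity)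
  intro B hB ℓ
  change ∀ b : ℕ, ((w01Set B k₀ ℓ b).ncard : ℝ) ≤ Real.exp (4 * δ * ℓ + s * b)
  induction ℓ using Nat.strong_induction_on with
  | _ ℓ ih =>
    intro b
    rcases ℓ with _ | ℓ
    · have h1 : w01Set B k₀ 0 b ⊆ {[]} := by
        rintro w ⟨hw, -⟩
        simpa using hw
      have h2 := Set.ncard_le_ncard h1 (Set.finite_singleton _)
      rw [Set.ncard_singleton] at h2
      have h3 : ((w01Set B k₀ 0 b).ncard : ℝ) ≤ 1 := by exact_mod_cast h2
      refine h3.trans (Real.one_le_exp ?_)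
      have : 0 ≤ s := Real.log_nonneg (by
        have : (0 : ℝ) ≤ d := Nat.cast_nonneg d
        linarith)
      have hb : (0 : ℝ) ≤ b := Nat.cast_nonneg b
      simp only [Nat.cast_zero, mul_zero, zero_add]
      positivity
    · set F : ℝ := Real.exp (4 * δ * ((ℓ + 1 : ℕ) : ℝ) + s * b) with hF
      have hF0 : 0 < F := Real.exp_pos _
      have hfinU : ∀ l, ({u : List (Fin d) | u ∈ B ∧ u.length = l + 1}).Finite := fun l =>
        (List.finite_length_eq (Fin d) (l + 1)).subset fun _ hw => hw.2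
      have hsub := w01_step B k₀ ℓ b
      have hfin2 : (⋃ l ∈ Finset.Ico k₀ (ℓ + 1), (fun p : List (Fin d) × List (Fin d) =>
          p.1 ++ p.2) '' ({u : List (Fin d) | u ∈ B ∧ u.length = l + 1} ×ˢ
            w01Set B k₀ (ℓ - l) b)).Finite :=
        Set.Finite.biUnion (Finset.finite_toSet _) fun l _ =>
          ((hfinU l).prod (w01_finite B k₀ (ℓ - l) b)).image _
      have hfin1 : (w01L B k₀ ℓ b).Finite := by
        apply (List.finite_length_eq (Fin d) (ℓ + 1)).subset
        rintro w ⟨-, a, w', hw', rfl⟩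
        simpa using hw'.1
      have hcard := (Set.ncard_le_ncard hsub (hfin1.union hfin2)).trans (Set.ncard_union_le _ _)
      -- letters
      have hlet : ((w01L B k₀ ℓ b).ncard : ℝ) ≤ 1 / 2 * F := by
        rcases b with _ | b
        · rw [w01_letters_zero]
          simp only [Set.ncard_empty, Nat.cast_zero]
          positivity
        · have h1 : ((w01L B k₀ ℓ (b + 1)).ncard : ℝ) ≤ d * (w01Set B k₀ ℓ b).ncard := by
            exact_mod_cast w01_letters B k₀ ℓ b
          have h2 := ih ℓ (Nat.lt_succ_self ℓ) b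
          have h3 : F = Real.exp (4 * δ * ℓ + s * b) * Real.exp (4 * δ) * Real.exp s := by
            rw [hF, ← Real.exp_add, ← Real.exp_add]
            congr 1
            push_cast
            ring
          have h4 : 1 ≤ Real.exp (4 * δ) := Real.one_le_exp (by positivity)
          have h5 : 0 < Real.exp (4 * δ * ℓ + s * b) := Real.exp_pos _
          have hd : (0 : ℝ) ≤ d := Nat.cast_nonneg d
          calc ((w01L B k₀ ℓ (b + 1)).ncard : ℝ) ≤ d * Real.exp (4 * δ * ℓ + s * b) :=
                h1.trans (mul_le_mul_of_nonneg_left h2 hd)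
            _ ≤ 1 / 2 * (Real.exp (4 * δ * ℓ + s * b) * Real.exp (4 * δ) * Real.exp s) := by
                rw [hes]
                have : Real.exp (4 * δ * ℓ + s * b) ≤
                    Real.exp (4 * δ * ℓ + s * b) * Real.exp (4 * δ) :=
                  le_mul_of_one_le_right h5.le h4
                nlinarith
            _ = 1 / 2 * F := by rw [h3]
      have hblk : ((⋃ l ∈ Finset.Ico k₀ (ℓ + 1), (fun p : List (Fin d) × List (Fin d) =>
          p.1 ++ p.2) '' ({u : List (Fin d) | u ∈ B ∧ u.length = l + 1} ×ˢ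
            w01Set B k₀ (ℓ - l) b)).ncard : ℝ) ≤ 1 / 2 * F := by
        have h1 : ((⋃ l ∈ Finset.Ico k₀ (ℓ + 1), (fun p : List (Fin d) × List (Fin d) =>
          p.1 ++ p.2) '' ({u : List (Fin d) | u ∈ B ∧ u.length = l + 1} ×ˢ
            w01Set B k₀ (ℓ - l) b)).ncard : ℝ) ≤
            ∑ l ∈ Finset.Ico k₀ (ℓ + 1),
              (({u : List (Fin d) | u ∈ B ∧ u.length = l + 1}.ncard : ℝ) *
                (w01Set B k₀ (ℓ - l) b).ncard) := by
          have h := Finset.set_ncard_biUnion_le (Finset.Ico k₀ (ℓ + 1))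
            (fun l => (fun p : List (Fin d) × List (Fin d) =>
              p.1 ++ p.2) '' ({u : List (Fin d) | u ∈ B ∧ u.length = l + 1} ×ˢ
                w01Set B k₀ (ℓ - l) b))
          have h' : ∑ l ∈ Finset.Ico k₀ (ℓ + 1), ((fun p : List (Fin d) × List (Fin d) =>
              p.1 ++ p.2) '' ({u : List (Fin d) | u ∈ B ∧ u.length = l + 1} ×ˢ
                w01Set B k₀ (ℓ - l) b)).ncard ≤
              ∑ l ∈ Finset.Ico k₀ (ℓ + 1),
              ({u : List (Fin d) | u ∈ B ∧ u.length = l + 1}.ncard *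
                (w01Set B k₀ (ℓ - l) b).ncard) := by
            apply Finset.sum_le_sum
            intro l _
            refine (Set.ncard_image_le ((hfinU l).prod (w01_finite B k₀ (ℓ - l) b))).trans ?_
            rw [Set.ncard_prod]
          exact_mod_cast h.trans h'
        have h2 : ∀ l ∈ Finset.Ico k₀ (ℓ + 1),
              (({u : List (Fin d) | u ∈ B ∧ u.length = l + 1}.ncard : ℝ) *
                (w01Set B k₀ (ℓ - l) b).ncard) ≤ C' * r ^ l * F := by
          intro l hl
          rw [Finset.mem_Ico] at hl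
          have h3 := ih (ℓ - l) (by omega) b
          have h4 : ({u : List (Fin d) | u ∈ B ∧ u.length = l + 1}.ncard : ℝ) ≤
              C' * Real.exp (3 * δ * l) :=
            (hB l).trans (mul_le_mul_of_nonneg_right hCC (Real.exp_pos _).le)
          have h5 : Real.exp (3 * δ * l) * Real.exp (4 * δ * ((ℓ - l : ℕ) : ℝ) + s * b) ≤
              r ^ l * F := by
            rw [hr, ← Real.exp_nat_mul, hF, ← Real.exp_add, ← Real.exp_add]
            apply Real.exp_le_exp.2
            rw [Nat.cast_sub (by omega)]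
            push_cast
            nlinarith
          calc _ ≤ C' * Real.exp (3 * δ * l) * Real.exp (4 * δ * ((ℓ - l : ℕ) : ℝ) + s * b) :=
                mul_le_mul h4 h3 (Nat.cast_nonneg _) (by positivity)
            _ = C' * (Real.exp (3 * δ * l) * Real.exp (4 * δ * ((ℓ - l : ℕ) : ℝ) + s * b)) := by
                ring
            _ ≤ C' * (r ^ l * F) := mul_le_mul_of_nonneg_left h5 hC0
            _ = C' * r ^ l * F := by ring
        refine h1.trans ((Finset.sum_le_sum h2).trans ?_)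
        rw [← Finset.sum_mul, ← Finset.mul_sum]
        exact mul_le_mul_of_nonneg_right (hgeo _) hF0.le
      have hcard' : ((w01Set B k₀ (ℓ + 1) b).ncard : ℝ) ≤ (w01L B k₀ ℓ b).ncard +
          (⋃ l ∈ Finset.Ico k₀ (ℓ + 1), (fun p : List (Fin d) × List (Fin d) =>
          p.1 ++ p.2) '' ({u : List (Fin d) | u ∈ B ∧ u.length = l + 1} ×ˢ
            w01Set B k₀ (ℓ - l) b)).ncard := by
        exact_mod_cast hcard
      linarith

end Pool.Agent.Lib.MP_e4ee3e_an
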