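import Pool.Agent.Lib.MP_e4ee3e_an.W01

/-!
W02. Greedy decomposition. Induction on k - t starting at position t: if t >= k take k' = t; if t is
exceptional use Dec.letter and t + 1; otherwise use the block at t and t + l + 1.
-/

open MeasureTheory Filter Topology

namespace Pool.Agent.Lib.MP_e4ee3e_an

attribute [local instance] chMetric

theorem w02_aux {A : Type*} (B : Set (List A)) (k₀ : ℕ) (w : List A) (k : ℕ)
    (hk : k ≤ w.length) (E : Finset ℕ)
    (h : ∀ t < k, t ∈ E ∨ ∃ l, k₀ ≤ l ∧ t + l + 1 ≤ w.length ∧ (w.drop t).take (l + 1) ∈ B) :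
    ∀ n t : ℕ, t ≤ w.length → w.length - t = n →
      ∃ k', k ≤ k' ∧ t ≤ k' ∧ k' ≤ w.length ∧ ∃ b ≤ (E.filter (t ≤ ·)).card,
        Dec B k₀ b ((w.drop t).take (k' - t)) := by
  intro n
  induction n using Nat.strong_induction_on with
  | _ n ih =>
    intro t ht hn
    by_cases htk : k ≤ t
    · refine ⟨t, htk, le_rfl, ht, 0, Nat.zero_le _, ?_⟩
      rw [Nat.sub_self, List.take_zero]
      exact Dec.nil
    · push Not at htk
      rcases h t htk with hE | ⟨l, hl, hlw, hB⟩
      · obtain ⟨k', h1, h2, h3, b, hb, hD⟩ := ih (w.length - (t + 1)) (by omega) (t + 1)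
          (by omega) rfl
        refine ⟨k', h1, by omega, h3, b + 1, ?_, ?_⟩
        · have hss : insert t (E.filter (t + 1 ≤ ·)) ⊆ E.filter (t ≤ ·) := by
            intro x hx
            rw [Finset.mem_insert, Finset.mem_filter] at hx
            rw [Finset.mem_filter]
            rcases hx with rfl | ⟨hx, hx'⟩
            · exact ⟨hE, le_rfl⟩
            · exact ⟨hx, by omega⟩
          have hc := Finset.card_le_card hss
          rw [Finset.card_insert_of_notMem (by simp)] at hc
          omega
        · have htl : t < w.length := by omega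
          have e : (w.drop t).take (k' - t) =
              w[t] :: (w.drop (t + 1)).take (k' - (t + 1)) := by
            rw [List.drop_eq_getElem_cons htl]
            have : k' - t = (k' - (t + 1)) + 1 := by omega
            rw [this, List.take_succ_cons]
          rw [e]
          exact Dec.letter _ _ _ hD
      · obtain ⟨k', h1, h2, h3, b, hb, hD⟩ := ih (w.length - (t + l + 1)) (by omega) (t + l + 1)
          (by omega) rfl
        refine ⟨k', h1, by omega, h3, b, ?_, ?_⟩
        · refine hb.trans (Finset.card_le_card ?_)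
          intro x hx
          rw [Finset.mem_filter] at hx ⊢
          exact ⟨hx.1, by omega⟩
        · have e : (w.drop t).take (k' - t) =
              (w.drop t).take (l + 1) ++ (w.drop (t + l + 1)).take (k' - (t + l + 1)) := by
            have h5 : k' - t = (l + 1) + (k' - (t + l + 1)) := by omega
            rw [h5, List.take_add, List.drop_drop]
            congr 3
          rw [e]
          refine Dec.block _ _ _ hB ?_ hD
          rw [List.length_take, List.length_drop]
          omega

theorem dec_greedy {A : Type*} (B : Set (List A)) (k₀ : ℕ) (w : List A) (k : ℕ)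
    (hk : k ≤ w.length) (E : Finset ℕ)
    (h : ∀ t < k, t ∈ E ∨ ∃ l, k₀ ≤ l ∧ t + l + 1 ≤ w.length ∧ (w.drop t).take (l + 1) ∈ B) :
    ∃ k', k ≤ k' ∧ k' ≤ w.length ∧ ∃ b ≤ E.card, Dec B k₀ b (w.take k') := by
  obtain ⟨k', h1, -, h3, b, hb, hD⟩ := w02_aux B k₀ w k hk E h w.length 0 (Nat.zero_le _)
    (Nat.sub_zero _)
  refine ⟨k', h1, h3, b, hb.trans (Finset.card_filter_le _ _), ?_⟩
  simpa using hD

end Pool.Agent.Lib.MP_e4ee3e_an
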