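import Pool.Agent.Lib.MP_e4ee3e_an.W01
import Pool.Agent.Lib.MP_e4ee3e_an.W02

/-!
W03. Counting words with greedy structure up to position k and a bad (or arbitrary) tail from k on.
A word w of length i+1 in the set is determined by (k', w.take k', w.drop k) with k <= k' <= i+1.
-/

open MeasureTheory Filter Topology

namespace Pool.Agent.Lib.MP_e4ee3e_an

attribute [local instance] chMetric

theorem w03_sub {A : Type*} (B : Set (List A)) (k₀ i b k : ℕ) (hk : k ≤ i) (R : Set (List A)) :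
    {w : List A | w.length = i + 1 ∧ w.drop k ∈ R ∧
      ∃ E : Finset ℕ, E.card ≤ b ∧ ∀ t < k, t ∈ E ∨
        ∃ l, k₀ ≤ l ∧ t + l + 1 ≤ i + 1 ∧ (w.drop t).take (l + 1) ∈ B} ⊆
      ⋃ k' ∈ Finset.range (i + 2), (fun p : List A × List A => p.1 ++ p.2.drop (k' - k)) ''
        (w01Set B k₀ k' b ×ˢ R) := by
  rintro w ⟨hw, hR, E, hE, h⟩
  obtain ⟨k', h1, h2, b', hb', hD⟩ := dec_greedy B k₀ w k (by omega) E (by rw [hw]; exact h)
  rw [Set.mem_iUnion₂]
  refine ⟨k', by rw [Finset.mem_range]; omega, (w.take k', w.drop k),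
    ⟨⟨by rw [List.length_take]; omega, b', hb'.trans hE, hD⟩, hR⟩, ?_⟩
  simp only [List.drop_drop]
  have : k + (k' - k) = k' := by omega
  rw [this, List.take_append_drop]

theorem word_count (d : ℕ) (δ C : ℝ) (hδ : 0 < δ) :
    ∃ (k₀ : ℕ) (s : ℝ), 0 < s ∧ ∀ B : Set (List (Fin d)),
      (∀ l : ℕ, ({w : List (Fin d) | w ∈ B ∧ w.length = l + 1}.ncard : ℝ) ≤
        C * Real.exp (3 * δ * l)) →
      ∀ i b k : ℕ, k ≤ i → ∀ R : Set (List (Fin d)), R.Finite →
        ({w : List (Fin d) | w.length = i + 1 ∧ w.drop k ∈ R ∧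
          ∃ E : Finset ℕ, E.card ≤ b ∧ ∀ t < k, t ∈ E ∨
            ∃ l, k₀ ≤ l ∧ t + l + 1 ≤ i + 1 ∧ (w.drop t).take (l + 1) ∈ B}.ncard : ℝ) ≤
        (i + 2) * Real.exp (4 * δ * (i + 1) + s * b) * R.ncard := by
  obtain ⟨k₀, s, hs, hcount⟩ := dec_count d δ C hδ
  refine ⟨k₀, s, hs, ?_⟩
  intro B hB i b k hk R hR
  have h1 := w03_sub B k₀ i b k hk R
  have hf : ∀ k', (w01Set B k₀ k' b ×ˢ R).Finite := fun k' => (w01_finite B k₀ k' b).prod hR
  have hfin : (⋃ k' ∈ Finset.range (i + 2), (fun p : List (Fin d) × List (Fin d) =>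
      p.1 ++ p.2.drop (k' - k)) '' (w01Set B k₀ k' b ×ˢ R)).Finite :=
    Set.Finite.biUnion (Finset.finite_toSet _) fun k' _ => (hf k').image _
  have h2 := (Set.ncard_le_ncard h1 hfin).trans (Finset.set_ncard_biUnion_le _ _)
  have h3 : ∑ k' ∈ Finset.range (i + 2), ((fun p : List (Fin d) × List (Fin d) =>
      p.1 ++ p.2.drop (k' - k)) '' (w01Set B k₀ k' b ×ˢ R)).ncard ≤
      ∑ k' ∈ Finset.range (i + 2), (w01Set B k₀ k' b).ncard * R.ncard := by
    apply Finset.sum_le_sum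
    intro k' _
    refine (Set.ncard_image_le (hf k')).trans ?_
    rw [Set.ncard_prod]
  have h4 : ∀ k' ∈ Finset.range (i + 2), ((w01Set B k₀ k' b).ncard : ℝ) * R.ncard ≤
      Real.exp (4 * δ * (i + 1) + s * b) * R.ncard := by
    intro k' hk'
    rw [Finset.mem_range] at hk'
    apply mul_le_mul_of_nonneg_right _ (Nat.cast_nonneg _)
    refine (hcount B hB k' b).trans (Real.exp_le_exp.2 ?_)
    have : (k' : ℝ) ≤ i + 1 := by exact_mod_cast (by omega : k' ≤ i + 1)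
    nlinarith
  calc _ ≤ ((∑ k' ∈ Finset.range (i + 2), (w01Set B k₀ k' b).ncard * R.ncard : ℕ) : ℝ) := by
        exact_mod_cast h2.trans h3
    _ = ∑ k' ∈ Finset.range (i + 2), ((w01Set B k₀ k' b).ncard : ℝ) * R.ncard := by push_cast; rfl
    _ ≤ ∑ k' ∈ Finset.range (i + 2), Real.exp (4 * δ * (i + 1) + s * b) * R.ncard :=
        Finset.sum_le_sum h4
    _ = (i + 2) * Real.exp (4 * δ * (i + 1) + s * b) * R.ncard := by
        rw [Finset.sum_const, Finset.card_range, nsmul_eq_mul]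
        push_cast
        ring

end Pool.Agent.Lib.MP_e4ee3e_an
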