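import Pool.Agent.Lib.MP_e4ee3e_an.Setup

/-!
X01. Mean ergodic theorem in L1 with a strictly invariant limit. Apply
ContinuousLinearMap.tendsto_birkhoffAverage_orthogonalProjection to the Koopman operator
(Lp.compMeasurePreserving as an isometry of Lp ℝ 2 ν): the averages of the class of φ converge in L2
to a fixed vector h₀ (h₀ o S = h₀ a.e.). L2 convergence gives L1 convergence (probability measure).
Strictly invariant version: with h₁ a measurable representative clipped to [-1,1] (|h₀| <= 1 a.e.),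
h y = limsup over n of h₁ (S^[n] y): measurable, h (S y) = h y exactly, and h = h₀ a.e. because
h₁ (S^[n] y) = h₁ y for all n for a.e. y.
-/

open MeasureTheory Filter Topology

namespace Pool.Agent.Lib.MP_e4ee3e_an

attribute [local instance] chMetric

/-- clipping to `[-1, 1]` -/
noncomputable def x01clip (t : ℝ) : ℝ := max (-1) (min 1 t)

lemma x01clip_abs (t : ℝ) : |x01clip t| ≤ 1 := by
  unfold x01clip
  rw [abs_le]
  constructor
  · exact le_max_left _ _
  · exact max_le (by norm_num) (min_le_left _ _)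

lemma x01clip_lip (s t : ℝ) (hs : |s| ≤ 1) : |s - x01clip t| ≤ |s - t| := by
  rw [abs_le] at hs
  unfold x01clip
  rcases le_total t (-1) with h | h
  · rw [min_eq_right (by linarith), max_eq_left h]
    rw [abs_of_nonneg (by linarith), abs_of_nonneg (by linarith)]
    linarith
  · rcases le_total t 1 with h1 | h1
    · rw [min_eq_right h1, max_eq_right h]
    · rw [min_eq_left h1, max_eq_right (by norm_num)]
      rw [abs_of_nonpos (by linarith), abs_of_nonpos (by linarith)]
      linarith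

lemma x01clip_meas : Measurable x01clip :=
  measurable_const.max (measurable_const.min measurable_id)

theorem mean_ergodic_L1 {Y : Type*} [MeasurableSpace Y] {S : Y → Y} {ν : Measure Y}
    [IsProbabilityMeasure ν] (hν : MeasurePreserving S ν ν) (φ : Y → ℝ) (hφ : Measurable φ)
    (hb : ∀ y, |φ y| ≤ 1) :
    ∃ h : Y → ℝ, Measurable h ∧ (∀ y, h (S y) = h y) ∧ (∀ y, |h y| ≤ 1) ∧
      Tendsto (fun n : ℕ => ∫ y, |(∑ j ∈ Finset.range n, φ (S^[j] y)) / n - h y| ∂ν) atTop
        (𝓝 0) := by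
  have hφm : MemLp φ 2 ν := MemLp.of_bound hφ.aestronglyMeasurable 1
    (Eventually.of_forall fun y => by rw [Real.norm_eq_abs]; exact hb y)
  set K : Lp ℝ 2 ν →L[ℝ] Lp ℝ 2 ν :=
    (Lp.compMeasurePreservingₗᵢ ℝ S hν).toContinuousLinearMap with hK
  have hK1 : ‖K‖ ≤ 1 := LinearIsometry.norm_toContinuousLinearMap_le _
  set x : Lp ℝ 2 ν := hφm.toLp φ with hx
  have hconv := K.tendsto_birkhoffAverage_orthogonalProjection hK1 x
  set z : Lp ℝ 2 ν := ((K.eqLocus (1 : Lp ℝ 2 ν →L[ℝ] Lp ℝ 2 ν)).orthogonalProjectionOnto x :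
    Lp ℝ 2 ν) with hz
  have hzK : K z = z := ((K.eqLocus (1 : Lp ℝ 2 ν →L[ℝ] Lp ℝ 2 ν)).orthogonalProjectionOnto x).2
  have hzS : (z : Y → ℝ) ∘ S =ᵐ[ν] z := by
    have h1 : (K z : Lp ℝ 2 ν) =ᵐ[ν] (z : Y → ℝ) ∘ S := Lp.coeFn_compMeasurePreserving z hν
    rw [hzK] at h1
    exact h1.symm
  have hzm : Measurable (z : Y → ℝ) := (Lp.stronglyMeasurable z).measurable
  -- the iterates
  have hiter : ∀ n : ℕ, ((K^[n] x : Lp ℝ 2 ν) : Y → ℝ) =ᵐ[ν] fun y => φ (S^[n] y) := by
    intro n
    induction n with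
    | zero => exact hφm.coeFn_toLp
    | succ k ih =>
      rw [Function.iterate_succ_apply']
      have h1 : (K (K^[k] x) : Lp ℝ 2 ν) =ᵐ[ν] ((K^[k] x : Lp ℝ 2 ν) : Y → ℝ) ∘ S :=
        Lp.coeFn_compMeasurePreserving _ hν
      have h2 : ((K^[k] x : Lp ℝ 2 ν) : Y → ℝ) ∘ S =ᵐ[ν] (fun y => φ (S^[k] y)) ∘ S :=
        hν.quasiMeasurePreserving.ae_eq_comp ih
      refine h1.trans (h2.trans (Eventually.of_forall fun y => ?_))
      simp [Function.iterate_succ_apply]
  have hsum : ∀ n : ℕ, ((∑ j ∈ Finset.range n, K^[j] x : Lp ℝ 2 ν) : Y → ℝ) =ᵐ[ν]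
      fun y => ∑ j ∈ Finset.range n, φ (S^[j] y) := by
    intro n
    induction n with
    | zero =>
      simp only [Finset.range_zero, Finset.sum_empty]
      exact Lp.coeFn_zero _ _ _
    | succ k ih =>
      rw [Finset.sum_range_succ]
      refine (Lp.coeFn_add _ _).trans ?_
      filter_upwards [ih, hiter k] with y h1 h2
      rw [Pi.add_apply, h1, h2, Finset.sum_range_succ]
  have havg : ∀ n : ℕ, ((birkhoffAverage ℝ K _root_.id n x : Lp ℝ 2 ν) : Y → ℝ) =ᵐ[ν]
      fun y => (∑ j ∈ Finset.range n, φ (S^[j] y)) / n := by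
    intro n
    have e : (birkhoffAverage ℝ K _root_.id n x : Lp ℝ 2 ν) =
        (n : ℝ)⁻¹ • ∑ j ∈ Finset.range n, K^[j] x := rfl
    rw [e]
    refine (Lp.coeFn_smul _ _).trans ?_
    filter_upwards [hsum n] with y h1
    rw [Pi.smul_apply, h1, smul_eq_mul]
    ring
  -- the representative
  set h1 : Y → ℝ := fun y => x01clip (z y) with hh1
  have h1m : Measurable h1 := x01clip_meas.comp hzm
  have h1S : h1 ∘ S =ᵐ[ν] h1 := by
    filter_upwards [hzS] with y hy
    show x01clip (z (S y)) = x01clip (z y)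
    rw [show z (S y) = z y from hy]
  have h1n : ∀ n : ℕ, (fun y => h1 (S^[n] y)) =ᵐ[ν] h1 := by
    intro n
    induction n with
    | zero => exact Eventually.of_forall fun y => rfl
    | succ k ih =>
      have h2 : (h1 ∘ S) ∘ S^[k] =ᵐ[ν] h1 ∘ S^[k] :=
        (hν.iterate k).quasiMeasurePreserving.ae_eq_comp h1S
      filter_upwards [h2, ih] with y h3 h4
      rw [Function.iterate_succ_apply']
      exact h3.trans h4
  set h : Y → ℝ := fun y => limsup (fun n : ℕ => h1 (S^[n] y)) atTop with hh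
  have hSm : ∀ n : ℕ, Measurable (S^[n]) := fun n => hν.measurable.iterate n
  have hbd : ∀ y, ∀ n : ℕ, |h1 (S^[n] y)| ≤ 1 := fun y n => x01clip_abs _
  refine ⟨h, ?_, ?_, ?_, ?_⟩
  · exact Measurable.limsup fun n => h1m.comp (hSm n)
  · intro y
    show limsup (fun n : ℕ => h1 (S^[n] (S y))) atTop = limsup (fun n : ℕ => h1 (S^[n] y)) atTop
    rw [← limsup_nat_add (fun n : ℕ => h1 (S^[n] y)) 1]
    rfl
  · intro y
    have hbu : IsBoundedUnder (· ≤ ·) atTop (fun n : ℕ => h1 (S^[n] y)) :=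
      ⟨1, eventually_map.2 (Eventually.of_forall fun n => (abs_le.1 (hbd y n)).2)⟩
    have hbl : IsBoundedUnder (· ≥ ·) atTop (fun n : ℕ => h1 (S^[n] y)) :=
      ⟨-1, eventually_map.2 (Eventually.of_forall fun n => (abs_le.1 (hbd y n)).1)⟩
    rw [abs_le]
    constructor
    · exact le_limsup_of_frequently_le
        (Frequently.of_forall fun n => (abs_le.1 (hbd y n)).1) hbu
    · exact limsup_le_of_le hbl.isCoboundedUnder_le
        (Eventually.of_forall fun n => (abs_le.1 (hbd y n)).2)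
  · have hheq : h =ᵐ[ν] h1 := by
      have : ∀ᵐ y ∂ν, ∀ n : ℕ, h1 (S^[n] y) = h1 y := ae_all_iff.2 h1n
      filter_upwards [this] with y hy
      show limsup (fun n : ℕ => h1 (S^[n] y)) atTop = h1 y
      simp only [hy]
      exact limsup_const _
    have hnorm : Tendsto (fun n => ‖birkhoffAverage ℝ K _root_.id n x - z‖) atTop (𝓝 0) := by
      have := (tendsto_iff_norm_sub_tendsto_zero).1 hconv
      exact this
    refine squeeze_zero (fun n => integral_nonneg fun y => abs_nonneg _) (fun n => ?_) hnorm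
    set w : Lp ℝ 2 ν := birkhoffAverage ℝ K _root_.id n x - z with hw
    have hwint : Integrable (fun y => |(w : Y → ℝ) y|) ν := by
      have : MemLp (w : Y → ℝ) 1 ν := (Lp.memLp w).mono_exponent (by norm_num)
      have := memLp_one_iff_integrable.1 this
      exact this.abs
    have s1 : ∫ y, |(∑ j ∈ Finset.range n, φ (S^[j] y)) / n - h y| ∂ν ≤
        ∫ y, |(w : Y → ℝ) y| ∂ν := by
      refine integral_mono_of_nonneg (Eventually.of_forall fun y => abs_nonneg _) hwint ?_
      filter_upwards [havg n, hheq, Lp.coeFn_sub (birkhoffAverage ℝ K _root_.id n x) z]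
        with y h2 h3 h4
      rw [h3]
      have h5 : (w : Y → ℝ) y = (∑ j ∈ Finset.range n, φ (S^[j] y)) / n - z y := by
        rw [hw, h4, Pi.sub_apply, h2]
      rw [h5]
      apply x01clip_lip
      rw [abs_div, Nat.abs_cast]
      rcases Nat.eq_zero_or_pos n with h6 | h6
      · subst h6; simp
      · rw [div_le_one (by exact_mod_cast h6)]
        refine (Finset.abs_sum_le_sum_abs _ _).trans ?_
        refine (Finset.sum_le_sum fun j _ => hb (S^[j] y)).trans ?_
        simp
    refine s1.trans ?_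
    have s2 : ∫ y, |(w : Y → ℝ) y| ∂ν = (eLpNorm (w : Y → ℝ) 1 ν).toReal := by
      rw [eLpNorm_one_eq_lintegral_enorm, integral_eq_lintegral_of_nonneg_ae
        (Eventually.of_forall fun y => abs_nonneg _) hwint.aestronglyMeasurable]
      congr 1
      apply lintegral_congr
      intro y
      rw [← Real.norm_eq_abs, ofReal_norm]
    rw [s2, Lp.norm_def]
    apply ENNReal.toReal_mono (Lp.eLpNorm_ne_top w)
    exact eLpNorm_le_eLpNorm_of_exponent_le (by norm_num) (Lp.aestronglyMeasurable w)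

end Pool.Agent.Lib.MP_e4ee3e_an
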